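import Pool.Agent.Lib.MP_ae5b4e_an_NB5.Defs

/-!
# MP_ae5b4e_an, project NB_5(A): the constants and the extended window label
-/

noncomputable section

namespace Pool.Agent.MP_ae5b4e_an_NB5

open Complex Set Filter Topology Metric
open Pool.Agent.MP_ae5b4e_an_NBT (St)
open Pool.Agent.MP_ae5b4e_an_NB2 (Sys)
open scoped ComplexConjugate

/-- the constants of the crossing -/
structure Cs (κ v₀ y₀ α₀ δ₂ ν k₀ : ℝ) : Prop where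
  α_pos : 0 < α₀
  α_le : α₀ ≤ 1 / 1000
  d_pos : 0 < δ₂
  d_le : δ₂ ≤ 1 / 100
  ν_pos : 0 < ν
  ν_le : ν ≤ 1 / 2
  k_ge : 4 - v₀ ≤ k₀
  k_one : 4 ≤ k₀
  low : 9 ≤ κ * Real.exp (k₀ - 1)
  ey : Real.exp (y₀ / 2) * α₀ ≤ Real.pi

/-- the region of the vertical extension -/
def Sv (δ₂ k₀ v₀ : ℝ) : Set ℂ := {u | |u.re| < δ₂ ∧ -k₀ < u.im ∧ u.im < v₀ + δ₂}

/-- the extension of the window label beyond the zone, for `γ` near one -/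
structure TL (κ v₀ y₀ α₀ δ₂ ν k₀ k : ℝ) (z zt : ℂ × ℂ → ℂ) : Prop where
  an : AnalyticOnNhd ℂ zt (Sv δ₂ k₀ v₀ ×ˢ ball (1:ℂ) ν)
  bd : ∀ p ∈ Sv δ₂ k₀ v₀ ×ˢ ball (1:ℂ) ν, ‖zt p‖ ≤ k
  eq : ∀ p ∈ Sv δ₂ k₀ v₀ ×ˢ ball (1:ℂ) ν, p ∈ Wz k κ → zt p = z p
  val : ∀ u : ℂ, |u.re| < δ₂ → |u.im - v₀| < δ₂ → ‖zt (u, 1) - I * y₀‖ ≤ α₀ / 50
  der : ∀ u : ℂ, |u.re| < δ₂ → |u.im - v₀| < δ₂ → ‖deriv (fun u => zt (u, 1)) u - α₀‖ ≤ α₀ / 50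

end Pool.Agent.MP_ae5b4e_an_NB5
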