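import Pool.Agent.Lib.MP_ae5b4e_an_NB5.SpA

/-!
# MP_ae5b4e_an, project NB_5(A): the inverse function on a thin half strip
-/

noncomputable section

namespace Pool.Agent.MP_ae5b4e_an_NB5

open Complex Set Filter Topology Metric
open Pool.Agent.MP_ae5b4e_an_NBT (St)
open Pool.Agent.MP_ae5b4e_an_NB2 (Sys)
open scoped ComplexConjugate

private theorem SpB_mono {ϑ₁ r s : ℝ} (h : r ≤ s) : Rc ϑ₁ r ⊆ Rc ϑ₁ s := by
  rintro x ⟨h1, h2, h3⟩
  exact ⟨by linarith, by linarith, by linarith⟩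

private theorem SpB_convex (ϑ₁ r : ℝ) : Convex ℝ (Rc ϑ₁ r) := by
  rintro x ⟨hx1, hx2, hx3⟩ y ⟨hy1, hy2, hy3⟩ a b ha hb hab
  rw [abs_le] at hx3 hy3
  have e1 : (a • x + b • y).re = a * x.re + b * y.re := by simp
  have e2 : (a • x + b • y).im = a * x.im + b * y.im := by simp
  have hb' : b = 1 - a := by linarith
  refine ⟨?_, ?_, ?_⟩
  · rw [e1]
    have h1 := mul_le_mul_of_nonneg_left hx1 ha
    have h2 := mul_le_mul_of_nonneg_left hy1 hb
    have h3 : a * -r + b * -r = -r := by rw [hb']; ring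
    linarith
  · rw [e1]
    have h1 := mul_le_mul_of_nonneg_left hx2 ha
    have h2 := mul_le_mul_of_nonneg_left hy2 hb
    have h3 : a * (ϑ₁ + r) + b * (ϑ₁ + r) = ϑ₁ + r := by rw [hb']; ring
    linarith
  · rw [e2, abs_le]
    constructor
    · have h1 := mul_le_mul_of_nonneg_left hx3.1 ha
      have h2 := mul_le_mul_of_nonneg_left hy3.1 hb
      have h3 : a * -r + b * -r = -r := by rw [hb']; ring
      linarith
    · have h1 := mul_le_mul_of_nonneg_left hx3.2 ha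
      have h2 := mul_le_mul_of_nonneg_left hy3.2 hb
      have h3 : a * r + b * r = r := by rw [hb']; ring
      linarith

private theorem SpB_lower {f f' : ℂ → ℂ} {S : Set ℂ} (hS : Convex ℝ S) {m : ℝ}
    (hd : ∀ z ∈ S, HasDerivAt f (f' z) z) (hm : ∀ z ∈ S, m ≤ (f' z).re) {x y : ℂ}
    (hx : x ∈ S) (hy : y ∈ S) : m * ‖x - y‖ ≤ ‖f x - f y‖ := by
  rcases eq_or_ne x y with rfl | hne
  · simp
  have hpos : 0 < ‖x - y‖ := norm_pos_iff.2 (sub_ne_zero.2 hne)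
  have hseg : ∀ t ∈ Icc (0:ℝ) 1, y + (t:ℂ) * (x - y) ∈ S := by
    intro t ht
    have h1 := hS hy hx (a := 1 - t) (b := t) (by linarith [ht.2]) ht.1 (by ring)
    have e : (1 - t) • y + t • x = y + (t:ℂ) * (x - y) := by
      simp only [Complex.real_smul]
      push_cast
      ring
    rwa [e] at h1
  have hder : ∀ t ∈ Icc (0:ℝ) 1,
      HasDerivAt (fun t : ℝ => (conj (x - y) * f (y + (t:ℂ) * (x - y))).re)
        ((conj (x - y) * (f' (y + (t:ℂ) * (x - y)) * (x - y))).re) t := by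
    intro t ht
    have h1 : HasDerivAt (fun t : ℂ => y + t * (x - y)) (x - y) (t:ℂ) := by
      simpa using ((hasDerivAt_id (t:ℂ)).mul_const (x - y)).const_add y
    have h2 : HasDerivAt (fun t : ℂ => conj (x - y) * f (y + t * (x - y)))
        (conj (x - y) * (f' (y + (t:ℂ) * (x - y)) * (x - y))) (t:ℂ) :=
      (HasDerivAt.comp (t:ℂ) (hd _ (hseg t ht)) h1).const_mul _
    exact h2.real_of_complex
  have hmv := Convex.mul_sub_le_image_sub_of_le_deriv (convex_Icc (0:ℝ) 1)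
    (f := fun t : ℝ => (conj (x - y) * f (y + (t:ℂ) * (x - y))).re)
    (fun t ht => (hder t ht).continuousAt.continuousWithinAt)
    (fun t ht => (hder t (interior_subset ht)).differentiableAt.differentiableWithinAt)
    (C := m * ‖x - y‖ ^ 2) (fun t ht => by
      rw [(hder t (interior_subset ht)).deriv]
      have h3 : conj (x - y) * (f' (y + (t:ℂ) * (x - y)) * (x - y)) =
          ((‖x - y‖ ^ 2 : ℝ) : ℂ) * f' (y + (t:ℂ) * (x - y)) := by
        have h4 := Complex.conj_mul' (x - y)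
        push_cast
        rw [← h4]
        ring
      rw [h3, Complex.re_ofReal_mul, mul_comm]
      exact mul_le_mul_of_nonneg_left (hm _ (hseg t (interior_subset ht))) (by positivity))
    0 (left_mem_Icc.2 zero_le_one) 1 (right_mem_Icc.2 zero_le_one) zero_le_one
  have h5 : (conj (x - y) * f (y + ((1:ℝ):ℂ) * (x - y))).re -
      (conj (x - y) * f (y + ((0:ℝ):ℂ) * (x - y))).re = (conj (x - y) * (f x - f y)).re := by
    rw [← Complex.sub_re]
    congr 1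
    have e1 : y + ((1:ℝ):ℂ) * (x - y) = x := by
      push_cast
      ring
    have e0 : y + ((0:ℝ):ℂ) * (x - y) = y := by
      push_cast
      ring
    rw [e1, e0]
    ring
  beta_reduce at hmv
  rw [h5, sub_zero, mul_one] at hmv
  have h6 := (Complex.re_le_norm (conj (x - y) * (f x - f y)))
  rw [norm_mul, Complex.norm_conj] at h6
  have h7 : ‖x - y‖ * (m * ‖x - y‖) ≤ ‖x - y‖ * ‖f x - f y‖ := by
    calc ‖x - y‖ * (m * ‖x - y‖) = m * ‖x - y‖ ^ 2 := by ring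
      _ ≤ _ := hmv.trans h6
  exact le_of_mul_le_mul_left h7 hpos

private theorem SpB_sn {x : ℝ} (h0 : 0 ≤ x) (h1 : x < Real.pi) :
    ∃ s : ℝ, Sn x = s ∧ 0 < s ∧ s ≤ 1 := by
  obtain ⟨h2, h3, _, _⟩ := Sn_facts
  rcases h0.eq_or_lt with rfl | h0
  · exact ⟨1, by simpa using h2, one_pos, le_rfl⟩
  · refine ⟨Real.sin x / x, ?_, div_pos (Real.sin_pos_of_pos_of_lt_pi h0 h1) h0, ?_⟩
    · have h4 : (x:ℂ) ≠ 0 := by exact_mod_cast h0.ne'
      push_cast
      rw [eq_div_iff h4, mul_comm]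
      exact h3 x
    · rw [div_le_one h0]
      exact Real.sin_le h0.le

private theorem SpB_der {P Lm : ℂ → ℂ} (hS : Sp P Lm) {x : ℝ} (h0 : 0 ≤ x)
    (h1 : x < Real.pi) : 1 ≤ (P x ^ 2 * exp (Lm x / 2) / Sn x ^ 2).re := by
  obtain ⟨p, l, hp, hp1, hl, hl0⟩ := hS.rl x h0 h1
  obtain ⟨s, hs, hs0, hs1⟩ := SpB_sn h0 h1
  have e : P x ^ 2 * exp (Lm x / 2) / Sn x ^ 2 =
      ((p ^ 2 * Real.exp (l / 2) / s ^ 2 : ℝ) : ℂ) := by
    rw [hp, hl, hs]
    push_cast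
    ring
  rw [e, ofReal_re, one_le_div (by positivity)]
  have h2 : 1 ≤ Real.exp (l / 2) := Real.one_le_exp (by positivity)
  have h3 : 1 ≤ p ^ 2 := one_le_pow₀ hp1
  have h4 : s ^ 2 ≤ 1 := pow_le_one₀ hs0.le hs1
  nlinarith [mul_le_mul h3 h2 zero_le_one (by positivity)]

private theorem SpB_H {P Lm : ℂ → ℂ} (hS : Sp P Lm) {x : ℝ} (h0 : 0 ≤ x)
    (h1 : x < Real.pi) : ∃ y : ℝ, Hf P Lm x = y ∧ (0 < x → 0 < y) := by
  obtain ⟨p, l, hp, hp1, hl, hl0⟩ := hS.rl x h0 h1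
  refine ⟨x * p * Real.exp (l / 2), ?_, ?_⟩
  · unfold Hf
    rw [hp, hl]
    push_cast
    ring
  · intro hx
    have := Real.exp_pos (l / 2)
    positivity

private theorem SpB_ts (δ₁ v₁ : ℝ) : IsOpen (Ts δ₁ v₁) := by
  have h1 : IsOpen {τ : ℂ | |τ.re| < δ₁} :=
    isOpen_lt (Complex.continuous_re.abs) continuous_const
  have h2 : IsOpen {τ : ℂ | τ.im < v₁} := isOpen_lt Complex.continuous_im continuous_const
  exact h1.inter h2

/-- `H = Hf P Lm`, `H' = P² exp (Lm/2) / Sn²` (`Sp.hasDerivAt_Hf`). On the real segment `[0, ϑ₁]`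
one has `H' ≥ 1` (`P ≥ 1`, `Lm ≥ 0` real, `0 < Sn ≤ 1`). By compactness there is `r ∈ (0, 1]` with
`Rc ϑ₁ r ⊆ ball 0 π` and `Re H' ≥ 1/2` on `Rc ϑ₁ r`; this rectangle is convex, so `‖H x - H y‖ ≥
Re ((H x - H y) / (x - y)) ‖x - y‖ ≥ ‖x - y‖ / 2`: `m = 1/2`. `v₁ = 2 log (H ϑ₁)` (`H ϑ₁ > 0`
real). For real `x ∈ [0, ϑ₁]` the closed ball of radius `r / 4` about `x` lies in `Rc ϑ₁ (r / 2)`
and `DiffContOnCl.ball_subset_image_closedBall` (with `ε = r / 8`) gives `ball (H x) (r / 16) ⊆ H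
'' closedBall x (r / 4)`. `H` maps `[0, ϑ₁]` onto `[0, exp (v₁/2)]` (continuous, real, monotone).
For `τ ∈ Ts δ₁ v₁` the point `exp (- I τ / 2)` has modulus `s = exp (Im τ / 2) < exp (v₁ / 2)` and
argument `- Re τ / 2`, so its distance to `s` is at most `exp (v₁/2) δ₁ / 2 < r / 16` for small
`δ₁`. `th τ` = the preimage in `Rc ϑ₁ (r/2)`, unique by `inj`; analytic: inverse function theorem
(`H' ≠ 0`) and `inj` (the local inverse composed with `exp (- I τ / 2)` stays in `Rc ϑ₁ r` and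
agrees with `th`). -/
theorem exists_th {P Lm : ℂ → ℂ} (hS : Sp P Lm) {ϑ₁ : ℝ} (h0 : 0 < ϑ₁) (h1 : ϑ₁ < Real.pi) :
    ∃ (r δ₁ m v₁ : ℝ) (th : ℂ → ℂ), Th P Lm ϑ₁ r δ₁ m v₁ th := by
  have hder : ∀ ϑ ∈ ball (0:ℂ) Real.pi,
      HasDerivAt (Hf P Lm) (P ϑ ^ 2 * exp (Lm ϑ / 2) / Sn ϑ ^ 2) ϑ :=
    fun ϑ h => hS.hasDerivAt_Hf h
  have hcont : ContinuousOn (fun ϑ => P ϑ ^ 2 * exp (Lm ϑ / 2) / Sn ϑ ^ 2)
      (ball 0 Real.pi) := by
    refine ContinuousOn.div ?_ ?_ ?_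
    · exact (hS.anP.continuousOn.pow 2).mul ((hS.anL.continuousOn.div_const 2).cexp)
    · exact (Sn_facts.2.2.1.continuous.continuousOn).pow 2
    · intro x hx
      exact pow_ne_zero 2 (Sn_facts.2.2.2 x hx)
  have hU : IsOpen (ball (0:ℂ) Real.pi ∩
      (fun ϑ => (P ϑ ^ 2 * exp (Lm ϑ / 2) / Sn ϑ ^ 2).re) ⁻¹' Ioi (1 / 2)) :=
    (Complex.continuous_re.comp_continuousOn hcont).isOpen_inter_preimage isOpen_ball isOpen_Ioi
  have hK : IsCompact ((fun x : ℝ => (x:ℂ)) '' Icc 0 ϑ₁) :=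
    isCompact_Icc.image Complex.continuous_ofReal
  have hKU : (fun x : ℝ => (x:ℂ)) '' Icc 0 ϑ₁ ⊆ ball (0:ℂ) Real.pi ∩
      (fun ϑ => (P ϑ ^ 2 * exp (Lm ϑ / 2) / Sn ϑ ^ 2).re) ⁻¹' Ioi (1 / 2) := by
    rintro _ ⟨x, hx, rfl⟩
    refine ⟨?_, ?_⟩
    · rw [mem_ball_zero_iff, Complex.norm_real, Real.norm_eq_abs, abs_of_nonneg hx.1]
      linarith [hx.2]
    · have h2 := SpB_der hS hx.1 (by linarith [hx.2])
      rw [mem_preimage, mem_Ioi]
      linarith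
  obtain ⟨ε, hε, hεU⟩ := hK.exists_cthickening_subset_open hU hKU
  obtain ⟨r, hr0, hr1, hrε⟩ : ∃ r : ℝ, 0 < r ∧ r ≤ 1 ∧ 2 * r ≤ ε :=
    ⟨min 1 (ε / 2), lt_min one_pos (by positivity), min_le_left _ _, by
      have := min_le_right 1 (ε / 2)
      linarith⟩
  have hRc : Rc ϑ₁ r ⊆ ball (0:ℂ) Real.pi ∩
      (fun ϑ => (P ϑ ^ 2 * exp (Lm ϑ / 2) / Sn ϑ ^ 2).re) ⁻¹' Ioi (1 / 2) := by
    rintro ϑ ⟨h2, h3, h4⟩
    apply hεU
    obtain ⟨x, hx, hxr⟩ : ∃ x ∈ Icc 0 ϑ₁, |ϑ.re - x| ≤ r := by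
      rcases le_total 0 ϑ.re with h5 | h5
      · rcases le_total ϑ.re ϑ₁ with h6 | h6
        · exact ⟨ϑ.re, ⟨h5, h6⟩, by simpa using hr0.le⟩
        · exact ⟨ϑ₁, ⟨h0.le, le_rfl⟩, by rw [abs_le]; constructor <;> linarith⟩
      · exact ⟨0, ⟨le_rfl, h0.le⟩, by rw [abs_le]; constructor <;> linarith⟩
    refine mem_cthickening_of_dist_le ϑ (x : ℂ) ε _ ⟨x, hx, rfl⟩ ?_
    rw [dist_eq]
    refine (Complex.norm_le_abs_re_add_abs_im _).trans ?_
    have h7 : (ϑ - (x : ℂ)).re = ϑ.re - x := by simp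
    have h8 : (ϑ - (x : ℂ)).im = ϑ.im := by simp
    rw [h7, h8]
    linarith
  have hinj : ∀ x ∈ Rc ϑ₁ r, ∀ y ∈ Rc ϑ₁ r,
      1 / 2 * ‖x - y‖ ≤ ‖Hf P Lm x - Hf P Lm y‖ := fun x hx y hy =>
    SpB_lower (SpB_convex ϑ₁ r) (fun z hz => hder z (hRc hz).1) (fun z hz => (hRc hz).2.le)
      hx hy
  obtain ⟨y₁, hy₁, hy₁p⟩ := SpB_H hS h0.le h1
  have hy₁0 : 0 < y₁ := hy₁p h0
  have hball : ∀ x : ℝ, x ∈ Icc 0 ϑ₁ → ball (Hf P Lm x) (r / 16) ⊆
      Hf P Lm '' Rc ϑ₁ (r / 2) := by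
    intro x hx
    have hsub : closedBall (x:ℂ) (r / 4) ⊆ Rc ϑ₁ (r / 2) := by
      intro z hz
      rw [mem_closedBall, dist_eq] at hz
      have h2 := (Complex.abs_re_le_norm (z - x)).trans hz
      have h3 := (Complex.abs_im_le_norm (z - x)).trans hz
      rw [sub_re, ofReal_re, abs_le] at h2
      rw [sub_im, ofReal_im, sub_zero] at h3
      exact ⟨by linarith [hx.1], by linarith [hx.2], by linarith⟩
    have hsub' : closedBall (x:ℂ) (r / 4) ⊆ Rc ϑ₁ r :=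
      hsub.trans (SpB_mono (by linarith))
    have hx0 : (x:ℂ) ∈ Rc ϑ₁ r := hsub' (mem_closedBall_self (by positivity))
    have hdc : DiffContOnCl ℂ (Hf P Lm) (ball (x:ℂ) (r / 4)) := by
      refine DifferentiableOn.diffContOnCl fun z hz => ?_
      rw [closure_ball _ (by positivity)] at hz
      exact (hder z (hRc (hsub' hz)).1).differentiableAt.differentiableWithinAt
    have h := hdc.ball_subset_image_closedBall (ε := r / 8) (by positivity)
      (fun z hz => by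
        have h2 := hinj z (hsub' (sphere_subset_closedBall hz)) x hx0
        rw [mem_sphere, dist_eq] at hz
        rw [hz] at h2
        linarith) (by
        have hn : closedBall (x:ℂ) (r / 4) ∈ 𝓝[≠] (x:ℂ) :=
          mem_nhdsWithin_of_mem_nhds (closedBall_mem_nhds _ (by positivity))
        have h2 : ∀ᶠ z in 𝓝[≠] (x:ℂ), Hf P Lm z ≠ Hf P Lm x := by
          filter_upwards [hn, self_mem_nhdsWithin] with z hz hzx hEq
          have h3 := hinj z (hsub' hz) x hx0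
          rw [hEq, sub_self, norm_zero] at h3
          have h4 : 0 < ‖z - x‖ := norm_pos_iff.2 (sub_ne_zero.2 hzx)
          linarith
        exact h2.frequently.filter_mono nhdsWithin_le_nhds)
    intro w hw
    have e : r / 8 / 2 = r / 16 := by ring
    rw [e] at h
    exact image_mono hsub (h hw)
  have hT : ∀ w ∈ ⋃ s ∈ Icc (0:ℝ) y₁, ball (s:ℂ) (r / 16),
      ∃ ϑ, ϑ ∈ Rc ϑ₁ (r / 2) ∧ Hf P Lm ϑ = w := by
    intro w hw
    rw [mem_iUnion₂] at hw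
    obtain ⟨s, hs, hw⟩ := hw
    have hco : ContinuousOn (fun x : ℝ => (Hf P Lm x).re) (Icc 0 ϑ₁) := by
      intro x hx
      have h2 : ContinuousAt (Hf P Lm) (x:ℂ) := (hder x (hKU ⟨x, hx, rfl⟩).1).continuousAt
      have h3 : ContinuousAt (fun x : ℝ => Hf P Lm x) x :=
        ContinuousAt.comp (f := fun x : ℝ => (x:ℂ)) h2 Complex.continuous_ofReal.continuousAt
      exact (Complex.continuous_re.continuousAt.comp h3).continuousWithinAt
    have hivt := intermediate_value_Icc h0.le hco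
    have e0 : (Hf P Lm ((0:ℝ):ℂ)).re = 0 := by
      unfold Hf
      simp
    have e1 : (Hf P Lm (ϑ₁:ℂ)).re = y₁ := by
      rw [hy₁, ofReal_re]
    beta_reduce at hivt
    rw [e0, e1] at hivt
    obtain ⟨x, hx, hxs⟩ := hivt hs
    beta_reduce at hxs
    obtain ⟨y, hy, _⟩ := SpB_H hS hx.1 (by linarith [hx.2] : x < Real.pi)
    have h4 : Hf P Lm x = (s:ℂ) := by
      rw [hy] at hxs ⊢
      rw [ofReal_re] at hxs
      rw [hxs]
    obtain ⟨ϑ, h5, h6⟩ := hball x hx (by rw [h4]; exact hw)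
    exact ⟨ϑ, h5, h6⟩
  choose! G hG using hT
  have hTo : IsOpen (⋃ s ∈ Icc (0:ℝ) y₁, ball (s:ℂ) (r / 16)) :=
    isOpen_biUnion fun s _ => isOpen_ball
  have hmono : Rc ϑ₁ (r / 2) ⊆ Rc ϑ₁ r := SpB_mono (by linarith)
  have hGd : ∀ w ∈ ⋃ s ∈ Icc (0:ℝ) y₁, ball (s:ℂ) (r / 16), DifferentiableAt ℂ G w := by
    intro w hw
    have hlip : LipschitzOnWith 2 G (⋃ s ∈ Icc (0:ℝ) y₁, ball (s:ℂ) (r / 16)) := by
      refine LipschitzOnWith.of_dist_le_mul fun x hx y hy => ?_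
      have h2 := hinj (G x) (hmono (hG x hx).1) (G y) (hmono (hG y hy).1)
      rw [(hG x hx).2, (hG y hy).2] at h2
      rw [dist_eq, dist_eq]
      push_cast
      linarith
    have hcG : ContinuousAt G w := hlip.continuousOn.continuousAt (hTo.mem_nhds hw)
    have hb := hRc (hmono (hG w hw).1)
    have hne : P (G w) ^ 2 * exp (Lm (G w) / 2) / Sn (G w) ^ 2 ≠ 0 := by
      intro h2
      have h3 := hb.2
      rw [mem_preimage, mem_Ioi, h2, zero_re] at h3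
      linarith
    refine (HasDerivAt.of_local_left_inverse hcG (hder _ hb.1) hne ?_).differentiableAt
    filter_upwards [hTo.mem_nhds hw] with w' hw'
    exact (hG w' hw').2
  have hv : Real.exp (2 * Real.log y₁ / 2) = y₁ := by
    rw [mul_div_cancel_left₀ _ (two_ne_zero), Real.exp_log hy₁0]
  obtain ⟨δ₁, hδ0, hδ1, hδ⟩ : ∃ δ₁ : ℝ, 0 < δ₁ ∧ δ₁ ≤ 1 ∧ y₁ * δ₁ ≤ r / 16 := by
    refine ⟨min 1 (r / (16 * y₁)), lt_min one_pos (by positivity), min_le_left _ _, ?_⟩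
    calc y₁ * min 1 (r / (16 * y₁)) ≤ y₁ * (r / (16 * y₁)) :=
          mul_le_mul_of_nonneg_left (min_le_right _ _) hy₁0.le
      _ = r / 16 := by field_simp
  have hmap : ∀ τ ∈ Ts δ₁ (2 * Real.log y₁), exp (-(I * τ / 2)) ∈
      ⋃ s ∈ Icc (0:ℝ) y₁, ball (s:ℂ) (r / 16) := by
    rintro τ ⟨h2, h3⟩
    rw [mem_iUnion₂]
    have hs1 : Real.exp (τ.im / 2) < y₁ := by
      rw [← hv, Real.exp_lt_exp]
      linarith
    refine ⟨Real.exp (τ.im / 2), ⟨(Real.exp_pos _).le, hs1.le⟩, ?_⟩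
    rw [mem_ball, dist_eq]
    have e : exp (-(I * τ / 2)) - (Real.exp (τ.im / 2) : ℂ) =
        (Real.exp (τ.im / 2) : ℂ) * (exp (I * ((-(τ.re / 2) : ℝ) : ℂ)) - 1) := by
      have e2 : -(I * τ / 2) = ((τ.im / 2 : ℝ) : ℂ) + I * ((-(τ.re / 2) : ℝ) : ℂ) := by
        conv_lhs => rw [← re_add_im τ]
        push_cast
        linear_combination (-(τ.im : ℂ) / 2) * I_sq
      rw [e2, exp_add, ofReal_exp]
      ring
    rw [e, norm_mul, Complex.norm_real, Real.norm_of_nonneg (Real.exp_pos _).le]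
    have h4 := Real.norm_exp_I_mul_ofReal_sub_one_le (x := -(τ.re / 2))
    have h5 : ‖-(τ.re / 2)‖ = |τ.re| / 2 := by
      rw [norm_neg, Real.norm_eq_abs, abs_div]
      simp
    rw [h5] at h4
    calc Real.exp (τ.im / 2) * ‖exp (I * ((-(τ.re / 2) : ℝ) : ℂ)) - 1‖
        ≤ y₁ * (|τ.re| / 2) := mul_le_mul hs1.le h4 (norm_nonneg _) hy₁0.le
      _ ≤ y₁ * (δ₁ / 2) := mul_le_mul_of_nonneg_left (by linarith) hy₁0.le
      _ < r / 16 := by nlinarith [mul_pos hy₁0 hδ0]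
  refine ⟨r, δ₁, 1 / 2, 2 * Real.log y₁, fun τ => G (exp (-(I * τ / 2))), hr0, hr1,
    fun x hx => (hRc hx).1, hδ0, hδ1, by norm_num, ?_, ?_, fun τ hτ => (hG _ (hmap τ hτ)).1,
    fun τ hτ => (hG _ (hmap τ hτ)).2, hinj⟩
  · rw [hv, hy₁]
  · refine DifferentiableOn.analyticOnNhd (fun τ hτ => ?_) (SpB_ts _ _)
    have h2 : DifferentiableAt ℂ (fun τ : ℂ => exp (-(I * τ / 2))) τ := by fun_prop
    exact (DifferentiableAt.comp τ (hGd _ (hmap τ hτ)) h2).differentiableWithinAt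

/-- the values on the imaginary axis: if `0 ≤ x ≤ ϑ₁` is real and `Hf x = exp (v / 2)` with `v < v₁`
then `th (I v) = x` (`inj`), and the derivative of `τ - I Lm (th τ)` is `1 / P (th τ)` at every `τ`:
`Hf' (th) th' = - (I/2) exp (- I τ/2) = - (I/2) Hf (th)`, so `th' = - (I/2) ϑ Sn² / P`, `dL`. -/
theorem Th.facts {P Lm : ℂ → ℂ} (hS : Sp P Lm) {ϑ₁ r δ₁ m v₁ : ℝ} {th : ℂ → ℂ}
    (hT : Th P Lm ϑ₁ r δ₁ m v₁ th) :
    (∀ x v : ℝ, 0 ≤ x → x ≤ ϑ₁ → v < v₁ → Hf P Lm x = Real.exp (v / 2) → th (I * v) = x) ∧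
      ∀ τ ∈ Ts δ₁ v₁, P (th τ) ≠ 0 →
        HasDerivAt (fun τ => τ - I * Lm (th τ)) (1 / P (th τ)) τ := by
  have hmono : Rc ϑ₁ (r / 2) ⊆ Rc ϑ₁ r := SpB_mono (by linarith [hT.r_pos])
  constructor
  · intro x v hx0 hx1 hv hx
    have hτ : I * (v:ℂ) ∈ Ts δ₁ v₁ := by
      refine ⟨?_, ?_⟩
      · simpa using hT.δ_pos
      · simpa using hv
    have h1 := hT.eq _ hτ
    have h2 : -(I * (I * (v:ℂ)) / 2) = ((v / 2 : ℝ) : ℂ) := by
      push_cast
      linear_combination (-(v:ℂ) / 2) * I_sq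
    rw [h2, ← ofReal_exp, ← hx] at h1
    have hxm : (x:ℂ) ∈ Rc ϑ₁ r := by
      have := hT.r_pos
      exact ⟨by rw [ofReal_re]; linarith, by rw [ofReal_re]; linarith, by
        rw [ofReal_im, abs_zero]; linarith⟩
    have h3 := hT.inj _ (hmono (hT.mem _ hτ)) _ hxm
    rw [h1, sub_self, norm_zero] at h3
    have h4 : ‖th (I * v) - x‖ = 0 := by
      have h5 := norm_nonneg (th (I * v) - x)
      have h6 := hT.m_pos
      by_contra h7
      have h8 : 0 < ‖th (I * v) - x‖ := lt_of_le_of_ne h5 (Ne.symm h7)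
      have h9 := mul_pos h6 h8
      linarith
    exact sub_eq_zero.1 (norm_eq_zero.1 h4)
  · intro τ hτ hP
    have hb : th τ ∈ ball (0:ℂ) Real.pi := hT.sub (hmono (hT.mem _ hτ))
    have hth : HasDerivAt th (deriv th τ) τ := (hT.an τ hτ).differentiableAt.hasDerivAt
    have h1 : HasDerivAt (fun τ => Hf P Lm (th τ))
        (P (th τ) ^ 2 * exp (Lm (th τ) / 2) / Sn (th τ) ^ 2 * deriv th τ) τ :=
      HasDerivAt.comp τ (hS.hasDerivAt_Hf hb) hth
    have h2 : HasDerivAt (fun τ : ℂ => exp (-(I * τ / 2)))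
        (exp (-(I * τ / 2)) * (-(I / 2))) τ := by
      have h3 : HasDerivAt (fun τ : ℂ => I * τ / 2) (I / 2) τ := by
        simpa using ((hasDerivAt_id τ).const_mul I).div_const 2
      exact h3.fun_neg.cexp
    have h4 : HasDerivAt (fun τ => Hf P Lm (th τ)) (exp (-(I * τ / 2)) * (-(I / 2))) τ := by
      refine h2.congr_of_eventuallyEq ?_
      filter_upwards [(SpB_ts δ₁ v₁).mem_nhds hτ] with τ' hτ'
      exact hT.eq τ' hτ'
    have h5 := h1.unique h4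
    rw [← hT.eq τ hτ] at h5
    unfold Hf at h5
    have hSn : Sn (th τ) ≠ 0 := Sn_facts.2.2.2 _ hb
    have hE : exp (Lm (th τ) / 2) ≠ 0 := exp_ne_zero _
    have h6 : P (th τ) * deriv th τ = -(I / 2) * (th τ * Sn (th τ) ^ 2) := by
      rw [div_mul_eq_mul_div, div_eq_iff (pow_ne_zero 2 hSn)] at h5
      have h7 : (P (th τ) * exp (Lm (th τ) / 2)) * (P (th τ) * deriv th τ) =
          (P (th τ) * exp (Lm (th τ) / 2)) * (-(I / 2) * (th τ * Sn (th τ) ^ 2)) := by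
        linear_combination h5
      exact mul_left_cancel₀ (mul_ne_zero hP hE) h7
    have hL : HasDerivAt (fun τ => Lm (th τ)) (deriv Lm (th τ) * deriv th τ) τ :=
      HasDerivAt.comp τ (hS.anL _ hb).differentiableAt.hasDerivAt hth
    have h8 := (hasDerivAt_id τ).sub (hL.const_mul I)
    refine h8.congr_deriv ?_
    have h9 := hS.dL _ hb
    rw [eq_div_iff hP]
    linear_combination (-(I * deriv Lm (th τ))) * h6 + (I ^ 2 / 2) * h9 +
      (P (th τ) - 1) * I_sq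

end Pool.Agent.MP_ae5b4e_an_NB5
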