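import Pool.Agent.Lib.MP_ae5b4e_an_NB5.Top1
import Pool.Agent.Lib.MP_ae5b4e_an_NB5.CsD
import Pool.Agent.Lib.MP_ae5b4e_an_NB5.SpB

/-!
# MP_ae5b4e_an, project NB_5(A): the window label beyond the zone
-/

noncomputable section

namespace Pool.Agent.MP_ae5b4e_an_NB5

open Complex Set Filter Topology Metric
open Pool.Agent.MP_ae5b4e_an_NBT (St)
open Pool.Agent.MP_ae5b4e_an_NB2 (Sys)
open scoped ComplexConjugate

private theorem top_sn {x : ℝ} (h0 : 0 ≤ x) (h1 : x < Real.pi) :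
    ∃ s : ℝ, Sn x = s ∧ 0 < s := by
  obtain ⟨h2, h3, _, _⟩ := Sn_facts
  rcases h0.eq_or_lt with rfl | h0
  · exact ⟨1, by simpa using h2, one_pos⟩
  · refine ⟨Real.sin x / x, ?_, div_pos (Real.sin_pos_of_pos_of_lt_pi h0 h1) h0⟩
    have h4 : (x:ℂ) ≠ 0 := by exact_mod_cast h0.ne'
    push_cast
    rw [eq_div_iff h4, mul_comm]
    exact h3 x

private theorem top_der {P Lm : ℂ → ℂ} (hS : Sp P Lm) {x : ℝ} (h0 : 0 ≤ x)
    (h1 : x < Real.pi) : 0 < (P x ^ 2 * exp (Lm x / 2) / Sn x ^ 2).re := by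
  obtain ⟨p, l, hp, hp1, hl, hl0⟩ := hS.rl x h0 h1
  obtain ⟨s, hs, hs0⟩ := top_sn h0 h1
  have e : P x ^ 2 * exp (Lm x / 2) / Sn x ^ 2 =
      ((p ^ 2 * Real.exp (l / 2) / s ^ 2 : ℝ) : ℂ) := by
    rw [hp, hl, hs]
    push_cast
    ring
  rw [e, ofReal_re]
  have h2 := Real.exp_pos (l / 2)
  positivity

private theorem top_mono {P Lm : ℂ → ℂ} (hS : Sp P Lm) {x y : ℝ} (hx : 0 ≤ x) (hxy : x < y)
    (hy : y < Real.pi) : (Hf P Lm x).re < (Hf P Lm y).re := by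
  have hd : ∀ t : ℝ, 0 ≤ t → t < Real.pi → HasDerivAt (fun t : ℝ => (Hf P Lm t).re)
      (P t ^ 2 * exp (Lm t / 2) / Sn t ^ 2).re t := by
    intro t h0 h1
    have h2 : (t:ℂ) ∈ ball (0:ℂ) Real.pi := by
      rw [mem_ball_zero_iff, Complex.norm_real, Real.norm_eq_abs, abs_of_nonneg h0]
      exact h1
    exact (hS.hasDerivAt_Hf h2).real_of_complex
  obtain ⟨c, hc, hc'⟩ := exists_hasDerivAt_eq_slope (fun t : ℝ => (Hf P Lm t).re)
    (fun t : ℝ => (P t ^ 2 * exp (Lm t / 2) / Sn t ^ 2).re) hxy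
    (fun t ht => (hd t (hx.trans ht.1) (ht.2.trans_lt hy)).continuousAt.continuousWithinAt)
    (fun t ht => hd t (hx.trans ht.1.le) (ht.2.trans hy))
  have h3 := top_der hS (hx.trans hc.1.le) (hc.2.trans hy)
  rw [hc', div_pos_iff] at h3
  rcases h3 with h3 | h3
  · linarith [h3.1]
  · linarith [h3.2]

private theorem top_log {γ : ℂ} {ν : ℝ} (hν : ν ≤ 1 / 2) (h : γ ∈ ball (1:ℂ) ν) :
    ‖log γ‖ ≤ 3 / 2 * ν ∧ γ ∈ slitPlane := by
  rw [mem_ball, dist_eq_norm] at h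
  have h1 : ‖γ - 1‖ ≤ 1 / 2 := by linarith
  have h2 := Complex.norm_log_one_add_half_le_self h1
  rw [add_sub_cancel] at h2
  refine ⟨by linarith, ?_⟩
  have h3 := Complex.mem_slitPlane_of_norm_lt_one (z := γ - 1) (by linarith)
  rwa [add_sub_cancel] at h3

private theorem top_exp {γ u : ℂ} (hγ : γ ∈ slitPlane) :
    ‖γ‖ ^ 2 * Real.exp u.im = Real.exp (u + 2 * I * log γ).im := by
  have h0 : γ ≠ 0 := slitPlane_ne_zero hγ
  have h1 : (u + 2 * I * log γ).im = u.im + 2 * Real.log ‖γ‖ := by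
    rw [add_im, mul_im]
    simp [Complex.log_re]
  have h2 : 0 < ‖γ‖ := norm_pos_iff.2 h0
  rw [h1, Real.exp_add, mul_comm 2 (Real.log ‖γ‖), mul_comm (Real.exp u.im)]
  congr 1
  rw [mul_two, Real.exp_add, Real.exp_log h2, sq]

/-- the two functions agree -/
private theorem top_agree {tc δ₁ v₀ v₁ d r₀ r₁ r₂ : ℝ} {T X : ℂ → ℂ}
    (hC : Cm tc δ₁ v₀ v₁ d r₀ r₁ r₂ T X) (hδ1 : δ₁ ≤ 1) {κ K : ℝ}
    (htc : tc + 2 ≤ Real.log κ) (htv : tc + 1 ≤ v₀) (hκ : 0 < κ) {Z : Sys} {q : ℂ → ℂ}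
    {ε k δ : ℝ} {z : ℂ × ℂ → ℂ} (hW : WL Z q ε k δ κ K z) (hk : |tc| + |Real.log κ| + 10 ≤ k)
    {Et : ℂ × ℂ → ℂ} (hEa : AnalyticOnNhd ℂ Et (ball (0:ℂ) r₂ ×ˢ ball (0:ℂ) (1 / 2)))
    (hE0 : ∀ p ∈ ball (0:ℂ) r₀ ×ˢ ball (0:ℂ) (1 / 2),
            Et p = z (T p.1 - 2 * I * p.2, exp p.2) - (T p.1 - 2 * I * p.2))
    {τ w : ℂ} (h1 : |τ.re| < 3 * d) (h2 : tc - 1 < τ.im) (h3 : τ.im < Real.log κ)
    (h4 : τ.im < v₀ + 3 * d) (hw : ‖w‖ < 1 / 2) :
    Et (X τ, w) = z (τ - 2 * I * w, exp w) - (τ - 2 * I * w) := by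
  have hd := hC.d2
  have hd' := hC.d2'
  set D : Set ℂ := Ioo (-(3 * d)) (3 * d) ×ℂ Ioo (tc - 1) (min (Real.log κ) (v₀ + 3 * d))
    with hD
  have hDmem : ∀ τ : ℂ, τ ∈ D ↔ |τ.re| < 3 * d ∧ tc - 1 < τ.im ∧ τ.im < Real.log κ ∧
      τ.im < v₀ + 3 * d := by
    intro τ
    rw [hD, mem_reProdIm, mem_Ioo, mem_Ioo, lt_min_iff, abs_lt]
  have hDc : Convex ℝ D := by
    have e1 : D = (Ioo (-(3 * d)) (3 * d)) ×ℂ (Ioo (tc - 1) (min (Real.log κ) (v₀ + 3 * d))) := hD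
    rw [e1]
    exact (convex_Ioo (-(3 * d)) (3 * d)).is_linear_preimage ⟨fun x y => rfl, fun c x => by simp⟩
      |>.inter ((convex_Ioo (tc - 1) (min (Real.log κ) (v₀ + 3 * d))).is_linear_preimage
        ⟨fun x y => rfl, fun c x => by simp⟩)
  have hconv : IsPreconnected (D ×ˢ ball (0:ℂ) (1 / 2)) :=
    (hDc.prod (convex_ball _ _)).isPreconnected
  have hmemW : ∀ p ∈ D ×ˢ ball (0:ℂ) (1 / 2), (p.1 - 2 * I * p.2, exp p.2) ∈ Wz k κ := by
    rintro ⟨τ, w⟩ ⟨hτ, hw⟩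
    obtain ⟨g1, g2, g3, g4⟩ := (hDmem τ).1 hτ
    have hw' : ‖w‖ < 1 / 2 := by simpa using hw
    have gre : |w.re| ≤ ‖w‖ := abs_re_le_norm w
    have gre' := abs_le.1 gre
    refine ⟨?_, ?_, ?_⟩
    · show ‖τ - 2 * I * w‖ < k
      have e1 : ‖2 * I * w‖ = 2 * ‖w‖ := by
        rw [norm_mul, norm_mul, norm_I, mul_one]
        norm_num
      have e2 : ‖τ‖ ≤ |τ.re| + |τ.im| := norm_le_abs_re_add_abs_im τ
      have e3 : |τ.im| ≤ |tc| + 1 + |Real.log κ| := by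
        rw [abs_le]
        have := neg_abs_le tc
        have := le_abs_self (Real.log κ)
        have := abs_nonneg tc
        have := abs_nonneg (Real.log κ)
        constructor <;> linarith
      have := norm_sub_le τ (2 * I * w)
      rw [e1] at this
      linarith
    · show ‖exp w‖ < k
      rw [Complex.norm_exp]
      have e1 : Real.exp w.re ≤ Real.exp 1 := Real.exp_le_exp.2 (by linarith)
      have e2 := Real.exp_one_lt_d9
      have := abs_nonneg tc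
      have := abs_nonneg (Real.log κ)
      linarith
    · show ‖exp w‖ ^ 2 * Real.exp (τ - 2 * I * w).im < κ
      have e1 : (τ - 2 * I * w).im = τ.im - 2 * w.re := by simp
      rw [Complex.norm_exp, e1, ← Real.exp_nat_mul, ← Real.exp_add]
      have e2 : ((2:ℕ):ℝ) * w.re + (τ.im - 2 * w.re) = τ.im := by push_cast; ring
      rw [e2]
      exact (Real.lt_log_iff_exp_lt hκ).1 g3
  have hf1 : AnalyticOnNhd ℂ (fun p : ℂ × ℂ => Et (X p.1, p.2)) (D ×ˢ ball (0:ℂ) (1 / 2)) := by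
    rintro ⟨τ, w⟩ ⟨hτ, hw⟩
    obtain ⟨g1, g2, g3, g4⟩ := (hDmem τ).1 hτ
    have e1 : AnalyticAt ℂ X τ := hC.anX τ (by show |τ.re| < δ₁; linarith)
    have e2 : AnalyticAt ℂ (fun p : ℂ × ℂ => (X p.1, p.2)) (τ, w) :=
      (AnalyticAt.comp (g := X) (f := fun p : ℂ × ℂ => p.1) e1 analyticAt_fst).prod analyticAt_snd
    exact AnalyticAt.comp (g := Et) (f := fun p : ℂ × ℂ => (X p.1, p.2))
      (hEa _ ⟨hC.mem τ g1 g2 g4, hw⟩) e2
  have hf2 : AnalyticOnNhd ℂ (fun p : ℂ × ℂ => z (p.1 - 2 * I * p.2, exp p.2) -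
      (p.1 - 2 * I * p.2)) (D ×ˢ ball (0:ℂ) (1 / 2)) := by
    intro p hp
    have e1 : AnalyticAt ℂ (fun p : ℂ × ℂ => p.1 - 2 * I * p.2) p :=
      analyticAt_fst.sub (analyticAt_const.mul analyticAt_snd)
    have e2 : AnalyticAt ℂ (fun p : ℂ × ℂ => (p.1 - 2 * I * p.2, exp p.2)) p :=
      e1.prod analyticAt_snd.cexp
    exact (AnalyticAt.comp (g := z) (f := fun p : ℂ × ℂ => (p.1 - 2 * I * p.2, exp p.2))
      (hW.an _ (hmemW p hp)) e2).sub e1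
  have hp0 : ((tc * I : ℂ), (0:ℂ)) ∈ D ×ˢ ball (0:ℂ) (1 / 2) := by
    refine ⟨(hDmem _).2 ?_, by simp⟩
    refine ⟨?_, ?_, ?_, ?_⟩
    · simp
      linarith
    · simp
    · simp
      linarith
    · simp
      linarith
  have hev : (fun p : ℂ × ℂ => Et (X p.1, p.2)) =ᶠ[𝓝 ((tc * I : ℂ), (0:ℂ))]
      (fun p : ℂ × ℂ => z (p.1 - 2 * I * p.2, exp p.2) - (p.1 - 2 * I * p.2)) := by
    have ho : ball (tc * I : ℂ) (3 * d) ×ˢ ball (0:ℂ) (1 / 2) ∈ 𝓝 ((tc * I : ℂ), (0:ℂ)) :=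
      (isOpen_ball.prod isOpen_ball).mem_nhds
        ⟨mem_ball_self (by linarith), mem_ball_self (by norm_num)⟩
    filter_upwards [ho] with p hp
    have e1 : ‖p.1 - tc * I‖ < 3 * d := by
      have := hp.1
      rwa [mem_ball, dist_eq_norm] at this
    have e2 : |p.1.re| < δ₁ := by
      have e3 : |(p.1 - tc * I).re| ≤ ‖p.1 - tc * I‖ := abs_re_le_norm _
      have e4 : (p.1 - tc * I).re = p.1.re := by simp
      rw [e4] at e3
      linarith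
    have e5 := hE0 (X p.1, p.2) ⟨hC.mem0 _ e1, hp.2⟩
    simp only [(hC.TX p.1 e2).2] at e5
    exact e5
  have := hf1.eqOn_of_preconnected_of_eventuallyEq hf2 hconv hp0 hev
    (show (τ, w) ∈ D ×ˢ ball (0:ℂ) (1 / 2) from
      ⟨(hDmem τ).2 ⟨h1, h2, h3, h4⟩, by simpa using hw⟩)
  exact this

/-- **Beyond the zone.** `exists_sp`, `Sp.big` with `M = 1000`: `ϑ₀ ∈ (0, π)`, `P ϑ₀ = p₀ ≥ 1000`,
`Lm ϑ₀ = l₀ ≥ 0` (`Sp.rl`); `α₀ = 1 / p₀`, `Hf ϑ₀ = ϑ₀ p₀ exp (l₀ / 2) = exp (v₀ / 2)`, `y₀ = v₀ - l₀`, so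
`exp (y₀ / 2) α₀ = ϑ₀`. `ϑ₁ = (ϑ₀ + π) / 2`, `exists_th`; `v₀ < v₁` (`Hf` is real and strictly increasing on
`[0, π)`, `Sp.hasDerivAt_Hf`, `Sp.rl`). `tc = min (log κ - 2) (v₀ - 1)`, `exists_cm` (its `δ₂` is called `d`).
`Φ τ = τ - I Lm (th τ)` on `Ts δ₁ v₁`: `th (I v₀) = ϑ₀`, `Φ (I v₀) = I y₀`, `Φ' (I v₀) = α₀` (`Th.facts`). By
continuity there is `d₃ ≤ min d (1/100)` with `‖Φ - I y₀‖ ≤ α₀ / 100`, `‖Φ' - α₀‖ ≤ α₀ / 100` on
`|Re τ| < 2 d₃`, `|Im τ - v₀| < 2 d₃`. `θ' = α₀ d₃ / 400`; `interp` gives `Et`. Constants: `δ₂ = d₃`,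
`ν = min (1/2) (d₃ / 8)` (so `‖log γ‖ ≤ 2 ν < 1/2` for `γ ∈ ball 1 ν`), `k₀` large (`Cs`).
For `(u, γ) ∈ Sv × ball 1 ν` put `w = log γ`, `τ = u + 2 I w`: `|Re τ| < 3 d`, `Im τ < v₀ + 3 d`. On
`{|Re τ| < 3 d, tc - 1 < Im τ < log κ} × ball 0 (1/2)` (convex) the analytic functions `Et (X τ, w)` and
`z (τ - 2 I w, exp w) - (τ - 2 I w)` agree: they do for `‖τ - I tc‖ < 3 d` (`Cm.mem0`, `Cm.TX`); note
`(τ - 2 I w, exp w) ∈ Wz k κ` iff `Im τ < log κ` (`k` large). Put `zt (u, γ) = u + Et (X τ, w)` if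
`tc - 1 < Im τ`, `zt (u, γ) = z (u, γ)` otherwise. `bd`: `‖z - u‖ ≤ K`, `‖Et‖ ≤ C_L + θ'`, `k` large.
`val`, `der`: `zt (u, 1) = u + Et (X u, 0)` differs from `Φ u` by at most `θ'` on
`|Re u| < 2 d₃`, `|Im u - v₀| < 2 d₃`, Cauchy estimate on discs of radius `d₃`. -/
theorem top_label {κ K : ℝ} (hκ : 0 < κ) (hκ1 : κ ≤ 1) (hK : 1 ≤ K) :
    ∃ v₀ y₀ α₀ δ₂ ν k₀ : ℝ, Cs κ v₀ y₀ α₀ δ₂ ν k₀ ∧ ∃ k₁ δ₁ : ℝ, 0 < δ₁ ∧
      ∀ (Z : Sys) (q : ℂ → ℂ) (ε k δ : ℝ) (z : ℂ × ℂ → ℂ), WL Z q ε k δ κ K z → k₁ ≤ k → δ ≤ δ₁ →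
        ∃ zt : ℂ × ℂ → ℂ, TL κ v₀ y₀ α₀ δ₂ ν k₀ k z zt := by
  obtain ⟨P, Lm, hS⟩ := exists_sp
  obtain ⟨ϑ₀, hϑ0, hϑπ, p₀, hp, hp1⟩ := hS.big 1000
  obtain ⟨p', l₀, hp', hp1', hl, hl0⟩ := hS.rl ϑ₀ hϑ0.le hϑπ
  have hpp : p' = p₀ := by
    rw [hp] at hp'
    exact (ofReal_injective hp').symm
  subst hpp
  clear hp'
  have hpi := Real.pi_pos
  set v₀ : ℝ := 2 * Real.log (ϑ₀ * p' * Real.exp (l₀ / 2)) with hv₀
  have hHpos : 0 < ϑ₀ * p' * Real.exp (l₀ / 2) := by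
    have := Real.exp_pos (l₀ / 2)
    have : 0 < p' := by linarith
    positivity
  have hev0 : Real.exp (v₀ / 2) = ϑ₀ * p' * Real.exp (l₀ / 2) := by
    rw [hv₀, mul_div_cancel_left₀ _ two_ne_zero, Real.exp_log hHpos]
  have hH0 : Hf P Lm ϑ₀ = Real.exp (v₀ / 2) := by
    rw [hev0]
    unfold Hf
    rw [hp, hl]
    push_cast
    ring
  set α₀ : ℝ := 1 / p' with hα
  have hp0 : 0 < p' := by linarith
  have hα0 : 0 < α₀ := by positivity
  set y₀ : ℝ := v₀ - l₀ with hy₀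
  -- the inverse function
  set ϑ₁ : ℝ := (ϑ₀ + Real.pi) / 2 with hϑ₁
  have h01 : ϑ₀ < ϑ₁ := by rw [hϑ₁]; linarith
  have h1π : ϑ₁ < Real.pi := by rw [hϑ₁]; linarith
  have hϑ1pos : 0 < ϑ₁ := by linarith
  obtain ⟨r, δ₁, m, v₁, th, hT⟩ := exists_th hS hϑ1pos h1π
  have hv01 : v₀ < v₁ := by
    have h1 := top_mono hS hϑ0.le h01 h1π
    rw [hH0, hT.v_eq] at h1
    rw [ofReal_re, ofReal_re, Real.exp_lt_exp] at h1
    linarith
  set tc : ℝ := min (Real.log κ - 2) (v₀ - 1) with htc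
  have htc1 : tc + 2 ≤ Real.log κ := by
    have := min_le_left (Real.log κ - 2) (v₀ - 1)
    linarith
  have htc2 : tc + 1 ≤ v₀ := by
    have := min_le_right (Real.log κ - 2) (v₀ - 1)
    linarith
  obtain ⟨d, r₀, r₁, r₂, T, X, hC⟩ := exists_cm hT.δ_pos hT.δ_le htc2 hv01
  have hd := hC.d2
  have hd' := hC.d2'
  have hδ1 := hT.δ_le
  -- the limit function
  set Φ : ℂ → ℂ := fun τ => τ - I * Lm (th τ) with hΦ
  have hIv : I * (v₀:ℂ) ∈ Ts δ₁ v₁ := by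
    refine ⟨?_, ?_⟩
    · simpa using hT.δ_pos
    · simpa using hv01
  have hthv : th (I * v₀) = ϑ₀ := (hT.facts hS).1 ϑ₀ v₀ hϑ0.le h01.le hv01 hH0
  have hsub2 : Rc ϑ₁ (r / 2) ⊆ ball (0:ℂ) Real.pi := by
    intro x hx
    apply hT.sub
    have := hT.r_pos
    exact ⟨by linarith [hx.1], by linarith [hx.2.1], by linarith [hx.2.2]⟩
  have hthb : ∀ τ ∈ Ts δ₁ v₁, th τ ∈ ball (0:ℂ) Real.pi := fun τ hτ => hsub2 (hT.mem τ hτ)
  have hanL : ∀ τ ∈ Ts δ₁ v₁, AnalyticAt ℂ (fun τ => Lm (th τ)) τ := fun τ hτ =>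
    (hS.anL _ (hthb τ hτ)).fun_comp (hT.an τ hτ)
  have hanP : ∀ τ ∈ Ts δ₁ v₁, AnalyticAt ℂ (fun τ => P (th τ)) τ := fun τ hτ =>
    (hS.anP _ (hthb τ hτ)).fun_comp (hT.an τ hτ)
  have hΦc : ContinuousAt Φ (I * v₀) := by
    have := (hanL _ hIv).continuousAt
    exact continuousAt_id.sub (continuousAt_const.mul this)
  have hPv : P (th (I * v₀)) = p' := by rw [hthv, hp]
  have hpc : (p' : ℂ) ≠ 0 := by exact_mod_cast hp0.ne'
  have hPc : ContinuousAt (fun τ => 1 / P (th τ)) (I * v₀) := by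
    refine continuousAt_const.div (hanP _ hIv).continuousAt ?_
    rw [hPv]
    exact hpc
  have hΦv : Φ (I * v₀) = I * y₀ := by
    simp only [hΦ]
    rw [hthv, hl, hy₀]
    push_cast
    ring
  have hev : ∀ᶠ τ in 𝓝 (I * (v₀:ℂ)), (‖Φ τ - I * y₀‖ < α₀ / 100 ∧
      ‖1 / P (th τ) - α₀‖ < α₀ / 100) ∧ P (th τ) ≠ 0 := by
    have e1 : ∀ᶠ τ in 𝓝 (I * (v₀:ℂ)), ‖Φ τ - I * y₀‖ < α₀ / 100 := by
      have c1 : ContinuousAt (fun τ => ‖Φ τ - I * y₀‖) (I * v₀) :=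
        (hΦc.sub continuousAt_const).norm
      refine c1.eventually_lt continuousAt_const ?_
      rw [hΦv, sub_self, norm_zero]
      positivity
    have e2 : ∀ᶠ τ in 𝓝 (I * (v₀:ℂ)), ‖1 / P (th τ) - α₀‖ < α₀ / 100 := by
      have c1 : ContinuousAt (fun τ => ‖1 / P (th τ) - α₀‖) (I * v₀) :=
        (hPc.sub continuousAt_const).norm
      refine c1.eventually_lt continuousAt_const ?_
      have e3 : 1 / P (th (I * v₀)) - (α₀:ℂ) = 0 := by
        rw [hPv, hα]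
        push_cast
        ring
      rw [e3, norm_zero]
      positivity
    have e3 : ∀ᶠ τ in 𝓝 (I * (v₀:ℂ)), P (th τ) ≠ 0 :=
      (hanP _ hIv).continuousAt.eventually_ne (by rw [hPv]; exact hpc)
    exact (e1.and e2).and e3
  obtain ⟨e, he, hball⟩ := Metric.eventually_nhds_iff_ball.1 hev
  set d₃ : ℝ := min (e / 4) (min d (1 / 100)) with hd₃
  have hd30 : 0 < d₃ := by positivity
  have hd3e : d₃ ≤ e / 4 := min_le_left _ _
  have hd3d : d₃ ≤ d := (min_le_right _ _).trans (min_le_left _ _)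
  have hd3c : d₃ ≤ 1 / 100 := (min_le_right _ _).trans (min_le_right _ _)
  -- the box
  have hbox : ∀ τ : ℂ, |τ.re| < 2 * d₃ → |τ.im - v₀| < 2 * d₃ →
      (‖Φ τ - I * y₀‖ < α₀ / 100 ∧ ‖1 / P (th τ) - α₀‖ < α₀ / 100) ∧ P (th τ) ≠ 0 := by
    intro τ h1 h2
    apply hball
    rw [mem_ball, dist_eq_norm]
    have h3 : ‖τ - I * v₀‖ ≤ |(τ - I * v₀).re| + |(τ - I * v₀).im| :=
      norm_le_abs_re_add_abs_im _
    have h4 : (τ - I * v₀).re = τ.re := by simp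
    have h5 : (τ - I * v₀).im = τ.im - v₀ := by simp
    rw [h4, h5] at h3
    linarith
  set θ' : ℝ := α₀ * d₃ / 400 with hθ'
  have hθ0 : 0 < θ' := by positivity
  have hθ1 : θ' ≤ α₀ / 400 := by
    rw [hθ']
    have : α₀ * d₃ ≤ α₀ * 1 := mul_le_mul_of_nonneg_left (by linarith) hα0.le
    linarith
  obtain ⟨ki, δi, hδi, hint⟩ := interp hS hT hϑ1pos hκ hκ1 hK hC htc1 hθ0
  -- the bound for `Lm`
  obtain ⟨CL, hCL⟩ : ∃ CL : ℝ, ∀ τ ∈ Ts δ₁ v₁, ‖Lm (th τ)‖ ≤ CL := by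
    have hcomp : IsCompact (Rc ϑ₁ (r / 2)) := by
      have h1 : Rc ϑ₁ (r / 2) = Icc (-(r / 2)) (ϑ₁ + r / 2) ×ℂ Icc (-(r / 2)) (r / 2) := by
        ext x
        rw [mem_reProdIm]
        constructor
        · rintro ⟨a1, a2, a3⟩
          exact ⟨⟨a1, a2⟩, abs_le.1 a3⟩
        · rintro ⟨⟨a1, a2⟩, a3⟩
          exact ⟨a1, a2, abs_le.2 a3⟩
      rw [h1]
      exact isCompact_Icc.reProdIm isCompact_Icc
    obtain ⟨CL, h2⟩ := hcomp.exists_bound_of_continuousOn (hS.anL.continuousOn.mono hsub2)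
    exact ⟨CL, fun τ hτ => h2 _ (hT.mem τ hτ)⟩
  set ν : ℝ := min (1 / 2) (d₃ / 8) with hν
  have hν0 : 0 < ν := by positivity
  have hν1 : ν ≤ 1 / 2 := min_le_left _ _
  have hν2 : ν ≤ d₃ / 8 := min_le_right _ _
  set k₀ : ℝ := max 4 (max (4 - v₀) (Real.log (9 / κ) + 1)) with hk₀
  have hk1 : 4 ≤ k₀ := le_max_left _ _
  have hk2 : 4 - v₀ ≤ k₀ := (le_max_left _ _).trans (le_max_right _ _)
  have hk3 : Real.log (9 / κ) + 1 ≤ k₀ := (le_max_right _ _).trans (le_max_right _ _)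
  refine ⟨v₀, y₀, α₀, d₃, ν, k₀, ⟨hα0, ?_, hd30, hd3c, hν0, hν1, hk2, hk1, ?_, ?_⟩,
    max ki (|v₀| + |tc| + |Real.log κ| + k₀ + K + |CL| + 20), δi, hδi, ?_⟩
  · rw [hα]
    exact one_div_le_one_div_of_le (by norm_num) hp1
  · have h1 : 0 < 9 / κ := by positivity
    have h2 : 9 / κ ≤ Real.exp (k₀ - 1) := by
      rw [← Real.exp_log h1]
      exact Real.exp_le_exp.2 (by linarith)
    rw [div_le_iff₀ hκ] at h2
    linarith
  · have h1 : Real.exp (y₀ / 2) = ϑ₀ * p' := by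
      have h2 : y₀ / 2 = v₀ / 2 - l₀ / 2 := by
        rw [hy₀]
        ring
      rw [h2, Real.exp_sub, hev0]
      have := (Real.exp_pos (l₀ / 2)).ne'
      field_simp
    rw [h1, hα]
    have h3 : ϑ₀ * p' * (1 / p') = ϑ₀ := by
      field_simp
    rw [h3]
    exact hϑπ.le
  intro Z q ε k δ z hW hk hδ
  have hki : ki ≤ k := (le_max_left _ _).trans hk
  have hkk : |v₀| + |tc| + |Real.log κ| + k₀ + K + |CL| + 20 ≤ k := (le_max_right _ _).trans hk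
  have a1 := abs_nonneg v₀
  have a2 := abs_nonneg tc
  have a3 := abs_nonneg (Real.log κ)
  have a4 := abs_nonneg CL
  obtain ⟨Et, hEa, hE0, hE1⟩ := hint Z q ε k δ z hW hki hδ
  have hagree : ∀ τ w : ℂ, |τ.re| < 3 * d → tc - 1 < τ.im → τ.im < Real.log κ →
      τ.im < v₀ + 3 * d → ‖w‖ < 1 / 2 →
      Et (X τ, w) = z (τ - 2 * I * w, exp w) - (τ - 2 * I * w) := fun τ w h1 h2 h3 h4 h5 =>
    top_agree hC hδ1 htc1 htc2 hκ hW (by linarith) hEa hE0 h1 h2 h3 h4 h5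
  -- points of the region
  have hreg : ∀ p ∈ Sv d₃ k₀ v₀ ×ˢ ball (1:ℂ) ν, (p.2 ∈ slitPlane ∧ ‖log p.2‖ < 1 / 2) ∧
      |(p.1 + 2 * I * log p.2).re| < 3 * d ∧ (p.1 + 2 * I * log p.2).im < v₀ + 3 * d := by
    rintro ⟨u, γ⟩ ⟨⟨u1, u2, u3⟩, hγ⟩
    obtain ⟨g1, g2⟩ := top_log hν1 hγ
    have g3 : ‖2 * I * log γ‖ = 2 * ‖log γ‖ := by
      rw [norm_mul, norm_mul, norm_I, mul_one]
      norm_num
    have g4 : |(2 * I * log γ).re| ≤ ‖2 * I * log γ‖ := abs_re_le_norm _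
    have g5 : |(2 * I * log γ).im| ≤ ‖2 * I * log γ‖ := abs_im_le_norm _
    have g6 := abs_le.1 g5
    refine ⟨⟨g2, ?_⟩, ?_, ?_⟩
    · show ‖log γ‖ < 1 / 2
      linarith
    · show |(u + 2 * I * log γ).re| < 3 * d
      rw [add_re]
      have := abs_add_le u.re (2 * I * log γ).re
      have u1' : |u.re| < d₃ := u1
      linarith
    · show (u + 2 * I * log γ).im < v₀ + 3 * d
      rw [add_im]
      have u3' : u.im < v₀ + d₃ := u3
      linarith [g6.2]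
  have hnorm : ∀ p ∈ Sv d₃ k₀ v₀ ×ˢ ball (1:ℂ) ν, ‖p.1‖ ≤ |v₀| + k₀ + 1 := by
    rintro ⟨u, γ⟩ ⟨⟨u1, u2, u3⟩, hγ⟩
    show ‖u‖ ≤ |v₀| + k₀ + 1
    have e2 : ‖u‖ ≤ |u.re| + |u.im| := norm_le_abs_re_add_abs_im u
    have u1' : |u.re| < d₃ := u1
    have u2' : -k₀ < u.im := u2
    have u3' : u.im < v₀ + d₃ := u3
    have e3 : |u.im| ≤ |v₀| + k₀ + 1 / 100 := by
      rw [abs_le]
      have := le_abs_self v₀
      constructor <;> linarith
    linarith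
  have hWz : ∀ p ∈ Sv d₃ k₀ v₀ ×ˢ ball (1:ℂ) ν,
      (p ∈ Wz k κ ↔ (p.1 + 2 * I * log p.2).im < Real.log κ) := by
    intro p hp
    have h1 := hreg p hp
    have h2 := top_exp (u := p.1) h1.1.1
    constructor
    · rintro ⟨-, -, h3⟩
      rw [h2] at h3
      exact (Real.lt_log_iff_exp_lt hκ).2 h3
    · intro h3
      refine ⟨?_, ?_, ?_⟩
      · have := hnorm p hp
        linarith
      · have h4 : dist p.2 1 < ν := hp.2
        rw [dist_eq_norm] at h4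
        have h5 : ‖p.2‖ ≤ ‖p.2 - 1‖ + ‖(1:ℂ)‖ := by
          have := norm_add_le (p.2 - 1) 1
          rwa [sub_add_cancel] at this
        rw [norm_one] at h5
        linarith
      · rw [h2]
        exact (Real.lt_log_iff_exp_lt hκ).1 h3
  set zt : ℂ × ℂ → ℂ := fun p => if tc - 1 < (p.1 + 2 * I * log p.2).im then
    p.1 + Et (X (p.1 + 2 * I * log p.2), log p.2) else z p with hzt
  -- the two definitions agree in the zone
  have hzeq : ∀ p ∈ Sv d₃ k₀ v₀ ×ˢ ball (1:ℂ) ν, (p.1 + 2 * I * log p.2).im < Real.log κ →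
      zt p = z p := by
    intro p hp h1
    simp only [hzt]
    split_ifs with h2
    · obtain ⟨⟨b1, b2⟩, b3, b4⟩ := hreg p hp
      rw [hagree _ _ b3 h2 h1 b4 b2, add_sub_cancel_right, exp_log (slitPlane_ne_zero b1)]
      ring_nf
    · rfl
  have hTs : ∀ χ ∈ ball (0:ℂ) r₂, T χ ∈ Ts δ₁ v₁ := by
    intro χ hχ
    have h1 : χ ∈ ball (0:ℂ) r₁ := ball_subset_ball hC.r21.le hχ
    have h2 : χ ∈ ball (0:ℂ) 1 := ball_subset_ball hC.r1.le h1
    exact ⟨(hC.XT χ h2).1, (hC.im χ h1).2⟩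
  have hEb : ∀ p ∈ ball (0:ℂ) r₂ ×ˢ ball (0:ℂ) (1 / 2), ‖Et p‖ ≤ |CL| + 1 := by
    intro p hp
    have h1 := hE1 p hp
    have h2 := hCL _ (hTs _ hp.1)
    have h3 : ‖Et p‖ ≤ ‖Et p + I * Lm (th (T p.1))‖ + ‖I * Lm (th (T p.1))‖ := by
      have := norm_sub_le (Et p + I * Lm (th (T p.1))) (I * Lm (th (T p.1)))
      rwa [add_sub_cancel_right] at this
    rw [norm_mul, norm_I, one_mul] at h3
    have h4 := le_abs_self CL
    have h5 : α₀ ≤ 1 := by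
      rw [hα, div_le_one hp0]
      linarith
    linarith
  -- near the top line
  have hval : ∀ u : ℂ, |u.re| < 2 * d₃ → |u.im - v₀| < 2 * d₃ →
      zt (u, 1) = u + Et (X u, 0) ∧ X u ∈ ball (0:ℂ) r₂ ∧ u ∈ Ts δ₁ v₁ ∧
        ‖zt (u, 1) - Φ u‖ ≤ θ' := by
    intro u h1 h2
    have h3 := abs_lt.1 h2
    have e1 : zt (u, 1) = u + Et (X u, 0) := by
      simp only [hzt, log_one, mul_zero, add_zero]
      rw [if_pos (by linarith [h3.1])]
    have e2 : X u ∈ ball (0:ℂ) r₂ := hC.mem u (by linarith) (by linarith [h3.1])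
      (by linarith [h3.2])
    have e3 : T (X u) = u := (hC.TX u (by linarith)).2
    have e4 : u ∈ Ts δ₁ v₁ := by
      have := hTs _ e2
      rwa [e3] at this
    have e5 := hE1 (X u, 0) ⟨e2, by simp⟩
    simp only [e3] at e5
    refine ⟨e1, e2, e4, ?_⟩
    have e6 : zt (u, 1) - Φ u = Et (X u, 0) + I * Lm (th u) := by
      rw [e1]
      simp only [hΦ]
      ring
    rw [e6]
    exact e5
  refine ⟨zt, ?_, ?_, ?_, ?_, ?_⟩
  · -- analyticity
    rintro p hp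
    obtain ⟨⟨b1, b2⟩, b3, b4⟩ := hreg p hp
    have hanτ : AnalyticAt ℂ (fun p : ℂ × ℂ => p.1 + 2 * I * log p.2) p :=
      analyticAt_fst.add (analyticAt_const.mul (analyticAt_snd.clog b1))
    have hcτ : ContinuousAt (fun p : ℂ × ℂ => (p.1 + 2 * I * log p.2).im) p :=
      Complex.continuous_im.continuousAt.comp hanτ.continuousAt
    by_cases h1 : tc - 1 < (p.1 + 2 * I * log p.2).im
    · have h2 : ∀ᶠ p' in 𝓝 p, zt p' =
          p'.1 + Et (X (p'.1 + 2 * I * log p'.2), log p'.2) := by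
        filter_upwards [continuousAt_const.eventually_lt hcτ h1] with p' hp'
        simp only [hzt]
        rw [if_pos hp']
      have h3 : AnalyticAt ℂ X (p.1 + 2 * I * log p.2) :=
        hC.anX _ (by show |(p.1 + 2 * I * log p.2).re| < δ₁; linarith)
      have h4 : AnalyticAt ℂ (fun p : ℂ × ℂ => (X (p.1 + 2 * I * log p.2), log p.2)) p :=
        (AnalyticAt.comp (g := X) (f := fun p : ℂ × ℂ => p.1 + 2 * I * log p.2) h3
          hanτ).prod (analyticAt_snd.clog b1)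
      have h5 : (X (p.1 + 2 * I * log p.2), log p.2) ∈
          ball (0:ℂ) r₂ ×ˢ ball (0:ℂ) (1 / 2) :=
        ⟨hC.mem _ b3 h1 b4, by simpa using b2⟩
      have h6 : AnalyticAt ℂ (fun p : ℂ × ℂ =>
          p.1 + Et (X (p.1 + 2 * I * log p.2), log p.2)) p :=
        analyticAt_fst.add (AnalyticAt.comp (g := Et)
          (f := fun p : ℂ × ℂ => (X (p.1 + 2 * I * log p.2), log p.2)) (hEa _ h5) h4)
      exact h6.congr (h2.mono fun p' hp' => hp'.symm)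
    · have h1' : (p.1 + 2 * I * log p.2).im < Real.log κ := by linarith
      have hSo : IsOpen (Sv d₃ k₀ v₀ ×ˢ ball (1:ℂ) ν) := by
        refine IsOpen.prod ?_ isOpen_ball
        have o1 : IsOpen {u : ℂ | |u.re| < d₃} :=
          isOpen_lt (Complex.continuous_re.abs) continuous_const
        have o2 : IsOpen {u : ℂ | -k₀ < u.im} := isOpen_lt continuous_const Complex.continuous_im
        have o3 : IsOpen {u : ℂ | u.im < v₀ + d₃} :=
          isOpen_lt Complex.continuous_im continuous_const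
        exact o1.inter (o2.inter o3)
      have h2 : ∀ᶠ p' in 𝓝 p, zt p' = z p' := by
        filter_upwards [hcτ.eventually_lt continuousAt_const h1', hSo.mem_nhds hp] with p' g1 g2
        exact hzeq p' g2 g1
      exact (hW.an p ((hWz p hp).2 h1')).congr (h2.mono fun p' hp' => hp'.symm)
  · -- the bound
    intro p hp
    obtain ⟨⟨b1, b2⟩, b3, b4⟩ := hreg p hp
    have hn := hnorm p hp
    by_cases h1 : tc - 1 < (p.1 + 2 * I * log p.2).im
    · have e1 : zt p = p.1 + Et (X (p.1 + 2 * I * log p.2), log p.2) := by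
        simp only [hzt]
        rw [if_pos h1]
      have e2 := hEb (X (p.1 + 2 * I * log p.2), log p.2)
        ⟨hC.mem _ b3 h1 b4, by simpa using b2⟩
      rw [e1]
      have := norm_add_le p.1 (Et (X (p.1 + 2 * I * log p.2), log p.2))
      linarith
    · have h1' : (p.1 + 2 * I * log p.2).im < Real.log κ := by linarith
      rw [hzeq p hp h1']
      have e1 := hW.bd p ((hWz p hp).2 h1')
      have e2 : ‖z p‖ ≤ ‖z p - p.1‖ + ‖p.1‖ := by
        have := norm_add_le (z p - p.1) p.1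
        rwa [sub_add_cancel] at this
      linarith
  · intro p hp hpW
    exact hzeq p hp ((hWz p hp).1 hpW)
  · intro u h1 h2
    obtain ⟨-, -, -, e4⟩ := hval u (by linarith) (by linarith)
    have e5 := (hbox u (by linarith) (by linarith)).1.1
    have e6 : zt (u, 1) - I * y₀ = (zt (u, 1) - Φ u) + (Φ u - I * y₀) := by ring
    rw [e6]
    refine (norm_add_le _ _).trans ?_
    linarith
  · intro u h1 h2
    -- Cauchy estimate
    have hsubb : ∀ s ∈ closedBall u d₃, |s.re| < 2 * d₃ ∧ |s.im - v₀| < 2 * d₃ := by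
      intro s hs
      rw [mem_closedBall, dist_eq_norm] at hs
      have g1 : |(s - u).re| ≤ ‖s - u‖ := abs_re_le_norm _
      have g2 : |(s - u).im| ≤ ‖s - u‖ := abs_im_le_norm _
      rw [sub_re] at g1
      rw [sub_im] at g2
      constructor
      · have := abs_add_le (s.re - u.re) u.re
        rw [sub_add_cancel] at this
        linarith
      · have := abs_add_le (s.im - u.im) (u.im - v₀)
        rw [sub_add_sub_cancel] at this
        linarith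
    have hΦd : ∀ s ∈ closedBall u d₃, HasDerivAt Φ (1 / P (th s)) s := by
      intro s hs
      obtain ⟨g1, g2⟩ := hsubb s hs
      exact (hT.facts hS).2 s (hval s g1 g2).2.2.1 (hbox s g1 g2).2
    have hzd : ∀ s ∈ closedBall u d₃, DifferentiableAt ℂ (fun u => u + Et (X u, 0)) s := by
      intro s hs
      obtain ⟨g1, g2⟩ := hsubb s hs
      have h3 : AnalyticAt ℂ X s := hC.anX _ (by show |s.re| < δ₁; linarith)
      have h4 : AnalyticAt ℂ (fun u : ℂ => (X u, (0:ℂ))) s := h3.prod analyticAt_const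
      have h5 : (X s, (0:ℂ)) ∈ ball (0:ℂ) r₂ ×ˢ ball (0:ℂ) (1 / 2) :=
        ⟨(hval s g1 g2).2.1, by simp⟩
      exact (analyticAt_id.add (AnalyticAt.comp (g := Et)
        (f := fun u : ℂ => (X u, (0:ℂ))) (hEa _ h5) h4)).differentiableAt
    have hu : u ∈ closedBall u d₃ := mem_closedBall_self hd30.le
    have hC1 : ‖deriv (fun s => (s + Et (X s, 0)) - Φ s) u‖ ≤ θ' / d₃ := by
      refine Complex.norm_deriv_le_of_forall_mem_sphere_norm_le hd30 ?_ ?_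
      · refine DifferentiableOn.diffContOnCl (fun s hs => ?_)
        have hs' : s ∈ closedBall u d₃ := by
          rw [closure_ball u hd30.ne'] at hs
          exact hs
        exact ((hzd s hs').sub (hΦd s hs').differentiableAt).differentiableWithinAt
      · intro s hs
        obtain ⟨g1, g2⟩ := hsubb s (sphere_subset_closedBall hs)
        obtain ⟨e1, -, -, e4⟩ := hval s g1 g2
        rwa [e1] at e4
    have hd1 : deriv (fun s => (s + Et (X s, 0)) - Φ s) u =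
        deriv (fun s => s + Et (X s, 0)) u - 1 / P (th u) :=
      ((hzd u hu).hasDerivAt.sub (hΦd u hu)).deriv
    have hd2 : deriv (fun u => zt (u, 1)) u = deriv (fun s => s + Et (X s, 0)) u := by
      refine Filter.EventuallyEq.deriv_eq ?_
      filter_upwards [isOpen_ball.mem_nhds (mem_ball_self hd30 : u ∈ ball u d₃)] with s hs
      obtain ⟨g1, g2⟩ := hsubb s (ball_subset_closedBall hs)
      exact (hval s g1 g2).1
    have e5 := (hbox u (by linarith) (by linarith)).1.2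
    have e6 : deriv (fun u => zt (u, 1)) u - α₀ =
        deriv (fun s => (s + Et (X s, 0)) - Φ s) u + (1 / P (th u) - α₀) := by
      rw [hd1, hd2]
      ring
    rw [e6]
    refine (norm_add_le _ _).trans ?_
    have e7 : θ' / d₃ = α₀ / 400 := by
      rw [hθ']
      field_simp
    rw [e7] at hC1
    linarith

end Pool.Agent.MP_ae5b4e_an_NB5
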