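import Pool.Agent.Lib.MP_ae5b4e_an_NB5.Root

/-!
# MP_ae5b4e_an, project NB_5(A): extension of a chain by one step
-/

noncomputable section

namespace Pool.Agent.MP_ae5b4e_an_NB5

open Complex Set Filter Topology Metric
open Pool.Agent.MP_ae5b4e_an_NBT (St)
open Pool.Agent.MP_ae5b4e_an_NB2 (Sys)
open scoped ComplexConjugate

private theorem ExtN_deriv {Y : Sys} {Ω : Set ℂ} (hY : Y.On Ω) {l m x : ℂ} (h : l + x ∈ Ω) :
    HasDerivAt (fun x => Pn Y l m x) (Pn' Y l m x) x := by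
  have hx : HasDerivAt (fun x : ℂ => l + x) 1 x := by
    simpa using (hasDerivAt_id x).const_add l
  have h1 : HasDerivAt (fun x : ℂ => Y.c (l + x) l) (Y.cd (l + x) l) x := by
    have h2 := HasDerivAt.comp x (Sys.hasDerivAt_c (l := l) hY h) hx
    rw [mul_one] at h2
    exact h2
  have h3 : HasDerivAt (fun x : ℂ => Y.s (l + x) l) (Y.sd (l + x) l) x := by
    have h2 := HasDerivAt.comp x (Sys.hasDerivAt_s (l := l) hY h) hx
    rw [mul_one] at h2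
    exact h2
  exact (h1.mul_const (Y.s m l)).add (h3.const_mul (Y.c m l))

private theorem ExtN_an {Y : Sys} {Ω : Set ℂ} (hΩ : IsOpen Ω) (hY : Y.On Ω)
    {l m : ℂ → ℂ} {u x : ℂ} (hl : AnalyticAt ℂ l u) (hm : AnalyticAt ℂ m u) (h1 : l u ∈ Ω)
    (h2 : m u ∈ Ω) (h3 : l u + x ∈ Ω) :
    AnalyticAt ℂ (fun p : ℂ × ℂ => Pn Y (l p.1) (m p.1) p.2) (u, x) := by
  have hf : AnalyticAt ℂ (fun p : ℂ × ℂ => p.1) (u, x) := analyticAt_fst
  have hs : AnalyticAt ℂ (fun p : ℂ × ℂ => p.2) (u, x) := analyticAt_snd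
  have hl' : AnalyticAt ℂ (fun p : ℂ × ℂ => l p.1) (u, x) :=
    AnalyticAt.fun_comp (f := fun p : ℂ × ℂ => p.1) (g := l) (x := (u, x)) hl hf
  have hm' : AnalyticAt ℂ (fun p : ℂ × ℂ => m p.1) (u, x) :=
    AnalyticAt.fun_comp (f := fun p : ℂ × ℂ => p.1) (g := m) (x := (u, x)) hm hf
  have hlx : AnalyticAt ℂ (fun p : ℂ × ℂ => l p.1 + p.2) (u, x) := hl'.fun_add hs
  unfold Pn
  exact ((Sys.an_c hY hΩ hlx hl' h3 h1).fun_mul (Sys.an_s hY hΩ hm' hl' h2 h1)).fun_add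
    ((Sys.an_c hY hΩ hm' hl' h2 h1).fun_mul (Sys.an_s hY hΩ hlx hl' h3 h1))

/-- a root in the ball is close to the centre -/
private theorem ExtN_bd {Y : Sys} {Ω : Set ℂ} (hΩ : IsOpen Ω) (hY : Y.On Ω) {l m x : ℂ} {r : ℝ}
    (h : ROK Y Ω l m r) (hx : x ∈ closedBall (l - m) r) (h0 : Pn Y l m x = 0) :
    ‖x - (l - m)‖ ≤ 2 * ‖Pn Y l m (l - m)‖ := by
  obtain ⟨ξ, _, hξ⟩ := root_an (P := fun p : ℂ × ℂ => Pn Y l m p.2)
    (P' := fun p : ℂ × ℂ => Pn' Y l m p.2) (U := univ) (a := fun _ => l - m) h.r_pos isOpen_univ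
    continuousOn_const
    (fun u _ y hy => ExtN_an hΩ hY (l := fun _ => l) (m := fun _ => m) analyticAt_const
      analyticAt_const h.l_mem h.m_mem (h.sub y hy))
    (fun u _ y hy => ⟨ExtN_deriv (l := l) (m := m) (x := y) hY (h.sub y hy), h.der y hy⟩)
    (fun u _ => h.small)
  obtain ⟨h1, _, h3⟩ := hξ 0 (mem_univ _)
  rw [h3 x hx h0]
  exact h1

private theorem ExtN_root {Y : Sys} {Ω : Set ℂ} (hΩ : IsOpen Ω) (hY : Y.On Ω) {U : Set ℂ}
    (hU : IsOpen U) {l m : ℂ → ℂ} {r : ℝ} (hl : AnalyticOnNhd ℂ l U) (hm : AnalyticOnNhd ℂ m U)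
    (rok : ∀ u ∈ U, ROK Y Ω (l u) (m u) r) :
    ∃ ξ : ℂ → ℂ, AnalyticOnNhd ℂ ξ U ∧ ∀ u ∈ U,
      ‖ξ u - (l u - m u)‖ ≤ 2 * ‖Pn Y (l u) (m u) (l u - m u)‖ ∧
      Pn Y (l u) (m u) (ξ u) = 0 ∧
      ∀ x ∈ closedBall (l u - m u) r, Pn Y (l u) (m u) x = 0 → x = ξ u := by
  rcases U.eq_empty_or_nonempty with h | ⟨u₀, hu₀⟩
  · refine ⟨fun _ => 0, fun u hu => ?_, fun u hu => ?_⟩
    · rw [h] at hu
      exact absurd hu (notMem_empty u)
    · rw [h] at hu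
      exact absurd hu (notMem_empty u)
  · exact root_an (P := fun p : ℂ × ℂ => Pn Y (l p.1) (m p.1) p.2)
      (P' := fun p : ℂ × ℂ => Pn' Y (l p.1) (m p.1) p.2) (U := U)
      (a := fun u => l u - m u) (rok u₀ hu₀).r_pos hU
      (fun u hu => ((hl u hu).continuousAt.sub (hm u hu).continuousAt).continuousWithinAt)
      (fun u hu x hx => ExtN_an hΩ hY (hl u hu) (hm u hu) (rok u hu).l_mem (rok u hu).m_mem
        ((rok u hu).sub x hx))
      (fun u hu x hx => ⟨ExtN_deriv (l := l u) (m := m u) (x := x) hY ((rok u hu).sub x hx),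
        (rok u hu).der x hx⟩)
      (fun u hu => (rok u hu).small)

/-- `root_an` on the open set `U = {u ∈ D | s₁ < φ u < s + 1}` with
`P (u, x) = Pn Y (Λ (u - w)) (Λ (u - 2 w)) x`, `P' = Pn'`, `a u = Λ (u - w) - Λ (u - 2 w)`
(`hback`: the points `u - w`, `u - 2 w` lie in `D` and `φ < s` there; `φ (u - w) = φ u - 1`; `y1`,
`y2`, ... are analytic on the open set `Ω`, `Sys.an_y1` etc. in NB2/Sys; derivatives:
`Sys.hasDerivAt_c`, `Sys.hasDerivAt_s`). `Λ' u = Λ u` for `φ u < s`, `Λ' u = Λ (u - w) + ξ u`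
otherwise. For `s₁ < φ u < s` uniqueness and `hold` give `Λ u - Λ (u - w) = ξ u`, so `Λ'` is given by
the root near every point with `s ≤ φ u`. At points with `φ u = s₁` (and `< s`) the last statement
follows by uniqueness of the root for this single `u` (apply the contraction argument of
`root_an` to the constant family, or `root_an` with `U` a neighbourhood). -/
theorem ext_node {Y : Sys} {Ω : Set ℂ} (hΩ : IsOpen Ω) (hY : Y.On Ω) {D : Set ℂ} (hD : IsOpen D)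
    {φ : ℂ → ℝ} (hφ : Continuous φ) {w : ℂ} (hφw : ∀ u, φ (u + w) = φ u + 1) {s₁ s r : ℝ}
    (hs : s₁ < s) (hback : ∀ u ∈ D, s₁ ≤ φ u → u - w ∈ D ∧ u - 2 * w ∈ D) {Λ : ℂ → ℂ}
    (hΛ : AnalyticOnNhd ℂ Λ (D ∩ {u | φ u < s}))
    (hrok : ∀ u ∈ D, s₁ ≤ φ u → φ u < s + 1 → ROK Y Ω (Λ (u - w)) (Λ (u - 2 * w)) r)
    (hold : ∀ u ∈ D, s₁ ≤ φ u → φ u < s →
      Pn Y (Λ (u - w)) (Λ (u - 2 * w)) (Λ u - Λ (u - w)) = 0 ∧
      ‖Λ u - 2 * Λ (u - w) + Λ (u - 2 * w)‖ ≤ r) :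
    ∃ Λ' : ℂ → ℂ, AnalyticOnNhd ℂ Λ' (D ∩ {u | φ u < s + 1}) ∧ (∀ u ∈ D, φ u < s → Λ' u = Λ u) ∧
      ∀ u ∈ D, s₁ ≤ φ u → φ u < s + 1 →
        Pn Y (Λ' (u - w)) (Λ' (u - 2 * w)) (Λ' u - Λ' (u - w)) = 0 ∧
        ‖Λ' u - 2 * Λ' (u - w) + Λ' (u - 2 * w)‖ ≤
          2 * ‖Pn Y (Λ' (u - w)) (Λ' (u - 2 * w)) (Λ' (u - w) - Λ' (u - 2 * w))‖ := by
  have hw1 : ∀ u, φ (u - w) = φ u - 1 := by
    intro u
    have h1 := hφw (u - w)
    rw [sub_add_cancel] at h1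
    linarith
  have hw2 : ∀ u, φ (u - 2 * w) = φ u - 2 := by
    intro u
    have h1 := hw1 (u - w)
    have h2 : u - w - w = u - 2 * w := by ring
    rw [h2, hw1] at h1
    linarith
  obtain ⟨U, hUdef⟩ : ∃ U : Set ℂ, U = {u | u ∈ D ∧ s₁ < φ u ∧ φ u < s + 1} := ⟨_, rfl⟩
  have hU : IsOpen U := by
    rw [hUdef]
    exact hD.inter ((isOpen_lt continuous_const hφ).inter (isOpen_lt hφ continuous_const))
  have hUm : ∀ u ∈ U, u ∈ D ∧ s₁ < φ u ∧ φ u < s + 1 := fun u hu => by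
    rw [hUdef] at hu
    exact hu
  have an1 : ∀ u ∈ U, AnalyticAt ℂ (fun u => Λ (u - w)) u := by
    intro u hu
    obtain ⟨h1, h2, h3⟩ := hUm u hu
    have h4 : AnalyticAt ℂ Λ (u - w) := by
      refine hΛ _ ⟨(hback u h1 h2.le).1, ?_⟩
      show φ (u - w) < s
      rw [hw1]
      linarith
    have h5 : AnalyticAt ℂ (fun u : ℂ => u - w) u := analyticAt_id.fun_sub analyticAt_const
    exact AnalyticAt.fun_comp (f := fun u : ℂ => u - w) (g := Λ) (x := u) h4 h5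
  have an2 : ∀ u ∈ U, AnalyticAt ℂ (fun u => Λ (u - 2 * w)) u := by
    intro u hu
    obtain ⟨h1, h2, h3⟩ := hUm u hu
    have h4 : AnalyticAt ℂ Λ (u - 2 * w) := by
      refine hΛ _ ⟨(hback u h1 h2.le).2, ?_⟩
      show φ (u - 2 * w) < s
      rw [hw2]
      linarith
    have h5 : AnalyticAt ℂ (fun u : ℂ => u - 2 * w) u := analyticAt_id.fun_sub analyticAt_const
    exact AnalyticAt.fun_comp (f := fun u : ℂ => u - 2 * w) (g := Λ) (x := u) h4 h5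
  have rok : ∀ u ∈ U, ROK Y Ω (Λ (u - w)) (Λ (u - 2 * w)) r := fun u hu =>
    hrok u (hUm u hu).1 (hUm u hu).2.1.le (hUm u hu).2.2
  obtain ⟨ξ, hξan, hξ⟩ := ExtN_root hΩ hY hU an1 an2 rok
  have hball : ∀ u ∈ D, s₁ ≤ φ u → φ u < s →
      Λ u - Λ (u - w) ∈ closedBall (Λ (u - w) - Λ (u - 2 * w)) r := by
    intro u hu h1 h2
    rw [mem_closedBall, dist_eq_norm]
    have h3 : Λ u - Λ (u - w) - (Λ (u - w) - Λ (u - 2 * w)) =
        Λ u - 2 * Λ (u - w) + Λ (u - 2 * w) := by ring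
    rw [h3]
    exact (hold u hu h1 h2).2
  have hcons : ∀ u ∈ U, φ u < s → Λ u = Λ (u - w) + ξ u := by
    intro u hu h1
    obtain ⟨h2, h3, _⟩ := hUm u hu
    have h4 := (hξ u hu).2.2 _ (hball u h2 h3.le h1) (hold u h2 h3.le h1).1
    rw [← h4]
    ring
  classical
  obtain ⟨M, hM⟩ : ∃ M : ℂ → ℂ, M = fun u => if φ u < s then Λ u else Λ (u - w) + ξ u :=
    ⟨_, rfl⟩
  have hM1 : ∀ u, φ u < s → M u = Λ u := by
    intro u hu
    rw [hM]
    simp only [if_pos hu]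
  have hM2 : ∀ u ∈ U, M u = Λ (u - w) + ξ u := by
    intro u hu
    by_cases h : φ u < s
    · rw [hM1 u h, hcons u hu h]
    · rw [hM]
      simp only [if_neg h]
  refine ⟨M, ?_, fun u _ hu => hM1 u hu, ?_⟩
  · rintro u ⟨hu1, hu2⟩
    have hu2' : φ u < s + 1 := hu2
    by_cases h : φ u < s
    · have h1 : Λ =ᶠ[𝓝 u] M := by
        filter_upwards [(isOpen_lt hφ continuous_const).mem_nhds h] with v hv
        exact (hM1 v hv).symm
      exact (hΛ u ⟨hu1, h⟩).congr h1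
    · have hu : u ∈ U := by
        rw [hUdef]
        exact ⟨hu1, by linarith [not_lt.1 h], hu2'⟩
      have h1 : (fun u => Λ (u - w) + ξ u) =ᶠ[𝓝 u] M := by
        filter_upwards [hU.mem_nhds hu] with v hv
        exact (hM2 v hv).symm
      exact ((an1 u hu).fun_add (hξan u hu)).congr h1
  · intro u hu h1 h2
    have e1 : M (u - w) = Λ (u - w) := hM1 _ (by rw [hw1]; linarith)
    have e2 : M (u - 2 * w) = Λ (u - 2 * w) := hM1 _ (by rw [hw2]; linarith)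
    rw [e1, e2]
    by_cases h : φ u < s
    · rw [hM1 u h]
      refine ⟨(hold u hu h1 h).1, ?_⟩
      have h3 := ExtN_bd hΩ hY (hrok u hu h1 h2) (hball u hu h1 h) (hold u hu h1 h).1
      have h4 : Λ u - Λ (u - w) - (Λ (u - w) - Λ (u - 2 * w)) =
          Λ u - 2 * Λ (u - w) + Λ (u - 2 * w) := by ring
      rw [h4] at h3
      exact h3
    · have hu' : u ∈ U := by
        rw [hUdef]
        exact ⟨hu, by linarith [not_lt.1 h], h2⟩
      obtain ⟨h3, h4, _⟩ := hξ u hu'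
      rw [hM2 u hu']
      have h5 : Λ (u - w) + ξ u - Λ (u - w) = ξ u := by ring
      have h6 : Λ (u - w) + ξ u - 2 * Λ (u - w) + Λ (u - 2 * w) =
          ξ u - (Λ (u - w) - Λ (u - 2 * w)) := by ring
      rw [h5, h6]
      exact ⟨h4, h3⟩

end Pool.Agent.MP_ae5b4e_an_NB5
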