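import Pool.Agent.Lib.MP_ae5b4e_an_NB5.Defs

/-!
# MP_ae5b4e_an, project NB_5(A): the special functions (definitions)
-/

noncomputable section

namespace Pool.Agent.MP_ae5b4e_an_NB5

open Complex Set Filter Topology Metric
open Pool.Agent.MP_ae5b4e_an_NBT (St)
open Pool.Agent.MP_ae5b4e_an_NB2 (Sys)
open scoped ComplexConjugate

/-- `sin ϑ / ϑ` -/
def Sn (ϑ : ℂ) : ℂ := dslope Complex.sin 0 ϑ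

/-- the special functions: `P = Sn exp (1 - cos / Sn)`, `Lm' = 2 (P - 1) / (ϑ Sn²)` -/
structure Sp (P Lm : ℂ → ℂ) : Prop where
  anP : AnalyticOnNhd ℂ P (ball 0 Real.pi)
  anL : AnalyticOnNhd ℂ Lm (ball 0 Real.pi)
  P0 : P 0 = 1
  L0 : Lm 0 = 0
  dP : ∀ ϑ ∈ ball (0:ℂ) Real.pi, ϑ * Sn ϑ ^ 2 * deriv P ϑ = P ϑ * (1 - Sn ϑ ^ 2)
  dL : ∀ ϑ ∈ ball (0:ℂ) Real.pi, ϑ * Sn ϑ ^ 2 * deriv Lm ϑ = 2 * (P ϑ - 1)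
  rl : ∀ x : ℝ, 0 ≤ x → x < Real.pi → ∃ p l : ℝ, P x = p ∧ 1 ≤ p ∧ Lm x = l ∧ 0 ≤ l
  big : ∀ M : ℝ, ∃ x₀ : ℝ, 0 < x₀ ∧ x₀ < Real.pi ∧ ∃ p : ℝ, P x₀ = p ∧ M ≤ p

/-- the function `H (ϑ) = ϑ P exp (Lm / 2)` -/
def Hf (P Lm : ℂ → ℂ) (ϑ : ℂ) : ℂ := ϑ * P ϑ * exp (Lm ϑ / 2)

/-- a rectangle about the segment `[0, ϑ₁]` -/
def Rc (ϑ₁ r : ℝ) : Set ℂ := {ϑ | -r ≤ ϑ.re ∧ ϑ.re ≤ ϑ₁ + r ∧ |ϑ.im| ≤ r}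

/-- the thin half strip -/
def Ts (δ₁ v₁ : ℝ) : Set ℂ := {τ | |τ.re| < δ₁ ∧ τ.im < v₁}

/-- the inverse function: `Hf (th τ) = exp (- I τ / 2)` -/
structure Th (P Lm : ℂ → ℂ) (ϑ₁ r δ₁ m v₁ : ℝ) (th : ℂ → ℂ) : Prop where
  r_pos : 0 < r
  r_le : r ≤ 1
  sub : Rc ϑ₁ r ⊆ ball 0 Real.pi
  δ_pos : 0 < δ₁
  δ_le : δ₁ ≤ 1
  m_pos : 0 < m
  v_eq : Hf P Lm ϑ₁ = Real.exp (v₁ / 2)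
  an : AnalyticOnNhd ℂ th (Ts δ₁ v₁)
  mem : ∀ τ ∈ Ts δ₁ v₁, th τ ∈ Rc ϑ₁ (r / 2)
  eq : ∀ τ ∈ Ts δ₁ v₁, Hf P Lm (th τ) = exp (-(I * τ / 2))
  inj : ∀ x ∈ Rc ϑ₁ r, ∀ y ∈ Rc ϑ₁ r, m * ‖x - y‖ ≤ ‖Hf P Lm x - Hf P Lm y‖

/-- the drift of the velocity: `b (z, a) = (I / 2) (a² - sin² (ω a) / ω²)`, `ω = exp (- I z / 2)` -/
def bz (z a : ℂ) : ℂ := I / 2 * a ^ 2 * (1 - Sn (exp (-(I * z / 2)) * a) ^ 2)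

end Pool.Agent.MP_ae5b4e_an_NB5
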