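import Pool.Agent.Lib.MP_ae5b4e_an_NB5.StB
import Pool.Agent.Lib.MP_ae5b4e_an_NB5.SpD

/-!
# MP_ae5b4e_an, project NB_5(A): the step in a window
-/

noncomputable section

namespace Pool.Agent.MP_ae5b4e_an_NB5

open Complex Set Filter Topology Metric
open Pool.Agent.MP_ae5b4e_an_NBT (St)
open Pool.Agent.MP_ae5b4e_an_NB2 (Sys)
open scoped ComplexConjugate

/-! ### elementary estimates -/

private theorem StC_odd {w : ℂ} (hw : ‖w‖ ≤ 1) : ‖exp w - exp (-w) - 2 * w‖ ≤ 2 * ‖w‖ ^ 2 := by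
  have h1 := Complex.norm_exp_sub_one_sub_id_le hw
  have h2 := Complex.norm_exp_sub_one_sub_id_le (x := -w) (by rwa [norm_neg])
  rw [norm_neg] at h2
  have h3 : exp w - exp (-w) - 2 * w = (exp w - 1 - w) - (exp (-w) - 1 - -w) := by ring
  rw [h3]
  calc _ ≤ ‖exp w - 1 - w‖ + ‖exp (-w) - 1 - -w‖ := norm_sub_le _ _
    _ ≤ _ := by linarith

private theorem StC_cos {w : ℂ} (hw : ‖w‖ ≤ 1) : ‖cos w - 1‖ ≤ ‖w‖ ^ 2 := by
  have e1 : ‖w * I‖ = ‖w‖ := by rw [norm_mul, norm_I, mul_one]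
  have e2 : ‖-w * I‖ = ‖w‖ := by rw [norm_mul, norm_I, mul_one, norm_neg]
  have h1 := Complex.norm_exp_sub_one_sub_id_le (x := w * I) (by rwa [e1])
  have h2 := Complex.norm_exp_sub_one_sub_id_le (x := -w * I) (by rwa [e2])
  rw [e1] at h1
  rw [e2] at h2
  have h3 : cos w - 1 = ((exp (w * I) - 1 - w * I) + (exp (-w * I) - 1 - -w * I)) / 2 := by
    unfold Complex.cos
    ring
  rw [h3, norm_div, Complex.norm_ofNat]
  have h4 := norm_add_le (exp (w * I) - 1 - w * I) (exp (-w * I) - 1 - -w * I)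
  rw [div_le_iff₀ (by norm_num)]
  linarith

private theorem StC_ncos (w : ℂ) : ‖cos w‖ ≤ Real.exp ‖w‖ := by
  have h1 : ‖exp (w * I)‖ ≤ Real.exp ‖w‖ := by
    refine (Complex.norm_exp_le_exp_norm _).trans (le_of_eq ?_)
    rw [norm_mul, norm_I, mul_one]
  have h2 : ‖exp (-w * I)‖ ≤ Real.exp ‖w‖ := by
    refine (Complex.norm_exp_le_exp_norm _).trans (le_of_eq ?_)
    rw [norm_mul, norm_I, mul_one, norm_neg]
  have h3 : cos w = (exp (w * I) + exp (-w * I)) / 2 := rfl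
  rw [h3, norm_div, Complex.norm_ofNat, div_le_iff₀ (by norm_num)]
  have h4 := norm_add_le (exp (w * I)) (exp (-w * I))
  linarith

private theorem StC_nsin (w : ℂ) : ‖sin w‖ ≤ Real.exp ‖w‖ := by
  have h1 : ‖exp (w * I)‖ ≤ Real.exp ‖w‖ := by
    refine (Complex.norm_exp_le_exp_norm _).trans (le_of_eq ?_)
    rw [norm_mul, norm_I, mul_one]
  have h2 : ‖exp (-w * I)‖ ≤ Real.exp ‖w‖ := by
    refine (Complex.norm_exp_le_exp_norm _).trans (le_of_eq ?_)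
    rw [norm_mul, norm_I, mul_one, norm_neg]
  have h3 : sin w = (exp (-w * I) - exp (w * I)) * I / 2 := rfl
  rw [h3, norm_div, norm_mul, norm_I, mul_one, Complex.norm_ofNat, div_le_iff₀ (by norm_num)]
  have h4 := norm_sub_le (exp (-w * I)) (exp (w * I))
  linarith

private theorem StC_bz {z α ω : ℂ} (hω : ω = exp (-(I * z / 2))) :
    I / 2 * (α ^ 2 - sin (ω * α) ^ 2 / ω ^ 2) = bz z α := by
  have h0 : ω ≠ 0 := by
    rw [hω]
    exact Complex.exp_ne_zero _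
  unfold bz
  rw [← hω]
  have h1 : sin (ω * α) = (ω * α) * Sn (ω * α) := by
    unfold Sn
    have h2 := sub_smul_dslope Complex.sin 0 (ω * α)
    rw [sub_zero, Complex.sin_zero, sub_zero, smul_eq_mul] at h2
    exact h2.symm
  rw [h1]
  field_simp

/-! ### scaling -/

private def StC_sc (Z : Sys) (z ε : ℂ) : Sys where
  Q ζ := ε ^ 2 * Z.Q (z + ε * ζ)
  y1 ζ := Z.y1 (z + ε * ζ)
  y1' ζ := ε * Z.y1' (z + ε * ζ)
  y2 ζ := Z.y2 (z + ε * ζ) / ε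
  y2' ζ := Z.y2' (z + ε * ζ)

private theorem StC_c (Z : Sys) (z : ℂ) {ε : ℂ} (hε : ε ≠ 0) (ζ : ℂ) :
    (StC_sc Z z ε).c ζ 0 = Z.c (z + ε * ζ) z := by
  show Z.y2' (z + ε * 0) * Z.y1 (z + ε * ζ) - ε * Z.y1' (z + ε * 0) * (Z.y2 (z + ε * ζ) / ε) = _
  rw [mul_zero, add_zero]
  unfold Sys.c
  field_simp

private theorem StC_s (Z : Sys) (z : ℂ) {ε : ℂ} (hε : ε ≠ 0) (ζ : ℂ) :
    ε * (StC_sc Z z ε).s ζ 0 = Z.s (z + ε * ζ) z := by
  show ε * (Z.y1 (z + ε * 0) * (Z.y2 (z + ε * ζ) / ε) - Z.y2 (z + ε * 0) / ε *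
    Z.y1 (z + ε * ζ)) = _
  rw [mul_zero, add_zero]
  unfold Sys.s
  field_simp

private theorem StC_sd (Z : Sys) (z : ℂ) {ε : ℂ} (hε : ε ≠ 0) (ζ : ℂ) :
    (StC_sc Z z ε).sd ζ 0 = Z.sd (z + ε * ζ) z := by
  show Z.y1 (z + ε * 0) * Z.y2' (z + ε * ζ) - Z.y2 (z + ε * 0) / ε *
    (ε * Z.y1' (z + ε * ζ)) = _
  rw [mul_zero, add_zero]
  unfold Sys.sd
  field_simp

private theorem StC_cd (Z : Sys) (z ε : ℂ) (ζ : ℂ) :
    (StC_sc Z z ε).cd ζ 0 = ε * Z.cd (z + ε * ζ) z := by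
  show Z.y2' (z + ε * 0) * (ε * Z.y1' (z + ε * ζ)) - ε * Z.y1' (z + ε * 0) *
    Z.y2' (z + ε * ζ) = _
  rw [mul_zero, add_zero]
  unfold Sys.cd
  ring

private theorem StC_on {Z : Sys} {Ω S : Set ℂ} (hZ : Z.On Ω) {z ε : ℂ} (hε : ε ≠ 0)
    (h : ∀ ζ ∈ S, z + ε * ζ ∈ Ω) : (StC_sc Z z ε).On S := by
  have hin : ∀ ζ : ℂ, HasDerivAt (fun ζ : ℂ => z + ε * ζ) ε ζ := by
    intro ζ
    simpa using ((hasDerivAt_id ζ).const_mul ε).const_add z
  refine ⟨fun ζ hζ => ?_, fun ζ hζ => ?_, fun ζ hζ => ?_, fun ζ hζ => ?_, fun ζ hζ => ?_⟩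
  · have h1 := (hZ.d1 _ (h ζ hζ)).comp ζ (hin ζ)
    rw [mul_comm] at h1
    exact h1
  · have h1 := ((hZ.d1' _ (h ζ hζ)).comp ζ (hin ζ)).const_mul ε
    have h2 : ε * (-(Z.Q (z + ε * ζ) * Z.y1 (z + ε * ζ)) * ε) =
        -(ε ^ 2 * Z.Q (z + ε * ζ) * Z.y1 (z + ε * ζ)) := by ring
    rw [h2] at h1
    exact h1
  · have h1 := ((hZ.d2 _ (h ζ hζ)).comp ζ (hin ζ)).div_const ε
    have h2 : Z.y2' (z + ε * ζ) * ε / ε = Z.y2' (z + ε * ζ) := by field_simp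
    rw [h2] at h1
    exact h1
  · have h1 := (hZ.d2' _ (h ζ hζ)).comp ζ (hin ζ)
    have h2 : -(Z.Q (z + ε * ζ) * Z.y2 (z + ε * ζ)) * ε =
        -(ε ^ 2 * Z.Q (z + ε * ζ) * (Z.y2 (z + ε * ζ) / ε)) := by
      field_simp
    rw [h2] at h1
    exact h1
  · have h1 := hZ.wr _ (h ζ hζ)
    show Z.y1 (z + ε * ζ) * Z.y2' (z + ε * ζ) - ε * Z.y1' (z + ε * ζ) *
      (Z.y2 (z + ε * ζ) / ε) = 1
    rw [← h1]
    field_simp

private theorem StC_Pn (Z : Sys) (z : ℂ) {ε : ℂ} (hε : ε ≠ 0) (α x : ℂ) :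
    Pn Z z (z - ε * α) (ε * x) = ε * ((StC_sc Z z ε).c x 0 * (StC_sc Z z ε).s (-α) 0 +
      (StC_sc Z z ε).c (-α) 0 * (StC_sc Z z ε).s x 0) := by
  have e : z - ε * α = z + ε * (-α) := by ring
  unfold Pn
  rw [e, ← StC_c Z z hε, ← StC_c Z z hε, ← StC_s Z z hε, ← StC_s Z z hε]
  ring

private theorem StC_Pn' (Z : Sys) (z : ℂ) {ε : ℂ} (hε : ε ≠ 0) (α x : ℂ) :
    Pn' Z z (z - ε * α) (ε * x) = (StC_sc Z z ε).cd x 0 * (StC_sc Z z ε).s (-α) 0 +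
      (StC_sc Z z ε).c (-α) 0 * (StC_sc Z z ε).sd x 0 := by
  have e : z - ε * α = z + ε * (-α) := by ring
  unfold Pn'
  rw [e, StC_cd, ← StC_c Z z hε, ← StC_sd Z z hε, ← StC_s Z z hε]
  ring

/-! ### the potential -/

private theorem StC_q {Z : Sys} {q : ℂ → ℂ} {ε k δ R : ℝ} (hW : WS Z q ε k δ) (hR : 1 ≤ R)
    (hk : R + 4 ≤ k) (hε1 : ε * (R + 2) ≤ 1) {z ζ : ℂ} (hz : ‖z‖ ≤ R) (hζ : ‖ζ‖ < R + 2) :
    ‖q (z + ε * ζ) - exp (-(I * z / 2)) ^ 2‖ ≤ δ + 2 * Real.exp R * (R + 2) * ε ∧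
    ‖q (z + ε * ζ) - q (z - ε * ζ) + 2 * ε * I * exp (-(I * z / 2)) ^ 2 * ζ‖ ≤
      ε * (2 * (R + 2) * δ + 2 * Real.exp R * (R + 2) ^ 2 * ε) := by
  have hε := hW.ε_pos
  have hδ : 0 ≤ δ := hε.le.trans hW.ε_le
  have hω2 : exp (-(I * z / 2)) ^ 2 = exp (-(I * z)) := by
    rw [← Complex.exp_nat_mul]
    congr 1
    push_cast
    ring
  rw [hω2]
  have hnz : ‖exp (-(I * z))‖ ≤ Real.exp R := by
    refine (Complex.norm_exp_le_exp_norm _).trans (Real.exp_le_exp.2 ?_)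
    rw [norm_neg, norm_mul, norm_I, one_mul]
    exact hz
  obtain ⟨w, hw⟩ : ∃ w : ℂ, w = -(I * (ε * ζ)) := ⟨_, rfl⟩
  have hwn : ‖w‖ = ε * ‖ζ‖ := by
    rw [hw, norm_neg, norm_mul, norm_I, one_mul, norm_mul, Complex.norm_real, Real.norm_eq_abs,
      abs_of_pos hε]
  have hw1 : ‖w‖ ≤ ε * (R + 2) := by
    rw [hwn]
    exact mul_le_mul_of_nonneg_left hζ.le hε.le
  have hw2 : ‖w‖ ≤ 1 := hw1.trans hε1
  have hεζ : ‖(ε:ℂ) * ζ‖ ≤ 1 := by
    rw [norm_mul, Complex.norm_real, Real.norm_eq_abs, abs_of_pos hε, ← hwn]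
    exact hw2
  have e1 : exp (-(I * (z + ε * ζ))) = exp (-(I * z)) * exp w := by
    rw [← Complex.exp_add, hw]
    congr 1
    ring
  have e2 : exp (-(I * (z - ε * ζ))) = exp (-(I * z)) * exp (-w) := by
    rw [← Complex.exp_add, hw]
    congr 1
    ring
  have m1 : z + ε * ζ ∈ ball (0:ℂ) (2 * k - 1) := by
    rw [mem_ball_zero_iff]
    have := norm_add_le z (ε * ζ)
    linarith
  have m2 : z - ε * ζ ∈ ball (0:ℂ) (2 * k - 1) := by
    rw [mem_ball_zero_iff]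
    have := norm_sub_le z (ε * ζ)
    linarith
  have hsub : ball (0:ℂ) (2 * k - 1) ⊆ ball 0 (2 * k) := ball_subset_ball (by linarith)
  constructor
  · have h1 := hW.qb _ (hsub m1)
    have h2 : ‖exp (-(I * (z + ε * ζ))) - exp (-(I * z))‖ ≤ 2 * Real.exp R * (R + 2) * ε := by
      rw [e1]
      have h3 : exp (-(I * z)) * exp w - exp (-(I * z)) = exp (-(I * z)) * (exp w - 1) := by ring
      rw [h3, norm_mul]
      have h4 := Complex.norm_exp_sub_one_le hw2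
      calc ‖exp (-(I * z))‖ * ‖exp w - 1‖ ≤ Real.exp R * (2 * (ε * (R + 2))) := by
            refine mul_le_mul hnz (h4.trans ?_) (norm_nonneg _) (Real.exp_pos _).le
            linarith
        _ = _ := by ring
    have h5 : q (z + ε * ζ) - exp (-(I * z)) = (q (z + ε * ζ) - exp (-(I * (z + ε * ζ)))) +
        (exp (-(I * (z + ε * ζ))) - exp (-(I * z))) := by ring
    rw [h5]
    exact (norm_add_le _ _).trans (add_le_add h1 h2)
  · have hgd : ∀ x ∈ ball (0:ℂ) (2 * k), DifferentiableAt ℂ (fun x => q x - exp (-(I * x))) x := by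
      intro x hx
      refine (hW.qan x hx).differentiableAt.sub ?_
      fun_prop
    have hder : ∀ x ∈ ball (0:ℂ) (2 * k - 1),
        ‖deriv (fun x => q x - exp (-(I * x))) x‖ ≤ δ := by
      intro x hx
      have hcb : closedBall x 1 ⊆ ball (0:ℂ) (2 * k) := by
        refine closedBall_subset_ball' ?_
        rw [mem_ball_zero_iff] at hx
        rw [dist_zero_right]
        linarith
      have h1 := Complex.norm_deriv_le_of_forall_mem_sphere_norm_le (c := x) (R := 1) (C := δ)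
        (f := fun x => q x - exp (-(I * x))) one_pos
        (DifferentiableOn.diffContOnCl_ball
          (fun y hy => (hgd y hy).differentiableWithinAt) hcb)
        (fun y hy => hW.qb y (hcb (sphere_subset_closedBall hy)))
      rwa [div_one] at h1
    have h1 := Convex.norm_image_sub_le_of_norm_deriv_le (𝕜 := ℂ)
      (fun x hx => hgd x (hsub hx)) hder (convex_ball _ _) m2 m1
    have h2 : z + ε * ζ - (z - ε * ζ) = 2 * (ε * ζ) := by ring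
    have h3 : ‖(2:ℂ) * (ε * ζ)‖ ≤ 2 * (ε * (R + 2)) := by
      rw [norm_mul, Complex.norm_ofNat, norm_mul, Complex.norm_real, Real.norm_eq_abs,
        abs_of_pos hε]
      have := mul_le_mul_of_nonneg_left hζ.le hε.le
      linarith
    rw [h2] at h1
    have h4 := h1.trans (mul_le_mul_of_nonneg_left h3 hδ)
    have h5 := StC_odd hw2
    have h6 : ‖exp (-(I * z)) * (exp w - exp (-w) - 2 * w)‖ ≤
        Real.exp R * (2 * (ε * (R + 2)) ^ 2) := by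
      rw [norm_mul]
      refine mul_le_mul hnz (h5.trans ?_) (norm_nonneg _) (Real.exp_pos _).le
      have := pow_le_pow_left₀ (norm_nonneg w) hw1 2
      linarith
    have h7 : q (z + ε * ζ) - q (z - ε * ζ) + 2 * ε * I * exp (-(I * z)) * ζ =
        ((q (z + ε * ζ) - exp (-(I * (z + ε * ζ)))) - (q (z - ε * ζ) - exp (-(I * (z - ε * ζ))))) +
        exp (-(I * z)) * (exp w - exp (-w) - 2 * w) := by
      rw [e1, e2, hw]
      ring
    rw [h7]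
    refine (norm_add_le _ _).trans ((add_le_add h4 h6).trans (le_of_eq ?_))
    ring

/-! ### the derivative of the node function -/

private theorem StC_D {a b s d co si' : ℂ} {ν E W : ℝ} {ω x α : ℂ}
    (hω : ω ≠ 0) (hν : 0 ≤ ν) (hν1 : ν ≤ 1) (hE : 1 ≤ E) (hW : 1 ≤ W) (hωW : ‖ω‖ ≤ W)
    (hωW' : 1 ≤ W * ‖ω‖)
    (h1 : ‖a + ω * sin (ω * x)‖ ≤ ν) (h2 : ‖s - sin (ω * -α) / ω‖ ≤ ν)
    (h3 : ‖b - cos (ω * -α)‖ ≤ ν) (h4 : ‖d - cos (ω * x)‖ ≤ ν)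
    (hsx : ‖sin (ω * x)‖ ≤ E) (hsα : ‖sin (ω * -α)‖ ≤ E) (hcx : ‖cos (ω * x)‖ ≤ E)
    (hcα : ‖cos (ω * -α)‖ ≤ E) (_ : co = si') :
    ‖a * s + b * d - cos (ω * (x - α))‖ ≤ 6 * W * E * ν := by
  have hωp : 0 < ‖ω‖ := norm_pos_iff.2 hω
  have hsω : ‖sin (ω * -α) / ω‖ ≤ W * E := by
    rw [norm_div, div_le_iff₀ hωp]
    have : E ≤ W * ‖ω‖ * E := le_mul_of_one_le_left (zero_le_one.trans hE) hωW'
    linarith
  have hs : ‖s‖ ≤ W * E + ν := by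
    have h5 : s = sin (ω * -α) / ω + (s - sin (ω * -α) / ω) := by ring
    rw [h5]
    exact (norm_add_le _ _).trans (add_le_add hsω h2)
  have hd : ‖d‖ ≤ E + ν := by
    have h5 : d = cos (ω * x) + (d - cos (ω * x)) := by ring
    rw [h5]
    exact (norm_add_le _ _).trans (add_le_add hcx h4)
  have key : a * s + b * d - cos (ω * (x - α)) = (a + ω * sin (ω * x)) * s +
      (-(ω * sin (ω * x))) * (s - sin (ω * -α) / ω) + (b - cos (ω * -α)) * d +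
      cos (ω * -α) * (d - cos (ω * x)) := by
    have h6 : ω * (x - α) = ω * x + ω * -α := by ring
    rw [h6, Complex.cos_add]
    field_simp
    ring
  rw [key]
  have n1 : ‖(a + ω * sin (ω * x)) * s‖ ≤ ν * (W * E + ν) := by
    rw [norm_mul]
    exact mul_le_mul h1 hs (norm_nonneg _) hν
  have n2 : ‖(-(ω * sin (ω * x))) * (s - sin (ω * -α) / ω)‖ ≤ W * E * ν := by
    rw [norm_mul, norm_neg, norm_mul]
    refine mul_le_mul ?_ h2 (norm_nonneg _) (by positivity)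
    exact mul_le_mul hωW hsx (norm_nonneg _) (by linarith)
  have n3 : ‖(b - cos (ω * -α)) * d‖ ≤ ν * (E + ν) := by
    rw [norm_mul]
    exact mul_le_mul h3 hd (norm_nonneg _) hν
  have n4 : ‖cos (ω * -α) * (d - cos (ω * x))‖ ≤ E * ν := by
    rw [norm_mul]
    exact mul_le_mul hcα h4 (norm_nonneg _) (by linarith)
  have n5 := norm_add_le ((a + ω * sin (ω * x)) * s +
      (-(ω * sin (ω * x))) * (s - sin (ω * -α) / ω) + (b - cos (ω * -α)) * d)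
      (cos (ω * -α) * (d - cos (ω * x)))
  have n6 := norm_add_le ((a + ω * sin (ω * x)) * s +
      (-(ω * sin (ω * x))) * (s - sin (ω * -α) / ω)) ((b - cos (ω * -α)) * d)
  have n7 := norm_add_le ((a + ω * sin (ω * x)) * s)
      ((-(ω * sin (ω * x))) * (s - sin (ω * -α) / ω))
  have hWE : 1 ≤ W * E := one_le_mul_of_one_le_of_one_le hW hE
  have hνν : ν * ν ≤ ν := mul_le_of_le_one_left hν hν1
  have hEW : E * ν ≤ W * E * ν := by
    have : 0 ≤ E * ν := mul_nonneg (zero_le_one.trans hE) hν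
    rw [mul_assoc]
    exact le_mul_of_one_le_left this hW
  have hνW : ν ≤ W * E * ν := le_mul_of_one_le_left hν hWE
  linarith only [n1, n2, n3, n4, n5, n6, n7, hνν, hEW, hνW]

/-- **The step.** Apply `odd_limit` to `Y = scN Z z (1 / ε)`
(`Y.Q ζ = ε² Z.Q (z + ε ζ) = q (z + ε ζ)`, `Y.c (ζ, 0) = Z.c (z + ε ζ, z)`,
`Y.s (ζ, 0) = Z.s (z + ε ζ, z) / ε`, `Y.sd = Z.sd`, `Y.cd = ε Z.cd`),
`ρ = R + 2`, `ω = exp (- I z / 2)`: `‖q (z + ε ζ) - exp (- I z)‖ ≤ δ + O (ε)`, and the odd part of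
`q (z + ε ·) ` is the odd part of `exp (- I (z + ε ζ))`, i.e. `- 2 I exp (- I z) sin (ε ζ)`, up to
`2 ε ρ δ` (Cauchy estimate for `q - exp (- I ·)` on discs of radius one in `ball 0 (2 k)`). So
`μ = C δ` (`ε ≤ δ`). Then `Pn Z z (z - ε α) (ε x) = ε (Y.c (x) Y.s (-α) + Y.c (-α) Y.s (x))`, and
`Pn' = Y.cd (x) Y.s (-α) + Y.c (-α) Y.sd (x) = cos (ω (x - α)) + O (μ)`: `‖Pn' - 1‖ ≤ 1/2` for
`‖x - α‖ ≤ ρ₀` (`ρ₀`, `δ₀` small). At `x = α`: `Pn = - ε² bz z α + O (ε² μ)`, since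
`bz z α = (I/2) (α² - sin² (ω α) / ω²)` (`ϑ Sn ϑ = sin ϑ`); so `small` holds. If `α'` is a root
with `‖α' - α‖ ≤ ρ₀` then `‖α' - α‖ ≤ 2 ‖Pn (ε α)‖ / ε = O (ε)`, so `Pn' - 1 = O (ε² + μ)`
between, and `‖α' - α + Pn (ε α) / ε‖ ≤ O (ε) O (ε² + μ) ≤ ε η / 2`, and
`- Pn (ε α) / ε = ε bz z α + O (ε μ)`. -/
theorem step_b {R η : ℝ} (hR : 1 ≤ R) (hη : 0 < η) :
    ∃ δ₀ ρ₀ : ℝ, 0 < δ₀ ∧ 0 < ρ₀ ∧ ρ₀ ≤ 1 ∧ ∀ (Z : Sys) (q : ℂ → ℂ) (ε k δ : ℝ), WS Z q ε k δ →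
      R + 4 ≤ k → δ ≤ δ₀ → ∀ z α : ℂ, ‖z‖ ≤ R → ‖α‖ ≤ R →
        ROK Z (ball 0 (2 * k)) z (z - ε * α) (ρ₀ * ε) ∧
        ∀ α' : ℂ, ‖α' - α‖ ≤ ρ₀ → Pn Z z (z - ε * α) (ε * α') = 0 →
          ‖α' - α - ε * bz z α‖ ≤ ε * η := by
  -- constants
  obtain ⟨W, hW⟩ : ∃ W : ℝ, W = R + 2 + Real.exp R := ⟨_, rfl⟩
  have heR : 1 ≤ Real.exp R := Real.one_le_exp (by linarith)
  have hW1 : 1 ≤ W := by rw [hW]; linarith
  obtain ⟨C, hC, hodd⟩ := odd_limit hW1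
  obtain ⟨E, hE⟩ : ∃ E : ℝ, E = Real.exp (W * W) := ⟨_, rfl⟩
  have hE1 : 1 ≤ E := by rw [hE]; exact Real.one_le_exp (by positivity)
  obtain ⟨C₁, hC₁⟩ : ∃ C₁ : ℝ, C₁ = 1 + 2 * Real.exp R * (R + 2) + 2 * (R + 2) +
    2 * Real.exp R * (R + 2) ^ 2 := ⟨_, rfl⟩
  have hR0 : 0 < R + 2 := by linarith
  have hC₁1 : 1 + 2 * (R + 2) ≤ C₁ := by
    have h1 : 0 ≤ 2 * Real.exp R * (R + 2) := by positivity
    have h2 : 0 ≤ 2 * Real.exp R * (R + 2) ^ 2 := by positivity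
    linarith
  have hC₁0 : 0 < C₁ := by linarith
  obtain ⟨C₂, hC₂⟩ : ∃ C₂ : ℝ, C₂ = 6 * W * E * C := ⟨_, rfl⟩
  have hC₂0 : 0 < C₂ := by rw [hC₂]; positivity
  obtain ⟨W₃, hW₃⟩ : ∃ W₃ : ℝ, W₃ = W ^ 2 * E ^ 2 + 1 := ⟨_, rfl⟩
  have hW₃0 : 0 < W₃ := by rw [hW₃]; positivity
  obtain ⟨T, hT⟩ : ∃ T : ℝ, T = C₁ + C * C₁ + 4 * C₂ * C₁ + 8 * W * W₃ + 2 * W₃ * C₂ * C₁ +
    8 * W ^ 2 * W₃ ^ 3 + C * C₁ := ⟨_, rfl⟩
  have t1 : 0 < C * C₁ := by positivity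
  have t2 : 0 < C₂ * C₁ := by positivity
  have t3 : 0 < 8 * W * W₃ := by positivity
  have t4 : 0 < 2 * W₃ * C₂ * C₁ := by positivity
  have t5 : 0 < 8 * W ^ 2 * W₃ ^ 3 := by positivity
  have hT0 : 0 < T := by rw [hT]; linarith
  refine ⟨min (1 / T) (η / T), 1 / (2 * W), by positivity, by positivity, ?_, ?_⟩
  · rw [div_le_one (by positivity)]
    linarith
  intro Z q ε k δ hZ hk hδ z α hz hα
  have hδT : δ * T ≤ 1 := by
    have h1 := hδ.trans (min_le_left _ _)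
    rwa [le_div_iff₀ hT0] at h1
  have hδη : δ * T ≤ η := by
    have h1 := hδ.trans (min_le_right _ _)
    rwa [le_div_iff₀ hT0] at h1
  have hε := hZ.ε_pos
  have hεδ := hZ.ε_le
  have hδ0 : 0 < δ := lt_of_lt_of_le hε hεδ
  -- consequences
  have hterm : ∀ X : ℝ, X ≤ T → δ * X ≤ 1 := fun X hX =>
    (mul_le_mul_of_nonneg_left hX hδ0.le).trans hδT
  have b1 : δ * C₁ ≤ 1 := hterm _ (by rw [hT]; linarith)
  have b2 : C * (C₁ * δ) ≤ 1 := by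
    have := hterm (C * C₁) (by rw [hT]; linarith)
    linarith
  have b3 : C₂ * (C₁ * δ) ≤ 1 / 4 := by
    have := hterm (4 * C₂ * C₁) (by rw [hT]; linarith)
    linarith
  have b4 : δ * (8 * W * W₃) ≤ 1 := hterm _ (by rw [hT]; linarith)
  have hε1 : ε * (R + 2) ≤ 1 := by
    have h1 : ε * (R + 2) ≤ δ * C₁ :=
      mul_le_mul hεδ (by linarith) hR0.le hδ0.le
    linarith
  have hεle : ε ≤ 1 := (le_mul_of_one_le_right hε.le (by linarith only [hR])).trans hε1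
  have hεc : (ε:ℂ) ≠ 0 := by exact_mod_cast hε.ne'
  have hnε : ‖(ε:ℂ)‖ = ε := by rw [Complex.norm_real, Real.norm_eq_abs, abs_of_pos hε]
  obtain ⟨μ, hμ⟩ : ∃ μ : ℝ, μ = C₁ * δ := ⟨_, rfl⟩
  rw [← hμ] at b2 b3
  have hμ0 : 0 ≤ μ := by rw [hμ]; positivity
  have hμ1 : μ ≤ 1 := by rw [hμ]; linarith
  obtain ⟨ω, hω⟩ : ∃ ω : ℂ, ω = exp (-(I * z / 2)) := ⟨_, rfl⟩
  have hω0 : ω ≠ 0 := by rw [hω]; exact Complex.exp_ne_zero _
  have hnorm2 : ‖I * z / 2‖ ≤ R := by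
    rw [norm_div, norm_mul, norm_I, one_mul, Complex.norm_ofNat]
    linarith [norm_nonneg z]
  have hωW : ‖ω‖ ≤ W := by
    rw [hω]
    refine (Complex.norm_exp_le_exp_norm _).trans ?_
    rw [norm_neg]
    have := Real.exp_le_exp.2 hnorm2
    rw [hW]
    linarith
  have hωW' : 1 ≤ W * ‖ω‖ := by
    have h1 : ‖exp (I * z / 2)‖ ≤ W := by
      refine (Complex.norm_exp_le_exp_norm _).trans ?_
      have := Real.exp_le_exp.2 hnorm2
      rw [hW]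
      linarith
    have h2 : exp (I * z / 2) * ω = 1 := by
      rw [hω, ← Complex.exp_add, add_neg_cancel, Complex.exp_zero]
    have h3 : ‖exp (I * z / 2)‖ * ‖ω‖ = 1 := by
      rw [← norm_mul, h2, norm_one]
    rw [← h3]
    exact mul_le_mul_of_nonneg_right h1 (norm_nonneg _)
  -- the scaled system
  obtain ⟨Y, hY⟩ : ∃ Y : Sys, Y = StC_sc Z z ε := ⟨_, rfl⟩
  have hin : ∀ ζ ∈ ball (0:ℂ) (R + 2), z + ε * ζ ∈ ball (0:ℂ) (2 * k) := by
    intro ζ hζ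
    rw [mem_ball_zero_iff] at hζ ⊢
    have h1 := norm_add_le z (ε * ζ)
    rw [norm_mul, hnε] at h1
    have h2 := mul_le_mul_of_nonneg_left hζ.le hε.le
    linarith
  have hYon : Y.On (ball 0 (R + 2)) := by
    rw [hY]
    exact StC_on hZ.on hεc hin
  have hYQ : ∀ ζ ∈ ball (0:ℂ) (R + 2), Y.Q ζ = q (z + ε * ζ) := by
    intro ζ hζ
    rw [hY, ← hZ.Qeq _ (hin ζ hζ)]
    show (ε:ℂ) ^ 2 * Z.Q (z + ε * ζ) = _
    ring
  have hneg : ∀ ζ ∈ ball (0:ℂ) (R + 2), -ζ ∈ ball (0:ℂ) (R + 2) := by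
    intro ζ hζ
    rw [mem_ball_zero_iff] at hζ ⊢
    rwa [norm_neg]
  have H := hodd Y ω (R + 2) ε μ (by linarith) (by rw [hW]; linarith) hωW hωW' hε hεle hμ0 hμ1
    hYon (by
      intro ζ hζ
      rw [hYQ ζ hζ, hω]
      rw [mem_ball_zero_iff] at hζ
      refine (StC_q hZ hR hk hε1 hz hζ).1.trans ?_
      have h1 : 2 * Real.exp R * (R + 2) * ε ≤ 2 * Real.exp R * (R + 2) * δ :=
        mul_le_mul_of_nonneg_left hεδ (by positivity)
      rw [hμ, hC₁]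
      have h2 : 0 ≤ 2 * (R + 2) * δ := by positivity
      have h3 : 0 ≤ 2 * Real.exp R * (R + 2) ^ 2 * δ := by positivity
      linarith only [h1, h2, h3]) (by
      intro ζ hζ
      rw [hYQ ζ hζ, hYQ _ (hneg ζ hζ), hω]
      rw [mem_ball_zero_iff] at hζ
      have h0 : z + ε * -ζ = z - ε * ζ := by ring
      rw [h0]
      refine (StC_q hZ hR hk hε1 hz hζ).2.trans ?_
      refine mul_le_mul_of_nonneg_left ?_ hε.le
      have h1 : 2 * Real.exp R * (R + 2) ^ 2 * ε ≤ 2 * Real.exp R * (R + 2) ^ 2 * δ :=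
        mul_le_mul_of_nonneg_left hεδ (by positivity)
      rw [hμ, hC₁]
      have h3 : 0 ≤ 2 * Real.exp R * (R + 2) * δ := by positivity
      linarith only [h1, h3, hδ0])
  have hCμ : 0 ≤ C * μ := by positivity
  -- bounds for the trigonometric functions
  have hEb : ∀ x : ℂ, ‖x‖ < R + 2 → Real.exp ‖ω * x‖ ≤ E := by
    intro x hx
    rw [hE]
    apply Real.exp_le_exp.2
    rw [norm_mul]
    refine mul_le_mul hωW ?_ (norm_nonneg _) (by linarith)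
    rw [hW]
    linarith
  have hα2 : ‖α‖ < R + 2 := by linarith
  have hα2' : ‖-α‖ < R + 2 := by rwa [norm_neg]
  have hαb : α ∈ ball (0:ℂ) (R + 2) := by rwa [mem_ball_zero_iff]
  have hαb' : -α ∈ ball (0:ℂ) (R + 2) := by rwa [mem_ball_zero_iff]
  -- the derivative
  have hD : ∀ x ∈ ball (0:ℂ) (R + 2),
      ‖Y.cd x 0 * Y.s (-α) 0 + Y.c (-α) 0 * Y.sd x 0 - cos (ω * (x - α))‖ ≤ C₂ * μ := by
    intro x hx
    have hx' : ‖x‖ < R + 2 := by rwa [mem_ball_zero_iff] at hx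
    have h1 := H x hx
    have h2 := H (-α) hαb'
    have h3 := StC_D (co := 0) (si' := 0) hω0 hCμ b2 hE1 hW1 hωW hωW' h1.2.2.1 h2.2.1 h2.1
      h1.2.2.2.1 ((StC_nsin _).trans (hEb x hx')) ((StC_nsin _).trans (hEb _ hα2'))
      ((StC_ncos _).trans (hEb x hx')) ((StC_ncos _).trans (hEb _ hα2')) rfl
    refine h3.trans (le_of_eq ?_)
    rw [hC₂]
    ring
  have hD1 : ∀ (s : ℝ) (x : ℂ), W * s ≤ 1 → x ∈ ball (0:ℂ) (R + 2) → ‖x - α‖ ≤ s →
      ‖Y.cd x 0 * Y.s (-α) 0 + Y.c (-α) 0 * Y.sd x 0 - 1‖ ≤ C₂ * μ + (W * s) ^ 2 := by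
    intro s x hs hx hxs
    have h0 : 0 ≤ s := (norm_nonneg _).trans hxs
    have h1 : ‖ω * (x - α)‖ ≤ W * s := by
      rw [norm_mul]
      exact mul_le_mul hωW hxs (norm_nonneg _) (by linarith)
    have h2 := StC_cos (h1.trans hs)
    have h3 : ‖ω * (x - α)‖ ^ 2 ≤ (W * s) ^ 2 := pow_le_pow_left₀ (norm_nonneg _) h1 2
    have h4 : Y.cd x 0 * Y.s (-α) 0 + Y.c (-α) 0 * Y.sd x 0 - 1 =
        (Y.cd x 0 * Y.s (-α) 0 + Y.c (-α) 0 * Y.sd x 0 - cos (ω * (x - α))) +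
        (cos (ω * (x - α)) - 1) := by ring
    rw [h4]
    exact (norm_add_le _ _).trans (add_le_add (hD x hx) (h2.trans h3))
  have hhalf : ∀ x : ℂ, ‖x - α‖ ≤ 1 / (2 * W) → x ∈ ball (0:ℂ) (R + 2) ∧
      ‖Y.cd x 0 * Y.s (-α) 0 + Y.c (-α) 0 * Y.sd x 0 - 1‖ ≤ 1 / 2 := by
    intro x hx
    have h1 : 1 / (2 * W) ≤ 1 := by
      rw [div_le_one (by positivity)]
      linarith
    have hxb : x ∈ ball (0:ℂ) (R + 2) := by
      rw [mem_ball_zero_iff]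
      have h2 : x = α + (x - α) := by ring
      have h3 := norm_add_le α (x - α)
      rw [← h2] at h3
      linarith
    have h2 : W * (1 / (2 * W)) = 1 / 2 := by field_simp
    have h3 := hD1 (1 / (2 * W)) x (by rw [h2]; norm_num) hxb hx
    rw [h2] at h3
    refine ⟨hxb, h3.trans ?_⟩
    linarith
  -- the value at `α`
  have hval : ‖Y.c α 0 * Y.s (-α) 0 + Y.c (-α) 0 * Y.s α 0 + ε * bz z α‖ ≤ C * (ε * μ) := by
    have h1 := (H α hαb).2.2.2.2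
    rw [StC_bz hω] at h1
    exact h1
  have hbz : ‖bz z α‖ ≤ W ^ 2 * E ^ 2 := by
    rw [← StC_bz hω, norm_mul, norm_div, norm_I, Complex.norm_ofNat]
    have hωp : 0 < ‖ω‖ := norm_pos_iff.2 hω0
    have h1 : ‖sin (ω * α) ^ 2 / ω ^ 2‖ ≤ W ^ 2 * E ^ 2 := by
      rw [norm_div, norm_pow, norm_pow, div_le_iff₀ (by positivity)]
      have h2 := (StC_nsin (ω * α)).trans (hEb α hα2)
      have h3 : ‖sin (ω * α)‖ ^ 2 ≤ E ^ 2 := pow_le_pow_left₀ (norm_nonneg _) h2 2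
      have h4 : 1 ≤ (W * ‖ω‖) ^ 2 := one_le_pow₀ hωW'
      calc ‖sin (ω * α)‖ ^ 2 ≤ E ^ 2 * 1 := by linarith
        _ ≤ E ^ 2 * (W * ‖ω‖) ^ 2 := mul_le_mul_of_nonneg_left h4 (by positivity)
        _ = _ := by ring
    have h2 : ‖α ^ 2‖ ≤ W ^ 2 * E ^ 2 := by
      rw [norm_pow]
      have h3 : ‖α‖ ≤ W := by rw [hW]; linarith
      have h4 : ‖α‖ ^ 2 ≤ W ^ 2 := pow_le_pow_left₀ (norm_nonneg _) h3 2
      have h5 : 1 ≤ E ^ 2 := one_le_pow₀ hE1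
      exact h4.trans (le_mul_of_one_le_right (sq_nonneg W) h5)
    have h3 := norm_sub_le (α ^ 2) (sin (ω * α) ^ 2 / ω ^ 2)
    linarith
  have hN : ‖Y.c α 0 * Y.s (-α) 0 + Y.c (-α) 0 * Y.s α 0‖ ≤ ε * W₃ := by
    have h1 : Y.c α 0 * Y.s (-α) 0 + Y.c (-α) 0 * Y.s α 0 =
        (Y.c α 0 * Y.s (-α) 0 + Y.c (-α) 0 * Y.s α 0 + ε * bz z α) - ε * bz z α := by ring
    have h2 : ‖(ε:ℂ) * bz z α‖ ≤ ε * (W ^ 2 * E ^ 2) := by
      rw [norm_mul, hnε]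
      exact mul_le_mul_of_nonneg_left hbz hε.le
    have h3 : C * (ε * μ) ≤ ε * 1 := by
      have := mul_le_mul_of_nonneg_left b2 hε.le
      linarith
    rw [h1]
    refine (norm_sub_le _ _).trans ((add_le_add (hval.trans h3) h2).trans (le_of_eq ?_))
    rw [hW₃]
    ring
  -- the node function in the scaled coordinate
  have hderiv : ∀ x ∈ ball (0:ℂ) (R + 2), HasDerivAt
      (fun x => Y.c x 0 * Y.s (-α) 0 + Y.c (-α) 0 * Y.s x 0)
      (Y.cd x 0 * Y.s (-α) 0 + Y.c (-α) 0 * Y.sd x 0) x := fun x hx =>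
    ((Sys.hasDerivAt_c hYon hx).mul_const _).add ((Sys.hasDerivAt_s hYon hx).const_mul _)
  have hlm : z - (z - ε * α) = ε * α := by ring
  refine ⟨⟨by positivity, ?_, ?_, ?_, ?_, ?_⟩, ?_⟩
  · rw [mem_ball_zero_iff]
    linarith
  · have h1 := hin (-α) hαb'
    have h2 : z + ε * -α = z - ε * α := by ring
    rwa [h2] at h1
  · intro x hx
    rw [hlm, mem_closedBall, dist_eq_norm] at hx
    have hx' : ‖x / ε - α‖ ≤ 1 / (2 * W) := by
      have h1 : x / ε - α = (x - ε * α) / ε := by field_simp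
      rw [h1, norm_div, hnε, div_le_iff₀ hε]
      exact hx
    have h2 := hin _ (hhalf _ hx').1
    have h3 : (ε:ℂ) * (x / ε) = x := by field_simp
    rwa [h3] at h2
  · intro x hx
    rw [hlm, mem_closedBall, dist_eq_norm] at hx
    have hx' : ‖x / ε - α‖ ≤ 1 / (2 * W) := by
      have h1 : x / ε - α = (x - ε * α) / ε := by field_simp
      rw [h1, norm_div, hnε, div_le_iff₀ hε]
      exact hx
    have h2 := (hhalf _ hx').2
    have h3 : (ε:ℂ) * (x / ε) = x := by field_simp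
    rw [hY, ← StC_Pn' Z z hεc, h3] at h2
    exact h2
  · rw [hlm, StC_Pn Z z hεc, norm_mul, hnε, ← hY]
    have h1 : ε * ‖Y.c α 0 * Y.s (-α) 0 + Y.c (-α) 0 * Y.s α 0‖ ≤ ε * (ε * W₃) :=
      mul_le_mul_of_nonneg_left hN hε.le
    have h2 : ε * W₃ < 1 / (2 * W) / 2 := by
      have h3 : 1 / (2 * W) / 2 = 1 / (4 * W) := by
        field_simp
        norm_num
      rw [h3, lt_div_iff₀ (by positivity)]
      have h4 : ε * W₃ * (4 * W) ≤ δ * W₃ * (4 * W) := by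
        exact mul_le_mul_of_nonneg_right (mul_le_mul_of_nonneg_right hεδ hW₃0.le)
          (by positivity)
      linarith
    calc _ ≤ ε * (ε * W₃) := h1
      _ < ε * (1 / (2 * W) / 2) := mul_lt_mul_of_pos_left h2 hε
      _ = _ := by ring
  · intro α' hα' h0
    have hroot : Y.c α' 0 * Y.s (-α) 0 + Y.c (-α) 0 * Y.s α' 0 = 0 := by
      rw [StC_Pn Z z hεc, ← hY] at h0
      exact (mul_eq_zero.1 h0).resolve_left hεc
    -- mean value inequality on balls about `α`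
    have hmv : ∀ s κ : ℝ, ‖α' - α‖ ≤ s → (∀ x : ℂ, ‖x - α‖ ≤ s → x ∈ ball (0:ℂ) (R + 2) ∧
        ‖Y.cd x 0 * Y.s (-α) 0 + Y.c (-α) 0 * Y.sd x 0 - 1‖ ≤ κ) →
        ‖α' - α + (Y.c α 0 * Y.s (-α) 0 + Y.c (-α) 0 * Y.s α 0)‖ ≤ κ * ‖α' - α‖ := by
      intro s κ hs hκ
      have h1 : ∀ x ∈ closedBall α s, HasDerivWithinAt
          (fun x => Y.c x 0 * Y.s (-α) 0 + Y.c (-α) 0 * Y.s x 0 - x)
          (Y.cd x 0 * Y.s (-α) 0 + Y.c (-α) 0 * Y.sd x 0 - 1) (closedBall α s) x := by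
        intro x hx
        rw [mem_closedBall, dist_eq_norm] at hx
        exact ((hderiv x (hκ x hx).1).sub (hasDerivAt_id x)).hasDerivWithinAt
      have h2 := Convex.norm_image_sub_le_of_norm_hasDerivWithin_le (𝕜 := ℂ) h1
        (C := κ) (fun x hx => by
          rw [mem_closedBall, dist_eq_norm] at hx
          exact (hκ x hx).2) (convex_closedBall α s)
        (mem_closedBall_self ((norm_nonneg _).trans hs))
        (show α' ∈ closedBall α s by rwa [mem_closedBall, dist_eq_norm])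
      have h3 : Y.c α' 0 * Y.s (-α) 0 + Y.c (-α) 0 * Y.s α' 0 - α' -
          (Y.c α 0 * Y.s (-α) 0 + Y.c (-α) 0 * Y.s α 0 - α) =
          -(α' - α + (Y.c α 0 * Y.s (-α) 0 + Y.c (-α) 0 * Y.s α 0)) := by
        rw [hroot]
        ring
      rw [h3, norm_neg] at h2
      exact h2
    obtain ⟨N₀, hN₀⟩ : ∃ N₀ : ℂ, N₀ = Y.c α 0 * Y.s (-α) 0 + Y.c (-α) 0 * Y.s α 0 := ⟨_, rfl⟩
    rw [← hN₀] at hmv hN hval
    have s1 : ‖α' - α‖ ≤ 2 * (ε * W₃) := by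
      have h1 := hmv (1 / (2 * W)) (1 / 2) hα' hhalf
      have h2 : ‖α' - α‖ ≤ ‖α' - α + N₀‖ + ‖N₀‖ := by
        have h3 := norm_sub_le (α' - α + N₀) N₀
        rwa [add_sub_cancel_right] at h3
      linarith
    have hs : W * (2 * (ε * W₃)) ≤ 1 := by
      have h4 : ε * (W₃ * W) ≤ δ * (W₃ * W) :=
        mul_le_mul_of_nonneg_right hεδ (by positivity)
      have h5 : 0 ≤ δ * (W₃ * W) := by positivity
      linarith only [h4, h5, b4]
    have hsρ : 2 * (ε * W₃) ≤ 1 := by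
      have h5 : 0 ≤ 2 * (ε * W₃) := by positivity
      exact (le_mul_of_one_le_left h5 hW1).trans hs
    have s2 := hmv (2 * (ε * W₃)) (C₂ * μ + (W * (2 * (ε * W₃))) ^ 2) s1 (fun x hx => by
      have hxb : x ∈ ball (0:ℂ) (R + 2) := by
        rw [mem_ball_zero_iff]
        have h2 : x = α + (x - α) := by ring
        have h3 := norm_add_le α (x - α)
        rw [← h2] at h3
        linarith
      exact ⟨hxb, hD1 _ x hs hxb hx⟩)
    have s3 : ‖α' - α + N₀‖ ≤ ε * (2 * W₃ * C₂ * C₁ + 8 * W ^ 2 * W₃ ^ 3) * δ := by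
      refine s2.trans ?_
      have h1 : 0 ≤ C₂ * μ + (W * (2 * (ε * W₃))) ^ 2 := by positivity
      refine (mul_le_mul_of_nonneg_left s1 h1).trans ?_
      have h2 : (W * (2 * (ε * W₃))) ^ 2 ≤ 4 * W ^ 2 * W₃ ^ 2 * δ := by
        have h3 : (W * (2 * (ε * W₃))) ^ 2 = 4 * W ^ 2 * W₃ ^ 2 * (ε * ε) := by ring
        rw [h3]
        refine mul_le_mul_of_nonneg_left ?_ (by positivity)
        exact (mul_le_mul hεδ hεle hε.le hδ0.le).trans (le_of_eq (mul_one δ))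
      have h4 : (C₂ * μ + (W * (2 * (ε * W₃))) ^ 2) * (2 * (ε * W₃)) ≤
          (C₂ * μ + 4 * W ^ 2 * W₃ ^ 2 * δ) * (2 * (ε * W₃)) :=
        mul_le_mul_of_nonneg_right (by linarith) (by positivity)
      refine h4.trans (le_of_eq ?_)
      rw [hμ]
      ring
    have s4 : α' - α - ε * bz z α = (α' - α + N₀) - (N₀ + ε * bz z α) := by ring
    rw [s4]
    refine (norm_sub_le _ _).trans ((add_le_add s3 hval).trans ?_)
    have s5 : ε * (2 * W₃ * C₂ * C₁ + 8 * W ^ 2 * W₃ ^ 3) * δ + C * (ε * μ) =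
        ε * (δ * (2 * W₃ * C₂ * C₁ + 8 * W ^ 2 * W₃ ^ 3 + C * C₁)) := by
      rw [hμ]
      ring
    rw [s5]
    refine mul_le_mul_of_nonneg_left (le_trans ?_ hδη) hε.le
    refine mul_le_mul_of_nonneg_left ?_ hδ0.le
    rw [hT]
    linarith

end Pool.Agent.MP_ae5b4e_an_NB5
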