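import Pool.Agent.Lib.MP_ae5b4e_an_NB5.CsD
import Pool.Agent.Lib.MP_ae5b4e_an_NB5.StC
import Pool.Agent.Lib.MP_ae5b4e_an_NB5.ExtN

/-!
# MP_ae5b4e_an, project NB_5(A): horizontal extension
-/

noncomputable section

namespace Pool.Agent.MP_ae5b4e_an_NB5

open Complex Set Filter Topology Metric
open Pool.Agent.MP_ae5b4e_an_NBT (St)
open Pool.Agent.MP_ae5b4e_an_NB2 (Sys)
open scoped ComplexConjugate

/-- the region of the horizontal extension -/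
def Sh (δ₂ v₀ σ : ℝ) : Set ℂ := {u | -(δ₂ / 2) < σ * u.re ∧ σ * u.re < 4 ∧ |u.im - v₀| < δ₂ / 2}

private theorem hor_SvO {δ₂ k₀ v₀ : ℝ} : IsOpen (Sv δ₂ k₀ v₀) := by
  unfold Sv
  exact (isOpen_lt (continuous_abs.comp Complex.continuous_re) continuous_const).inter
    ((isOpen_lt continuous_const Complex.continuous_im).inter
      (isOpen_lt Complex.continuous_im continuous_const))

private theorem hor_SvC {δ₂ k₀ v₀ : ℝ} : Convex ℝ (Sv δ₂ k₀ v₀) := by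
  have h1 : Sv δ₂ k₀ v₀ = Complex.reLm ⁻¹' (Ioo (-δ₂) δ₂) ∩ Complex.imLm ⁻¹' (Ioo (-k₀) (v₀ + δ₂)) := by
    ext u
    simp only [Sv, mem_ofPred_eq, mem_inter_iff, mem_preimage, mem_Ioo, abs_lt]
    rfl
  rw [h1]
  exact ((convex_Ioo _ _).linear_preimage _).inter ((convex_Ioo _ _).linear_preimage _)

/-- The node relation continues to the region of `TL`: the set of `(u, γ)` with `γ ∈ ball 1 ν` and
`u, u ± ε γ ∈ Sv` is convex, the node function is analytic there (`TL.bd`: the values lie in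
`ball 0 (2 k)` where `Z.On` holds) and vanishes near the points with `Im u < - k₀ + 1` (there
`(u, γ), (u ± ε γ, γ) ∈ Wz k κ`, `Cs.low`, `‖γ‖ ≤ 3/2`; `TL.eq`, `WL.node`). -/
theorem TL.node {Z : Sys} {q : ℂ → ℂ} {ε k δ κ K v₀ y₀ α₀ δ₂ ν k₀ : ℝ} {z zt : ℂ × ℂ → ℂ}
    (hW : WL Z q ε k δ κ K z) (hC : Cs κ v₀ y₀ α₀ δ₂ ν k₀) (hT : TL κ v₀ y₀ α₀ δ₂ ν k₀ k z zt)
    (hk : k₀ + |v₀| + 4 ≤ k) (hε : ε ≤ 1 / 8) {u : ℂ} (h0 : u ∈ Sv δ₂ k₀ v₀)
    (h1 : u + ε ∈ Sv δ₂ k₀ v₀) (h2 : u - ε ∈ Sv δ₂ k₀ v₀) :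
    Z.node (zt (u, 1)) (zt (u + ε, 1)) (zt (u - ε, 1)) := by
  have hε0 := hW.ε_pos
  have hk1 := hC.k_one
  have hν := hC.ν_le
  have hδ := hC.d_pos
  have hδ' := hC.d_le
  obtain ⟨G, hG⟩ : ∃ G : Set (ℂ × ℂ), G = {p | p.2 ∈ ball (1:ℂ) ν ∧ p.1 ∈ Sv δ₂ k₀ v₀ ∧
    p.1 + (ε:ℂ) * p.2 ∈ Sv δ₂ k₀ v₀ ∧ p.1 - (ε:ℂ) * p.2 ∈ Sv δ₂ k₀ v₀} := ⟨_, rfl⟩
  have hGm : ∀ p : ℂ × ℂ, p ∈ G ↔ p.2 ∈ ball (1:ℂ) ν ∧ p.1 ∈ Sv δ₂ k₀ v₀ ∧
    p.1 + (ε:ℂ) * p.2 ∈ Sv δ₂ k₀ v₀ ∧ p.1 - (ε:ℂ) * p.2 ∈ Sv δ₂ k₀ v₀ := fun p => by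
      rw [hG]; rfl
  have hGo : IsOpen G := by
    rw [hG]
    refine (isOpen_ball.preimage continuous_snd).inter ((hor_SvO.preimage continuous_fst).inter
      ((hor_SvO.preimage (f := fun p : ℂ × ℂ => p.1 + ε * p.2) (by fun_prop)).inter
      (hor_SvO.preimage (f := fun p : ℂ × ℂ => p.1 - ε * p.2) (by fun_prop))))
  have hGc : Convex ℝ G := by
    intro x hx y hy a b ha hb hab
    rw [hGm] at hx hy ⊢
    refine ⟨?_, ?_, ?_, ?_⟩
    · exact (convex_ball (1:ℂ) ν) hx.1 hy.1 ha hb hab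
    · exact hor_SvC hx.2.1 hy.2.1 ha hb hab
    · have h3 := hor_SvC hx.2.2.1 hy.2.2.1 ha hb hab
      convert h3 using 1
      simp only [Prod.fst_add, Prod.smul_fst, Prod.snd_add, Prod.smul_snd, Complex.real_smul]
      ring
    · have h3 := hor_SvC hx.2.2.2 hy.2.2.2 ha hb hab
      convert h3 using 1
      simp only [Prod.fst_add, Prod.smul_fst, Prod.snd_add, Prod.smul_snd, Complex.real_smul]
      ring
  -- the node function
  obtain ⟨F, hF⟩ : ∃ F : ℂ × ℂ → ℂ, F = fun p =>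
    Z.c (zt (p.1 + ε * p.2, p.2)) (zt (p.1, p.2)) * Z.s (zt (p.1 - ε * p.2, p.2)) (zt (p.1, p.2)) +
    Z.c (zt (p.1 - ε * p.2, p.2)) (zt (p.1, p.2)) * Z.s (zt (p.1 + ε * p.2, p.2)) (zt (p.1, p.2)) :=
    ⟨_, rfl⟩
  have hΩ : IsOpen (ball (0:ℂ) (2 * k)) := isOpen_ball
  have hin : ∀ p ∈ Sv δ₂ k₀ v₀ ×ˢ ball (1:ℂ) ν, zt p ∈ ball (0:ℂ) (2 * k) := by
    intro p hp
    rw [mem_ball_zero_iff]
    have h3 := hT.bd p hp
    have h4 : 0 ≤ |v₀| := abs_nonneg _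
    linarith
  have hFan : AnalyticOnNhd ℂ F G := by
    intro p hp
    rw [hGm] at hp
    obtain ⟨p1, p2, p3, p4⟩ := hp
    have hf : AnalyticAt ℂ (fun p : ℂ × ℂ => p.1) p := analyticAt_fst
    have hs : AnalyticAt ℂ (fun p : ℂ × ℂ => p.2) p := analyticAt_snd
    have ha0 : AnalyticAt ℂ (fun p : ℂ × ℂ => zt (p.1, p.2)) p :=
      AnalyticAt.fun_comp (f := fun p : ℂ × ℂ => (p.1, p.2)) (g := zt) (x := p)
        (hT.an _ ⟨p2, p1⟩) (hf.prod hs)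
    have ha1 : AnalyticAt ℂ (fun p : ℂ × ℂ => zt (p.1 + ε * p.2, p.2)) p :=
      AnalyticAt.fun_comp (f := fun p : ℂ × ℂ => (p.1 + ε * p.2, p.2)) (g := zt) (x := p)
        (hT.an _ ⟨p3, p1⟩) ((hf.fun_add (analyticAt_const.fun_mul hs)).prod hs)
    have ha2 : AnalyticAt ℂ (fun p : ℂ × ℂ => zt (p.1 - ε * p.2, p.2)) p :=
      AnalyticAt.fun_comp (f := fun p : ℂ × ℂ => (p.1 - ε * p.2, p.2)) (g := zt) (x := p)
        (hT.an _ ⟨p4, p1⟩) ((hf.fun_sub (analyticAt_const.fun_mul hs)).prod hs)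
    have m0 := hin _ (show (p.1, p.2) ∈ Sv δ₂ k₀ v₀ ×ˢ ball (1:ℂ) ν from ⟨p2, p1⟩)
    have m1 := hin _ (show (p.1 + ε * p.2, p.2) ∈ Sv δ₂ k₀ v₀ ×ˢ ball (1:ℂ) ν from ⟨p3, p1⟩)
    have m2 := hin _ (show (p.1 - ε * p.2, p.2) ∈ Sv δ₂ k₀ v₀ ×ˢ ball (1:ℂ) ν from ⟨p4, p1⟩)
    rw [hF]
    exact ((Sys.an_c hW.on hΩ ha1 ha0 m1 m0).fun_mul (Sys.an_s hW.on hΩ ha2 ha0 m2 m0)).fun_add
      ((Sys.an_c hW.on hΩ ha2 ha0 m2 m0).fun_mul (Sys.an_s hW.on hΩ ha1 ha0 m1 m0))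
  -- points in the zone of the window
  have hzone : ∀ v γ : ℂ, γ ∈ ball (1:ℂ) ν → v ∈ Sv δ₂ k₀ v₀ → v.im < -k₀ + 1 + 3 / 16 →
      (v, γ) ∈ Wz k κ := by
    intro v γ hγ hv hv2
    obtain ⟨h3, h4, h5⟩ := hv
    have h6 : ‖γ‖ ≤ 3 / 2 := by
      have h7 : ‖γ‖ ≤ ‖γ - 1‖ + ‖(1:ℂ)‖ := by
        have := norm_add_le (γ - 1) 1
        rwa [sub_add_cancel] at this
      rw [mem_ball, dist_eq_norm] at hγ
      rw [norm_one] at h7
      linarith
    have h8 : |v₀| ≥ v₀ := le_abs_self _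
    have h9 : |v₀| ≥ -v₀ := neg_le_abs _
    have h10 : 0 ≤ |v₀| := abs_nonneg _
    refine ⟨?_, ?_, ?_⟩
    · show ‖v‖ < k
      have h11 := Complex.norm_le_abs_re_add_abs_im v
      have h12 : |v.im| ≤ k₀ + |v₀| + 1 := by
        rw [abs_le]
        constructor <;> linarith
      linarith
    · show ‖γ‖ < k
      linarith
    · show ‖γ‖ ^ 2 * Real.exp v.im < κ
      have h11 : ‖γ‖ ^ 2 ≤ 9 / 4 := by nlinarith only [h6, norm_nonneg γ]
      have h12 : Real.exp v.im ≤ Real.exp (-(k₀ - 1)) * Real.exp (3 / 16) := by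
        rw [← Real.exp_add]
        exact Real.exp_le_exp.2 (by linarith)
      have h13 : Real.exp (3 / 16 : ℝ) ≤ Real.exp 1 := Real.exp_le_exp.2 (by norm_num)
      have h14 := Real.exp_one_lt_d9
      have h15 : Real.exp (k₀ - 1) * Real.exp (-(k₀ - 1)) = 1 := by
        rw [← Real.exp_add]
        simp
      have h16 : 0 < Real.exp (-(k₀ - 1)) := Real.exp_pos _
      have h17 : 9 * Real.exp (-(k₀ - 1)) ≤ κ := by
        have h18 := mul_le_mul_of_nonneg_right hC.low h16.le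
        have h19 : κ * Real.exp (k₀ - 1) * Real.exp (-(k₀ - 1)) = κ := by
          rw [mul_assoc, h15, mul_one]
        linarith
      have h20 : Real.exp v.im ≤ Real.exp (-(k₀ - 1)) * 3 :=
        h12.trans (mul_le_mul_of_nonneg_left (by linarith) h16.le)
      have h21 : ‖γ‖ ^ 2 * Real.exp v.im ≤ 9 / 4 * (Real.exp (-(k₀ - 1)) * 3) :=
        mul_le_mul h11 h20 (Real.exp_pos _).le (by norm_num)
      linarith only [h21, h16, h17]
  have hzero : ∀ p ∈ G, p.1.im < -k₀ + 1 → F p = 0 := by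
    intro p hp hp2
    rw [hGm] at hp
    obtain ⟨p1, p2, p3, p4⟩ := hp
    have hγ : ‖p.2‖ ≤ 3 / 2 := by
      have h7 : ‖p.2‖ ≤ ‖p.2 - 1‖ + ‖(1:ℂ)‖ := by
        have := norm_add_le (p.2 - 1) 1
        rwa [sub_add_cancel] at this
      rw [mem_ball, dist_eq_norm] at p1
      rw [norm_one] at h7
      linarith
    have hsm : |((ε:ℂ) * p.2).im| ≤ 3 / 16 := by
      refine (Complex.abs_im_le_norm _).trans ?_
      rw [norm_mul, Complex.norm_real, Real.norm_of_nonneg hε0.le]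
      nlinarith [norm_nonneg p.2]
    rw [abs_le] at hsm
    have q0 := hzone p.1 p.2 p1 p2 (by linarith)
    have q1 := hzone (p.1 + ε * p.2) p.2 p1 p3 (by rw [add_im]; linarith [hsm.2])
    have q2 := hzone (p.1 - ε * p.2) p.2 p1 p4 (by rw [sub_im]; linarith [hsm.1])
    have h3 := hW.node p.1 p.2 q0 q1 q2
    rw [← hT.eq (p.1, p.2) ⟨p2, p1⟩ q0, ← hT.eq (p.1 + ε * p.2, p.2) ⟨p3, p1⟩ q1,
      ← hT.eq (p.1 - ε * p.2, p.2) ⟨p4, p1⟩ q2] at h3
    rw [hF]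
    exact h3
  -- the base point
  have hp₀ : (((u.re : ℝ) : ℂ) + ((-k₀ + 1 / 2 : ℝ) : ℂ) * I, (1:ℂ)) ∈ G := by
    rw [hGm]
    have h3 : (((u.re : ℝ) : ℂ) + ((-k₀ + 1 / 2 : ℝ) : ℂ) * I).re = u.re := by simp
    have h4 : (((u.re : ℝ) : ℂ) + ((-k₀ + 1 / 2 : ℝ) : ℂ) * I).im = -k₀ + 1 / 2 := by simp
    have h5 : -k₀ + 1 / 2 < v₀ + δ₂ := by linarith [hC.k_ge]
    obtain ⟨a1, a2, a3⟩ := h0
    obtain ⟨b1, b2, b3⟩ := h1
    obtain ⟨c1, c2, c3⟩ := h2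
    rw [add_re, ofReal_re] at b1
    rw [sub_re, ofReal_re] at c1
    refine ⟨mem_ball_self hC.ν_pos, ⟨?_, ?_, ?_⟩, ⟨?_, ?_, ?_⟩, ⟨?_, ?_, ?_⟩⟩
    · rw [h3]; exact a1
    · rw [h4]; linarith
    · rw [h4]; exact h5
    · rw [add_re, h3, mul_one, ofReal_re]; exact b1
    · rw [add_im, h4, mul_one, ofReal_im]; linarith
    · rw [add_im, h4, mul_one, ofReal_im]; linarith
    · rw [sub_re, h3, mul_one, ofReal_re]; exact c1
    · rw [sub_im, h4, mul_one, ofReal_im]; linarith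
    · rw [sub_im, h4, mul_one, ofReal_im]; linarith
  have hev : F =ᶠ[𝓝 (((u.re : ℝ) : ℂ) + ((-k₀ + 1 / 2 : ℝ) : ℂ) * I, (1:ℂ))] 0 := by
    have h3 : IsOpen {p : ℂ × ℂ | p.1.im < -k₀ + 1} :=
      isOpen_lt (Complex.continuous_im.comp continuous_fst) continuous_const
    filter_upwards [hGo.mem_nhds hp₀, h3.mem_nhds (by
      show (((u.re : ℝ) : ℂ) + ((-k₀ + 1 / 2 : ℝ) : ℂ) * I).im < -k₀ + 1
      simp
      norm_num)] with p hp hp2
    exact hzero p hp hp2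
  have hF0 := hFan.eqOn_zero_of_preconnected_of_eventuallyEq_zero hGc.isPreconnected hp₀ hev
  have hu : (u, (1:ℂ)) ∈ G := by
    rw [hGm]
    refine ⟨mem_ball_self hC.ν_pos, h0, ?_, ?_⟩
    · simpa using h1
    · simpa using h2
  have h3 := hF0 hu
  rw [hF] at h3
  simp only [mul_one, Pi.zero_apply] at h3
  exact h3

private theorem hor_cos (y : ℂ) : ‖Complex.cos y‖ ≤ Real.exp |y.im| := by
  have h1 : Complex.cos y = (exp (y * I) + exp (-y * I)) / 2 := rfl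
  have h2 : ‖exp (y * I)‖ ≤ Real.exp |y.im| := by
    rw [Complex.norm_exp]
    apply Real.exp_le_exp.2
    simp only [mul_re, I_re, mul_zero, I_im, mul_one, zero_sub]
    exact neg_le_abs _
  have h3 : ‖exp (-y * I)‖ ≤ Real.exp |y.im| := by
    rw [Complex.norm_exp]
    apply Real.exp_le_exp.2
    simp only [mul_re, I_re, mul_zero, I_im, mul_one, zero_sub, neg_im, neg_neg]
    exact le_abs_self _
  rw [h1, norm_div, Complex.norm_two, div_le_iff₀ (by norm_num)]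
  linarith [norm_add_le (exp (y * I)) (exp (-y * I))]

private theorem hor_Sn (x : ℂ) : ‖Sn x‖ ≤ Real.exp |x.im| := by
  by_cases hx : x = 0
  · rw [hx]
    unfold Sn
    rw [dslope_same, Complex.deriv_sin, Complex.cos_zero]
    simp
  · have h1 : ‖Complex.sin x - Complex.sin 0‖ ≤ Real.exp |x.im| * ‖x - 0‖ := by
      refine Convex.norm_image_sub_le_of_norm_hasDerivWithin_le (𝕜 := ℂ) (f := Complex.sin)
        (f' := Complex.cos) (s := {y : ℂ | |y.im| ≤ |x.im|})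
        (fun y _ => (Complex.hasDerivAt_sin y).hasDerivWithinAt)
        (fun y hy => (hor_cos y).trans (Real.exp_le_exp.2 hy)) ?_ ?_ ?_
      · have h2 : {y : ℂ | |y.im| ≤ |x.im|} = Complex.imLm ⁻¹' (Icc (-|x.im|) |x.im|) := by
          ext y
          simp only [mem_ofPred_eq, mem_preimage, mem_Icc, abs_le]
          rfl
        rw [h2]
        exact (convex_Icc _ _).linear_preimage _
      · show |(0:ℂ).im| ≤ |x.im|
        simp
      · show |x.im| ≤ |x.im|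
        exact le_rfl
    have h2 : x * Sn x = Complex.sin x := by
      have := sub_smul_dslope Complex.sin 0 x
      rw [sub_zero, Complex.sin_zero, sub_zero, smul_eq_mul] at this
      exact this
    rw [Complex.sin_zero, sub_zero, sub_zero, ← h2, norm_mul, mul_comm] at h1
    exact le_of_mul_le_mul_right h1 (norm_pos_iff.2 hx)

private theorem hor_bz {y₀ α₀ σ : ℝ} (hσ : σ = 1 ∨ σ = -1) (h0 : 0 < α₀)
    (h2 : Real.exp (y₀ / 2) * α₀ ≤ Real.pi) {z a : ℂ} (hz : ‖z - I * y₀‖ ≤ 1 / 100)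
    (ha : ‖a - σ * α₀‖ ≤ α₀ / 10) : ‖bz z a‖ ≤ 3 * α₀ ^ 2 := by
  obtain ⟨E, hE⟩ : ∃ E : ℝ, E = Real.exp (y₀ / 2) := ⟨_, rfl⟩
  have hE0 : 0 < E := by rw [hE]; exact Real.exp_pos _
  obtain ⟨x, hx⟩ : ∃ x : ℂ, x = -(I * (z - I * y₀) / 2) := ⟨_, rfl⟩
  have hxn : ‖x‖ ≤ 1 / 200 := by
    rw [hx, norm_neg, norm_div, norm_mul, Complex.norm_I, one_mul, Complex.norm_two]
    linarith
  have hω : exp (-(I * z / 2)) = (E : ℂ) * exp x := by
    rw [hE, hx, Complex.ofReal_exp, ← Complex.exp_add]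
    congr 1
    push_cast
    linear_combination (-(y₀:ℂ) / 2) * Complex.I_sq
  have hσn : ‖(σ : ℂ) * α₀‖ = α₀ := by
    rw [norm_mul, Complex.norm_real, Complex.norm_real, Real.norm_of_nonneg h0.le]
    rcases hσ with h | h <;> rw [h] <;> norm_num
  have han : ‖a‖ ≤ 11 / 10 * α₀ := by
    have h3 : ‖a‖ ≤ ‖a - σ * α₀‖ + ‖(σ : ℂ) * α₀‖ := by
      have := norm_add_le (a - σ * α₀) ((σ : ℂ) * α₀)
      rwa [sub_add_cancel] at this
    rw [hσn] at h3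
    linarith
  have hex : ‖exp x - 1‖ ≤ 1 / 100 := by
    have h3 := Complex.norm_exp_sub_one_le (x := x) (by linarith)
    linarith
  have h3 : ‖exp (-(I * z / 2)) * a - ((E * (σ * α₀) : ℝ) : ℂ)‖ ≤ 1 / 2 := by
    have h4 : exp (-(I * z / 2)) * a - ((E * (σ * α₀) : ℝ) : ℂ) =
        (E : ℂ) * ((exp x - 1) * a + (a - σ * α₀)) := by
      rw [hω]
      push_cast
      ring
    rw [h4, norm_mul, Complex.norm_real, Real.norm_of_nonneg hE0.le]
    have h5 : ‖(exp x - 1) * a + (a - σ * α₀)‖ ≤ 1 / 100 * (11 / 10 * α₀) + α₀ / 10 := by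
      refine (norm_add_le _ _).trans (add_le_add ?_ ha)
      rw [norm_mul]
      exact mul_le_mul hex han (norm_nonneg _) (by norm_num)
    have h6 : E * ‖(exp x - 1) * a + (a - σ * α₀)‖ ≤ E * (12 / 100 * α₀) :=
      mul_le_mul_of_nonneg_left (by linarith) hE0.le
    rw [← hE] at h2
    have := Real.pi_le_four
    linarith only [h6, h2, this]
  have h4 : |(exp (-(I * z / 2)) * a).im| ≤ 1 / 2 := by
    have h5 := (Complex.abs_im_le_norm _).trans h3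
    rwa [sub_im, ofReal_im, sub_zero] at h5
  have h5 := hor_Sn (exp (-(I * z / 2)) * a)
  have h6 : ‖Sn (exp (-(I * z / 2)) * a)‖ ^ 2 ≤ 3 := by
    have h7 : ‖Sn (exp (-(I * z / 2)) * a)‖ ≤ Real.exp (1 / 2) :=
      h5.trans (Real.exp_le_exp.2 h4)
    have h8 : Real.exp (1 / 2 : ℝ) ^ 2 = Real.exp 1 := by
      rw [← Real.exp_nat_mul]
      norm_num
    have h9 := Real.exp_one_lt_d9
    have h10 : ‖Sn (exp (-(I * z / 2)) * a)‖ ^ 2 ≤ Real.exp (1 / 2 : ℝ) ^ 2 :=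
      pow_le_pow_left₀ (norm_nonneg _) h7 2
    linarith
  unfold bz
  rw [norm_mul, norm_mul, norm_div, Complex.norm_I, Complex.norm_two, norm_pow]
  have h7 : ‖1 - Sn (exp (-(I * z / 2)) * a) ^ 2‖ ≤ 4 := by
    refine (norm_sub_le _ _).trans ?_
    rw [norm_one, norm_pow]
    linarith
  have h8 : ‖a‖ ^ 2 ≤ (11 / 10 * α₀) ^ 2 := pow_le_pow_left₀ (norm_nonneg _) han 2
  calc 1 / 2 * ‖a‖ ^ 2 * ‖1 - Sn (exp (-(I * z / 2)) * a) ^ 2‖
      ≤ 1 / 2 * (11 / 10 * α₀) ^ 2 * 4 := by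
        refine mul_le_mul ?_ h7 (norm_nonneg _) (by positivity)
        exact mul_le_mul_of_nonneg_left h8 (by norm_num)
    _ ≤ 3 * α₀ ^ 2 := by nlinarith only [sq_nonneg α₀]

private theorem hor_seq {Z : Sys} {ε y₀ α₀ σ R ρ₀ : ℝ}
    (hσ : σ = 1 ∨ σ = -1) (hα : 0 < α₀) (hα1 : α₀ ≤ 1 / 1000)
    (hey : Real.exp (y₀ / 2) * α₀ ≤ Real.pi) (hε : 0 < ε) (hR : R = |y₀| + 2)
    (hst : ∀ z α : ℂ, ‖z‖ ≤ R → ‖α‖ ≤ R → ∀ α' : ℂ, ‖α' - α‖ ≤ ρ₀ →
      Pn Z z (z - ε * α) (ε * α') = 0 → ‖α' - α - ε * bz z α‖ ≤ ε * (α₀ ^ 2 / 2))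
    {n : ℕ} (hn : n * ε ≤ 4) {ζ : ℕ → ℂ}
    (hP : ∀ m, m + 1 ≤ n → Pn Z (ζ (m + 1)) (ζ m) (ζ (m + 2) - ζ (m + 1)) = 0 ∧
      ‖ζ (m + 2) - 2 * ζ (m + 1) + ζ m‖ ≤ ρ₀ * ε)
    (h0 : ‖ζ 1 - I * y₀‖ ≤ α₀ / 50) (h1 : ‖ζ 1 - ζ 0 - ε * (σ * α₀)‖ ≤ ε * (α₀ / 50)) :
    ∀ m : ℕ, m ≤ n → ‖ζ (m + 1) - ζ m - ε * (σ * α₀)‖ ≤ ε * (α₀ / 50 + 4 * α₀ ^ 2 * (m * ε)) ∧
      ‖ζ (m + 1) - I * y₀ - m * ε * (σ * α₀)‖ ≤ α₀ / 50 + m * ε * (α₀ / 25) := by
  have hεC : (ε : ℂ) ≠ 0 := ofReal_ne_zero.2 hε.ne'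
  have hσn : ‖(σ : ℂ) * α₀‖ = α₀ := by
    rw [norm_mul, Complex.norm_real, Complex.norm_real, Real.norm_of_nonneg hα.le]
    rcases hσ with h | h <;> rw [h] <;> norm_num
  intro m
  induction m with
  | zero =>
    intro _
    refine ⟨?_, ?_⟩
    · simpa using h1
    · simpa using h0
  | succ m ih =>
    intro hm
    obtain ⟨i1, i2⟩ := ih (by omega)
    obtain ⟨p1, p2⟩ := hP m hm
    have hmn : ((m:ℝ) + 1) * ε ≤ 4 := by
      have : ((m:ℝ) + 1) ≤ n := by exact_mod_cast hm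
      exact (mul_le_mul_of_nonneg_right this hε.le).trans hn
    have hm0 : 0 ≤ (m:ℝ) * ε := by positivity
    have hm4 : (m:ℝ) * ε ≤ 4 := by linarith only [hmn, hε]
    obtain ⟨z, hz⟩ : ∃ z : ℂ, z = ζ (m + 1) := ⟨_, rfl⟩
    obtain ⟨a, ha⟩ : ∃ a : ℂ, a = (ζ (m + 1) - ζ m) / ε := ⟨_, rfl⟩
    obtain ⟨a', ha'⟩ : ∃ a' : ℂ, a' = (ζ (m + 2) - ζ (m + 1)) / ε := ⟨_, rfl⟩
    have e1 : (ε:ℂ) * a = ζ (m + 1) - ζ m := by rw [ha]; field_simp
    have e2 : (ε:ℂ) * a' = ζ (m + 2) - ζ (m + 1) := by rw [ha']; field_simp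
    have hscale : ∀ x : ℂ, ‖(ε:ℂ) * x‖ = ε * ‖x‖ := by
      intro x
      rw [norm_mul, Complex.norm_real, Real.norm_of_nonneg hε.le]
    -- velocity
    have v1 : ‖a - σ * α₀‖ ≤ α₀ / 50 + 4 * α₀ ^ 2 * (m * ε) := by
      have h3 : (ε:ℂ) * (a - σ * α₀) = ζ (m + 1) - ζ m - ε * (σ * α₀) := by
        rw [mul_sub, e1]
      rw [← h3, hscale] at i1
      exact le_of_mul_le_mul_left i1 hε
    have v2 : ‖a - σ * α₀‖ ≤ α₀ / 25 := by
      have h3 : 4 * α₀ ^ 2 * (m * ε) ≤ 4 * α₀ ^ 2 * 4 :=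
        mul_le_mul_of_nonneg_left hm4 (by positivity)
      nlinarith only [v1, h3, hα, hα1]
    have z1 : ‖z - I * y₀‖ ≤ 5 * α₀ := by
      have h3 : z - I * y₀ = (ζ (m + 1) - I * y₀ - m * ε * (σ * α₀)) + m * ε * (σ * α₀) := by
        rw [hz]; ring
      have h4 : ‖(m:ℂ) * ε * (σ * α₀)‖ = m * ε * α₀ := by
        rw [norm_mul, hσn, norm_mul, Complex.norm_real, Real.norm_of_nonneg hε.le,
          Complex.norm_natCast]
      rw [h3]
      refine (norm_add_le _ _).trans ?_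
      rw [h4]
      nlinarith only [i2, hm4, hα, hm0]
    have z2 : ‖z‖ ≤ R := by
      have h3 : ‖z‖ ≤ ‖z - I * y₀‖ + ‖I * (y₀:ℂ)‖ := by
        have := norm_add_le (z - I * y₀) (I * (y₀:ℂ))
        rwa [sub_add_cancel] at this
      have h4 : ‖I * (y₀:ℂ)‖ = |y₀| := by
        rw [norm_mul, Complex.norm_I, one_mul, Complex.norm_real, Real.norm_eq_abs]
      rw [hR]
      linarith
    have a1 : ‖a‖ ≤ R := by
      have h3 : ‖a‖ ≤ ‖a - σ * α₀‖ + ‖(σ : ℂ) * α₀‖ := by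
        have := norm_add_le (a - σ * α₀) ((σ : ℂ) * α₀)
        rwa [sub_add_cancel] at this
      rw [hR]
      have := abs_nonneg y₀
      linarith
    have d1 : ‖a' - a‖ ≤ ρ₀ := by
      have h3 : (ε:ℂ) * (a' - a) = ζ (m + 2) - 2 * ζ (m + 1) + ζ m := by
        rw [mul_sub, e1, e2]; ring
      rw [← h3, hscale, mul_comm ρ₀] at p2
      exact le_of_mul_le_mul_left p2 hε
    have d2 : Pn Z z (z - ε * a) (ε * a') = 0 := by
      rw [e1, e2, hz]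
      have h3 : ζ (m + 1) - (ζ (m + 1) - ζ m) = ζ m := by ring
      rw [h3]
      exact p1
    have d3 := hst z a z2 a1 a' d1 d2
    have d4 := hor_bz hσ hα hey (z := z) (a := a) (by linarith) (by linarith)
    have d5 : ‖a' - a‖ ≤ ε * (4 * α₀ ^ 2) := by
      have h3 : a' - a = (a' - a - ε * bz z a) + ε * bz z a := by ring
      rw [h3]
      refine (norm_add_le _ _).trans ?_
      rw [hscale]
      have h4 : ε * ‖bz z a‖ ≤ ε * (3 * α₀ ^ 2) := mul_le_mul_of_nonneg_left d4 hε.le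
      have h5 : 0 ≤ ε * α₀ ^ 2 := by positivity
      linarith only [d3, h4, h5]
    have v3 : ‖a' - σ * α₀‖ ≤ α₀ / 50 + 4 * α₀ ^ 2 * (((m + 1 : ℕ) : ℝ) * ε) := by
      have h3 : a' - σ * α₀ = (a' - a) + (a - σ * α₀) := by ring
      rw [h3]
      refine (norm_add_le _ _).trans ?_
      push_cast
      linarith only [d5, v1]
    have v4 : ‖a' - σ * α₀‖ ≤ α₀ / 25 := by
      have h3 : 4 * α₀ ^ 2 * (((m + 1 : ℕ) : ℝ) * ε) ≤ 4 * α₀ ^ 2 * 4 := by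
        refine mul_le_mul_of_nonneg_left ?_ (by positivity)
        push_cast
        exact hmn
      nlinarith only [v3, h3, hα, hα1]
    refine ⟨?_, ?_⟩
    · have h3 : ζ (m + 1 + 1) - ζ (m + 1) - ε * (σ * α₀) = (ε:ℂ) * (a' - σ * α₀) := by
        rw [mul_sub, e2]
      rw [h3, hscale]
      exact mul_le_mul_of_nonneg_left v3 hε.le
    · have h3 : ζ (m + 1 + 1) - I * y₀ - ((m + 1 : ℕ) : ℂ) * ε * (σ * α₀) =
          (ζ (m + 1) - I * y₀ - m * ε * (σ * α₀)) + (ε:ℂ) * (a' - σ * α₀) := by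
        rw [mul_sub (ε:ℂ) a', e2]
        push_cast
        ring
      rw [h3]
      refine (norm_add_le _ _).trans ?_
      rw [hscale]
      have h4 := mul_le_mul_of_nonneg_left v4 hε.le
      push_cast
      linarith

/-- the estimates at the start -/
private theorem hor_base {f : ℂ → ℂ} {α₀ δ₂ v₀ : ℝ} (hα : 0 < α₀) (hδ : 0 < δ₂)
    (hf : ∀ u : ℂ, |u.re| < δ₂ → |u.im - v₀| < δ₂ → AnalyticAt ℂ f u)
    (hd : ∀ u : ℂ, |u.re| < δ₂ → |u.im - v₀| < δ₂ → ‖deriv f u - α₀‖ ≤ α₀ / 50) {w : ℂ}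
    {V : Set ℂ} (hV : V = {u : ℂ | |u.re| < δ₂ / 2 ∧ |u.im - v₀| < δ₂ / 2}) :
    (∀ u : ℂ, u ∈ V → u - w ∈ V → ‖f u - f (u - w) - w * α₀‖ ≤ ‖w‖ * (α₀ / 50)) ∧
    (∀ u : ℂ, u ∈ V → u - w ∈ V → u - 2 * w ∈ V →
      ‖f u - 2 * f (u - w) + f (u - 2 * w)‖ ≤ α₀ / 50 * (4 / δ₂) * ‖w‖ ^ 2) := by
  have hVc : Convex ℝ V := by
    have h1 : V = Complex.reLm ⁻¹' (Ioo (-(δ₂ / 2)) (δ₂ / 2)) ∩
        Complex.imLm ⁻¹' (Ioo (v₀ - δ₂ / 2) (v₀ + δ₂ / 2)) := by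
      rw [hV]
      ext u
      simp only [mem_ofPred_eq, mem_inter_iff, mem_preimage, mem_Ioo, abs_lt]
      constructor
      · rintro ⟨⟨a1, a2⟩, a3, a4⟩
        exact ⟨⟨a1, a2⟩, show v₀ - δ₂ / 2 < u.im by linarith, show u.im < v₀ + δ₂ / 2 by linarith⟩
      · rintro ⟨⟨a1, a2⟩, a3, a4⟩
        have a3' : v₀ - δ₂ / 2 < u.im := a3
        have a4' : u.im < v₀ + δ₂ / 2 := a4
        exact ⟨⟨a1, a2⟩, by linarith, by linarith⟩
    rw [h1]
    exact ((convex_Ioo _ _).linear_preimage _).inter ((convex_Ioo _ _).linear_preimage _)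
  have hVm : ∀ u : ℂ, u ∈ V → |u.re| < δ₂ / 2 ∧ |u.im - v₀| < δ₂ / 2 := fun u hu => by
    rw [hV] at hu; exact hu
  -- first differences
  have hlip : ∀ x ∈ V, ∀ y ∈ V, ‖(f x - α₀ * x) - (f y - α₀ * y)‖ ≤ α₀ / 50 * ‖x - y‖ := by
    intro x hx y hy
    refine hVc.norm_image_sub_le_of_norm_hasDerivWithin_le (𝕜 := ℂ) (f := fun u => f u - α₀ * u)
      (f' := fun u => deriv f u - α₀) ?_ ?_ hy hx
    · intro u hu
      obtain ⟨h1, h2⟩ := hVm u hu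
      have h3 := (hf u (by linarith) (by linarith)).differentiableAt.hasDerivAt
      have h4 : HasDerivAt (fun u : ℂ => (α₀:ℂ) * u) α₀ u := by
        simpa using (hasDerivAt_id u).const_mul (α₀:ℂ)
      exact (h3.sub h4).hasDerivWithinAt
    · intro u hu
      obtain ⟨h1, h2⟩ := hVm u hu
      exact hd u (by linarith) (by linarith)
  -- the derivative is Lipschitz
  have hcau : ∀ u ∈ V, ‖deriv (deriv f) u‖ ≤ α₀ / 50 * (4 / δ₂) := by
    intro u hu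
    obtain ⟨h1, h2⟩ := hVm u hu
    have hcl : ∀ y ∈ closedBall u (δ₂ / 4), |y.re| < δ₂ ∧ |y.im - v₀| < δ₂ := by
      intro y hy
      rw [mem_closedBall, dist_eq_norm] at hy
      have h3 := (Complex.abs_re_le_norm (y - u)).trans hy
      have h4 := (Complex.abs_im_le_norm (y - u)).trans hy
      rw [sub_re, abs_le] at h3
      rw [sub_im, abs_le] at h4
      rw [abs_lt] at h1 h2 ⊢
      rw [abs_lt]
      refine ⟨⟨?_, ?_⟩, ?_, ?_⟩ <;> linarith [h3.1, h3.2, h4.1, h4.2, h1.1, h1.2, h2.1, h2.2]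
    have hdc : DiffContOnCl ℂ (fun y => deriv f y - α₀) (ball u (δ₂ / 4)) := by
      refine DifferentiableOn.diffContOnCl ?_
      rw [closure_ball u (by positivity)]
      intro y hy
      obtain ⟨h3, h4⟩ := hcl y hy
      exact ((hf y h3 h4).deriv.differentiableAt.sub_const _).differentiableWithinAt
    have h3 := Complex.norm_deriv_le_of_forall_mem_sphere_norm_le (c := u) (R := δ₂ / 4)
      (C := α₀ / 50) (f := fun y => deriv f y - α₀) (by positivity) hdc (fun y hy => by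
        obtain ⟨h3, h4⟩ := hcl y (sphere_subset_closedBall hy)
        exact hd y h3 h4)
    rw [deriv_sub_const] at h3
    have h4 : α₀ / 50 / (δ₂ / 4) = α₀ / 50 * (4 / δ₂) := by
      field_simp
    rw [← h4]
    exact h3
  have hlip2 : ∀ x ∈ V, ∀ y ∈ V, ‖deriv f x - deriv f y‖ ≤ α₀ / 50 * (4 / δ₂) * ‖x - y‖ := by
    intro x hx y hy
    refine hVc.norm_image_sub_le_of_norm_hasDerivWithin_le (𝕜 := ℂ) (f := deriv f)
      (f' := deriv (deriv f)) ?_ hcau hy hx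
    intro u hu
    obtain ⟨h1, h2⟩ := hVm u hu
    exact (hf u (by linarith) (by linarith)).deriv.differentiableAt.hasDerivAt.hasDerivWithinAt
  refine ⟨?_, ?_⟩
  · intro u h1 h2
    have h3 := hlip u h1 (u - w) h2
    have h4 : f u - α₀ * u - (f (u - w) - α₀ * (u - w)) = f u - f (u - w) - w * α₀ := by ring
    have h5 : u - (u - w) = w := by ring
    rw [h4, h5] at h3
    rw [mul_comm ‖w‖]
    exact h3
  · intro u h1 h2 h3
    -- the convex set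
    obtain ⟨T, hT⟩ : ∃ T : Set ℂ, T = {t | t ∈ V ∧ t - w ∈ V} := ⟨_, rfl⟩
    have hTc : Convex ℝ T := by
      rw [hT]
      intro x hx y hy a b ha hb hab
      refine ⟨hVc hx.1 hy.1 ha hb hab, ?_⟩
      have h4 := hVc hx.2 hy.2 ha hb hab
      convert h4 using 1
      simp only [Complex.real_smul]
      have h5 : (a:ℂ) + b = 1 := by exact_mod_cast hab
      linear_combination (w) * h5
    have hu : u ∈ T := by rw [hT]; exact ⟨h1, h2⟩
    have hu' : u - w ∈ T := by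
      rw [hT]
      refine ⟨h2, ?_⟩
      have h4 : u - w - w = u - 2 * w := by ring
      rw [h4]
      exact h3
    have h4 : ‖(f u - f (u - w)) - (f (u - w) - f (u - w - w))‖ ≤
        (α₀ / 50 * (4 / δ₂) * ‖w‖) * ‖u - (u - w)‖ := by
      refine hTc.norm_image_sub_le_of_norm_hasDerivWithin_le (𝕜 := ℂ)
        (f := fun t => f t - f (t - w)) (f' := fun t => deriv f t - deriv f (t - w)) ?_ ?_ hu' hu
      · intro t ht
        rw [hT] at ht
        obtain ⟨h5, h6⟩ := hVm t ht.1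
        obtain ⟨h7, h8⟩ := hVm (t - w) ht.2
        have h9 := (hf t (by linarith) (by linarith)).differentiableAt.hasDerivAt
        have h10 := (hf (t - w) (by linarith) (by linarith)).differentiableAt.hasDerivAt
        have h11 : HasDerivAt (fun t => f (t - w)) (deriv f (t - w)) t :=
          h10.comp_sub_const t w
        exact (h9.sub h11).hasDerivWithinAt
      · intro t ht
        rw [hT] at ht
        have h5 := hlip2 t ht.1 (t - w) ht.2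
        have h6 : t - (t - w) = w := by ring
        rw [h6] at h5
        exact h5
    have h5 : u - (u - w) = w := by ring
    have h6 : u - w - w = u - 2 * w := by ring
    have h7 : f u - f (u - w) - (f (u - w) - f (u - 2 * w)) =
        f u - 2 * f (u - w) + f (u - 2 * w) := by ring
    rw [h5, h6, h7] at h4
    refine h4.trans (le_of_eq ?_)
    ring

/-- **Horizontal extension.** `w = σ ε`, `D = Sh δ₂ v₀ σ` (convex), `φ u = σ Re u / ε`, `s₁ = 0` (`ε ≤ δ₂ / 16`).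
`R = |y₀| + 2`, `step_b` with `R` and `η = α₀² / 2` gives `δ₀`, `ρ₀`. Base: `Λ = zt (·, 1)` on
`D ∩ {σ Re u < δ₂ / 2}`: `Pn = 0` by `TL.node` (`Sys.node_symm` if `σ = -1`); the velocity
`a = (Λ u - Λ (u - w)) / ε` is `σ` times a mean of `∂ zt`, so `‖a - σ α₀‖ ≤ α₀ / 50`; the second difference
is at most `C ε² ≤ ρ₀ ε` (Cauchy estimate from `TL.val` on discs of radius `δ₂ / 4`).
Drift: if `‖a - σ α₀‖ ≤ α₀ / 10` and `‖z - I y₀‖ ≤ 1/100` then with `ω = exp (- I z / 2)`: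
`‖ω a‖ ≤ 1.2 π`, `|Im (ω a)| ≤ ‖ω a - σ exp (y₀/2) α₀‖ ≤ 1`, `‖sin x‖ ≤ ‖x‖ cosh (Im x)`, so
`‖Sn (ω a)‖ ≤ cosh 1`, `‖bz z a‖ ≤ 2 ‖a‖² ≤ 3 α₀²`. By `step_b` each step changes the velocity by at most
`ε 4 α₀²`; the number of steps is at most `4.1 / ε`. So along the chain `‖a - σ α₀‖ ≤ α₀ / 50 + 17 α₀² ≤
α₀ / 25`, and `‖Λ u - I y₀ - α₀ Re u‖ ≤ α₀ / 50 + 4.1 α₀ / 25 + α₀ δ₂ ≤ α₀ / 2` (also
`‖Λ u - I y₀‖ ≤ 5 α₀ ≤ 1/100`, `‖Λ u‖ ≤ R`). Extension step by step with `ext_node` (`Ω = ball 0 (2 k)`,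
radius `ρ₀ ε`), invariants as above by induction along the chain. -/
theorem horiz {κ v₀ y₀ α₀ δ₂ ν k₀ : ℝ} (hC : Cs κ v₀ y₀ α₀ δ₂ ν k₀) :
    ∃ k₁ δ₁ : ℝ, 0 < δ₁ ∧ ∀ (Z : Sys) (q : ℂ → ℂ) (ε k δ K : ℝ) (z zt : ℂ × ℂ → ℂ),
      WL Z q ε k δ κ K z → k₁ ≤ k → δ ≤ δ₁ → TL κ v₀ y₀ α₀ δ₂ ν k₀ k z zt →
      ∀ σ : ℝ, (σ = 1 ∨ σ = -1) → ∃ zh : ℂ → ℂ, AnalyticOnNhd ℂ zh (Sh δ₂ v₀ σ) ∧
        (∀ u ∈ Sh δ₂ v₀ σ, σ * u.re < δ₂ / 2 → zh u = zt (u, 1)) ∧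
        ∀ u ∈ Sh δ₂ v₀ σ, 3 < σ * u.re → ‖zh u - I * y₀ - α₀ * u.re‖ ≤ α₀ / 2 := by
  have hα := hC.α_pos
  have hα1 := hC.α_le
  have hδ₂ := hC.d_pos
  have hδ₂' := hC.d_le
  obtain ⟨R, hR⟩ : ∃ R : ℝ, R = |y₀| + 2 := ⟨_, rfl⟩
  have hR1 : 1 ≤ R := by rw [hR]; linarith [abs_nonneg y₀]
  obtain ⟨δ₀, ρ₀, hδ₀, hρ₀, hρ₁, hstep⟩ := step_b hR1 (η := α₀ ^ 2 / 2) (by positivity)
  refine ⟨max (k₀ + |v₀| + 4) (R + 4), min δ₀ (min (δ₂ / 16) (ρ₀ * δ₂)),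
    lt_min hδ₀ (lt_min (by positivity) (by positivity)), ?_⟩
  intro Z q ε k δ K z zt hW hk hδ hT σ hσ
  have hk1 : k₀ + |v₀| + 4 ≤ k := (le_max_left _ _).trans hk
  have hk2 : R + 4 ≤ k := (le_max_right _ _).trans hk
  have hd1 : δ ≤ δ₀ := hδ.trans (min_le_left _ _)
  have hd2 : δ ≤ δ₂ / 16 := hδ.trans ((min_le_right _ _).trans (min_le_left _ _))
  have hd3 : δ ≤ ρ₀ * δ₂ := hδ.trans ((min_le_right _ _).trans (min_le_right _ _))
  have hε := hW.ε_pos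
  have hεδ := hW.ε_le
  have hεC : (ε : ℂ) ≠ 0 := ofReal_ne_zero.2 hε.ne'
  have hσ2 : σ * σ = 1 := by rcases hσ with h | h <;> rw [h] <;> norm_num
  have hσa : |σ| = 1 := by rcases hσ with h | h <;> rw [h] <;> norm_num
  have hst := hstep Z q ε k δ hW.toWS hk2 hd1
  obtain ⟨D, hDdef⟩ : ∃ D : Set ℂ, D = Sh δ₂ v₀ σ := ⟨_, rfl⟩
  have hDm : ∀ u : ℂ, u ∈ D ↔ -(δ₂ / 2) < σ * u.re ∧ σ * u.re < 4 ∧ |u.im - v₀| < δ₂ / 2 :=
    fun u => by rw [hDdef]; rfl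
  obtain ⟨w, hw⟩ : ∃ w : ℂ, w = σ * ε := ⟨_, rfl⟩
  have hwre : w.re = σ * ε := by rw [hw, ← ofReal_mul, ofReal_re]
  have hwim : w.im = 0 := by rw [hw, ← ofReal_mul, ofReal_im]
  have hwn : ‖w‖ = ε := by
    rw [hw, norm_mul, Complex.norm_real, Complex.norm_real, Real.norm_of_nonneg hε.le,
      Real.norm_eq_abs, hσa, one_mul]
  have hD : IsOpen D := by
    have h1 : D = {u : ℂ | -(δ₂ / 2) < σ * u.re} ∩ ({u : ℂ | σ * u.re < 4} ∩
        {u : ℂ | |u.im - v₀| < δ₂ / 2}) := by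
      ext u
      rw [hDm]
      rfl
    rw [h1]
    exact (isOpen_lt continuous_const (continuous_const.mul Complex.continuous_re)).inter
      ((isOpen_lt (continuous_const.mul Complex.continuous_re) continuous_const).inter
        (isOpen_lt (continuous_abs.comp (Complex.continuous_im.sub continuous_const))
          continuous_const))
  obtain ⟨φ, hφdef⟩ : ∃ φ : ℂ → ℝ, φ = fun u => σ * u.re / ε := ⟨_, rfl⟩
  have hφe : ∀ u, φ u * ε = σ * u.re := by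
    intro u
    rw [hφdef]
    field_simp
  have hφ : Continuous φ := by
    rw [hφdef]
    exact (continuous_const.mul Complex.continuous_re).div_const _
  have hφw : ∀ u, φ (u + w) = φ u + 1 := by
    intro u
    have h1 : (φ (u + w) - (φ u + 1)) * ε = 0 := by
      rw [sub_mul, hφe, add_mul, hφe, add_re, hwre]
      linear_combination ε * hσ2
    rcases mul_eq_zero.1 h1 with h | h
    · linarith
    · exact absurd h hε.ne'
  have hφk : ∀ (u : ℂ) (t : ℝ), φ (u - t * w) = φ u - t := by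
    intro u t
    have h1 : (φ (u - t * w) - (φ u - t)) * ε = 0 := by
      rw [sub_mul, hφe, sub_mul, hφe, sub_re, re_ofReal_mul, hwre]
      linear_combination (-(t * ε)) * hσ2
    rcases mul_eq_zero.1 h1 with h | h
    · linarith
    · exact absurd h hε.ne'
  have hφ1 : ∀ u, φ (u - w) = φ u - 1 := by
    intro u
    have := hφk u 1
    simpa using this
  have hφ2 : ∀ u, φ (u - 2 * w) = φ u - 2 := by
    intro u
    have := hφk u 2
    simpa using this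
  -- moving back
  have hbk : ∀ u ∈ D, ∀ t : ℝ, 0 ≤ t → -8 < φ u - t → u - t * w ∈ D := by
    intro u hu t ht h1
    rw [hDm] at hu ⊢
    obtain ⟨h2, h3, h4⟩ := hu
    have h5 : σ * (u - t * w).re = σ * u.re - t * ε := by
      rw [sub_re, re_ofReal_mul, hwre]
      linear_combination (-(t * ε)) * hσ2
    have h6 : (u - t * w).im = u.im := by
      rw [sub_im, im_ofReal_mul, hwim]
      ring
    rw [h5, h6]
    refine ⟨?_, ?_, h4⟩
    · rw [← hφe]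
      nlinarith only [h1, hε, hεδ, hd2]
    · nlinarith only [h3, mul_nonneg ht hε.le]
  have hback : ∀ u ∈ D, 0 ≤ φ u → u - w ∈ D ∧ u - 2 * w ∈ D := by
    intro u hu h1
    refine ⟨?_, ?_⟩
    · have := hbk u hu 1 (by norm_num) (by linarith)
      simpa using this
    · have := hbk u hu 2 (by norm_num) (by linarith)
      simpa using this
  obtain ⟨s₀, hs₀⟩ : ∃ s₀ : ℝ, s₀ = δ₂ / 2 / ε := ⟨_, rfl⟩
  have hs₀e : s₀ * ε = δ₂ / 2 := by rw [hs₀]; field_simp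
  have hs₀1 : 1 < s₀ := by
    rw [hs₀, lt_div_iff₀ hε]
    linarith
  have hφs : ∀ u, φ u < s₀ ↔ σ * u.re < δ₂ / 2 := by
    intro u
    rw [← hφe, ← hs₀e]
    exact ⟨fun h => mul_lt_mul_of_pos_right h hε, fun h => lt_of_mul_lt_mul_right h hε.le⟩
  -- the start
  obtain ⟨V, hV⟩ : ∃ V : Set ℂ, V = {u : ℂ | |u.re| < δ₂ / 2 ∧ |u.im - v₀| < δ₂ / 2} := ⟨_, rfl⟩
  have hDV : ∀ u ∈ D, φ u < s₀ → u ∈ V := by
    intro u hu h1
    rw [hDm] at hu
    rw [hφs] at h1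
    rw [hV]
    refine ⟨?_, hu.2.2⟩
    have h2 : |u.re| = |σ * u.re| := by rw [abs_mul, hσa, one_mul]
    show |u.re| < δ₂ / 2
    rw [h2, abs_lt]
    exact ⟨hu.1, h1⟩
  have hSv : ∀ u : ℂ, |u.re| < δ₂ → |u.im - v₀| < δ₂ → u ∈ Sv δ₂ k₀ v₀ := by
    intro u h1 h2
    rw [abs_lt] at h2
    exact ⟨h1, by linarith [hC.k_ge], by linarith⟩
  have hVSv : ∀ u ∈ V, u ∈ Sv δ₂ k₀ v₀ := by
    intro u hu
    rw [hV] at hu
    obtain ⟨h1, h2⟩ := hu
    exact hSv u (by linarith) (by linarith)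
  have h1ν : (1:ℂ) ∈ ball (1:ℂ) ν := mem_ball_self hC.ν_pos
  have hfan : ∀ u ∈ Sv δ₂ k₀ v₀, AnalyticAt ℂ (fun u => zt (u, 1)) u := by
    intro u hu
    exact AnalyticAt.fun_comp (f := fun u : ℂ => (u, (1:ℂ))) (g := zt) (x := u)
      (hT.an _ ⟨hu, h1ν⟩) (analyticAt_id.prod analyticAt_const)
  obtain ⟨hb1, hb2⟩ := hor_base (f := fun u => zt (u, 1)) (w := w) hα hδ₂
    (fun u h1 h2 => hfan u (hSv u h1 h2)) hT.der hV
  have hwsσ : ∀ x : ℂ, x - w * α₀ = x - ε * (σ * α₀) := by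
    intro x
    rw [hw]
    ring
  -- the property of the extension
  obtain ⟨Pr, hPr⟩ : ∃ Pr : ℝ → (ℂ → ℂ) → Prop, Pr = fun s Λ =>
      AnalyticOnNhd ℂ Λ (D ∩ {u | φ u < s}) ∧ (∀ u ∈ D, φ u < s₀ → Λ u = zt (u, 1)) ∧
      ∀ u ∈ D, 0 ≤ φ u → φ u < s → Pn Z (Λ (u - w)) (Λ (u - 2 * w)) (Λ u - Λ (u - w)) = 0 ∧
        ‖Λ u - 2 * Λ (u - w) + Λ (u - 2 * w)‖ ≤ ρ₀ * ε := ⟨_, rfl⟩
  -- estimates along the chain
  have hchain : ∀ s Λ, Pr s Λ → ∀ u ∈ D, 0 ≤ φ u → φ u < s →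
      ‖Λ u - Λ (u - w) - ε * (σ * α₀)‖ ≤ ε * (α₀ / 25) ∧
      ‖Λ u - I * y₀ - α₀ * u.re‖ ≤ α₀ / 4 := by
    intro s Λ hP u hu h1 h2
    rw [hPr] at hP
    obtain ⟨-, p2, p3⟩ := hP
    obtain ⟨n, hn⟩ : ∃ n : ℕ, n = ⌊φ u⌋₊ := ⟨_, rfl⟩
    have hn1 : (n:ℝ) ≤ φ u := by rw [hn]; exact Nat.floor_le h1
    have hn2 : φ u < n + 1 := by rw [hn]; exact Nat.lt_floor_add_one _
    obtain ⟨ζ, hζ⟩ : ∃ ζ : ℕ → ℂ, ζ = fun m : ℕ => Λ (u - (((n:ℝ) + 1 - (m:ℝ) : ℝ) : ℂ) * w) := ⟨_, rfl⟩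
    have hnε : (n:ℝ) * ε ≤ 4 := by
      have h3 := ((hDm u).1 hu).2.1
      rw [← hφe] at h3
      nlinarith only [hn1, h3, hε]
    have e0 : ζ 0 = Λ (u - ((n:ℝ):ℂ) * w - w) := by
      rw [hζ]
      show Λ _ = Λ _
      congr 1
      push_cast
      ring
    have e1 : ζ 1 = Λ (u - ((n:ℝ):ℂ) * w) := by
      rw [hζ]
      show Λ _ = Λ _
      congr 1
      push_cast
      ring
    have hu0 : u - ((n:ℝ):ℂ) * w ∈ D := hbk u hu n (by positivity) (by linarith)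
    have hφ0 : φ (u - ((n:ℝ):ℂ) * w) < 1 := by
      rw [hφk]
      linarith
    have hφ0' : 0 ≤ φ (u - ((n:ℝ):ℂ) * w) := by
      rw [hφk]
      linarith
    have hu1 := (hback _ hu0 hφ0').1
    have hφ1' : φ (u - ((n:ℝ):ℂ) * w - w) < s₀ := by
      rw [hφ1]
      linarith
    have b0 : ‖ζ 1 - I * y₀‖ ≤ α₀ / 50 := by
      rw [e1, p2 _ hu0 (by linarith)]
      have h3 := hDV _ hu0 (by linarith)
      rw [hV] at h3
      obtain ⟨h4, h5⟩ := h3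
      exact hT.val _ (by linarith) (by linarith)
    have b1 : ‖ζ 1 - ζ 0 - ε * (σ * α₀)‖ ≤ ε * (α₀ / 50) := by
      rw [e1, e0, p2 _ hu0 (by linarith), p2 _ hu1 hφ1', ← hwsσ]
      have h3 := hb1 _ (hDV _ hu0 (by linarith)) (hDV _ hu1 hφ1')
      rw [hwn] at h3
      exact h3
    have hPζ : ∀ m, m + 1 ≤ n → Pn Z (ζ (m + 1)) (ζ m) (ζ (m + 2) - ζ (m + 1)) = 0 ∧
        ‖ζ (m + 2) - 2 * ζ (m + 1) + ζ m‖ ≤ ρ₀ * ε := by
      intro m hm
      have hmn : (m:ℝ) + 1 ≤ n := by exact_mod_cast hm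
      obtain ⟨t, ht⟩ : ∃ t : ℝ, t = n - 1 - m := ⟨_, rfl⟩
      have ht0 : 0 ≤ t := by rw [ht]; linarith
      have htn : t ≤ n := by rw [ht]; have := Nat.cast_nonneg (α := ℝ) m; linarith
      have f2 : ζ (m + 2) = Λ (u - (t:ℂ) * w) := by
        rw [hζ, ht]
        show Λ _ = Λ _
        congr 1
        push_cast
        ring
      have f1 : ζ (m + 1) = Λ (u - (t:ℂ) * w - w) := by
        rw [hζ, ht]
        show Λ _ = Λ _
        congr 1
        push_cast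
        ring
      have f0 : ζ m = Λ (u - (t:ℂ) * w - 2 * w) := by
        rw [hζ, ht]
        show Λ _ = Λ _
        congr 1
        push_cast
        ring
      have hm1 : u - (t:ℂ) * w ∈ D := hbk u hu t ht0 (by linarith)
      have hm2 : 0 ≤ φ (u - (t:ℂ) * w) := by rw [hφk]; linarith
      have hm3 : φ (u - (t:ℂ) * w) < s := by rw [hφk]; linarith
      rw [f2, f1, f0]
      exact p3 _ hm1 hm2 hm3
    obtain ⟨r1, r2⟩ := hor_seq (R := R) (ρ₀ := ρ₀) hσ hα hα1 hC.ey hε hR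
      (fun z α hz hα α' h3 h4 => (hst z α hz hα).2 α' h3 h4) hnε hPζ b0 b1 n le_rfl
    have g1 : ζ (n + 1) = Λ u := by
      rw [hζ]
      show Λ _ = Λ _
      congr 1
      push_cast
      ring
    have g0 : ζ n = Λ (u - w) := by
      rw [hζ]
      show Λ _ = Λ _
      congr 1
      push_cast
      ring
    rw [g1, g0] at r1
    rw [g1] at r2
    refine ⟨?_, ?_⟩
    · refine r1.trans (mul_le_mul_of_nonneg_left ?_ hε.le)
      have h3 : 4 * α₀ ^ 2 * (n * ε) ≤ 4 * α₀ ^ 2 * 4 :=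
        mul_le_mul_of_nonneg_left hnε (by positivity)
      nlinarith only [h3, hα, hα1]
    · have h3 : Λ u - I * y₀ - α₀ * u.re = (Λ u - I * y₀ - n * ε * (σ * α₀)) -
          ((α₀ * (u.re - n * ε * σ) : ℝ) : ℂ) := by
        push_cast
        ring
      rw [h3]
      refine (norm_sub_le _ _).trans ?_
      rw [Complex.norm_real, Real.norm_eq_abs, abs_mul, abs_of_pos hα]
      have h4 : |u.re - n * ε * σ| ≤ ε := by
        have h5 : |u.re - n * ε * σ| = |σ * (u.re - n * ε * σ)| := by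
          rw [abs_mul, hσa, one_mul]
        have h6 : σ * (u.re - n * ε * σ) = (φ u - n) * ε := by
          rw [sub_mul, hφe]
          linear_combination (-(n * ε)) * hσ2
        rw [h5, h6, abs_le]
        constructor <;> nlinarith only [hn1, hn2, hε]
      have h5 : α₀ * |u.re - n * ε * σ| ≤ α₀ * ε := mul_le_mul_of_nonneg_left h4 hα.le
      have h6 : (n:ℝ) * ε * (α₀ / 25) ≤ 4 * (α₀ / 25) :=
        mul_le_mul_of_nonneg_right hnε (by positivity)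
      nlinarith only [r2, h5, h6, hα, hεδ, hd2, hδ₂, hδ₂']
  -- bounds for the values needed for a step
  have hval : ∀ s Λ, s₀ ≤ s → Pr s Λ → ∀ u ∈ D, 0 ≤ φ u → φ u < s + 1 →
      ‖Λ (u - w) - Λ (u - 2 * w) - ε * (σ * α₀)‖ ≤ ε * (α₀ / 25) ∧ ‖Λ (u - w)‖ ≤ R := by
    intro s Λ hs hP u hu h1 h2
    obtain ⟨hu1, hu2⟩ := hback u hu h1
    have e2 : u - w - w = u - 2 * w := by ring
    have hy : ‖I * (y₀:ℂ)‖ = |y₀| := by
      rw [norm_mul, Complex.norm_I, one_mul, Complex.norm_real, Real.norm_eq_abs]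
    by_cases h3 : φ u < 1
    · have hP' := hP
      rw [hPr] at hP'
      obtain ⟨-, p2, -⟩ := hP'
      have h4 : φ (u - w) < s₀ := by rw [hφ1]; linarith
      have h5 : φ (u - 2 * w) < s₀ := by rw [hφ2]; linarith
      rw [p2 _ hu1 h4, p2 _ hu2 h5, ← hwsσ]
      refine ⟨?_, ?_⟩
      · have h6 := hb1 (u - w) (hDV _ hu1 h4) (by rw [e2]; exact hDV _ hu2 h5)
        rw [e2, hwn] at h6
        refine h6.trans (mul_le_mul_of_nonneg_left (by linarith) hε.le)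
      · have h6 := hDV _ hu1 h4
        rw [hV] at h6
        obtain ⟨h7, h8⟩ := h6
        have h9 := hT.val (u - w) (by linarith) (by linarith)
        have h10 : ‖zt (u - w, 1)‖ ≤ ‖zt (u - w, 1) - I * y₀‖ + ‖I * (y₀:ℂ)‖ := by
          have := norm_add_le (zt (u - w, 1) - I * y₀) (I * (y₀:ℂ))
          rwa [sub_add_cancel] at this
        rw [hR]
        linarith
    · push Not at h3
      obtain ⟨c1, c2⟩ := hchain s Λ hP (u - w) hu1 (by rw [hφ1]; linarith)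
        (by rw [hφ1]; linarith)
      rw [e2] at c1
      refine ⟨c1, ?_⟩
      have h4 : Λ (u - w) = (Λ (u - w) - I * y₀ - α₀ * (u - w).re) + (I * y₀ +
          ((α₀ * (u - w).re : ℝ) : ℂ)) := by
        push_cast
        ring
      rw [h4]
      refine (norm_add_le _ _).trans ?_
      have h5 := norm_add_le (I * (y₀:ℂ)) ((α₀ * (u - w).re : ℝ) : ℂ)
      rw [hy, Complex.norm_real, Real.norm_eq_abs, abs_mul, abs_of_pos hα] at h5
      have h6 : |(u - w).re| ≤ 4 := by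
        have h7 : |(u - w).re| = |σ * (u - w).re| := by rw [abs_mul, hσa, one_mul]
        rw [h7]
        have h8 := (hDm _).1 hu1
        rw [abs_le]
        exact ⟨by linarith [h8.1], h8.2.1.le⟩
      have h7 : α₀ * |(u - w).re| ≤ α₀ * 4 := mul_le_mul_of_nonneg_left h6 hα.le
      rw [hR]
      linarith
  have hrok : ∀ s Λ, s₀ ≤ s → Pr s Λ → ∀ u ∈ D, 0 ≤ φ u → φ u < s + 1 →
      ROK Z (ball 0 (2 * k)) (Λ (u - w)) (Λ (u - 2 * w)) (ρ₀ * ε) ∧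
      2 * ‖Pn Z (Λ (u - w)) (Λ (u - 2 * w)) (Λ (u - w) - Λ (u - 2 * w))‖ ≤ ρ₀ * ε := by
    intro s Λ hs hP u hu h1 h2
    obtain ⟨c1, c2⟩ := hval s Λ hs hP u hu h1 h2
    obtain ⟨a, ha⟩ : ∃ a : ℂ, a = (Λ (u - w) - Λ (u - 2 * w)) / ε := ⟨_, rfl⟩
    have ea : (ε:ℂ) * a = Λ (u - w) - Λ (u - 2 * w) := by rw [ha]; field_simp
    have h3 : ‖a - σ * α₀‖ ≤ α₀ / 25 := by
      rw [← ea, ← mul_sub, norm_mul, Complex.norm_real, Real.norm_of_nonneg hε.le] at c1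
      exact le_of_mul_le_mul_left c1 hε
    have h4 : ‖a‖ ≤ R := by
      have h5 : ‖a‖ ≤ ‖a - σ * α₀‖ + ‖(σ : ℂ) * α₀‖ := by
        have := norm_add_le (a - σ * α₀) ((σ : ℂ) * α₀)
        rwa [sub_add_cancel] at this
      have h6 : ‖(σ : ℂ) * α₀‖ = α₀ := by
        rw [norm_mul, Complex.norm_real, Complex.norm_real, Real.norm_of_nonneg hα.le,
          Real.norm_eq_abs, hσa, one_mul]
      rw [hR]
      linarith [abs_nonneg y₀]
    have h5 := (hst (Λ (u - w)) a c2 h4).1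
    have h6 : Λ (u - w) - ε * a = Λ (u - 2 * w) := by rw [ea]; ring
    rw [h6] at h5
    exact ⟨h5, by linarith [h5.small]⟩
  -- the induction
  have hind : ∀ j : ℕ, ∃ Λ : ℂ → ℂ, Pr (s₀ + j) Λ := by
    intro j
    induction j with
    | zero =>
      refine ⟨fun u => zt (u, 1), ?_⟩
      rw [hPr]
      refine ⟨?_, fun u _ _ => rfl, ?_⟩
      · rintro u ⟨h1, h2⟩
        have h3 : φ u < s₀ + ((0:ℕ):ℝ) := h2
        rw [Nat.cast_zero, add_zero] at h3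
        exact hfan u (hVSv u (hDV u h1 h3))
      · intro u hu h1 h2
        rw [Nat.cast_zero, add_zero] at h2
        obtain ⟨hu1, hu2⟩ := hback u hu h1
        have m0 := hDV u hu h2
        have m1 := hDV _ hu1 (by rw [hφ1]; linarith)
        have m2 := hDV _ hu2 (by rw [hφ2]; linarith)
        refine ⟨?_, ?_⟩
        · have h3 : Z.node (zt (u - w, 1)) (zt (u, 1)) (zt (u - 2 * w, 1)) := by
            rcases hσ with h | h
            · have hw' : w = ε := by rw [hw, h]; simp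
              rw [hw'] at m1 m2 ⊢
              have e1 : u - ε + ε = u := by ring
              have e2 : u - ε - ε = u - 2 * ε := by ring
              have h4 := TL.node hW hC hT hk1 (by linarith) (u := u - ε) (hVSv _ m1)
                (by rw [e1]; exact hVSv _ m0) (by rw [e2]; exact hVSv _ m2)
              rw [e1, e2] at h4
              exact h4
            · have hw' : w = -ε := by rw [hw, h]; simp
              rw [hw'] at m1 m2 ⊢
              have e1 : u - -(ε:ℂ) + ε = u - 2 * -ε := by ring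
              have e2 : u - -(ε:ℂ) - ε = u := by ring
              have h4 := TL.node hW hC hT hk1 (by linarith) (u := u - -(ε:ℂ)) (hVSv _ m1)
                (by rw [e1]; exact hVSv _ m2) (by rw [e2]; exact hVSv _ m0)
              rw [e1, e2] at h4
              exact Sys.node_symm.1 h4
          unfold Pn
          have e3 : zt (u - w, 1) + (zt (u, 1) - zt (u - w, 1)) = zt (u, 1) := by ring
          rw [e3]
          exact h3
        · have h3 := hb2 u m0 m1 m2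
          refine h3.trans ?_
          rw [hwn]
          have h4 : α₀ / 50 * (4 / δ₂) ≤ 1 / δ₂ := by
            rw [div_mul_div_comm, div_le_div_iff₀ (by positivity) hδ₂]
            nlinarith only [hα, hα1, hδ₂]
          have h5 : 1 / δ₂ * ε ≤ ρ₀ := by
            rw [one_div, inv_mul_le_iff₀ hδ₂]
            linarith
          have h6 : α₀ / 50 * (4 / δ₂) * ε ^ 2 ≤ 1 / δ₂ * ε ^ 2 :=
            mul_le_mul_of_nonneg_right h4 (by positivity)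
          have h7 : 1 / δ₂ * ε ^ 2 = 1 / δ₂ * ε * ε := by ring
          rw [h7] at h6
          exact h6.trans (mul_le_mul_of_nonneg_right h5 hε.le)
    | succ j ih =>
      obtain ⟨Λ, hΛ⟩ := ih
      have hs : s₀ ≤ s₀ + j := by
        have := Nat.cast_nonneg (α := ℝ) j
        linarith
      have hΛ' := hΛ
      rw [hPr] at hΛ'
      obtain ⟨p1, p2, p3⟩ := hΛ'
      obtain ⟨Λ', a1, a2, a3⟩ := ext_node (Y := Z) (Ω := ball 0 (2 * k)) isOpen_ball hW.on hD hφ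
        hφw (s₁ := 0) (s := s₀ + j) (r := ρ₀ * ε) (by linarith) hback p1
        (fun u hu h1 h2 => (hrok _ Λ hs hΛ u hu h1 h2).1) p3
      refine ⟨Λ', ?_⟩
      rw [hPr]
      have e1 : s₀ + ((j + 1 : ℕ) : ℝ) = s₀ + j + 1 := by push_cast; ring
      rw [e1]
      refine ⟨a1, fun u hu h1 => ?_, ?_⟩
      · rw [a2 u hu (by linarith)]
        exact p2 u hu h1
      · intro u hu h1 h2
        obtain ⟨b1, b2⟩ := a3 u hu h1 h2
        refine ⟨b1, b2.trans ?_⟩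
        obtain ⟨hu1, hu2⟩ := hback u hu h1
        rw [a2 _ hu1 (by rw [hφ1]; linarith), a2 _ hu2 (by rw [hφ2]; linarith)]
        exact (hrok _ Λ hs hΛ u hu h1 h2).2
  obtain ⟨N, hN⟩ := exists_nat_ge (4 / ε)
  obtain ⟨Λ, hΛ⟩ := hind N
  have hall : ∀ u ∈ D, φ u < s₀ + N := by
    intro u hu
    have h1 := ((hDm u).1 hu).2.1
    rw [← hφe] at h1
    have h2 : φ u < 4 / ε := by
      rw [lt_div_iff₀ hε]
      exact h1
    linarith
  have hΛ' := hΛ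
  rw [hPr] at hΛ'
  obtain ⟨p1, p2, p3⟩ := hΛ'
  rw [← hDdef]
  refine ⟨Λ, fun u hu => p1 u ⟨hu, hall u hu⟩, fun u hu h1 => p2 u hu ((hφs u).2 h1), ?_⟩
  intro u hu h1
  have h2 : 0 ≤ φ u := by
    rw [← hφe] at h1
    by_contra hcon
    push Not at hcon
    nlinarith only [hcon, h1, hε]
  exact (hchain _ Λ hΛ u hu h2 (hall u hu)).2.trans (by linarith)

end Pool.Agent.MP_ae5b4e_an_NB5
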