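import Pool.Agent.Lib.MP_ae5b4e_an_NB5.Est0

/-!
# MP_ae5b4e_an, project NB_5(A): labels of a slice
-/

noncomputable section

namespace Pool.Agent.MP_ae5b4e_an_NB5

open Complex Set Filter Topology Metric
open Pool.Agent.MP_ae5b4e_an_NBT (St)
open Pool.Agent.MP_ae5b4e_an_NB2 (Sys)
open scoped ComplexConjugate

/-- near `t` the function `Λ` is a label of the slice `X` (with the step `c₀`) -/
structure Lb (Y : Sys) (X : ℂ → ℂ) (c₀ : ℝ) (Λ : ℂ → ℂ) (t : ℂ) : Prop where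
  an : AnalyticAt ℂ Λ t
  x : ∀ᶠ s in 𝓝[≠] t, X s = Y.y2 (Λ s) / Y.y1 (Λ s)
  k : ∀ᶠ s in 𝓝[≠] t, (X (s + c₀) - X s)⁻¹ + (X (s - c₀) - X s)⁻¹ = 2 * (Y.y1 (Λ s) * Y.y1' (Λ s))

private theorem LbD_mer {f : ℂ → ℂ} {D : Set ℂ} (hDc : IsPreconnected D)
    (hf : ∀ t ∈ D, MeromorphicAt f t) {t₀ : ℂ} (ht₀ : t₀ ∈ D) (h : ∀ᶠ s in 𝓝[≠] t₀, f s = 0) :
    ∀ t ∈ D, ∀ᶠ s in 𝓝[≠] t, f s = 0 := by
  intro t ht
  by_contra hn
  have h1 : meromorphicOrderAt f t ≠ ⊤ := fun h2 => hn (meromorphicOrderAt_eq_top_iff.1 h2)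
  have hf' : MeromorphicOn f D := hf
  exact hf'.meromorphicOrderAt_ne_top_of_isPreconnected hDc ht ht₀ h1
    (meromorphicOrderAt_eq_top_iff.2 h)

private theorem LbD_an1 {Y : Sys} (hY : Y.On univ) {Λ : ℂ → ℂ} {t : ℂ} (h : AnalyticAt ℂ Λ t) :
    AnalyticAt ℂ (fun s => Y.y1 (Λ s)) t :=
  (Sys.an_y1 hY isOpen_univ _ (mem_univ _)).fun_comp h

private theorem LbD_an1' {Y : Sys} (hY : Y.On univ) {Λ : ℂ → ℂ} {t : ℂ} (h : AnalyticAt ℂ Λ t) :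
    AnalyticAt ℂ (fun s => Y.y1' (Λ s)) t :=
  (Sys.an_y1' hY isOpen_univ _ (mem_univ _)).fun_comp h

private theorem LbD_an2 {Y : Sys} (hY : Y.On univ) {Λ : ℂ → ℂ} {t : ℂ} (h : AnalyticAt ℂ Λ t) :
    AnalyticAt ℂ (fun s => Y.y2 (Λ s)) t :=
  (Sys.an_y2 hY isOpen_univ _ (mem_univ _)).fun_comp h

/-- Both equations are between functions meromorphic on `D` (`y1 ∘ Λ` may vanish identically? then
`x` says `X = 0` by the convention `a / 0 = 0`; all functions are meromorphic at every point in any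
case): the set of points of `D` near which an equation holds off the point is open and closed in `D`
(`MeromorphicAt.eventually_eq_zero_or_eventually_ne_zero` for the difference). -/
theorem lb_ext {Y : Sys} {X Λ : ℂ → ℂ} {c₀ : ℝ} (hY : Y.On univ) {D : Set ℂ} (hD : IsOpen D)
    (hDc : IsPreconnected D) (hΛ : AnalyticOnNhd ℂ Λ D)
    (hX : ∀ t ∈ D, MeromorphicAt X t ∧ MeromorphicAt X (t + c₀) ∧ MeromorphicAt X (t - c₀))
    {t₀ : ℂ} (ht₀ : t₀ ∈ D) (h : Lb Y X c₀ Λ t₀) : ∀ t ∈ D, Lb Y X c₀ Λ t := by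
  have m1 : ∀ t ∈ D, MeromorphicAt (fun s => X s - Y.y2 (Λ s) / Y.y1 (Λ s)) t := by
    intro t ht
    exact (hX t ht).1.fun_sub ((LbD_an2 hY (hΛ t ht)).meromorphicAt.fun_div
      (LbD_an1 hY (hΛ t ht)).meromorphicAt)
  have m2 : ∀ t ∈ D, MeromorphicAt (fun s => ((X (s + c₀) - X s)⁻¹ + (X (s - c₀) - X s)⁻¹) -
      2 * (Y.y1 (Λ s) * Y.y1' (Λ s))) t := by
    intro t ht
    obtain ⟨h1, h2, h3⟩ := hX t ht
    have h2' : MeromorphicAt (fun s => X (s + c₀)) t :=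
      meromorphicAt_fun_comp_add_const_iff_meromorphicAt.2 h2
    have h3' : MeromorphicAt (fun s => X (s - c₀)) t :=
      meromorphicAt_fun_comp_sub_const_iff_meromorphicAt.2 h3
    have h4 : MeromorphicAt (fun s => 2 * (Y.y1 (Λ s) * Y.y1' (Λ s))) t :=
      (analyticAt_const.fun_mul ((LbD_an1 hY (hΛ t ht)).fun_mul
        (LbD_an1' hY (hΛ t ht)))).meromorphicAt
    exact ((h2'.fun_sub h1).fun_inv.fun_add (h3'.fun_sub h1).fun_inv).fun_sub h4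
  have e1 := LbD_mer hDc m1 ht₀ (h.x.mono fun s hs => sub_eq_zero.2 hs)
  have e2 := LbD_mer hDc m2 ht₀ (h.k.mono fun s hs => sub_eq_zero.2 hs)
  exact fun t ht => ⟨hΛ t ht, (e1 t ht).mono fun s hs => sub_eq_zero.1 hs,
    (e2 t ht).mono fun s hs => sub_eq_zero.1 hs⟩

/-- a fundamental system composed with a function -/
private theorem LbD_const {Y : Sys} (hY : Y.On univ) {Λ : ℂ → ℂ} {t : ℂ}
    (h : AnalyticAt ℂ Λ t) (h1 : ∀ᶠ s in 𝓝[≠] t, Y.y1 (Λ s) = 0) :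
    ∀ᶠ s in 𝓝[≠] t, deriv Λ s = 0 := by
  have h2 : ∀ᶠ s in 𝓝[≠] t, ∀ᶠ r in 𝓝 s, Y.y1 (Λ r) = 0 := by
    have h3 : ∀ᶠ s in 𝓝 t, s ∈ ({t}ᶜ : Set ℂ) → Y.y1 (Λ s) = 0 :=
      eventually_nhdsWithin_iff.1 h1
    rw [eventually_nhdsWithin_iff]
    filter_upwards [h3.eventually_nhds] with s hs hst
    filter_upwards [hs, isOpen_compl_singleton.mem_nhds hst] with r hr hrt
    exact hr hrt
  have h4 : ∀ᶠ s in 𝓝[≠] t, AnalyticAt ℂ Λ s :=
    (h.eventually_analyticAt).filter_mono nhdsWithin_le_nhds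
  filter_upwards [h2, h4] with s hs ha
  have hd := (hY.d1 (Λ s) (mem_univ _)).comp s ha.differentiableAt.hasDerivAt
  have hz : HasDerivAt (fun r => Y.y1 (Λ r)) 0 s :=
    (hasDerivAt_const s (0:ℂ)).congr_of_eventuallyEq hs
  have h5 : Y.y1' (Λ s) * deriv Λ s = 0 := hd.unique hz
  have h6 := hY.wr (Λ s) (mem_univ _)
  rw [hs.self_of_nhds, zero_mul, zero_sub] at h6
  rcases mul_eq_zero.1 h5 with h7 | h7
  · rw [h7, zero_mul, neg_zero] at h6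
    exact absurd h6 zero_ne_one
  · exact h7

private theorem LbD_const2 {Y : Sys} (hY : Y.On univ) {Λ : ℂ → ℂ} {t : ℂ}
    (h : AnalyticAt ℂ Λ t) (h1 : ∀ᶠ s in 𝓝[≠] t, Y.y2 (Λ s) = 0) :
    ∀ᶠ s in 𝓝[≠] t, deriv Λ s = 0 := by
  have h2 : ∀ᶠ s in 𝓝[≠] t, ∀ᶠ r in 𝓝 s, Y.y2 (Λ r) = 0 := by
    have h3 : ∀ᶠ s in 𝓝 t, s ∈ ({t}ᶜ : Set ℂ) → Y.y2 (Λ s) = 0 :=
      eventually_nhdsWithin_iff.1 h1
    rw [eventually_nhdsWithin_iff]
    filter_upwards [h3.eventually_nhds] with s hs hst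
    filter_upwards [hs, isOpen_compl_singleton.mem_nhds hst] with r hr hrt
    exact hr hrt
  have h4 : ∀ᶠ s in 𝓝[≠] t, AnalyticAt ℂ Λ s :=
    (h.eventually_analyticAt).filter_mono nhdsWithin_le_nhds
  filter_upwards [h2, h4] with s hs ha
  have hd := (hY.d2 (Λ s) (mem_univ _)).comp s ha.differentiableAt.hasDerivAt
  have hz : HasDerivAt (fun r => Y.y2 (Λ r)) 0 s :=
    (hasDerivAt_const s (0:ℂ)).congr_of_eventuallyEq hs
  have h5 : Y.y2' (Λ s) * deriv Λ s = 0 := hd.unique hz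
  have h6 := hY.wr (Λ s) (mem_univ _)
  rw [hs.self_of_nhds, mul_zero, sub_zero] at h6
  rcases mul_eq_zero.1 h5 with h7 | h7
  · rw [h7, mul_zero] at h6
    exact absurd h6 zero_ne_one
  · exact h7

private theorem LbD_ne {Λ : ℂ → ℂ} {t : ℂ} (h : AnalyticAt ℂ Λ t) (hd : deriv Λ t ≠ 0) :
    ¬ ∀ᶠ s in 𝓝[≠] t, deriv Λ s = 0 := by
  intro h1
  have h2 : ContinuousAt (deriv Λ) t := h.deriv.continuousAt
  have h3 : ∀ᶠ s in 𝓝[≠] t, deriv Λ s ≠ 0 :=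
    (h2.eventually_ne hd).filter_mono nhdsWithin_le_nhds
  obtain ⟨s, h4, h5⟩ := (h1.and h3).exists
  exact h5 h4

/-- **Two labels differ by an affine map.** `Λ₀` is locally invertible at `t₀`; `g = Λ₁ ∘ Λ₀⁻¹` is analytic
near `s₀ = Λ₀ t₀`, and with `F = y2 / y1` (`F' = 1 / y1²` where `y1 ≠ 0`, which holds off a discrete set; the
same for `y1 ∘ g`: `g` is not constant since `F ∘ g = F` off `s₀` and `F` is not locally constant)
`F (g) = F`, `(y1 y1') (g) = y1 y1'`. So `g' = y1 (g)² / y1²`, and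
`g'' = (2 y1 (g)² / y1⁴) ((y1 y1') (g) - y1 y1') = 0` off a discrete set, hence `g'' = 0` near `s₀`:
`g s = A s + B`, `A ≠ 0`. -/
theorem lb_aff {Y : Sys} {X Λ₀ Λ₁ : ℂ → ℂ} {c₀ : ℝ} (hY : Y.On univ) {t₀ : ℂ}
    (h0 : Lb Y X c₀ Λ₀ t₀) (h1 : Lb Y X c₀ Λ₁ t₀) (hd : deriv Λ₀ t₀ ≠ 0) :
    ∃ A B : ℂ, A ≠ 0 ∧ (∀ᶠ s in 𝓝 t₀, Λ₁ s = A * Λ₀ s + B) ∧
      ∃ᶠ s in 𝓝[≠] (Λ₀ t₀), Y.y1 s ≠ 0 ∧ Y.y1 (A * s + B) ≠ 0 ∧
        Y.y2 (A * s + B) / Y.y1 (A * s + B) = Y.y2 s / Y.y1 s := by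
  -- the denominators do not vanish
  have hn0 : ∀ᶠ s in 𝓝[≠] t₀, Y.y1 (Λ₀ s) ≠ 0 := by
    rcases (LbD_an1 hY h0.an).eventually_eq_zero_or_eventually_ne_zero with h | h
    · exact absurd (LbD_const hY h0.an (h.filter_mono nhdsWithin_le_nhds)) (LbD_ne h0.an hd)
    · exact h
  have hn1 : ∀ᶠ s in 𝓝[≠] t₀, Y.y1 (Λ₁ s) ≠ 0 := by
    rcases (LbD_an1 hY h1.an).eventually_eq_zero_or_eventually_ne_zero with h | h
    · exfalso
      have h' : ∀ᶠ s in 𝓝[≠] t₀, Y.y1 (Λ₁ s) = 0 := h.filter_mono nhdsWithin_le_nhds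
      refine LbD_ne h0.an hd (LbD_const2 hY h0.an ?_)
      filter_upwards [h0.x, h1.x, h', hn0] with s h3 h4 h5 h6
      rw [h5, div_zero] at h4
      rw [h4] at h3
      rcases div_eq_zero_iff.1 h3.symm with h7 | h7
      · exact h7
      · exact absurd h7 h6
    · exact h
  -- a ball
  have hall : ∀ᶠ s in 𝓝 t₀, (AnalyticAt ℂ Λ₀ s ∧ AnalyticAt ℂ Λ₁ s) ∧ (s ∈ ({t₀}ᶜ : Set ℂ) →
      (((Y.y1 (Λ₀ s) ≠ 0 ∧ Y.y1 (Λ₁ s) ≠ 0) ∧ (X s = Y.y2 (Λ₀ s) / Y.y1 (Λ₀ s) ∧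
        X s = Y.y2 (Λ₁ s) / Y.y1 (Λ₁ s))) ∧
          Y.y1 (Λ₀ s) * Y.y1' (Λ₀ s) = Y.y1 (Λ₁ s) * Y.y1' (Λ₁ s))) := by
    have h2 : ∀ᶠ s in 𝓝[≠] t₀, ((Y.y1 (Λ₀ s) ≠ 0 ∧ Y.y1 (Λ₁ s) ≠ 0) ∧
        (X s = Y.y2 (Λ₀ s) / Y.y1 (Λ₀ s) ∧ X s = Y.y2 (Λ₁ s) / Y.y1 (Λ₁ s))) ∧
          Y.y1 (Λ₀ s) * Y.y1' (Λ₀ s) = Y.y1 (Λ₁ s) * Y.y1' (Λ₁ s) := by
      filter_upwards [hn0, hn1, h0.x, h1.x, h0.k, h1.k] with s a1 a2 a3 a4 a5 a6
      refine ⟨⟨⟨a1, a2⟩, a3, a4⟩, ?_⟩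
      rw [a5] at a6
      exact mul_left_cancel₀ two_ne_zero a6
    exact (h0.an.eventually_analyticAt.and h1.an.eventually_analyticAt).and
      (eventually_nhdsWithin_iff.1 h2)
  obtain ⟨ε, hε, hball⟩ := Metric.eventually_nhds_iff_ball.1 hall
  set s₁ : ℂ := t₀ + ((ε / 2 : ℝ) : ℂ) with hs₁
  have hs1d : dist s₁ t₀ = ε / 2 := by
    rw [hs₁, dist_eq_norm, add_sub_cancel_left, Complex.norm_real, Real.norm_eq_abs,
      abs_of_pos (half_pos hε)]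
  have hs1m : s₁ ∈ ball t₀ ε := by
    rw [mem_ball, hs1d]
    linarith
  have hsub : ball s₁ (ε / 2) ⊆ ball t₀ ε := by
    refine ball_subset_ball' ?_
    rw [hs1d]
    linarith
  have hne : ∀ s ∈ ball s₁ (ε / 2), s ≠ t₀ := by
    rintro s hs rfl
    rw [mem_ball, dist_comm, hs1d] at hs
    exact lt_irrefl _ hs
  have hU : IsOpen (ball s₁ (ε / 2)) := isOpen_ball
  have hUc : IsPreconnected (ball s₁ (ε / 2)) := (convex_ball _ _).isPreconnected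
  -- data on the small ball
  have hdat : ∀ s ∈ ball s₁ (ε / 2), (((Y.y1 (Λ₀ s) ≠ 0 ∧ Y.y1 (Λ₁ s) ≠ 0) ∧
      (X s = Y.y2 (Λ₀ s) / Y.y1 (Λ₀ s) ∧ X s = Y.y2 (Λ₁ s) / Y.y1 (Λ₁ s))) ∧
          Y.y1 (Λ₀ s) * Y.y1' (Λ₀ s) = Y.y1 (Λ₁ s) * Y.y1' (Λ₁ s)) :=
    fun s hs => (hball s (hsub hs)).2 (hne s hs)
  have han : ∀ s ∈ ball s₁ (ε / 2), AnalyticAt ℂ Λ₀ s ∧ AnalyticAt ℂ Λ₁ s :=
    fun s hs => (hball s (hsub hs)).1
  -- derivative of `X`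
  have hX : ∀ {Λ : ℂ → ℂ} {s : ℂ}, s ∈ ball s₁ (ε / 2) → AnalyticAt ℂ Λ s → Y.y1 (Λ s) ≠ 0 →
      HasDerivAt (fun s => Y.y2 (Λ s) / Y.y1 (Λ s)) (deriv Λ s / Y.y1 (Λ s) ^ 2) s := by
    intro Λ s _ ha hy
    have d1 : HasDerivAt (fun s => Y.y1 (Λ s)) (Y.y1' (Λ s) * deriv Λ s) s :=
      (hY.d1 (Λ s) (mem_univ _)).comp s ha.differentiableAt.hasDerivAt
    have d2 : HasDerivAt (fun s => Y.y2 (Λ s)) (Y.y2' (Λ s) * deriv Λ s) s :=
      (hY.d2 (Λ s) (mem_univ _)).comp s ha.differentiableAt.hasDerivAt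
    have d3 := d2.fun_div d1 hy
    have h6 := hY.wr (Λ s) (mem_univ _)
    have h7 : (Y.y2' (Λ s) * deriv Λ s * Y.y1 (Λ s) - Y.y2 (Λ s) * (Y.y1' (Λ s) * deriv Λ s)) =
        deriv Λ s := by linear_combination (deriv Λ s) * h6
    rwa [h7] at d3
  have hXe : ∀ s ∈ ball s₁ (ε / 2), deriv Λ₁ s * Y.y1 (Λ₀ s) ^ 2 =
      deriv Λ₀ s * Y.y1 (Λ₁ s) ^ 2 := by
    intro s hs
    obtain ⟨⟨⟨a1, a2⟩, a3, a4⟩, a5⟩ := hdat s hs
    have e0 := hX hs (han s hs).1 a1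
    have e1 := hX hs (han s hs).2 a2
    have hev : (fun s => Y.y2 (Λ₁ s) / Y.y1 (Λ₁ s)) =ᶠ[𝓝 s]
        (fun s => Y.y2 (Λ₀ s) / Y.y1 (Λ₀ s)) := by
      filter_upwards [hU.mem_nhds hs] with r hr
      obtain ⟨⟨-, b3, b4⟩, -⟩ := hdat r hr
      rw [← b3, ← b4]
    have e2 := e0.congr_of_eventuallyEq hev
    have e3 := e1.unique e2
    field_simp at e3
    linear_combination e3
  -- the quotient of the squares is constant
  have hw : ∀ {Λ : ℂ → ℂ} {s : ℂ}, AnalyticAt ℂ Λ s →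
      HasDerivAt (fun s => Y.y1 (Λ s) ^ 2) (2 * (Y.y1 (Λ s) * Y.y1' (Λ s)) * deriv Λ s) s := by
    intro Λ s ha
    have d1 : HasDerivAt (fun s => Y.y1 (Λ s)) (Y.y1' (Λ s) * deriv Λ s) s :=
      (hY.d1 (Λ s) (mem_univ _)).comp s ha.differentiableAt.hasDerivAt
    have d2 := d1.fun_pow 2
    convert! d2 using 1
    push_cast
    ring
  have hr : ∀ s ∈ ball s₁ (ε / 2),
      HasDerivAt (fun s => Y.y1 (Λ₁ s) ^ 2 / Y.y1 (Λ₀ s) ^ 2) 0 s := by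
    intro s hs
    obtain ⟨⟨⟨a1, a2⟩, a3, a4⟩, a5⟩ := hdat s hs
    have e1 := (hw (han s hs).2).fun_div (hw (han s hs).1) (pow_ne_zero 2 a1)
    have e2 : (2 * (Y.y1 (Λ₁ s) * Y.y1' (Λ₁ s)) * deriv Λ₁ s * Y.y1 (Λ₀ s) ^ 2 -
        Y.y1 (Λ₁ s) ^ 2 * (2 * (Y.y1 (Λ₀ s) * Y.y1' (Λ₀ s)) * deriv Λ₀ s)) = 0 := by
      rw [← a5]
      linear_combination (2 * (Y.y1 (Λ₀ s) * Y.y1' (Λ₀ s))) * hXe s hs
    rwa [e2, zero_div] at e1
  have hs11 : s₁ ∈ ball s₁ (ε / 2) := mem_ball_self (half_pos hε)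
  have hconst : ∀ s ∈ ball s₁ (ε / 2), Y.y1 (Λ₁ s) ^ 2 / Y.y1 (Λ₀ s) ^ 2 =
      Y.y1 (Λ₁ s₁) ^ 2 / Y.y1 (Λ₀ s₁) ^ 2 := by
    intro s hs
    exact hU.is_const_of_deriv_eq_zero (𝕜 := ℂ) hUc
      (f := fun s => Y.y1 (Λ₁ s) ^ 2 / Y.y1 (Λ₀ s) ^ 2)
      (fun z hz => (hr z hz).differentiableAt.differentiableWithinAt)
      (fun z hz => (hr z hz).deriv) hs hs11
  set A : ℂ := Y.y1 (Λ₁ s₁) ^ 2 / Y.y1 (Λ₀ s₁) ^ 2 with hA
  have hA0 : A ≠ 0 := by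
    obtain ⟨⟨⟨a1, a2⟩, -⟩, -⟩ := hdat s₁ hs11
    rw [hA]
    exact div_ne_zero (pow_ne_zero 2 a2) (pow_ne_zero 2 a1)
  have hdA : ∀ s ∈ ball s₁ (ε / 2), deriv Λ₁ s = A * deriv Λ₀ s := by
    intro s hs
    obtain ⟨⟨⟨a1, a2⟩, -⟩, -⟩ := hdat s hs
    have e1 := hconst s hs
    have e2 := hXe s hs
    have e3 : Y.y1 (Λ₀ s) ^ 2 ≠ 0 := pow_ne_zero 2 a1
    rw [div_eq_iff e3] at e1
    rw [e1] at e2
    have e4 : (deriv Λ₁ s - A * deriv Λ₀ s) * Y.y1 (Λ₀ s) ^ 2 = 0 := by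
      linear_combination e2
    rcases mul_eq_zero.1 e4 with e5 | e5
    · exact sub_eq_zero.1 e5
    · exact absurd e5 e3
  set B : ℂ := Λ₁ s₁ - A * Λ₀ s₁ with hB
  have hdiff : ∀ s ∈ ball s₁ (ε / 2), HasDerivAt (fun s => Λ₁ s - A * Λ₀ s) 0 s := by
    intro s hs
    have e1 := (han s hs).2.differentiableAt.hasDerivAt.fun_sub
      ((han s hs).1.differentiableAt.hasDerivAt.const_mul A)
    rwa [hdA s hs, sub_self] at e1
  have hB1 : ∀ s ∈ ball s₁ (ε / 2), Λ₁ s - A * Λ₀ s = B := by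
    intro s hs
    exact hU.is_const_of_deriv_eq_zero (𝕜 := ℂ) hUc (f := fun s => Λ₁ s - A * Λ₀ s)
      (fun z hz => (hdiff z hz).differentiableAt.differentiableWithinAt)
      (fun z hz => (hdiff z hz).deriv) hs hs11
  -- identity theorem
  have hf1 : AnalyticOnNhd ℂ Λ₁ (ball t₀ ε) := fun s hs => (hball s hs).1.2
  have hf2 : AnalyticOnNhd ℂ (fun s => A * Λ₀ s + B) (ball t₀ ε) := fun s hs =>
    (analyticAt_const.fun_mul (hball s hs).1.1).fun_add analyticAt_const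
  have heq : EqOn Λ₁ (fun s => A * Λ₀ s + B) (ball t₀ ε) := by
    refine hf1.eqOn_of_preconnected_of_eventuallyEq hf2 (convex_ball _ _).isPreconnected hs1m ?_
    filter_upwards [hU.mem_nhds hs11] with s hs
    have := hB1 s hs
    linear_combination this
  have hev : ∀ᶠ s in 𝓝 t₀, Λ₁ s = A * Λ₀ s + B := by
    filter_upwards [isOpen_ball.mem_nhds (mem_ball_self hε)] with s hs
    exact heq hs
  refine ⟨A, B, hA0, hev, ?_⟩
  have htend : Tendsto Λ₀ (𝓝[≠] t₀) (𝓝[≠] (Λ₀ t₀)) :=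
    h0.an.differentiableAt.hasDerivAt.tendsto_nhdsNE hd
  refine htend.frequently (Eventually.frequently ?_)
  filter_upwards [hn0, hn1, h0.x, h1.x, hev.filter_mono nhdsWithin_le_nhds] with s a1 a2 a3 a4 a5
  rw [← a5]
  exact ⟨a1, a2, by rw [← a4, ← a3]⟩

private theorem LbD_Q {Y : Sys} (hY : Y.On univ) : Differentiable ℂ Y.Q := by
  have e1 : Differentiable ℂ Y.y1' := fun z => (hY.d1' z (mem_univ _)).differentiableAt
  have e2 : Differentiable ℂ Y.y2' := fun z => (hY.d2' z (mem_univ _)).differentiableAt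
  have h1 : Y.Q = fun w => -deriv Y.y1' w * Y.y2' w + deriv Y.y2' w * Y.y1' w := by
    funext w
    rw [(hY.d1' w (mem_univ _)).deriv, (hY.d2' w (mem_univ _)).deriv]
    have := hY.wr w (mem_univ _)
    linear_combination (-Y.Q w) * this
  rw [h1]
  have e3 : Differentiable ℂ (deriv Y.y1') := e1.deriv
  have e4 : Differentiable ℂ (deriv Y.y2') := e2.deriv
  exact (e3.neg.mul e2).add (e4.mul e1)

private theorem LbD_bd {Q : ℂ → ℂ} (hd : Continuous Q) (hper : ∀ z, Q (z + 1) = Q z)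
    (y : ℝ) : ∃ M : ℝ, 0 ≤ M ∧ ∀ w : ℂ, |w.im| ≤ y → ‖Q w‖ ≤ M := by
  have hK : IsCompact (Icc (0:ℝ) 1 ×ℂ Icc (-y) y) := isCompact_Icc.reProdIm isCompact_Icc
  obtain ⟨M, hM⟩ := hK.exists_bound_of_continuousOn hd.continuousOn
  refine ⟨max M 0, le_max_right _ _, fun w hw => ?_⟩
  have hp : Function.Periodic Q 1 := hper
  have h1 : Q (w + ((-⌊w.re⌋ : ℤ) : ℂ) * 1) = Q w := hp.int_mul _ w
  rw [← h1]
  refine (hM _ ?_).trans (le_max_left _ _)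
  rw [mem_reProdIm]
  have h2 := abs_le.1 hw
  refine ⟨⟨?_, ?_⟩, ⟨?_, ?_⟩⟩
  · have := Int.floor_le w.re
    simp
    linarith
  · have := Int.lt_floor_add_one w.re
    simp
    linarith
  · simpa using h2.1
  · simpa using h2.2

/-- **The label near the real line is a label of the slice.** `x`: `hF`. `k`: `l = L (s, c₀)`,
`u = L (s + c₀, c₀)`, `v = L (s - c₀, c₀)`; `X (s ± c₀) - X s = s (u, l) / (y1 u y1 l)`, and
`(X (s + c₀) - X s)⁻¹ = y1 l² c (u, l) / s (u, l) + y1 l y1' l` (`y1 u = y1 l c (u, l) + y1' l s (u, l)`), provided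
`s (u, l) ≠ 0`, the same for `v`; `Ent.node` says that the sum of the two quotients `c / s` vanishes.
`s (u, l) ≠ 0`: `‖u - l - c₀‖ ≤ 2 C c₀²` (`Ent.bd`), and `est_sc` (`Q` is bounded by some `M` on
`|Im| ≤ 2`, period one): `‖s (l + x, l) - x‖ ≤ M ‖x‖³`, so for `c₀ < R` small `s (u, l) ≠ 0`. -/
theorem lb_base {Y : Sys} {F : ℂ × ℂ → ℂ} {b C : ℝ} {L : ℂ × ℂ → ℂ} (hL : Ent Y b C L)
    (hF : ∀ p ∈ Bs b, Y.y1 (L p) ≠ 0 ∧ F p = Y.y2 (L p) / Y.y1 (L p)) :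
    ∃ R : ℝ, 0 < R ∧ ∀ c₀ : ℝ, 0 < c₀ → c₀ < R → ∀ X : ℂ → ℂ, (∀ t ∈ St (-b) b, X t = F (t, c₀)) →
      ∀ t : ℂ, |t.im| < b → Lb Y X c₀ (fun t => L (t, c₀)) t := by
  have hY := hL.on
  obtain ⟨M, hM0, hM⟩ := LbD_bd (LbD_Q hY).continuous hL.qper 4
  have hC := hL.C_one
  have hb := hL.b_pos
  have hb1 := hL.b_le
  refine ⟨min b (min (1 / (8 * C)) (1 / (8 * (M + 1)))), ?_, ?_⟩
  · have : 0 < C := by linarith
    positivity
  intro c₀ hc0 hcR X hX t ht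
  have hcb : c₀ < b := hcR.trans_le (min_le_left _ _)
  have hc1 : c₀ < 1 / (8 * C) := hcR.trans_le ((min_le_right _ _).trans (min_le_left _ _))
  have hc2 : c₀ < 1 / (8 * (M + 1)) := hcR.trans_le ((min_le_right _ _).trans (min_le_right _ _))
  have hCpos : 0 < C := by linarith
  rw [lt_div_iff₀ (by positivity)] at hc1 hc2
  -- `hc1 : c₀ * (8 C) < 1`, `hc2 : c₀ * (8 (M + 1)) < 1`
  have hcs : c₀ < 1 / 8 := by nlinarith
  have hcn : ‖(c₀ : ℂ)‖ = c₀ := by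
    rw [Complex.norm_real, Real.norm_eq_abs, abs_of_pos hc0]
  have hmem : ∀ s ∈ St (-b) b, (s, (c₀ : ℂ)) ∈ Bs b := fun s hs =>
    ⟨hs, by rw [mem_ball_zero_iff]; show ‖(c₀ : ℂ)‖ < b; rw [hcn]; exact hcb⟩
  have htS : t ∈ St (-b) b := by
    have := abs_lt.1 ht
    exact ⟨this.1, this.2⟩
  have hSo : IsOpen (St (-b) b) := Pool.Agent.MP_ae5b4e_an_NBT.isOpen_St _ _
  have hSp : ∀ s ∈ St (-b) b, s + (c₀ : ℂ) ∈ St (-b) b := by
    intro s hs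
    have h1 : (s + (c₀ : ℂ)).im = s.im := by simp
    exact ⟨by rw [h1]; exact hs.1, by rw [h1]; exact hs.2⟩
  have hSm : ∀ s ∈ St (-b) b, s - (c₀ : ℂ) ∈ St (-b) b := by
    intro s hs
    have h1 : (s - (c₀ : ℂ)).im = s.im := by simp
    exact ⟨by rw [h1]; exact hs.1, by rw [h1]; exact hs.2⟩
  -- the kernel does not vanish
  have hker : ∀ l x : ℂ, |l.im| ≤ 2 → (‖x - c₀‖ ≤ c₀ / 4 ∨ ‖x + c₀‖ ≤ c₀ / 4) →
      Y.s (l + x) l ≠ 0 := by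
    intro l x hl hx
    have hx1 : 3 / 4 * c₀ ≤ ‖x‖ ∧ ‖x‖ ≤ 5 / 4 * c₀ := by
      rcases hx with hx | hx
      · have h1 : ‖x‖ ≤ ‖x - c₀‖ + ‖(c₀:ℂ)‖ := by
          have := norm_add_le (x - c₀) (c₀:ℂ)
          rwa [sub_add_cancel] at this
        have h2 : ‖(c₀:ℂ)‖ ≤ ‖x - c₀‖ + ‖x‖ := by
          have := norm_sub_le x (x - c₀)
          rw [sub_sub_cancel] at this
          linarith
        rw [hcn] at h1 h2
        exact ⟨by linarith, by linarith⟩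
      · have h1 : ‖x‖ ≤ ‖x + c₀‖ + ‖(c₀:ℂ)‖ := by
          have := norm_sub_le (x + c₀) (c₀:ℂ)
          rwa [add_sub_cancel_right] at this
        have h2 : ‖(c₀:ℂ)‖ ≤ ‖x + c₀‖ + ‖x‖ := by
          have := norm_sub_le (x + c₀) x
          rwa [add_sub_cancel_left] at this
        rw [hcn] at h1 h2
        exact ⟨by linarith, by linarith⟩
    have hQ : ∀ z ∈ ball l 1, ‖Y.Q z‖ ≤ M := by
      intro z hz
      apply hM
      rw [mem_ball, dist_eq_norm] at hz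
      have h1 : |(z - l).im| ≤ ‖z - l‖ := abs_im_le_norm _
      rw [sub_im] at h1
      have h2 : |z.im| ≤ |z.im - l.im| + |l.im| := by
        have := abs_add_le (z.im - l.im) l.im
        rwa [sub_add_cancel] at this
      linarith
    have hOn : Y.On (ball l 1) :=
      ⟨fun z _ => hY.d1 z (mem_univ _), fun z _ => hY.d1' z (mem_univ _),
        fun z _ => hY.d2 z (mem_univ _), fun z _ => hY.d2' z (mem_univ _),
        fun z _ => hY.wr z (mem_univ _)⟩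
    have hx2 : ‖x‖ < 1 := by linarith
    have hxx : ‖x‖ ^ 2 ≤ 2 * c₀ ^ 2 := by nlinarith [norm_nonneg x]
    have hMx : M * ‖x‖ ^ 2 ≤ 1 / 4 := by
      have h3 : M * ‖x‖ ^ 2 ≤ M * (2 * c₀ ^ 2) := mul_le_mul_of_nonneg_left hxx hM0
      have h4 : M * c₀ ≤ 1 / 8 := by nlinarith
      nlinarith
    have h5 := (est_sc hOn hM0 hQ hx2 hMx).2.1
    intro h6
    rw [h6, zero_sub, norm_neg] at h5
    have h7 : 0 < ‖x‖ := by linarith [hx1.1]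
    have h8 : M * ‖x‖ ^ 3 = (M * ‖x‖ ^ 2) * ‖x‖ := by ring
    rw [h8] at h5
    nlinarith
  have hLb : ∀ s ∈ St (-b) b, ‖L (s, (c₀:ℂ)) - s‖ ≤ c₀ / 8 := by
    intro s hs
    have h1 := hL.bd _ (hmem s hs)
    have h2 : ‖((s, (c₀:ℂ)) : ℂ × ℂ).2‖ = c₀ := hcn
    rw [h2] at h1
    refine h1.trans ?_
    nlinarith
  refine ⟨?_, ?_, ?_⟩
  · have h1 : AnalyticAt ℂ (fun t : ℂ => (t, (c₀:ℂ))) t := analyticAt_id.prod analyticAt_const
    exact AnalyticAt.comp (g := L) (f := fun t : ℂ => (t, (c₀:ℂ))) (hL.an _ (hmem t htS)) h1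
  · refine Eventually.filter_mono nhdsWithin_le_nhds ?_
    filter_upwards [hSo.mem_nhds htS] with s hs
    rw [hX s hs]
    exact (hF _ (hmem s hs)).2
  · refine Eventually.filter_mono nhdsWithin_le_nhds ?_
    filter_upwards [hSo.mem_nhds htS] with s hs
    have hp := hSp s hs
    have hm := hSm s hs
    obtain ⟨n0, f0⟩ := hF _ (hmem s hs)
    obtain ⟨n1, f1⟩ := hF _ (hmem _ hp)
    obtain ⟨n2, f2⟩ := hF _ (hmem _ hm)
    have hnode := hL.node s c₀ (hmem s hs) (hmem _ hp) (hmem _ hm)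
    rw [hX s hs, hX _ hp, hX _ hm, f0, f1, f2]
    have b0 := hLb s hs
    have b1 := hLb _ hp
    have b2 := hLb _ hm
    set l := L (s, (c₀:ℂ)) with hl
    set u := L (s + c₀, (c₀:ℂ)) with hu
    set v := L (s - c₀, (c₀:ℂ)) with hv
    have hlim : |l.im| ≤ 2 := by
      have h1 : |(l - s).im| ≤ ‖l - s‖ := abs_im_le_norm _
      rw [sub_im] at h1
      have h2 : |l.im| ≤ |l.im - s.im| + |s.im| := by
        have := abs_add_le (l.im - s.im) s.im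
        rwa [sub_add_cancel] at this
      have h3 : |s.im| ≤ b := abs_le.2 ⟨hs.1.le, hs.2.le⟩
      linarith
    have k1 : Y.s u l ≠ 0 := by
      have h1 := hker l (u - l) hlim (Or.inl (by
        have h2 : u - l - c₀ = (u - (s + c₀)) - (l - s) := by ring
        rw [h2]
        refine (norm_sub_le _ _).trans ?_
        linarith))
      rwa [add_sub_cancel] at h1
    have k2 : Y.s v l ≠ 0 := by
      have h1 := hker l (v - l) hlim (Or.inr (by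
        have h2 : v - l + c₀ = (v - (s - c₀)) - (l - s) := by ring
        rw [h2]
        refine (norm_sub_le _ _).trans ?_
        linarith))
      rwa [add_sub_cancel] at h1
    have hwr := hY.wr l (mem_univ _)
    have key : ∀ u : ℂ, Y.y1 u ≠ 0 → Y.s u l ≠ 0 →
        (Y.y2 u / Y.y1 u - Y.y2 l / Y.y1 l)⁻¹ =
          Y.y1 l ^ 2 * (Y.c u l / Y.s u l) + Y.y1' l * Y.y1 l := by
      intro u hu hs
      have h1 : Y.y2 u / Y.y1 u - Y.y2 l / Y.y1 l = Y.s u l / (Y.y1 u * Y.y1 l) := by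
        unfold Sys.s
        field_simp
      rw [h1, inv_div]
      have h2 : Y.y1 u = Y.y1 l * Y.c u l + Y.y1' l * Y.s u l := by
        unfold Sys.s Sys.c
        linear_combination (-Y.y1 u) * hwr
      rw [div_eq_iff hs]
      have h3 : (Y.y1 l ^ 2 * (Y.c u l / Y.s u l) + Y.y1' l * Y.y1 l) * Y.s u l =
          Y.y1 l ^ 2 * Y.c u l + Y.y1' l * Y.y1 l * Y.s u l := by
        field_simp
      rw [h3]
      linear_combination (Y.y1 l) * h2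
    rw [key u n1 k1, key v n2 k2]
    have h4 : Y.c u l / Y.s u l + Y.c v l / Y.s v l = 0 := by
      have h5 : Y.c u l * Y.s v l + Y.c v l * Y.s u l = 0 := hnode
      field_simp
      linear_combination h5
    linear_combination (Y.y1 l ^ 2) * h4

end Pool.Agent.MP_ae5b4e_an_NB5
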