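import Pool.Agent.Lib.MP_ae5b4e_an_NB5.CsD
import Pool.Agent.Lib.MP_ae5b4e_an_NB5.LbD
import Pool.Agent.Lib.MP_ae5b4e_an_NB5.Hor

/-!
# MP_ae5b4e_an, project NB_5(A): the labels of the slice in the window
-/

noncomputable section

namespace Pool.Agent.MP_ae5b4e_an_NB5

open Complex Set Filter Topology Metric
open Pool.Agent.MP_ae5b4e_an_NBT (St)
open Pool.Agent.MP_ae5b4e_an_NB2 (Sys)
open scoped ComplexConjugate

theorem Lb.congr {Y : Sys} {X Λ Λ' : ℂ → ℂ} {c₀ : ℝ} {t : ℂ} (h : Lb Y X c₀ Λ t)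
    (he : Λ' =ᶠ[𝓝 t] Λ) : Lb Y X c₀ Λ' t := by
  refine ⟨h.an.congr he.symm, ?_, ?_⟩
  · filter_upwards [h.x, he.filter_mono nhdsWithin_le_nhds] with s h1 h2
    rw [h2, h1]
  · filter_upwards [h.k, he.filter_mono nhdsWithin_le_nhds] with s h1 h2
    rw [h2, h1]

theorem convex_Sv (δ₂ k₀ v₀ : ℝ) : Convex ℝ (Sv δ₂ k₀ v₀) := by
  have h1 : Sv δ₂ k₀ v₀ = (re ⁻¹' Ioo (-δ₂) δ₂) ∩ (im ⁻¹' Ioo (-k₀) (v₀ + δ₂)) := by
    ext u
    simp [Sv, abs_lt]
  rw [h1]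
  exact ((convex_Ioo _ _).is_linear_preimage (f := re) ⟨fun _ _ => rfl, by simp⟩).inter
    ((convex_Ioo _ _).is_linear_preimage (f := im) ⟨fun _ _ => rfl, by simp⟩)

theorem isOpen_Sv (δ₂ k₀ v₀ : ℝ) : IsOpen (Sv δ₂ k₀ v₀) := by
  have h1 : Sv δ₂ k₀ v₀ = (re ⁻¹' Ioo (-δ₂) δ₂) ∩ (im ⁻¹' Ioo (-k₀) (v₀ + δ₂)) := by
    ext u
    simp [Sv, abs_lt]
  rw [h1]
  exact (isOpen_Ioo.preimage continuous_re).inter (isOpen_Ioo.preimage continuous_im)

theorem convex_Sh (δ₂ v₀ σ : ℝ) : Convex ℝ (Sh δ₂ v₀ σ) := by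
  have h1 : Sh δ₂ v₀ σ = ((fun u : ℂ => σ * u.re) ⁻¹' Ioo (-(δ₂ / 2)) 4) ∩
      (im ⁻¹' Ioo (v₀ - δ₂ / 2) (v₀ + δ₂ / 2)) := by
    ext u
    simp only [Sh, abs_lt, mem_ofPred_eq, mem_inter_iff, mem_preimage, mem_Ioo]
    constructor
    · rintro ⟨h1, h2, h3, h4⟩
      exact ⟨⟨h1, h2⟩, by linarith, by linarith⟩
    · rintro ⟨⟨h1, h2⟩, h3, h4⟩
      exact ⟨h1, h2, by linarith, by linarith⟩
  rw [h1]
  exact ((convex_Ioo _ _).is_linear_preimage (f := fun u : ℂ => σ * u.re)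
    ⟨fun x y => by simp [mul_add], fun c x => by simp; ring⟩).inter
    ((convex_Ioo _ _).is_linear_preimage (f := im) ⟨fun _ _ => rfl, by simp⟩)

theorem isOpen_Sh (δ₂ v₀ σ : ℝ) : IsOpen (Sh δ₂ v₀ σ) := by
  have h1 : Sh δ₂ v₀ σ = ((fun u : ℂ => σ * u.re) ⁻¹' Ioo (-(δ₂ / 2)) 4) ∩
      (im ⁻¹' Ioo (v₀ - δ₂ / 2) (v₀ + δ₂ / 2)) := by
    ext u
    simp only [Sh, abs_lt, mem_ofPred_eq, mem_inter_iff, mem_preimage, mem_Ioo]
    constructor
    · rintro ⟨h1, h2, h3, h4⟩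
      exact ⟨⟨h1, h2⟩, by linarith, by linarith⟩
    · rintro ⟨⟨h1, h2⟩, h3, h4⟩
      exact ⟨h1, h2, by linarith, by linarith⟩
  rw [h1]
  exact (isOpen_Ioo.preimage (by fun_prop)).inter (isOpen_Ioo.preimage continuous_im)

/-- preimages under the affine map -/
theorem convex_aff {N : ℝ} {l : ℂ} {a : ℝ} {S : Set ℂ} (hS : Convex ℝ S) :
    Convex ℝ {t : ℂ | N * (t - l) - a ∈ S} := by
  intro x hx y hy p q hp hq hpq
  have h1 := hS hx hy hp hq hpq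
  have h2 : N * ((p • x + q • y) - l) - a = p • (N * (x - l) - a) + q • (N * (y - l) - a) := by
    have h3 : (p:ℂ) + q = 1 := by exact_mod_cast hpq
    simp only [real_smul]
    linear_combination (N * l + a) * h3
  show N * ((p • x + q • y) - l) - a ∈ S
  rw [h2]
  exact h1

/-- the labels of the slice in the window with the centre `l + a / N` -/
theorem lb_win {Y : Sys} (hY : Y.On univ) {X : ℂ → ℂ} {c₀ N : ℝ} {l : ℂ} {M : ℂ × ℂ → ℂ}
    (hN : 0 < N) {y₁ c : ℝ} (hX : ∀ t ∈ St (-c) y₁, MeromorphicAt X t)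
    {κ v₀ y₀ α₀ δ₂ ν k₀ k a : ℝ} (hC : Cs κ v₀ y₀ α₀ δ₂ ν k₀) {z zt : ℂ × ℂ → ℂ}
    (hz : ∀ p, z p = N * (M (l + (p.1 + a) / N, c₀ * p.2) - l) - a)
    (hT : TL κ v₀ y₀ α₀ δ₂ ν k₀ k z zt) (hk : k₀ + |v₀| + 4 ≤ k)
    (hy : y₁ = l.im + (v₀ + δ₂) / N) (hlow : -c < l.im - k₀ / N)
    (h1 : Lb Y X c₀ (fun t => M (t, c₀)) (l + (a - (k₀ - 1 / 2) * I) / N))
    {σ : ℝ} (hσ : σ = 1 ∨ σ = -1) {zh : ℂ → ℂ} (hzh : AnalyticOnNhd ℂ zh (Sh δ₂ v₀ σ))
    (hzt : ∀ u ∈ Sh δ₂ v₀ σ, σ * u.re < δ₂ / 2 → zh u = zt (u, 1)) :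
    ∀ t : ℂ, N * (t - l) - a ∈ Sh δ₂ v₀ σ →
      Lb Y X c₀ (fun t => l + (a + zh (N * (t - l) - a)) / N) t := by
  have hNc : (N:ℂ) ≠ 0 := by exact_mod_cast hN.ne'
  have hd := hC.d_pos
  have hk4 := hC.k_one
  have hkv := hC.k_ge
  have him : ∀ t : ℂ, (N * (t - l) - a).im = N * (t.im - l.im) := by
    intro t
    simp
  have hlift : ∀ u : ℂ, N * (l + (a + u) / N - l) - a = u := by
    intro u
    field_simp
    ring
  -- heights
  have hh : ∀ t : ℂ, -k₀ < (N * (t - l) - a).im → (N * (t - l) - a).im < v₀ + δ₂ →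
      -c < t.im ∧ t.im < y₁ := by
    intro t h2 h3
    rw [him] at h2 h3
    constructor
    · have : -(k₀ / N) < t.im - l.im := by
        rw [← neg_div, div_lt_iff₀ hN]
        linarith
      linarith
    · rw [hy]
      have : t.im - l.im < (v₀ + δ₂) / N := by
        rw [lt_div_iff₀ hN]
        linarith
      linarith
  have hmer : ∀ t : ℂ, -k₀ < (N * (t - l) - a).im → (N * (t - l) - a).im < v₀ + δ₂ →
      MeromorphicAt X t ∧ MeromorphicAt X (t + c₀) ∧ MeromorphicAt X (t - c₀) := by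
    intro t h2 h3
    obtain ⟨h4, h5⟩ := hh t h2 h3
    refine ⟨hX t ⟨h4, h5⟩, hX _ ?_, hX _ ?_⟩
    · show -c < (t + c₀).im ∧ (t + c₀).im < y₁
      rw [add_im, ofReal_im, add_zero]
      exact ⟨h4, h5⟩
    · show -c < (t - c₀).im ∧ (t - c₀).im < y₁
      rw [sub_im, ofReal_im, sub_zero]
      exact ⟨h4, h5⟩
  have hcont : Continuous fun t : ℂ => (N:ℂ) * (t - l) - a := by fun_prop
  have hanaff : ∀ t : ℂ, AnalyticAt ℂ (fun t : ℂ => (N:ℂ) * (t - l) - a) t := by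
    intro t
    fun_prop
  -- the thin strip
  set D₁ : Set ℂ := {t : ℂ | N * (t - l) - a ∈ Sv δ₂ k₀ v₀} with hD₁
  have hD₁o : IsOpen D₁ := (isOpen_Sv _ _ _).preimage hcont
  have hD₁c : IsPreconnected D₁ := (convex_aff (convex_Sv _ _ _)).isPreconnected
  have h1mem : (1:ℂ) ∈ ball (1:ℂ) ν := mem_ball_self hC.ν_pos
  have hΛ₁ : AnalyticOnNhd ℂ (fun t => l + (a + zt (N * (t - l) - a, 1)) / N) D₁ := by
    intro t ht
    have h2 : AnalyticAt ℂ zt (N * (t - l) - a, 1) := hT.an _ ⟨ht, h1mem⟩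
    have h3 : AnalyticAt ℂ (fun t : ℂ => ((N:ℂ) * (t - l) - a, (1:ℂ))) t :=
      (hanaff t).prod analyticAt_const
    have h4 : AnalyticAt ℂ (fun t : ℂ => zt ((N:ℂ) * (t - l) - a, (1:ℂ))) t :=
      AnalyticAt.fun_comp (g := zt) (f := fun t : ℂ => ((N:ℂ) * (t - l) - a, (1:ℂ))) h2 h3
    exact analyticAt_const.add ((analyticAt_const.add h4).mul analyticAt_const)
  set t₁ : ℂ := l + (a - (k₀ - 1 / 2) * I) / N with ht₁
  have hu₁ : N * (t₁ - l) - a = -((k₀ - 1 / 2) * I) := by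
    rw [ht₁, show (a:ℂ) - (k₀ - 1 / 2) * I = a + -((k₀ - 1 / 2) * I) by ring]
    exact hlift _
  have hu₁re : (-(((k₀:ℂ) - 1 / 2) * I)).re = 0 := by simp
  have hu₁im : (-(((k₀:ℂ) - 1 / 2) * I)).im = -(k₀ - 1 / 2) := by simp
  have ht₁D : t₁ ∈ D₁ := by
    show N * (t₁ - l) - a ∈ Sv δ₂ k₀ v₀
    rw [hu₁]
    refine ⟨by rw [hu₁re]; simpa using hd, by rw [hu₁im]; linarith, by rw [hu₁im]; linarith⟩
  have hκ : 0 < κ := by
    have h2 := hC.low
    have h3 := Real.exp_pos (k₀ - 1)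
    by_contra h4
    push Not at h4
    have := mul_nonpos_of_nonpos_of_nonneg h4 h3.le
    linarith
  have hLb₁ : ∀ t ∈ D₁, Lb Y X c₀ (fun t => l + (a + zt (N * (t - l) - a, 1)) / N) t := by
    refine lb_ext hY hD₁o hD₁c hΛ₁ (fun t ht => hmer t ht.2.1 ht.2.2) ht₁D (h1.congr ?_)
    have hW : IsOpen ({t : ℂ | ‖N * (t - l) - a‖ < k} ∩
        {t : ℂ | Real.exp (N * (t - l) - a).im < κ}) := by
      refine (isOpen_lt hcont.norm continuous_const).inter (isOpen_lt ?_ continuous_const)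
      exact Real.continuous_exp.comp (continuous_im.comp hcont)
    have ht₁W : t₁ ∈ ({t : ℂ | ‖N * (t - l) - a‖ < k} ∩
        {t : ℂ | Real.exp (N * (t - l) - a).im < κ}) := by
      show ‖N * (t₁ - l) - a‖ < k ∧ Real.exp (N * (t₁ - l) - a).im < κ
      rw [hu₁, hu₁im]
      constructor
      · rw [norm_neg, norm_mul, norm_I, mul_one]
        have : ((k₀:ℂ) - 1 / 2) = ((k₀ - 1 / 2 : ℝ) : ℂ) := by push_cast; ring
        rw [this, norm_real, Real.norm_of_nonneg (by linarith)]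
        have := abs_nonneg v₀
        linarith
      · have h2 := hC.low
        have h3 : Real.exp (-(k₀ - 1 / 2)) * Real.exp (k₀ - 1) = Real.exp (-(1 / 2)) := by
          rw [← Real.exp_add]
          congr 1
          ring
        have h4 : Real.exp (-(1 / 2 : ℝ)) < 1 := by
          have := Real.exp_lt_exp.2 (show (-(1 / 2 : ℝ)) < 0 by norm_num)
          rwa [Real.exp_zero] at this
        have h5 := Real.exp_pos (k₀ - 1)
        by_contra h6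
        push Not at h6
        have h7 := mul_le_mul_of_nonneg_right h6 h5.le
        linarith
    filter_upwards [hW.mem_nhds ht₁W, hD₁o.mem_nhds ht₁D] with t h2 h3
    have h4 := hT.eq (N * (t - l) - a, 1) ⟨h3, h1mem⟩ ⟨h2.1, by
      show ‖(1:ℂ)‖ < k
      rw [norm_one]
      have := abs_nonneg v₀
      linarith, by
      show ‖(1:ℂ)‖ ^ 2 * _ < κ
      rw [norm_one, one_pow, one_mul]
      exact h2.2⟩
    show l + (a + zt (N * (t - l) - a, 1)) / N = M (t, c₀)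
    rw [h4, hz]
    have h5 : l + (N * (t - l) - a + a) / N = t := by
      field_simp
      ring
    show l + (a + (N * (M (l + (N * (t - l) - a + a) / N, c₀ * 1) - l) - a)) / N = M (t, c₀)
    rw [h5, mul_one]
    field_simp
    ring
  -- the horizontal region
  set D₂ : Set ℂ := {t : ℂ | N * (t - l) - a ∈ Sh δ₂ v₀ σ} with hD₂
  have hD₂o : IsOpen D₂ := (isOpen_Sh _ _ _).preimage hcont
  have hD₂c : IsPreconnected D₂ := (convex_aff (convex_Sh _ _ _)).isPreconnected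
  have hΛ₂ : AnalyticOnNhd ℂ (fun t => l + (a + zh (N * (t - l) - a)) / N) D₂ := by
    intro t ht
    have h4 : AnalyticAt ℂ (fun t : ℂ => zh ((N:ℂ) * (t - l) - a)) t :=
      AnalyticAt.fun_comp (g := zh) (f := fun t : ℂ => (N:ℂ) * (t - l) - a) (hzh _ ht) (hanaff t)
    exact analyticAt_const.add ((analyticAt_const.add h4).mul analyticAt_const)
  set t₂ : ℂ := l + (a + v₀ * I) / N with ht₂
  have hu₂ : N * (t₂ - l) - a = v₀ * I := hlift _
  have hu₂re : ((v₀:ℂ) * I).re = 0 := by simp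
  have hu₂im : ((v₀:ℂ) * I).im = v₀ := by simp
  have ht₂D : t₂ ∈ D₂ := by
    show N * (t₂ - l) - a ∈ Sh δ₂ v₀ σ
    rw [hu₂]
    refine ⟨by rw [hu₂re]; linarith, by rw [hu₂re]; norm_num, by rw [hu₂im]; simpa using hd⟩
  have ht₂D₁ : t₂ ∈ D₁ := by
    show N * (t₂ - l) - a ∈ Sv δ₂ k₀ v₀
    rw [hu₂]
    refine ⟨by rw [hu₂re]; simpa using hd, by rw [hu₂im]; linarith, by rw [hu₂im]; linarith⟩
  refine lb_ext hY hD₂o hD₂c hΛ₂ (fun t ht => ?_) ht₂D ((hLb₁ t₂ ht₂D₁).congr ?_)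
  · have h3 := abs_lt.1 ht.2.2
    have h4 := hC.d_le
    exact hmer t (by linarith) (by linarith)
  · have hW : IsOpen {t : ℂ | σ * (N * (t - l) - a).re < δ₂ / 2} := by
      refine isOpen_lt ?_ continuous_const
      exact continuous_const.mul (continuous_re.comp hcont)
    have ht₂W : t₂ ∈ {t : ℂ | σ * (N * (t - l) - a).re < δ₂ / 2} := by
      show σ * (N * (t₂ - l) - a).re < δ₂ / 2
      rw [hu₂, hu₂re]
      linarith
    filter_upwards [hW.mem_nhds ht₂W, hD₂o.mem_nhds ht₂D] with t h2 h3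
    show l + (a + zh (N * (t - l) - a)) / N = l + (a + zt (N * (t - l) - a, 1)) / N
    rw [hzt _ h3 h2]

end Pool.Agent.MP_ae5b4e_an_NB5
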