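import Pool.Agent.Lib.MP_ae5b4e_an_NB5.Defs

/-!
# MP_ae5b4e_an, project NB_5(A): the label in a window
-/

noncomputable section

namespace Pool.Agent.MP_ae5b4e_an_NB5

open Complex Set Filter Topology Metric
open Pool.Agent.MP_ae5b4e_an_NBT (St)
open Pool.Agent.MP_ae5b4e_an_NB2 (Sys)
open scoped ComplexConjugate

/-- the kernels of the rescaled system: `s (l + u / N, l + v / N) * N`, `c` unchanged, and the node
relation; `Real.sqrt N * Real.sqrt N = N` -/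
theorem scN_node {Y : Sys} {l : ℂ} {N : ℝ} (hN : 0 < N) (x u v : ℂ) :
    (scN Y l N).node x u v ↔ Y.node (l + x / N) (l + u / N) (l + v / N) := by
  have hr : (Real.sqrt N : ℂ) ≠ 0 := ofReal_ne_zero.2 (Real.sqrt_pos.2 hN).ne'
  have hr2 : (Real.sqrt N : ℂ) * (Real.sqrt N : ℂ) = N := by
    rw [← ofReal_mul, Real.mul_self_sqrt hN.le]
  have hN' : (N : ℂ) ≠ 0 := ofReal_ne_zero.2 hN.ne'
  have hs : ∀ a b : ℂ, (scN Y l N).s a b = N * Y.s (l + a / N) (l + b / N) := by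
    intro a b
    unfold Sys.s scN
    rw [← hr2]
    ring
  have hc : ∀ a b : ℂ, (scN Y l N).c a b = Y.c (l + a / N) (l + b / N) := by
    intro a b
    unfold Sys.c scN
    field_simp
  unfold Sys.node
  rw [hs, hs, hc, hc]
  have h1 : Y.c (l + u / N) (l + x / N) * (N * Y.s (l + v / N) (l + x / N)) +
      Y.c (l + v / N) (l + x / N) * (N * Y.s (l + u / N) (l + x / N)) =
      N * (Y.c (l + u / N) (l + x / N) * Y.s (l + v / N) (l + x / N) +
        Y.c (l + v / N) (l + x / N) * Y.s (l + u / N) (l + x / N)) := by ring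
  rw [h1, mul_eq_zero]
  exact ⟨fun h => h.resolve_left hN', Or.inr⟩

theorem scN_on {Y : Sys} {l : ℂ} {N : ℝ} (hN : 0 < N) (hY : Y.On univ) (S : Set ℂ) :
    (scN Y l N).On S := by
  have hr : (Real.sqrt N : ℂ) ≠ 0 := ofReal_ne_zero.2 (Real.sqrt_pos.2 hN).ne'
  have hr2 : (Real.sqrt N : ℂ) * (Real.sqrt N : ℂ) = N := by
    rw [← ofReal_mul, Real.mul_self_sqrt hN.le]
  have hN' : (N : ℂ) ≠ 0 := ofReal_ne_zero.2 hN.ne'
  have hl : ∀ z : ℂ, HasDerivAt (fun z : ℂ => l + z / N) (1 / (N : ℂ)) z := by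
    intro z
    exact ((hasDerivAt_id z).div_const (N : ℂ)).const_add l
  refine ⟨?_, ?_, ?_, ?_, ?_⟩
  · intro z _
    have h1 := ((hY.d1 (l + z / N) (mem_univ _)).comp z (hl z)).const_mul (Real.sqrt N : ℂ)
    refine h1.congr_deriv ?_
    change (Real.sqrt N : ℂ) * (Y.y1' (l + z / N) * (1 / (N : ℂ))) =
      Y.y1' (l + z / N) / (Real.sqrt N : ℂ)
    rw [← hr2]
    field_simp
  · intro z _
    have h1 := ((hY.d1' (l + z / N) (mem_univ _)).comp z (hl z)).div_const (Real.sqrt N : ℂ)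
    refine h1.congr_deriv ?_
    change -(Y.Q (l + z / N) * Y.y1 (l + z / N)) * (1 / (N : ℂ)) / (Real.sqrt N : ℂ) =
      -(Y.Q (l + z / N) / (N : ℂ) ^ 2 * ((Real.sqrt N : ℂ) * Y.y1 (l + z / N)))
    rw [← hr2]
    field_simp
  · intro z _
    have h1 := ((hY.d2 (l + z / N) (mem_univ _)).comp z (hl z)).const_mul (Real.sqrt N : ℂ)
    refine h1.congr_deriv ?_
    change (Real.sqrt N : ℂ) * (Y.y2' (l + z / N) * (1 / (N : ℂ))) =
      Y.y2' (l + z / N) / (Real.sqrt N : ℂ)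
    rw [← hr2]
    field_simp
  · intro z _
    have h1 := ((hY.d2' (l + z / N) (mem_univ _)).comp z (hl z)).div_const (Real.sqrt N : ℂ)
    refine h1.congr_deriv ?_
    change -(Y.Q (l + z / N) * Y.y2 (l + z / N)) * (1 / (N : ℂ)) / (Real.sqrt N : ℂ) =
      -(Y.Q (l + z / N) / (N : ℂ) ^ 2 * ((Real.sqrt N : ℂ) * Y.y2 (l + z / N)))
    rw [← hr2]
    field_simp
  · intro z _
    have h1 := hY.wr (l + z / N) (mem_univ _)
    change (Real.sqrt N : ℂ) * Y.y1 (l + z / N) * (Y.y2' (l + z / N) / (Real.sqrt N : ℂ)) -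
      Y.y1' (l + z / N) / (Real.sqrt N : ℂ) * ((Real.sqrt N : ℂ) * Y.y2 (l + z / N)) = 1
    rw [← h1]
    field_simp

private theorem wlx_exp {B : ℕ} {k y : ℝ} (hk : 1 ≤ k) (hB : 4 * (2 * k) ^ 2 ≤ B) (hy : |y| ≤ k) :
    Real.exp (-y) / 2 ≤ (1 - y / B) ^ B := by
  have hB0 : (0:ℝ) < B := by nlinarith
  obtain ⟨x, hx⟩ : ∃ x : ℝ, x = y / B := ⟨_, rfl⟩
  have hy2 : y ^ 2 ≤ k ^ 2 := sq_le_sq' (by linarith [neg_abs_le y]) (by linarith [le_abs_self y])
  have hBx : B * x = y := by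
    rw [hx]
    field_simp
  have hx1 : x ≤ 1 / 2 := by
    rw [hx, div_le_iff₀ hB0]
    nlinarith [le_abs_self y]
  have h1x : 0 < 1 - x := by linarith
  have hlog : -x - 2 * x ^ 2 ≤ Real.log (1 - x) := by
    refine le_trans ?_ (Real.one_sub_inv_le_log_of_pos h1x)
    have h1 : 1 - (1 - x)⁻¹ = -x / (1 - x) := by
      field_simp
      ring
    rw [h1, le_div_iff₀ h1x]
    nlinarith [mul_nonneg (sq_nonneg x) (by linarith : 0 ≤ 1 - 2 * x)]
  have h2 : Real.exp (-x - 2 * x ^ 2) ≤ 1 - x := by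
    rw [← Real.exp_log h1x]
    exact Real.exp_le_exp.2 hlog
  have h3 : Real.exp (-x - 2 * x ^ 2) ^ B ≤ (1 - x) ^ B :=
    pow_le_pow_left₀ (Real.exp_pos _).le h2 B
  rw [← Real.exp_nat_mul] at h3
  have h4 : (B:ℝ) * (-x - 2 * x ^ 2) = -y + -(2 * (y * x)) := by
    rw [← hBx]
    ring
  rw [h4, Real.exp_add] at h3
  have h5 : y * x ≤ 1 / 16 := by
    rw [hx, ← mul_div_assoc, div_le_iff₀ hB0]
    nlinarith
  have h6 : (1:ℝ) / 2 ≤ Real.exp (-(2 * (y * x))) := by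
    have := Real.add_one_le_exp (-(2 * (y * x)))
    linarith
  rw [← hx]
  refine le_trans ?_ h3
  rw [div_eq_mul_one_div]
  exact mul_le_mul_of_nonneg_left h6 (Real.exp_pos _).le

private theorem wlx_Q {Y : Sys} (hY : Y.On univ) : Differentiable ℂ Y.Q := by
  have e1 : Differentiable ℂ Y.y1' := fun z => (hY.d1' z (mem_univ _)).differentiableAt
  have e2 : Differentiable ℂ Y.y2' := fun z => (hY.d2' z (mem_univ _)).differentiableAt
  have h1 : Y.Q = fun w => -deriv Y.y1' w * Y.y2' w + deriv Y.y2' w * Y.y1' w := by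
    funext w
    rw [(hY.d1' w (mem_univ _)).deriv, (hY.d2' w (mem_univ _)).deriv]
    have := hY.wr w (mem_univ _)
    linear_combination (-Y.Q w) * this
  rw [h1]
  have e3 : Differentiable ℂ (deriv Y.y1') := e1.deriv
  have e4 : Differentiable ℂ (deriv Y.y2') := e2.deriv
  exact (e3.neg.mul e2).add (e4.mul e1)

/-- **The label in a window.** `D = H - Im l`, `N = B / D`, `A c² = D ^ B`. For `‖u‖ < k` (even
`‖u‖ < 2 k`) the point `l + u / N` has `0 < Im` (`‖u‖ / N ≤ 2 k D / B < H / 2`) and depth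
`D (1 - Im u / B) > 0`; the Wd condition `4 (2 k)² ≤ B` gives `(1 - y / B) ^ B ≥ exp (- y) / 2` for
`|y| ≤ k` (`log (1 - x) ≥ - x - x²` for `|x| ≤ 1/2`). So `(u, γ) ∈ Wz k (κ/2)` implies
`(l + u / N, c γ) ∈ Zn κ B H A`: `‖c γ‖² A = ‖γ‖² D ^ B < (κ/2) exp (- Im u) D ^ B ≤ κ (D (1 - Im u / B)) ^ B`.
`node`: `scN_node`, `l + (u ± c N γ) / N = (l + u / N) ± c γ`. `bd`: `N * 400 * D (1 - Im u / B) / B ≤ 800`.
`WS`: `scN_on`, `app` of `Wd` for `‖x‖ ≤ 2 k`; `q` analytic because `Y.Q` is entire (BS/Fin.lean Q_diff,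
copy the proof from WinX.lean). -/
theorem wl_of_wd {Y : Sys} {b C : ℝ} {L : ℂ × ℂ → ℂ} (hE : Ent Y b C L) {B : ℕ} {H A : ℝ} {l : ℂ}
    {c N k δ κ : ℝ} (hW : Wd Y B H A l c N (2 * k) δ) {M : ℂ × ℂ → ℂ}
    (hM : ZL Y b L κ 400 B H A M) (hk : 800 ≤ k) :
    WL (scN Y l N) (fun x => (c:ℂ) ^ 2 * Y.Q (l + x / N)) (c * N) k δ (κ / 2) 800
      (fun p => N * (M (l + p.1 / N, c * p.2) - l)) := by
  obtain ⟨D, hD⟩ : ∃ D : ℝ, D = H - l.im := ⟨_, rfl⟩
  have hD0 : 0 < D := by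
    rw [hD]
    linarith [hW.im']
  have hDH : D < H / 2 := by
    rw [hD]
    linarith [hW.im]
  have hkB := hW.k_le
  have hB0 : (0:ℝ) < B := by nlinarith
  have hkB' : k ≤ B / 2 := by nlinarith
  have hNe : N = B / D := by rw [hD, hW.N_eq]
  have hN : 0 < N := by
    rw [hNe]
    positivity
  have hN' : (N : ℂ) ≠ 0 := ofReal_ne_zero.2 hN.ne'
  have hc := hW.c_pos
  have hinv : 1 / N = D / B := by
    rw [hNe]
    field_simp
  have him : ∀ u : ℂ, (l + u / N).im = l.im + u.im / N := by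
    intro u
    rw [add_im, div_ofReal_im]
  have hyN : ∀ y : ℝ, y / N = y * D / B := by
    intro y
    rw [hNe]
    field_simp
  have hdep : ∀ u : ℂ, H - (l + u / N).im = D * (1 - u.im / B) := by
    intro u
    rw [him, hyN, hD]
    field_simp
    ring
  have habs : ∀ u : ℂ, ‖u‖ < k → |u.im| < k := fun u hu => (abs_im_le_norm u).trans_lt hu
  have hpt : ∀ u : ℂ, ‖u‖ < k → 0 < (l + u / N).im ∧ (l + u / N).im < H ∧
      0 < 1 - u.im / B ∧ 1 - u.im / B ≤ 2 := by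
    intro u hu
    have h1 := habs u hu
    have h2 := abs_lt.1 h1
    have h3 : u.im / B < 1 := by
      rw [div_lt_one hB0]
      linarith
    have h4 : -1 ≤ u.im / B := by
      rw [le_div_iff₀ hB0]
      linarith
    have h5 := hdep u
    have h6 : 0 < D * (1 - u.im / B) := mul_pos hD0 (by linarith)
    have h7 : D * (1 - u.im / B) ≤ 2 * D := by nlinarith
    refine ⟨?_, by linarith, by linarith, by linarith⟩
    linarith
  have hzn : ∀ p : ℂ × ℂ, p ∈ Wz k (κ / 2) → (l + p.1 / N, (c:ℂ) * p.2) ∈ Zn κ B H A := by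
    rintro ⟨u, γ⟩ ⟨h1, h2, h3⟩
    simp only at h1 h2 h3
    obtain ⟨h4, h5, h6, -⟩ := hpt u h1
    refine ⟨h4, h5, ?_⟩
    change ‖(c:ℂ) * γ‖ ^ 2 * A < κ * (H - (l + u / N).im) ^ B
    have hκ : 0 < κ := by
      have : 0 ≤ ‖γ‖ ^ 2 * Real.exp u.im := by positivity
      linarith
    have h7 := wlx_exp (by linarith : (1:ℝ) ≤ k) hkB (habs u h1).le
    have hDB : 0 < D ^ B := pow_pos hD0 B
    have h8 : ‖(c:ℂ) * γ‖ ^ 2 * A = ‖γ‖ ^ 2 * D ^ B := by
      rw [norm_mul, norm_real, Real.norm_of_nonneg hc.le, mul_pow]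
      have h9 := hW.Ac
      rw [← hD] at h9
      rw [← h9]
      ring
    rw [h8, hdep, mul_pow]
    have h9 : ‖γ‖ ^ 2 < κ / 2 * Real.exp (-u.im) := by
      rw [Real.exp_neg, ← div_eq_mul_inv, lt_div_iff₀ (Real.exp_pos _)]
      exact h3
    have h10 : κ / 2 * Real.exp (-u.im) ≤ κ * (1 - u.im / B) ^ B := by
      have := mul_le_mul_of_nonneg_left h7 hκ.le
      linarith
    have h11 := mul_lt_mul_of_pos_right (lt_of_lt_of_le h9 h10) hDB
    calc ‖γ‖ ^ 2 * D ^ B < κ * (1 - u.im / B) ^ B * D ^ B := h11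
      _ = κ * (D ^ B * (1 - u.im / B) ^ B) := by ring
  refine ⟨⟨by linarith, mul_pos hc hN, hW.cN, scN_on hN hE.on _, ?_, ?_, ?_⟩, hk, ?_, ?_, ?_, ?_,
    ?_⟩
  · intro x _
    change Y.Q (l + x / N) / (N:ℂ) ^ 2 * ((c * N : ℝ) : ℂ) ^ 2 = (c:ℂ) ^ 2 * Y.Q (l + x / N)
    rw [ofReal_mul]
    field_simp
  · intro x _
    have h1 : Differentiable ℂ (fun x : ℂ => (c:ℂ) ^ 2 * Y.Q (l + x / N)) := by
      have h2 := wlx_Q hE.on
      have h3 : Differentiable ℂ (fun x : ℂ => l + x / N) := by fun_prop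
      exact (h2.comp h3).const_mul _
    exact h1.analyticAt x
  · intro x hx
    refine hW.app x ?_
    rw [mem_ball_zero_iff] at hx
    exact hx.le
  · intro p hp
    have h1 : AnalyticAt ℂ M (l + p.1 / N, (c:ℂ) * p.2) := hM.an _ (hzn p hp)
    have h2 : AnalyticAt ℂ (fun p : ℂ × ℂ => (l + p.1 / N, (c:ℂ) * p.2)) p := by
      refine AnalyticAt.prod ?_ ?_
      · exact analyticAt_const.add (analyticAt_fst.div analyticAt_const hN')
      · exact analyticAt_const.mul analyticAt_snd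
    have h3 : AnalyticAt ℂ (fun p : ℂ × ℂ => M (l + p.1 / N, (c:ℂ) * p.2)) p :=
      AnalyticAt.comp (g := M) (f := fun p : ℂ × ℂ => (l + p.1 / N, (c:ℂ) * p.2)) h1 h2
    exact analyticAt_const.mul (h3.sub analyticAt_const)
  · intro u hu
    obtain ⟨h4, h5, -⟩ := hpt u hu
    change (N:ℂ) * (M (l + u / N, (c:ℂ) * 0) - l) = u
    rw [mul_zero, hM.zero _ h4 h5, add_sub_cancel_left]
    field_simp
  · intro p hp
    change (N:ℂ) * (M (l + p.1 / N, (c:ℂ) * -p.2) - l) = (N:ℂ) * (M (l + p.1 / N, (c:ℂ) * p.2) - l)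
    rw [mul_neg]
    rw [hM.even _ (hzn p hp)]
  · intro u γ h1 h2 h3
    rw [scN_node hN]
    have e1 : ∀ m : ℂ, l + (N:ℂ) * (m - l) / N = m := by
      intro m
      rw [mul_div_cancel_left₀ _ hN']
      ring
    have e2 : l + (u + ((c * N : ℝ) : ℂ) * γ) / N = (l + u / N) + (c:ℂ) * γ := by
      rw [ofReal_mul]
      field_simp
      ring
    have e3 : l + (u - ((c * N : ℝ) : ℂ) * γ) / N = (l + u / N) - (c:ℂ) * γ := by
      rw [ofReal_mul]
      field_simp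
      ring
    change Y.node (l + (N:ℂ) * (M (l + u / N, (c:ℂ) * γ) - l) / N)
      (l + (N:ℂ) * (M (l + (u + ((c * N : ℝ) : ℂ) * γ) / N, (c:ℂ) * γ) - l) / N)
      (l + (N:ℂ) * (M (l + (u - ((c * N : ℝ) : ℂ) * γ) / N, (c:ℂ) * γ) - l) / N)
    rw [e1, e1, e1, e2, e3]
    have h2' := hzn _ h2
    have h3' := hzn _ h3
    simp only [e2] at h2'
    simp only [e3] at h3'
    exact hM.node _ _ (hzn _ h1) h2' h3'
  · intro p hp
    obtain ⟨h4, h5, h6, h7⟩ := hpt p.1 hp.1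
    have h8 := hM.bd _ (hzn p hp)
    change ‖M (l + p.1 / N, (c:ℂ) * p.2) - (l + p.1 / N)‖ ≤ 400 * (H - (l + p.1 / N).im) / B at h8
    rw [hdep] at h8
    have h9 : (N:ℂ) * (M (l + p.1 / N, (c:ℂ) * p.2) - l) - p.1 =
        N * (M (l + p.1 / N, (c:ℂ) * p.2) - (l + p.1 / N)) := by
      field_simp
      ring
    change ‖(N:ℂ) * (M (l + p.1 / N, (c:ℂ) * p.2) - l) - p.1‖ ≤ 800
    rw [h9, norm_mul, norm_real, Real.norm_of_nonneg hN.le]
    calc N * ‖M (l + p.1 / N, (c:ℂ) * p.2) - (l + p.1 / N)‖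
        ≤ N * (400 * (D * (1 - p.1.im / B)) / B) := mul_le_mul_of_nonneg_left h8 hN.le
      _ = 400 * (1 - p.1.im / B) := by
          rw [hNe]
          field_simp
      _ ≤ 800 := by linarith

theorem WL.mono {Z : Sys} {q : ℂ → ℂ} {ε k k' δ δ' κ K : ℝ} {z : ℂ × ℂ → ℂ}
    (h : WL Z q ε k' δ' κ K z) (hk : k ≤ k') (hδ : δ' ≤ δ) (h1 : 1 ≤ k) (hK : K ≤ k) :
    WL Z q ε k δ κ K z := by
  have hb : ball (0:ℂ) (2 * k) ⊆ ball 0 (2 * k') := ball_subset_ball (by linarith)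
  have hw : Wz k κ ⊆ Wz k' κ := fun p hp => ⟨hp.1.trans_le hk, hp.2.1.trans_le hk, hp.2.2⟩
  refine ⟨⟨h1, h.ε_pos, h.ε_le.trans hδ, ?_, ?_, ?_, ?_⟩, hK, ?_, ?_, ?_, ?_, ?_⟩
  · exact ⟨fun z hz => h.on.d1 z (hb hz), fun z hz => h.on.d1' z (hb hz),
      fun z hz => h.on.d2 z (hb hz), fun z hz => h.on.d2' z (hb hz), fun z hz => h.on.wr z (hb hz)⟩
  · exact fun x hx => h.Qeq x (hb hx)
  · exact h.qan.mono hb
  · exact fun x hx => (h.qb x (hb hx)).trans hδ
  · exact h.an.mono hw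
  · exact fun u hu => h.zero u (hu.trans_le hk)
  · exact fun p hp => h.even p (hw hp)
  · exact fun u γ h2 h3 h4 => h.node u γ (hw h2) (hw h3) (hw h4)
  · exact fun p hp => h.bd p (hw hp)

/-- the translated system -/
def shS (Z : Sys) (a : ℂ) : Sys where
  Q x := Z.Q (x + a)
  y1 x := Z.y1 (x + a)
  y1' x := Z.y1' (x + a)
  y2 x := Z.y2 (x + a)
  y2' x := Z.y2' (x + a)

/-- translation by `2 π σ`, `σ = ± 1`: `exp (- I (x + 2 π σ)) = exp (- I x)`, and
`‖x + 2 π σ‖ < 2 k + 2 π` for `‖x‖ < 2 k` -/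
theorem WL.shift {Z : Sys} {q : ℂ → ℂ} {ε k δ κ K σ : ℝ} {z : ℂ × ℂ → ℂ} (hσ : σ = 1 ∨ σ = -1)
    (h : WL Z q ε (k + 2 * Real.pi) δ κ K z) (h1 : 1 ≤ k) (hK : K ≤ k) :
    WL (shS Z (2 * Real.pi * σ)) (fun x => q (x + 2 * Real.pi * σ)) ε k δ κ K
      (fun p => z (p.1 + 2 * Real.pi * σ, p.2) - 2 * Real.pi * σ) := by
  have hpi := Real.pi_pos
  obtain ⟨a, ha⟩ : ∃ a : ℂ, a = 2 * Real.pi * σ := ⟨_, rfl⟩
  rw [← ha]
  have han : ‖a‖ = 2 * Real.pi := by
    have h2 : a = ((2 * Real.pi * σ : ℝ) : ℂ) := by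
      rw [ha]
      push_cast
      ring
    rw [h2, norm_real, Real.norm_eq_abs, abs_mul, abs_of_pos (by positivity : 0 < 2 * Real.pi)]
    rcases hσ with h3 | h3 <;> rw [h3] <;> simp
  have hai : a.im = 0 := by
    have h2 : a = ((2 * Real.pi * σ : ℝ) : ℂ) := by
      rw [ha]
      push_cast
      ring
    rw [h2, ofReal_im]
  have hexp : ∀ x : ℂ, exp (-(I * (x + a))) = exp (-(I * x)) := by
    intro x
    rcases hσ with h3 | h3
    · rw [h3] at ha
      have h4 : -(I * (x + a)) = -(I * x) - 2 * Real.pi * I := by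
        rw [ha]
        push_cast
        ring
      rw [h4, exp_sub, exp_two_pi_mul_I, div_one]
    · rw [h3] at ha
      have h4 : -(I * (x + a)) = -(I * x) + 2 * Real.pi * I := by
        rw [ha]
        push_cast
        ring
      rw [h4, exp_add, exp_two_pi_mul_I, mul_one]
  have hb : ∀ x ∈ ball (0:ℂ) (2 * k), x + a ∈ ball (0:ℂ) (2 * (k + 2 * Real.pi)) := by
    intro x hx
    rw [mem_ball_zero_iff] at hx ⊢
    have := norm_add_le x a
    rw [han] at this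
    linarith
  have hu : ∀ u : ℂ, ‖u‖ < k → ‖u + a‖ < k + 2 * Real.pi := by
    intro u hu
    have := norm_add_le u a
    rw [han] at this
    linarith
  have hw : ∀ p ∈ Wz k κ, (p.1 + a, p.2) ∈ Wz (k + 2 * Real.pi) κ := by
    rintro ⟨u, γ⟩ ⟨h2, h3, h4⟩
    simp only at h2 h3 h4
    refine ⟨hu u h2, ?_, ?_⟩
    · change ‖γ‖ < k + 2 * Real.pi
      linarith
    · change ‖γ‖ ^ 2 * Real.exp (u + a).im < κ
      rw [add_im, hai, add_zero]
      exact h4
  refine ⟨⟨h1, h.ε_pos, h.ε_le, ?_, ?_, ?_, ?_⟩, hK, ?_, ?_, ?_, ?_, ?_⟩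
  · refine ⟨fun z hz => ?_, fun z hz => ?_, fun z hz => ?_, fun z hz => ?_,
      fun z hz => h.on.wr _ (hb z hz)⟩
    · exact (h.on.d1 _ (hb z hz)).comp_add_const z a
    · exact (h.on.d1' _ (hb z hz)).comp_add_const z a
    · exact (h.on.d2 _ (hb z hz)).comp_add_const z a
    · exact (h.on.d2' _ (hb z hz)).comp_add_const z a
  · exact fun x hx => h.Qeq _ (hb x hx)
  · intro x hx
    have h2 : AnalyticAt ℂ q (x + a) := h.qan _ (hb x hx)
    exact AnalyticAt.comp (g := q) (f := fun x : ℂ => x + a) h2 (by fun_prop)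
  · intro x hx
    have h2 := h.qb _ (hb x hx)
    rw [hexp] at h2
    exact h2
  · intro p hp
    have h2 : AnalyticAt ℂ z (p.1 + a, p.2) := h.an _ (hw p hp)
    have h3 : AnalyticAt ℂ (fun p : ℂ × ℂ => (p.1 + a, p.2)) p :=
      (analyticAt_fst.add analyticAt_const).prod analyticAt_snd
    have h4 : AnalyticAt ℂ (fun p : ℂ × ℂ => z (p.1 + a, p.2)) p :=
      AnalyticAt.comp (g := z) (f := fun p : ℂ × ℂ => (p.1 + a, p.2)) h2 h3
    exact h4.sub analyticAt_const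
  · intro u hu'
    change z (u + a, 0) - a = u
    rw [h.zero _ (hu u hu'), add_sub_cancel_right]
  · intro p hp
    change z (p.1 + a, -p.2) - a = z (p.1 + a, p.2) - a
    rw [h.even _ (hw p hp)]
  · intro u γ h2 h3 h4
    have e1 : u + ε * γ + a = u + a + ε * γ := by ring
    have e2 : u - ε * γ + a = u + a - ε * γ := by ring
    have h3' := hw _ h3
    have h4' := hw _ h4
    simp only [e1] at h3'
    simp only [e2] at h4'
    have h5 := h.node (u + a) γ (hw _ h2) h3' h4'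
    change Z.node (z (u + a, γ) - a + a) (z (u + ε * γ + a, γ) - a + a)
      (z (u - ε * γ + a, γ) - a + a)
    rw [sub_add_cancel, sub_add_cancel, sub_add_cancel, e1, e2]
    exact h5
  · intro p hp
    have h2 := h.bd _ (hw p hp)
    change ‖z (p.1 + a, p.2) - (p.1 + a)‖ ≤ K at h2
    change ‖z (p.1 + a, p.2) - a - p.1‖ ≤ K
    have e1 : z (p.1 + a, p.2) - a - p.1 = z (p.1 + a, p.2) - (p.1 + a) := by ring
    rw [e1]
    exact h2

end Pool.Agent.MP_ae5b4e_an_NB5
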