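import Mathlib
import Pool.Agent.Lib.MP_ae5b4e_an_NB2.Sys

/-!
# MP_ae5b4e_an, project NB_5(A) (entire developing map): definitions

Text: /team-store/POR_NB5A_h62.md.  `Y` is a fundamental system of `y'' + Q y = 0` on the plane, `L`
the label near the real line.
-/

noncomputable section

namespace Pool.Agent.MP_ae5b4e_an_NB5

open Complex Set Filter Topology Metric
open Pool.Agent.MP_ae5b4e_an_NBT (St)
open Pool.Agent.MP_ae5b4e_an_NB2 (Sys)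
open scoped ComplexConjugate

/-! ### The label near the real line -/

/-- the base box -/
def Bs (b : ℝ) : Set (ℂ × ℂ) := St (-b) b ×ˢ ball (0:ℂ) b

/-- the label near the real line, for an entire potential which is not constant -/
structure Ent (Y : Sys) (b C : ℝ) (L : ℂ × ℂ → ℂ) : Prop where
  b_pos : 0 < b
  b_le : b ≤ 1
  C_one : 1 ≤ C
  on : Y.On univ
  qper : ∀ z, Y.Q (z + 1) = Y.Q z
  qre : ∀ z, Y.Q (conj z) = conj (Y.Q z)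
  qnc : ¬ ∃ q : ℂ, ∀ z, Y.Q z = q
  an : AnalyticOnNhd ℂ L (Bs b)
  zero : ∀ t ∈ St (-b) b, L (t, 0) = t
  even : ∀ p ∈ Bs b, L (p.1, -p.2) = L p
  per : ∀ p ∈ Bs b, L (p.1 + 1, p.2) = L p + 1
  node : ∀ t η : ℂ, (t, η) ∈ Bs b → (t + η, η) ∈ Bs b → (t - η, η) ∈ Bs b →
    Y.node (L (t, η)) (L (t + η, η)) (L (t - η, η))
  bd : ∀ p ∈ Bs b, ‖L p - p.1‖ ≤ C * ‖p.2‖ ^ 2

/-- the majorant of the potential -/
structure Maj (Y : Sys) (B : ℕ) (H A : ℝ) : Prop where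
  B_ge : 8 ≤ B
  H_ge : (B:ℝ) ≤ H
  A_pos : 0 < A
  bd : ∀ l : ℂ, |l.im| < H → ‖Y.Q l‖ * (H - |l.im|) ^ B ≤ A

/-! ### The zone -/

/-- the zone `|η|² A < κ (H - Im t) ^ B` -/
def Zn (κ : ℝ) (B : ℕ) (H A : ℝ) : Set (ℂ × ℂ) :=
  {p | 0 < p.1.im ∧ p.1.im < H ∧ ‖p.2‖ ^ 2 * A < κ * (H - p.1.im) ^ B}

/-- the label in the zone -/
structure ZL (Y : Sys) (b : ℝ) (L : ℂ × ℂ → ℂ) (κ K : ℝ) (B : ℕ) (H A : ℝ) (M : ℂ × ℂ → ℂ) :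
    Prop where
  an : AnalyticOnNhd ℂ M (Zn κ B H A)
  base : ∀ p ∈ Zn κ B H A, p.1.im < b / 2 → p ∈ Bs b ∧ M p = L p
  zero : ∀ t : ℂ, 0 < t.im → t.im < H → M (t, 0) = t
  even : ∀ p ∈ Zn κ B H A, M (p.1, -p.2) = M p
  node : ∀ t η : ℂ, (t, η) ∈ Zn κ B H A → (t + η, η) ∈ Zn κ B H A → (t - η, η) ∈ Zn κ B H A →
    Y.node (M (t, η)) (M (t + η, η)) (M (t - η, η))
  bd : ∀ p ∈ Zn κ B H A, ‖M p - p.1‖ ≤ K * (H - p.1.im) / B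

/-! ### Windows -/

/-- a window: near `l` the potential is `c ^ (-2) exp (- i z)`, `z = N (t - l)` -/
structure Wd (Y : Sys) (B : ℕ) (H A : ℝ) (l : ℂ) (c N k δ : ℝ) : Prop where
  maj : Maj Y B H A
  im : H / 2 < l.im
  im' : l.im < H
  N_eq : N = B / (H - l.im)
  c_pos : 0 < c
  c_le : c ≤ δ
  cN : c * N ≤ δ
  Ac : A * c ^ 2 = (H - l.im) ^ B
  k_pos : 1 ≤ k
  k_le : 4 * k ^ 2 ≤ B
  app : ∀ z : ℂ, ‖z‖ ≤ k → ‖(c:ℂ) ^ 2 * Y.Q (l + z / N) - exp (-(I * z))‖ ≤ δ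

/-- the system in the coordinate `z`, `t = l + z / N` -/
def scN (Y : Sys) (l : ℂ) (N : ℝ) : Sys where
  Q z := Y.Q (l + z / N) / (N:ℂ) ^ 2
  y1 z := (Real.sqrt N : ℂ) * Y.y1 (l + z / N)
  y1' z := Y.y1' (l + z / N) / (Real.sqrt N : ℂ)
  y2 z := (Real.sqrt N : ℂ) * Y.y2 (l + z / N)
  y2' z := Y.y2' (l + z / N) / (Real.sqrt N : ℂ)

/-- a system close to the potential `ε ^ (-2) exp (- i x)` on a disc -/
structure WS (Z : Sys) (q : ℂ → ℂ) (ε k δ : ℝ) : Prop where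
  k_pos : 1 ≤ k
  ε_pos : 0 < ε
  ε_le : ε ≤ δ
  on : Z.On (ball 0 (2 * k))
  Qeq : ∀ x ∈ ball (0:ℂ) (2 * k), Z.Q x * (ε:ℂ) ^ 2 = q x
  qan : AnalyticOnNhd ℂ q (ball 0 (2 * k))
  qb : ∀ x ∈ ball (0:ℂ) (2 * k), ‖q x - exp (-(I * x))‖ ≤ δ

/-- the zone in the window -/
def Wz (k κ : ℝ) : Set (ℂ × ℂ) := {p | ‖p.1‖ < k ∧ ‖p.2‖ < k ∧ ‖p.2‖ ^ 2 * Real.exp p.1.im < κ}

/-- a label in the window -/
structure WL (Z : Sys) (q : ℂ → ℂ) (ε k δ κ K : ℝ) (z : ℂ × ℂ → ℂ) : Prop extends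
    WS Z q ε k δ where
  K_le : K ≤ k
  an : AnalyticOnNhd ℂ z (Wz k κ)
  zero : ∀ u : ℂ, ‖u‖ < k → z (u, 0) = u
  even : ∀ p ∈ Wz k κ, z (p.1, -p.2) = z p
  node : ∀ u γ : ℂ, (u, γ) ∈ Wz k κ → (u + ε * γ, γ) ∈ Wz k κ → (u - ε * γ, γ) ∈ Wz k κ →
    Z.node (z (u, γ)) (z (u + ε * γ, γ)) (z (u - ε * γ, γ))
  bd : ∀ p ∈ Wz k κ, ‖z p - p.1‖ ≤ K

/-! ### Steps -/

/-- the node function: `l` the node, `m` the old neighbour, `l + x` the new neighbour -/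
def Pn (Y : Sys) (l m x : ℂ) : ℂ := Y.c (l + x) l * Y.s m l + Y.c m l * Y.s (l + x) l

/-- its derivative with respect to `x` -/
def Pn' (Y : Sys) (l m x : ℂ) : ℂ := Y.cd (l + x) l * Y.s m l + Y.c m l * Y.sd (l + x) l

/-- the step `x` is well defined near `l - m` -/
structure ROK (Y : Sys) (Ω : Set ℂ) (l m : ℂ) (r : ℝ) : Prop where
  r_pos : 0 < r
  l_mem : l ∈ Ω
  m_mem : m ∈ Ω
  sub : ∀ x ∈ closedBall (l - m) r, l + x ∈ Ω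
  der : ∀ x ∈ closedBall (l - m) r, ‖Pn' Y l m x - 1‖ ≤ 1 / 2
  small : ‖Pn Y l m (l - m)‖ < r / 2

end Pool.Agent.MP_ae5b4e_an_NB5
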