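import Pool.Agent.Lib.MP_ae5b4e_an_NB1B.CaseII
import Pool.Agent.Lib.MP_ae5b4e_an_NB5.Defs
import Pool.Agent.Lib.MP_ae5b4e_an_BS.Frame

/-!
# MP_ae5b4e_an, project NB_5(A): an analytic relation implies infinite height for small real parameters
-/

noncomputable section

namespace Pool.Agent.MP_ae5b4e_an_NB5

open Complex Set Filter Topology Metric
open Pool.Agent.MP_ae5b4e_an_NBT
open Pool.Agent.MP_ae5b4e_an_NB2 (Sys)
open Pool.Agent.MP_ae5b4e_an_BS (AllH EntC)
open scoped ComplexConjugate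

open Pool.Agent.MP_ae5b4e_an_NB1 (ARel)
open Pool.Agent.MP_ae5b4e_an_NB1B

private theorem HgtR_lt {k β : ℂ → ℂ} {F : ℂ × ℂ → ℂ} {c a R : ℝ} {m K : ℕ}
    {Φ : ℕ → ℂ × ℂ → ℂ} (h : BP k F c m K Φ β a R) : R < c / 4 := by
  have h1 := h.R_le
  have h2 := h.a_le
  have h3 := h.R_pos
  have h4 := h.a_pos
  have h5 : (2:ℝ) ≤ m := by exact_mod_cast h.m_ge
  nlinarith

private theorem HgtR_merF {k β : ℂ → ℂ} {F : ℂ × ℂ → ℂ} {c a R : ℝ} {m K : ℕ}
    {Φ : ℕ → ℂ × ℂ → ℂ} (h : BP k F c m K Φ β a R) : Mer F (St (-c) c ×ˢ ball 0 (c / 4)) := by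
  intro p hp
  exact merAt_of_analyticAt (h.an p ⟨hp.1, ball_subset_ball (by linarith [h.pos]) hp.2⟩)

private theorem HgtR_merK {k β : ℂ → ℂ} {F : ℂ × ℂ → ℂ} {c a R : ℝ} {m K : ℕ}
    {Φ : ℕ → ℂ × ℂ → ℂ} (h : BP k F c m K Φ β a R) :
    Mer (KF F) (St (-(c / 2)) (c / 2) ×ˢ ball 0 (c / 4)) :=
  mer_KF (by linarith [h.pos]) (HgtR_merF h)

/-- infinite height at the real parameters of the half disc -/
private theorem HgtR_one {k β : ℂ → ℂ} {F : ℂ × ℂ → ℂ} {c a R : ℝ} {m K : ℕ}
    {Φ : ℕ → ℂ × ℂ → ℂ} (h : BP k F c m K Φ β a R) (y : ℝ) {ρ : ℝ} (hρ : |ρ| < R / 2) :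
    ExtM F c (c / 4) y ρ := by
  have hc := h.pos
  have hR0 := h.R_pos
  have hRc := HgtR_lt h
  have hρn : ‖(ρ : ℂ)‖ < R / 2 := by
    rw [Complex.norm_real, Real.norm_eq_abs]
    exact hρ
  obtain ⟨Y, hY1, hY2⟩ : ∃ Y, c / 2 < Y ∧ y + 1 < Y :=
    ⟨max (c / 2) (y + 1) + 1, (le_max_left _ _).trans_lt (lt_add_one _),
      (le_max_right _ _).trans_lt (lt_add_one _)⟩
  have hH := supH_hgt (f := KF F) (a := c / 2) (R := c / 4) (Y := Y) (by linarith) (HgtR_merK h)
    hY1.le
  obtain ⟨s, hs⟩ : ∃ s, s = R / 4 := ⟨_, rfl⟩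
  have hs0 : 0 < s := by rw [hs]; linarith
  have hsr : closedBall (ρ:ℂ) s ⊆ ball 0 R := by
    intro z hz
    rw [mem_closedBall, dist_eq_norm] at hz
    rw [mem_ball_zero_iff]
    have h1 : ‖z‖ ≤ ‖z - ρ‖ + ‖(ρ:ℂ)‖ := by
      have := norm_add_le (z - ρ) (ρ:ℂ)
      rwa [sub_add_cancel] at this
    rw [hs] at hz
    linarith
  have hRR : ball (0:ℂ) R ⊆ ball 0 (c / 4) := ball_subset_ball hRc.le
  have hle : ∀ e : ℝ, 0 < e → Real.circleAverage
      (fun z : ℂ => min Y (c / 2 + (Y - c / 2) * |z.im| / e)) ρ s ≤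
        hgt (KF F) (c / 2) (c / 4) Y ρ := by
    intro e he
    refine hH.mean ρ s hs0 (hsr.trans hRR) _ (by fun_prop) ?_
    intro z hz
    have hz1 := hsr (sphere_subset_closedBall hz)
    by_cases hzi : z.im = 0
    · rw [hzi]
      simp only [abs_zero, mul_zero, zero_div, add_zero]
      rw [min_eq_right hY1.le]
      exact le_hgt (HgtR_merK h) hY1.le (hRR hz1)
    · exact (min_le_left _ _).trans (le_hgt_of_extM (height_nonreal h hz1 hzi Y) le_rfl)
  -- the averages tend to `Y`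
  have hlim : Tendsto (fun n : ℕ => Real.circleAverage
      (fun z : ℂ => min Y (c / 2 + (Y - c / 2) * |z.im| / (1 / ((n : ℝ) + 1)))) ρ s) atTop
        (𝓝 Y) := by
    have e1 : ∀ n : ℕ, Real.circleAverage
        (fun z : ℂ => min Y (c / 2 + (Y - c / 2) * |z.im| / (1 / ((n : ℝ) + 1)))) ρ s =
        (2 * Real.pi)⁻¹ * ∫ θ in (0 : ℝ)..2 * Real.pi,
          min Y (c / 2 + (Y - c / 2) * |s * Real.sin θ| * ((n : ℝ) + 1)) := by
      intro n
      rw [Real.circleAverage_def, smul_eq_mul]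
      congr 1
      refine intervalIntegral.integral_congr fun θ _ => ?_
      have e2 : (circleMap ρ s θ).im = s * Real.sin θ := by
        rw [circleMap, Complex.exp_mul_I]
        simp [← Complex.ofReal_cos, ← Complex.ofReal_sin]
      simp only [e2]
      rw [div_div_eq_mul_div, div_one]
    have e3 : Y = (2 * Real.pi)⁻¹ * ∫ θ in (0 : ℝ)..2 * Real.pi, Y := by
      rw [intervalIntegral.integral_const, smul_eq_mul, sub_zero]
      have : (2 * Real.pi) ≠ 0 := by positivity
      field_simp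
    simp only [e1]
    conv_rhs => rw [e3]
    refine Tendsto.const_mul _ ?_
    refine intervalIntegral.tendsto_integral_filter_of_dominated_convergence
      (fun _ => |Y| + |c / 2|) ?_ ?_ ?_ ?_
    · refine Eventually.of_forall fun n => ?_
      refine Continuous.aestronglyMeasurable ?_
      fun_prop
    · refine Eventually.of_forall fun n => Eventually.of_forall fun θ _ => ?_
      have hx : 0 ≤ (Y - c / 2) * |s * Real.sin θ| * ((n : ℝ) + 1) := by
        have : 0 ≤ Y - c / 2 := by linarith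
        positivity
      rw [Real.norm_eq_abs, abs_le]
      have hya0 := neg_abs_le (c / 2)
      have hyy := le_abs_self Y
      have hyy' := neg_abs_le Y
      have ha' := abs_nonneg (c / 2)
      have hy'' := abs_nonneg Y
      constructor
      · refine le_min (by linarith) (by linarith)
      · exact (min_le_left _ _).trans (by linarith)
    · exact intervalIntegrable_const
    · have hcount : ({θ : ℝ | Real.sin θ = 0}).Countable := by
        have : {θ : ℝ | Real.sin θ = 0} ⊆ range fun n : ℤ => (n : ℝ) * Real.pi := by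
          intro θ hθ
          obtain ⟨n, hn⟩ := Real.sin_eq_zero_iff.1 hθ
          exact ⟨n, hn⟩
        exact (countable_range _).mono this
      have hae : ∀ᵐ θ : ℝ, θ ∉ {θ : ℝ | Real.sin θ = 0} :=
        MeasureTheory.measure_eq_zero_iff_ae_notMem.1 (hcount.measure_zero _)
      filter_upwards [hae] with θ hθ _
      have hθ' : Real.sin θ ≠ 0 := hθ
      have hpos : 0 < (Y - c / 2) * |s * Real.sin θ| := by
        refine mul_pos (by linarith) (abs_pos.2 (mul_ne_zero hs0.ne' hθ'))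
      refine tendsto_const_nhds.congr' ?_
      obtain ⟨N, hN⟩ := exists_nat_gt ((Y - c / 2) / ((Y - c / 2) * |s * Real.sin θ|))
      filter_upwards [eventually_ge_atTop N] with n hn
      rw [min_eq_left]
      rw [div_lt_iff₀ hpos] at hN
      have h6 : (N : ℝ) ≤ n := by exact_mod_cast hn
      nlinarith
  obtain ⟨n, hn⟩ := (hlim.eventually (lt_mem_nhds hY2)).exists
  have h7 := hle (1 / ((n : ℝ) + 1)) (by positivity)
  have hmem : (ρ : ℂ) ∈ ball (0:ℂ) (c / 4) := by
    rw [mem_ball_zero_iff]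
    linarith
  have h8 : ExtM (KF F) (c / 2) (c / 4) (y + 1) ρ := extM_of_lt hmem (hn.trans_le h7)
  exact extM_of_KF_real hc le_rfl (HgtR_merF h) (by simp) h8 (by linarith)

/-- **Real parameters.** As `caseII` (NB1B/CaseII.lean) for a real parameter `ρ₁` instead of `0`:
`exists_bp` gives `BP .. R`; for `|ρ₁| < R / 2` use the circle of radius `s = R / 4` about `ρ₁`
in `height_zero` (the points of the circle which are not real have infinite height by
`height_nonreal`; the set of angles with `Im = 0` is countable; at the real points the cut off height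
is at least `c / 2`), and `extM_of_KF_real` at the end. -/
theorem height_real {k : ℂ → ℂ} {F : ℂ × ℂ → ℂ} {c : ℝ} (hC : Con k F c) {t : ℝ} {M : ℕ}
    (h : ARel M (fun j p => F (p.1 + j * p.2, p.2)) ((t : ℂ), 0)) :
    ∃ R : ℝ, 0 < R ∧ ∀ ρ : ℝ, |ρ| < R → ∀ y : ℝ, ExtM F c (c / 4) y ρ := by
  obtain ⟨m, K, Φ, β, a, R, hB⟩ := exists_bp hC h
  exact ⟨R / 2, half_pos hB.R_pos, fun ρ hρ y => HgtR_one hB y hρ⟩

end Pool.Agent.MP_ae5b4e_an_NB5
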