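import Pool.Agent.Lib.MP_ae5b4e_an_NB5.PickR
import Pool.Agent.Lib.MP_ae5b4e_an_NB5.HgtR
import Pool.Agent.Lib.MP_ae5b4e_an_NB1.NbFin

/-!
# MP_ae5b4e_an, project NB_5(A): slices at small real parameters
-/

noncomputable section

namespace Pool.Agent.MP_ae5b4e_an_NB5

open Complex Set Filter Topology Metric
open Pool.Agent.MP_ae5b4e_an_NBT
open Pool.Agent.MP_ae5b4e_an_NB2 (Sys)
open Pool.Agent.MP_ae5b4e_an_BS (AllH EntC)
open scoped ComplexConjugate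

open Pool.Agent.MP_ae5b4e_an_NB1 (ARel)

variable {k f : ℂ → ℂ} {F : ℂ × ℂ → ℂ} {c : ℝ} {Y : Sys}

private lemma rsl_merF (hC : Con k F c) : Mer F (St (-c) c ×ˢ ball 0 (c / 4)) := by
  have hc := hC.pos
  exact (Mer.of_analytic hC.an).mono (prod_mono Subset.rfl (ball_subset_ball (by linarith)))

/-- the slice of the maximal extension -/
private lemma rsl_glue (hC : Con k F c) {ρ₀ y₁ b : ℝ} (hρ : (ρ₀ : ℂ) ∈ ball (0:ℂ) (c / 4))
    (hy₁ : 0 < y₁) (hbc : b ≤ c / 4) (hext : ∀ y < y₁, ExtM F c (c / 4) y ρ₀) :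
    ∃ X : ℂ → ℂ, (∀ t ∈ St (-c) y₁, MeromorphicAt X t) ∧ ∀ t ∈ St (-b) b, X t = F (t, ρ₀) := by
  have hc := hC.pos
  obtain ⟨G, hG, hGF⟩ := exists_ext (R := c / 4) hc (rsl_merF hC)
  have hanF : ∀ t ∈ St (-c) c, AnalyticAt ℂ F (t, (ρ₀:ℂ)) := fun t ht =>
    hC.an _ ⟨ht, ball_subset_ball (by linarith) hρ⟩
  refine ⟨sl G ρ₀, fun t ht => SlAt.meromorphicAt ?_, fun t ht => ?_⟩
  · refine slAt_of_mer (V := St (-c) y₁) (convex_St _ _).isPreconnected ?_ (t₁ := 0) ?_ ?_ t ht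
    · intro s hs
      obtain ⟨y, h1, h2⟩ := exists_between hs.2
      exact hG _ ⟨hρ, hs.1, y, h1, hext y h2⟩
    · refine ⟨?_, ?_⟩
      · simpa using hc
      · simpa using hy₁
    · have h0 : (0:ℂ) ∈ St (-c) c := ⟨by simpa using hc, by simpa using hc⟩
      exact (slAt_of_analyticAt (hanF 0 h0)).congr (hGF _ ⟨h0, hρ⟩).symm
  · have htc : t ∈ St (-c) c := ⟨by linarith [ht.1], by linarith [ht.2]⟩
    exact nfM_eq (hanF t htc) (hGF _ ⟨htc, hρ⟩)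

/-- the extension along a window, without analytic relations -/
private lemma rsl_ext (hA : AllH k F c f) {b C : ℝ} {L : ℂ × ℂ → ℂ} (hL : Ent Y b C L)
    (hF : ∀ p ∈ Bs b, Y.y1 (L p) ≠ 0 ∧ F p = Y.y2 (L p) / Y.y1 (L p))
    (hR : ¬ ∃ M : ℕ, ARel M (fun j p => F (p.1 + j * p.2, p.2)) (0, 0))
    {ρ₀ a η y₁ : ℝ} (h0 : 0 < ρ₀) (hmem : (ρ₀ : ℂ) ∈ ball (0:ℂ) (c / 4)) (hη : ρ₀ ≤ η)
    (h2c : ExtM F c (c / 4) (2 * c) ρ₀)
    {U : Set (ℂ × ℂ)} {Λ : ℂ × ℂ → ℂ} (hU : IsOpen U) (hΛ : AnalyticOnNhd ℂ Λ U)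
    (hwin : ∀ t : ℂ, |t.re - a| ≤ η → 0 < t.im → t.im < y₁ → (t, (ρ₀:ℂ)) ∈ U)
    (hbase : ∀ p ∈ U, 0 < p.1.im → p.1.im < b / 2 → p ∈ Bs b ∧ Λ p = L p) :
    ∀ y < y₁, ExtM F c (c / 4) y ρ₀ := by
  have hc := hA.con.pos
  by_contra hcon
  push Not at hcon
  obtain ⟨y, hyy, hny⟩ := hcon
  set S : Set ℝ := {y | ExtM F c (c / 4) y ρ₀} with hS
  have hub : ∀ y' ∈ S, y' ≤ y := by
    intro y' hy'
    by_contra h
    exact hny (ExtM.mono hy' (not_le.1 h).le)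
  have hbdd : BddAbove S := ⟨y, hub⟩
  have hne : S.Nonempty := ⟨2 * c, h2c⟩
  set H := sSup S with hH
  have hH2 : 2 * c ≤ H := le_csSup hbdd h2c
  have hHy : H ≤ y := csSup_le hne hub
  have hH0 : 0 < H := by linarith
  have hcH : c < H := by linarith
  have hHy₁ : H < y₁ := hHy.trans_lt hyy
  have hext : ∀ y < H, ExtM F c (c / 4) y ρ₀ := by
    intro y' hy'
    obtain ⟨y'', h1, h2⟩ := exists_lt_of_lt_csSup hne hy'
    exact ExtM.mono h1 h2.le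
  have hno : ¬ ∃ y > H, ExtM F c (c / 4) y ρ₀ := by
    rintro ⟨y', h1, h2⟩
    exact absurd (le_csSup hbdd h2) (not_le.2 h1)
  obtain ⟨G, hE, -, -⟩ := hA.ext (2 * c) (by linarith)
  obtain ⟨M, d, r, tp, X, hP⟩ := exists_pick_real (a := a) (η := η) hE hcH h0 hmem hext hno hη (by
    intro x hx
    have hreτ : ∀ s : ℝ, ((x:ℂ) + s * I).re = x := by intro s; simp
    have himτ : ∀ s : ℝ, ((x:ℂ) + s * I).im = s := by intro s; simp
    have hseg : ∀ s : ℝ, 0 < s → s < y₁ → ((x:ℂ) + s * I, (ρ₀:ℂ)) ∈ U := by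
      intro s hs1 hs2
      exact hwin _ (by rw [hreτ]; exact hx) (by rw [himτ]; exact hs1) (by rw [himτ]; exact hs2)
    have hτ := hseg H hH0 hHy₁
    obtain ⟨ε, hε, hball⟩ := Metric.isOpen_iff.1 hU _ hτ
    rw [← ball_prod_same] at hball
    set g : ℂ × ℂ → ℂ := fun p => Y.y2 (Λ p) / Y.y1 (Λ p) with hg
    have hy1 := Sys.an_y1 hL.on isOpen_univ
    have hy2 := Sys.an_y2 hL.on isOpen_univ
    have hgm : Mer g U := by
      intro p hp
      have h1 : AnalyticAt ℂ (fun q => Y.y1 (Λ q)) p :=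
        AnalyticAt.fun_comp (g := Y.y1) (hy1 _ (mem_univ _)) (hΛ p hp)
      have h2 : AnalyticAt ℂ (fun q => Y.y2 (Λ q)) p :=
        AnalyticAt.fun_comp (g := Y.y2) (hy2 _ (mem_univ _)) (hΛ p hp)
      exact (merAt_of_analyticAt h2).div (merAt_of_analyticAt h1)
    have hm0 : 0 < min ε H := lt_min hε hH0
    have hm1 := min_le_left ε H
    have hm2 := min_le_right ε H
    refine ⟨ε, min ε H / 2, g, hε, by positivity, by linarith, by linarith, hgm.mono hball, ?_⟩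
    -- the segment
    have hS1 : IsPreconnected ((fun s : ℝ => ((x:ℂ) + s * I, (ρ₀:ℂ))) '' Ioo 0 H) :=
      isPreconnected_Ioo.image _ (by fun_prop)
    have hdf : ∀ s : ℝ, 0 < s → s < H → ((x:ℂ) + s * I, (ρ₀:ℂ)) ∈ DF F c (c / 4) := by
      intro s hs1 hs2
      obtain ⟨y', h1, h2⟩ := exists_between hs2
      refine ⟨hmem, ⟨y', ?_, hext y' h2⟩, y', ?_, ?_⟩
      · show ((x:ℂ) + s * I).im < y'
        rw [himτ]
        exact h1
      · show -((x:ℂ) + s * I).im < y'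
        rw [himτ]
        linarith
      · show ExtM F c (c / 4) y' ((starRingEnd ℂ) (ρ₀:ℂ))
        rw [Complex.conj_ofReal]
        exact hext y' h2
    have hb := hL.b_pos
    have hs00 : 0 < min (b / 2) c := lt_min (by linarith) hc
    have hs01 := min_le_left (b / 2) c
    have hs02 := min_le_right (b / 2) c
    set s₀ : ℝ := min (b / 2) c / 2 with hs₀
    have hs03 : 0 < s₀ := by positivity
    have hs04 : s₀ < b / 2 := by linarith
    have hs05 : s₀ < c := by linarith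
    have hfin := Mer.eqM hS1 (f := g) (g := G) (p := ((x:ℂ) + s₀ * I, (ρ₀:ℂ))) ?_ ?_
      ⟨s₀, ⟨hs03, by linarith⟩, rfl⟩ ?_ ((x:ℂ) + (H - min ε H / 2 : ℝ) * I, (ρ₀:ℂ))
      ⟨H - min ε H / 2, ⟨by linarith, by linarith⟩, rfl⟩
    · have h1 : (x:ℂ) + (H - min ε H / 2 : ℝ) * I = (x:ℂ) + H * I - (min ε H / 2 : ℝ) * I := by
        push_cast
        ring
      rw [h1] at hfin
      exact hfin
    · rintro _ ⟨s, ⟨h1, h2⟩, rfl⟩
      exact hgm _ (hseg s h1 (h2.trans hHy₁))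
    · rintro _ ⟨s, ⟨h1, h2⟩, rfl⟩
      exact hE.merG _ (hdf s h1 h2)
    · have hin : ((x:ℂ) + s₀ * I, (ρ₀:ℂ)) ∈ St (-c) c ×ˢ ball (0:ℂ) (c / 4) := by
        refine ⟨⟨?_, ?_⟩, hmem⟩
        · show -c < ((x:ℂ) + s₀ * I).im
          rw [himτ]
          linarith
        · show ((x:ℂ) + s₀ * I).im < c
          rw [himτ]
          linarith
      refine EqM.trans (EqM.of_eventuallyEq ?_) (hE.eqG _ hin).symm
      have hUn : ∀ᶠ q in 𝓝 ((x:ℂ) + s₀ * I, (ρ₀:ℂ)), q ∈ U :=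
        hU.mem_nhds (hseg s₀ hs03 (by linarith))
      have him1 : ContinuousAt (fun q : ℂ × ℂ => q.1.im) ((x:ℂ) + s₀ * I, (ρ₀:ℂ)) := by fun_prop
      have hlo : ∀ᶠ q in 𝓝 ((x:ℂ) + s₀ * I, (ρ₀:ℂ)), 0 < q.1.im :=
        continuousAt_const.eventually_lt him1 (by
          show 0 < ((x:ℂ) + s₀ * I).im
          rw [himτ]
          exact hs03)
      have hhi : ∀ᶠ q in 𝓝 ((x:ℂ) + s₀ * I, (ρ₀:ℂ)), q.1.im < b / 2 :=
        him1.eventually_lt continuousAt_const (by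
          show ((x:ℂ) + s₀ * I).im < b / 2
          rw [himτ]
          exact hs04)
      filter_upwards [hUn, hlo, hhi] with q h1 h2 h3
      obtain ⟨h4, h5⟩ := hbase q h1 h2 h3
      show Y.y2 (Λ q) / Y.y1 (Λ q) = F q
      rw [h5, (hF q h4).2])
  refine Pool.Agent.MP_ae5b4e_an_NB1.caseI_pick hE hP fun hAR => hR ⟨M, ?_⟩
  have h1 : (fun j => Pool.Agent.MP_ae5b4e_an_NB1.yC F (j + 1)) =
      fun (j : ℕ) (p : ℂ × ℂ) => F (p.1 + j * p.2, p.2) := by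
    funext j p
    unfold Pool.Agent.MP_ae5b4e_an_NB1.yC
    push_cast
    ring_nf
  rw [h1] at hAR
  exact hAR

/-- **Slices at small real parameters.** Let `R₁ > 0` be such that `ExtM F c (c / 4) (2 c) ρ` for `‖ρ‖ < R₁`
(`hA.hgt (2 c)`, `ExtM.eventually`), `R₁ ≤ c / 4`. If some relation `ARel M (fun j p => F (p.1 + j * p.2,
p.2)) (0, 0)` holds for some `M`, let `R ≤ R₁` be at most that of `height_real`; otherwise `R = R₁`.
Claim: `ExtM F c (c / 4) y ρ₀` for all `y < y₁`. In the first case this is `height_real`. In the second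
case suppose it fails for some `y < y₁`, and let `H = sup` of the `y` with `ExtM .. y ρ₀` (`hgt`,
`extM_of_lt`, `le_hgt_of_extM`; `2 c ≤ H < y₁`), `hno`, `hext` clear. Take `h = 2 c`, `G` of `hA.ext`.
`hwin`: for `|x - a| ≤ η` the function `g p = y2 (Λ p) / y1 (Λ p)` is meromorphic on `U`, in particular
near `(x + I H, ρ₀)`, and agrees with `G` at `(x + I (H - η₁), ρ₀)`: both are meromorphic along the segment
`{(x + I y', ρ₀)}`, `0 < y' < H` (in `U` and in `DF`, `pk_df`: `ExtM` for `ρ₀ = conj ρ₀`), and for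
small `y'` both are equal to `F` (`hbase`, `hF`, `ConE.eqG`): `Mer.eqM`. So `exists_pick_real` gives a
`Pick`, and `caseI_pick` (NB1/NbFin.lean) the contradiction: `¬ ARel M (fun j => yC F (j + 1)) (0, 0)` as
in the proof of `nb_one` there.
`X`: for `y < y₁` the extension `G_y` of `F` near `ρ = ρ₀` is meromorphic near `St (-c) y × {ρ₀}`; its
slices (`sl G_y ρ₀`, NBT/Slice.lean: `slAt_of_mer`, `SlAt.meromorphicAt`, `sl_of_analyticAt`) are
meromorphic, and agree for different `y` (identity theorem: equal to `F (·, ρ₀)` for `|Im| < c`).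
Glue over `y → y₁` (put `X t = F (t, ρ₀)` for `|Im t| < c`, else `X t = sl G_y ρ₀ t` with
`y = (Im t + y₁) / 2`; near every point this is equal to one slice off the point). -/
theorem real_slice (hA : AllH k F c f) {b C : ℝ} {L : ℂ × ℂ → ℂ} (hL : Ent Y b C L)
    (hbc : b ≤ c / 4) (hF : ∀ p ∈ Bs b, Y.y1 (L p) ≠ 0 ∧ F p = Y.y2 (L p) / Y.y1 (L p)) :
    ∃ R : ℝ, 0 < R ∧ ∀ ρ₀ a η y₁ : ℝ, 0 < ρ₀ → ρ₀ < R → ρ₀ ≤ η → 0 < y₁ →
      ∀ (U : Set (ℂ × ℂ)) (Λ : ℂ × ℂ → ℂ), IsOpen U → AnalyticOnNhd ℂ Λ U →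
        (∀ t : ℂ, |t.re - a| ≤ η → 0 < t.im → t.im < y₁ → (t, (ρ₀:ℂ)) ∈ U) →
        (∀ p ∈ U, 0 < p.1.im → p.1.im < b / 2 → p ∈ Bs b ∧ Λ p = L p) →
        ∃ X : ℂ → ℂ, (∀ t ∈ St (-c) y₁, MeromorphicAt X t) ∧
          ∀ t ∈ St (-b) b, X t = F (t, ρ₀) := by
  have hc := hA.con.pos
  obtain ⟨e, he, hext⟩ := Metric.eventually_nhds_iff_ball.1 (hA.hgt (2 * c)).eventually
  have hnorm : ∀ ρ₀ R' : ℝ, 0 < ρ₀ → ρ₀ < R' → (ρ₀:ℂ) ∈ ball (0:ℂ) R' := by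
    intro ρ₀ R' h0 h1
    rw [mem_ball_zero_iff, norm_real, Real.norm_of_nonneg h0.le]
    exact h1
  by_cases hR : ∃ M : ℕ, ARel M (fun j p => F (p.1 + j * p.2, p.2)) (0, 0)
  · obtain ⟨M, hM⟩ := hR
    obtain ⟨R, hR0, hR1⟩ := height_real (t := 0) hA.con (by
      rw [ofReal_zero]
      exact hM)
    refine ⟨min R (c / 4), lt_min hR0 (by linarith), ?_⟩
    intro ρ₀ a η y₁ h0 h1 _ hy U Λ _ _ _ _
    refine rsl_glue hA.con (hnorm ρ₀ _ h0 (h1.trans_le (min_le_right _ _))) hy hbc fun y _ => ?_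
    exact hR1 ρ₀ (by rw [abs_of_pos h0]; exact h1.trans_le (min_le_left _ _)) y
  · refine ⟨min e (c / 4), lt_min he (by linarith), ?_⟩
    intro ρ₀ a η y₁ h0 h1 hη hy U Λ hU hΛ hwin hbase
    have hmem := hnorm ρ₀ _ h0 (h1.trans_le (min_le_right _ _))
    exact rsl_glue hA.con hmem hy hbc (rsl_ext hA hL hF hR h0 hmem hη
      (hext _ (hnorm ρ₀ _ h0 (h1.trans_le (min_le_left _ _)))) hU hΛ hwin hbase)

end Pool.Agent.MP_ae5b4e_an_NB5
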