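import Pool.Agent.Lib.MP_ae5b4e_an_NB5.Defs

/-!
# MP_ae5b4e_an, project NB_5(A): the maximum point
-/

noncomputable section

namespace Pool.Agent.MP_ae5b4e_an_NB5

open Complex Set Filter Topology Metric
open Pool.Agent.MP_ae5b4e_an_NBT (St)
open Pool.Agent.MP_ae5b4e_an_NB2 (Sys)
open scoped ComplexConjugate

/-- The function `φ l = ‖Q l‖ (H - |Im l|) ^ B` is continuous with period one; let `l` be a maximum
point on the compact set `0 ≤ Re ≤ 1`, `|Im| ≤ H`, `A = φ l`. `A ≥ φ z₀ ≥ ‖Q z₀‖` (`(H - |Im z₀|) ≥ 1`),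
so `A ≥ C' B H ^ B > 0`. If `|Im l| ≤ H/2` then `A ≤ ‖Q l‖ H ^ B < C' B H ^ B (1 + ‖Q l‖) ≤ ‖Q z₀‖ ≤ A`,
a contradiction. `|Im l| < H` because `A > 0`. Replace `l` by `conj l` if `Im l < 0` (`hre`). -/
theorem exists_top {Q : ℂ → ℂ} (hd : Differentiable ℂ Q) (hper : ∀ z, Q (z + 1) = Q z)
    (hre : ∀ z, Q (conj z) = conj (Q z)) {B : ℕ} (hB : 8 ≤ B) {H C' : ℝ} (hC : 1 ≤ C')
    (hH : (B:ℝ) ≤ H) {z₀ : ℂ} (hz₀ : |z₀.im| ≤ H - 1)
    (h : ∀ w : ℂ, |w.im| ≤ H / 2 → C' * B * H ^ B * (1 + ‖Q w‖) ≤ ‖Q z₀‖) :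
    ∃ (A : ℝ) (l : ℂ), 0 < A ∧ H / 2 < l.im ∧ l.im < H ∧ ‖Q l‖ * (H - l.im) ^ B = A ∧
      (∀ l' : ℂ, |l'.im| < H → ‖Q l'‖ * (H - |l'.im|) ^ B ≤ A) ∧ C' * B * H ^ B ≤ A := by
  have hB8 : (8:ℝ) ≤ B := by exact_mod_cast hB
  have hH8 : (8:ℝ) ≤ H := hB8.trans hH
  have hHB : (0:ℝ) < H ^ B := pow_pos (by linarith) B
  have hcont : Continuous fun l : ℂ => ‖Q l‖ * (H - |l.im|) ^ B :=
    (hd.continuous.norm).mul ((continuous_const.sub (continuous_im.abs)).pow B)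
  have hK : IsCompact (Icc (0:ℝ) 1 ×ℂ Icc (-H) H) := isCompact_Icc.reProdIm isCompact_Icc
  have hne : (Icc (0:ℝ) 1 ×ℂ Icc (-H) H).Nonempty := by
    refine ⟨0, ?_⟩
    rw [mem_reProdIm]
    simp only [zero_re, zero_im, mem_Icc]
    refine ⟨⟨le_rfl, zero_le_one⟩, ?_, ?_⟩ <;> linarith
  obtain ⟨l, hlK, hmax⟩ := hK.exists_isMaxOn hne hcont.continuousOn
  have hint : ∀ (n : ℤ) (z : ℂ), Q (z + n) = Q z := by
    intro n z
    have hp : Function.Periodic Q 1 := hper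
    have h1 := hp.int_mul n z
    rwa [mul_one] at h1
  have hall : ∀ w : ℂ, |w.im| ≤ H → ‖Q w‖ * (H - |w.im|) ^ B ≤ ‖Q l‖ * (H - |l.im|) ^ B := by
    intro w hw
    have h1 : w + ((-⌊w.re⌋ : ℤ) : ℂ) ∈ Icc (0:ℝ) 1 ×ℂ Icc (-H) H := by
      rw [mem_reProdIm]
      simp only [add_re, add_im, intCast_re, intCast_im, add_zero, mem_Icc]
      have h2 := Int.floor_le w.re
      have h3 := Int.lt_floor_add_one w.re
      push_cast
      exact ⟨⟨by linarith, by linarith⟩, abs_le.1 hw⟩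
    have h4 := hmax h1
    simp only [mem_setOf_eq] at h4
    rw [hint] at h4
    simpa only [add_im, intCast_im, add_zero] using h4
  rw [mem_reProdIm] at hlK
  have hlim : |l.im| ≤ H := abs_le.2 hlK.2
  set A := ‖Q l‖ * (H - |l.im|) ^ B with hA
  have hz₁ : ‖Q z₀‖ ≤ A := by
    have h1 := hall z₀ (by linarith)
    have h2 : (1:ℝ) ≤ (H - |z₀.im|) ^ B := one_le_pow₀ (by linarith)
    have h3 : ‖Q z₀‖ * 1 ≤ ‖Q z₀‖ * (H - |z₀.im|) ^ B :=
      mul_le_mul_of_nonneg_left h2 (norm_nonneg _)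
    linarith
  have hCB : 8 ≤ C' * B := by nlinarith
  have hCA : C' * B * H ^ B ≤ A := by
    have h1 := h 0 (by rw [zero_im, abs_zero]; linarith)
    have h2 : 0 ≤ C' * B * H ^ B * ‖Q 0‖ :=
      mul_nonneg (mul_nonneg (by linarith) hHB.le) (norm_nonneg _)
    have h3 : C' * B * H ^ B * (1 + ‖Q 0‖) = C' * B * H ^ B + C' * B * H ^ B * ‖Q 0‖ := by ring
    linarith
  have hA0 : 0 < A := by
    have h1 : 0 < C' * B * H ^ B := mul_pos (by linarith) hHB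
    linarith
  have hhalf : H / 2 < |l.im| := by
    by_contra hcon
    push Not at hcon
    have h1 := h l hcon
    have h2 : (H - |l.im|) ^ B ≤ H ^ B :=
      pow_le_pow_left₀ (by linarith) (by linarith [abs_nonneg l.im]) B
    have h3 : A ≤ ‖Q l‖ * H ^ B := mul_le_mul_of_nonneg_left h2 (norm_nonneg _)
    have h4 : 8 * (H ^ B * (1 + ‖Q l‖)) ≤ C' * B * (H ^ B * (1 + ‖Q l‖)) :=
      mul_le_mul_of_nonneg_right hCB (mul_nonneg hHB.le (by linarith [norm_nonneg (Q l)]))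
    have h5 : C' * B * (H ^ B * (1 + ‖Q l‖)) = C' * B * H ^ B * (1 + ‖Q l‖) := by ring
    have h6 : 0 ≤ ‖Q l‖ * H ^ B := mul_nonneg (norm_nonneg _) hHB.le
    nlinarith
  have hlt : |l.im| < H := by
    refine lt_of_le_of_ne hlim fun he => ?_
    rw [he, sub_self, zero_pow (by omega), mul_zero] at hA
    linarith
  have hbd : ∀ l' : ℂ, |l'.im| < H → ‖Q l'‖ * (H - |l'.im|) ^ B ≤ A := fun l' hl' =>
    hall l' hl'.le
  by_cases hs : 0 ≤ l.im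
  · rw [abs_of_nonneg hs] at hhalf hlt
    exact ⟨A, l, hA0, hhalf, hlt, by rw [hA, abs_of_nonneg hs], hbd, hCA⟩
  · have hs' : l.im < 0 := not_le.1 hs
    rw [abs_of_neg hs'] at hhalf hlt
    refine ⟨A, conj l, hA0, by rwa [conj_im], by rwa [conj_im], ?_, hbd, hCA⟩
    rw [hA, hre, Complex.norm_conj, conj_im, abs_of_neg hs']

end Pool.Agent.MP_ae5b4e_an_NB5
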