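import Pool.Agent.Lib.MP_ae5b4e_an_NB5.WinA
import Pool.Agent.Lib.MP_ae5b4e_an_NB5.WinB
import Pool.Agent.Lib.MP_ae5b4e_an_NB5.WinC

/-!
# MP_ae5b4e_an, project NB_5(A): existence of windows
-/

noncomputable section

namespace Pool.Agent.MP_ae5b4e_an_NB5

open Complex Set Filter Topology Metric
open Pool.Agent.MP_ae5b4e_an_NBT (St)
open Pool.Agent.MP_ae5b4e_an_NB2 (Sys)
open scoped ComplexConjugate

/-- **windows exist** -/
theorem exists_wd {Y : Sys} {b C : ℝ} {L : ℂ × ℂ → ℂ} (hE : Ent Y b C L) {k δ C₁ : ℝ} (hk : 1 ≤ k)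
    (hδ : 0 < δ) (hC₁ : 1 ≤ C₁) :
    ∃ (B : ℕ) (H A : ℝ) (l : ℂ) (c N : ℝ), Wd Y B H A l c N k δ ∧ C₁ * B * H ^ B ≤ A := by
  have hd : Differentiable ℂ Y.Q := by
    have e1 : Differentiable ℂ Y.y1' := fun z => (hE.on.d1' z (mem_univ _)).differentiableAt
    have e2 : Differentiable ℂ Y.y2' := fun z => (hE.on.d2' z (mem_univ _)).differentiableAt
    have h1 : Y.Q = fun w => -deriv Y.y1' w * Y.y2' w + deriv Y.y2' w * Y.y1' w := by
      funext w
      rw [(hE.on.d1' w (mem_univ _)).deriv, (hE.on.d2' w (mem_univ _)).deriv]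
      have := hE.on.wr w (mem_univ _)
      linear_combination (-Y.Q w) * this
    rw [h1]
    have e3 : Differentiable ℂ (deriv Y.y1') := e1.deriv
    have e4 : Differentiable ℂ (deriv Y.y2') := e2.deriv
    exact (e3.neg.mul e2).add (e4.mul e1)
  obtain ⟨B₀, hB₀⟩ := approx hk hδ
  obtain ⟨B, hB1, hB2, hB3⟩ : ∃ B : ℕ, B₀ ≤ B ∧ 8 ≤ B ∧ 4 * k ^ 2 ≤ B := by
    obtain ⟨n, hn⟩ := exists_nat_ge (4 * k ^ 2)
    refine ⟨max (max B₀ 8) n, (le_max_left _ _).trans (le_max_left _ _),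
      (le_max_right _ _).trans (le_max_left _ _), hn.trans ?_⟩
    exact_mod_cast le_max_right _ _
  set C' := max C₁ (1 / δ ^ 2) with hC'
  have hC1 : 1 ≤ C' := hC₁.trans (le_max_left _ _)
  have hC2 : 1 / δ ^ 2 ≤ C' := le_max_right _ _
  obtain ⟨H, hBH, hH1, z₀, hz₀, hw⟩ := growth hd hE.qper hE.qnc B (C' * B)
  obtain ⟨A, l, hA, h1, h2, h3, h4, h5⟩ := exists_top hd hE.qper hE.qre hB2 hC1 hBH hz₀ hw
  obtain ⟨θ₀, hθ⟩ := hB₀ B hB1 Y.Q H A l hd hBH h4 hA h1 h2 h3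
  have hBpos : (0:ℝ) < B := by
    have : (8:ℝ) ≤ B := by exact_mod_cast hB2
    linarith
  set D := H - l.im with hD
  have hD0 : 0 < D := by rw [hD]; linarith
  have hDH : D ≤ H := by rw [hD]; linarith
  set N := (B:ℝ) / D with hN
  have hN0 : 0 < N := by positivity
  set c := Real.sqrt (D ^ B / A) with hc
  have hq : 0 < D ^ B / A := by positivity
  have hc2 : c ^ 2 = D ^ B / A := Real.sq_sqrt hq.le
  have hc0 : 0 < c := Real.sqrt_pos.2 hq
  have hB8 : (8:ℝ) ≤ B := by exact_mod_cast hB2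
  have hH0 : 0 < H := by linarith
  have hδ2 : 1 / C' ≤ δ ^ 2 := by
    rw [div_le_iff₀ (by linarith)]
    rw [div_le_iff₀ (by positivity)] at hC2
    linarith
  have hcle : c ≤ δ := by
    rw [← Real.sqrt_sq hδ.le, hc]
    apply Real.sqrt_le_sqrt
    refine le_trans ?_ hδ2
    rw [div_le_div_iff₀ hA (by linarith), one_mul]
    refine le_trans ?_ h5
    have hp : D ^ B ≤ H ^ B := by gcongr
    have hp0 : 0 < H ^ B := by positivity
    calc D ^ B * C' ≤ H ^ B * C' := by gcongr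
      _ = C' * 1 * H ^ B := by ring
      _ ≤ C' * B * H ^ B := by
          gcongr
          linarith
  have hcN : c * N ≤ δ := by
    have e1 : 0 ≤ c * N := by positivity
    rw [← Real.sqrt_sq hδ.le, ← Real.sqrt_sq e1]
    apply Real.sqrt_le_sqrt
    refine le_trans ?_ hδ2
    rw [mul_pow, hc2, hN, div_pow]
    have e2 : D ^ B / A * ((B:ℝ) ^ 2 / D ^ 2) = D ^ (B - 2) * B ^ 2 / A := by
      have : D ^ B = D ^ (B - 2) * D ^ 2 := by
        rw [← pow_add]
        congr 1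
        omega
      rw [this]
      field_simp
    rw [e2, div_le_div_iff₀ hA (by linarith), one_mul]
    refine le_trans ?_ h5
    have hp : D ^ (B - 2) ≤ H ^ (B - 2) := by gcongr
    have e3 : H ^ B = H ^ (B - 2) * H ^ 2 := by
      rw [← pow_add]
      congr 1
      omega
    rw [e3]
    have e4 : (B:ℝ) ^ 2 ≤ B * H ^ 2 := by
      have : (B:ℝ) ^ 2 ≤ H ^ 2 := by gcongr
      have h6 : 0 ≤ H ^ 2 := by positivity
      nlinarith
    calc D ^ (B - 2) * (B:ℝ) ^ 2 * C' ≤ H ^ (B - 2) * (B * H ^ 2) * C' := by gcongr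
      _ = C' * B * (H ^ (B - 2) * H ^ 2) := by ring
  have him : (l + θ₀ / ((N : ℝ) : ℂ)).im = l.im := by
    rw [← ofReal_div, add_im, ofReal_im, add_zero]
  refine ⟨B, H, A, l + θ₀ / ((N : ℝ) : ℂ), c, N, ?_, ?_⟩
  · refine ⟨⟨hB2, hBH, hA, h4⟩, by rwa [him], by rwa [him], ?_, hc0, hcle, hcN, ?_, hk, hB3, ?_⟩
    · rw [him]
    · have e5 : A * (D ^ B / A) = D ^ B := by field_simp
      rw [him, hc2]
      exact e5
    · intro z hz
      have := hθ z hz
      rwa [← ofReal_pow, hc2]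
  · refine le_trans ?_ h5
    have := le_max_left C₁ (1 / δ ^ 2)
    gcongr

end Pool.Agent.MP_ae5b4e_an_NB5
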