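import Pool.Agent.Lib.MP_ae5b4e_an_NB5.Mz
import Pool.Agent.Lib.MP_ae5b4e_an_NB5.MzB

/-!
# MP_ae5b4e_an, project NB_5(A): the label in the zone
-/

noncomputable section

namespace Pool.Agent.MP_ae5b4e_an_NB5

open Complex Set Filter Topology Metric
open Pool.Agent.MP_ae5b4e_an_NBT (St)
open Pool.Agent.MP_ae5b4e_an_NB2 (Sys)
open scoped ComplexConjugate

theorem Zn_mono {κ κ' : ℝ} {B : ℕ} {H A : ℝ} (h : κ ≤ κ') : Zn κ B H A ⊆ Zn κ' B H A := by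
  rintro p ⟨h1, h2, h3⟩
  refine ⟨h1, h2, h3.trans_le ?_⟩
  have : 0 < H - p.1.im := by linarith
  gcongr

/-- **the label in the zone** -/
theorem exists_zone {b C : ℝ} (hb : 0 < b) (hb1 : b ≤ 1) (hC : 1 ≤ C) :
    ∃ κ C₁ : ℝ, 0 < κ ∧ κ ≤ 1 ∧ 1 ≤ C₁ ∧ ∀ (Y : Sys) (L : ℂ × ℂ → ℂ), Ent Y b C L →
      ∀ (B : ℕ) (H A : ℝ), Maj Y B H A → C₁ * B * H ^ B ≤ A →
        ∃ M : ℂ × ℂ → ℂ, ZL Y b L κ 400 B H A M := by
  obtain ⟨κ, C₁, h1, h2, h3, h4⟩ := zone_an hb hb1 hC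
  obtain ⟨κ', C₁', h1', h2', h3', h4'⟩ := zone_bd hb hb1 hC
  refine ⟨min κ κ', max C₁ C₁', lt_min h1 h1', (min_le_left _ _).trans h2,
    h3.trans (le_max_left _ _), fun Y L hE B H A hM hA => ⟨Mz L, ?_⟩⟩
  have hH : 0 < H := by
    have h5 := hM.H_ge
    have h6 : (8:ℝ) ≤ B := by exact_mod_cast hM.B_ge
    linarith
  have hA1 : C₁ * B * H ^ B ≤ A := by
    refine le_trans ?_ hA
    have := le_max_left C₁ C₁'
    gcongr
  have hA2 : C₁' * B * H ^ B ≤ A := by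
    refine le_trans ?_ hA
    have := le_max_right C₁ C₁'
    gcongr
  obtain ⟨a1, a2, a3, a4, a5⟩ := h4 Y L hE B H A hM hA1
  have m1 : Zn (min κ κ') B H A ⊆ Zn κ B H A := Zn_mono (min_le_left _ _)
  have m2 : Zn (min κ κ') B H A ⊆ Zn κ' B H A := Zn_mono (min_le_right _ _)
  exact ⟨a1.mono m1, fun p hp => a2 p (m1 hp), fun t _ _ => a3 t, fun p hp => a4 p (m1 hp),
    fun t η e1 e2 e3 => a5 t η (m1 e1) (m1 e2) (m1 e3), fun p hp => h4' Y L hE B H A hM hA2 p (m2 hp)⟩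

end Pool.Agent.MP_ae5b4e_an_NB5
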