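import Pool.Agent.Lib.MP_ae5b4e_an_NB5.SetX
import Pool.Agent.Lib.MP_ae5b4e_an_NB5.WinX
import Pool.Agent.Lib.MP_ae5b4e_an_NB5.Wlx
import Pool.Agent.Lib.MP_ae5b4e_an_NB5.Zone
import Pool.Agent.Lib.MP_ae5b4e_an_NB5.Top
import Pool.Agent.Lib.MP_ae5b4e_an_NB5.FinB
import Pool.Agent.Lib.MP_ae5b4e_an_NB5.RSl

/-!
# MP_ae5b4e_an, project NB_5(A): entire developing maps without critical points do not exist
-/

noncomputable section

namespace Pool.Agent.MP_ae5b4e_an_NB5

open Complex Set Filter Topology Metric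
open Pool.Agent.MP_ae5b4e_an_NBT
open Pool.Agent.MP_ae5b4e_an_NB2 (Sys)
open Pool.Agent.MP_ae5b4e_an_BS (AllH EntC)
open scoped ComplexConjugate

/-- `(1 + x / B) ^ B ≥ exp (x - 1)` for `0 ≤ x`, `x ^ 2 ≤ B` -/
theorem pow_ge {B : ℕ} {x : ℝ} (hx : 0 ≤ x) (hB : x ^ 2 ≤ B) (hB0 : 0 < B) :
    Real.exp (x - 1) ≤ (1 + x / B) ^ B := by
  have hBr : (0:ℝ) < B := by exact_mod_cast hB0
  have h1 : 0 < 1 + x / B := by positivity
  have h2 : Real.exp (x - 1) ≤ Real.exp (B * Real.log (1 + x / B)) := by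
    apply Real.exp_le_exp.2
    have h3 : 1 - (1 + x / B)⁻¹ ≤ Real.log (1 + x / B) := Real.one_sub_inv_le_log_of_pos h1
    have h4 : (B:ℝ) * (1 - (1 + x / B)⁻¹) ≤ B * Real.log (1 + x / B) := by gcongr
    refine le_trans ?_ h4
    have h5 : (B:ℝ) * (1 - (1 + x / B)⁻¹) = B * x / (B + x) := by
      have : (B:ℝ) + x ≠ 0 := by positivity
      field_simp
      ring
    rw [h5, le_div_iff₀ (by positivity)]
    nlinarith
  rwa [mul_comm, Real.exp_mul, Real.exp_log h1, Real.rpow_natCast] at h2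

/-- **entire curves without critical points and without symmetries do not exist** -/
theorem no_entC {k f : ℂ → ℂ} {F : ℂ × ℂ → ℂ} {c : ℝ} {Y : Sys} (hA : AllH k F c f)
    (hE : EntC f Y) : False := by
  have hc := hA.con.pos
  obtain ⟨b, C, L, hL, hbc, hF⟩ := exists_ent hA hE
  have hb := hL.b_pos
  have hb1 := hL.b_le
  obtain ⟨κ, C₁, hκ, hκ1, hC₁, hzone⟩ := exists_zone hb hb1 hL.C_one
  obtain ⟨v₀, y₀, α₀, δ₂, ν, k₀, hCs, k₁, δ₁, hδ₁, htop⟩ := top_label (κ := κ / 2) (K := 800)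
    (by positivity) (by linarith) (by norm_num)
  obtain ⟨k₂, δ₂', hδ₂', hhor⟩ := horiz hCs
  obtain ⟨R, hR, hsl⟩ := real_slice hA hL hbc hF
  obtain ⟨R', hR', hbase⟩ := lb_base hL hF
  have hα := hCs.α_pos
  have hα1 := hCs.α_le
  have hd2 := hCs.d_pos
  have hd2' := hCs.d_le
  have hk04 := hCs.k_one
  have hkv := hCs.k_ge
  -- the window size
  obtain ⟨kk, hkk1, hkk2, hkk3, hkk4⟩ : ∃ kk : ℝ, k₁ ≤ kk ∧ k₂ ≤ kk ∧ 800 ≤ kk ∧
      k₀ + |v₀| + 4 ≤ kk :=
    ⟨max (max k₁ k₂) (max 800 (k₀ + |v₀| + 4)), (le_max_left _ _).trans (le_max_left _ _),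
      (le_max_right _ _).trans (le_max_left _ _), (le_max_left _ _).trans (le_max_right _ _),
      (le_max_right _ _).trans (le_max_right _ _)⟩
  obtain ⟨δ, hδ, hδa, hδb, hδc, hδd, hδe, hδf⟩ : ∃ δ : ℝ, 0 < δ ∧ δ ≤ δ₁ ∧ δ ≤ δ₂' ∧ δ < R ∧
      δ < R' ∧ δ ≤ δ₂ / 2 ∧ δ ≤ α₀ / 2 := by
    refine ⟨min (min δ₁ δ₂') (min (min (R / 2) (R' / 2)) (min (δ₂ / 2) (α₀ / 2))), by positivity,
      (min_le_left _ _).trans (min_le_left _ _), (min_le_left _ _).trans (min_le_right _ _), ?_, ?_,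
      (min_le_right _ _).trans ((min_le_right _ _).trans (min_le_left _ _)),
      (min_le_right _ _).trans ((min_le_right _ _).trans (min_le_right _ _))⟩
    · refine lt_of_le_of_lt ((min_le_right _ _).trans ((min_le_left _ _).trans (min_le_left _ _))) ?_
      linarith
    · refine lt_of_le_of_lt ((min_le_right _ _).trans ((min_le_left _ _).trans (min_le_right _ _))) ?_
      linarith
  have hpi := Real.pi_pos
  obtain ⟨B, H, A, l, c₀, N, hW, hBA⟩ := exists_wd hL (k := 2 * (kk + 2 * Real.pi)) (δ := δ)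
    (C₁ := C₁) (by linarith) hδ hC₁
  obtain ⟨M, hM⟩ := hzone Y L hL B H A hW.maj hBA
  have hWL := wl_of_wd hL hW hM (by linarith)
  have hWS := hWL.shift (σ := 1) (Or.inl rfl) (by linarith) hkk3
  have hc₀ := hW.c_pos
  have hN : 0 < N := by
    have hB8 : (8:ℝ) ≤ B := by exact_mod_cast hW.maj.B_ge
    have h1 := hW.im'
    rw [hW.N_eq]
    have : 0 < H - l.im := by linarith
    positivity
  have hNc : (N:ℂ) ≠ 0 := by exact_mod_cast hN.ne'
  have hc₀c : (c₀:ℂ) ≠ 0 := by exact_mod_cast hc₀.ne'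
  obtain ⟨zt, hzt⟩ := htop _ _ _ _ _ _ hWL (by linarith) hδa
  obtain ⟨zt', hzt'⟩ := htop _ _ _ _ _ _ hWS hkk1 hδa
  obtain ⟨zh, hzh1, hzh2, hzh3⟩ := hhor _ _ _ _ _ _ _ _ hWL (by linarith) hδb hzt 1 (Or.inl rfl)
  obtain ⟨zh', hzh1', hzh2', hzh3'⟩ := hhor _ _ _ _ _ _ _ _ hWS hkk2 hδb hzt' (-1) (Or.inr rfl)
  -- numbers
  have hB8 : (8:ℝ) ≤ B := by exact_mod_cast hW.maj.B_ge
  have hBpos : (0:ℝ) < B := by linarith
  have hBH := hW.maj.H_ge
  have him := hW.im
  have him' := hW.im'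
  set D := H - l.im with hD
  have hD0 : 0 < D := by rw [hD]; linarith
  have hDH : D < H / 2 := by rw [hD]; linarith
  have hND : N = B / D := hW.N_eq
  have hBk : k₀ ^ 2 * 16 ≤ B := by
    have h1 := hW.k_le
    have h2 : k₀ ≤ 2 * (kk + 2 * Real.pi) := by
      have := abs_nonneg v₀
      linarith
    have h3 : k₀ ^ 2 ≤ (2 * (kk + 2 * Real.pi)) ^ 2 := by gcongr
    have h4 : (2 * (kk + 2 * Real.pi)) ^ 2 = 4 * (kk + 2 * Real.pi) ^ 2 := by ring
    have h5 : k₀ ≤ kk + 2 * Real.pi := by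
      have := abs_nonneg v₀
      linarith
    have h6 : k₀ ^ 2 ≤ (kk + 2 * Real.pi) ^ 2 := by gcongr
    nlinarith only [h1, h4, h6]
  have hkN : k₀ / N ≤ H / 8 := by
    rw [hND, div_div_eq_mul_div, div_le_iff₀ hBpos]
    have h1 : k₀ * 4 ≤ B := by nlinarith only [hBk, hk04]
    have h2 : 0 ≤ k₀ := by linarith only [hk04]
    have hH0 : 0 < H := by linarith only [hD0, hDH]
    nlinarith only [mul_nonneg (sub_nonneg.2 hDH.le) h2, mul_nonneg (sub_nonneg.2 h1) hH0.le]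
  have hκ9 : 9 ≤ κ / 2 * Real.exp (k₀ - 1) := hCs.low
  -- the zone contains the low part
  have hzn : ∀ t : ℂ, 0 < t.im → N * (t.im - l.im) ≤ -(k₀ - 1 / 2) →
      (t, (c₀:ℂ)) ∈ Zn κ B H A := by
    intro t h1 h2
    have h3 : t.im < l.im := by
      by_contra h4
      push Not at h4
      have : 0 ≤ N * (t.im - l.im) := mul_nonneg hN.le (by linarith)
      linarith
    refine ⟨h1, by linarith, ?_⟩
    show ‖(c₀:ℂ)‖ ^ 2 * A < κ * (H - t.im) ^ B
    rw [norm_real, Real.norm_of_nonneg hc₀.le, mul_comm, hW.Ac]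
    have h5 : D * (1 + (k₀ - 1 / 2) / B) ≤ H - t.im := by
      have h6 : (k₀ - 1 / 2) / N ≤ l.im - t.im := by
        rw [div_le_iff₀ hN]
        linarith
      have h7 : (k₀ - 1 / 2) / N = D * ((k₀ - 1 / 2) / B) := by
        rw [hND]
        field_simp
      rw [mul_add, mul_one, ← h7, hD]
      linarith
    have h8 : D ^ B * Real.exp (k₀ - 1 / 2 - 1) ≤ (H - t.im) ^ B := by
      calc D ^ B * Real.exp (k₀ - 1 / 2 - 1) ≤ D ^ B * (1 + (k₀ - 1 / 2) / B) ^ B := by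
            gcongr
            refine pow_ge (by linarith only [hk04]) ?_ (by exact_mod_cast hBpos)
            nlinarith only [hBk, hk04]
        _ = (D * (1 + (k₀ - 1 / 2) / B)) ^ B := by rw [mul_pow]
        _ ≤ (H - t.im) ^ B := by
            have : 0 ≤ D * (1 + (k₀ - 1 / 2) / B) := by
              have : 0 ≤ (k₀ - 1 / 2) / B := div_nonneg (by linarith) hBpos.le
              positivity
            gcongr
    have h9 : 1 < κ * Real.exp (k₀ - 1 / 2 - 1) := by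
      have h10 : Real.exp (k₀ - 1) ≤ Real.exp (k₀ - 1 / 2 - 1) * 2 := by
        have h11 : Real.exp (k₀ - 1) = Real.exp (k₀ - 1 / 2 - 1) * Real.exp (1 / 2) := by
          rw [← Real.exp_add]
          congr 1
          ring
        rw [h11]
        have h12 : Real.exp (1 / 2) ≤ 2 := by
          have h13 : Real.exp (1 / 2) ^ 2 = Real.exp 1 := by
            rw [← Real.exp_nat_mul]
            congr 1
            norm_num
          have h14 := Real.exp_one_lt_d9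
          have h15 := Real.exp_pos (1 / 2)
          nlinarith only [h13, h14, h15]
        gcongr
      have h11 := mul_le_mul_of_nonneg_left h10 (show (0:ℝ) ≤ κ / 2 by positivity)
      linarith only [hκ9, h11]
    have hDB : 0 < D ^ B := by positivity
    have h10 := mul_lt_mul_of_pos_left h9 hDB
    have h11 := mul_le_mul_of_nonneg_left h8 hκ.le
    linarith only [h10, h11]
  -- the height of the slice
  set y₁ := l.im + (v₀ + δ₂) / N with hy₁
  have hNv : ∀ x : ℝ, -k₀ < x → -(H / 8) < x / N := by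
    intro x hx
    have h1 : -(k₀ / N) < x / N := by
      rw [← neg_div]
      exact div_lt_div_of_pos_right hx hN
    linarith
  have hy₁0 : 3 < y₁ := by
    have h1 := hNv (v₀ + δ₂) (by linarith)
    rw [hy₁]
    linarith
  -- the label on the region
  set U₁ : Set (ℂ × ℂ) := {p | p ∈ Zn κ B H A} ∩
    {p | (‖p.2‖ / c₀) ^ 2 * Real.exp (N * (p.1.im - l.im)) < κ / 2} with hU₁
  set U₂ : Set (ℂ × ℂ) := {p | N * (p.1 - l) ∈ Sv δ₂ k₀ v₀} ∩ {p | p.2 / c₀ ∈ ball (1:ℂ) ν} with hU₂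
  have hU₁o : IsOpen U₁ := by
    refine IsOpen.inter ?_ (isOpen_lt (by fun_prop) continuous_const)
    have e1 : {p | p ∈ Zn κ B H A} = {p : ℂ × ℂ | 0 < p.1.im} ∩ ({p : ℂ × ℂ | p.1.im < H} ∩
        {p : ℂ × ℂ | ‖p.2‖ ^ 2 * A < κ * (H - p.1.im) ^ B}) := by
      ext p
      simp [Zn]
    rw [e1]
    exact (isOpen_lt continuous_const (by fun_prop)).inter
      ((isOpen_lt (by fun_prop) continuous_const).inter (isOpen_lt (by fun_prop) (by fun_prop)))
  have hU₂o : IsOpen U₂ := by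
    refine IsOpen.inter ?_ ?_
    · exact (isOpen_Sv _ _ _).preimage (by fun_prop : Continuous fun p : ℂ × ℂ => (N:ℂ) * (p.1 - l))
    · exact isOpen_ball.preimage (by fun_prop : Continuous fun p : ℂ × ℂ => p.2 / (c₀:ℂ))
  have hWz : ∀ p : ℂ × ℂ, p ∈ U₁ → p ∈ U₂ → (N * (p.1 - l), p.2 / c₀) ∈
      Wz (kk + 2 * Real.pi) (κ / 2) := by
    rintro p ⟨-, h1⟩ ⟨h2, h3⟩
    have hv := abs_nonneg v₀
    have h3' : ‖p.2 / (c₀:ℂ) - 1‖ < ν := by
      rw [← dist_eq_norm]
      exact h3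
    have hν := hCs.ν_le
    refine ⟨?_, ?_, ?_⟩
    · show ‖(N:ℂ) * (p.1 - l)‖ < kk + 2 * Real.pi
      have h4 := Complex.norm_le_abs_re_add_abs_im ((N:ℂ) * (p.1 - l))
      have h5 : |((N:ℂ) * (p.1 - l)).im| ≤ k₀ + |v₀| + 1 := by
        rw [abs_le]
        have h6 := h2.2.1
        have h7 := h2.2.2
        have h8 := le_abs_self v₀
        constructor <;> linarith
      have h6 := h2.1
      linarith
    · show ‖p.2 / (c₀:ℂ)‖ < kk + 2 * Real.pi
      have h4 : ‖p.2 / (c₀:ℂ)‖ ≤ ‖p.2 / (c₀:ℂ) - 1‖ + ‖(1:ℂ)‖ := by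
        have := norm_add_le (p.2 / (c₀:ℂ) - 1) 1
        rwa [sub_add_cancel] at this
      rw [norm_one] at h4
      linarith
    · show ‖p.2 / (c₀:ℂ)‖ ^ 2 * Real.exp ((N:ℂ) * (p.1 - l)).im < κ / 2
      have h4 : ((N:ℂ) * (p.1 - l)).im = N * (p.1.im - l.im) := by simp
      rw [h4, norm_div, norm_real, Real.norm_of_nonneg hc₀.le]
      exact h1
  have hzM : ∀ p : ℂ × ℂ, p ∈ U₁ → p ∈ U₂ →
      l + zt (N * (p.1 - l), p.2 / c₀) / N = M p := by
    intro p h1 h2
    rw [hzt.eq ((N:ℂ) * (p.1 - l), p.2 / (c₀:ℂ)) ⟨h2.1, h2.2⟩ (hWz p h1 h2)]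
    show l + N * (M (l + N * (p.1 - l) / N, c₀ * (p.2 / c₀)) - l) / N = M p
    have e1 : l + N * (p.1 - l) / N = p.1 := by
      field_simp
      ring
    have e2 : (c₀:ℂ) * (p.2 / c₀) = p.2 := by field_simp
    rw [e1, e2]
    field_simp
    ring
  classical
  set Λ : ℂ × ℂ → ℂ := fun p => if p ∈ U₂ then l + zt (N * (p.1 - l), p.2 / c₀) / N else M p with hΛ
  have hΛU₁ : ∀ p ∈ U₁, Λ p = M p := by
    intro p hp
    by_cases h2 : p ∈ U₂
    · show (if p ∈ U₂ then _ else _) = _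
      rw [if_pos h2, hzM p hp h2]
    · show (if p ∈ U₂ then _ else _) = _
      rw [if_neg h2]
  have hΛan : AnalyticOnNhd ℂ Λ (U₁ ∪ U₂) := by
    rintro p (hp | hp)
    · refine (hM.an p hp.1).congr ?_
      filter_upwards [hU₁o.mem_nhds hp] with q hq
      exact (hΛU₁ q hq).symm
    · have h1 : AnalyticAt ℂ zt (N * (p.1 - l), p.2 / c₀) := hzt.an _ ⟨hp.1, hp.2⟩
      have h2 : AnalyticAt ℂ (fun p : ℂ × ℂ => ((N:ℂ) * (p.1 - l), p.2 / (c₀:ℂ))) p := by
        refine AnalyticAt.prod ?_ ?_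
        · exact analyticAt_const.mul (analyticAt_fst.sub analyticAt_const)
        · exact analyticAt_snd.div analyticAt_const hc₀c
      have h3 : AnalyticAt ℂ (fun p : ℂ × ℂ => l + zt (N * (p.1 - l), p.2 / c₀) / N) p :=
        analyticAt_const.add ((AnalyticAt.fun_comp (g := zt)
          (f := fun p : ℂ × ℂ => ((N:ℂ) * (p.1 - l), p.2 / (c₀:ℂ))) h1 h2).div analyticAt_const hNc)
      refine h3.congr ?_
      filter_upwards [hU₂o.mem_nhds hp] with q hq
      show _ = if q ∈ U₂ then _ else _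
      rw [if_pos hq]
  have hc₀δ : c₀ ≤ δ := hW.c_le
  have hcNδ : c₀ * N ≤ δ := hW.cN
  obtain ⟨X, hX, hXF⟩ := hsl c₀ l.re (δ₂ / (2 * N)) y₁ hc₀ (by linarith) (by
      rw [le_div_iff₀ (by positivity)]
      linarith) (by linarith) (U₁ ∪ U₂) Λ (hU₁o.union hU₂o) hΛan (by
      intro t h1 h2 h3
      have e1 : ((N:ℂ) * (t - l)).im = N * (t.im - l.im) := by simp
      have e2 : ((N:ℂ) * (t - l)).re = N * (t.re - l.re) := by simp
      by_cases h4 : -k₀ < N * (t.im - l.im)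
      · right
        refine ⟨⟨?_, ?_, ?_⟩, ?_⟩
        · show |((N:ℂ) * (t - l)).re| < δ₂
          rw [e2, abs_mul, abs_of_pos hN]
          rw [le_div_iff₀ (by positivity)] at h1
          linarith
        · show -k₀ < ((N:ℂ) * (t - l)).im
          rw [e1]
          exact h4
        · show ((N:ℂ) * (t - l)).im < v₀ + δ₂
          rw [e1]
          have h5 : t.im - l.im < (v₀ + δ₂) / N := by linarith
          rw [lt_div_iff₀ hN] at h5
          linarith
        · show (c₀:ℂ) / c₀ ∈ ball (1:ℂ) ν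
          rw [div_self hc₀c]
          exact mem_ball_self hCs.ν_pos
      · left
        push Not at h4
        refine ⟨hzn t h2 (by linarith), ?_⟩
        show (‖(c₀:ℂ)‖ / c₀) ^ 2 * Real.exp (N * (t.im - l.im)) < κ / 2
        rw [norm_real, Real.norm_of_nonneg hc₀.le, div_self hc₀.ne', one_pow, one_mul]
        have h5 : Real.exp (N * (t.im - l.im)) ≤ Real.exp (-(k₀ - 1)) :=
          Real.exp_le_exp.2 (by linarith)
        have h6 : Real.exp (-(k₀ - 1)) * Real.exp (k₀ - 1) = 1 := by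
          rw [← Real.exp_add, neg_add_cancel, Real.exp_zero]
        have h7 := Real.exp_pos (k₀ - 1)
        by_contra h8
        push Not at h8
        have h9 := mul_le_mul_of_nonneg_right (h8.trans h5) h7.le
        linarith) (by
      rintro p (hp | hp) h1 h2
      · rw [hΛU₁ p hp]
        exact hM.base p hp.1 h2
      · exfalso
        have e1 : ((N:ℂ) * (p.1 - l)).im = N * (p.1.im - l.im) := by simp
        have h3 := hp.1.2.1
        rw [e1] at h3
        have h4 := hNv _ h3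
        rw [mul_div_cancel_left₀ _ hN.ne'] at h4
        linarith)
  have hLbase := hbase c₀ hc₀ (by linarith) X hXF
  -- the zone
  set Dz : Set ℂ := im ⁻¹' {y : ℝ | (0 < y ∧ y < H) ∧ (y < y₁ ∧ c₀ ^ 2 * A < κ * (H - y) ^ B)} with hDz
  have hDzc : Convex ℝ Dz := by
    refine Convex.is_linear_preimage (f := im) ?_ ⟨fun _ _ => rfl, by simp⟩
    apply Set.OrdConnected.convex
    refine ⟨fun x hx y hy z hz => ?_⟩
    refine ⟨⟨hx.1.1.trans_le hz.1, hz.2.trans_lt hy.1.2⟩, hz.2.trans_lt hy.2.1, ?_⟩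
    refine hy.2.2.trans_le ?_
    have h1 : 0 ≤ H - y := by linarith [hy.1.2]
    have h2 : H - y ≤ H - z := by linarith [hz.2]
    gcongr
  have hDzo : IsOpen Dz := by
    refine IsOpen.preimage continuous_im ?_
    exact ((isOpen_lt continuous_const continuous_id).inter
      (isOpen_lt continuous_id continuous_const)).inter
      ((isOpen_lt continuous_id continuous_const).inter (isOpen_lt continuous_const
        (by fun_prop : Continuous fun y : ℝ => κ * (H - y) ^ B)))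
  have hDzZ : ∀ t ∈ Dz, (t, (c₀:ℂ)) ∈ Zn κ B H A := by
    intro t ht
    refine ⟨ht.1.1, ht.1.2, ?_⟩
    show ‖(c₀:ℂ)‖ ^ 2 * A < κ * (H - t.im) ^ B
    rw [norm_real, Real.norm_of_nonneg hc₀.le]
    exact ht.2.2
  have hDz' : ∀ t : ℂ, 0 < t.im → N * (t.im - l.im) ≤ -(k₀ - 1 / 2) → t ∈ Dz := by
    intro t h1 h2
    have h3 := hzn t h1 h2
    have h4 : c₀ ^ 2 * A < κ * (H - t.im) ^ B := by
      have := h3.2.2
      change ‖(c₀:ℂ)‖ ^ 2 * A < κ * (H - t.im) ^ B at this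
      rwa [norm_real, Real.norm_of_nonneg hc₀.le] at this
    refine ⟨⟨h1, h3.2.1⟩, ?_, h4⟩
    rw [hy₁]
    have h5 : t.im - l.im ≤ -(k₀ - 1 / 2) / N := by
      rw [le_div_iff₀ hN]
      linarith
    have h6 : -(k₀ - 1 / 2) / N < (v₀ + δ₂) / N := div_lt_div_of_pos_right (by linarith) hN
    linarith
  have hMan : AnalyticOnNhd ℂ (fun t : ℂ => M (t, (c₀:ℂ))) Dz := by
    intro t ht
    exact AnalyticAt.fun_comp (g := M) (f := fun t : ℂ => (t, (c₀:ℂ))) (hM.an _ (hDzZ t ht))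
      (analyticAt_id.prod analyticAt_const)
  have hStc : ∀ t : ℂ, -c < t.im → t.im < y₁ →
      MeromorphicAt X t ∧ MeromorphicAt X (t + c₀) ∧ MeromorphicAt X (t - c₀) := by
    intro t h4 h5
    refine ⟨hX t ⟨h4, h5⟩, hX _ ?_, hX _ ?_⟩
    · show -c < (t + c₀).im ∧ (t + c₀).im < y₁
      rw [add_im, ofReal_im, add_zero]
      exact ⟨h4, h5⟩
    · show -c < (t - c₀).im ∧ (t - c₀).im < y₁
      rw [sub_im, ofReal_im, sub_zero]
      exact ⟨h4, h5⟩
  have hLz : ∀ t ∈ Dz, Lb Y X c₀ (fun t => M (t, c₀)) t := by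
    set t₀ : ℂ := (b / 4 : ℝ) * I with ht₀
    have ht₀im : t₀.im = b / 4 := by simp [ht₀]
    have ht₀D : t₀ ∈ Dz := by
      refine hDz' t₀ (by rw [ht₀im]; positivity) ?_
      rw [ht₀im]
      have h1 : N * (H / 8) ≥ k₀ := by
        rw [div_le_iff₀ hN] at hkN
        linarith
      have h2 : b / 4 - l.im ≤ -(H / 8) := by linarith
      have h3 := mul_le_mul_of_nonneg_left h2 hN.le
      linarith only [h1, h3]
    refine lb_ext hE.on hDzo hDzc.isPreconnected hMan (fun t ht => hStc t (by linarith [ht.1.1])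
      ht.2.1) ht₀D ((hLbase t₀ (by rw [ht₀im, abs_of_pos (by positivity)]; linarith)).congr ?_)
    have h3 : IsOpen {t : ℂ | t.im < b / 2} := isOpen_lt continuous_im continuous_const
    filter_upwards [hDzo.mem_nhds ht₀D, h3.mem_nhds (show t₀.im < b / 2 by rw [ht₀im]; linarith)]
      with t h4 h5
    exact (hM.base _ (hDzZ t h4) h5).2
  -- the start points of the windows
  have hst : ∀ a : ℝ, l + ((a:ℂ) - (k₀ - 1 / 2) * I) / N ∈ Dz := by
    intro a
    have e1 : (l + ((a:ℂ) - (k₀ - 1 / 2) * I) / N).im = l.im - (k₀ - 1 / 2) / N := by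
      have : ((a:ℂ) - (k₀ - 1 / 2) * I) / N = ((a / N : ℝ) : ℂ) - (((k₀ - 1 / 2) / N : ℝ) : ℂ) * I := by
        push_cast
        ring
      rw [this]
      simp
      ring
    refine hDz' _ ?_ ?_
    · rw [e1]
      have : (k₀ - 1 / 2) / N ≤ k₀ / N := div_le_div_of_nonneg_right (by linarith) hN.le
      linarith
    · rw [e1]
      have : N * (l.im - (k₀ - 1 / 2) / N - l.im) = -(k₀ - 1 / 2) := by
        field_simp
        ring
      rw [this]
  have hlow : -c < l.im - k₀ / N := by linarith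
  have hLb₀ := lb_win hE.on hN hX hCs (z := fun p => N * (M (l + p.1 / N, c₀ * p.2) - l)) (a := 0)
    (zt := zt) (M := M) (fun p => by simp) hzt (by linarith) hy₁ hlow (hLz _ (hst 0))
    (σ := 1) (Or.inl rfl) hzh1 hzh2
  have hLb₁ := lb_win hE.on hN hX hCs
    (z := fun p => N * (M (l + (p.1 + 2 * Real.pi * (1:ℝ)) / N, c₀ * p.2) - l) - 2 * Real.pi * (1:ℝ))
    (a := 2 * Real.pi) (zt := zt') (M := M) (fun p => by push_cast; simp) hzt' hkk4 hy₁ hlow
    (hLz _ (hst _)) (σ := -1) (Or.inr rfl) hzh1' hzh2'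
  -- a point with non-zero derivative
  have hpi3 := Real.pi_gt_three
  have hpi4 := Real.pi_lt_d2
  set u₀ : ℂ := (Real.pi : ℂ) + v₀ * I with hu₀
  have hu₀re : u₀.re = Real.pi := by simp [hu₀]
  have hu₀im : u₀.im = v₀ := by simp [hu₀]
  have hu₀S : u₀ ∈ Sh δ₂ v₀ 1 := by
    refine ⟨by rw [hu₀re]; linarith, by rw [hu₀re]; linarith, ?_⟩
    rw [hu₀im, sub_self, abs_zero]
    linarith
  have hne : ∃ᶠ u in 𝓝 u₀, deriv zh u ≠ 0 := by
    intro h1
    have h2 : ∀ᶠ u in 𝓝 u₀, deriv zh u = 0 := by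
      filter_upwards [h1] with u hu
      by_contra h3
      exact hu h3
    have h3 := (hzh1.deriv).eqOn_zero_of_preconnected_of_eventuallyEq_zero
      (convex_Sh δ₂ v₀ 1).isPreconnected hu₀S h2
    set u₁ : ℂ := v₀ * I with hu₁
    have hu₁re : u₁.re = 0 := by simp [hu₁]
    have hu₁im : u₁.im = v₀ := by simp [hu₁]
    have hu₁S : u₁ ∈ Sh δ₂ v₀ 1 := by
      refine ⟨by rw [hu₁re]; linarith, by rw [hu₁re]; linarith, ?_⟩
      rw [hu₁im, sub_self, abs_zero]
      linarith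
    have h4 : deriv zh u₁ = 0 := h3 hu₁S
    have h5 : zh =ᶠ[𝓝 u₁] fun u => zt (u, 1) := by
      have h6 : IsOpen {u : ℂ | (1:ℝ) * u.re < δ₂ / 2} := isOpen_lt (by fun_prop) continuous_const
      filter_upwards [(isOpen_Sh δ₂ v₀ 1).mem_nhds hu₁S, h6.mem_nhds (show (1:ℝ) * u₁.re < δ₂ / 2 by
        rw [hu₁re]; linarith)] with u h7 h8
      exact hzh2 u h7 h8
    rw [h5.deriv_eq] at h4
    have h6 := hzt.der u₁ (by rw [hu₁re, abs_zero]; exact hd2) (by
      rw [hu₁im, sub_self, abs_zero]; exact hd2)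
    rw [h4, zero_sub, norm_neg, norm_real, Real.norm_of_nonneg hα.le] at h6
    linarith
  have hop : ∀ᶠ u in 𝓝 u₀, (u ∈ Sh δ₂ v₀ 1 ∧ 3 < u.re) ∧ u.re < 2 * Real.pi - 3 := by
    have h1 : ∀ᶠ u : ℂ in 𝓝 u₀, 3 < u.re :=
      continuous_re.continuousAt.eventually_const_lt (by rw [hu₀re]; exact hpi3)
    have h2 : ∀ᶠ u : ℂ in 𝓝 u₀, u.re < 2 * Real.pi - 3 :=
      continuous_re.continuousAt.eventually_lt_const (by rw [hu₀re]; linarith)
    filter_upwards [(isOpen_Sh δ₂ v₀ 1).mem_nhds hu₀S, h1, h2] with u h3 h4 h5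
    exact ⟨⟨h3, h4⟩, h5⟩
  obtain ⟨u, hu1, ⟨hu2, hu3⟩, hu4⟩ := (hne.and_eventually hop).exists
  have hu5 : u - 2 * Real.pi ∈ Sh δ₂ v₀ (-1) := by
    have e1 : (u - 2 * Real.pi).re = u.re - 2 * Real.pi := by
      have : (2:ℂ) * Real.pi = ((2 * Real.pi : ℝ) : ℂ) := by push_cast; ring
      rw [this, sub_re, ofReal_re]
    have e2 : (u - 2 * Real.pi).im = u.im := by
      have : (2:ℂ) * Real.pi = ((2 * Real.pi : ℝ) : ℂ) := by push_cast; ring
      rw [this, sub_im, ofReal_im, sub_zero]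
    refine ⟨?_, ?_, ?_⟩
    · rw [e1]
      linarith
    · rw [e1]
      linarith
    · rw [e2]
      exact hu2.2.2
  set t : ℂ := l + u / N with ht
  have htu : N * (t - l) = u := by
    rw [ht]
    field_simp
    ring
  have hL₀ := hLb₀ t (by rw [htu, ofReal_zero, sub_zero]; exact hu2)
  have hL₁ := hLb₁ t (by
    rw [htu]
    push_cast
    exact hu5)
  have hder : HasDerivAt (fun t => l + (((0:ℝ):ℂ) + zh (N * (t - l) - ((0:ℝ):ℂ))) / N)
      (deriv zh u) t := by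
    have h1 : HasDerivAt (fun t : ℂ => (N:ℂ) * (t - l) - ((0:ℝ):ℂ)) (N:ℂ) t := by
      have := (((hasDerivAt_id t).sub_const l).const_mul (N:ℂ)).sub_const ((0:ℝ):ℂ)
      simpa using this
    have h2 : HasDerivAt zh (deriv zh u) ((N:ℂ) * (t - l) - ((0:ℝ):ℂ)) := by
      rw [htu, ofReal_zero, sub_zero]
      exact (hzh1 u hu2).differentiableAt.hasDerivAt
    have h3 := h2.comp t h1
    have h4 := ((h3.const_add ((0:ℝ):ℂ)).div_const (N:ℂ)).const_add l
    convert! h4 using 1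
    field_simp
  obtain ⟨a, a', ha, hev, hfr⟩ := lb_aff hE.on hL₀ hL₁ (by rw [hder.deriv]; exact hu1)
  have hfr' : ∃ᶠ s in 𝓝[≠] (l + (((0:ℝ):ℂ) + zh (N * (t - l) - ((0:ℝ):ℂ))) / N),
      f (a * s + a') = f s := by
    refine hfr.mono ?_
    rintro s ⟨h1, h2, h3⟩
    rw [(hE.quot s).1 h1, (hE.quot _).1 h2, h3]
  obtain ⟨ha1, n, hn⟩ := hE.nosym a a' ha (fun s => Pool.Agent.MP_ae5b4e_an_BS.sym_all hE.crv ha hfr' s)
  have hval := hev.self_of_nhds
  rw [ha1, hn, one_mul, htu, ofReal_zero, sub_zero, zero_add] at hval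
  -- the integer
  have e3 := hzh3 u hu2 (by linarith)
  have e4 := hzh3' (u - 2 * Real.pi) hu5 (by
    have e1 : (u - 2 * Real.pi).re = u.re - 2 * Real.pi := by
      have : (2:ℂ) * Real.pi = ((2 * Real.pi : ℝ) : ℂ) := by push_cast; ring
      rw [this, sub_re, ofReal_re]
    rw [e1]
    linarith)
  have e5 : (u - 2 * Real.pi).re = u.re - 2 * Real.pi := by
    have : (2:ℂ) * Real.pi = ((2 * Real.pi : ℝ) : ℂ) := by push_cast; ring
    rw [this, sub_re, ofReal_re]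
  rw [e5] at e4
  have e6 : ((N * n : ℝ) : ℂ) = 2 * Real.pi + zh' (u - 2 * Real.pi) - zh u := by
    have h1 : l + (2 * Real.pi + zh' (u - 2 * Real.pi)) / N = l + zh u / N + n := by
      convert! hval using 4
      all_goals push_cast
      all_goals ring_nf
    have h2 : (2 * Real.pi + zh' (u - 2 * Real.pi)) / N - zh u / N = n := by linear_combination h1
    rw [← sub_div, div_eq_iff hNc] at h2
    push_cast
    linear_combination -h2
  set P : ℝ := N * n with hP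
  have hPa : |P - (2 * Real.pi - 2 * Real.pi * α₀)| ≤ α₀ := by
    have h1 : ((P - (2 * Real.pi - 2 * Real.pi * α₀) : ℝ) : ℂ) =
        (zh' (u - 2 * Real.pi) - I * y₀ - α₀ * ((u.re - 2 * Real.pi : ℝ) : ℂ)) -
        (zh u - I * y₀ - α₀ * u.re) := by
      push_cast
      push_cast at e6
      rw [e6]
      ring
    have h2 := norm_sub_le (zh' (u - 2 * Real.pi) - I * y₀ - α₀ * ((u.re - 2 * Real.pi : ℝ) : ℂ))
      (zh u - I * y₀ - α₀ * u.re)
    rw [← h1, norm_real, Real.norm_eq_abs] at h2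
    linarith
  have hPb := abs_le.1 hPa
  have hper : Y.Q (l + P / N) = Y.Q l := by
    have h1 : (P:ℂ) / N = (n:ℂ) * 1 := by
      rw [hP]
      push_cast
      field_simp
    have h2 : Function.Periodic Y.Q 1 := hL.qper
    rw [h1]
    exact h2.int_mul n l
  have happ1 := hW.app (P:ℂ) (by
    rw [norm_real, Real.norm_eq_abs, abs_le]
    constructor <;> nlinarith only [hPb.1, hPb.2, hα, hα1, hpi, hkk3])
  have happ2 := hW.app 0 (by rw [norm_zero]; linarith)
  rw [hper] at happ1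
  rw [zero_div, add_zero, mul_zero, neg_zero, Complex.exp_zero] at happ2
  have h3 : ‖exp (-(I * (P:ℂ))) - 1‖ ≤ 2 * δ := by
    have e1 : exp (-(I * (P:ℂ))) - 1 = ((c₀:ℂ) ^ 2 * Y.Q l - 1) -
        ((c₀:ℂ) ^ 2 * Y.Q l - exp (-(I * (P:ℂ)))) := by ring
    rw [e1]
    refine (norm_sub_le _ _).trans ?_
    linarith
  set x : ℝ := 2 * Real.pi - P with hx
  have h4 : exp (-(I * (P:ℂ))) = exp ((x:ℂ) * I) := by
    have e1 : -(I * (P:ℂ)) = (x:ℂ) * I - 2 * Real.pi * I := by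
      rw [hx]
      push_cast
      ring
    rw [e1, Complex.exp_sub, Complex.exp_two_pi_mul_I, div_one]
  have h5 : Real.sin x ≤ ‖exp (-(I * (P:ℂ))) - 1‖ := by
    rw [h4]
    have e1 : (exp ((x:ℂ) * I) - 1).im = Real.sin x := by
      rw [sub_im, one_im, sub_zero, Complex.exp_ofReal_mul_I_im]
    rw [← e1]
    exact (le_abs_self _).trans (abs_im_le_norm _)
  have hpi3 := Real.pi_gt_three
  have hx1 : 5 * α₀ ≤ x := by
    rw [hx]
    nlinarith only [hPb.2, mul_lt_mul_of_pos_right hpi3 hα]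
  have hx2 : x ≤ Real.pi / 2 := by
    rw [hx]
    nlinarith only [hPb.1, hα, hα1, hpi, hpi3, Real.pi_le_four]
  have h6 := Real.mul_le_sin (by linarith) hx2
  have h7 : 5 / 2 * α₀ ≤ 2 / Real.pi * x := by
    have h8 : (1:ℝ) / 2 ≤ 2 / Real.pi := by
      rw [div_le_div_iff₀ (by norm_num) hpi]
      linarith
    have hx0 : 0 ≤ x := by linarith only [hx1, hα]
    linarith only [mul_le_mul_of_nonneg_right h8 hx0, hx1]
  linarith

end Pool.Agent.MP_ae5b4e_an_NB5
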