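import Pool.Agent.Lib.MP_ae5b4e_an_BS.Brn
import Pool.Agent.Lib.MP_ae5b4e_an_NB5.FinA

/-!
# MP_ae5b4e_an, project NB_5(A): the theorem: no hypothesis on entire developing maps
-/

noncomputable section

namespace Pool.Agent.MP_ae5b4e_an_NB5

open Complex Set Filter Topology Metric
open scoped Polynomial ContDiff
open Pool.Agent.MP_ae5b4e_an_NBT
open Pool.Agent.MP_ae5b4e_an_SVC
open Pool.Agent.MP_ae5b4e_an_FV
open Pool.Agent.MP_ae5b4e_an_NB2 (Sys Lab exists_lab)
open Pool.Agent.MP_ae5b4e_an_BS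

variable {k f : ℂ → ℂ} {F G : ℂ × ℂ → ℂ} {h c ε : ℝ} {N : ℕ}

/-- `h` is the maximal height to which `f` extends meromorphically -/
def Mx (f : ℂ → ℂ) (h : ℝ) : Prop :=
  ∀ h' > h, ∀ g : ℂ → ℂ, MeromorphicOn g {t : ℂ | |t.im| < h'} → ¬ ∀ t : ℝ, g t = f t

theorem mx_of_max (H : Crv f h) (hM : MaxH f h) : Mx f h := by
  intro h' hh' g hg he
  have hh : 0 < h := H.pos
  refine hM h' hh' g (fun t ht => hg t (abs_lt.2 ht)) ?_
  have h1 : MeromorphicAt g 0 := hg 0 (by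
    show |(0:ℂ).im| < h'
    rw [zero_im, abs_zero]
    linarith)
  have h2 : AnalyticAt ℂ f 0 := by
    have := H.an 0
    rwa [ofReal_zero] at this
  have h3 : MeromorphicAt (fun t => g t - f t) 0 := h1.sub h2.meromorphicAt
  have h4 : ∀ᶠ t in 𝓝[≠] (0:ℂ), g t - f t = 0 := by
    rcases h3.eventually_eq_zero_or_eventually_ne_zero with h5 | h5
    · exact h5
    · exfalso
      have h6 : Tendsto (fun t : ℝ => (t:ℂ)) (𝓝[≠] 0) (𝓝[≠] 0) := by
        rw [tendsto_nhdsWithin_iff]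
        refine ⟨?_, ?_⟩
        · have : Tendsto (fun t : ℝ => (t:ℂ)) (𝓝 0) (𝓝 ((0:ℝ):ℂ)) :=
            continuous_ofReal.tendsto 0
          rw [ofReal_zero] at this
          exact this.mono_left nhdsWithin_le_nhds
        · filter_upwards [self_mem_nhdsWithin] with t ht
          simpa using ht
      obtain ⟨t, ht⟩ := (h6.eventually h5).exists
      exact ht (by rw [he t, sub_self])
  have h5 : g 0 = f 0 := by
    have := he 0
    rwa [ofReal_zero] at this
  rw [eventually_nhdsWithin_iff] at h4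
  filter_upwards [h4] with t ht
  by_cases h0 : t = 0
  · rw [h0, h5]
  · exact sub_eq_zero.1 (ht h0)

/-- **Theorem NB_5(A)**, the kernel is rational -/
theorem en_rational (hC : Con k F c) (hε : 0 < ε) (hV : ∀ (h : ℝ) (f : ℂ → ℂ), Crv f h →
      Mx f h → f =ᶠ[𝓝 (0:ℂ)] (fun t => F (t, 0)) → ∀ t : ℂ, |t.im| < h →
        LBr f (ball t (ε * min 1 (h - |t.im|))) N) :
    ∃ A B : ℂ[X], B ≠ 0 ∧ ∀ᶠ x in 𝓝 (F (0, 0)), k x * B.eval x = A.eval x := by
  have hm : 0 < min ε (1 / 2) := lt_min hε (by norm_num)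
  rcases dichotomy hC with ⟨h, G, hN, H1, H2⟩ | ⟨f, hA⟩
  · exfalso
    obtain ⟨Y, L, hL, hf, -⟩ := exists_lab hN
    have hb : ULV (sl G 0) h N (min ε (1 / 2)) := by
      refine ulv_of_max H1 (max_of_nb hN) fun t ht =>
        (hV h _ H1 (mx_of_max H1 (max_of_nb hN)) H2 t ht).mono (ball_subset_ball ?_)
      have : 0 < min 1 (h - |t.im|) := lt_min one_pos (sub_pos.2 ht)
      gcongr
      exact min_le_left _ _
    obtain ⟨C, hC'⟩ := bound_of_ulv hL.on (fun t ht => (hf t ht).1) hm hb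
    exact no_nbd_bdd hN (Y := Y) ⟨hL.on, hf⟩ hC'
  · rcases entire_case hA with h | ⟨f', Y, hA', hE⟩
    · exact h
    · exact (no_entC hA' hE).elim

/-- The field `κ` is uniformly locally finitely branched along its projective parameter, up to the
maximal height, if this is finite. -/
def ParM (κ : ℝ → ℝ) (N : ℕ) (ε : ℝ) : Prop :=
  ∀ (θ : ℝ → ℝ) (f : ℂ → ℂ) (h : ℝ), Param κ θ → 0 < h → (∀ t : ℝ, f t = exp (θ t * I)) →
    MeromorphicOn f {t : ℂ | |t.im| < h} →
    (∀ h' > h, ∀ g : ℂ → ℂ, MeromorphicOn g {t : ℂ | |t.im| < h'} → ¬ ∀ t : ℝ, g t = f t) →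
    ∀ t : ℂ, |t.im| < h → LBr f (ball t (ε * min 1 (h - |t.im|))) N

theorem lbr_of_parM {κ : ℝ → ℝ} (hC : Con k F c)
    (hk : ∀ θ : ℝ, k (exp (θ * I)) = -(exp (θ * I))⁻¹ + κ θ / (2 * I * exp (θ * I)))
    (hval : ParM κ N ε) (H : Crv f h) (hM : Mx f h) (h0 : f =ᶠ[𝓝 (0:ℂ)] fun t => F (t, 0)) {t : ℂ}
    (ht : |t.im| < h) : LBr f (ball t (ε * min 1 (h - |t.im|))) N := by
  have hc : 0 < c := hC.pos
  have H₀ : Crv (fun t => F (t, 0)) c := crv_of_con hC
  obtain ⟨e1, e2⟩ := H.unique H₀ h0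
  have hev : ∀ t : ℝ, f =ᶠ[𝓝 (t : ℂ)] fun t => F (t, 0) := by
    intro t
    have hm : 0 < min h c := lt_min H.pos hc
    have h1 := e2 t (by
      rw [mem_St, ofReal_im]
      constructor <;> linarith)
    rw [Filter.EventuallyEq, eventually_nhdsWithin_iff] at h1
    filter_upwards [h1] with s hs
    by_cases hst : s = t
    · rw [hst]
      exact e1 t
    · exact hs hst
  have ho : ∀ t : ℝ, k (f t) = -(deriv (deriv f) t) / (deriv f t) ^ 2 := by
    intro t
    have hm : (t : ℂ) ∈ St (-c) c := by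
      rw [mem_St, ofReal_im]
      constructor <;> linarith
    have h1 := (hC.toDat.ode hm).2
    rw [(hev t).deriv.deriv.eq_of_nhds, (hev t).deriv.eq_of_nhds, (hev t).eq_of_nhds]
    exact h1
  obtain ⟨σ, θ, hσ, hP, hfθ⟩ := exists_param H hk ho
  intro u hu
  have hmer : ∀ x : ℂ, |x.im| < h → MeromorphicAt f x := fun x hx => H.mer x (abs_lt.1 hx)
  rcases hσ with rfl | rfl
  · refine hval θ f h hP H.pos (fun t => ?_) (fun x hx => hmer x hx) hM t ht u hu
    have := hfθ t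
    rwa [one_mul] at this
  · have hanti : ∀ x : ℂ, AnalyticAt ℂ f x → AnalyticAt ℂ (fun z => f (-z)) (-x) := by
      intro x hx
      have h1 : AnalyticAt ℂ (fun z : ℂ => -z) (-x) := analyticAt_id.neg
      have h2 : AnalyticAt ℂ f (-(-x)) := by rwa [neg_neg]
      exact h2.comp h1
    obtain ⟨i, j, hij, g, hg1, hg2⟩ := hval θ (fun z => f (-z)) h hP H.pos (fun t => by
      have h1 := hfθ t
      rw [neg_one_mul, ofReal_neg] at h1
      exact h1) (fun x hx => by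
      have h1 : MeromorphicAt f (-x) := hmer _ (by
        have : |x.im| < h := hx
        rwa [neg_im, abs_neg])
      exact h1.comp_analyticAt (f := f) (g := fun z : ℂ => -z) (by fun_prop)) (fun h' hh' g hg he => by
      refine hM h' hh' (fun z => g (-z)) (fun x hx => ?_) fun t => ?_
      · have h1 : MeromorphicAt g (-x) := hg _ (by
          have : |x.im| < h' := hx
          show |(-x).im| < h'
          rwa [neg_im, abs_neg])
        exact h1.comp_analyticAt (f := g) (g := fun z : ℂ => -z) (by fun_prop)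
      · have h1 := he (-t)
        push_cast at h1
        rw [h1, neg_neg]) (-t)
      (by rwa [neg_im, abs_neg]) (fun i => -u i) (fun i => by
      obtain ⟨h1, h2, h3, h4⟩ := hu i
      refine ⟨?_, hanti _ h2, ?_, ?_⟩
      · rw [neg_im, abs_neg, mem_ball, dist_neg_neg]
        exact h1
      · rw [deriv_comp_neg, neg_neg]
        exact neg_ne_zero.2 h3
      · show f (-(-u i)) = f (-(-u 0))
        rw [neg_neg, neg_neg]
        exact h4)
    have htr : ∀ x : ℂ, (∀ᶠ s in 𝓝 (-x), g (f (-s)) = fld (fun z => f (-z)) s) →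
        ∀ᶠ s in 𝓝 x, g (f s) = fld f s := by
      intro x hx
      have h1 : Tendsto (fun s : ℂ => -s) (𝓝 x) (𝓝 (-x)) := continuous_neg.tendsto x
      filter_upwards [h1.eventually hx] with s hs
      rwa [fld_neg, neg_neg] at hs
    exact ⟨i, j, hij, g, htr _ hg1, htr _ hg2⟩

open Pool.Agent.MP_ae5b4e_an_hopf in
open Pool.Agent.MP_ae5b4e_an_MET (conic) in
open Pool.Agent.MP_ae5b4e_an_SMG (Fol) in
open Pool.Agent.MP_ae5b4e_an_RG (circ1 CFam smooth_kappa circle_mero) in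
/-- **Theorem NB_5(A)** -/
theorem circle_en {U : ℝ → ℝ → ℝ} {κ : ℝ → ℝ} (hF : Fol circ1 U κ)
    (hreg : ContDiff ℝ ∞ κ ∨ (ContDiffOn ℝ ∞ (fun z : ℝ × ℝ => U z.1 z.2) (Ioo 0 1 ×ˢ univ) ∧
      ∀ c ∈ Ioo (0:ℝ) 1, ∀ t, deriv (fun r => U r t) c < 0)) (hε : 0 < ε)
    (hval : ParM κ N ε) :
    ∃ Q E : QuadraticForm ℝ (Fin 3 → ℝ), E.Nondegenerate ∧ circ1.trace = conic E ∧
      (∀ θ, 0 < Q (circ1.Γ θ)) ∧
      ∀ c ∈ Ioo (0:ℝ) 1, ∃ ρ : ℝ, (Q - ρ • E).Nondegenerate ∧
        circ1.leaf U c = conic (Q - ρ • E) := by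
  have hs := smooth_kappa circ1 hF hreg
  obtain ⟨k, F, c, hC, hk⟩ := exists_con (CFam.of_fol hF hs)
  exact circle_of_rational hF hreg hC hk (en_rational hC hε fun h f H hM h0 t ht =>
    lbr_of_parM hC hk hval H hM h0 ht)

end Pool.Agent.MP_ae5b4e_an_NB5
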