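import Pool.Agent.Lib.MP_ae5b4e_an_NB5.Defs

/-!
# MP_ae5b4e_an, project NB_5(A): elementary bounds for the kernels
-/

noncomputable section

namespace Pool.Agent.MP_ae5b4e_an_NB5

open Complex Set Filter Topology Metric
open Pool.Agent.MP_ae5b4e_an_NBT (St)
open Pool.Agent.MP_ae5b4e_an_NB2 (Sys)
open Pool.Agent.Lib.MP_ae5b4e_an_LL (norm_le_of_deriv_pow norm_le_of_deriv2_pow)
open scoped ComplexConjugate

/-- a self-improving bound gives a bound -/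
private theorem est0_sup {l : ℂ} {r R : ℝ} {g : ℂ → ℂ} (hg : ContinuousOn g (ball l r))
    (hR0 : 0 < R) (hR : R < r)
    (step : ∀ m : ℝ, 0 ≤ m → (∀ z ∈ ball l R, ‖g z‖ ≤ m) → ∀ z ∈ ball l R, ‖g z‖ ≤ 1 + m / 4) :
    ∀ z ∈ ball l R, ‖g z‖ ≤ 4 / 3 := by
  have hcomp : IsCompact (closedBall l R) := isCompact_closedBall l R
  have hsub : closedBall l R ⊆ ball l r := closedBall_subset_ball hR
  have hbd : BddAbove ((fun z => ‖g z‖) '' closedBall l R) :=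
    hcomp.bddAbove_image (hg.mono hsub).norm
  have hbd' : BddAbove ((fun z => ‖g z‖) '' ball l R) :=
    hbd.mono (image_mono ball_subset_closedBall)
  set m := sSup ((fun z => ‖g z‖) '' ball l R) with hm
  have hle : ∀ z ∈ ball l R, ‖g z‖ ≤ m := fun z hz => le_csSup hbd' ⟨z, hz, rfl⟩
  have hl : l ∈ ball l R := mem_ball_self hR0
  have hm0 : 0 ≤ m := (norm_nonneg _).trans (hle l hl)
  have h1 := step m hm0 hle
  have h2 : m ≤ 1 + m / 4 := by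
    refine csSup_le ⟨_, l, hl, rfl⟩ ?_
    rintro _ ⟨z, hz, rfl⟩
    exact h1 z hz
  intro z hz
  have := hle z hz
  linarith

/-- Let `‖x‖ ≤ ρ < r`, `M ρ² ≤ 1/4` (`ρ = ‖x‖`). On the closed ball of radius `ρ` the function
`f z = c (l + z, l)` solves `f'' = - Q f`, `f 0 = 1`, `f' 0 = 0`; with `m = sup ‖f‖` one gets
`‖f z - 1‖ ≤ M m ‖z‖² / 2` (`norm_le_of_deriv2_pow` of LL/Ode with `k = 0`, or along the segment),
so `m ≤ 1 + m / 8`, `m ≤ 8/7`. In the same way `g z = s (l + z, l)`, `g' 0 = 1`: `‖g z‖ ≤ 8/7 ‖z‖`,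
`‖g z - z‖ ≤ M 8/7 ‖z‖³ / 6`, `‖g' z - 1‖ ≤ M 8/7 ‖z‖² / 2`, `‖f' z‖ ≤ M 8/7 ‖z‖`. -/
theorem est_sc {Y : Sys} {l x : ℂ} {r M : ℝ} (hY : Y.On (ball l r)) (hM : 0 ≤ M)
    (hQ : ∀ z ∈ ball l r, ‖Y.Q z‖ ≤ M) (hx : ‖x‖ < r) (hMx : M * ‖x‖ ^ 2 ≤ 1 / 4) :
    ‖Y.c (l + x) l - 1‖ ≤ M * ‖x‖ ^ 2 ∧ ‖Y.s (l + x) l - x‖ ≤ M * ‖x‖ ^ 3 ∧
      ‖Y.sd (l + x) l - 1‖ ≤ M * ‖x‖ ^ 2 ∧ ‖Y.cd (l + x) l‖ ≤ 2 * M * ‖x‖ := by
  have hx0 : 0 ≤ ‖x‖ := norm_nonneg x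
  have hr : 0 < r := lt_of_le_of_lt hx0 hx
  have hl : l ∈ ball l r := mem_ball_self hr
  -- the radius
  obtain ⟨R, hRx, hRr, hMR⟩ : ∃ R, ‖x‖ < R ∧ R < r ∧ M * R ^ 2 ≤ 1 / 2 := by
    have h1 : Tendsto (fun R : ℝ => M * R ^ 2) (𝓝[>] ‖x‖) (𝓝 (M * ‖x‖ ^ 2)) :=
      ((continuous_const.mul (continuous_id.pow 2)).tendsto _).mono_left nhdsWithin_le_nhds
    have h2 : ∀ᶠ R : ℝ in 𝓝[>] ‖x‖, M * R ^ 2 < 1 / 2 :=
      h1.eventually (gt_mem_nhds (by linarith))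
    have h3 : ∀ᶠ R : ℝ in 𝓝[>] ‖x‖, ‖x‖ < R ∧ R < r := Ioo_mem_nhdsGT hx
    obtain ⟨R, h4, h5⟩ := (h2.and h3).exists
    exact ⟨R, h5.1, h5.2, h4.le⟩
  have hR0 : 0 < R := lt_of_le_of_lt hx0 hRx
  have hsub : ball l R ⊆ ball l r := ball_subset_ball hRr.le
  have hz : l + x ∈ ball l R := by
    rw [mem_ball, dist_eq_norm, add_sub_cancel_left]
    exact hRx
  have hzx : ‖l + x - l‖ = ‖x‖ := by rw [add_sub_cancel_left]
  -- derivatives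
  have dc : ∀ z ∈ ball l R, HasDerivAt (fun z => Y.c z l - 1) (Y.cd z l) z := fun z hz =>
    (Sys.hasDerivAt_c hY (hsub hz)).sub_const 1
  have dcd : ∀ z ∈ ball l R, HasDerivAt (fun z => Y.cd z l) (-(Y.Q z * Y.c z l)) z :=
    fun z hz => Sys.hasDerivAt_cd hY (hsub hz)
  have ds : ∀ z ∈ ball l R, HasDerivAt (fun z => Y.s z l) (Y.sd z l) z := fun z hz =>
    Sys.hasDerivAt_s hY (hsub hz)
  have ds2 : ∀ z ∈ ball l R, HasDerivAt (fun z => Y.s z l - (z - l)) (Y.sd z l - 1) z :=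
    fun z hz => (ds z hz).fun_sub ((hasDerivAt_id z).sub_const l)
  have dsd : ∀ z ∈ ball l R, HasDerivAt (fun z => Y.sd z l - 1) (-(Y.Q z * Y.s z l)) z :=
    fun z hz => (Sys.hasDerivAt_sd hY (hsub hz)).sub_const 1
  have c0 : Y.c l l - 1 = 0 := by rw [Sys.c_self hY hl, sub_self]
  have cd0 : Y.cd l l = 0 := Sys.cd_self
  have s0 : Y.s l l = 0 := Sys.s_self
  have s0' : Y.s l l - (l - l) = 0 := by rw [Sys.s_self, sub_self, sub_self]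
  have sd0 : Y.sd l l - 1 = 0 := by rw [Sys.sd_self hY hl, sub_self]
  have hR2 : ∀ z ∈ ball l R, ‖z - l‖ ^ 2 ≤ R ^ 2 := by
    intro z hz
    rw [mem_ball, dist_eq_norm] at hz
    exact pow_le_pow_left₀ (norm_nonneg _) hz.le 2
  -- the bound for `c`
  have bc0 : ∀ m : ℝ, 0 ≤ m → (∀ z ∈ ball l R, ‖Y.c z l‖ ≤ m) → ∀ z ∈ ball l R,
      ‖-(Y.Q z * Y.c z l)‖ ≤ M * m * ‖z - l‖ ^ 0 := by
    intro m hm h z hz
    rw [norm_neg, norm_mul, pow_zero, mul_one]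
    exact mul_le_mul (hQ z (hsub hz)) (h z hz) (norm_nonneg _) hM
  have bc1 : ∀ m : ℝ, 0 ≤ m → (∀ z ∈ ball l R, ‖Y.c z l‖ ≤ m) → ∀ z ∈ ball l R,
      ‖Y.c z l - 1‖ ≤ M * m * ‖z - l‖ ^ 2 / 2 := by
    intro m hm h z hz
    have := norm_le_of_deriv2_pow (k := 0) dc dcd c0 cd0 (bc0 m hm h) z hz
    norm_num at this
    linarith
  have bc : ∀ z ∈ ball l R, ‖Y.c z l‖ ≤ 4 / 3 := by
    refine est0_sup (g := fun z => Y.c z l) (fun z hz =>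
      (Sys.hasDerivAt_c hY hz).continuousAt.continuousWithinAt) hR0 hRr ?_
    intro m hm h z hz
    have h1 := bc1 m hm h z hz
    have h2 := hR2 z hz
    have h3 : ‖Y.c z l‖ ≤ ‖Y.c z l - 1‖ + 1 := by
      have := norm_add_le (Y.c z l - 1) 1
      rwa [sub_add_cancel, norm_one] at this
    have h4 : M * m * ‖z - l‖ ^ 2 ≤ m * (1 / 2) := by
      have h5 : M * ‖z - l‖ ^ 2 ≤ 1 / 2 := (mul_le_mul_of_nonneg_left h2 hM).trans hMR
      nlinarith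
    show ‖Y.c z l‖ ≤ 1 + m / 4
    linarith
  -- the bound for `sd`
  have bs0 : ∀ m : ℝ, 0 ≤ m → (∀ z ∈ ball l R, ‖Y.sd z l‖ ≤ m) → ∀ z ∈ ball l R,
      ‖-(Y.Q z * Y.s z l)‖ ≤ M * m * ‖z - l‖ ^ 1 := by
    intro m hm h z hz
    have h1 := norm_le_of_deriv_pow (k := 0) (A := m) ds s0
      (fun z hz => by rw [pow_zero, mul_one]; exact h z hz) z hz
    norm_num at h1
    rw [norm_neg, norm_mul, pow_one, mul_assoc]
    exact mul_le_mul (hQ z (hsub hz)) h1 (norm_nonneg _) hM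
  have bs1 : ∀ m : ℝ, 0 ≤ m → (∀ z ∈ ball l R, ‖Y.sd z l‖ ≤ m) → ∀ z ∈ ball l R,
      ‖Y.sd z l - 1‖ ≤ M * m * ‖z - l‖ ^ 2 / 2 := by
    intro m hm h z hz
    have := norm_le_of_deriv_pow (k := 1) dsd sd0 (bs0 m hm h) z hz
    norm_num at this
    linarith
  have bs : ∀ z ∈ ball l R, ‖Y.sd z l‖ ≤ 4 / 3 := by
    refine est0_sup (g := fun z => Y.sd z l) (fun z hz =>
      (Sys.hasDerivAt_sd hY hz).continuousAt.continuousWithinAt) hR0 hRr ?_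
    intro m hm h z hz
    have h1 := bs1 m hm h z hz
    have h2 := hR2 z hz
    have h3 : ‖Y.sd z l‖ ≤ ‖Y.sd z l - 1‖ + 1 := by
      have := norm_add_le (Y.sd z l - 1) 1
      rwa [sub_add_cancel, norm_one] at this
    have h4 : M * m * ‖z - l‖ ^ 2 ≤ m * (1 / 2) := by
      have h5 : M * ‖z - l‖ ^ 2 ≤ 1 / 2 := (mul_le_mul_of_nonneg_left h2 hM).trans hMR
      nlinarith
    show ‖Y.sd z l‖ ≤ 1 + m / 4
    linarith
  have hMx2 : 0 ≤ M * ‖x‖ ^ 2 := by positivity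
  have hMx3 : 0 ≤ M * ‖x‖ ^ 3 := by positivity
  have hMx1 : 0 ≤ M * ‖x‖ := by positivity
  refine ⟨?_, ?_, ?_, ?_⟩
  · have h1 := bc1 (4 / 3) (by norm_num) bc _ hz
    rw [hzx] at h1
    linarith
  · have h1 := norm_le_of_deriv2_pow (k := 1) ds2 dsd s0' sd0
      (bs0 (4 / 3) (by norm_num) bs) _ hz
    rw [hzx, add_sub_cancel_left] at h1
    norm_num at h1
    linarith
  · have h1 := bs1 (4 / 3) (by norm_num) bs _ hz
    rw [hzx] at h1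
    linarith
  · have h1 := norm_le_of_deriv_pow (k := 0) dcd cd0 (bc0 (4 / 3) (by norm_num) bc) _ hz
    rw [hzx] at h1
    norm_num at h1
    linarith

end Pool.Agent.MP_ae5b4e_an_NB5
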