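import Pool.Agent.Lib.MP_ae5b4e_an_NB5.StA

/-!
# MP_ae5b4e_an, project NB_5(A): the node function for an almost constant potential
-/

noncomputable section

namespace Pool.Agent.MP_ae5b4e_an_NB5

open Complex Set Filter Topology Metric
open Pool.Agent.MP_ae5b4e_an_NBT (St)
open Pool.Agent.MP_ae5b4e_an_NB2 (Sys)
open scoped ComplexConjugate

private theorem StB_cos {z : ℂ} {R : ℝ} (h : ‖z‖ ≤ R) : ‖cos z‖ ≤ Real.exp R := by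
  have h1 : ‖exp (z * I)‖ ≤ Real.exp R := (norm_exp_le_exp_norm _).trans (Real.exp_le_exp.2 (by
    rw [norm_mul, norm_I, mul_one]
    exact h))
  have h2 : ‖exp (-z * I)‖ ≤ Real.exp R := (norm_exp_le_exp_norm _).trans (Real.exp_le_exp.2 (by
    rw [norm_mul, norm_I, mul_one, norm_neg]
    exact h))
  have h3 := norm_add_le (exp (z * I)) (exp (-z * I))
  have h4 : ‖(2:ℂ)‖ = 2 := by simp
  rw [Complex.cos, norm_div, h4]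
  linarith

private theorem StB_sin {z : ℂ} {R : ℝ} (h : ‖z‖ ≤ R) : ‖sin z‖ ≤ Real.exp R := by
  have h1 : ‖exp (z * I)‖ ≤ Real.exp R := (norm_exp_le_exp_norm _).trans (Real.exp_le_exp.2 (by
    rw [norm_mul, norm_I, mul_one]
    exact h))
  have h2 : ‖exp (-z * I)‖ ≤ Real.exp R := (norm_exp_le_exp_norm _).trans (Real.exp_le_exp.2 (by
    rw [norm_mul, norm_I, mul_one, norm_neg]
    exact h))
  have h3 := norm_sub_le (exp (-z * I)) (exp (z * I))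
  have h4 : ‖(2:ℂ)‖ = 2 := by simp
  rw [Complex.sin, norm_div, norm_mul, norm_I, mul_one, h4]
  linarith

private theorem StB_dcos (ω ζ : ℂ) :
    HasDerivAt (fun ζ => cos (ω * ζ)) (-(ω * sin (ω * ζ))) ζ := by
  have h := (hasDerivAt_cos (ω * ζ)).comp ζ ((hasDerivAt_id ζ).const_mul ω)
  convert! h using 1
  ring

private theorem StB_dsin (ω ζ : ℂ) :
    HasDerivAt (fun ζ => sin (ω * ζ)) (ω * cos (ω * ζ)) ζ := by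
  have h := (hasDerivAt_sin (ω * ζ)).comp ζ ((hasDerivAt_id ζ).const_mul ω)
  convert! h using 1
  ring

private theorem StB_dneg {h : ℂ → ℂ} {a ζ : ℂ} (hh : HasDerivAt h a (-ζ)) :
    HasDerivAt (fun ζ => h (-ζ)) (-a) ζ := by
  have h1 := hh.comp ζ (hasDerivAt_neg ζ)
  convert! h1 using 1
  ring

private structure StB_D (Y : Sys) (W : ℝ) (ω : ℂ) (ρ ε μ : ℝ) : Prop where
  hW : 1 ≤ W
  hρ1 : 1 ≤ ρ
  hρW : ρ ≤ W
  hω : ‖ω‖ ≤ W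
  hω' : 1 ≤ W * ‖ω‖
  ε0 : 0 < ε
  μ0 : 0 ≤ μ
  μ1 : μ ≤ 1
  on : Y.On (ball 0 ρ)
  q : ∀ ζ ∈ ball (0:ℂ) ρ, ‖Y.Q ζ - ω ^ 2‖ ≤ μ
  d : ∀ ζ ∈ ball (0:ℂ) ρ, ‖Y.Q ζ - Y.Q (-ζ) + 2 * ε * I * ω ^ 2 * ζ‖ ≤ ε * μ

private def StB_K (W : ℝ) : ℝ := W * Real.exp ((1 + (W ^ 2 + 1)) * W)

private def StB_T (W : ℝ) : ℝ := Real.exp (W * W)

variable {Y : Sys} {W : ℝ} {ω : ℂ} {ρ ε μ : ℝ}

private theorem StB_D.ω0 (D : StB_D Y W ω ρ ε μ) : ω ≠ 0 := by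
  rintro rfl
  have := D.hω'
  rw [norm_zero, mul_zero] at this
  linarith

private theorem StB_D.inv (D : StB_D Y W ω ρ ε μ) : ‖ω⁻¹‖ ≤ W := by
  have h0 : 0 < ‖ω‖ := norm_pos_iff.2 D.ω0
  rw [norm_inv, inv_eq_one_div, div_le_iff₀ h0]
  exact D.hω'

private theorem StB_D.bz (D : StB_D Y W ω ρ ε μ) {ζ : ℂ} (hζ : ζ ∈ ball (0:ℂ) ρ) : ‖ζ‖ ≤ W :=
  (mem_ball_zero_iff.1 hζ).le.trans D.hρW

private theorem StB_D.neg {ζ : ℂ} (hζ : ζ ∈ ball (0:ℂ) ρ) : -ζ ∈ ball (0:ℂ) ρ := by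
  rw [mem_ball_zero_iff, norm_neg]
  exact mem_ball_zero_iff.1 hζ

private theorem StB_D.bωζ (D : StB_D Y W ω ρ ε μ) {ζ : ℂ} (hζ : ζ ∈ ball (0:ℂ) ρ) :
    ‖ω * ζ‖ ≤ W * W := by
  rw [norm_mul]
  exact mul_le_mul D.hω (D.bz hζ) (norm_nonneg _) (by linarith [D.hW])

private theorem StB_D.cmp (D : StB_D Y W ω ρ ε μ) {G : ℝ} {g y y' : ℂ → ℂ} (hG : 0 ≤ G)
    (hy : ∀ ζ ∈ ball (0:ℂ) ρ, HasDerivAt y (y' ζ) ζ)
    (hy' : ∀ ζ ∈ ball (0:ℂ) ρ, HasDerivAt y' (-(Y.Q ζ * y ζ) + g ζ) ζ) (h0 : y 0 = 0)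
    (h0' : y' 0 = 0) (hg : ∀ ζ ∈ ball (0:ℂ) ρ, ‖g ζ‖ ≤ G) :
    ∀ ζ ∈ ball (0:ℂ) ρ, ‖y ζ‖ ≤ G * StB_K W ∧ ‖y' ζ‖ ≤ G * StB_K W := by
  have hρ0 : 0 < ρ := by linarith [D.hρ1]
  have hQ : ∀ ζ ∈ ball (0:ℂ) ρ, ‖Y.Q ζ‖ ≤ W ^ 2 + 1 := by
    intro ζ hζ
    have h1 : ‖Y.Q ζ‖ ≤ ‖Y.Q ζ - ω ^ 2‖ + ‖ω ^ 2‖ := by
      have := norm_add_le (Y.Q ζ - ω ^ 2) (ω ^ 2)
      rwa [sub_add_cancel] at this
    have h2 := D.q ζ hζ
    have h3 : ‖ω ^ 2‖ ≤ W ^ 2 := by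
      rw [norm_pow]
      exact pow_le_pow_left₀ (norm_nonneg _) D.hω 2
    linarith [D.μ1]
  have hM : 0 ≤ W ^ 2 + 1 := by positivity
  have h := ode_cmp (ρ := ρ) (M := W ^ 2 + 1) (G := G) hρ0 hM hG hy hy' h0 h0' hQ hg
  have hb : G * ρ * Real.exp ((1 + (W ^ 2 + 1)) * ρ) ≤ G * StB_K W := by
    unfold StB_K
    rw [mul_assoc]
    refine mul_le_mul_of_nonneg_left ?_ hG
    refine mul_le_mul D.hρW (Real.exp_le_exp.2 ?_) (Real.exp_nonneg _) (by linarith [D.hW])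
    exact mul_le_mul_of_nonneg_left D.hρW (by positivity)
  intro ζ hζ
  exact ⟨(h ζ hζ).1.trans hb, (h ζ hζ).2.trans hb⟩

/-- the comparison of the odd parts -/
private theorem StB_D.odd (D : StB_D Y W ω ρ ε μ) {σ : ℂ} (hσ : σ = 1 ∨ σ = -1)
    {h h' k V V' : ℂ → ℂ} {C₁ N₀ B : ℝ} (hC₁ : 0 ≤ C₁) (hN₀ : 0 ≤ N₀) (hB : 0 ≤ B)
    (hh : ∀ ζ ∈ ball (0:ℂ) ρ, HasDerivAt h (h' ζ) ζ)
    (hh' : ∀ ζ ∈ ball (0:ℂ) ρ, HasDerivAt h' (-(Y.Q ζ * h ζ)) ζ)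
    (h0 : h 0 = σ * h 0) (h0' : h' 0 = - (σ * h' 0))
    (hk : ∀ ζ, σ * k (-ζ) = k ζ)
    (hhk : ∀ ζ ∈ ball (0:ℂ) ρ, ‖h ζ - k ζ‖ ≤ C₁ * μ) (hb : ∀ ζ ∈ ball (0:ℂ) ρ, ‖h ζ‖ ≤ B)
    (hV : ∀ ζ ∈ ball (0:ℂ) ρ, HasDerivAt V (V' ζ) ζ)
    (hV' : ∀ ζ ∈ ball (0:ℂ) ρ, HasDerivAt V' (-(ω ^ 2 * V ζ) + 2 * I * ω ^ 2 * ζ * k ζ) ζ)
    (V0 : V 0 = 0) (V0' : V' 0 = 0) (hVb : ∀ ζ ∈ ball (0:ℂ) ρ, ‖V ζ‖ ≤ N₀) :
    ∀ ζ ∈ ball (0:ℂ) ρ, ‖(h ζ - σ * h (-ζ)) / ε - V ζ‖ ≤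
      μ * (N₀ + 2 * W ^ 3 * C₁ + B) * StB_K W := by
  have hε : (ε:ℂ) ≠ 0 := by
    exact_mod_cast D.ε0.ne'
  have hσ1 : ‖σ‖ = 1 := by
    rcases hσ with rfl | rfl <;> simp
  have hσ2 : σ * σ = 1 := by
    rcases hσ with rfl | rfl <;> norm_num
  have hW0 : 0 < W := by linarith [D.hW]
  have key := D.cmp (G := μ * (N₀ + 2 * W ^ 3 * C₁ + B))
    (y := fun ζ => (h ζ - σ * h (-ζ)) / ε - V ζ)
    (y' := fun ζ => (h' ζ + σ * h' (-ζ)) / ε - V' ζ)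
    (g := fun ζ => (ω ^ 2 - Y.Q ζ) * V ζ + 2 * I * ω ^ 2 * ζ * (σ * (h (-ζ) - k (-ζ))) -
      (Y.Q ζ - Y.Q (-ζ) + 2 * ε * I * ω ^ 2 * ζ) / ε * (σ * h (-ζ)))
    (mul_nonneg D.μ0 (by positivity)) ?_ ?_ ?_ ?_ ?_
  · intro ζ hζ
    exact (key ζ hζ).1
  · intro ζ hζ
    have h1 := (((hh ζ hζ).sub ((StB_dneg (hh (-ζ) (StB_D.neg hζ))).const_mul σ)).div_const
      (ε:ℂ)).sub (hV ζ hζ)
    convert! h1 using 1
    ring
  · intro ζ hζ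
    have h1 := (((hh' ζ hζ).add ((StB_dneg (hh' (-ζ) (StB_D.neg hζ))).const_mul σ)).div_const
      (ε:ℂ)).sub (hV' ζ hζ)
    convert! h1 using 1
    rw [← hk ζ]
    field_simp
    ring
  · rw [neg_zero, ← h0, V0]
    simp
  · rw [neg_zero, V0']
    have : h' 0 + σ * h' 0 = 0 := by linear_combination h0'
    rw [this]
    simp
  · intro ζ hζ
    have hn := StB_D.neg hζ
    have h1 : ‖(ω ^ 2 - Y.Q ζ) * V ζ‖ ≤ μ * N₀ := by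
      rw [norm_mul, norm_sub_rev]
      exact mul_le_mul (D.q ζ hζ) (hVb ζ hζ) (norm_nonneg _) D.μ0
    have h2 : ‖2 * I * ω ^ 2 * ζ * (σ * (h (-ζ) - k (-ζ)))‖ ≤ 2 * W ^ 2 * W * (C₁ * μ) := by
      rw [norm_mul, norm_mul, norm_mul, norm_mul, norm_I, norm_pow, mul_one, norm_mul, hσ1,
        one_mul]
      have h3 : ‖(2:ℂ)‖ = 2 := by simp
      rw [h3]
      refine mul_le_mul ?_ (hhk _ hn) (norm_nonneg _) (by positivity)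
      refine mul_le_mul ?_ (D.bz hζ) (norm_nonneg _) (by positivity)
      exact mul_le_mul_of_nonneg_left (pow_le_pow_left₀ (norm_nonneg _) D.hω 2) (by norm_num)
    have h3 : ‖(Y.Q ζ - Y.Q (-ζ) + 2 * ε * I * ω ^ 2 * ζ) / ε * (σ * h (-ζ))‖ ≤ μ * B := by
      rw [norm_mul, norm_mul, hσ1, one_mul, norm_div]
      refine mul_le_mul ?_ (hb _ hn) (norm_nonneg _) D.μ0
      have h4 : ‖(ε:ℂ)‖ = ε := by
        rw [Complex.norm_real, Real.norm_eq_abs, abs_of_pos D.ε0]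
      rw [h4, div_le_iff₀ D.ε0, mul_comm μ ε]
      exact D.d ζ hζ
    have h4 := norm_sub_le ((ω ^ 2 - Y.Q ζ) * V ζ +
      2 * I * ω ^ 2 * ζ * (σ * (h (-ζ) - k (-ζ))))
      ((Y.Q ζ - Y.Q (-ζ) + 2 * ε * I * ω ^ 2 * ζ) / ε * (σ * h (-ζ)))
    have h5 := norm_add_le ((ω ^ 2 - Y.Q ζ) * V ζ)
      (2 * I * ω ^ 2 * ζ * (σ * (h (-ζ) - k (-ζ))))
    refine h4.trans ?_
    nlinarith [h1, h2, h3, h5]

/-- the first comparison function -/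
private def StB_V (ω ζ : ℂ) : ℂ :=
  I * ω / 2 * ζ ^ 2 * sin (ω * ζ) + I / 2 * ζ * cos (ω * ζ) - I / 2 * ω⁻¹ * sin (ω * ζ)

private def StB_V' (ω ζ : ℂ) : ℂ :=
  I * ω / 2 * ζ * sin (ω * ζ) + I * ω ^ 2 / 2 * ζ ^ 2 * cos (ω * ζ)

/-- the second comparison function -/
private def StB_U (ω ζ : ℂ) : ℂ :=
  -(I / 2 * ζ ^ 2 * cos (ω * ζ)) + I / 2 * ω⁻¹ * ζ * sin (ω * ζ)

private def StB_U' (ω ζ : ℂ) : ℂ :=
  -(I / 2 * ζ * cos (ω * ζ)) + I * ω / 2 * ζ ^ 2 * sin (ω * ζ) + I / 2 * ω⁻¹ * sin (ω * ζ)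

private theorem StB_dsq (ζ : ℂ) : HasDerivAt (fun ζ : ℂ => ζ ^ 2) (2 * ζ) ζ := by
  have h := hasDerivAt_pow 2 ζ
  convert! h using 1
  norm_num

private theorem StB_dV (hω : ω ≠ 0) (ζ : ℂ) : HasDerivAt (StB_V ω) (StB_V' ω ζ) ζ := by
  have h1 := ((StB_dsq ζ).const_mul (I * ω / 2)).mul (StB_dsin ω ζ)
  have h2 := ((hasDerivAt_id ζ).const_mul (I / 2)).mul (StB_dcos ω ζ)
  have h3 := (StB_dsin ω ζ).const_mul (I / 2 * ω⁻¹)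
  have h := (h1.add h2).sub h3
  unfold StB_V'
  convert! h using 1
  simp only [id]
  field_simp
  ring

private theorem StB_dV' (hω : ω ≠ 0) (ζ : ℂ) :
    HasDerivAt (StB_V' ω) (-(ω ^ 2 * StB_V ω ζ) + 2 * I * ω ^ 2 * ζ * cos (ω * ζ)) ζ := by
  have h1 := ((hasDerivAt_id ζ).const_mul (I * ω / 2)).mul (StB_dsin ω ζ)
  have h2 := ((StB_dsq ζ).const_mul (I * ω ^ 2 / 2)).mul (StB_dcos ω ζ)
  have h := h1.add h2
  unfold StB_V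
  convert! h using 1
  simp only [id]
  field_simp
  ring

private theorem StB_dU (hω : ω ≠ 0) (ζ : ℂ) : HasDerivAt (StB_U ω) (StB_U' ω ζ) ζ := by
  have h1 := (((StB_dsq ζ).const_mul (I / 2)).mul (StB_dcos ω ζ)).neg
  have h2 := ((hasDerivAt_id ζ).const_mul (I / 2 * ω⁻¹)).mul (StB_dsin ω ζ)
  have h := h1.add h2
  unfold StB_U'
  convert! h using 1
  simp only [id]
  field_simp
  ring

private theorem StB_dU' (hω : ω ≠ 0) (ζ : ℂ) :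
    HasDerivAt (StB_U' ω) (-(ω ^ 2 * StB_U ω ζ) +
      2 * I * ω ^ 2 * ζ * (sin (ω * ζ) / ω)) ζ := by
  have h1 := (((hasDerivAt_id ζ).const_mul (I / 2)).mul (StB_dcos ω ζ)).neg
  have h2 := ((StB_dsq ζ).const_mul (I * ω / 2)).mul (StB_dsin ω ζ)
  have h3 := (StB_dsin ω ζ).const_mul (I / 2 * ω⁻¹)
  have h := (h1.add h2).add h3
  unfold StB_U
  convert! h using 1
  simp only [id]
  field_simp
  ring

private theorem StB_half : ‖(I / 2 : ℂ)‖ = 1 / 2 := by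
  rw [norm_div, norm_I]
  simp

private theorem StB_D.bV (D : StB_D Y W ω ρ ε μ) {ζ : ℂ} (hζ : ζ ∈ ball (0:ℂ) ρ) :
    ‖StB_V ω ζ‖ ≤ 2 * W ^ 3 * StB_T W := by
  have hW := D.hW
  have hT : 0 < StB_T W := Real.exp_pos _
  have hs : ‖sin (ω * ζ)‖ ≤ StB_T W := StB_sin (D.bωζ hζ)
  have hc : ‖cos (ω * ζ)‖ ≤ StB_T W := StB_cos (D.bωζ hζ)
  have hz := D.bz hζ
  have h1 : ‖I * ω / 2 * ζ ^ 2 * sin (ω * ζ)‖ ≤ 1 / 2 * W * W ^ 2 * StB_T W := by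
    have e : I * ω / 2 * ζ ^ 2 * sin (ω * ζ) = I / 2 * ω * ζ ^ 2 * sin (ω * ζ) := by ring
    rw [e, norm_mul, norm_mul, norm_mul, StB_half, norm_pow]
    refine mul_le_mul (mul_le_mul (mul_le_mul_of_nonneg_left D.hω (by norm_num))
      (pow_le_pow_left₀ (norm_nonneg _) hz 2) (by positivity) (by positivity)) hs
      (norm_nonneg _) (by positivity)
  have h2 : ‖I / 2 * ζ * cos (ω * ζ)‖ ≤ 1 / 2 * W * StB_T W := by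
    rw [norm_mul, norm_mul, StB_half]
    exact mul_le_mul (mul_le_mul_of_nonneg_left hz (by norm_num)) hc (norm_nonneg _)
      (by positivity)
  have h3 : ‖I / 2 * ω⁻¹ * sin (ω * ζ)‖ ≤ 1 / 2 * W * StB_T W := by
    rw [norm_mul, norm_mul, StB_half]
    exact mul_le_mul (mul_le_mul_of_nonneg_left D.inv (by norm_num)) hs (norm_nonneg _)
      (by positivity)
  have h4 := norm_sub_le (I * ω / 2 * ζ ^ 2 * sin (ω * ζ) + I / 2 * ζ * cos (ω * ζ))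
    (I / 2 * ω⁻¹ * sin (ω * ζ))
  have h5 := norm_add_le (I * ω / 2 * ζ ^ 2 * sin (ω * ζ)) (I / 2 * ζ * cos (ω * ζ))
  have h6 : W ≤ W ^ 3 := by
    calc W = W ^ 1 := (pow_one W).symm
      _ ≤ W ^ 3 := pow_le_pow_right₀ hW (by norm_num)
  have h7 : W * StB_T W ≤ W ^ 3 * StB_T W := mul_le_mul_of_nonneg_right h6 hT.le
  unfold StB_V
  have h8 : (0:ℝ) ≤ W ^ 3 * StB_T W := by positivity
  have h9 : 1 / 2 * W * W ^ 2 * StB_T W = 1 / 2 * (W ^ 3 * StB_T W) := by ring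
  linarith

private theorem StB_D.bU (D : StB_D Y W ω ρ ε μ) {ζ : ℂ} (hζ : ζ ∈ ball (0:ℂ) ρ) :
    ‖StB_U ω ζ‖ ≤ 2 * W ^ 3 * StB_T W := by
  have hW := D.hW
  have hT : 0 < StB_T W := Real.exp_pos _
  have hs : ‖sin (ω * ζ)‖ ≤ StB_T W := StB_sin (D.bωζ hζ)
  have hc : ‖cos (ω * ζ)‖ ≤ StB_T W := StB_cos (D.bωζ hζ)
  have hz := D.bz hζ
  have h1 : ‖-(I / 2 * ζ ^ 2 * cos (ω * ζ))‖ ≤ 1 / 2 * W ^ 2 * StB_T W := by
    rw [norm_neg, norm_mul, norm_mul, StB_half, norm_pow]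
    exact mul_le_mul (mul_le_mul_of_nonneg_left (pow_le_pow_left₀ (norm_nonneg _) hz 2)
      (by norm_num)) hc (norm_nonneg _) (by positivity)
  have h2 : ‖I / 2 * ω⁻¹ * ζ * sin (ω * ζ)‖ ≤ 1 / 2 * W * W * StB_T W := by
    rw [norm_mul, norm_mul, norm_mul, StB_half]
    exact mul_le_mul (mul_le_mul (mul_le_mul_of_nonneg_left D.inv (by norm_num)) hz
      (norm_nonneg _) (by positivity)) hs (norm_nonneg _) (by positivity)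
  have h4 := norm_add_le (-(I / 2 * ζ ^ 2 * cos (ω * ζ))) (I / 2 * ω⁻¹ * ζ * sin (ω * ζ))
  have h6 : W ^ 2 ≤ W ^ 3 := pow_le_pow_right₀ hW (by norm_num)
  have h7 : W ^ 2 * StB_T W ≤ W ^ 3 * StB_T W := mul_le_mul_of_nonneg_right h6 hT.le
  unfold StB_U
  have h8 : (0:ℝ) ≤ W ^ 3 * StB_T W := by positivity
  have h9 : 1 / 2 * W * W * StB_T W = 1 / 2 * (W ^ 2 * StB_T W) := by ring
  linarith

/-- the first order comparison -/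
private theorem StB_D.first (D : StB_D Y W ω ρ ε μ) : ∀ a ∈ ball (0:ℂ) ρ,
    ‖Y.c a 0 - cos (ω * a)‖ ≤ StB_T W * W * StB_K W * μ ∧
    ‖Y.s a 0 - sin (ω * a) / ω‖ ≤ StB_T W * W * StB_K W * μ ∧
    ‖Y.cd a 0 + ω * sin (ω * a)‖ ≤ StB_T W * W * StB_K W * μ ∧
    ‖Y.sd a 0 - cos (ω * a)‖ ≤ StB_T W * W * StB_K W * μ := by
  have h0 : (0:ℂ) ∈ ball (0:ℂ) ρ := mem_ball_self (by linarith [D.hρ1])
  have hT : 0 < StB_T W := Real.exp_pos _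
  have hω := D.ω0
  have hW := D.hW
  have hK : 0 < StB_K W := mul_pos (by linarith) (Real.exp_pos _)
  have k1 := D.cmp (G := μ * StB_T W) (y := fun ζ => Y.c ζ 0 - cos (ω * ζ))
    (y' := fun ζ => Y.cd ζ 0 - -(ω * sin (ω * ζ)))
    (g := fun ζ => (ω ^ 2 - Y.Q ζ) * cos (ω * ζ)) (mul_nonneg D.μ0 hT.le)
    (fun ζ hζ => (Sys.hasDerivAt_c D.on hζ).sub (StB_dcos ω ζ))
    (fun ζ hζ => by
      have h := (Sys.hasDerivAt_cd (l := 0) D.on hζ).sub ((StB_dsin ω ζ).const_mul ω).neg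
      convert! h using 1
      ring)
    (by simp only [mul_zero, cos_zero, Sys.c_self D.on h0, sub_self])
    (by simp only [mul_zero, sin_zero, Sys.cd_self, neg_zero, sub_self])
    (fun ζ hζ => by
      rw [norm_mul, norm_sub_rev]
      exact mul_le_mul (D.q ζ hζ) (StB_cos (D.bωζ hζ)) (norm_nonneg _) D.μ0)
  have k2 := D.cmp (G := μ * (StB_T W * W)) (y := fun ζ => Y.s ζ 0 - sin (ω * ζ) / ω)
    (y' := fun ζ => Y.sd ζ 0 - cos (ω * ζ))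
    (g := fun ζ => (ω ^ 2 - Y.Q ζ) * (sin (ω * ζ) * ω⁻¹))
    (mul_nonneg D.μ0 (by positivity))
    (fun ζ hζ => by
      have h := (Sys.hasDerivAt_s (l := 0) D.on hζ).sub ((StB_dsin ω ζ).div_const ω)
      convert! h using 1
      field_simp)
    (fun ζ hζ => by
      have h := (Sys.hasDerivAt_sd (l := 0) D.on hζ).sub (StB_dcos ω ζ)
      convert! h using 1
      field_simp
      ring)
    (by simp only [mul_zero, sin_zero, Sys.s_self, zero_div, sub_self])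
    (by simp only [mul_zero, cos_zero, Sys.sd_self D.on h0, sub_self])
    (fun ζ hζ => by
      rw [norm_mul, norm_sub_rev, norm_mul]
      exact mul_le_mul (D.q ζ hζ) (mul_le_mul (StB_sin (D.bωζ hζ)) D.inv (norm_nonneg _) hT.le)
        (by positivity) D.μ0)
  have e1 : μ * StB_T W * StB_K W ≤ StB_T W * W * StB_K W * μ := by
    have h1 : 0 ≤ μ * StB_T W * StB_K W := mul_nonneg (mul_nonneg D.μ0 hT.le) hK.le
    have h2 := mul_le_mul_of_nonneg_left hW h1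
    rw [mul_one] at h2
    refine h2.trans (le_of_eq ?_)
    ring
  have e2 : μ * (StB_T W * W) * StB_K W = StB_T W * W * StB_K W * μ := by ring
  intro a ha
  refine ⟨(k1 a ha).1.trans e1, (k2 a ha).1.trans e2.le, ?_, (k2 a ha).2.trans e2.le⟩
  have h := (k1 a ha).2.trans e1
  simp only [sub_neg_eq_add] at h
  exact h

/-- `f ζ = c (ζ, 0)`, `g ζ = s (ζ, 0)` solve `y'' + Q y = 0`. First order: `f - cos (ω ζ)` solves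
`y'' + Q y = (ω² - Q) cos (ω ζ)`, zero initial values: `ode_cmp` (`ω`, `ρ` bounded by `W`); in the same
way `g - sin (ω ζ) / ω`, and the derivatives `cd`, `sd`.
The node function: `f₁ ζ = f (-ζ)`, `g₁ ζ = - g (-ζ)`, `V = (f - f₁) / ε`, `U = (g - g₁) / ε`. Then
`V'' + Q V = - (Q ζ - Q (-ζ)) f₁ / ε`, which differs from `2 I ω² ζ cos (ω ζ)` by `O (μ)`, and
`U'' + Q U = - (Q ζ - Q (-ζ)) g₁ / ε`, which differs from `2 I ω² ζ sin (ω ζ) / ω` by `O (μ)`. With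
`p₁ = - I ω²` the functions
`V₀ = - (p₁/(2 ω)) ζ² sin - (p₁/(2 ω²)) ζ cos + (p₁/(2 ω³)) sin`,
`U₀ = (p₁/(2 ω²)) ζ² cos - (p₁/(2 ω³)) ζ sin` (arguments `ω ζ`)
satisfy `V₀'' + ω² V₀ = - 2 p₁ ζ cos`, `U₀'' + ω² U₀ = - 2 p₁ ζ sin / ω` with zero initial values, so
`V - V₀`, `U - U₀` are `O (μ)` by `ode_cmp`. Finally `c (a) s (-a) + c (-a) s (a) = - f g₁ + f₁ g =
ε (f U - V g)` at `a`, and `cos U₀ - V₀ sin / ω = (p₁ / (2 ω²)) (a² - sin² (ω a) / ω²) =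
- (I/2) (a² - sin² (ω a) / ω²)`. -/
theorem odd_limit {W : ℝ} (hW : 1 ≤ W) :
    ∃ C : ℝ, 0 < C ∧ ∀ (Y : Sys) (ω : ℂ) (ρ ε μ : ℝ), 1 ≤ ρ → ρ ≤ W → ‖ω‖ ≤ W → 1 ≤ W * ‖ω‖ →
      0 < ε → ε ≤ 1 → 0 ≤ μ → μ ≤ 1 → Y.On (ball 0 ρ) → (∀ ζ ∈ ball (0:ℂ) ρ, ‖Y.Q ζ - ω ^ 2‖ ≤ μ) →
      (∀ ζ ∈ ball (0:ℂ) ρ, ‖Y.Q ζ - Y.Q (-ζ) + 2 * ε * I * ω ^ 2 * ζ‖ ≤ ε * μ) →
      ∀ a ∈ ball (0:ℂ) ρ, ‖Y.c a 0 - cos (ω * a)‖ ≤ C * μ ∧ ‖Y.s a 0 - sin (ω * a) / ω‖ ≤ C * μ ∧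
        ‖Y.cd a 0 + ω * sin (ω * a)‖ ≤ C * μ ∧ ‖Y.sd a 0 - cos (ω * a)‖ ≤ C * μ ∧
        ‖Y.c a 0 * Y.s (-a) 0 + Y.c (-a) 0 * Y.s a 0 +
          ε * (I / 2 * (a ^ 2 - sin (ω * a) ^ 2 / ω ^ 2))‖ ≤ C * (ε * μ) := by
  have hW0 : 0 < W := by linarith
  set T := StB_T W with hTdef
  set K := StB_K W with hKdef
  have hT : 0 < T := Real.exp_pos _
  have hK : 0 < K := mul_pos hW0 (Real.exp_pos _)
  obtain ⟨C₁, hC₁⟩ : ∃ C₁, C₁ = T * W * K := ⟨_, rfl⟩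
  obtain ⟨N₀, hN₀⟩ : ∃ N₀, N₀ = 2 * W ^ 3 * T := ⟨_, rfl⟩
  obtain ⟨B, hB⟩ : ∃ B, B = T * W + C₁ := ⟨_, rfl⟩
  obtain ⟨C₂, hC₂⟩ : ∃ C₂, C₂ = (N₀ + 2 * W ^ 3 * C₁ + B) * K := ⟨_, rfl⟩
  have p1 : 0 < C₁ := by rw [hC₁]; positivity
  have pN : 0 < N₀ := by rw [hN₀]; positivity
  have pB : 0 < B := by rw [hB]; positivity
  have p2 : 0 < C₂ := by rw [hC₂]; positivity
  refine ⟨C₁ + (C₁ * (N₀ + C₂) + T * C₂ + C₂ * B + N₀ * C₁), by positivity, ?_⟩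
  intro Y ω ρ ε μ hρ1 hρW hω hω' ε0 ε1 μ0 μ1 on q d
  have D : StB_D Y W ω ρ ε μ := ⟨hW, hρ1, hρW, hω, hω', ε0, μ0, μ1, on, q, d⟩
  have hz : (0:ℂ) ∈ ball (0:ℂ) ρ := mem_ball_self (by linarith)
  have hω0 := D.ω0
  have hε : (ε:ℂ) ≠ 0 := by exact_mod_cast ε0.ne'
  have hF := D.first
  rw [← hTdef, ← hKdef, ← hC₁] at hF
  have hcos : ∀ ζ ∈ ball (0:ℂ) ρ, ‖cos (ω * ζ)‖ ≤ T := fun ζ hζ => StB_cos (D.bωζ hζ)
  have hsin : ∀ ζ ∈ ball (0:ℂ) ρ, ‖sin (ω * ζ) / ω‖ ≤ T * W := fun ζ hζ => by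
    rw [div_eq_mul_inv, norm_mul]
    exact mul_le_mul (StB_sin (D.bωζ hζ)) D.inv (norm_nonneg _) hT.le
  have hμC : C₁ * μ ≤ C₁ := by
    have := mul_le_mul_of_nonneg_left μ1 p1.le
    rwa [mul_one] at this
  have hTW : T ≤ T * W := by
    have := mul_le_mul_of_nonneg_left hW hT.le
    rwa [mul_one] at this
  have bc : ∀ ζ ∈ ball (0:ℂ) ρ, ‖Y.c ζ 0‖ ≤ B := fun ζ hζ => by
    have h1 := norm_add_le (Y.c ζ 0 - cos (ω * ζ)) (cos (ω * ζ))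
    rw [sub_add_cancel] at h1
    have h2 := (hF ζ hζ).1
    have h3 := hcos ζ hζ
    rw [hB]
    linarith
  have bs : ∀ ζ ∈ ball (0:ℂ) ρ, ‖Y.s ζ 0‖ ≤ B := fun ζ hζ => by
    have h1 := norm_add_le (Y.s ζ 0 - sin (ω * ζ) / ω) (sin (ω * ζ) / ω)
    rw [sub_add_cancel] at h1
    have h2 := (hF ζ hζ).2.1
    have h3 := hsin ζ hζ
    rw [hB]
    linarith
  have hV := D.odd (σ := 1) (Or.inl rfl) (h := fun ζ => Y.c ζ 0) (h' := fun ζ => Y.cd ζ 0)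
    (k := fun ζ => cos (ω * ζ)) (V := StB_V ω) (V' := StB_V' ω) (C₁ := C₁) (N₀ := N₀) (B := B)
    p1.le pN.le pB.le (fun ζ hζ => Sys.hasDerivAt_c D.on hζ)
    (fun ζ hζ => Sys.hasDerivAt_cd (l := 0) D.on hζ) (one_mul _).symm
    (by simp only [Sys.cd_self, mul_zero, neg_zero])
    (fun ζ => by simp only [one_mul, mul_neg, cos_neg])
    (fun ζ hζ => (hF ζ hζ).1) bc (fun ζ _ => StB_dV hω0 ζ) (fun ζ _ => StB_dV' hω0 ζ)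
    (by simp [StB_V]) (by simp [StB_V']) (fun ζ hζ => by rw [hN₀]; exact D.bV hζ)
  have hU := D.odd (σ := -1) (Or.inr rfl) (h := fun ζ => Y.s ζ 0) (h' := fun ζ => Y.sd ζ 0)
    (k := fun ζ => sin (ω * ζ) / ω) (V := StB_U ω) (V' := StB_U' ω) (C₁ := C₁) (N₀ := N₀)
    (B := B)
    p1.le pN.le pB.le (fun ζ hζ => Sys.hasDerivAt_s D.on hζ)
    (fun ζ hζ => Sys.hasDerivAt_sd (l := 0) D.on hζ)
    (by simp only [Sys.s_self, mul_zero])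
    (by ring)
    (fun ζ => by simp only [mul_neg, sin_neg]; ring)
    (fun ζ hζ => (hF ζ hζ).2.1) bs (fun ζ _ => StB_dU hω0 ζ) (fun ζ _ => StB_dU' hω0 ζ)
    (by simp [StB_U]) (by simp [StB_U']) (fun ζ hζ => by rw [hN₀]; exact D.bU hζ)
  have eC : μ * (N₀ + 2 * W ^ 3 * C₁ + B) * K = μ * C₂ := by rw [hC₂]; ring
  intro a ha
  have pR : 0 ≤ C₁ * (N₀ + C₂) + T * C₂ + C₂ * B + N₀ * C₁ := by positivity
  have up : ∀ x : ℝ, x ≤ C₁ * μ → x ≤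
      (C₁ + (C₁ * (N₀ + C₂) + T * C₂ + C₂ * B + N₀ * C₁)) * μ := fun x hx => by
    have := mul_nonneg pR μ0
    linarith
  obtain ⟨h1, h2, h3, h4⟩ := hF a ha
  refine ⟨up _ h1, up _ h2, up _ h3, up _ h4, ?_⟩
  have hVa : ‖(Y.c a 0 - Y.c (-a) 0) / ε - StB_V ω a‖ ≤ μ * C₂ := by
    have := hV a ha
    rw [← hKdef, eC] at this
    simpa only [one_mul] using this
  have hUa : ‖(Y.s a 0 + Y.s (-a) 0) / ε - StB_U ω a‖ ≤ μ * C₂ := by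
    have := hU a ha
    rw [← hKdef, eC] at this
    simpa only [neg_mul, one_mul, sub_neg_eq_add] using this
  obtain ⟨V, hVd⟩ : ∃ V, V = (Y.c a 0 - Y.c (-a) 0) / ε := ⟨_, rfl⟩
  obtain ⟨U, hUd⟩ : ∃ U, U = (Y.s a 0 + Y.s (-a) 0) / ε := ⟨_, rfl⟩
  rw [← hVd] at hVa
  rw [← hUd] at hUa
  have eV : Y.c (-a) 0 = Y.c a 0 - ε * V := by
    rw [hVd]
    field_simp
    ring
  have eU : Y.s (-a) 0 = ε * U - Y.s a 0 := by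
    rw [hUd]
    field_simp
    ring
  have hUn : ‖U‖ ≤ N₀ + C₂ := by
    have h5 := norm_add_le (U - StB_U ω a) (StB_U ω a)
    rw [sub_add_cancel] at h5
    have h6 : ‖StB_U ω a‖ ≤ N₀ := by rw [hN₀]; exact D.bU ha
    have h7 : μ * C₂ ≤ C₂ := by
      have := mul_le_mul_of_nonneg_right μ1 p2.le
      rwa [one_mul] at this
    linarith
  have hVn : ‖StB_V ω a‖ ≤ N₀ := by rw [hN₀]; exact D.bV ha
  have id0 : cos (ω * a) * StB_U ω a - StB_V ω a * (sin (ω * a) / ω) =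
      -(I / 2 * (a ^ 2 - sin (ω * a) ^ 2 / ω ^ 2)) := by
    have hcs := Complex.sin_sq_add_cos_sq (ω * a)
    unfold StB_U StB_V
    have e1 : cos (ω * a) * (-(I / 2 * a ^ 2 * cos (ω * a)) +
        I / 2 * ω⁻¹ * a * sin (ω * a)) -
        (I * ω / 2 * a ^ 2 * sin (ω * a) + I / 2 * a * cos (ω * a) -
          I / 2 * ω⁻¹ * sin (ω * a)) * (sin (ω * a) / ω) =
        -(I / 2 * a ^ 2 * (sin (ω * a) ^ 2 + cos (ω * a) ^ 2)) +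
          I / 2 * (sin (ω * a) ^ 2 / ω ^ 2) := by
      field_simp
      ring
    rw [e1, hcs]
    ring
  have e0 : Y.c a 0 * Y.s (-a) 0 + Y.c (-a) 0 * Y.s a 0 +
      ε * (I / 2 * (a ^ 2 - sin (ω * a) ^ 2 / ω ^ 2)) =
      ε * ((Y.c a 0 - cos (ω * a)) * U + cos (ω * a) * (U - StB_U ω a) -
        (V - StB_V ω a) * Y.s a 0 - StB_V ω a * (Y.s a 0 - sin (ω * a) / ω)) := by
    rw [eV, eU]
    linear_combination (ε:ℂ) * id0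
  rw [e0, norm_mul]
  have h5 : ‖(ε:ℂ)‖ = ε := by
    rw [Complex.norm_real, Real.norm_eq_abs, abs_of_pos ε0]
  rw [h5]
  have q1 : ‖(Y.c a 0 - cos (ω * a)) * U‖ ≤ C₁ * μ * (N₀ + C₂) := by
    rw [norm_mul]
    exact mul_le_mul h1 hUn (norm_nonneg _) (mul_nonneg p1.le μ0)
  have q2 : ‖cos (ω * a) * (U - StB_U ω a)‖ ≤ T * (μ * C₂) := by
    rw [norm_mul]
    exact mul_le_mul (hcos a ha) hUa (norm_nonneg _) hT.le
  have q3 : ‖(V - StB_V ω a) * Y.s a 0‖ ≤ μ * C₂ * B := by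
    rw [norm_mul]
    exact mul_le_mul hVa (bs a ha) (norm_nonneg _) (mul_nonneg μ0 p2.le)
  have q4 : ‖StB_V ω a * (Y.s a 0 - sin (ω * a) / ω)‖ ≤ N₀ * (C₁ * μ) := by
    rw [norm_mul]
    exact mul_le_mul hVn h2 (norm_nonneg _) pN.le
  have r1 := norm_sub_le ((Y.c a 0 - cos (ω * a)) * U + cos (ω * a) * (U - StB_U ω a) -
    (V - StB_V ω a) * Y.s a 0) (StB_V ω a * (Y.s a 0 - sin (ω * a) / ω))
  have r2 := norm_sub_le ((Y.c a 0 - cos (ω * a)) * U + cos (ω * a) * (U - StB_U ω a))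
    ((V - StB_V ω a) * Y.s a 0)
  have r3 := norm_add_le ((Y.c a 0 - cos (ω * a)) * U) (cos (ω * a) * (U - StB_U ω a))
  have r4 : ‖(Y.c a 0 - cos (ω * a)) * U + cos (ω * a) * (U - StB_U ω a) -
      (V - StB_V ω a) * Y.s a 0 - StB_V ω a * (Y.s a 0 - sin (ω * a) / ω)‖ ≤
      (C₁ * (N₀ + C₂) + T * C₂ + C₂ * B + N₀ * C₁) * μ := by
    linarith
  have r5 := mul_le_mul_of_nonneg_left r4 ε0.le
  have r6 : 0 ≤ C₁ * (ε * μ) := mul_nonneg p1.le (mul_nonneg ε0.le μ0)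
  refine r5.trans ?_
  linarith

end Pool.Agent.MP_ae5b4e_an_NB5
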