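import Pool.Agent.Lib.MP_ae5b4e_an_NB5.Defs

/-!
# MP_ae5b4e_an, project NB_5(A): comparison for second order equations
-/

noncomputable section

namespace Pool.Agent.MP_ae5b4e_an_NB5

open Complex Set Filter Topology Metric
open Pool.Agent.MP_ae5b4e_an_NBT (St)
open Pool.Agent.MP_ae5b4e_an_NB2 (Sys)
open scoped ComplexConjugate

/-- Gronwall along the ray `t ↦ t ζ`, `0 ≤ t ≤ 1`: the norm of `v = (y, y')` (sup norm) satisfies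
`‖v'‖ ≤ ρ ((1 + M) ‖v‖ + G)`, so `‖v‖ ≤ G (exp ((1 + M) ρ) - 1) / (1 + M) ≤ G ρ exp ((1 + M) ρ)`
(`norm_le_gronwallBound_of_norm_deriv_right_le`). -/
theorem ode_cmp {ρ M G : ℝ} {p g y y' : ℂ → ℂ} (hρ : 0 < ρ) (hM : 0 ≤ M) (hG : 0 ≤ G)
    (hy : ∀ ζ ∈ ball (0:ℂ) ρ, HasDerivAt y (y' ζ) ζ)
    (hy' : ∀ ζ ∈ ball (0:ℂ) ρ, HasDerivAt y' (-(p ζ * y ζ) + g ζ) ζ) (h0 : y 0 = 0)
    (h0' : y' 0 = 0) (hp : ∀ ζ ∈ ball (0:ℂ) ρ, ‖p ζ‖ ≤ M) (hg : ∀ ζ ∈ ball (0:ℂ) ρ, ‖g ζ‖ ≤ G) :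
    ∀ ζ ∈ ball (0:ℂ) ρ, ‖y ζ‖ ≤ G * ρ * Real.exp ((1 + M) * ρ) ∧
      ‖y' ζ‖ ≤ G * ρ * Real.exp ((1 + M) * ρ) := by
  intro ζ hζ
  have hζn : ‖ζ‖ < ρ := by simpa using hζ
  have hmem : ∀ t ∈ Icc (0:ℝ) 1, (t:ℂ) * ζ ∈ ball (0:ℂ) ρ := by
    intro t ht
    rw [mem_ball_zero_iff, norm_mul, Complex.norm_real, Real.norm_of_nonneg ht.1]
    have : t * ‖ζ‖ ≤ 1 * ‖ζ‖ := mul_le_mul_of_nonneg_right ht.2 (norm_nonneg _)
    linarith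
  set f : ℝ → ℂ × ℂ := fun t => (y ((t:ℂ) * ζ), y' ((t:ℂ) * ζ)) with hf
  set f' : ℝ → ℂ × ℂ := fun t => (y' ((t:ℂ) * ζ) * ζ,
    (-(p ((t:ℂ) * ζ) * y ((t:ℂ) * ζ)) + g ((t:ℂ) * ζ)) * ζ) with hf'
  have hlin : ∀ t : ℝ, HasDerivAt (fun t : ℝ => (t:ℂ) * ζ) ζ t := by
    intro t
    have h1 : HasDerivAt (fun t : ℝ => (t:ℂ)) 1 t := Complex.ofRealCLM.hasDerivAt
    simpa using h1.mul_const ζ
  have hd : ∀ t ∈ Icc (0:ℝ) 1, HasDerivAt f (f' t) t := by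
    intro t ht
    exact ((hy _ (hmem t ht)).comp t (hlin t)).prodMk ((hy' _ (hmem t ht)).comp t (hlin t))
  have hK : 0 < (1 + M) * ρ := by positivity
  have hb : ∀ t ∈ Ico (0:ℝ) 1, ‖f' t‖ ≤ (1 + M) * ρ * ‖f t‖ + ρ * G := by
    intro t ht
    have ht' := hmem t (Ico_subset_Icc_self ht)
    have h1 : ‖y ((t:ℂ) * ζ)‖ ≤ ‖f t‖ := norm_fst_le (f t)
    have h2 : ‖y' ((t:ℂ) * ζ)‖ ≤ ‖f t‖ := norm_snd_le (f t)
    have h3 : (0:ℝ) ≤ ‖f t‖ := norm_nonneg _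
    refine norm_prod_le_iff.2 ⟨?_, ?_⟩
    · show ‖y' ((t:ℂ) * ζ) * ζ‖ ≤ _
      rw [norm_mul]
      have h4 : ‖y' ((t:ℂ) * ζ)‖ * ‖ζ‖ ≤ ‖f t‖ * ρ :=
        mul_le_mul h2 hζn.le (norm_nonneg _) h3
      nlinarith [mul_nonneg (mul_nonneg hM hρ.le) h3, mul_nonneg hρ.le hG]
    · show ‖(-(p ((t:ℂ) * ζ) * y ((t:ℂ) * ζ)) + g ((t:ℂ) * ζ)) * ζ‖ ≤ _
      rw [norm_mul]
      have h4 : ‖-(p ((t:ℂ) * ζ) * y ((t:ℂ) * ζ)) + g ((t:ℂ) * ζ)‖ ≤ M * ‖f t‖ + G := by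
        refine (norm_add_le _ _).trans (add_le_add ?_ (hg _ ht'))
        rw [norm_neg, norm_mul]
        exact mul_le_mul (hp _ ht') h1 (norm_nonneg _) hM
      have h5 : ‖-(p ((t:ℂ) * ζ) * y ((t:ℂ) * ζ)) + g ((t:ℂ) * ζ)‖ * ‖ζ‖ ≤
          (M * ‖f t‖ + G) * ρ :=
        mul_le_mul h4 hζn.le (norm_nonneg _) (by positivity)
      nlinarith [mul_nonneg hρ.le h3]
  have hfin := norm_le_gronwallBound_of_norm_deriv_right_le (f := f) (f' := f') (δ := 0)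
    (K := (1 + M) * ρ) (ε := ρ * G) (a := 0) (b := 1)
    (fun t ht => (hd t ht).continuousAt.continuousWithinAt)
    (fun t ht => (hd t (Ico_subset_Icc_self ht)).hasDerivWithinAt)
    (by simp [hf, h0, h0']) hb 1 (right_mem_Icc.2 zero_le_one)
  rw [gronwallBound_of_K_ne_0 hK.ne'] at hfin
  have hexp : Real.exp ((1 + M) * ρ) - 1 ≤ (1 + M) * ρ * Real.exp ((1 + M) * ρ) := by
    have h1 := Real.add_one_le_exp (-((1 + M) * ρ))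
    have h2 := Real.exp_pos ((1 + M) * ρ)
    have h3 : Real.exp (-((1 + M) * ρ)) * Real.exp ((1 + M) * ρ) = 1 := by
      rw [← Real.exp_add]
      simp
    nlinarith [mul_le_mul_of_nonneg_right h1 h2.le]
  have hle : ‖f 1‖ ≤ G * ρ * Real.exp ((1 + M) * ρ) := by
    refine hfin.trans ?_
    have h1 : ρ * G / ((1 + M) * ρ) * (Real.exp ((1 + M) * ρ) - 1) ≤
        ρ * G / ((1 + M) * ρ) * ((1 + M) * ρ * Real.exp ((1 + M) * ρ)) :=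
      mul_le_mul_of_nonneg_left hexp (by positivity)
    have h2 : ρ * G / ((1 + M) * ρ) * ((1 + M) * ρ * Real.exp ((1 + M) * ρ)) =
        G * ρ * Real.exp ((1 + M) * ρ) := by
      field_simp
    simp only [sub_zero, mul_one, zero_mul, zero_add]
    linarith
  have h1 : (f 1).1 = y ζ := by simp [hf]
  have h2 : (f 1).2 = y' ζ := by simp [hf]
  rw [← h1, ← h2]
  exact ⟨(norm_fst_le _).trans hle, (norm_snd_le _).trans hle⟩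

end Pool.Agent.MP_ae5b4e_an_NB5
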