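import Pool.Agent.Lib.MP_ae5b4e_an_NB5.SpD

/-!
# MP_ae5b4e_an, project NB_5(A): closeness to the model orbit
-/

noncomputable section

namespace Pool.Agent.MP_ae5b4e_an_NB5

open Complex Set Filter Topology Metric
open Pool.Agent.MP_ae5b4e_an_NBT (St)
open Pool.Agent.MP_ae5b4e_an_NB2 (Sys)
open scoped ComplexConjugate

private theorem invc_eq_reProdIm (ϑ₁ r : ℝ) : Rc ϑ₁ r = Icc (-r) (ϑ₁ + r) ×ℂ Icc (-r) r := by
  ext x
  simp only [Rc, Set.mem_ofPred_eq, mem_reProdIm, mem_Icc, abs_le]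
  tauto

private theorem invc_compact (ϑ₁ r : ℝ) : IsCompact (Rc ϑ₁ r) := by
  rw [invc_eq_reProdIm]
  exact isCompact_Icc.reProdIm isCompact_Icc

private theorem invc_convex (ϑ₁ r : ℝ) : Convex ℝ (Rc ϑ₁ r) := by
  intro x hx y hy a b ha hb hab
  obtain ⟨x1, x2, x3⟩ := hx
  obtain ⟨y1, y2, y3⟩ := hy
  rw [abs_le] at x3 y3
  have e : b = 1 - a := by linarith
  subst e
  refine ⟨?_, ?_, ?_⟩
  · simp only [add_re, real_smul, mul_re, ofReal_re, ofReal_im]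
    nlinarith
  · simp only [add_re, real_smul, mul_re, ofReal_re, ofReal_im]
    nlinarith
  · simp only [add_im, real_smul, mul_im, ofReal_re, ofReal_im]
    rw [abs_le]
    constructor <;> nlinarith

/-- `Lm` is Lipschitz on the rectangle -/
private theorem invc_lip {P Lm : ℂ → ℂ} (hS : Sp P Lm) {ϑ₁ r : ℝ}
    (hsub : Rc ϑ₁ r ⊆ ball 0 Real.pi) :
    ∃ C : ℝ, 0 ≤ C ∧ ∀ x ∈ Rc ϑ₁ r, ∀ y ∈ Rc ϑ₁ r, ‖Lm x - Lm y‖ ≤ C * ‖x - y‖ := by
  have hc : ContinuousOn (deriv Lm) (Rc ϑ₁ r) := fun x hx =>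
    (hS.anL x (hsub hx)).deriv.continuousAt.continuousWithinAt
  obtain ⟨C, hC⟩ := (invc_compact ϑ₁ r).exists_bound_of_continuousOn hc
  refine ⟨max C 0, le_max_right _ _, fun x hx y hy => ?_⟩
  exact (invc_convex ϑ₁ r).norm_image_sub_le_of_norm_deriv_le
    (fun z hz => (hS.anL z (hsub hz)).differentiableAt)
    (fun z hz => (hC z hz).trans (le_max_left _ _)) hy hx

/-- the estimate of the difference of the values of `Hf` -/
private theorem invc_est {R v₁ θ₁ : ℝ} (hR : 1 ≤ R) (h1 : θ₁ ≤ 1) {g : ℝ} {u T Γ : ℂ}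
    (hg : 1 / R ≤ g) (hv : (u - Real.pi + 2 * Real.log g * I).im < v₁)
    (hΓ : ‖Γ - g * I‖ ≤ θ₁) (hT : ‖T - u‖ ≤ θ₁) :
    ‖Γ * exp (-(I * T / 2)) - exp (-(I * (u - Real.pi + 2 * Real.log g * I) / 2))‖ ≤
      (2 * R + 1) * Real.exp (v₁ / 2) * θ₁ := by
  have hR0 : 0 < R := lt_of_lt_of_le one_pos hR
  have hg0 : 0 < g := lt_of_lt_of_le (by positivity) hg
  have hθ0 : 0 ≤ θ₁ := (norm_nonneg _).trans hT
  have e1 : exp (-(I * (u - Real.pi + 2 * Real.log g * I) / 2)) = g * I * exp (-(I * u / 2)) := by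
    have h2 : -(I * (u - Real.pi + 2 * Real.log g * I) / 2) =
        -(I * u / 2) + Real.pi / 2 * I + Real.log g := by
      linear_combination (-(Real.log g : ℂ)) * I_mul_I
    rw [h2, Complex.exp_add, Complex.exp_add, Complex.exp_pi_div_two_mul_I, ← Complex.ofReal_exp,
      Real.exp_log hg0]
    ring
  have e2 : exp (-(I * T / 2)) = exp (-(I * u / 2)) * exp (-(I * (T - u) / 2)) := by
    rw [← Complex.exp_add]
    congr 1
    ring
  have e3 : ‖exp (-(I * u / 2))‖ = Real.exp (u.im / 2) := by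
    rw [Complex.norm_exp]
    congr 1
    simp
    ring
  have him : (u - Real.pi + 2 * Real.log g * I).im = u.im + 2 * Real.log g := by
    simp
  have e4 : g * Real.exp (u.im / 2) ≤ Real.exp (v₁ / 2) := by
    have : g * Real.exp (u.im / 2) = Real.exp ((u.im + 2 * Real.log g) / 2) := by
      have : (u.im + 2 * Real.log g) / 2 = Real.log g + u.im / 2 := by ring
      rw [this, Real.exp_add, Real.exp_log hg0]
    rw [this]
    apply Real.exp_le_exp.2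
    rw [him] at hv
    linarith
  have e5 : Real.exp (u.im / 2) ≤ R * Real.exp (v₁ / 2) := by
    have h3 : 1 ≤ R * g := by
      rw [div_le_iff₀ hR0] at hg
      linarith
    calc Real.exp (u.im / 2) ≤ (R * g) * Real.exp (u.im / 2) :=
          le_mul_of_one_le_left (Real.exp_pos _).le h3
      _ = R * (g * Real.exp (u.im / 2)) := by ring
      _ ≤ R * Real.exp (v₁ / 2) := mul_le_mul_of_nonneg_left e4 hR0.le
  have hs : ‖-(I * (T - u) / 2)‖ ≤ θ₁ / 2 := by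
    rw [norm_neg, norm_div, norm_mul, Complex.norm_I, one_mul]
    simp only [Complex.norm_ofNat]
    linarith
  have e6 : ‖exp (-(I * (T - u) / 2)) - 1‖ ≤ θ₁ := by
    have := Complex.norm_exp_sub_one_le (x := -(I * (T - u) / 2)) (by linarith)
    linarith
  have e7 : ‖exp (-(I * (T - u) / 2))‖ ≤ 2 := by
    calc ‖exp (-(I * (T - u) / 2))‖ = ‖(exp (-(I * (T - u) / 2)) - 1) + 1‖ := by ring_nf
      _ ≤ ‖exp (-(I * (T - u) / 2)) - 1‖ + ‖(1:ℂ)‖ := norm_add_le _ _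
      _ ≤ 2 := by rw [norm_one]; linarith
  have e8 : Γ * exp (-(I * T / 2)) - exp (-(I * (u - Real.pi + 2 * Real.log g * I) / 2)) =
      (Γ - g * I) * (exp (-(I * u / 2)) * exp (-(I * (T - u) / 2))) +
        g * I * (exp (-(I * u / 2)) * (exp (-(I * (T - u) / 2)) - 1)) := by
    rw [e1, e2]
    ring
  rw [e8]
  calc _ ≤ ‖(Γ - g * I) * (exp (-(I * u / 2)) * exp (-(I * (T - u) / 2)))‖ +
        ‖g * I * (exp (-(I * u / 2)) * (exp (-(I * (T - u) / 2)) - 1))‖ := norm_add_le _ _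
    _ = ‖Γ - g * I‖ * (Real.exp (u.im / 2) * ‖exp (-(I * (T - u) / 2))‖) +
        g * (Real.exp (u.im / 2) * ‖exp (-(I * (T - u) / 2)) - 1‖) := by
      rw [norm_mul, norm_mul, norm_mul, norm_mul, norm_mul, e3, Complex.norm_I, mul_one,
        Complex.norm_real, Real.norm_of_nonneg hg0.le]
    _ ≤ θ₁ * ((R * Real.exp (v₁ / 2)) * 2) + g * (Real.exp (u.im / 2) * θ₁) := by
      gcongr
    _ = θ₁ * ((R * Real.exp (v₁ / 2)) * 2) + (g * Real.exp (u.im / 2)) * θ₁ := by ring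
    _ ≤ θ₁ * ((R * Real.exp (v₁ / 2)) * 2) + Real.exp (v₁ / 2) * θ₁ := by gcongr
    _ = (2 * R + 1) * Real.exp (v₁ / 2) * θ₁ := by ring

/-- **Closeness.** `ϑ = exp (- I z / 2) a`, `Γ = P ϑ a`, `T = z + I Lm ϑ`.
Exactly: `Hf ϑ = Γ exp (- I T / 2)`.
Since `g I exp (- I u / 2) = exp (- I τ / 2)` for `τ = u - π + 2 I log g`,
`‖Hf ϑ - exp (- I τ/2)‖ ≤ (‖Γ - g I‖ exp (θ₁/2) + g (exp (θ₁/2) - 1)) exp (Im u / 2) ≤
(2 R + 1) exp (v₁ / 2) θ₁` (`g exp (Im u / 2) = exp (Im τ / 2) < exp (v₁/2)`, `g ≥ 1/R`). `Th.inj`: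
`‖ϑ - th τ‖ ≤ (2 R + 1) exp (v₁/2) θ₁ / m`, so `ϑ ∈ Rc ϑ₁ (3 r / 4)` for small `θ₁` (`Th.mem`), and
`z - (u - I Lm (th τ)) = (T - u) - I (Lm ϑ - Lm (th τ))`, `Lm` is Lipschitz on `Rc ϑ₁ r`. -/
theorem inv_close {P Lm : ℂ → ℂ} (hS : Sp P Lm) {ϑ₁ r δ₁ m v₁ : ℝ} {th : ℂ → ℂ}
    (hT : Th P Lm ϑ₁ r δ₁ m v₁ th) {R θ : ℝ} (hR : 1 ≤ R) (hθ : 0 < θ) :
    ∃ θ₁ : ℝ, 0 < θ₁ ∧ θ₁ ≤ 1 ∧ ∀ (g : ℝ) (u z a : ℂ), 1 / R ≤ g → g ≤ R →
      u - Real.pi + 2 * Real.log g * I ∈ Ts δ₁ v₁ → exp (-(I * z / 2)) * a ∈ Rc ϑ₁ r →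
      ‖P (exp (-(I * z / 2)) * a) * a - g * I‖ ≤ θ₁ →
      ‖z + I * Lm (exp (-(I * z / 2)) * a) - u‖ ≤ θ₁ →
      exp (-(I * z / 2)) * a ∈ Rc ϑ₁ (3 * r / 4) ∧
        ‖z - (u - I * Lm (th (u - Real.pi + 2 * Real.log g * I)))‖ ≤ θ := by
  obtain ⟨C, hC0, hC⟩ := invc_lip hS hT.sub
  have hm := hT.m_pos
  have hr := hT.r_pos
  have hR0 : 0 < R := lt_of_lt_of_le one_pos hR
  obtain ⟨K, hK⟩ : ∃ K : ℝ, K = (2 * R + 1) * Real.exp (v₁ / 2) / m := ⟨_, rfl⟩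
  have hK0 : 0 < K := by rw [hK]; positivity
  refine ⟨min 1 (min (r / (4 * K)) (θ / (1 + C * K))), by positivity, min_le_left _ _, ?_⟩
  generalize hθ₁ : min 1 (min (r / (4 * K)) (θ / (1 + C * K))) = θ₁
  have h1 : θ₁ ≤ 1 := by rw [← hθ₁]; exact min_le_left _ _
  have h2 : θ₁ ≤ r / (4 * K) := by
    rw [← hθ₁]; exact (min_le_right _ _).trans (min_le_left _ _)
  have h3 : θ₁ ≤ θ / (1 + C * K) := by
    rw [← hθ₁]; exact (min_le_right _ _).trans (min_le_right _ _)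
  intro g u z a hg hg' hτ hϑ hΓ hTu
  have h4 : Hf P Lm (exp (-(I * z / 2)) * a) = P (exp (-(I * z / 2)) * a) * a *
      exp (-(I * (z + I * Lm (exp (-(I * z / 2)) * a)) / 2)) := by
    have : -(I * (z + I * Lm (exp (-(I * z / 2)) * a)) / 2) =
        -(I * z / 2) + Lm (exp (-(I * z / 2)) * a) / 2 := by
      linear_combination (-(Lm (exp (-(I * z / 2)) * a)) / 2) * I_mul_I
    rw [this, Complex.exp_add, Hf]
    ring
  have h5 := invc_est hR h1 hg hτ.2 hΓ hTu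
  rw [← h4, ← hT.eq _ hτ] at h5
  have hmem := hT.mem _ hτ
  have hmem' : th (u - Real.pi + 2 * Real.log g * I) ∈ Rc ϑ₁ r := by
    obtain ⟨m1, m2, m3⟩ := hmem
    exact ⟨by linarith, by linarith, by linarith⟩
  have h6 := (hT.inj _ hϑ _ hmem').trans h5
  have h7 : ‖exp (-(I * z / 2)) * a - th (u - Real.pi + 2 * Real.log g * I)‖ ≤ K * θ₁ := by
    rw [hK, div_mul_eq_mul_div, le_div_iff₀ hm]
    linarith
  have h8 : K * θ₁ ≤ r / 4 := by
    rw [le_div_iff₀ (by positivity)] at h2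
    linarith
  have h9 : θ₁ + C * (K * θ₁) ≤ θ := by
    rw [le_div_iff₀ (by positivity)] at h3
    linarith
  refine ⟨?_, ?_⟩
  · obtain ⟨m1, m2, m3⟩ := hmem
    have hre := (abs_re_le_norm _).trans (h7.trans h8)
    have him := (abs_im_le_norm _).trans (h7.trans h8)
    rw [Complex.sub_re, abs_le] at hre
    rw [Complex.sub_im, abs_le] at him
    rw [abs_le] at m3
    refine ⟨by linarith, by linarith, ?_⟩
    rw [abs_le]
    constructor <;> linarith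
  · have h10 : z - (u - I * Lm (th (u - Real.pi + 2 * Real.log g * I))) =
        (z + I * Lm (exp (-(I * z / 2)) * a) - u) - I * (Lm (exp (-(I * z / 2)) * a) -
          Lm (th (u - Real.pi + 2 * Real.log g * I))) := by ring
    rw [h10]
    calc _ ≤ ‖z + I * Lm (exp (-(I * z / 2)) * a) - u‖ + ‖I * (Lm (exp (-(I * z / 2)) * a) -
          Lm (th (u - Real.pi + 2 * Real.log g * I)))‖ := norm_sub_le _ _
      _ ≤ θ₁ + C * (K * θ₁) := by
        rw [norm_mul, Complex.norm_I, one_mul]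
        refine add_le_add hTu ((hC _ hϑ _ hmem').trans ?_)
        exact mul_le_mul_of_nonneg_left h7 hC0
      _ ≤ θ := h9

end Pool.Agent.MP_ae5b4e_an_NB5
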