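import Pool.Agent.Lib.MP_ae5b4e_an_NB5.Tel
import Pool.Agent.Lib.MP_ae5b4e_an_NB5.InvC

/-!
# MP_ae5b4e_an, project NB_5(A): a chain with imaginary steps
-/

noncomputable section

namespace Pool.Agent.MP_ae5b4e_an_NB5

open Complex Set Filter Topology Metric
open Pool.Agent.MP_ae5b4e_an_NBT (St)
open Pool.Agent.MP_ae5b4e_an_NB2 (Sys)
open scoped ComplexConjugate

/-- the velocity along a chain -/
def av (ε : ℝ) (x : ℕ → ℂ) (j : ℕ) : ℂ := (x (j + 1) - x j) / ε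

/-- the variable `ϑ` along a chain -/
def tv (ε : ℝ) (x : ℕ → ℂ) (j : ℕ) : ℂ := exp (-(I * x (j + 1) / 2)) * av ε x j

private theorem chainW_compact (ϑ₁ r : ℝ) : IsCompact (Rc ϑ₁ r) := by
  have e : Rc ϑ₁ r = Icc (-r) (ϑ₁ + r) ×ℂ Icc (-r) r := by
    ext x
    simp only [Rc, Set.mem_ofPred_eq, mem_reProdIm, mem_Icc, abs_le]
    tauto
  rw [e]
  exact isCompact_Icc.reProdIm isCompact_Icc

private theorem chainW_arith {θ₁ L σ s η' : ℝ} (hL : 0 ≤ L) (hσ : 0 ≤ σ)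
    (h1 : σ * (1 + L) ≤ θ₁ / 2) (hη : 0 ≤ η') (h2 : η' * (L * (1 + L)) ≤ θ₁ / 2)
    (hs : s ≤ L) :
    σ + s * η' ≤ θ₁ ∧ σ + s * (σ + L * η') + s * η' ≤ θ₁ := by
  have h3 : s * η' ≤ L * η' := mul_le_mul_of_nonneg_right hs hη
  have h4 : s * (σ + L * η') ≤ L * (σ + L * η') :=
    mul_le_mul_of_nonneg_right hs (by positivity)
  have h5 : L * η' + L * (L * η') = η' * (L * (1 + L)) := by ring
  have h6 : σ + L * σ = σ * (1 + L) := by ring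
  have h7 : 0 ≤ L * (L * η') := by positivity
  have h8 : 0 ≤ L * σ := by positivity
  have h9 : L * (σ + L * η') = L * σ + L * (L * η') := by ring
  constructor
  · linarith
  · linarith

/-- **Chains.** `θ₁` is that of `inv_close` for `R`, `θ` (`θ ≤ 1` without restriction). Let `C_L` bound
`Lm` on `Rc ϑ₁ r`, `R₁ = 2 (Y₁ + C_L + 2) + 4 exp (Y₁ + C_L + 2)`; if `‖x (j+1) + I Lm ϑ_j - u_j‖ ≤ 1` then
`‖x (j+1)‖ ≤ Y₁ + C_L + 1 ≤ R₁` and `‖a_j‖ = ‖ϑ_j‖ exp (- Im x (j+1) / 2) ≤ π exp (...) ≤ R₁`. Let `η'` be so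
small that `L η' (1 + L) + L η' ≤ θ₁ / 2` and `ε₀`, `η` those of `tel` for `R₁`, `η'`. Induction on `j ≤ n`:
`ϑ_j ∈ Rc ϑ₁ r`, `‖P ϑ_j a_j - g I‖ ≤ σ + j ε η'`, `‖x (j+1) + I Lm ϑ_j - u_j‖ ≤
σ + j ε (σ + L η') + j ε η'`, both at most `θ₁` (`j ε ≤ L`). Then `inv_close` gives `ϑ_j ∈ Rc ϑ₁ (3 r/4)`,
and the last estimate; the hypothesis for `j` and `tel` (with `a' = a_{j+1}`,
`x (j+2) = x (j+1) + ε a_{j+1}`) give the step: `(x (j+2) + I Lm ϑ_{j+1}) - u_{j+1}` differs from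
`(x (j+1) + I Lm ϑ_j) - u_j` by `ε (P ϑ_j a_j - g I)` up to `ε η'`. -/
theorem chain_w {P Lm : ℂ → ℂ} (hS : Sp P Lm) {ϑ₁ r δ₁ m v₁ : ℝ} {th : ℂ → ℂ}
    (hT : Th P Lm ϑ₁ r δ₁ m v₁ th) {R θ : ℝ} (hR : 1 ≤ R) (hθ : 0 < θ) :
    ∃ θ₁ : ℝ, 0 < θ₁ ∧ θ₁ ≤ 1 ∧ ∀ Y₁ L σ : ℝ, 0 ≤ Y₁ → 0 ≤ L → 0 ≤ σ → σ * (1 + L) ≤ θ₁ / 2 →
      ∃ R₁ ε₀ η : ℝ, 1 ≤ R₁ ∧ 0 < ε₀ ∧ 0 < η ∧
        ∀ (ε g : ℝ) (u₀ : ℂ) (n : ℕ) (x : ℕ → ℂ), 0 < ε → ε ≤ ε₀ → 1 / R ≤ g → g ≤ R → n * ε ≤ L →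
          (∀ j ≤ n, ‖u₀ + j * (ε * (g * I))‖ ≤ Y₁ ∧
            u₀ + j * (ε * (g * I)) - Real.pi + 2 * Real.log g * I ∈ Ts δ₁ v₁) →
          tv ε x 0 ∈ Rc ϑ₁ r → ‖P (tv ε x 0) * av ε x 0 - g * I‖ ≤ σ →
          ‖x 1 + I * Lm (tv ε x 0) - u₀‖ ≤ σ →
          (∀ j < n, ‖x (j + 1)‖ ≤ R₁ → ‖av ε x j‖ ≤ R₁ →
            ‖av ε x (j + 1) - av ε x j - ε * bz (x (j + 1)) (av ε x j)‖ ≤ ε * η) →
          ∀ j ≤ n, ‖x (j + 1)‖ ≤ R₁ ∧ ‖av ε x j‖ ≤ R₁ ∧ tv ε x j ∈ Rc ϑ₁ (3 * r / 4) ∧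
            ‖x (j + 1) - (u₀ + j * (ε * (g * I)) -
              I * Lm (th (u₀ + j * (ε * (g * I)) - Real.pi + 2 * Real.log g * I)))‖ ≤ θ := by
  obtain ⟨θ₁, hθ0, hθ1, hinv⟩ := inv_close hS hT hR hθ
  refine ⟨θ₁, hθ0, hθ1, ?_⟩
  intro Y₁ L σ hY hL hσ hσL
  have hLc : ContinuousOn Lm (Rc ϑ₁ r) := fun x hx =>
    (hS.anL x (hT.sub hx)).continuousAt.continuousWithinAt
  obtain ⟨C₀, hC₀⟩ := (chainW_compact ϑ₁ r).exists_bound_of_continuousOn hLc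
  obtain ⟨C, hC⟩ : ∃ C : ℝ, C = max C₀ 0 := ⟨_, rfl⟩
  have hC0 : 0 ≤ C := by
    rw [hC]
    exact le_max_right _ _
  have hCL : ∀ y ∈ Rc ϑ₁ r, ‖Lm y‖ ≤ C := by
    intro y hy
    rw [hC]
    exact (hC₀ y hy).trans (le_max_left _ _)
  obtain ⟨R₁, hR₁⟩ : ∃ R₁ : ℝ, R₁ = 2 * (Y₁ + C + 2) + 4 * Real.exp (Y₁ + C + 2) := ⟨_, rfl⟩
  have hR1 : 1 ≤ R₁ := by
    rw [hR₁]
    have := Real.exp_pos (Y₁ + C + 2)
    linarith
  obtain ⟨η', hη'⟩ : ∃ η' : ℝ, η' = θ₁ / (2 * (1 + L) ^ 2) := ⟨_, rfl⟩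
  have hη0 : 0 < η' := by
    rw [hη']
    positivity
  have hη2 : η' * (L * (1 + L)) ≤ θ₁ / 2 := by
    rw [hη', div_mul_eq_mul_div, div_le_div_iff₀ (by positivity) (by norm_num)]
    have : L * (1 + L) ≤ (1 + L) ^ 2 := by nlinarith
    nlinarith
  obtain ⟨ε₀, η, hε₀, hη, htel⟩ := tel hS hT.r_pos hT.sub hR1 hη0
  refine ⟨R₁, ε₀, η, hR1, hε₀, hη, ?_⟩
  intro ε g u₀ n x hε hεε hg1 hg2 hn hpath h0 hΓ0 hT0 hstep
  have hεc : (ε : ℂ) ≠ 0 := ofReal_ne_zero.2 hε.ne'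
  have hjL : ∀ j : ℕ, j ≤ n → (j:ℝ) * ε ≤ L := by
    intro j hj
    have h1 : (j:ℝ) ≤ n := by exact_mod_cast hj
    exact (mul_le_mul_of_nonneg_right h1 hε.le).trans hn
  -- consequences of the estimates for one index
  have hone : ∀ j ≤ n, tv ε x j ∈ Rc ϑ₁ r → ‖P (tv ε x j) * av ε x j - g * I‖ ≤ θ₁ →
      ‖x (j + 1) + I * Lm (tv ε x j) - (u₀ + j * (ε * (g * I)))‖ ≤ θ₁ →
      ‖x (j + 1)‖ ≤ R₁ ∧ ‖av ε x j‖ ≤ R₁ ∧ tv ε x j ∈ Rc ϑ₁ (3 * r / 4) ∧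
            ‖x (j + 1) - (u₀ + j * (ε * (g * I)) -
              I * Lm (th (u₀ + j * (ε * (g * I)) - Real.pi + 2 * Real.log g * I)))‖ ≤ θ := by
    intro j hj h1 h2 h3
    obtain ⟨h4, h5⟩ := hpath j hj
    have h6 : ‖x (j + 1)‖ ≤ Y₁ + C + 1 := by
      have h7 : x (j + 1) = (x (j + 1) + I * Lm (tv ε x j) - (u₀ + j * (ε * (g * I)))) +
          (u₀ + j * (ε * (g * I))) - I * Lm (tv ε x j) := by ring
      have h8 : ‖I * Lm (tv ε x j)‖ ≤ C := by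
        rw [norm_mul, norm_I, one_mul]
        exact hCL _ h1
      rw [h7]
      calc _ ≤ ‖(x (j + 1) + I * Lm (tv ε x j) - (u₀ + j * (ε * (g * I)))) +
          (u₀ + j * (ε * (g * I)))‖ + ‖I * Lm (tv ε x j)‖ := norm_sub_le _ _
        _ ≤ (‖x (j + 1) + I * Lm (tv ε x j) - (u₀ + j * (ε * (g * I)))‖ +
          ‖u₀ + j * (ε * (g * I))‖) + C := add_le_add (norm_add_le _ _) h8
        _ ≤ Y₁ + C + 1 := by linarith
    have h7 : ‖av ε x j‖ ≤ R₁ := by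
      have h8 : av ε x j = tv ε x j * exp (I * x (j + 1) / 2) := by
        unfold tv
        have h9 : exp (-(I * x (j + 1) / 2)) * exp (I * x (j + 1) / 2) = 1 := by
          rw [← Complex.exp_add, neg_add_cancel, Complex.exp_zero]
        calc av ε x j = (exp (-(I * x (j + 1) / 2)) * exp (I * x (j + 1) / 2)) * av ε x j := by
              rw [h9, one_mul]
          _ = _ := by ring
      have h9 : ‖exp (I * x (j + 1) / 2)‖ ≤ Real.exp (Y₁ + C + 2) := by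
        rw [Complex.norm_exp]
        apply Real.exp_le_exp.2
        have h10 : (I * x (j + 1) / 2).re ≤ ‖I * x (j + 1) / 2‖ := Complex.re_le_norm _
        have h11 : ‖I * x (j + 1) / 2‖ = ‖x (j + 1)‖ / 2 := by
          rw [norm_div, norm_mul, norm_I, one_mul]
          simp
        have h12 := norm_nonneg (x (j + 1))
        linarith
      have h10 : ‖tv ε x j‖ ≤ 4 := by
        have h11 := hT.sub h1
        rw [mem_ball_zero_iff] at h11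
        exact h11.le.trans Real.pi_le_four
      rw [h8, norm_mul, hR₁]
      have h11 : ‖tv ε x j‖ * ‖exp (I * x (j + 1) / 2)‖ ≤ 4 * Real.exp (Y₁ + C + 2) :=
        mul_le_mul h10 h9 (norm_nonneg _) (by norm_num)
      linarith
    have h8 : ‖x (j + 1)‖ ≤ R₁ := by
      have := Real.exp_pos (Y₁ + C + 2)
      rw [hR₁]
      linarith
    exact ⟨h8, h7, hinv g _ (x (j + 1)) (av ε x j) hg1 hg2 h5 h1 h2 h3⟩
  have key : ∀ j : ℕ, j ≤ n → tv ε x j ∈ Rc ϑ₁ r ∧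
      ‖P (tv ε x j) * av ε x j - g * I‖ ≤ σ + (j * ε) * η' ∧
      ‖x (j + 1) + I * Lm (tv ε x j) - (u₀ + j * (ε * (g * I)))‖ ≤
        σ + (j * ε) * (σ + L * η') + (j * ε) * η' := by
    intro j
    induction j with
    | zero =>
      intro _
      refine ⟨h0, ?_, ?_⟩
      · rw [Nat.cast_zero, zero_mul, zero_mul, add_zero]
        exact hΓ0
      · rw [Nat.cast_zero, Nat.cast_zero, zero_mul, zero_mul, zero_mul, zero_mul, add_zero,
          add_zero, add_zero]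
        exact hT0
    | succ j ih =>
      intro hj
      have hj' : j < n := hj
      obtain ⟨h1, h2, h3⟩ := ih hj'.le
      obtain ⟨h4, h5⟩ := chainW_arith hL hσ hσL hη0.le hη2 (hjL j hj'.le)
      obtain ⟨h6, h7, h8, -⟩ := hone j hj'.le h1 (h2.trans h4) (h3.trans h5)
      obtain ⟨h9, h10, h11⟩ := htel ε hε hεε (x (j + 1)) (av ε x j) (av ε x (j + 1)) h6 h7 h8
        (hstep j hj' h6 h7)
      have h12 : x (j + 1) + ε * av ε x (j + 1) = x (j + 1 + 1) := by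
        unfold av
        field_simp
        ring
      rw [h12] at h9 h10 h11
      refine ⟨h9, ?_, ?_⟩
      · have h13 : P (tv ε x (j + 1)) * av ε x (j + 1) - g * I =
            (P (tv ε x (j + 1)) * av ε x (j + 1) - P (tv ε x j) * av ε x j) +
              (P (tv ε x j) * av ε x j - g * I) := by ring
        rw [h13]
        refine (norm_add_le _ _).trans ?_
        have h14 := add_le_add h10 h2
        refine h14.trans (le_of_eq ?_)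
        push_cast
        ring
      · have h13 : x (j + 1 + 1) + I * Lm (tv ε x (j + 1)) -
            (u₀ + ((j + 1 : ℕ) : ℂ) * (ε * (g * I))) =
            ((x (j + 1 + 1) + I * Lm (tv ε x (j + 1))) - (x (j + 1) + I * Lm (tv ε x j)) -
              ε * (P (tv ε x j) * av ε x j)) +
            (x (j + 1) + I * Lm (tv ε x j) - (u₀ + j * (ε * (g * I)))) +
            ε * (P (tv ε x j) * av ε x j - g * I) := by
          push_cast
          ring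
        rw [h13]
        have h14 : ‖(ε:ℂ) * (P (tv ε x j) * av ε x j - g * I)‖ ≤ ε * (σ + L * η') := by
          rw [norm_mul, norm_real, Real.norm_of_nonneg hε.le]
          refine mul_le_mul_of_nonneg_left (h2.trans ?_) hε.le
          have := mul_le_mul_of_nonneg_right (hjL j hj'.le) hη0.le
          linarith
        calc _ ≤ ‖((x (j + 1 + 1) + I * Lm (tv ε x (j + 1))) -
              (x (j + 1) + I * Lm (tv ε x j)) - ε * (P (tv ε x j) * av ε x j)) +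
              (x (j + 1) + I * Lm (tv ε x j) - (u₀ + j * (ε * (g * I))))‖ +
              ‖(ε:ℂ) * (P (tv ε x j) * av ε x j - g * I)‖ := norm_add_le _ _
          _ ≤ (ε * η' + (σ + (j * ε) * (σ + L * η') + (j * ε) * η')) + ε * (σ + L * η') :=
            add_le_add ((norm_add_le _ _).trans (add_le_add h11 h3)) h14
          _ = _ := by
            push_cast
            ring
  intro j hj
  obtain ⟨h1, h2, h3⟩ := key j hj
  obtain ⟨h4, h5⟩ := chainW_arith hL hσ hσL hη0.le hη2 (hjL j hj)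
  exact hone j hj h1 (h2.trans h4) (h3.trans h5)

end Pool.Agent.MP_ae5b4e_an_NB5
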