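import Pool.Agent.Lib.MP_ae5b4e_an_NB5.Defs

/-!
# MP_ae5b4e_an, project NB_5(A): the conformal map of the strip
-/

noncomputable section

namespace Pool.Agent.MP_ae5b4e_an_NB5

open Complex Set Filter Topology Metric
open Pool.Agent.MP_ae5b4e_an_NBT (St)
open Pool.Agent.MP_ae5b4e_an_NB2 (Sys)
open scoped ComplexConjugate

/-- a conformal map of the unit disc onto the strip `|Re τ| < δ₁` with centre `I tc` -/
structure Cm (tc δ₁ v₀ v₁ δ₂ r₀ r₁ r₂ : ℝ) (T X : ℂ → ℂ) : Prop where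
  r0 : 0 < r₀
  r02 : r₀ < r₂
  r21 : r₂ < r₁
  r1 : r₁ < 1
  d2 : 0 < δ₂
  d2' : 3 * δ₂ ≤ δ₁
  anT : AnalyticOnNhd ℂ T (ball 0 1)
  anX : AnalyticOnNhd ℂ X {τ | |τ.re| < δ₁}
  XT : ∀ χ ∈ ball (0:ℂ) 1, |(T χ).re| < δ₁ ∧ X (T χ) = χ
  TX : ∀ τ : ℂ, |τ.re| < δ₁ → ‖X τ‖ < 1 ∧ T (X τ) = τ
  im : ∀ χ ∈ ball (0:ℂ) r₁, 2 * tc - v₁ < (T χ).im ∧ (T χ).im < v₁
  low : ∀ χ ∈ ball (0:ℂ) (2 * r₀), tc - 1 < (T χ).im ∧ (T χ).im < tc + 1
  mem : ∀ τ : ℂ, |τ.re| < 3 * δ₂ → tc - 1 < τ.im → τ.im < v₀ + 3 * δ₂ → X τ ∈ ball (0:ℂ) r₂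
  mem0 : ∀ τ : ℂ, ‖τ - tc * I‖ < 3 * δ₂ → X τ ∈ ball (0:ℂ) r₀

private def cee (a tc : ℝ) (τ : ℂ) : ℂ := -(2 * a * I) * (τ - tc * I)

private def cXX (a tc : ℝ) (τ : ℂ) : ℂ := (exp (cee a tc τ) - 1) / (exp (cee a tc τ) + 1)

private def cTT (a tc : ℝ) (χ : ℂ) : ℂ := tc * I + I / (2 * a) * log ((1 + χ) / (1 - χ))

private theorem cee_re (a tc : ℝ) (τ : ℂ) : (cee a tc τ).re = 2 * a * (τ.im - tc) := by
  unfold cee
  simp

private theorem cee_im (a tc : ℝ) (τ : ℂ) : (cee a tc τ).im = -(2 * a * τ.re) := by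
  unfold cee
  simp

private theorem cE_re (a tc : ℝ) (τ : ℂ) : (exp (cee a tc τ)).re =
    Real.exp (2 * a * (τ.im - tc)) * Real.cos (2 * a * τ.re) := by
  rw [Complex.exp_re, cee_re, cee_im, Real.cos_neg]

private theorem cE_im (a tc : ℝ) (τ : ℂ) : (exp (cee a tc τ)).im =
    -(Real.exp (2 * a * (τ.im - tc)) * Real.sin (2 * a * τ.re)) := by
  rw [Complex.exp_im, cee_re, cee_im, Real.sin_neg, mul_neg]

private theorem cE_pos {a tc : ℝ} {τ : ℂ} (h : 0 < Real.cos (2 * a * τ.re)) :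
    0 < (exp (cee a tc τ)).re := by
  rw [cE_re]
  exact mul_pos (Real.exp_pos _) h

private theorem cE_ne {a tc : ℝ} {τ : ℂ} (h : 0 < Real.cos (2 * a * τ.re)) :
    exp (cee a tc τ) + 1 ≠ 0 := by
  intro h1
  have h2 := congrArg Complex.re h1
  rw [Complex.add_re, Complex.one_re, Complex.zero_re] at h2
  have := cE_pos (tc := tc) h
  linarith

/-- the norm of `X` -/
private theorem cXN {a tc : ℝ} {τ : ℂ} {r : ℝ} (hr : 0 < r)
    (hc : 0 < Real.cos (2 * a * τ.re))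
    (h : Real.cosh (2 * a * (τ.im - tc)) * (1 - r ^ 2) < Real.cos (2 * a * τ.re) * (1 + r ^ 2)) :
    ‖cXX a tc τ‖ < r := by
  have hne := cE_ne (tc := tc) hc
  unfold cXX
  rw [norm_div, div_lt_iff₀ (norm_pos_iff.2 hne)]
  apply lt_of_pow_lt_pow_left₀ 2 (mul_nonneg hr.le (norm_nonneg _))
  rw [mul_pow, Complex.sq_norm, Complex.sq_norm, Complex.normSq_apply, Complex.normSq_apply]
  simp only [Complex.add_re, Complex.sub_re, Complex.add_im, Complex.sub_im, Complex.one_re,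
    Complex.one_im, add_zero, sub_zero]
  rw [cE_re, cE_im]
  rw [Real.cosh_eq] at h
  have e1 : Real.exp (-(2 * a * (τ.im - tc))) = (Real.exp (2 * a * (τ.im - tc)))⁻¹ :=
    Real.exp_neg _
  rw [e1] at h
  have hu := Real.exp_pos (2 * a * (τ.im - tc))
  have hcs := Real.sin_sq_add_cos_sq (2 * a * τ.re)
  generalize Real.exp (2 * a * (τ.im - tc)) = u at *
  generalize Real.cos (2 * a * τ.re) = x at *
  generalize Real.sin (2 * a * τ.re) = y at *
  have h3 : (u ^ 2 + 1) * (1 - r ^ 2) < 2 * u * x * (1 + r ^ 2) := by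
    have h4 := mul_lt_mul_of_pos_left h (show 0 < 2 * u by linarith)
    have e2 : 2 * u * ((u + u⁻¹) / 2 * (1 - r ^ 2)) = (u ^ 2 + 1) * (1 - r ^ 2) := by
      field_simp
    rw [e2] at h4
    linarith
  have e3 : u ^ 2 * y ^ 2 + u ^ 2 * x ^ 2 = u ^ 2 := by
    rw [← mul_add, hcs, mul_one]
  nlinarith

private theorem cR_pos {χ : ℂ} (h : ‖χ‖ < 1) : 0 < ((1 + χ) / (1 - χ)).re := by
  have h1 : χ.re ^ 2 + χ.im ^ 2 < 1 := by
    have h2 : ‖χ‖ ^ 2 < 1 := by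
      have := norm_nonneg χ
      nlinarith
    rw [Complex.sq_norm, Complex.normSq_apply] at h2
    linarith
  have h3 : (1 - χ) ≠ 0 := by
    intro h4
    have h5 : χ = 1 := (sub_eq_zero.1 h4).symm
    rw [h5] at h
    simp at h
  have h6 := Complex.normSq_pos.2 h3
  rw [Complex.div_re, ← add_div]
  apply div_pos _ h6
  simp only [Complex.add_re, Complex.sub_re, Complex.add_im, Complex.sub_im, Complex.one_re,
    Complex.one_im, zero_add, zero_sub]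
  nlinarith

private theorem cee_TT {a tc : ℝ} (ha : 0 < a) (χ : ℂ) :
    cee a tc (cTT a tc χ) = log ((1 + χ) / (1 - χ)) := by
  have ha' : (a:ℂ) ≠ 0 := by exact_mod_cast ha.ne'
  unfold cee cTT
  field_simp
  ring_nf
  rw [Complex.I_sq]
  ring

private theorem cXT {a tc : ℝ} (ha : 0 < a) {χ : ℂ} (h : ‖χ‖ < 1) :
    cXX a tc (cTT a tc χ) = χ := by
  have h1 := cR_pos h
  have h2 : (1 + χ) / (1 - χ) ≠ 0 := by
    intro h3
    rw [h3] at h1
    simp at h1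
  have h3 : (1 - χ) ≠ 0 := by
    intro h4
    rw [h4] at h2
    simp at h2
  unfold cXX
  rw [cee_TT ha, Complex.exp_log h2]
  field_simp
  ring_nf

private theorem cTT_re {a tc : ℝ} (χ : ℂ) :
    (cTT a tc χ).re = -(((1 + χ) / (1 - χ)).arg / (2 * a)) := by
  unfold cTT
  have e : I / (2 * (a:ℂ)) = ((1 / (2 * a) : ℝ) : ℂ) * I := by
    push_cast
    ring
  rw [e, ← Complex.log_im]
  simp
  ring

private theorem cTT_im {a tc : ℝ} (χ : ℂ) :
    (cTT a tc χ).im = tc + Real.log ‖(1 + χ) / (1 - χ)‖ / (2 * a) := by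
  unfold cTT
  have e : I / (2 * (a:ℂ)) = ((1 / (2 * a) : ℝ) : ℂ) * I := by
    push_cast
    ring
  rw [e, ← Complex.log_re]
  simp
  ring

private theorem cTT_bd {a tc : ℝ} (ha : 0 < a) {χ : ℂ} {r v : ℝ} (h : ‖χ‖ < r) (hr : r < 1)
    (hv : (1 + r) / (1 - r) = Real.exp (2 * a * v)) :
    tc - v < (cTT a tc χ).im ∧ (cTT a tc χ).im < tc + v := by
  have h0 := norm_nonneg χ
  have hp : ‖1 + χ‖ < 1 + r := by
    calc ‖1 + χ‖ ≤ ‖(1:ℂ)‖ + ‖χ‖ := norm_add_le _ _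
      _ < 1 + r := by
        rw [norm_one]
        linarith
  have hp' : 1 - r < ‖1 + χ‖ := by
    have := norm_sub_norm_le (1:ℂ) (-χ)
    rw [norm_one, norm_neg, sub_neg_eq_add] at this
    linarith
  have hq : ‖1 - χ‖ < 1 + r := by
    calc ‖1 - χ‖ ≤ ‖(1:ℂ)‖ + ‖χ‖ := norm_sub_le _ _
      _ < 1 + r := by
        rw [norm_one]
        linarith
  have hq' : 1 - r < ‖1 - χ‖ := by
    have := norm_sub_norm_le (1:ℂ) χ
    rw [norm_one] at this
    linarith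
  have h1r : 0 < 1 - r := by linarith
  have hR : ‖(1 + χ) / (1 - χ)‖ < Real.exp (2 * a * v) := by
    rw [← hv, norm_div]
    calc ‖1 + χ‖ / ‖1 - χ‖ ≤ ‖1 + χ‖ / (1 - r) := by gcongr
      _ < (1 + r) / (1 - r) := by gcongr
  have hR' : Real.exp (-(2 * a * v)) < ‖(1 + χ) / (1 - χ)‖ := by
    rw [Real.exp_neg, ← hv, norm_div, inv_div]
    calc (1 - r) / (1 + r) < ‖1 + χ‖ / (1 + r) := by
          apply div_lt_div_of_pos_right hp'
          linarith
      _ ≤ ‖1 + χ‖ / ‖1 - χ‖ := by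
          apply div_le_div_of_nonneg_left (norm_nonneg _) (by linarith) hq.le
  have hR0 : 0 < ‖(1 + χ) / (1 - χ)‖ := lt_trans (Real.exp_pos _) hR'
  have h2 : Real.log ‖(1 + χ) / (1 - χ)‖ < 2 * a * v := (Real.log_lt_iff_lt_exp hR0).2 hR
  have h3 : -(2 * a * v) < Real.log ‖(1 + χ) / (1 - χ)‖ := (Real.lt_log_iff_exp_lt hR0).2 hR'
  rw [cTT_im]
  constructor
  · have : -v < Real.log ‖(1 + χ) / (1 - χ)‖ / (2 * a) := by
      rw [lt_div_iff₀ (by linarith)]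
      linarith
    linarith
  · have : Real.log ‖(1 + χ) / (1 - χ)‖ / (2 * a) < v := by
      rw [div_lt_iff₀ (by linarith)]
      linarith
    linarith

private theorem cTX {a tc : ℝ} (ha : 0 < a) {τ : ℂ} (h : |2 * a * τ.re| < Real.pi / 2) :
    cTT a tc (cXX a tc τ) = τ := by
  have hpi := Real.pi_pos
  have hc : 0 < Real.cos (2 * a * τ.re) := Real.cos_pos_of_mem_Ioo (abs_lt.1 h)
  have hne := cE_ne (tc := tc) hc
  have ha' : (a:ℂ) ≠ 0 := by exact_mod_cast ha.ne'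
  have h1 : (1 + cXX a tc τ) / (1 - cXX a tc τ) = exp (cee a tc τ) := by
    have h2 : 1 + cXX a tc τ = 2 * exp (cee a tc τ) / (exp (cee a tc τ) + 1) := by
      unfold cXX
      field_simp
      ring
    have h3 : 1 - cXX a tc τ = 2 / (exp (cee a tc τ) + 1) := by
      unfold cXX
      field_simp
      ring
    rw [h2, h3]
    field_simp
  unfold cTT
  rw [h1, Complex.log_exp]
  · unfold cee
    have e : I / (2 * (a:ℂ)) * (-(2 * a * I) * (τ - tc * I)) = -(I ^ 2 * (τ - tc * I)) := by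
      field_simp
    rw [e, Complex.I_sq]
    ring
  · rw [cee_im]
    have := (abs_lt.1 h).2
    linarith
  · rw [cee_im]
    have := (abs_lt.1 h).1
    linarith

/-- `T χ = I tc + (2 δ₁ / π) I log ((1 + χ) / (1 - χ))`, `X τ = - I tan ((π / (4 δ₁)) (τ - I tc))`.
`(1 + χ) / (1 - χ)` maps the disc onto the right half plane, `log` onto `|Im| < π/2`. For `‖χ‖ < ρ`:
`|Im (T χ) - tc| ≤ (2 δ₁ / π) log ((1 + ρ) / (1 - ρ))` (`‖(1 + χ) / (1 - χ)‖` is between the values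
at
`∓ ρ`). `r₁` is defined by `tc + (2 δ₁ / π) log ((1 + r₁) / (1 - r₁)) = v₁`, i.e.
`r₁ = tanh ((π / (4 δ₁)) (v₁ - tc))`. On the imaginary axis `X (I v) = tanh ((π / (4 δ₁)) (v -
tc))`, so
`‖X (I v)‖ ≤ max (tanh (..(v₀ - tc))) (tanh (π / (4 δ₁))) < r₁` for `tc - 1 ≤ v ≤ v₀` (`tc + 1 ≤
v₀`); by
continuity and compactness `‖X τ‖ < r₂ < r₁` for `|Re τ| < 3 δ₂`, `tc - 1 < Im τ < v₀ + 3 δ₂` with
small
`δ₂`. `r₀`: continuity of `T` at `0`, `T 0 = I tc`; then `δ₂` smaller for `mem0`. -/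
theorem exists_cm {tc δ₁ v₀ v₁ : ℝ} (hδ : 0 < δ₁) (hδ1 : δ₁ ≤ 1) (h0 : tc + 1 ≤ v₀) (h1 : v₀ < v₁) :
    ∃ (δ₂ r₀ r₁ r₂ : ℝ) (T X : ℂ → ℂ), Cm tc δ₁ v₀ v₁ δ₂ r₀ r₁ r₂ T X := by
  have hpi := Real.pi_pos
  obtain ⟨a, haδ⟩ : ∃ a : ℝ, 2 * a * δ₁ = Real.pi / 2 := ⟨Real.pi / (4 * δ₁), by
    field_simp
    ring⟩
  have ha : 0 < a := by
    by_contra hcon
    push Not at hcon
    nlinarith
  -- the function `(e ^ x - 1) / (e ^ x + 1)`
  have hM : ∀ x : ℝ, 0 < x → 0 < (Real.exp x - 1) / (Real.exp x + 1) ∧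
      (Real.exp x - 1) / (Real.exp x + 1) < 1 ∧
      (1 + (Real.exp x - 1) / (Real.exp x + 1)) / (1 - (Real.exp x - 1) / (Real.exp x + 1)) =
        Real.exp x ∧
      Real.cosh x * (1 - ((Real.exp x - 1) / (Real.exp x + 1)) ^ 2) =
        1 + ((Real.exp x - 1) / (Real.exp x + 1)) ^ 2 := by
    intro x hx
    have h2 : 1 < Real.exp x := Real.one_lt_exp_iff.2 hx
    have h3 : (0:ℝ) < Real.exp x := Real.exp_pos x
    refine ⟨div_pos (by linarith) (by linarith), ?_, ?_, ?_⟩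
    · rw [div_lt_one (by linarith)]
      linarith
    · have h4 : 1 - (Real.exp x - 1) / (Real.exp x + 1) = 2 / (Real.exp x + 1) := by
        field_simp
        ring
      have h5 : 1 + (Real.exp x - 1) / (Real.exp x + 1) = 2 * Real.exp x / (Real.exp x + 1) := by
        field_simp
        ring
      rw [h4, h5]
      field_simp
    · rw [Real.cosh_eq, Real.exp_neg]
      field_simp
      ring
  set P₁ : ℝ := 2 * a * (v₁ - tc) with hP₁
  set P₀ : ℝ := 2 * a * (v₀ - tc) with hP₀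
  have hP : P₀ < P₁ := by
    rw [hP₀, hP₁]
    nlinarith
  have hP0 : 2 * a ≤ P₀ := by
    rw [hP₀]
    nlinarith
  obtain ⟨hr1, hr1', hr1m, hr1c⟩ := hM P₁ (by linarith)
  obtain ⟨hρ, hρ', hρm, -⟩ := hM (2 * a) (by linarith)
  set r₁ : ℝ := (Real.exp P₁ - 1) / (Real.exp P₁ + 1) with hr₁
  set ρ : ℝ := (Real.exp (2 * a) - 1) / (Real.exp (2 * a) + 1) with hρd
  have hρ1 : ρ < r₁ := by
    have h2 : Real.exp (2 * a) < Real.exp P₁ := Real.exp_lt_exp.2 (by linarith)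
    have h3 := Real.exp_pos (2 * a)
    rw [hρd, hr₁, div_lt_div_iff₀ (by linarith) (by linarith)]
    nlinarith
  have hcP : Real.cosh P₀ < Real.cosh P₁ := by
    rw [Real.cosh_lt_cosh, abs_of_pos (by linarith), abs_of_pos (by linarith)]
    exact hP
  -- `r₂`
  obtain ⟨r₂, hr2, hr2', hr2c⟩ : ∃ r₂ : ℝ, ρ < r₂ ∧ r₂ < r₁ ∧
      Real.cosh P₀ * (1 - r₂ ^ 2) < 1 + r₂ ^ 2 := by
    have h2 : Real.cosh P₀ * (1 - r₁ ^ 2) < 1 + r₁ ^ 2 := by
      rw [← hr1c]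
      apply mul_lt_mul_of_pos_right hcP
      nlinarith
    have h3 : ∀ᶠ r in 𝓝 r₁, Real.cosh P₀ * (1 - r ^ 2) < 1 + r ^ 2 := by
      have h4 : ContinuousAt (fun r : ℝ => Real.cosh P₀ * (1 - r ^ 2)) r₁ := by fun_prop
      have h5 : ContinuousAt (fun r : ℝ => 1 + r ^ 2) r₁ := by fun_prop
      exact h4.eventually_lt h5 h2
    have h4 : ∀ᶠ r in 𝓝 r₁, ρ < r := eventually_gt_nhds hρ1
    have h5 : ∀ᶠ r in 𝓝[<] r₁, (ρ < r ∧ Real.cosh P₀ * (1 - r ^ 2) < 1 + r ^ 2) ∧ r < r₁ :=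
      ((h4.and h3).filter_mono nhdsWithin_le_nhds).and self_mem_nhdsWithin
    obtain ⟨r, ⟨h6, h7⟩, h8⟩ := h5.exists
    exact ⟨r, h6, h8, h7⟩
  -- `δ₂`
  obtain ⟨δ₂, hδ2, hδ2', hδ2m, hδ2n⟩ : ∃ δ₂ : ℝ, 0 < δ₂ ∧ 3 * δ₂ ≤ δ₁ ∧
      Real.cosh (2 * a * (v₀ + 3 * δ₂ - tc)) * (1 - r₂ ^ 2) <
        Real.cos (2 * a * (3 * δ₂)) * (1 + r₂ ^ 2) ∧
      Real.cosh (2 * a * (3 * δ₂)) * (1 - (ρ / 2) ^ 2) <
        Real.cos (2 * a * (3 * δ₂)) * (1 + (ρ / 2) ^ 2) := by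
    have h3 : ∀ᶠ d in 𝓝 (0:ℝ), Real.cosh (2 * a * (v₀ + 3 * d - tc)) * (1 - r₂ ^ 2) <
        Real.cos (2 * a * (3 * d)) * (1 + r₂ ^ 2) := by
      have h4 : ContinuousAt (fun d : ℝ => Real.cosh (2 * a * (v₀ + 3 * d - tc)) *
          (1 - r₂ ^ 2)) 0 := (Real.continuous_cosh.comp (by fun_prop)).mul_const _ |>.continuousAt
      have h5 : ContinuousAt (fun d : ℝ => Real.cos (2 * a * (3 * d)) * (1 + r₂ ^ 2)) 0 := by
        fun_prop
      refine h4.eventually_lt h5 ?_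
      simp only [mul_zero, add_zero, Real.cos_zero, one_mul]
      exact hr2c
    have h6 : ∀ᶠ d in 𝓝 (0:ℝ), Real.cosh (2 * a * (3 * d)) * (1 - (ρ / 2) ^ 2) <
        Real.cos (2 * a * (3 * d)) * (1 + (ρ / 2) ^ 2) := by
      have h4 : ContinuousAt (fun d : ℝ => Real.cosh (2 * a * (3 * d)) *
          (1 - (ρ / 2) ^ 2)) 0 :=
        (Real.continuous_cosh.comp (by fun_prop)).mul_const _ |>.continuousAt
      have h5 : ContinuousAt (fun d : ℝ => Real.cos (2 * a * (3 * d)) *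
          (1 + (ρ / 2) ^ 2)) 0 := by
        fun_prop
      refine h4.eventually_lt h5 ?_
      simp only [mul_zero, Real.cos_zero, Real.cosh_zero, one_mul]
      nlinarith
    have h7 : ∀ᶠ d in 𝓝 (0:ℝ), d < δ₁ / 3 := eventually_lt_nhds (by linarith)
    obtain ⟨d, ⟨⟨h8, h9⟩, h10⟩, h11⟩ :=
      ((((h3.and h6).and h7).filter_mono nhdsWithin_le_nhds).and
        (self_mem_nhdsWithin : Ioi (0:ℝ) ∈ 𝓝[>] (0:ℝ))).exists
    exact ⟨d, h11, by linarith, h8, h9⟩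
  have hcosb : ∀ x : ℝ, |x| < δ₁ → |2 * a * x| < Real.pi / 2 := by
    intro x hx
    rw [abs_mul, abs_of_pos (by linarith : 0 < 2 * a), ← haδ]
    exact mul_lt_mul_of_pos_left hx (by linarith)
  have hcosp : ∀ x : ℝ, |x| < δ₁ → 0 < Real.cos (2 * a * x) := fun x hx =>
    Real.cos_pos_of_mem_Ioo (abs_lt.1 (hcosb x hx))
  have hcosm : ∀ x : ℝ, |x| < 3 * δ₂ → Real.cos (2 * a * (3 * δ₂)) ≤ Real.cos (2 * a * x) := by
    intro x hx
    rw [← Real.cos_abs (2 * a * x)]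
    have h2 : |2 * a * x| = 2 * a * |x| := by
      rw [abs_mul, abs_of_pos (by linarith : 0 < 2 * a)]
    apply Real.cos_le_cos_of_nonneg_of_le_pi (abs_nonneg _)
    · have h3 : 2 * a * (3 * δ₂) ≤ 2 * a * δ₁ := mul_le_mul_of_nonneg_left hδ2' (by linarith)
      linarith
    · rw [h2]
      exact mul_le_mul_of_nonneg_left hx.le (by linarith)
  have hr21 : r₂ < 1 := by linarith
  have habs : ∀ y : ℝ, |2 * a * y| = 2 * a * |y| := by
    intro y
    rw [abs_mul, abs_of_pos (by linarith : 0 < 2 * a)]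
  refine ⟨δ₂, ρ / 2, r₁, r₂, cTT a tc, cXX a tc, ⟨by linarith, by linarith, hr2', hr1', hδ2,
    hδ2', ?_, ?_, ?_, ?_, ?_, ?_, ?_, ?_⟩⟩
  · intro χ hχ
    rw [mem_ball_zero_iff] at hχ
    have h2 := cR_pos hχ
    have h3 : (1 - χ) ≠ 0 := by
      intro h4
      rw [h4] at h2
      simp at h2
    have h4 : AnalyticAt ℂ (fun χ : ℂ => (1 + χ) / (1 - χ)) χ :=
      (analyticAt_const.add analyticAt_id).div (analyticAt_const.sub analyticAt_id) h3
    exact analyticAt_const.add (analyticAt_const.mul (h4.clog (Or.inl h2)))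
  · intro τ hτ
    have h2 : 0 < Real.cos (2 * a * τ.re) := hcosp _ hτ
    have h3 := cE_ne (tc := tc) h2
    have h4 : AnalyticAt ℂ (fun τ : ℂ => exp (cee a tc τ)) τ := by
      have h5 : AnalyticAt ℂ (cee a tc) τ :=
        analyticAt_const.mul (analyticAt_id.sub analyticAt_const)
      exact h5.cexp
    exact (h4.sub analyticAt_const).div (h4.add analyticAt_const) h3
  · intro χ hχ
    rw [mem_ball_zero_iff] at hχ
    refine ⟨?_, cXT ha hχ⟩
    have h2 := Complex.abs_arg_lt_pi_div_two_iff.2 (Or.inl (cR_pos hχ))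
    rw [cTT_re, abs_neg, abs_div, abs_of_pos (by linarith : 0 < 2 * a),
      div_lt_iff₀ (by linarith)]
    linarith
  · intro τ hτ
    refine ⟨?_, cTX ha (hcosb _ hτ)⟩
    apply cXN one_pos (hcosp _ hτ)
    have := hcosp _ hτ
    norm_num
    exact this
  · intro χ hχ
    rw [mem_ball_zero_iff] at hχ
    have h2 := cTT_bd (tc := tc) ha hχ hr1' (v := v₁ - tc) hr1m
    constructor
    · linarith [h2.1]
    · linarith [h2.2]
  · intro χ hχ
    rw [mem_ball_zero_iff] at hχ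
    have e : 2 * (ρ / 2) = ρ := by ring
    rw [e] at hχ
    exact cTT_bd (tc := tc) ha hχ hρ' (v := 1) (by rw [mul_one]; exact hρm)
  · intro τ h2 h3 h4
    rw [mem_ball_zero_iff]
    apply cXN (by linarith) (hcosp _ (by linarith))
    have h5 : Real.cosh (2 * a * (τ.im - tc)) ≤ Real.cosh (2 * a * (v₀ + 3 * δ₂ - tc)) := by
      rw [Real.cosh_le_cosh, habs, habs]
      apply mul_le_mul_of_nonneg_left _ (by linarith)
      rw [abs_of_pos (by linarith : 0 < v₀ + 3 * δ₂ - tc), abs_le]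
      constructor <;> linarith
    calc Real.cosh (2 * a * (τ.im - tc)) * (1 - r₂ ^ 2) ≤
          Real.cosh (2 * a * (v₀ + 3 * δ₂ - tc)) * (1 - r₂ ^ 2) := by
          apply mul_le_mul_of_nonneg_right h5
          nlinarith
      _ < Real.cos (2 * a * (3 * δ₂)) * (1 + r₂ ^ 2) := hδ2m
      _ ≤ Real.cos (2 * a * τ.re) * (1 + r₂ ^ 2) := by
          apply mul_le_mul_of_nonneg_right (hcosm _ h2)
          positivity
  · intro τ h2
    rw [mem_ball_zero_iff]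
    have h3 : |τ.re| < 3 * δ₂ := by
      have h4 := Complex.abs_re_le_norm (τ - tc * I)
      have e : (τ - tc * I).re = τ.re := by simp
      rw [e] at h4
      linarith
    have h5 : |τ.im - tc| < 3 * δ₂ := by
      have h4 := Complex.abs_im_le_norm (τ - tc * I)
      have e : (τ - tc * I).im = τ.im - tc := by simp
      rw [e] at h4
      linarith
    apply cXN (by linarith) (hcosp _ (by linarith))
    have h6 : Real.cosh (2 * a * (τ.im - tc)) ≤ Real.cosh (2 * a * (3 * δ₂)) := by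
      rw [Real.cosh_le_cosh, habs, habs]
      apply mul_le_mul_of_nonneg_left _ (by linarith)
      rw [abs_of_pos (by linarith : 0 < 3 * δ₂)]
      exact h5.le
    calc Real.cosh (2 * a * (τ.im - tc)) * (1 - (ρ / 2) ^ 2) ≤
          Real.cosh (2 * a * (3 * δ₂)) * (1 - (ρ / 2) ^ 2) := by
          apply mul_le_mul_of_nonneg_right h6
          nlinarith
      _ < Real.cos (2 * a * (3 * δ₂)) * (1 + (ρ / 2) ^ 2) := hδ2n
      _ ≤ Real.cos (2 * a * τ.re) * (1 + (ρ / 2) ^ 2) := by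
          apply mul_le_mul_of_nonneg_right (hcosm _ h3)
          positivity

end Pool.Agent.MP_ae5b4e_an_NB5
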