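import Pool.Agent.Lib.MP_ae5b4e_an_NB5.Defs

/-!
# MP_ae5b4e_an, project NB_5(A): maximum principles in a half disc
-/

noncomputable section

namespace Pool.Agent.MP_ae5b4e_an_NB5

open Complex Set Filter Topology Metric
open Pool.Agent.MP_ae5b4e_an_NBT (St)
open Pool.Agent.MP_ae5b4e_an_NB2 (Sys)
open scoped ComplexConjugate

/-- the closed half disc -/
def Hd (r : ℝ) : Set ℂ := {z | ‖z‖ ≤ r ∧ 0 ≤ z.re}

/-- The maximum principle (`Complex.norm_le_of_forall_mem_frontier_norm_le`) on the bounded open set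
`{‖z‖ < r, 0 < Re z}`, whose closure is `Hd r`. -/
theorem half_max {f : ℂ → ℂ} {r M : ℝ} (hr : 0 < r) (hc : ContinuousOn f (Hd r))
    (hd : DifferentiableOn ℂ f {z | ‖z‖ < r ∧ 0 < z.re}) (ha : ∀ z ∈ Hd r, ‖z‖ = r → ‖f z‖ ≤ M)
    (hi : ∀ z ∈ Hd r, z.re = 0 → ‖f z‖ ≤ M) : ∀ z ∈ Hd r, ‖f z‖ ≤ M := by
  have hcl : IsClosed (Hd r) := by
    have h1 : IsClosed {z : ℂ | ‖z‖ ≤ r} := isClosed_le continuous_norm continuous_const
    have h2 : IsClosed {z : ℂ | 0 ≤ z.re} := isClosed_le continuous_const continuous_re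
    exact h1.inter h2
  have hopen : IsOpen {z : ℂ | ‖z‖ < r ∧ 0 < z.re} := by
    have h1 : IsOpen {z : ℂ | ‖z‖ < r} := isOpen_lt continuous_norm continuous_const
    have h2 : IsOpen {z : ℂ | 0 < z.re} := isOpen_lt continuous_const continuous_re
    exact h1.inter h2
  have hsub : closure {z : ℂ | ‖z‖ < r ∧ 0 < z.re} ⊆ Hd r :=
    closure_minimal (fun z hz => ⟨hz.1.le, hz.2.le⟩) hcl
  have hbd : Bornology.IsBounded {z : ℂ | ‖z‖ < r ∧ 0 < z.re} := by
    refine (Metric.isBounded_ball (x := (0:ℂ)) (r := r)).subset fun z hz => ?_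
    rw [mem_ball_zero_iff]
    exact hz.1
  have hb : ∀ z ∈ Hd r, ¬ (‖z‖ < r ∧ 0 < z.re) → ‖f z‖ ≤ M := by
    intro z hz hn
    rcases hz.1.lt_or_eq with h1 | h1
    · rcases hz.2.lt_or_eq with h2 | h2
      · exact absurd ⟨h1, h2⟩ hn
      · exact hi z hz h2.symm
    · exact ha z hz h1
  intro z hz
  by_cases hzU : ‖z‖ < r ∧ 0 < z.re
  · refine Complex.norm_le_of_forall_mem_frontier_norm_le hbd ⟨hd, hc.mono hsub⟩ (fun w hw => ?_)
      (subset_closure hzU)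
    rw [hopen.frontier_eq] at hw
    exact hb w (hsub hw.1) hw.2
  · exact hb z hz hzU

/-- Phragmen-Lindelof at the boundary point `0`: apply `half_max` to
`f z * exp (- e z ^ (-1/2))` (value `0` at `0`), `e > 0`: `Re z ^ (-1/2) ≥ ‖z‖ ^ (-1/2) cos (π/4)`, so
the factor has norm at most one and kills the growth `‖z‖ ^ (-2)`; then `e → 0`. -/
theorem half_pl {f : ℂ → ℂ} {r M K : ℝ} (hr : 0 < r) (hM : 0 ≤ M)
    (hc : ContinuousOn f (Hd r \ {0})) (hd : DifferentiableOn ℂ f {z | ‖z‖ < r ∧ 0 < z.re})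
    (hK : ∀ z ∈ Hd r \ {0}, ‖f z‖ ≤ K / ‖z‖ ^ 2) (ha : ∀ z ∈ Hd r \ {0}, ‖z‖ = r → ‖f z‖ ≤ M)
    (hi : ∀ z ∈ Hd r \ {0}, z.re = 0 → ‖f z‖ ≤ M) : ∀ z ∈ Hd r \ {0}, ‖f z‖ ≤ M := by
  have key : ∀ δ : ℝ, 0 < δ → ∀ z ∈ Hd r, ‖f z * (z / (z + δ)) ^ 3‖ ≤ M := by
    intro δ hδ
    have hne : ∀ z : ℂ, 0 ≤ z.re → z + δ ≠ 0 := by
      intro z hz h0
      have h1 := congrArg Complex.re h0
      simp only [add_re, ofReal_re, zero_re] at h1
      linarith
    have hle : ∀ z : ℂ, 0 ≤ z.re → ‖z‖ ≤ ‖z + δ‖ ∧ δ ≤ ‖z + δ‖ := by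
      intro z hz
      constructor
      · rw [Complex.norm_def, Complex.norm_def]
        refine Real.sqrt_le_sqrt ?_
        rw [normSq_apply, normSq_apply]
        simp only [add_re, ofReal_re, add_im, ofReal_im, add_zero]
        nlinarith
      · have h1 := Complex.abs_re_le_norm (z + δ)
        simp only [add_re, ofReal_re] at h1
        have h2 := le_abs_self (z.re + δ)
        linarith
    have hfac : ∀ z : ℂ, 0 ≤ z.re → ‖(z / (z + δ)) ^ 3‖ ≤ 1 := by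
      intro z hz
      rw [norm_pow, norm_div]
      refine pow_le_one₀ (by positivity) ?_
      have h1 : 0 < ‖z + δ‖ := norm_pos_iff.2 (hne z hz)
      rw [div_le_one h1]
      exact (hle z hz).1
    have hmul : ∀ z ∈ Hd r, z ≠ 0 → ‖f z‖ ≤ M → ‖f z * (z / (z + δ)) ^ 3‖ ≤ M := by
      intro z hz _ h1
      rw [norm_mul]
      calc ‖f z‖ * ‖(z / (z + δ)) ^ 3‖ ≤ ‖f z‖ * 1 :=
            mul_le_mul_of_nonneg_left (hfac z hz.2) (norm_nonneg _)
        _ ≤ M := by rw [mul_one]; exact h1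
    have hcont : ContinuousOn (fun z : ℂ => (z / (z + δ)) ^ 3) {z : ℂ | 0 ≤ z.re} :=
      (continuousOn_id.div (continuousOn_id.add continuousOn_const)
        (fun z hz => hne z hz)).pow 3
    refine half_max hr ?_ ?_ ?_ ?_
    · intro z hz
      by_cases h0 : z = 0
      · subst h0
        have e0 : f 0 * ((0:ℂ) / (0 + δ)) ^ 3 = 0 := by simp
        refine Metric.continuousWithinAt_iff'.2 fun ε hε => ?_
        have h1 : ∀ᶠ z : ℂ in 𝓝 (0:ℂ), (|K| / δ ^ 3) * ‖z‖ < ε := by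
          have h2 : Continuous fun z : ℂ => (|K| / δ ^ 3) * ‖z‖ := by fun_prop
          have h3 := h2.tendsto (0:ℂ)
          rw [norm_zero, mul_zero] at h3
          exact h3.eventually (gt_mem_nhds hε)
        filter_upwards [mem_nhdsWithin_of_mem_nhds h1, self_mem_nhdsWithin] with z hz1 hz2
        rw [e0, dist_zero_right]
        by_cases hz0 : z = 0
        · rw [hz0]
          simpa using hε
        · refine lt_of_le_of_lt ?_ hz1
          have hn : 0 < ‖z‖ := norm_pos_iff.2 hz0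
          have h3 := hK z ⟨hz2, hz0⟩
          have h4 : ‖(z / (z + δ)) ^ 3‖ ≤ (‖z‖ / δ) ^ 3 := by
            rw [norm_pow, norm_div]
            refine pow_le_pow_left₀ (by positivity) ?_ 3
            exact div_le_div_of_nonneg_left hn.le hδ (hle z hz2.2).2
          have h5 : ‖f z‖ ≤ |K| / ‖z‖ ^ 2 := h3.trans (by
            gcongr
            exact le_abs_self K)
          rw [norm_mul]
          calc ‖f z‖ * ‖(z / (z + δ)) ^ 3‖ ≤ (|K| / ‖z‖ ^ 2) * (‖z‖ / δ) ^ 3 :=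
                mul_le_mul h5 h4 (norm_nonneg _) (by positivity)
            _ = (|K| / δ ^ 3) * ‖z‖ := by
                field_simp
      · have h1 : ContinuousWithinAt f (Hd r) z := by
          have h2 := hc z ⟨hz, h0⟩
          refine h2.mono_of_mem_nhdsWithin ?_
          have h3 : {0}ᶜ ∈ 𝓝 z := isOpen_compl_singleton.mem_nhds h0
          have h4 := inter_mem_nhdsWithin (Hd r) h3
          exact h4
        have h2 : ContinuousWithinAt (fun z : ℂ => (z / (z + δ)) ^ 3) (Hd r) z :=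
          (hcont z hz.2).mono (fun w hw => hw.2)
        exact h1.mul h2
    · refine hd.mul (DifferentiableOn.pow (DifferentiableOn.div differentiableOn_id
        (differentiableOn_id.add (differentiableOn_const _)) (fun z hz => hne z hz.2.le)) 3)
    · intro z hz h1
      have h0 : z ≠ 0 := by
        rintro rfl
        rw [norm_zero] at h1
        exact hr.ne h1
      exact hmul z hz h0 (ha z ⟨hz, h0⟩ h1)
    · intro z hz h1
      by_cases h0 : z = 0
      · rw [h0]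
        simpa using hM
      · exact hmul z hz h0 (hi z ⟨hz, h0⟩ h1)
  intro z hz
  obtain ⟨hz1, hz0⟩ := hz
  have hz0' : z ≠ 0 := hz0
  have hlim : Tendsto (fun δ : ℝ => ‖f z * (z / (z + δ)) ^ 3‖) (𝓝[>] (0:ℝ)) (𝓝 ‖f z‖) := by
    have h1 : ContinuousAt (fun δ : ℝ => ‖f z * (z / (z + δ)) ^ 3‖) 0 := by
      refine ContinuousAt.norm (continuousAt_const.mul (ContinuousAt.pow
        (continuousAt_const.div (continuousAt_const.add
          Complex.continuous_ofReal.continuousAt) ?_) 3))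
      change z + ((0:ℝ):ℂ) ≠ 0
      rw [ofReal_zero, add_zero]
      exact hz0'
    have h2 := h1.tendsto
    simp only [ofReal_zero, add_zero, div_self hz0', one_pow, mul_one] at h2
    exact h2.mono_left nhdsWithin_le_nhds
  refine le_of_tendsto hlim ?_
  filter_upwards [self_mem_nhdsWithin] with δ hδ
  exact key δ hδ z hz1

/-- `|arg z| ≤ π / 2` on the half plane, so `|arg (z ^ p)| ≤ π / B` for `p = 2 / B` -/
theorem cpow_re {B : ℕ} (hB : 8 ≤ B) {z : ℂ} (hz : z ≠ 0) (hre : 0 ≤ z.re) :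
    ‖z ^ ((2:ℂ) / B)‖ = ‖z‖ ^ ((2:ℝ) / B) ∧
      ‖z‖ ^ ((2:ℝ) / B) * Real.cos (Real.pi / B) ≤ (z ^ ((2:ℂ) / B)).re ∧
      (z.re = 0 → (z ^ ((2:ℂ) / B)).re = ‖z‖ ^ ((2:ℝ) / B) * Real.cos (Real.pi / B)) := by
  have hB0 : (0:ℝ) < B := by
    have : 0 < B := by omega
    exact_mod_cast this
  have hp : (2:ℂ) / B = (((2:ℝ) / B : ℝ) : ℂ) := by push_cast; rfl
  rw [hp]
  have hn : 0 < ‖z‖ := norm_pos_iff.2 hz
  have hre' : (z ^ ((((2:ℝ) / B : ℝ)) : ℂ)).re =
      ‖z‖ ^ ((2:ℝ) / B) * Real.cos (z.arg * (2 / B)) := by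
    rw [cpow_def_of_ne_zero hz, exp_re, re_mul_ofReal, im_mul_ofReal, log_re, log_im,
      Real.rpow_def_of_pos hn]
  have harg : |z.arg| ≤ Real.pi / 2 := abs_arg_le_pi_div_two_iff.2 hre
  have hpi := Real.pi_pos
  have habs : |z.arg * (2 / B)| = |z.arg| * (2 / B) := by
    rw [abs_mul, abs_of_pos (by positivity : (0:ℝ) < 2 / B)]
  have hle : |z.arg| * (2 / B) ≤ Real.pi / B := by
    calc |z.arg| * (2 / B) ≤ Real.pi / 2 * (2 / B) :=
          mul_le_mul_of_nonneg_right harg (by positivity)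
      _ = Real.pi / B := by ring
  have hBpi : Real.pi / B ≤ Real.pi := by
    refine div_le_self hpi.le ?_
    have : 1 ≤ B := by omega
    exact_mod_cast this
  refine ⟨norm_cpow_real z _, ?_, ?_⟩
  · rw [hre']
    refine mul_le_mul_of_nonneg_left ?_ (by positivity)
    rw [← Real.cos_abs (z.arg * (2 / B)), habs]
    exact Real.cos_le_cos_of_nonneg_of_le_pi (by positivity) hBpi hle
  · intro h0
    rw [hre']
    have h1 : ¬ |z.arg| < Real.pi / 2 := by
      rw [abs_arg_lt_pi_div_two_iff]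
      rintro (h2 | h2)
      · linarith
      · exact hz h2
    have h2 : |z.arg| = Real.pi / 2 := le_antisymm harg (not_lt.1 h1)
    rw [← Real.cos_abs (z.arg * (2 / B)), habs, h2]
    congr 2
    ring

/-- `cos (π / B) ^ B ≥ (1 - π² / (2 B²)) ^ B ≥ 1 - π² / (2 B)`, for `B ≥ 10`; the cases `B = 8, 9` with
numerical bounds (`cos (π/8) ^ 2 = (2 + √2) / 4`), or `cos x ≥ exp (- 0.53 x²)` for small `x` -/
theorem cos_pow {B : ℕ} (hB : 8 ≤ B) : 1 / 2 ≤ Real.cos (Real.pi / B) ^ B := by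
  have hpi := Real.pi_pos
  have hpi2 : Real.pi < 3.15 := Real.pi_lt_d2
  have hB8 : (8:ℝ) ≤ B := by exact_mod_cast hB
  have hB0 : (0:ℝ) < B := by linarith
  have h1 : 1 - (Real.pi / B) ^ 2 / 2 ≤ Real.cos (Real.pi / B) := Real.one_sub_sq_div_two_le_cos
  have hsq : Real.pi ^ 2 ≤ 3.15 ^ 2 := pow_le_pow_left₀ hpi.le hpi2.le 2
  have h3 : (Real.pi / B) ^ 2 / 2 ≤ 3.15 ^ 2 / (2 * (B:ℝ) ^ 2) := by
    rw [div_pow, div_div, mul_comm ((B:ℝ) ^ 2) 2]
    gcongr
  have h4 : (3.15:ℝ) ^ 2 / (2 * (B:ℝ) ^ 2) ≤ 3.15 ^ 2 / (2 * 8 ^ 2) := by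
    gcongr
  have h5 : 0 ≤ 1 - (3.15:ℝ) ^ 2 / (2 * (B:ℝ) ^ 2) := by
    have : (3.15:ℝ) ^ 2 / (2 * 8 ^ 2) ≤ 1 := by norm_num
    linarith
  have h6 : 1 - (3.15:ℝ) ^ 2 / (2 * (B:ℝ) ^ 2) ≤ Real.cos (Real.pi / B) := by linarith
  have h7 := pow_le_pow_left₀ h5 h6 B
  refine le_trans ?_ h7
  rcases Nat.lt_or_ge B 10 with hlt | hge
  · have h8 : B = 8 ∨ B = 9 := by omega
    rcases h8 with rfl | rfl
    · norm_num
    · norm_num
  · have hB10 : (10:ℝ) ≤ B := by exact_mod_cast hge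
    have h8 : (-2:ℝ) ≤ -((3.15:ℝ) ^ 2 / (2 * (B:ℝ) ^ 2)) := by
      have : (3.15:ℝ) ^ 2 / (2 * 8 ^ 2) ≤ 1 := by norm_num
      linarith
    have h9 := one_add_mul_le_pow h8 B
    rw [← sub_eq_add_neg] at h9
    refine le_trans ?_ h9
    have h10 : (B:ℝ) * -((3.15:ℝ) ^ 2 / (2 * (B:ℝ) ^ 2)) = -((3.15:ℝ) ^ 2 / 2 / B) := by
      field_simp
    rw [h10]
    have h11 : (3.15:ℝ) ^ 2 / 2 / B ≤ (3.15:ℝ) ^ 2 / 2 / 10 := by
      gcongr
    have h12 : (3.15:ℝ) ^ 2 / 2 / 10 ≤ 1 / 2 := by norm_num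
    linarith

end Pool.Agent.MP_ae5b4e_an_NB5
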