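import Pool.Agent.Lib.MP_ae5b4e_an_NB5.Vert
import Pool.Agent.Lib.MP_ae5b4e_an_NB5.Co
import Pool.Agent.Lib.MP_ae5b4e_an_NB5.HalfD

/-!
# MP_ae5b4e_an, project NB_5(A): growth of the coefficients
-/

noncomputable section

namespace Pool.Agent.MP_ae5b4e_an_NB5

open Complex Set Filter Topology Metric
open Pool.Agent.MP_ae5b4e_an_NBT (St)
open Pool.Agent.MP_ae5b4e_an_NB2 (Sys)
open scoped ComplexConjugate

/-- the zone parameters: `a ^ B = A / κ` -/
def zA (κ A : ℝ) (B : ℕ) : ℝ := (A / κ) ^ ((1:ℝ) / B)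

private theorem CoEst_pow {κ A r : ℝ} {B : ℕ} (hκ : 0 < κ) (hA : 0 < A) (hr : 0 ≤ r)
    (hB : 0 < B) : (zA κ A B * r ^ ((2:ℝ) / B)) ^ B = A / κ * r ^ 2 := by
  have hB' : (B:ℝ) ≠ 0 := by exact_mod_cast hB.ne'
  have h1 : (zA κ A B) ^ B = A / κ := by
    unfold zA
    rw [← Real.rpow_natCast, ← Real.rpow_mul (div_pos hA hκ).le, one_div_mul_cancel hB',
      Real.rpow_one]
  have h2 : (r ^ ((2:ℝ) / B)) ^ B = r ^ 2 := by
    rw [← Real.rpow_natCast, ← Real.rpow_mul hr, div_mul_cancel₀ _ hB']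
    norm_cast
  rw [mul_pow, h1, h2]

private theorem CoEst_zA {κ A : ℝ} {B : ℕ} (hκ : 0 < κ) (hA : 0 < A) : 0 < zA κ A B :=
  Real.rpow_pos_of_pos (div_pos hA hκ) _

/-- the strip is convex -/
private theorem CoEst_st (a b : ℝ) : Convex ℝ (St a b) := by
  have h1 : St a b = {t : ℂ | a < t.im} ∩ {t : ℂ | t.im < b} := rfl
  rw [h1]
  exact (convex_halfSpace_im_gt a).inter (convex_halfSpace_im_lt b)

private theorem CoEst_im {Y : Sys} {b C : ℝ} {L : ℂ × ℂ → ℂ} (hE : Ent Y b C L) {B : ℕ}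
    {H A κ r y y' : ℝ} (hM : Maj Y B H A) (hκ1 : κ ≤ 1) (hr : 0 < r) (hrb : r < b) (hy : 0 < y)
    (hyy : y < y') (hyH : y' < H) (hrA : r ^ 2 * A ≤ κ * (H - y') ^ B)
    {Λ : ℂ → ℂ} (h1 : AnalyticOnNhd ℂ Λ (St (-(b / 2)) y'))
    (h2 : ∀ t ∈ St (-(b / 2)) y', t.im < b / 2 → Λ t = L (t, r * I))
    (h3 : ∀ t ∈ St 0 y', ‖Λ t - t‖ ≤ 300 * (r ^ 2 * A / (H - t.im) ^ B) * ((H - t.im) / B))
    (n : ℕ) : ‖Dc L (-(n:ℤ)) (r * I)‖ ≤ 300 * H * Real.exp (-(2 * Real.pi * n * y)) := by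
  have hb := hE.b_pos
  have hy' : 0 < y' := hy.trans hyy
  have hH : (0:ℝ) < H := hy'.trans hyH
  have hB8 : (8:ℝ) ≤ B := by exact_mod_cast hM.B_ge
  have hnr : ‖(r:ℂ) * I‖ < b := by
    rw [norm_mul, norm_I, mul_one, Complex.norm_real, Real.norm_of_nonneg hr.le]
    exact hrb
  have hmem : ∀ t : ℂ, t ∈ St (-(b / 2)) y' → t.im < b / 2 → (t, (r:ℂ) * I) ∈ Bs b := by
    intro t ht ht2
    refine ⟨⟨?_, ?_⟩, ?_⟩
    · have := ht.1
      change -b < t.im
      linarith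
    · change t.im < b
      linarith
    · rw [mem_ball_zero_iff]
      exact hnr
  -- periodicity
  have hper : ∀ t ∈ St (-(b / 2)) y', Λ (t + 1) = Λ t + 1 := by
    have hsub : ∀ t ∈ St (-(b / 2)) y', t + 1 ∈ St (-(b / 2)) y' := by
      intro t ht
      refine ⟨?_, ?_⟩
      · have := ht.1
        simpa using this
      · have := ht.2
        simpa using this
    have han : AnalyticOnNhd ℂ (fun t => Λ (t + 1) - (Λ t + 1)) (St (-(b / 2)) y') := by
      intro t ht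
      have e1 : AnalyticAt ℂ (fun t : ℂ => t + 1) t := analyticAt_id.add analyticAt_const
      have e2 : AnalyticAt ℂ (fun t => Λ (t + 1)) t :=
        AnalyticAt.comp' (f := fun t : ℂ => t + 1) (h1 _ (hsub t ht)) e1
      exact e2.sub ((h1 t ht).add analyticAt_const)
    have h0 : (0:ℂ) ∈ St (-(b / 2)) y' := by
      refine ⟨?_, ?_⟩
      · change -(b / 2) < (0:ℂ).im
        rw [Complex.zero_im]
        linarith
      · change (0:ℂ).im < y'
        rw [Complex.zero_im]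
        exact hy'
    have hev : (fun t => Λ (t + 1) - (Λ t + 1)) =ᶠ[𝓝 (0:ℂ)] 0 := by
      have hopen : {t : ℂ | -(b / 2) < t.im ∧ t.im < min (b / 2) y'} ∈ 𝓝 (0:ℂ) := by
        refine IsOpen.mem_nhds ?_ ?_
        · exact (isOpen_lt continuous_const Complex.continuous_im).inter
            (isOpen_lt Complex.continuous_im continuous_const)
        · refine ⟨?_, ?_⟩
          · rw [Complex.zero_im]
            linarith
          · rw [Complex.zero_im]
            exact lt_min (by linarith) hy'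
      filter_upwards [hopen] with t ht
      have ht1 : t ∈ St (-(b / 2)) y' := ⟨ht.1, ht.2.trans_le (min_le_right _ _)⟩
      have ht2 : t.im < b / 2 := ht.2.trans_le (min_le_left _ _)
      have ht3 : (t + 1).im < b / 2 := by simpa using ht2
      change Λ (t + 1) - (Λ t + 1) = 0
      rw [h2 t ht1 ht2, h2 _ (hsub t ht1) ht3, hE.per _ (hmem t ht1 ht2), sub_self]
    have hz := han.eqOn_zero_of_preconnected_of_eventuallyEq_zero
      (CoEst_st _ _).isPreconnected h0 hev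
    intro t ht
    exact sub_eq_zero.1 (hz ht)
  have hg : AnalyticOnNhd ℂ (fun t => Λ t - t) (St (-(b / 2)) y') := fun t ht =>
    (h1 t ht).sub analyticAt_id
  have hgper : ∀ t ∈ St (-(b / 2)) y', (fun t => Λ t - t) (t + 1) = (fun t => Λ t - t) t := by
    intro t ht
    change Λ (t + 1) - (t + 1) = Λ t - t
    rw [hper t ht]
    ring
  have hrA' : r ^ 2 * A ≤ (H - y) ^ B := by
    have e1 : (H - y') ^ B ≤ (H - y) ^ B := pow_le_pow_left₀ (by linarith) (by linarith) B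
    have e2 : 0 ≤ (H - y') ^ B := pow_nonneg (by linarith) B
    nlinarith
  have hbd : ∀ t : ℂ, t.im = y → ‖(fun t => Λ t - t) t‖ ≤ 300 * H := by
    intro t ht
    have e1 := h3 t ⟨by rw [ht]; exact hy, by rw [ht]; exact hyy⟩
    rw [ht] at e1
    have e2 : r ^ 2 * A / (H - y) ^ B ≤ 1 := by
      rw [div_le_one (pow_pos (by linarith) B)]
      exact hrA'
    have e3 : (H - y) / B ≤ H := by
      rw [div_le_iff₀ (by linarith)]
      nlinarith
    have e4 : 0 ≤ (H - y) / B := div_nonneg (by linarith) (by linarith)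
    have e5 : 0 ≤ r ^ 2 * A / (H - y) ^ B := by
      have := hM.A_pos
      have : 0 < (H - y) ^ B := pow_pos (by linarith) B
      positivity
    calc ‖Λ t - t‖ ≤ _ := e1
      _ ≤ 300 * 1 * H := by gcongr
      _ = 300 * H := by ring
  have hcf := cf_bound hg hgper (by linarith : -(b / 2) < 0) hy' (by linarith) hyy hbd (-(n:ℤ))
  have hD : Dc L (-(n:ℤ)) (r * I) = cf (fun t => Λ t - t) (-(n:ℤ)) := by
    unfold Dc cf
    refine intervalIntegral.integral_congr fun x _ => ?_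
    have hx : ((x:ℂ)).im = 0 := Complex.ofReal_im x
    have e1 : (x:ℂ) ∈ St (-(b / 2)) y' := ⟨by rw [hx]; linarith, by rw [hx]; exact hy'⟩
    have e2 := h2 (x:ℂ) e1 (by rw [hx]; linarith)
    change (L ((x:ℂ), r * I) - x) * _ = (Λ x - x) * _
    rw [e2]
  rw [hD]
  refine hcf.trans (le_of_eq ?_)
  push_cast
  congr 2
  ring

private theorem CoEst_axis {Y : Sys} {b C : ℝ} {L : ℂ × ℂ → ℂ} (hE : Ent Y b C L) {B : ℕ}
    {H A κ r : ℝ} (hM : Maj Y B H A) (hκ : 0 < κ) (hκ1 : κ ≤ 1) (hr : 0 < r) (hrb : r < b)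
    (hrH : zA κ A B * r ^ ((2:ℝ) / B) < H)
    (hv : ∀ y : ℝ, 0 ≤ y → y < H → r ^ 2 * A ≤ κ * (H - y) ^ B →
        ∃ Λ : ℂ → ℂ, AnalyticOnNhd ℂ Λ (St (-(b / 2)) y) ∧
          (∀ t ∈ St (-(b / 2)) y, t.im < b / 2 → Λ t = L (t, r * I)) ∧
          ∀ t ∈ St 0 y, ‖Λ t - t‖ ≤ 300 * (r ^ 2 * A / (H - t.im) ^ B) * ((H - t.im) / B))
    (n : ℕ) : ‖Dc L (-(n:ℤ)) (r * I)‖ ≤
      300 * H * Real.exp (-(2 * Real.pi * n * (H - zA κ A B * r ^ ((2:ℝ) / B)))) := by
  have hA := hM.A_pos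
  have hB0 : 0 < B := lt_of_lt_of_le (by norm_num) hM.B_ge
  obtain ⟨x, hx⟩ : ∃ x, x = zA κ A B * r ^ ((2:ℝ) / B) := ⟨_, rfl⟩
  have hx0 : 0 < x := by
    rw [hx]
    exact mul_pos (CoEst_zA hκ hA) (Real.rpow_pos_of_pos hr _)
  have hxB : x ^ B = A / κ * r ^ 2 := by rw [hx, CoEst_pow hκ hA hr.le hB0]
  rw [← hx] at hrH ⊢
  have key : ∀ y ∈ Ioo 0 (H - x), ‖Dc L (-(n:ℤ)) (r * I)‖ ≤
      300 * H * Real.exp (-(2 * Real.pi * n * y)) := by
    intro y hy
    obtain ⟨hy1, hy2⟩ := hy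
    have e1 : y < (y + (H - x)) / 2 := by linarith
    have e2 : (y + (H - x)) / 2 < H := by linarith
    have e3 : r ^ 2 * A ≤ κ * (H - (y + (H - x)) / 2) ^ B := by
      have e4 : x ^ B ≤ (H - (y + (H - x)) / 2) ^ B := pow_le_pow_left₀ hx0.le (by linarith) B
      rw [hxB] at e4
      have e5 : κ * (A / κ * r ^ 2) = r ^ 2 * A := by
        field_simp
      rw [← e5]
      exact mul_le_mul_of_nonneg_left e4 hκ.le
    obtain ⟨Λ, h1, h2, h3⟩ := hv _ (by linarith) e2 e3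
    exact CoEst_im hE hM hκ1 hr hrb hy1 e1 e2 e3 h1 h2 h3 n
  have hc : Tendsto (fun y : ℝ => 300 * H * Real.exp (-(2 * Real.pi * n * y)))
      (𝓝[<] (H - x)) (𝓝 (300 * H * Real.exp (-(2 * Real.pi * n * (H - x))))) := by
    have : Continuous (fun y : ℝ => 300 * H * Real.exp (-(2 * Real.pi * n * y))) := by
      fun_prop
    exact (this.tendsto (H - x)).mono_left nhdsWithin_le_nhds
  refine ge_of_tendsto hc ?_
  filter_upwards [Ioo_mem_nhdsLT (by linarith : (0:ℝ) < H - x)] with y hy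
  exact key y hy

private theorem CoEst_cpow {B : ℕ} (hB : 8 ≤ B) {z : ℂ} (hz : 0 ≤ z.re) :
    ContinuousAt (fun z : ℂ => z ^ ((2:ℂ) / B)) z := by
  by_cases h0 : z = 0
  · subst h0
    have hB0 : (0:ℝ) < B := by
      have : 0 < B := lt_of_lt_of_le (by norm_num) hB
      exact_mod_cast this
    have hre : 0 < ((2:ℂ) / B).re := by
      have : ((2:ℂ) / B) = (((2:ℝ) / B : ℝ) : ℂ) := by push_cast; rfl
      rw [this, Complex.ofReal_re]
      positivity
    have h1 := Complex.continuousAt_cpow_zero_of_re_pos hre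
    have h2 : ContinuousAt (fun z : ℂ => (z, (2:ℂ) / B)) 0 := by fun_prop
    exact ContinuousAt.comp (f := fun z : ℂ => (z, (2:ℂ) / B))
      (g := fun x : ℂ × ℂ => x.1 ^ x.2) h1 h2
  · refine continuousAt_cpow_const ?_
    rw [Complex.mem_slitPlane_iff]
    by_cases h1 : z.im = 0
    · left
      rcases hz.lt_or_eq with h | h
      · exact h
      · exact absurd (Complex.ext (by rw [← h]; rfl) (by rw [h1]; rfl)) h0
    · right
      exact h1

/-- **Growth of the coefficients.** `κ`, `C₁` from `vert` (`C₁` enlarged so that all `η` below lie in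
`ball 0 (b / 2)`: `‖η‖² ≤ κ (H - b/2) ^ B / A ≤ 1 / (C₁ B)`). Let `a = zA κ A B`, `p = 2 / B`, and
`r₀² A = κ (H - b/2) ^ B`, so that `a r₀ ^ p = H - b/2`. For `η = ± i r`, `0 < r ≤ r₀`, and
`0 < y < H - a r ^ p` the function `Λ` of `vert` (with the height `y' ∈ (y, H - a r^p)`:
`r² A ≤ κ (H - y') ^ B`) minus `t` is periodic (identity theorem, `Ent.per`), agrees with
`L (t, i r) - t` near the real line, and is bounded by `300 κ H / B + C` on `St 0 y'`; `cf_bound`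
gives `‖Dc L (-n) (i r)‖ ≤ M exp (- 2 π n y)`; let `y → H - a r ^ p`. So
`f η = Dc L (-n) η * exp (2 π n (H - (a / cos (π / B)) η ^ p))` is bounded by `M` on the imaginary
part of the boundary of `Hd r₀` (`cpow_re`: `Re (η ^ p) = r ^ p cos (π/B)`; `η = 0`: `Dc = 0`), and by
`C` on the arc, where `Re (η ^ p) ≥ r₀ ^ p cos (π / B)`, so `H - (a / cos) Re (η ^ p) ≤ b / 2`, and
`Dc_bound`. It is continuous on `Hd r₀` and analytic inside (`η ^ p` is continuous at `0`):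
`half_max`. -/
theorem co_est {b C : ℝ} (hb : 0 < b) (hb1 : b ≤ 1) (hC : 1 ≤ C) :
    ∃ κ C₁ : ℝ, 0 < κ ∧ κ ≤ 1 ∧ 1 ≤ C₁ ∧ ∀ (Y : Sys) (L : ℂ × ℂ → ℂ), Ent Y b C L →
      ∀ (B : ℕ) (H A : ℝ), Maj Y B H A → C₁ * B * H ^ B ≤ A → ∃ M : ℝ, ∀ (n : ℕ) (η : ℂ), 1 ≤ n →
        0 ≤ η.re → ‖η‖ ^ 2 * A ≤ κ * (H - b / 2) ^ B →
        ‖Dc L (-(n:ℤ)) η‖ ≤ M * Real.exp (-(2 * Real.pi * n *
          (H - zA κ A B / Real.cos (Real.pi / B) * (η ^ ((2:ℂ) / B)).re))) := by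
  obtain ⟨κ, C₁, hκ, hκ1, hC₁, hv⟩ := vert hb hb1 hC
  refine ⟨κ, max C₁ (1 / b ^ 2), hκ, hκ1, le_max_of_le_left hC₁,
    fun Y L hE B H A hM hA => ?_⟩
  have hAp := hM.A_pos
  have hB8 : (8:ℝ) ≤ B := by exact_mod_cast hM.B_ge
  have hB0 : 0 < B := lt_of_lt_of_le (by norm_num) hM.B_ge
  have hH8 : 8 ≤ H := hB8.trans hM.H_ge
  have hHB : 0 < H ^ B := pow_pos (by linarith) B
  have hA1 : C₁ * B * H ^ B ≤ A := by
    refine le_trans ?_ hA
    gcongr
    exact le_max_left _ _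
  have hA2 : 1 / b ^ 2 * B * H ^ B ≤ A := by
    refine le_trans ?_ hA
    gcongr
    exact le_max_right _ _
  have hHb : 0 < H - b / 2 := by linarith
  -- the radius
  obtain ⟨r₀, hr₀⟩ : ∃ r₀, r₀ = Real.sqrt (κ * (H - b / 2) ^ B / A) := ⟨_, rfl⟩
  have hq : 0 < κ * (H - b / 2) ^ B / A := by positivity
  have hr₀p : 0 < r₀ := by rw [hr₀]; exact Real.sqrt_pos.2 hq
  have hr₀2 : r₀ ^ 2 = κ * (H - b / 2) ^ B / A := by rw [hr₀]; exact Real.sq_sqrt hq.le
  have hr₀A : r₀ ^ 2 * A = κ * (H - b / 2) ^ B := by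
    rw [hr₀2]
    field_simp
  have hr₀b : r₀ < b / 2 := by
    have e1 : (H - b / 2) ^ B ≤ H ^ B := pow_le_pow_left₀ hHb.le (by linarith) B
    have e2 : r₀ ^ 2 ≤ b ^ 2 / 8 := by
      rw [hr₀2, div_le_iff₀ hAp]
      have e3 : κ * (H - b / 2) ^ B ≤ 1 * H ^ B :=
        mul_le_mul hκ1 e1 (pow_nonneg hHb.le B) zero_le_one
      have e4 : b ^ 2 / 8 * (1 / b ^ 2 * B * H ^ B) ≤ b ^ 2 / 8 * A :=
        mul_le_mul_of_nonneg_left hA2 (by positivity)
      have e5 : b ^ 2 / 8 * (1 / b ^ 2 * B * H ^ B) = B / 8 * H ^ B := by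
        field_simp
      have e6 : 1 * H ^ B ≤ B / 8 * H ^ B := by
        refine mul_le_mul_of_nonneg_right ?_ hHB.le
        linarith
      linarith
    nlinarith
  have hcos : 0 < Real.cos (Real.pi / B) := by
    refine Real.cos_pos_of_mem_Ioo ⟨?_, ?_⟩
    · have : 0 < Real.pi / B := div_pos Real.pi_pos (by linarith)
      linarith [Real.pi_pos]
    · rw [div_lt_div_iff₀ (by linarith) two_pos]
      nlinarith [Real.pi_pos]
  have hz := CoEst_zA (B := B) hκ hAp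
  -- the zone reaches the height `b / 2` at the radius `r₀`
  have hzr₀ : zA κ A B * r₀ ^ ((2:ℝ) / B) = H - b / 2 := by
    have e1 : (zA κ A B * r₀ ^ ((2:ℝ) / B)) ^ B = (H - b / 2) ^ B := by
      rw [CoEst_pow hκ hAp hr₀p.le hB0, hr₀2]
      field_simp
    exact (pow_left_inj₀ (mul_nonneg hz.le (Real.rpow_nonneg hr₀p.le _)) hHb.le hB0.ne').1 e1
  -- the imaginary axis
  have haxis : ∀ r : ℝ, 0 < r → r ≤ r₀ → ∀ n : ℕ, ‖Dc L (-(n:ℤ)) (r * I)‖ ≤
      300 * H * Real.exp (-(2 * Real.pi * n * (H - zA κ A B * r ^ ((2:ℝ) / B)))) := by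
    intro r hr hrr n
    refine CoEst_axis hE hM hκ hκ1 hr (by linarith) ?_ (fun y hy1 hy2 hy3 =>
      hv Y L hE B H A r y hM hA1 hr hy1 hy2 hy3) n
    have e1 : r ^ ((2:ℝ) / B) ≤ r₀ ^ ((2:ℝ) / B) :=
      Real.rpow_le_rpow hr.le hrr (by positivity)
    have e2 : zA κ A B * r ^ ((2:ℝ) / B) ≤ zA κ A B * r₀ ^ ((2:ℝ) / B) :=
      mul_le_mul_of_nonneg_left e1 hz.le
    rw [hzr₀] at e2
    linarith
  refine ⟨max (300 * H) C, fun n η hn hη hηA => ?_⟩
  have hηr : ‖η‖ ≤ r₀ := by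
    have e1 : ‖η‖ ^ 2 * A ≤ r₀ ^ 2 * A := by rw [hr₀A]; exact hηA
    have e2 : ‖η‖ ^ 2 ≤ r₀ ^ 2 := le_of_mul_le_mul_right e1 hAp
    exact le_of_sq_le_sq e2 hr₀p.le
  obtain ⟨w, hw⟩ : ∃ w : ℂ → ℂ, w = fun η : ℂ => ((2 * Real.pi * n : ℝ) : ℂ) *
    ((H : ℂ) - ((zA κ A B / Real.cos (Real.pi / B) : ℝ) : ℂ) * η ^ ((2:ℂ) / B)) := ⟨_, rfl⟩
  have hwre : ∀ η, (w η).re = 2 * Real.pi * n *
      (H - zA κ A B / Real.cos (Real.pi / B) * (η ^ ((2:ℂ) / B)).re) := by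
    intro η
    rw [hw]
    change (((2 * Real.pi * n : ℝ) : ℂ) * ((H : ℂ) -
      ((zA κ A B / Real.cos (Real.pi / B) : ℝ) : ℂ) * η ^ ((2:ℂ) / B))).re = _
    rw [Complex.re_ofReal_mul, Complex.sub_re, Complex.re_ofReal_mul, Complex.ofReal_re]
  have hnf : ∀ η, ‖Dc L (-(n:ℤ)) η * exp (w η)‖ = ‖Dc L (-(n:ℤ)) η‖ * Real.exp (2 * Real.pi * n *
      (H - zA κ A B / Real.cos (Real.pi / B) * (η ^ ((2:ℂ) / B)).re)) := by
    intro η
    rw [norm_mul, Complex.norm_exp, hwre]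
  have hsub : ∀ z ∈ Hd r₀, z ∈ ball (0:ℂ) b := by
    intro z hz
    rw [mem_ball_zero_iff]
    exact hz.1.trans_lt (by linarith)
  have hcw : ∀ z ∈ Hd r₀, ContinuousAt w z := by
    intro z hz
    have e1 := CoEst_cpow hM.B_ge hz.2
    rw [hw]
    fun_prop
  have hcont : ContinuousOn (fun η => Dc L (-(n:ℤ)) η * exp (w η)) (Hd r₀) := by
    intro z hz
    have e1 := (Dc_an hE (-(n:ℤ)) z (hsub z hz)).continuousAt
    have e2 := hcw z hz
    exact (e1.mul e2.cexp).continuousWithinAt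
  have hdiff : DifferentiableOn ℂ (fun η => Dc L (-(n:ℤ)) η * exp (w η))
      {z | ‖z‖ < r₀ ∧ 0 < z.re} := by
    intro z hz
    have e1 := (Dc_an hE (-(n:ℤ)) z (hsub z ⟨hz.1.le, hz.2.le⟩)).differentiableAt
    have e2 : DifferentiableAt ℂ (fun z : ℂ => z ^ ((2:ℂ) / B)) z :=
      differentiableAt_id.cpow (differentiableAt_const _)
        (Complex.mem_slitPlane_iff.2 (Or.inl hz.2))
    have e3 : DifferentiableAt ℂ w z := by
      rw [hw]
      fun_prop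
    exact (e1.mul e3.cexp).differentiableWithinAt
  have hpin : 0 ≤ 2 * Real.pi * n := by positivity
  have harc : ∀ z ∈ Hd r₀, ‖z‖ = r₀ → ‖Dc L (-(n:ℤ)) z * exp (w z)‖ ≤ max (300 * H) C := by
    intro z hz' hzr
    refine le_trans ?_ (le_max_right _ _)
    rw [hnf]
    have hz0 : z ≠ 0 := by
      intro h
      rw [h, norm_zero] at hzr
      exact hr₀p.ne hzr
    obtain ⟨-, c2, -⟩ := cpow_re hM.B_ge hz0 hz'.2
    rw [hzr] at c2
    have e1 : H - b / 2 ≤ zA κ A B / Real.cos (Real.pi / B) * (z ^ ((2:ℂ) / B)).re := by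
      rw [← hzr₀]
      have e2 : zA κ A B / Real.cos (Real.pi / B) * (r₀ ^ ((2:ℝ) / B) * Real.cos (Real.pi / B)) =
          zA κ A B * r₀ ^ ((2:ℝ) / B) := by
        field_simp
      rw [← e2]
      exact mul_le_mul_of_nonneg_left c2 (div_pos hz hcos).le
    have e2 := Dc_bound hE (-(n:ℤ)) (hsub z hz')
    have e3 : |((-(n:ℤ) : ℤ) : ℝ)| = n := by
      push_cast
      rw [abs_neg, Nat.abs_cast]
    rw [e3, hzr] at e2
    have e4 : Real.exp (2 * Real.pi * n *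
        (H - zA κ A B / Real.cos (Real.pi / B) * (z ^ ((2:ℂ) / B)).re)) ≤
        Real.exp (2 * Real.pi * n * (b / 2)) := by
      apply Real.exp_le_exp.2
      apply mul_le_mul_of_nonneg_left _ hpin
      linarith
    have e5 : Real.exp (-(2 * Real.pi * n * b)) * Real.exp (2 * Real.pi * n * (b / 2)) ≤ 1 := by
      rw [← Real.exp_add, Real.exp_le_one_iff]
      nlinarith
    have e6 : r₀ ^ 2 ≤ 1 := by nlinarith
    calc ‖Dc L (-(n:ℤ)) z‖ * Real.exp (2 * Real.pi * n *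
          (H - zA κ A B / Real.cos (Real.pi / B) * (z ^ ((2:ℂ) / B)).re))
        ≤ (C * r₀ ^ 2 * Real.exp (-(2 * Real.pi * n * b))) *
          Real.exp (2 * Real.pi * n * (b / 2)) :=
        mul_le_mul e2 e4 (Real.exp_pos _).le (by positivity)
      _ = C * r₀ ^ 2 * (Real.exp (-(2 * Real.pi * n * b)) *
          Real.exp (2 * Real.pi * n * (b / 2))) := by ring
      _ ≤ C * 1 * 1 := by gcongr
      _ = C := by ring
  have himag : ∀ z ∈ Hd r₀, z.re = 0 → ‖Dc L (-(n:ℤ)) z * exp (w z)‖ ≤ max (300 * H) C := by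
    intro z hz' hzre
    refine le_trans ?_ (le_max_left _ _)
    rw [hnf]
    by_cases hz0 : z = 0
    · subst hz0
      have e2 := Dc_bound hE (-(n:ℤ)) (hsub 0 hz')
      rw [norm_zero] at e2
      have e3 : ‖Dc L (-(n:ℤ)) 0‖ ≤ 0 := by
        refine e2.trans (le_of_eq ?_)
        ring
      have e4 : ‖Dc L (-(n:ℤ)) 0‖ = 0 := le_antisymm e3 (norm_nonneg _)
      rw [e4, zero_mul]
      linarith
    · obtain ⟨-, -, c3⟩ := cpow_re hM.B_ge hz0 hz'.2
      rw [c3 hzre]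
      have e1 : zA κ A B / Real.cos (Real.pi / B) *
          (‖z‖ ^ ((2:ℝ) / B) * Real.cos (Real.pi / B)) = zA κ A B * ‖z‖ ^ ((2:ℝ) / B) := by
        field_simp
      rw [e1]
      have e2 : ‖Dc L (-(n:ℤ)) z‖ = ‖Dc L (-(n:ℤ)) ((‖z‖ : ℝ) * I)‖ := by
        have hzi : z = z.im * I := by
          apply Complex.ext
          · simp [hzre]
          · simp
        have hzn : ‖z‖ = |z.im| := by
          conv_lhs => rw [hzi]
          rw [norm_mul, norm_I, mul_one, Complex.norm_real, Real.norm_eq_abs]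
        rcases le_total 0 z.im with h | h
        · rw [hzn, abs_of_nonneg h, ← hzi]
        · have e3 : ((‖z‖ : ℝ) : ℂ) * I = -z := by
            rw [hzn, abs_of_nonpos h]
            conv_rhs => rw [hzi]
            push_cast
            ring
          rw [e3, Dc_even hE _ (hsub z hz')]
      rw [e2]
      have e3 := haxis ‖z‖ (norm_pos_iff.2 hz0) hz'.1 n
      calc _ ≤ (300 * H * Real.exp (-(2 * Real.pi * n * (H - zA κ A B * ‖z‖ ^ ((2:ℝ) / B))))) *
            Real.exp (2 * Real.pi * n * (H - zA κ A B * ‖z‖ ^ ((2:ℝ) / B))) :=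
          mul_le_mul_of_nonneg_right e3 (Real.exp_pos _).le
        _ = 300 * H := by
          rw [mul_assoc, ← Real.exp_add, neg_add_cancel, Real.exp_zero, mul_one]
  have hmax := half_max hr₀p hcont hdiff harc himag η ⟨hηr, hη⟩
  rw [hnf] at hmax
  rw [Real.exp_neg, ← div_eq_mul_inv, le_div_iff₀ (Real.exp_pos _)]
  exact hmax

end Pool.Agent.MP_ae5b4e_an_NB5
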