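import Pool.Agent.Lib.MP_ae5b4e_an_NB5.Defs

/-!
# MP_ae5b4e_an, project NB_5(A): Fourier series of periodic functions
-/

noncomputable section

namespace Pool.Agent.MP_ae5b4e_an_NB5

open Complex Set Filter Topology Metric
open Pool.Agent.MP_ae5b4e_an_NBT (St)
open Pool.Agent.MP_ae5b4e_an_NB2 (Sys)
open scoped ComplexConjugate

/-- the Fourier coefficients on the real line -/
def cf (g : ℂ → ℂ) (m : ℤ) : ℂ := ∫ x in (0:ℝ)..1, g x * exp (-(2 * Real.pi * I * m * x))

private theorem Four_mem {a₁ a₂ y : ℝ} (h1 : a₁ < y) (h2 : y < a₂) (x : ℝ) :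
    (x : ℂ) + y * I ∈ St a₁ a₂ := by
  have h3 : ((x : ℂ) + y * I).im = y := by simp
  exact ⟨by rw [h3]; exact h1, by rw [h3]; exact h2⟩

private theorem Four_exp_per (m : ℤ) (t : ℂ) :
    exp (-(2 * Real.pi * I * m * (t + 1))) = exp (-(2 * Real.pi * I * m * t)) := by
  have h1 : -(2 * Real.pi * I * m * (t + 1)) =
      -(2 * Real.pi * I * m * t) + ((-m : ℤ) : ℂ) * (2 * Real.pi * I) := by
    push_cast
    ring
  rw [h1, exp_add, exp_int_mul_two_pi_mul_I, mul_one]

/-- The integral over the boundary of the rectangle with the corners `0` and `1 + i y` vanishes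
(`Complex.integral_boundary_rect_eq_zero_of_differentiableOn`), the vertical sides cancel. -/
theorem cf_shift {g : ℂ → ℂ} {a₁ a₂ y : ℝ} (hg : AnalyticOnNhd ℂ g (St a₁ a₂))
    (hper : ∀ t ∈ St a₁ a₂, g (t + 1) = g t) (h1 : a₁ < 0) (h2 : 0 < a₂) (hy1 : a₁ < y)
    (hy2 : y < a₂) (m : ℤ) :
    cf g m = ∫ x in (0:ℝ)..1, g (x + y * I) * exp (-(2 * Real.pi * I * m * (x + y * I))) := by
  have hd : DifferentiableOn ℂ (fun t => g t * exp (-(2 * Real.pi * I * m * t)))
      (Set.uIcc (0 : ℂ).re (1 + y * I : ℂ).re ×ℂ Set.uIcc (0 : ℂ).im (1 + y * I : ℂ).im) := by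
    intro t ht
    have h3 : t.im ∈ Set.uIcc (0 : ℝ) y := by
      have h4 := ht.2
      simpa using h4
    have h5 : t ∈ St a₁ a₂ := by
      rcases Set.mem_uIcc.1 h3 with h6 | h6
      · exact ⟨by linarith [h6.1], by linarith [h6.2]⟩
      · exact ⟨by linarith [h6.1], by linarith [h6.2]⟩
    have h7 : DifferentiableAt ℂ g t := (hg t h5).differentiableAt
    have h8 : DifferentiableAt ℂ (fun t : ℂ => exp (-(2 * Real.pi * I * m * t))) t := by
      fun_prop
    exact (h7.mul h8).differentiableWithinAt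
  have h := Complex.integral_boundary_rect_eq_zero_of_differentiableOn
    (fun t => g t * exp (-(2 * Real.pi * I * m * t))) 0 (1 + y * I) hd
  have hv : ∀ x : ℝ, g (((1 : ℝ) : ℂ) + x * I) *
      exp (-(2 * Real.pi * I * m * (((1 : ℝ) : ℂ) + x * I))) =
      g (((1 : ℝ) : ℂ) + x * I) * exp (-(2 * Real.pi * I * m * (x * I))) := by
    intro x
    have h9 : (((1 : ℝ) : ℂ) + x * I) = x * I + 1 := by
      push_cast
      ring
    rw [h9, Four_exp_per]
  have hvv : ∫ x in (0 : ℝ)..y, g (((1 : ℝ) : ℂ) + x * I) *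
      exp (-(2 * Real.pi * I * m * (((1 : ℝ) : ℂ) + x * I))) =
      ∫ x in (0 : ℝ)..y, g (((0 : ℝ) : ℂ) + x * I) *
      exp (-(2 * Real.pi * I * m * (((0 : ℝ) : ℂ) + x * I))) := by
    refine intervalIntegral.integral_congr fun x hx => ?_
    have h5 : ((0 : ℝ) : ℂ) + x * I ∈ St a₁ a₂ := by
      rcases Set.mem_uIcc.1 hx with h6 | h6
      · exact Four_mem (by linarith [h6.1]) (by linarith [h6.2]) 0
      · exact Four_mem (by linarith [h6.1]) (by linarith [h6.2]) 0
    rw [hv]
    have h10 := hper _ h5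
    have h11 : ((0 : ℝ) : ℂ) + x * I + 1 = ((1 : ℝ) : ℂ) + x * I := by
      push_cast
      ring
    rw [h11] at h10
    rw [h10]
    simp
  have e1 : (0 : ℂ).re = 0 := rfl
  have e2 : (0 : ℂ).im = 0 := rfl
  have e3 : (1 + y * I : ℂ).re = 1 := by simp
  have e4 : (1 + y * I : ℂ).im = y := by simp
  rw [e1, e2, e3, e4, hvv] at h
  have h12 : (∫ x in (0 : ℝ)..1, g (x + ((0 : ℝ) : ℂ) * I) *
      exp (-(2 * Real.pi * I * m * (x + ((0 : ℝ) : ℂ) * I)))) = cf g m := by
    unfold cf
    simp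
  rw [h12] at h
  have h13 := h
  rw [add_sub_cancel_right, sub_eq_zero] at h13
  exact h13

theorem cf_bound {g : ℂ → ℂ} {a₁ a₂ y M : ℝ} (hg : AnalyticOnNhd ℂ g (St a₁ a₂))
    (hper : ∀ t ∈ St a₁ a₂, g (t + 1) = g t) (h1 : a₁ < 0) (h2 : 0 < a₂) (hy1 : a₁ < y)
    (hy2 : y < a₂) (hM : ∀ t : ℂ, t.im = y → ‖g t‖ ≤ M) (m : ℤ) :
    ‖cf g m‖ ≤ M * Real.exp (2 * Real.pi * m * y) := by
  rw [cf_shift hg hper h1 h2 hy1 hy2 m]
  have h3 : ∀ x : ℝ, ‖g (x + y * I) * exp (-(2 * Real.pi * I * m * (x + y * I)))‖ ≤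
      M * Real.exp (2 * Real.pi * m * y) := by
    intro x
    rw [norm_mul, Complex.norm_exp]
    have h4 : (-(2 * Real.pi * I * m * ((x : ℂ) + y * I))).re = 2 * Real.pi * m * y := by
      have h5 : -(2 * Real.pi * I * m * ((x : ℂ) + y * I)) =
          ((2 * Real.pi * m * y : ℝ) : ℂ) + ((-(2 * Real.pi * m * x) : ℝ) : ℂ) * I := by
        push_cast
        linear_combination (-(2 * (Real.pi : ℂ) * m * y)) * I_sq
      rw [h5]
      simp
    rw [h4]
    exact mul_le_mul_of_nonneg_right (hM _ (by simp)) (Real.exp_pos _).le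
  have h6 := intervalIntegral.norm_integral_le_of_norm_le_const (a := (0 : ℝ)) (b := 1)
    (fun x _ => h3 x)
  simpa using h6

private theorem Four_lift {g : ℂ → ℂ} {a₁ a₂ y : ℝ} (hg : AnalyticOnNhd ℂ g (St a₁ a₂))
    (hper : ∀ t ∈ St a₁ a₂, g (t + 1) = g t) (hy1 : a₁ < y) (hy2 : y < a₂) :
    ∃ f : C(AddCircle (1 : ℝ), ℂ), ∀ x : ℝ, f (x : AddCircle (1 : ℝ)) = g (x + y * I) := by
  have hc : Continuous (fun x : ℝ => g (x + y * I)) := by
    rw [continuous_iff_continuousAt]
    intro x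
    have h1 : ContinuousAt g ((x : ℂ) + y * I) := (hg _ (Four_mem hy1 hy2 x)).continuousAt
    have h2 : ContinuousAt (fun x : ℝ => (x : ℂ) + y * I) x := by fun_prop
    exact ContinuousAt.comp (f := fun x : ℝ => (x : ℂ) + y * I) h1 h2
  have hp : Function.Periodic (fun x : ℝ => g (x + y * I)) 1 := by
    intro x
    have h3 := hper _ (Four_mem hy1 hy2 x)
    beta_reduce
    rw [← h3]
    congr 1
    push_cast
    ring
  exact ⟨⟨hp.lift, continuous_coinduced_dom.mpr hc⟩, fun x => hp.lift_coe x⟩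

private theorem Four_bdd {g : ℂ → ℂ} {a₁ a₂ y : ℝ} (hg : AnalyticOnNhd ℂ g (St a₁ a₂))
    (hper : ∀ t ∈ St a₁ a₂, g (t + 1) = g t) (hy1 : a₁ < y) (hy2 : y < a₂) :
    ∃ M : ℝ, ∀ t : ℂ, t.im = y → ‖g t‖ ≤ M := by
  have hT : Fact ((0 : ℝ) < 1) := ⟨one_pos⟩
  obtain ⟨f, hf⟩ := Four_lift hg hper hy1 hy2
  refine ⟨‖f‖, fun t ht => ?_⟩
  have h1 : g t = f (t.re : AddCircle (1 : ℝ)) := by
    rw [hf, ← ht, re_add_im]
  rw [h1]
  exact f.norm_coe_le_norm _

private theorem Four_geo {r : ℝ} (h0 : 0 ≤ r) (h1 : r < 1) :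
    Summable (fun m : ℤ => r ^ m.natAbs) := by
  refine Summable.of_nat_of_neg ?_ ?_
  · simpa using summable_geometric_of_lt_one h0 h1
  · simpa using summable_geometric_of_lt_one h0 h1

/-- On the real line: `hasSum_fourier_series_of_summable` (or the pointwise version) for the
continuous function on the circle `ℝ / ℤ`; the coefficients are summable by `cf_bound` with
`y = ∓ a / 2`, `a` small. On the strip: on every smaller strip `St (-a') a'` the series
converges uniformly (`cf_bound` with `y = ∓ a''`, `a' < a'' < a`), so both sides are analytic and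
agree on the real line. -/
theorem four_sum {g : ℂ → ℂ} {a : ℝ} (ha : 0 < a) (hg : AnalyticOnNhd ℂ g (St (-a) a))
    (hper : ∀ t ∈ St (-a) a, g (t + 1) = g t) {t : ℂ} (ht : t ∈ St (-a) a) :
    HasSum (fun m : ℤ => cf g m * exp (2 * Real.pi * I * m * t)) (g t) := by
  have hT : Fact ((0 : ℝ) < 1) := ⟨one_pos⟩
  obtain ⟨hy1, hy2⟩ := ht
  set y := t.im with hy
  obtain ⟨f, hf⟩ := Four_lift hg hper hy1 hy2
  have hfc : ∀ m : ℤ, fourierCoeff f m = cf g m * exp (-(2 * Real.pi * m * y)) := by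
    intro m
    rw [fourierCoeff_eq_intervalIntegral f m 0, cf_shift hg hper (by linarith) ha hy1 hy2 m,
      ← intervalIntegral.integral_mul_const]
    simp only [div_one, one_smul, zero_add]
    refine intervalIntegral.integral_congr fun x _ => ?_
    rw [fourier_coe_apply, hf, smul_eq_mul, mul_comm, mul_assoc (g (x + y * I)), ← exp_add]
    congr 2
    push_cast
    rw [div_one]
    linear_combination (2 * (Real.pi : ℂ) * m * y) * I_sq
  set δ := min (a - y) (y + a) / 2 with hδ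
  have hδ0 : 0 < δ := by
    have : 0 < min (a - y) (y + a) := lt_min (by linarith) (by linarith)
    positivity
  have hδ1 : δ < a - y := by
    have := min_le_left (a - y) (y + a)
    have h3 : δ < min (a - y) (y + a) := by
      rw [hδ]
      linarith
    linarith
  have hδ2 : δ < y + a := by
    have := min_le_right (a - y) (y + a)
    have h3 : δ < min (a - y) (y + a) := by
      rw [hδ]
      linarith
    linarith
  obtain ⟨M1, hM1⟩ := Four_bdd hg hper (y := y + δ) (by linarith) (by linarith)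
  obtain ⟨M2, hM2⟩ := Four_bdd hg hper (y := y - δ) (by linarith) (by linarith)
  set r := Real.exp (-(2 * Real.pi * δ)) with hr
  have hr0 : 0 < r := Real.exp_pos _
  have hr1 : r < 1 := by
    rw [hr, Real.exp_lt_one_iff]
    have := Real.pi_pos
    have h3 : 0 < 2 * Real.pi * δ := by positivity
    linarith
  have hnorm : ∀ m : ℤ, ‖fourierCoeff f m‖ ≤ (|M1| + |M2|) * r ^ m.natAbs := by
    intro m
    have hexp : ‖exp (-(2 * Real.pi * m * y))‖ = Real.exp (-(2 * Real.pi * m * y)) := by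
      rw [Complex.norm_exp]
      congr 1
      have h5 : -(2 * (Real.pi : ℂ) * m * y) = ((-(2 * Real.pi * m * y) : ℝ) : ℂ) := by
        push_cast
        ring
      rw [h5, ofReal_re]
    rw [hfc, norm_mul, hexp]
    rcases le_total 0 m with hm | hm
    · obtain ⟨n, rfl⟩ := Int.eq_ofNat_of_zero_le hm
      have h6 := cf_bound hg hper (by linarith) ha (y := y - δ) (by linarith) (by linarith) hM2
        (n : ℤ)
      have h7 : Real.exp (2 * Real.pi * ((n : ℤ) : ℝ) * (y - δ)) *
          Real.exp (-(2 * Real.pi * ((n : ℤ) : ℝ) * y)) = r ^ (n : ℤ).natAbs := by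
        rw [hr, ← Real.exp_add, ← Real.exp_nat_mul]
        congr 1
        simp only [Int.natAbs_natCast, Int.cast_natCast]
        ring
      calc ‖cf g (n : ℤ)‖ * Real.exp (-(2 * Real.pi * ((n : ℤ) : ℝ) * y))
          ≤ (M2 * Real.exp (2 * Real.pi * ((n : ℤ) : ℝ) * (y - δ))) *
            Real.exp (-(2 * Real.pi * ((n : ℤ) : ℝ) * y)) :=
            mul_le_mul_of_nonneg_right h6 (Real.exp_pos _).le
        _ = M2 * r ^ (n : ℤ).natAbs := by rw [mul_assoc, h7]
        _ ≤ (|M1| + |M2|) * r ^ (n : ℤ).natAbs := by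
            refine mul_le_mul_of_nonneg_right ?_ (by positivity)
            have := le_abs_self M2
            have := abs_nonneg M1
            linarith
    · obtain ⟨n, hn⟩ := Int.eq_ofNat_of_zero_le (show 0 ≤ -m by omega)
      obtain rfl : m = -(n : ℤ) := by omega
      have h6 := cf_bound hg hper (by linarith) ha (y := y + δ) (by linarith) (by linarith) hM1
        (-(n : ℤ))
      have h7 : Real.exp (2 * Real.pi * ((-(n : ℤ) : ℤ) : ℝ) * (y + δ)) *
          Real.exp (-(2 * Real.pi * ((-(n : ℤ) : ℤ) : ℝ) * y)) = r ^ (-(n : ℤ)).natAbs := by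
        rw [hr, ← Real.exp_add, ← Real.exp_nat_mul]
        congr 1
        simp only [Int.natAbs_neg, Int.natAbs_natCast, Int.cast_neg, Int.cast_natCast]
        ring
      calc ‖cf g (-(n : ℤ))‖ * Real.exp (-(2 * Real.pi * ((-(n : ℤ) : ℤ) : ℝ) * y))
          ≤ (M1 * Real.exp (2 * Real.pi * ((-(n : ℤ) : ℤ) : ℝ) * (y + δ))) *
            Real.exp (-(2 * Real.pi * ((-(n : ℤ) : ℤ) : ℝ) * y)) :=
            mul_le_mul_of_nonneg_right h6 (Real.exp_pos _).le
        _ = M1 * r ^ (-(n : ℤ)).natAbs := by rw [mul_assoc, h7]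
        _ ≤ (|M1| + |M2|) * r ^ (-(n : ℤ)).natAbs := by
            refine mul_le_mul_of_nonneg_right ?_ (by positivity)
            have := le_abs_self M1
            have := abs_nonneg M2
            linarith
  have hsum : Summable (fourierCoeff f) :=
    Summable.of_norm_bounded ((Four_geo hr0.le hr1).mul_left _) hnorm
  have hfin := has_pointwise_sum_fourier_series_of_summable hsum (t.re : AddCircle (1 : ℝ))
  rw [hf, re_add_im] at hfin
  have e : (fun m : ℤ => cf g m * exp (2 * Real.pi * I * m * t)) =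
      fun m : ℤ => fourierCoeff f m • fourier m (t.re : AddCircle (1 : ℝ)) := by
    funext m
    rw [hfc, fourier_coe_apply, smul_eq_mul, mul_assoc (cf g m), ← exp_add]
    congr 2
    have h8 : t = (t.re : ℂ) + (y : ℂ) * I := (re_add_im t).symm
    conv_lhs => rw [h8]
    push_cast
    rw [div_one]
    linear_combination (2 * (Real.pi : ℂ) * m * y) * I_sq
  rw [e]
  exact hfin

end Pool.Agent.MP_ae5b4e_an_NB5
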