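import Pool.Agent.Lib.MP_ae5b4e_an_NB5.CoEst
import Pool.Agent.Lib.SCV.Osgood

/-!
# MP_ae5b4e_an, project NB_5(A): the label in the zone: analyticity
-/

noncomputable section

namespace Pool.Agent.MP_ae5b4e_an_NB5

open Complex Set Filter Topology Metric
open Pool.Agent.MP_ae5b4e_an_NBT (St)
open Pool.Agent.MP_ae5b4e_an_NB2 (Sys)
open scoped ComplexConjugate

/-- the label in the zone -/
def Mz (L : ℂ × ℂ → ℂ) (p : ℂ × ℂ) : ℂ :=
  p.1 + ∑' m : ℤ, Dc L m p.2 * exp (2 * Real.pi * I * m * p.1)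

/-! ### numerical facts -/

private theorem Mz_small {κ b H A x y : ℝ} {B : ℕ} (hb : 0 < b) (hκ1 : κ ≤ 1)
    (hB : 8 ≤ B) (hH : (B:ℝ) ≤ H) (hA : 1 / b ^ 2 * B * H ^ B ≤ A) (hy : 0 < y)
    (hyH : y < H) (h : x ^ 2 * A < κ / 4 * (H - y) ^ B) : x < b / 2 := by
  have hB' : (8:ℝ) ≤ B := by exact_mod_cast hB
  have hH0 : 0 < H := by linarith
  have hHB : 0 < H ^ B := pow_pos hH0 B
  have hb2 : 0 < b ^ 2 := pow_pos hb 2
  have h1 : (H - y) ^ B ≤ H ^ B := pow_le_pow_left₀ (by linarith) (by linarith) B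
  have hHy : 0 ≤ (H - y) ^ B := pow_nonneg (by linarith) B
  have h2 : 1 / b ^ 2 * 8 * H ^ B ≤ A := by
    refine le_trans ?_ hA
    gcongr
  have h3 : x ^ 2 * (1 / b ^ 2 * 8 * H ^ B) < 1 / 4 * H ^ B := by
    calc x ^ 2 * (1 / b ^ 2 * 8 * H ^ B) ≤ x ^ 2 * A := by gcongr
      _ < κ / 4 * (H - y) ^ B := h
      _ ≤ 1 / 4 * (H - y) ^ B := by gcongr
      _ ≤ 1 / 4 * H ^ B := by gcongr
  have h4 : x ^ 2 * (1 / b ^ 2 * 8) < 1 / 4 := by
    refine lt_of_mul_lt_mul_right ?_ hHB.le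
    calc x ^ 2 * (1 / b ^ 2 * 8) * H ^ B = x ^ 2 * (1 / b ^ 2 * 8 * H ^ B) := by ring
      _ < 1 / 4 * H ^ B := h3
  have h5 : x ^ 2 < (b / 2) ^ 2 := by
    have h6 : x ^ 2 * 8 < 1 / 4 * b ^ 2 := by
      have h7 := mul_lt_mul_of_pos_right h4 hb2
      have h8 : x ^ 2 * (1 / b ^ 2 * 8) * b ^ 2 = x ^ 2 * 8 := by
        field_simp
      linarith
    nlinarith
  exact lt_of_pow_lt_pow_left₀ 2 (by linarith) h5

private theorem Mz_half {b H : ℝ} {B : ℕ} (hb1 : b ≤ 1) (hB : 8 ≤ B)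
    (hH : (B:ℝ) ≤ H) : H ^ B / 2 ≤ (H - b / 2) ^ B := by
  have hB' : (8:ℝ) ≤ B := by exact_mod_cast hB
  have hH0 : 0 < H := by linarith
  have h1 : 1 + (B:ℝ) * (-(b / (2 * H))) ≤ (1 + -(b / (2 * H))) ^ B := by
    refine one_add_mul_le_pow ?_ B
    have h2 : b / (2 * H) ≤ 1 := by
      rw [div_le_one (by positivity)]
      linarith
    linarith
  have h3 : (B:ℝ) * (b / (2 * H)) ≤ 1 / 2 := by
    rw [mul_div_assoc', div_le_iff₀ (by positivity)]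
    nlinarith
  have h4 : (H - b / 2) ^ B = H ^ B * (1 + -(b / (2 * H))) ^ B := by
    rw [← mul_pow]
    congr 1
    field_simp
    ring
  rw [h4, div_eq_mul_inv]
  refine mul_le_mul_of_nonneg_left ?_ (pow_nonneg hH0.le B)
  norm_num at h1 h3 ⊢
  linarith

private theorem Mz_F2 {κ b H A x y : ℝ} {B : ℕ} (hb1 : b ≤ 1) (hκ : 0 < κ)
    (hB : 8 ≤ B) (hH : (B:ℝ) ≤ H) (hy : 0 < y) (hyH : y < H)
    (h : x ^ 2 * A < κ / 4 * (H - y) ^ B) : x ^ 2 * A ≤ κ * (H - b / 2) ^ B := by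
  have hB' : (8:ℝ) ≤ B := by exact_mod_cast hB
  have hH0 : 0 < H := by linarith
  have h1 : (H - y) ^ B ≤ H ^ B := pow_le_pow_left₀ (by linarith) (by linarith) B
  have h2 := Mz_half hb1 hB hH
  have h3 : 0 ≤ H ^ B := pow_nonneg hH0.le B
  calc x ^ 2 * A ≤ κ / 4 * (H - y) ^ B := h.le
    _ ≤ κ / 4 * H ^ B := by gcongr
    _ ≤ κ * (H ^ B / 2) := by nlinarith
    _ ≤ κ * (H - b / 2) ^ B := by gcongr

private theorem Mz_cos {B : ℕ} (hB : 8 ≤ B) : 0 < Real.cos (Real.pi / B) := by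
  have hB' : (8:ℝ) ≤ B := by exact_mod_cast hB
  refine Real.cos_pos_of_mem_Ioo ⟨?_, ?_⟩
  · have := Real.pi_pos
    have h1 : 0 ≤ Real.pi / B := by positivity
    linarith
  · have := Real.pi_pos
    rw [div_lt_div_iff₀ (by linarith) (by norm_num)]
    nlinarith

/-- the distance to the boundary -/
private def Mzd (κ H A : ℝ) (B : ℕ) (p : ℂ × ℂ) : ℝ :=
  H - p.1.im - zA κ A B / Real.cos (Real.pi / B) * ‖p.2‖ ^ ((2:ℝ) / B)

private theorem Mzd_cont {κ H A : ℝ} {B : ℕ} : Continuous (Mzd κ H A B) := by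
  unfold Mzd
  have h1 : Continuous fun p : ℂ × ℂ => ‖p.2‖ ^ ((2:ℝ) / B) :=
    (continuous_norm.comp continuous_snd).rpow_const fun _ => Or.inr (by positivity)
  exact (continuous_const.sub (continuous_im.comp continuous_fst)).sub (continuous_const.mul h1)

private theorem Mzd_pos {κ H A : ℝ} {B : ℕ} (hκ : 0 < κ) (hB : 8 ≤ B) (hA : 0 < A) {p : ℂ × ℂ}
    (hp : p ∈ Zn (κ / 4) B H A) : 0 < Mzd κ H A B p := by
  obtain ⟨h1, h2, h3⟩ := hp
  have hB0 : B ≠ 0 := by omega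
  have hB' : (0:ℝ) < B := by exact_mod_cast (by omega : 0 < B)
  have hcos := Mz_cos hB
  have hcp := cos_pow hB
  unfold Mzd
  rw [sub_pos]
  have hz : 0 ≤ zA κ A B := by
    unfold zA
    positivity
  have hzB : zA κ A B ^ B = A / κ := by
    unfold zA
    rw [one_div]
    exact Real.rpow_inv_natCast_pow (by positivity) hB0
  have hxB : (‖p.2‖ ^ ((2:ℝ) / B)) ^ B = ‖p.2‖ ^ 2 := by
    rw [← Real.rpow_natCast, ← Real.rpow_mul (norm_nonneg _), div_mul_cancel₀ _ hB'.ne']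
    exact Real.rpow_natCast _ 2
  refine lt_of_pow_lt_pow_left₀ B (by linarith) ?_
  rw [mul_pow, div_pow, hzB, hxB]
  have hd : 0 < (H - p.1.im) ^ B := pow_pos (by linarith) B
  calc A / κ / Real.cos (Real.pi / B) ^ B * ‖p.2‖ ^ 2
      ≤ A / κ / (1 / 2) * ‖p.2‖ ^ 2 := by gcongr
    _ = 2 / κ * (‖p.2‖ ^ 2 * A) := by field_simp
    _ < 2 / κ * (κ / 4 * (H - p.1.im) ^ B) := by
        refine mul_lt_mul_of_pos_left h3 (by positivity)
    _ = 1 / 2 * (H - p.1.im) ^ B := by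
        field_simp
        norm_num
    _ ≤ (H - p.1.im) ^ B := by linarith

private theorem Mz_open {κ H A : ℝ} {B : ℕ} : IsOpen (Zn κ B H A) := by
  have h1 : Continuous fun p : ℂ × ℂ => p.1.im := continuous_im.comp continuous_fst
  have h2 : Continuous fun p : ℂ × ℂ => ‖p.2‖ ^ 2 * A :=
    ((continuous_norm.comp continuous_snd).pow 2).mul continuous_const
  have h3 : Continuous fun p : ℂ × ℂ => κ * (H - p.1.im) ^ B :=
    continuous_const.mul ((continuous_const.sub h1).pow B)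
  exact (isOpen_lt continuous_const h1).inter
    ((isOpen_lt h1 continuous_const).inter (isOpen_lt h2 h3))

private theorem Mz_summable {δ : ℝ} (hδ : 0 < δ) (K : ℝ) :
    Summable fun m : ℤ => K * Real.exp (-(2 * Real.pi * |(m:ℝ)| * δ)) := by
  have h1 : Summable fun n : ℕ => K * Real.exp (-(2 * Real.pi * |(n:ℝ)| * δ)) := by
    refine Summable.mul_left K ?_
    have h2 : ∀ n : ℕ, Real.exp (-(2 * Real.pi * |(n:ℝ)| * δ)) =
        (Real.exp (-(2 * Real.pi * δ))) ^ n := by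
      intro n
      rw [← Real.exp_nat_mul, abs_of_nonneg (Nat.cast_nonneg n)]
      congr 1
      ring
    simp only [h2]
    refine summable_geometric_of_lt_one (Real.exp_pos _).le ?_
    rw [Real.exp_lt_one_iff]
    have := Real.pi_pos
    have : 0 < 2 * Real.pi * δ := by positivity
    linarith
  refine Summable.of_nat_of_neg ?_ ?_
  · simpa using h1
  · simpa using h1

/-- the bound for the coefficients with negative index -/
private theorem Mz_neg {b C κ H A M : ℝ} {B : ℕ} {Y : Sys} {L : ℂ × ℂ → ℂ} (hE : Ent Y b C L)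
    (hB : 8 ≤ B) (hκ : 0 < κ) (hA : 0 < A)
    (hM : ∀ (n : ℕ) (η : ℂ), 1 ≤ n →
        0 ≤ η.re → ‖η‖ ^ 2 * A ≤ κ * (H - b / 2) ^ B →
        ‖Dc L (-(n:ℤ)) η‖ ≤ M * Real.exp (-(2 * Real.pi * n *
          (H - zA κ A B / Real.cos (Real.pi / B) * (η ^ ((2:ℂ) / B)).re))))
    {η : ℂ} (hη : η ∈ ball (0:ℂ) b) (hη2 : ‖η‖ ^ 2 * A ≤ κ * (H - b / 2) ^ B) (n : ℕ)
    (hn : 1 ≤ n) : ‖Dc L (-(n:ℤ)) η‖ ≤ |M| * Real.exp (-(2 * Real.pi * n *
          (H - zA κ A B / Real.cos (Real.pi / B) * ‖η‖ ^ ((2:ℝ) / B)))) := by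
  have key : ∀ η : ℂ, 0 ≤ η.re → ‖η‖ ^ 2 * A ≤ κ * (H - b / 2) ^ B →
      ‖Dc L (-(n:ℤ)) η‖ ≤ |M| * Real.exp (-(2 * Real.pi * n *
          (H - zA κ A B / Real.cos (Real.pi / B) * ‖η‖ ^ ((2:ℝ) / B)))) := by
    intro η h1 h2
    have hcos := Mz_cos hB
    have hB' : (0:ℝ) < B := by exact_mod_cast (by omega : 0 < B)
    have hz : 0 ≤ zA κ A B := by
      unfold zA
      positivity
    have hre : (η ^ ((2:ℂ) / B)).re ≤ ‖η‖ ^ ((2:ℝ) / B) := by
      by_cases h0 : η = 0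
      · subst h0
        have h3 : ((2:ℂ) / B) ≠ 0 := by
          refine div_ne_zero two_ne_zero ?_
          exact_mod_cast (by omega : B ≠ 0)
        rw [zero_cpow h3, norm_zero, zero_re]
        exact Real.rpow_nonneg le_rfl _
      · rw [← (cpow_re hB h0 h1).1]
        exact re_le_norm _
    refine (hM n η hn h1 h2).trans ?_
    refine mul_le_mul (le_abs_self M) ?_ (Real.exp_pos _).le (abs_nonneg M)
    refine Real.exp_le_exp.2 ?_
    have h4 : zA κ A B / Real.cos (Real.pi / B) * (η ^ ((2:ℂ) / B)).re ≤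
        zA κ A B / Real.cos (Real.pi / B) * ‖η‖ ^ ((2:ℝ) / B) :=
      mul_le_mul_of_nonneg_left hre (div_nonneg hz hcos.le)
    have h5 : 0 ≤ 2 * Real.pi * n := by positivity
    have h6 := mul_le_mul_of_nonneg_left h4 h5
    linarith
  by_cases h1 : 0 ≤ η.re
  · exact key η h1 hη2
  · have h2 := key (-η) (by rw [neg_re]; linarith [not_le.1 h1]) (by rw [norm_neg]; exact hη2)
    rw [Dc_even hE _ hη, norm_neg] at h2
    exact h2

/-- analyticity of the sum -/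
private theorem Mz_an {b C κ H A M : ℝ} {B : ℕ} {Y : Sys} {L : ℂ × ℂ → ℂ} (hE : Ent Y b C L)
    (hB : 8 ≤ B) (hκ : 0 < κ) (hA : 0 < A)
    (hz : ∀ p ∈ Zn (κ / 4) B H A, ‖p.2‖ < b ∧ ‖p.2‖ ^ 2 * A ≤ κ * (H - b / 2) ^ B)
    (hM : ∀ (n : ℕ) (η : ℂ), 1 ≤ n →
        0 ≤ η.re → ‖η‖ ^ 2 * A ≤ κ * (H - b / 2) ^ B →
        ‖Dc L (-(n:ℤ)) η‖ ≤ M * Real.exp (-(2 * Real.pi * n *
          (H - zA κ A B / Real.cos (Real.pi / B) * (η ^ ((2:ℂ) / B)).re)))) :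
    AnalyticOnNhd ℂ (Mz L) (Zn (κ / 4) B H A) := by
  intro p₀ hp₀
  have hd₀ := Mzd_pos hκ hB hA hp₀
  set δ : ℝ := min (Mzd κ H A B p₀ / 2) b with hδ
  have hδ0 : 0 < δ := lt_min (by linarith) hE.b_pos
  set V : Set (ℂ × ℂ) := Zn (κ / 4) B H A ∩ {p | Mzd κ H A B p₀ / 2 < Mzd κ H A B p} with hV
  have hVo : IsOpen V := Mz_open.inter (isOpen_lt continuous_const Mzd_cont)
  have hpV : p₀ ∈ V := ⟨hp₀, by change Mzd κ H A B p₀ / 2 < Mzd κ H A B p₀; linarith⟩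
  set f : ℤ → ℂ × ℂ → ℂ := fun m p => Dc L m p.2 * exp (2 * Real.pi * I * m * p.1) with hf
  have hexp : ∀ (m : ℤ) (t : ℂ), ‖exp (2 * Real.pi * I * m * t)‖ =
      Real.exp (-(2 * Real.pi * m * t.im)) := by
    intro m t
    rw [norm_exp]
    congr 1
    have h1 : 2 * Real.pi * I * m * t = ((2 * Real.pi * m : ℝ) : ℂ) * (I * t) := by
      push_cast
      ring
    rw [h1, re_ofReal_mul]
    simp
  have hbd : ∀ m : ℤ, ∀ p ∈ V, ‖f m p‖ ≤
      (C + |M|) * Real.exp (-(2 * Real.pi * |(m:ℝ)| * δ)) := by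
    intro m p hp
    obtain ⟨hpZ, hpd⟩ := hp
    obtain ⟨h1, h2⟩ := hz p hpZ
    have hpb : p.2 ∈ ball (0:ℂ) b := by
      rw [mem_ball_zero_iff]
      exact h1
    have hC0 : 0 ≤ C := by linarith [hE.C_one]
    have hπ := Real.pi_pos
    rw [hf]
    beta_reduce
    rw [norm_mul, hexp]
    rcases le_or_gt 0 m with hm | hm
    · have hm' : (0:ℝ) ≤ m := by exact_mod_cast hm
      have h3 := Dc_bound hE m hpb
      have h4 : ‖p.2‖ ^ 2 ≤ 1 := by
        have h5 : ‖p.2‖ ≤ 1 := h1.le.trans hE.b_le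
        exact pow_le_one₀ (norm_nonneg _) h5
      have h6 : Real.exp (-(2 * Real.pi * m * p.1.im)) ≤ 1 := by
        rw [Real.exp_le_one_iff]
        have h7 : 0 ≤ 2 * Real.pi * m * p.1.im := by
          have := hpZ.1.le
          positivity
        linarith
      calc ‖Dc L m p.2‖ * Real.exp (-(2 * Real.pi * m * p.1.im))
          ≤ (C * ‖p.2‖ ^ 2 * Real.exp (-(2 * Real.pi * |(m:ℝ)| * b))) * 1 := by
            gcongr
        _ ≤ (C * 1 * Real.exp (-(2 * Real.pi * |(m:ℝ)| * δ))) * 1 := by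
            have h8 : δ ≤ b := min_le_right _ _
            gcongr
        _ ≤ (C + |M|) * Real.exp (-(2 * Real.pi * |(m:ℝ)| * δ)) := by
            rw [mul_one, mul_one]
            gcongr
            linarith [abs_nonneg M]
    · obtain ⟨n, hn⟩ : ∃ n : ℕ, m = -(n:ℤ) := ⟨m.natAbs, by omega⟩
      have hn1 : 1 ≤ n := by omega
      subst hn
      have h3 := Mz_neg hE hB hκ hA hM hpb h2 n hn1
      have h4 : |((-(n:ℤ) : ℤ) : ℝ)| = n := by
        push_cast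
        rw [abs_neg, abs_of_nonneg (Nat.cast_nonneg n)]
      rw [h4]
      have h5 : δ ≤ Mzd κ H A B p := (min_le_left _ _).trans (le_of_lt hpd)
      calc ‖Dc L (-(n:ℤ)) p.2‖ * Real.exp (-(2 * Real.pi * ((-(n:ℤ) : ℤ) : ℝ) * p.1.im))
          ≤ (|M| * Real.exp (-(2 * Real.pi * n *
            (H - zA κ A B / Real.cos (Real.pi / B) * ‖p.2‖ ^ ((2:ℝ) / B))))) *
              Real.exp (-(2 * Real.pi * ((-(n:ℤ) : ℤ) : ℝ) * p.1.im)) := by
            gcongr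
        _ = |M| * Real.exp (-(2 * Real.pi * n * Mzd κ H A B p)) := by
            rw [mul_assoc, ← Real.exp_add]
            congr 2
            unfold Mzd
            push_cast
            ring
        _ ≤ (C + |M|) * Real.exp (-(2 * Real.pi * n * δ)) := by
            gcongr
            linarith
  have hunif : TendstoLocallyUniformlyOn (fun s : Finset ℤ => fun p => ∑ m ∈ s, f m p)
      (fun p => ∑' m, f m p) atTop V :=
    (tendstoUniformlyOn_tsum (Mz_summable hδ0 (C + |M|)) hbd).tendstoLocallyUniformlyOn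
  have hfa : ∀ m : ℤ, AnalyticOnNhd ℂ (f m) V := by
    intro m p hp
    obtain ⟨h1, h2⟩ := hz p hp.1
    have hpb : p.2 ∈ ball (0:ℂ) b := by
      rw [mem_ball_zero_iff]
      exact h1
    have h3 : AnalyticAt ℂ (fun p : ℂ × ℂ => Dc L m p.2) p :=
      AnalyticAt.fun_comp (Dc_an hE m p.2 hpb) analyticAt_snd
    have h4 : AnalyticAt ℂ (fun p : ℂ × ℂ => exp (2 * Real.pi * I * m * p.1)) p :=
      (analyticAt_const.mul analyticAt_fst).cexp
    exact h3.mul h4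
  have hsum := Pool.Agent.SCV.analyticOnNhd_of_tendstoLocallyUniformlyOn V hVo
    (fun s : Finset ℤ => fun p => ∑ m ∈ s, f m p) (fun p => ∑' m, f m p)
    (fun s => Finset.analyticOnNhd_fun_sum s fun m _ => hfa m) hunif
  have h1 : AnalyticAt ℂ (fun p : ℂ × ℂ => p.1 + ∑' m, f m p) p₀ :=
    analyticAt_fst.add (hsum p₀ hpV)
  exact h1

/-! ### the node relation -/

/-- the node function -/
private def MzN (Y : Sys) (M : ℂ × ℂ → ℂ) (p : ℂ × ℂ) : ℂ :=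
  Y.c (M (p.1 + p.2, p.2)) (M p) * Y.s (M (p.1 - p.2, p.2)) (M p) +
    Y.c (M (p.1 - p.2, p.2)) (M p) * Y.s (M (p.1 + p.2, p.2)) (M p)

private def MzS (κ H A : ℝ) (B : ℕ) : Set (ℂ × ℂ) :=
  {p | p ∈ Zn κ B H A ∧ (p.1 + p.2, p.2) ∈ Zn κ B H A ∧ (p.1 - p.2, p.2) ∈ Zn κ B H A}

private theorem MzS_open {κ H A : ℝ} {B : ℕ} : IsOpen (MzS κ H A B) := by
  have h1 : Continuous fun p : ℂ × ℂ => (p.1 + p.2, p.2) := by fun_prop
  have h2 : Continuous fun p : ℂ × ℂ => (p.1 - p.2, p.2) := by fun_prop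
  exact Mz_open.inter ((Mz_open.preimage h1).inter (Mz_open.preimage h2))

private theorem Mz_seg {κ H c x : ℝ} {B : ℕ} {t w : ℂ} (hκ : 0 < κ) (h1 : 0 < t.im)
    (h2 : t.im < H) (h3 : c < κ * (H - t.im) ^ B) (h1' : 0 < (t + w).im)
    (h2' : (t + w).im < H) (h3' : c < κ * (H - (t + w).im) ^ B) (hx0 : 0 ≤ x) (hx1 : x ≤ 1) :
    0 < (t + x * w).im ∧ (t + x * w).im < H ∧ c < κ * (H - (t + x * w).im) ^ B := by
  have e : (t + x * w).im = (1 - x) * t.im + x * (t + w).im := by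
    simp only [add_im, im_ofReal_mul]
    ring
  rw [e]
  set a := t.im
  set b := (t + w).im
  refine ⟨?_, ?_, ?_⟩
  · rcases hx0.eq_or_lt with h | h
    · rw [← h]
      linarith
    · have := mul_pos h h1'
      have := mul_nonneg (sub_nonneg.2 hx1) h1.le
      linarith
  · rcases hx0.eq_or_lt with h | h
    · rw [← h]
      linarith
    · have := mul_pos h (sub_pos.2 h2')
      have := mul_nonneg (sub_nonneg.2 hx1) (sub_pos.2 h2).le
      nlinarith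
  · rcases le_total a b with h | h
    · refine h3'.trans_le ?_
      have h4 : H - b ≤ H - ((1 - x) * a + x * b) := by
        have := mul_nonneg (sub_nonneg.2 hx1) (sub_nonneg.2 h)
        nlinarith
      have h5 : 0 ≤ H - b := by linarith
      gcongr
    · refine h3.trans_le ?_
      have h4 : H - a ≤ H - ((1 - x) * a + x * b) := by
        have := mul_nonneg hx0 (sub_nonneg.2 h)
        nlinarith
      have h5 : 0 ≤ H - a := by linarith
      gcongr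

private theorem Mz_sq {A x : ℝ} {η : ℂ} (hA : 0 ≤ A) (hx0 : 0 ≤ x) (hx1 : x ≤ 1) :
    ‖(x:ℂ) * η‖ ^ 2 * A ≤ ‖η‖ ^ 2 * A := by
  rw [norm_mul, Complex.norm_of_nonneg hx0, mul_pow]
  have h1 : x ^ 2 ≤ 1 := pow_le_one₀ hx0 hx1
  have h2 : x ^ 2 * ‖η‖ ^ 2 ≤ 1 * ‖η‖ ^ 2 := mul_le_mul_of_nonneg_right h1 (by positivity)
  rw [one_mul] at h2
  exact mul_le_mul_of_nonneg_right h2 hA

private theorem MzS_seg {κ H A x : ℝ} {B : ℕ} (hκ : 0 < κ) (hA : 0 ≤ A) {t η : ℂ}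
    (h : (t, η) ∈ MzS κ H A B) (hx0 : 0 ≤ x) (hx1 : x ≤ 1) : (t, (x:ℂ) * η) ∈ MzS κ H A B := by
  obtain ⟨⟨a1, a2, a3⟩, ⟨b1, b2, b3⟩, ⟨c1, c2, c3⟩⟩ := h
  have hsq := Mz_sq (η := η) hA hx0 hx1
  obtain ⟨d1, d2, d3⟩ := Mz_seg hκ a1 a2 a3 b1 b2 b3 hx0 hx1
  have e : t - η = t + -η := sub_eq_add_neg t η
  simp only [e] at c1 c2 c3
  obtain ⟨e1, e2, e3⟩ := Mz_seg hκ a1 a2 a3 c1 c2 c3 hx0 hx1
  have e' : t + (x:ℂ) * -η = t - (x:ℂ) * η := by ring
  rw [e'] at e1 e2 e3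
  exact ⟨⟨a1, a2, hsq.trans_lt a3⟩, ⟨d1, d2, hsq.trans_lt d3⟩, ⟨e1, e2, hsq.trans_lt e3⟩⟩

private theorem MzS_zero {κ H A : ℝ} {B : ℕ} (hκ : 0 < κ) {t : ℂ} (h : t ∈ St 0 H) :
    (t, (0:ℂ)) ∈ MzS κ H A B := by
  have h1 : (t, (0:ℂ)) ∈ Zn κ B H A := by
    refine ⟨h.1, h.2, ?_⟩
    change ‖(0:ℂ)‖ ^ 2 * A < κ * (H - t.im) ^ B
    have h2 : 0 < H - t.im := sub_pos.2 h.2
    rw [norm_zero]
    have h3 : 0 < κ * (H - t.im) ^ B := by positivity
    linarith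
  refine ⟨h1, ?_, ?_⟩
  · change (t + 0, (0:ℂ)) ∈ _
    rwa [add_zero]
  · change (t - 0, (0:ℂ)) ∈ _
    rwa [sub_zero]

private theorem MzS_pre {κ H A : ℝ} {B : ℕ} (hκ : 0 < κ) (hA : 0 ≤ A) (hH : 0 < H) :
    IsPreconnected (MzS κ H A B) := by
  have hbase : ((H / 2 : ℝ) * I : ℂ) ∈ St 0 H := by
    refine ⟨?_, ?_⟩ <;> simp <;> linarith
  refine isPreconnected_of_forall (((H / 2 : ℝ) * I : ℂ), (0:ℂ)) ?_
  rintro ⟨t, η⟩ hp
  refine ⟨(fun z : ℂ => (z, (0:ℂ))) '' St 0 H ∪ (fun x : ℝ => (t, (x:ℂ) * η)) '' Icc 0 1,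
    ?_, ?_, ?_, ?_⟩
  · rintro q (⟨z, hz, rfl⟩ | ⟨x, hx, rfl⟩)
    · exact MzS_zero hκ hz
    · exact MzS_seg hκ hA hp hx.1 hx.2
  · exact Or.inl ⟨_, hbase, rfl⟩
  · refine Or.inr ⟨1, ⟨zero_le_one, le_rfl⟩, ?_⟩
    simp
  · refine IsPreconnected.union (t, (0:ℂ)) ⟨t, ⟨hp.1.1, hp.1.2.1⟩, rfl⟩
      ⟨0, ⟨le_rfl, zero_le_one⟩, by simp⟩ ?_ ?_
    · have h1 : Convex ℝ (St 0 H) := Pool.Agent.MP_ae5b4e_an_NBT.convex_St 0 H
      exact h1.isPreconnected.image _ (by fun_prop)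
    · exact isPreconnected_Icc.image _ (by fun_prop)

private theorem MzN_an {κ H A : ℝ} {B : ℕ} {Y : Sys} {M : ℂ × ℂ → ℂ} (hY : Y.On univ)
    (hM : AnalyticOnNhd ℂ M (Zn κ B H A)) : AnalyticOnNhd ℂ (MzN Y M) (MzS κ H A B) := by
  rintro p ⟨h1, h2, h3⟩
  have e1 : AnalyticAt ℂ M p := hM p h1
  have e2 : AnalyticAt ℂ (fun p : ℂ × ℂ => M (p.1 + p.2, p.2)) p := by
    have h4 : AnalyticAt ℂ (fun p : ℂ × ℂ => (p.1 + p.2, p.2)) p :=
      (analyticAt_fst.add analyticAt_snd).prod analyticAt_snd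
    exact AnalyticAt.fun_comp (hM _ h2) h4
  have e3 : AnalyticAt ℂ (fun p : ℂ × ℂ => M (p.1 - p.2, p.2)) p := by
    have h4 : AnalyticAt ℂ (fun p : ℂ × ℂ => (p.1 - p.2, p.2)) p :=
      (analyticAt_fst.sub analyticAt_snd).prod analyticAt_snd
    exact AnalyticAt.fun_comp (hM _ h3) h4
  exact ((Sys.an_c hY isOpen_univ e2 e1 trivial trivial).mul
    (Sys.an_s hY isOpen_univ e3 e1 trivial trivial)).add
    ((Sys.an_c hY isOpen_univ e3 e1 trivial trivial).mul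
    (Sys.an_s hY isOpen_univ e2 e1 trivial trivial))

/-- **Analytic continuation to the zone.** Take `κ₀ = κ / 4` with `κ` of `co_est`. Let
`p = (t, η) ∈ Zn κ₀ B H A`, `0 ≤ Re η` (otherwise `-η`, `Dc_even`). Then `‖η‖² A < κ₀ H ^ B ≤
κ (H - b/2) ^ B` (Bernoulli: `(1 - b/(2H)) ^ B ≥ 1/2`), and `(a / cos (π/B)) Re (η ^ p) ≤
(a / cos (π / B)) ‖η‖ ^ p < H - Im t` because `(a / cos (π/B)) ^ B ‖η‖² = (A / κ) cos ^ (-B) ‖η‖² ≤
2 (A / κ) ‖η‖² < (H - Im t) ^ B` (`cos_pow`). So the terms with `m = - n` are bounded by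
`M exp (- 2 π n d)`, `d > 0`, locally uniformly in the zone (`d` depends continuously on `(t, η)`),
those with `m ≥ 0` by `C ‖η‖² exp (- 2 π m (b + Im t))` (`Dc_bound`): the series converges locally
uniformly and `Mz` is analytic in both variables (`AnalyticOnNhd` of a locally uniform limit: show
differentiability in the open set of `ℂ × ℂ` by `differentiableOn_tsum_of_summable_norm` and use
`DifferentiableOn.analyticOnNhd`-type results for several variables, or Osgood as in the other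
folders). `base`: `Dc_sum`; points of the zone lie in `ball 0 (b/2)` in the second variable.
`zero`: `Dc L m 0 = 0` by `Dc_bound`. `even`: `Dc_even`. `node`: the set `S` of `(t, η)` with
`(t, η), (t ± η, η) ∈ Zn` is open and connected (if `(t, η) ∈ S` then `(t, x η) ∈ S` for
`0 ≤ x ≤ 1`, because `Im (t ± x η) ≤ max Im (t ± η)` and `Im (t ± x η) ≥ min Im (t ± η)`;
and `{(t, 0)}`, `0 < Im t < H`, is connected); the node function of `Mz` is analytic on `S` and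
vanishes near `(t, 0)` for `Im t < b / 2`. -/
theorem zone_an {b C : ℝ} (hb : 0 < b) (hb1 : b ≤ 1) (hC : 1 ≤ C) :
    ∃ κ C₁ : ℝ, 0 < κ ∧ κ ≤ 1 ∧ 1 ≤ C₁ ∧ ∀ (Y : Sys) (L : ℂ × ℂ → ℂ), Ent Y b C L →
      ∀ (B : ℕ) (H A : ℝ), Maj Y B H A → C₁ * B * H ^ B ≤ A →
        AnalyticOnNhd ℂ (Mz L) (Zn κ B H A) ∧
        (∀ p ∈ Zn κ B H A, p.1.im < b / 2 → p ∈ Bs b ∧ Mz L p = L p) ∧
        (∀ t : ℂ, Mz L (t, 0) = t) ∧
        (∀ p ∈ Zn κ B H A, Mz L (p.1, -p.2) = Mz L p) ∧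
        ∀ t η : ℂ, (t, η) ∈ Zn κ B H A → (t + η, η) ∈ Zn κ B H A → (t - η, η) ∈ Zn κ B H A →
          Y.node (Mz L (t, η)) (Mz L (t + η, η)) (Mz L (t - η, η)) := by
  obtain ⟨κ, C₁, hκ, hκ1, hC₁, hco⟩ := co_est hb hb1 hC
  refine ⟨κ / 4, max C₁ (1 / b ^ 2), by positivity, by linarith, hC₁.trans (le_max_left _ _),
    fun Y L hE B H A hMaj hA => ?_⟩
  have hB := hMaj.B_ge
  have hH := hMaj.H_ge
  have hA0 := hMaj.A_pos
  have hB' : (8:ℝ) ≤ B := by exact_mod_cast hB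
  have hH0 : 0 < H := by linarith
  have hA1 : C₁ * B * H ^ B ≤ A := by
    refine le_trans ?_ hA
    have := le_max_left C₁ (1 / b ^ 2)
    gcongr
  have hA2 : 1 / b ^ 2 * B * H ^ B ≤ A := by
    refine le_trans ?_ hA
    have := le_max_right C₁ (1 / b ^ 2)
    gcongr
  obtain ⟨M, hM⟩ := hco Y L hE B H A hMaj hA1
  have hsm : ∀ p ∈ Zn (κ / 4) B H A, ‖p.2‖ < b / 2 := fun p hp =>
    Mz_small hb hκ1 hB hH hA2 hp.1 hp.2.1 hp.2.2
  have hz : ∀ p ∈ Zn (κ / 4) B H A, ‖p.2‖ < b ∧ ‖p.2‖ ^ 2 * A ≤ κ * (H - b / 2) ^ B :=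
    fun p hp => ⟨by linarith [hsm p hp], Mz_F2 hb1 hκ hB hH hp.1 hp.2.1 hp.2.2⟩
  have han := Mz_an hE hB hκ hA0 hz hM
  have hbase : ∀ p ∈ Zn (κ / 4) B H A, p.1.im < b / 2 → p ∈ Bs b ∧ Mz L p = L p := by
    intro p hp hpb
    have h1 : p ∈ Bs b := by
      refine ⟨⟨by linarith [hp.1], by linarith⟩, ?_⟩
      rw [mem_ball_zero_iff]
      exact (hz p hp).1
    refine ⟨h1, ?_⟩
    unfold Mz
    rw [(Dc_sum hE h1).tsum_eq]
    ring
  refine ⟨han, hbase, ?_, ?_, ?_⟩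
  · intro t
    unfold Mz
    have h1 : ∀ m : ℤ, Dc L m 0 = 0 := by
      intro m
      have h2 := Dc_bound hE m (mem_ball_self hE.b_pos)
      rw [norm_zero, zero_pow two_ne_zero, mul_zero, zero_mul] at h2
      exact norm_le_zero_iff.1 h2
    simp [h1]
  · intro p hp
    unfold Mz
    have h1 : p.2 ∈ ball (0:ℂ) b := by
      rw [mem_ball_zero_iff]
      exact (hz p hp).1
    simp only [Dc_even hE _ h1]
  · intro t η h1 h2 h3
    have hb4 : ((b / 4 : ℝ) * I : ℂ) ∈ St 0 H := by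
      refine ⟨?_, ?_⟩ <;> simp <;> linarith
    have hz₀ : (((b / 4 : ℝ) * I : ℂ), (0:ℂ)) ∈ MzS (κ / 4) H A B :=
      MzS_zero (by positivity) hb4
    have hev : MzN Y (Mz L) =ᶠ[𝓝 (((b / 4 : ℝ) * I : ℂ), (0:ℂ))] 0 := by
      have c1 : ∀ᶠ p : ℂ × ℂ in 𝓝 (((b / 4 : ℝ) * I : ℂ), (0:ℂ)), p.1.im < b / 2 := by
        refine (isOpen_lt (by fun_prop) continuous_const).mem_nhds ?_
        simp
        linarith
      have c2 : ∀ᶠ p : ℂ × ℂ in 𝓝 (((b / 4 : ℝ) * I : ℂ), (0:ℂ)), (p.1 + p.2).im < b / 2 := by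
        refine (isOpen_lt (by fun_prop) continuous_const).mem_nhds ?_
        simp
        linarith
      have c3 : ∀ᶠ p : ℂ × ℂ in 𝓝 (((b / 4 : ℝ) * I : ℂ), (0:ℂ)), (p.1 - p.2).im < b / 2 := by
        refine (isOpen_lt (by fun_prop) continuous_const).mem_nhds ?_
        simp
        linarith
      filter_upwards [MzS_open.mem_nhds hz₀, c1, c2, c3] with p hp d1 d2 d3
      obtain ⟨q1, r1⟩ := hbase p hp.1 d1
      obtain ⟨q2, r2⟩ := hbase _ hp.2.1 d2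
      obtain ⟨q3, r3⟩ := hbase _ hp.2.2 d3
      change MzN Y (Mz L) p = 0
      unfold MzN
      rw [r1, r2, r3]
      exact hE.node p.1 p.2 q1 q2 q3
    have h4 := (MzN_an hE.on han).eqOn_zero_of_preconnected_of_eventuallyEq_zero
      (MzS_pre (by positivity) hA0.le hH0) hz₀ hev (x := (t, η)) ⟨h1, h2, h3⟩
    exact h4

end Pool.Agent.MP_ae5b4e_an_NB5
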