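import Pool.Agent.Lib.MP_ae5b4e_an_NB5.Est0

/-!
# MP_ae5b4e_an, project NB_5(A): the node function at the symmetric point
-/

noncomputable section

namespace Pool.Agent.MP_ae5b4e_an_NB5

open Complex Set Filter Topology Metric
open Pool.Agent.MP_ae5b4e_an_NBT (St)
open Pool.Agent.MP_ae5b4e_an_NB2 (Sys)
open scoped ComplexConjugate

private theorem d2_closed {ρ A : ℝ} {k : ℕ} {g g' φ : ℂ → ℂ}
    (hg : ∀ z ∈ closedBall (0:ℂ) ρ, HasDerivAt g (g' z) z)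
    (hg' : ∀ z ∈ closedBall (0:ℂ) ρ, HasDerivAt g' (φ z) z)
    (h0 : g 0 = 0) (h0' : g' 0 = 0) (hφ : ∀ z ∈ closedBall (0:ℂ) ρ, ‖φ z‖ ≤ A * ‖z‖ ^ k) :
    ∀ z ∈ closedBall (0:ℂ) ρ, ‖g z‖ ≤ A * ‖z‖ ^ (k + 2) / ((k + 1) * (k + 2)) := by
  have key : ∀ z ∈ ball (0:ℂ) ρ, ‖g z‖ ≤ A * ‖z‖ ^ (k + 2) / ((k + 1) * (k + 2)) := by
    intro z hz
    have := Pool.Agent.Lib.MP_ae5b4e_an_LL.norm_le_of_deriv2_pow (c := 0) (R := ρ) (A := A)
      (k := k) (fun z hz => hg z (ball_subset_closedBall hz))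
      (fun z hz => hg' z (ball_subset_closedBall hz)) h0 h0'
      (fun z hz => by simpa using hφ z (ball_subset_closedBall hz)) z hz
    simpa using this
  intro z hz
  rcases eq_or_ne z 0 with rfl | hz0
  · simp [h0]
  have hρ : ρ ≠ 0 := by
    rintro rfl
    rw [closedBall_zero, mem_singleton_iff] at hz
    exact hz0 hz
  have hcl : z ∈ closure (ball (0:ℂ) ρ) := by
    rw [closure_ball _ hρ]
    exact hz
  refine ContinuousWithinAt.closure_le hcl (hg z hz).continuousAt.norm.continuousWithinAt ?_ key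
  exact (by fun_prop : Continuous fun z : ℂ => A * ‖z‖ ^ (k + 2) /
    (((k:ℝ) + 1) * ((k:ℝ) + 2))).continuousWithinAt

private theorem ode_est {ρ M A : ℝ} {k : ℕ} {h h' q φ : ℂ → ℂ} (hM : 0 ≤ M) (hA : 0 ≤ A)
    (hMρ : M * ρ ^ 2 ≤ 1 / 4)
    (hh : ∀ z ∈ closedBall (0:ℂ) ρ, HasDerivAt h (h' z) z)
    (hh' : ∀ z ∈ closedBall (0:ℂ) ρ, HasDerivAt h' (-(q z * h z) + φ z) z)
    (h0 : h 0 = 0) (h0' : h' 0 = 0) (hq : ∀ z ∈ closedBall (0:ℂ) ρ, ‖q z‖ ≤ M)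
    (hφ : ∀ z ∈ closedBall (0:ℂ) ρ, ‖φ z‖ ≤ A * ‖z‖ ^ k) :
    ∀ z ∈ closedBall (0:ℂ) ρ, ‖h z‖ ≤ 8 / 7 * A * ‖z‖ ^ (k + 2) / ((k + 1) * (k + 2)) := by
  have hle : ∀ z ∈ closedBall (0:ℂ) ρ, M * ‖z‖ ^ 2 ≤ 1 / 4 := by
    intro z hz
    have h1 : ‖z‖ ≤ ρ := by simpa using hz
    calc M * ‖z‖ ^ 2 ≤ M * ρ ^ 2 := by gcongr
      _ ≤ 1 / 4 := hMρ
  have crude : ∀ z ∈ closedBall (0:ℂ) ρ, ‖h z‖ ≤ 4 / 7 * A * ‖z‖ ^ (k + 2) := by
    intro z hz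
    have hσ : closedBall (0:ℂ) ‖z‖ ⊆ closedBall 0 ρ :=
      closedBall_subset_closedBall (by simpa using hz)
    obtain ⟨w, hw, hmax⟩ := (isCompact_closedBall (0:ℂ) ‖z‖).exists_isMaxOn
      ⟨0, by simp⟩ (f := fun z => ‖h z‖)
      (fun y hy => (hh y (hσ hy)).continuousAt.norm.continuousWithinAt)
    have hmax' : ∀ y ∈ closedBall (0:ℂ) ‖z‖, ‖h y‖ ≤ ‖h w‖ := fun y hy => hmax hy
    have h1 := d2_closed (k := 0) (A := M * ‖h w‖ + A * ‖z‖ ^ k) (ρ := ‖z‖)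
      (fun y hy => hh y (hσ hy)) (fun y hy => hh' y (hσ hy)) h0 h0' (fun y hy => by
        have h2 := hq y (hσ hy)
        have h3 := hφ y (hσ hy)
        have h4 := hmax' y hy
        have h5 : ‖y‖ ≤ ‖z‖ := by simpa using hy
        have h6 : ‖y‖ ^ k ≤ ‖z‖ ^ k := by gcongr
        rw [pow_zero, mul_one]
        calc ‖-(q y * h y) + φ y‖ ≤ ‖q y‖ * ‖h y‖ + ‖φ y‖ := by
              refine (norm_add_le _ _).trans ?_
              rw [norm_neg, norm_mul]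
          _ ≤ M * ‖h w‖ + A * ‖z‖ ^ k := by
              refine add_le_add (mul_le_mul h2 h4 (norm_nonneg _) hM) (h3.trans ?_)
              gcongr) w hw
    have h7 : ‖w‖ ≤ ‖z‖ := by simpa using hw
    have h8 : ‖w‖ ^ 2 ≤ ‖z‖ ^ 2 := by gcongr
    have h9 := hle z hz
    have h10 : 0 ≤ M * ‖h w‖ + A * ‖z‖ ^ k := by positivity
    have h11 : ‖h w‖ ≤ (M * ‖h w‖ + A * ‖z‖ ^ k) * ‖z‖ ^ 2 / 2 := by
      refine h1.trans ?_
      norm_num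
      gcongr
    have h12 : (M * ‖h w‖ + A * ‖z‖ ^ k) * ‖z‖ ^ 2 / 2 =
        M * ‖z‖ ^ 2 * ‖h w‖ / 2 + A * ‖z‖ ^ (k + 2) / 2 := by ring
    have h13 : M * ‖z‖ ^ 2 * ‖h w‖ ≤ 1 / 4 * ‖h w‖ := by gcongr
    have h14 := hmax' z (by simp)
    linarith
  have h1 := d2_closed (k := k) (A := 8 / 7 * A) (ρ := ρ) hh hh' h0 h0' (fun y hy => by
    have h2 := hq y hy
    have h3 := hφ y hy
    have h4 := crude y hy
    have h5 := hle y hy
    calc ‖-(q y * h y) + φ y‖ ≤ ‖q y‖ * ‖h y‖ + ‖φ y‖ := by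
          refine (norm_add_le _ _).trans ?_
          rw [norm_neg, norm_mul]
      _ ≤ M * (4 / 7 * A * ‖y‖ ^ (k + 2)) + A * ‖y‖ ^ k :=
          add_le_add (mul_le_mul h2 h4 (norm_nonneg _) hM) h3
      _ = (M * ‖y‖ ^ 2) * (4 / 7 * A * ‖y‖ ^ k) + A * ‖y‖ ^ k := by ring
      _ ≤ 1 / 4 * (4 / 7 * A * ‖y‖ ^ k) + A * ‖y‖ ^ k := by gcongr
      _ = 8 / 7 * A * ‖y‖ ^ k := by ring)
  exact h1

/-- With `f z = c (l + z, l)`, `g z = s (l + z, l)`, `f₁ z = f (-z)`, `g₁ z = - g (-z)`,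
`δ z = Q (l + z) - Q (l - z)`, `v = f - f₁`, `u = g - g₁`: `v'' = - Q (l + z) v - δ f₁`,
`u'' = - Q (l + z) u - δ g₁`, all with zero initial values. By `est_sc` `‖f₁‖ ≤ 5/4`,
`‖g₁ z‖ ≤ 5/4 ‖z‖`, so (as in `est_sc`, with `M ‖z‖² ≤ 1/4`) `‖v z‖ ≤ ω ‖z‖³ / 4`,
`‖u z‖ ≤ ω ‖z‖⁴ / 8`. The left side is `f u - v g` at `x`. -/
theorem odd_est {Y : Sys} {l x : ℂ} {r M ω : ℝ} (hY : Y.On (ball l r)) (hM : 0 ≤ M)
    (hQ : ∀ z ∈ ball l r, ‖Y.Q z‖ ≤ M) (hω : 0 ≤ ω)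
    (hodd : ∀ z : ℂ, ‖z‖ < r → ‖Y.Q (l + z) - Y.Q (l - z)‖ ≤ ω * ‖z‖) (hx : ‖x‖ < r)
    (hMx : M * ‖x‖ ^ 2 ≤ 1 / 4) :
    ‖Y.c (l + x) l * Y.s (l - x) l + Y.c (l - x) l * Y.s (l + x) l‖ ≤ ω * ‖x‖ ^ 4 := by
  have hzr : ∀ z ∈ closedBall (0:ℂ) ‖x‖, ‖z‖ < r := fun z hz =>
    lt_of_le_of_lt (by simpa using hz) hx
  have hle : ∀ z ∈ closedBall (0:ℂ) ‖x‖, M * ‖z‖ ^ 2 ≤ 1 / 4 := by
    intro z hz
    have h1 : ‖z‖ ≤ ‖x‖ := by simpa using hz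
    calc M * ‖z‖ ^ 2 ≤ M * ‖x‖ ^ 2 := by gcongr
      _ ≤ 1 / 4 := hMx
  have hp : ∀ z ∈ closedBall (0:ℂ) ‖x‖, l + z ∈ ball l r := fun z hz => by
    rw [mem_ball, dist_eq_norm, add_sub_cancel_left]
    exact hzr z hz
  have hn : ∀ z ∈ closedBall (0:ℂ) ‖x‖, l - z ∈ ball l r := fun z hz => by
    rw [mem_ball, dist_eq_norm, sub_sub_cancel_left, norm_neg]
    exact hzr z hz
  have hl : l ∈ ball l r := by
    have := hp 0 (by simp)
    rwa [add_zero] at this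
  have dp : ∀ z : ℂ, HasDerivAt (fun z : ℂ => l + z) 1 z := fun z =>
    (hasDerivAt_id z).const_add l
  have dn : ∀ z : ℂ, HasDerivAt (fun z : ℂ => l - z) (-1) z := fun z =>
    (hasDerivAt_id z).const_sub l
  -- bounds
  have bc : ∀ z ∈ closedBall (0:ℂ) ‖x‖, ‖Y.c (l - z) l‖ ≤ 5 / 4 := by
    intro z hz
    have h1 := (est_sc (x := -z) hY hM hQ (by rw [norm_neg]; exact hzr z hz)
      (by rw [norm_neg]; exact hle z hz)).1
    rw [norm_neg, ← sub_eq_add_neg] at h1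
    have h2 : ‖Y.c (l - z) l‖ ≤ ‖Y.c (l - z) l - 1‖ + ‖(1:ℂ)‖ := by
      have := norm_add_le (Y.c (l - z) l - 1) 1
      rwa [sub_add_cancel] at this
    rw [norm_one] at h2
    linarith [hle z hz]
  have bs : ∀ z ∈ closedBall (0:ℂ) ‖x‖, ‖Y.s (l - z) l‖ ≤ 5 / 4 * ‖z‖ := by
    intro z hz
    have h1 := (est_sc (x := -z) hY hM hQ (by rw [norm_neg]; exact hzr z hz)
      (by rw [norm_neg]; exact hle z hz)).2.1
    rw [norm_neg, ← sub_eq_add_neg] at h1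
    have h2 : ‖Y.s (l - z) l‖ ≤ ‖Y.s (l - z) l - -z‖ + ‖-z‖ := by
      have := norm_add_le (Y.s (l - z) l - -z) (-z)
      rwa [sub_add_cancel] at this
    rw [norm_neg] at h2
    have h3 : M * ‖z‖ ^ 3 ≤ 1 / 4 * ‖z‖ := by
      calc M * ‖z‖ ^ 3 = M * ‖z‖ ^ 2 * ‖z‖ := by ring
        _ ≤ 1 / 4 * ‖z‖ := by
          have := hle z hz
          gcongr
    linarith
  have bc' : ‖Y.c (l + x) l‖ ≤ 5 / 4 := by
    have h1 := (est_sc (x := x) hY hM hQ hx hMx).1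
    have h2 : ‖Y.c (l + x) l‖ ≤ ‖Y.c (l + x) l - 1‖ + ‖(1:ℂ)‖ := by
      have := norm_add_le (Y.c (l + x) l - 1) 1
      rwa [sub_add_cancel] at this
    rw [norm_one] at h2
    linarith
  have bs' : ‖Y.s (l + x) l‖ ≤ 5 / 4 * ‖x‖ := by
    have h1 := (est_sc (x := x) hY hM hQ hx hMx).2.1
    have h2 : ‖Y.s (l + x) l‖ ≤ ‖Y.s (l + x) l - x‖ + ‖x‖ := by
      have := norm_add_le (Y.s (l + x) l - x) x
      rwa [sub_add_cancel] at this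
    have h3 : M * ‖x‖ ^ 3 ≤ 1 / 4 * ‖x‖ := by
      calc M * ‖x‖ ^ 3 = M * ‖x‖ ^ 2 * ‖x‖ := by ring
        _ ≤ 1 / 4 * ‖x‖ := by gcongr
    linarith
  -- the even part
  have hv := ode_est (k := 1) (A := 5 / 4 * ω) (ρ := ‖x‖) (M := M)
    (h := fun z => Y.c (l + z) l - Y.c (l - z) l)
    (h' := fun z => Y.cd (l + z) l + Y.cd (l - z) l)
    (q := fun z => Y.Q (l + z))
    (φ := fun z => -((Y.Q (l + z) - Y.Q (l - z)) * Y.c (l - z) l)) hM (by positivity) hMx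
    (fun z hz => by
      have h1 := (Sys.hasDerivAt_c (l := l) hY (hp z hz)).comp z (dp z)
      have h2 := (Sys.hasDerivAt_c (l := l) hY (hn z hz)).comp z (dn z)
      have h3 := h1.sub h2
      convert! h3 using 1
      ring)
    (fun z hz => by
      have h1 := (Sys.hasDerivAt_cd (l := l) hY (hp z hz)).comp z (dp z)
      have h2 := (Sys.hasDerivAt_cd (l := l) hY (hn z hz)).comp z (dn z)
      have h3 := h1.add h2
      convert! h3 using 1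
      ring)
    (by simp) (by simp [Sys.cd_self]) (fun z hz => hQ _ (hp z hz))
    (fun z hz => by
      have h1 := hodd z (hzr z hz)
      have h2 := bc z hz
      show ‖-((Y.Q (l + z) - Y.Q (l - z)) * Y.c (l - z) l)‖ ≤ _
      rw [norm_neg, norm_mul, pow_one]
      calc ‖Y.Q (l + z) - Y.Q (l - z)‖ * ‖Y.c (l - z) l‖ ≤ (ω * ‖z‖) * (5 / 4) :=
            mul_le_mul h1 h2 (norm_nonneg _) (by positivity)
        _ = 5 / 4 * ω * ‖z‖ := by ring) x (by simp)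
  have hu := ode_est (k := 2) (A := 5 / 4 * ω) (ρ := ‖x‖) (M := M)
    (h := fun z => Y.s (l + z) l + Y.s (l - z) l)
    (h' := fun z => Y.sd (l + z) l - Y.sd (l - z) l)
    (q := fun z => Y.Q (l + z))
    (φ := fun z => (Y.Q (l + z) - Y.Q (l - z)) * Y.s (l - z) l) hM (by positivity) hMx
    (fun z hz => by
      have h1 := (Sys.hasDerivAt_s (l := l) hY (hp z hz)).comp z (dp z)
      have h2 := (Sys.hasDerivAt_s (l := l) hY (hn z hz)).comp z (dn z)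
      have h3 := h1.add h2
      convert! h3 using 1
      ring)
    (fun z hz => by
      have h1 := (Sys.hasDerivAt_sd (l := l) hY (hp z hz)).comp z (dp z)
      have h2 := (Sys.hasDerivAt_sd (l := l) hY (hn z hz)).comp z (dn z)
      have h3 := h1.sub h2
      convert! h3 using 1
      ring)
    (by simp [Sys.s_self]) (by simp) (fun z hz => hQ _ (hp z hz))
    (fun z hz => by
      have h1 := hodd z (hzr z hz)
      have h2 := bs z hz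
      show ‖(Y.Q (l + z) - Y.Q (l - z)) * Y.s (l - z) l‖ ≤ _
      rw [norm_mul]
      calc ‖Y.Q (l + z) - Y.Q (l - z)‖ * ‖Y.s (l - z) l‖ ≤ (ω * ‖z‖) * (5 / 4 * ‖z‖) :=
            mul_le_mul h1 h2 (norm_nonneg _) (by positivity)
        _ = 5 / 4 * ω * ‖z‖ ^ 2 := by ring) x (by simp)
  have hid : Y.c (l + x) l * Y.s (l - x) l + Y.c (l - x) l * Y.s (l + x) l =
      Y.c (l + x) l * (Y.s (l + x) l + Y.s (l - x) l) -
        (Y.c (l + x) l - Y.c (l - x) l) * Y.s (l + x) l := by ring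
  have hv' : ‖Y.c (l + x) l - Y.c (l - x) l‖ ≤ 5 / 21 * ω * ‖x‖ ^ 3 := by
    refine hv.trans (le_of_eq ?_)
    push_cast
    ring
  have hu' : ‖Y.s (l + x) l + Y.s (l - x) l‖ ≤ 5 / 42 * ω * ‖x‖ ^ 4 := by
    refine hu.trans (le_of_eq ?_)
    push_cast
    ring
  rw [hid]
  calc ‖Y.c (l + x) l * (Y.s (l + x) l + Y.s (l - x) l) -
        (Y.c (l + x) l - Y.c (l - x) l) * Y.s (l + x) l‖
      ≤ ‖Y.c (l + x) l‖ * ‖Y.s (l + x) l + Y.s (l - x) l‖ +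
        ‖Y.c (l + x) l - Y.c (l - x) l‖ * ‖Y.s (l + x) l‖ := by
        refine (norm_sub_le _ _).trans ?_
        rw [norm_mul, norm_mul]
    _ ≤ 5 / 4 * (5 / 42 * ω * ‖x‖ ^ 4) + 5 / 21 * ω * ‖x‖ ^ 3 * (5 / 4 * ‖x‖) := by
        refine add_le_add (mul_le_mul bc' hu' (norm_nonneg _) (by norm_num))
          (mul_le_mul hv' bs' (norm_nonneg _) (by positivity))
    _ = 25 / 56 * (ω * ‖x‖ ^ 4) := by ring
    _ ≤ ω * ‖x‖ ^ 4 := by
        have : 0 ≤ ω * ‖x‖ ^ 4 := by positivity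
        linarith

end Pool.Agent.MP_ae5b4e_an_NB5
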