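import Pool.Agent.Lib.MP_ae5b4e_an_NB1.Pick
import Pool.Agent.Lib.MP_ae5b4e_an_NB5.Defs
import Pool.Agent.Lib.MP_ae5b4e_an_BS.Frame

/-!
# MP_ae5b4e_an, project NB_5(A): choice of a segment on the top line at a given real parameter
-/

noncomputable section

namespace Pool.Agent.MP_ae5b4e_an_NB5

open Complex Set Filter Topology Metric
open Pool.Agent.MP_ae5b4e_an_NBT
open Pool.Agent.MP_ae5b4e_an_NB2 (Sys)
open Pool.Agent.MP_ae5b4e_an_BS (AllH EntC)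
open scoped ComplexConjugate

open Pool.Agent.MP_ae5b4e_an_NB1 (Pick DP)

/-! ### The top line at `ρ₀` -/

/-- `H` is the height at the real parameter `ρ₀` -/
private structure PkTop (F : ℂ × ℂ → ℂ) (c H ρ₀ : ℝ) : Prop where
  hcH : c < H
  pos : 0 < ρ₀
  mem : (ρ₀ : ℂ) ∈ ball (0:ℂ) (c / 4)
  ext : ∀ y < H, ExtM F c (c / 4) y ρ₀
  no : ¬ ∃ y > H, ExtM F c (c / 4) y ρ₀

/-- `G` continues to the ball of radius `ε` about the top point `x + i H` -/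
private def PkR (F G : ℂ × ℂ → ℂ) (c H ρ₀ ε x : ℝ) : Prop :=
  ∃ g : ℂ × ℂ → ℂ, Mer g (ball ((x:ℂ) + H * I) ε ×ˢ ball (ρ₀ : ℂ) ε) ∧
    ∀ p ∈ (ball ((x:ℂ) + H * I) ε ×ˢ ball (ρ₀ : ℂ) ε) ∩ DF F c (c / 4), EqM g G p

variable {k : ℂ → ℂ} {F G : ℂ × ℂ → ℂ} {c h H ρ₀ : ℝ}

private lemma pk_merF (hE : ConE k F c h G) : Mer F (St (-c) c ×ˢ ball 0 (c / 4)) := by
  have hc := hE.pos
  exact (Mer.of_analytic hE.an).mono (prod_mono Subset.rfl (ball_subset_ball (by linarith)))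

/-- a neighbourhood of parameters -/
private lemma pk_near (hE : ConE k F c h G) {ρ₁ : ℂ} (hρ₁ : ρ₁ ∈ ball (0:ℂ) (c / 4)) {y : ℝ}
    (hy : ExtM F c (c / 4) y ρ₁) : ∃ ε > 0, ball ρ₁ ε ⊆ ball 0 (c / 4) ∧
      (∀ ρ ∈ ball ρ₁ ε, ExtM F c (c / 4) y ρ) ∧
      ∀ ρ ∈ ball ρ₁ ε, ∀ t : ℂ, -c < t.im → t.im < y → (t, ρ) ∈ DF F c (c / 4) := by
  obtain ⟨e1, he1, h1⟩ := Metric.eventually_nhds_iff_ball.1 hy.eventually
  obtain ⟨e2, he2, h2⟩ := Metric.isOpen_iff.1 isOpen_ball ρ₁ hρ₁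
  refine ⟨min e1 e2, lt_min he1 he2, (ball_subset_ball (min_le_right _ _)).trans h2,
    fun ρ hρ => h1 ρ (ball_subset_ball (min_le_left _ _) hρ), fun ρ hρ t ht1 ht2 => ?_⟩
  have hρ0 : ρ ∈ ball (0:ℂ) (c / 4) := h2 (ball_subset_ball (min_le_right _ _) hρ)
  refine ⟨hρ0, ⟨y, ht2, h1 ρ (ball_subset_ball (min_le_left _ _) hρ)⟩, c, ?_,
    extM_base (pk_merF hE) ?_⟩
  · show -t.im < c
    linarith
  · rw [mem_ball_zero_iff] at hρ0 ⊢
    rwa [RCLike.norm_conj]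

private lemma pk_df (hT : PkTop F c H ρ₀) {t : ℂ} (ht : |t.im| < H) :
    (t, (ρ₀:ℂ)) ∈ DF F c (c / 4) := by
  obtain ⟨y, hy1, hy2⟩ := exists_between ht
  have h1 := abs_lt.1 hy1
  refine ⟨hT.mem, ⟨y, h1.2, hT.ext y hy2⟩, y, ?_, ?_⟩
  · show -t.im < y
    linarith
  · show ExtM F c (c / 4) y ((starRingEnd ℂ) (ρ₀:ℂ))
    rw [Complex.conj_ofReal]
    exact hT.ext y hy2

private lemma pk_slice (hE : ConE k F c h G) {ρ : ℂ} (hρ : ρ ∈ ball (0:ℂ) (c / 4)) :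
    Convex ℝ {t : ℂ | (t, ρ) ∈ DF F c (c / 4)} :=
  (slice_Dom hE.pos le_rfl (pk_merF hE) hρ).1

/-- it is enough to have equality at one point below -/
private lemma pk_strong (hE : ConE k F c h G) (hT : PkTop F c H ρ₀) {x ε η₁ : ℝ} (hε : 0 < ε)
    (hη : 0 < η₁) (hηε : η₁ < ε) (hηH : η₁ < H) {g : ℂ × ℂ → ℂ}
    (hg : Mer g (ball ((x:ℂ) + H * I) ε ×ˢ ball (ρ₀ : ℂ) ε))
    (hgG : EqM g G ((x:ℂ) + H * I - η₁ * I, (ρ₀:ℂ))) : ∃ ε' > 0, PkR F G c H ρ₀ ε' x := by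
  have hc := hE.pos
  have hcH := hT.hcH
  set κ := min ε H / 2 with hκ
  have hm0 : 0 < min ε H := lt_min hε (by linarith)
  have hκ0 : 0 < κ := by positivity
  have hκε : κ < ε := by
    have := min_le_left ε H
    rw [hκ]
    linarith
  have hκH : κ < H := by
    have := min_le_right ε H
    rw [hκ]
    linarith
  set τ : ℂ := (x:ℂ) + H * I with hτ
  have him : τ.im = H := by simp [hτ]
  set ts : ℂ := τ - κ * I with hts
  have htsim : ts.im = H - κ := by simp [hts, him]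
  have htsb : ts ∈ ball τ ε := by
    rw [mem_ball, dist_eq_norm, hts]
    have : τ - κ * I - τ = -(κ * I) := by ring
    rw [this, norm_neg, norm_mul, norm_I, mul_one, norm_real, Real.norm_of_nonneg hκ0.le]
    exact hκε
  obtain ⟨e1, he1, hb1, -, hD1⟩ := pk_near hE hT.mem (hT.ext (H - κ / 2) (by linarith))
  set ε' := min e1 ε with hε'
  have hε'0 : 0 < ε' := lt_min he1 hε
  refine ⟨ε', hε'0, g, hg.mono (prod_mono (ball_subset_ball (min_le_right _ _))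
    (ball_subset_ball (min_le_right _ _))), ?_⟩
  have hmerG := hE.merG
  -- first: the point `(ts, ρ₀)`
  have hst : EqM g G (ts, (ρ₀:ℂ)) := by
    have hS : IsPreconnected ((fun t : ℂ => (t, (ρ₀:ℂ))) ''
        (ball τ ε ∩ {t : ℂ | (t, (ρ₀:ℂ)) ∈ DF F c (c / 4)})) :=
      (((convex_ball τ ε).inter (pk_slice hE hT.mem)).isPreconnected).image _ (by fun_prop)
    refine Mer.eqM hS ?_ ?_ (p := (τ - η₁ * I, (ρ₀:ℂ))) ?_ hgG _ ?_
    · rintro _ ⟨t, ⟨h1, h2⟩, rfl⟩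
      exact hg _ ⟨h1, mem_ball_self hε⟩
    · rintro _ ⟨t, ⟨h1, h2⟩, rfl⟩
      exact hmerG _ h2
    · refine ⟨τ - η₁ * I, ⟨?_, ?_⟩, rfl⟩
      · rw [mem_ball, dist_eq_norm]
        have : τ - η₁ * I - τ = -(η₁ * I) := by ring
        rw [this, norm_neg, norm_mul, norm_I, mul_one, norm_real, Real.norm_of_nonneg hη.le]
        exact hηε
      · apply pk_df hT
        have : (τ - η₁ * I).im = H - η₁ := by simp [him]
        rw [this, abs_lt]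
        constructor <;> linarith
    · refine ⟨ts, ⟨htsb, ?_⟩, rfl⟩
      apply pk_df hT
      rw [htsim, abs_lt]
      constructor <;> linarith
  rintro ⟨t, ρ⟩ ⟨⟨h1, h2⟩, h3⟩
  have hρ : ρ ∈ ball (ρ₀:ℂ) e1 := ball_subset_ball (min_le_left _ _) h2
  have hρε : ρ ∈ ball (ρ₀:ℂ) ε := ball_subset_ball (min_le_right _ _) h2
  have hρ0 := hb1 hρ
  have hS1 : IsPreconnected ((fun t : ℂ => (t, ρ)) ''
      (ball τ ε ∩ {t : ℂ | (t, ρ) ∈ DF F c (c / 4)})) :=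
    (((convex_ball τ ε).inter (pk_slice hE hρ0)).isPreconnected).image _ (by fun_prop)
  have hS2 : IsPreconnected ((fun ρ' : ℂ => (ts, ρ')) '' ball (ρ₀:ℂ) ε') :=
    ((convex_ball (ρ₀:ℂ) ε').isPreconnected).image _ (by fun_prop)
  have hmem : ∀ ρ' ∈ ball (ρ₀:ℂ) ε', (ts, ρ') ∈ DF F c (c / 4) := fun ρ' hρ' =>
    hD1 ρ' (ball_subset_ball (min_le_left _ _) hρ') ts (by rw [htsim]; linarith)
      (by rw [htsim]; linarith)
  have hts2 : EqM g G (ts, ρ) := by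
    refine Mer.eqM hS2 ?_ ?_ (p := (ts, (ρ₀:ℂ))) ⟨ρ₀, mem_ball_self hε'0, rfl⟩ hst _ ⟨ρ, h2, rfl⟩
    · rintro _ ⟨ρ', h', rfl⟩
      exact hg _ ⟨htsb, ball_subset_ball (min_le_right _ _) h'⟩
    · rintro _ ⟨ρ', h', rfl⟩
      exact hmerG _ (hmem ρ' h')
  refine Mer.eqM hS1 ?_ ?_ (p := (ts, ρ)) ⟨ts, ⟨htsb, hmem ρ h2⟩, rfl⟩ hts2 _
    ⟨t, ⟨ball_subset_ball (min_le_right _ _) h1, h3⟩, rfl⟩
  · rintro _ ⟨t', ⟨h4, h5⟩, rfl⟩
    exact hg _ ⟨h4, hρε⟩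
  · rintro _ ⟨t', ⟨h4, h5⟩, rfl⟩
    exact hmerG _ h5

private lemma PkR.mono {ε ε' x : ℝ} (h : PkR F G c H ρ₀ ε x) (hε : ε' ≤ ε) :
    PkR F G c H ρ₀ ε' x := by
  obtain ⟨g, hg, hgG⟩ := h
  exact ⟨g, hg.mono (prod_mono (ball_subset_ball hε) (ball_subset_ball hε)), fun p hp =>
    hgG p ⟨⟨ball_subset_ball hε hp.1.1, ball_subset_ball hε hp.1.2⟩, hp.2⟩⟩

/-- a smaller ball about a near point -/
private lemma PkR.near {ε x x' : ℝ} (h : PkR F G c H ρ₀ ε x) (hx : |x' - x| ≤ ε / 2) :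
    PkR F G c H ρ₀ (ε / 2) x' := by
  obtain ⟨g, hg, hgG⟩ := h
  have h1 : ball ((x':ℂ) + H * I) (ε / 2) ⊆ ball ((x:ℂ) + H * I) ε := by
    apply ball_subset_ball'
    rw [dist_eq_norm]
    have : (x':ℂ) + H * I - (x + H * I) = ((x' - x : ℝ) : ℂ) := by
      push_cast
      ring
    rw [this, norm_real, Real.norm_eq_abs]
    linarith
  have hε0 : 0 ≤ ε := by
    have := abs_nonneg (x' - x)
    linarith
  have h2 : ball (ρ₀:ℂ) (ε / 2) ⊆ ball (ρ₀:ℂ) ε := ball_subset_ball (by linarith)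
  exact ⟨g, hg.mono (prod_mono h1 h2), fun p hp => hgG p ⟨⟨h1 hp.1.1, h2 hp.1.2⟩, hp.2⟩⟩

private lemma pk_dfshift (hE : ConE k F c h G) {p : ℂ × ℂ} (hp : p ∈ DF F c (c / 4)) {s : ℂ}
    (hs : s.im = p.1.im) : (s, p.2) ∈ DF F c (c / 4) :=
  (slice_Dom hE.pos le_rfl (pk_merF hE) hp.1).2.2.2 p.1 s hs.symm hp

/-- period one -/
private lemma PkR.succ (hE : ConE k F c h G) {ε x : ℝ} (hR : PkR F G c H ρ₀ ε x) :
    PkR F G c H ρ₀ ε (x + 1) := by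
  obtain ⟨g, hg, hgG⟩ := hR
  have hd : Differentiable ℂ (fun _ : ℂ => (-1:ℂ)) := by fun_prop
  have hm : ∀ p : ℂ × ℂ, p.1 ∈ ball (((x + 1 : ℝ) : ℂ) + H * I) ε →
      p.1 + -1 ∈ ball ((x:ℂ) + H * I) ε := by
    intro p hp
    rw [mem_ball, dist_eq_norm] at hp ⊢
    have : p.1 + -1 - (x + H * I) = p.1 - (((x + 1 : ℝ) : ℂ) + H * I) := by
      push_cast
      ring
    rwa [this]
  refine ⟨fun q => g (q.1 + -1, q.2), fun p hp => ?_, fun p hp => ?_⟩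
  · exact MerAt.shift (h := fun _ => (-1:ℂ)) hd (hg _ ⟨hm p hp.1, hp.2⟩)
  · have h1 : (p.1 + -1, p.2) ∈ DF F c (c / 4) := pk_dfshift hE hp.2 (by simp)
    have h2 := EqM.shift (h := fun _ => (-1:ℂ)) hd (p := p) (hgG _ ⟨⟨hm p hp.1.1, hp.1.2⟩, h1⟩)
    have h3 := EqM.shift (h := fun _ => (-1:ℂ)) hd (p := p) (hE.perG _ h1)
    refine h2.trans (h3.symm.trans (EqM.of_eventuallyEq ?_))
    refine Eventually.of_forall fun q => ?_
    show G (q.1 + -1 + 1, q.2) = G q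
    rw [neg_add_cancel_right]

private lemma PkR.pred (hE : ConE k F c h G) {ε x : ℝ} (hR : PkR F G c H ρ₀ ε x) :
    PkR F G c H ρ₀ ε (x - 1) := by
  obtain ⟨g, hg, hgG⟩ := hR
  have hd : Differentiable ℂ (fun _ : ℂ => (1:ℂ)) := by fun_prop
  have hm : ∀ p : ℂ × ℂ, p.1 ∈ ball (((x - 1 : ℝ) : ℂ) + H * I) ε →
      p.1 + 1 ∈ ball ((x:ℂ) + H * I) ε := by
    intro p hp
    rw [mem_ball, dist_eq_norm] at hp ⊢
    have : p.1 + 1 - (x + H * I) = p.1 - (((x - 1 : ℝ) : ℂ) + H * I) := by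
      push_cast
      ring
    rwa [this]
  refine ⟨fun q => g (q.1 + 1, q.2), fun p hp => ?_, fun p hp => ?_⟩
  · exact MerAt.shift (h := fun _ => (1:ℂ)) hd (hg _ ⟨hm p hp.1, hp.2⟩)
  · have h1 : (p.1 + 1, p.2) ∈ DF F c (c / 4) := pk_dfshift hE hp.2 (by simp)
    have h2 := EqM.shift (h := fun _ => (1:ℂ)) hd (p := p) (hgG _ ⟨⟨hm p hp.1.1, hp.1.2⟩, h1⟩)
    exact h2.trans (hE.perG _ hp.2)

private lemma PkR.add_int (hE : ConE k F c h G) {ε x : ℝ} (hR : PkR F G c H ρ₀ ε x) (n : ℤ) :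
    PkR F G c H ρ₀ ε (x + n) := by
  induction n using Int.induction_on with
  | zero => simpa using hR
  | succ n ih =>
    have := ih.succ hE
    push_cast at this ⊢
    rwa [add_assoc] at this
  | pred n ih =>
    have := ih.pred hE
    push_cast at this ⊢
    rwa [add_sub_assoc] at this

/-- not all the top points are regular -/
private lemma pk_not_all (hE : ConE k F c h G) (hT : PkTop F c H ρ₀) :
    ∃ x : ℝ, ∀ ε > 0, ¬ PkR F G c H ρ₀ ε x := by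
  by_contra hcon
  push Not at hcon
  have hc := hE.pos
  have hcH := hT.hcH
  -- a uniform radius
  have huni : ∃ ε > 0, ∀ x ∈ Icc (0:ℝ) 1, PkR F G c H ρ₀ ε x := by
    refine isCompact_Icc.induction_on (p := fun S : Set ℝ => ∃ ε > 0, ∀ x ∈ S,
      PkR F G c H ρ₀ ε x) ⟨1, one_pos, fun x hx => absurd hx (notMem_empty x)⟩ ?_ ?_ ?_
    · rintro S T hST ⟨ε, hε, h1⟩
      exact ⟨ε, hε, fun x hx => h1 x (hST hx)⟩
    · rintro S T ⟨ε, hε, h1⟩ ⟨ε', hε', h2⟩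
      refine ⟨min ε ε', lt_min hε hε', fun x hx => ?_⟩
      rcases hx with hx | hx
      · exact (h1 x hx).mono (min_le_left _ _)
      · exact (h2 x hx).mono (min_le_right _ _)
    · intro x _
      obtain ⟨ε, hε, h1⟩ := hcon x
      refine ⟨ball x (ε / 2), mem_nhdsWithin_of_mem_nhds (ball_mem_nhds x (by positivity)),
        ε / 2, by positivity, fun x' hx' => h1.near ?_⟩
      rw [mem_ball, Real.dist_eq] at hx'
      exact hx'.le
  obtain ⟨ε₁, hε₁, h1⟩ := huni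
  have hall : ∀ x : ℝ, PkR F G c H ρ₀ ε₁ x := by
    intro x
    have h2 := (h1 (Int.fract x) ⟨Int.fract_nonneg x, (Int.fract_lt_one x).le⟩).add_int hE ⌊x⌋
    rwa [Int.fract_add_floor] at h2
  set ε := min ε₁ (H - c) with hε
  have hε0 : 0 < ε := lt_min hε₁ (by linarith)
  have hεc : ε ≤ H - c := min_le_right _ _
  have hall' : ∀ x : ℝ, PkR F G c H ρ₀ ε x := fun x => (hall x).mono (min_le_left _ _)
  choose g hg hgG using hall'
  obtain ⟨e1, he1, hb1, -, hD1⟩ := pk_near hE hT.mem (hT.ext (H - ε / 2) (by linarith))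
  set ε' := min e1 ε with hε'
  have hε'0 : 0 < ε' := lt_min he1 hε0
  have hε'1 : ball (ρ₀:ℂ) ε' ⊆ ball (ρ₀:ℂ) e1 := ball_subset_ball (min_le_left _ _)
  have hε'2 : ball (ρ₀:ℂ) ε' ⊆ ball (ρ₀:ℂ) ε := ball_subset_ball (min_le_right _ _)
  have hlow : ∀ q ∈ St (-c) (H - ε / 2) ×ˢ ball (ρ₀:ℂ) ε', q ∈ DF F c (c / 4) := by
    rintro ⟨t, ρ⟩ ⟨h2, h3⟩
    exact hD1 ρ (hε'1 h3) t h2.1 h2.2
  obtain ⟨W, hW, hWe⟩ := exists_glue (ι := Option ℝ)
    (fun i => match i with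
      | none => St (-c) (H - ε / 2) ×ˢ ball (ρ₀:ℂ) ε'
      | some x => ball ((x:ℂ) + H * I) ε ×ˢ ball (ρ₀:ℂ) ε')
    (by
      rintro (_ | x)
      · exact (isOpen_St _ _).prod isOpen_ball
      · exact isOpen_ball.prod isOpen_ball)
    (fun i => match i with
      | none => G
      | some x => g x)
    (by
      rintro (_ | x)
      · exact fun q hq => hE.merG q (hlow q hq)
      · exact (hg x).mono (prod_mono Subset.rfl hε'2))
    (by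
      have hns : ∀ x : ℝ, ∀ q ∈ (St (-c) (H - ε / 2) ×ˢ ball (ρ₀:ℂ) ε') ∩
          (ball ((x:ℂ) + H * I) ε ×ˢ ball (ρ₀:ℂ) ε'), EqM (g x) G q := by
        rintro x q ⟨hq1, hq2⟩
        exact hgG x q ⟨⟨hq2.1, hε'2 hq2.2⟩, hlow q hq1⟩
      rintro (_ | x) (_ | x') q hq
      · exact EqM.refl _ _
      · exact (hns x' q hq).symm
      · exact hns x q ⟨hq.2, hq.1⟩
      · -- two balls
        obtain ⟨⟨hq1, hq2⟩, ⟨hq3, -⟩⟩ := hq
        have hpre : IsPreconnected ((ball ((x:ℂ) + H * I) ε ∩ ball ((x':ℂ) + H * I) ε) ×ˢ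
            ball (ρ₀:ℂ) ε') :=
          (((convex_ball _ _).inter (convex_ball _ _)).prod (convex_ball _ _)).isPreconnected
        have hx : ∀ x : ℝ, q.1 ∈ ball ((x:ℂ) + H * I) ε →
            ∀ᶠ η : ℝ in 𝓝 0, ((q.1.re : ℂ) + H * I - η * I) ∈ ball ((x:ℂ) + H * I) ε := by
          intro x hx
          have hcont : Continuous fun η : ℝ => ((q.1.re : ℂ) + H * I - η * I) := by fun_prop
          apply hcont.continuousAt.eventually
          apply isOpen_ball.mem_nhds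
          rw [mem_ball, dist_eq_norm] at hx ⊢
          have e1 : (q.1.re : ℂ) + H * I - ((0:ℝ):ℂ) * I - (x + H * I) =
              ((q.1.re - x : ℝ) : ℂ) := by
            push_cast
            ring
          rw [e1, norm_real, Real.norm_eq_abs]
          have e2 := Complex.abs_re_le_norm (q.1 - (x + H * I))
          have e3 : (q.1 - (x + H * I)).re = q.1.re - x := by simp
          rw [e3] at e2
          exact e2.trans_lt hx
        have hev := ((hx x hq1).and (hx x' hq3)).and (gt_mem_nhds (show (0:ℝ) < H by linarith))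
        obtain ⟨η, ⟨⟨h2, h3⟩, h4⟩, h5⟩ :=
          ((hev.filter_mono nhdsWithin_le_nhds : ∀ᶠ η in 𝓝[>] (0:ℝ), _).and
            self_mem_nhdsWithin).exists
        have h5' : 0 < η := h5
        have h6 : ((q.1.re : ℂ) + H * I - η * I, (ρ₀:ℂ)) ∈ DF F c (c / 4) := by
          apply pk_df hT
          have : ((q.1.re : ℂ) + H * I - η * I).im = H - η := by simp
          rw [this, abs_lt]
          constructor <;> linarith
        refine Mer.eqM hpre ((hg x).mono (prod_mono inter_subset_left hε'2))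
          ((hg x').mono (prod_mono inter_subset_right hε'2))
          (p := ((q.1.re : ℂ) + H * I - η * I, (ρ₀:ℂ))) ⟨⟨h2, h3⟩, mem_ball_self hε'0⟩ ?_ q
          ⟨⟨hq1, hq3⟩, hq2⟩
        exact (hgG x _ ⟨⟨h2, mem_ball_self hε0⟩, h6⟩).trans
          (hgG x' _ ⟨⟨h3, mem_ball_self hε0⟩, h6⟩).symm)
  apply hT.no
  refine ⟨H + ε / 2, by linarith, ε', hε'0, hε'1.trans hb1, W, ?_, ?_⟩
  · refine hW.mono ?_
    rintro ⟨t, ρ⟩ ⟨h2, h3⟩
    rcases lt_or_ge t.im (H - ε / 2) with h4 | h4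
    · exact mem_iUnion.2 ⟨none, ⟨h2.1, h4⟩, h3⟩
    · refine mem_iUnion.2 ⟨some t.re, ?_, h3⟩
      show t ∈ ball ((t.re:ℂ) + H * I) ε
      rw [mem_ball, dist_eq_norm]
      have e1 : t - (t.re + H * I) = ((t.im - H : ℝ) : ℂ) * I := by
        apply Complex.ext <;> simp
      rw [e1, norm_mul, norm_I, mul_one, norm_real, Real.norm_eq_abs, abs_lt]
      have := h2.2
      constructor <;> linarith
  · rintro ⟨t, ρ⟩ ⟨h2, h3⟩
    have h4 : t.im < c := h2.2.trans_le (min_le_left _ _)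
    have h5 : ((t, ρ) : ℂ × ℂ) ∈ St (-c) (H - ε / 2) ×ˢ ball (ρ₀:ℂ) ε' :=
      ⟨⟨h2.1, by linarith⟩, h3⟩
    exact (hWe none _ h5).trans (hE.eqG _ ⟨⟨h2.1, h4⟩, hb1 (hε'1 h3)⟩)


/-- the choice of the steps -/
private lemma pk_steps {R : ℝ → Prop} {a η ρ₀ : ℝ} (hρ : 0 < ρ₀) (hρη : ρ₀ ≤ η)
    (hper : ∀ x, R x → ∀ n : ℤ, R (x + n)) (hwin : ∀ x, |x - a| ≤ η → R x)
    (hs : ∃ s, ¬ R s) :
    ∃ (x₀ : ℝ) (M : ℕ), 2 ≤ M ∧ R (x₀ - ρ₀) ∧ R x₀ ∧ ¬ R (x₀ + ρ₀) ∧ R (x₀ + M * ρ₀) ∧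
      R (x₀ + (M + 1) * ρ₀) := by
  obtain ⟨s, hs⟩ := hs
  have hwin' : ∀ (n : ℤ) (x : ℝ), |x - (a + n)| ≤ ρ₀ → R x := by
    intro n x hx
    have h1 := hper (x - n) (hwin (x - n) (by
      have : x - n - a = x - (a + n) := by ring
      rw [this]
      exact hx.trans hρη)) n
    rwa [sub_add_cancel] at h1
  have hex : ∃ j : ℕ, 1 ≤ j ∧ R (s - j * ρ₀) ∧ R (s - (j + 1) * ρ₀) := by
    set n : ℤ := ⌊s - a - 2 * ρ₀⌋ with hn
    have h1 : (n:ℝ) ≤ s - a - 2 * ρ₀ := Int.floor_le _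
    set y := s - (a + n) with hy
    have hy2 : 2 * ρ₀ ≤ y := by rw [hy]; linarith
    set j : ℕ := ⌊y / ρ₀⌋₊ with hj
    have h2 : (j:ℝ) ≤ y / ρ₀ := Nat.floor_le (div_nonneg (by linarith) hρ.le)
    have h3 : y / ρ₀ < j + 1 := Nat.lt_floor_add_one _
    rw [le_div_iff₀ hρ] at h2
    rw [div_lt_iff₀ hρ] at h3
    have h4 : 1 ≤ j := by
      rw [hj, Nat.one_le_floor_iff, le_div_iff₀ hρ]
      linarith
    refine ⟨j, h4, hwin' n _ ?_, hwin' n _ ?_⟩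
    · rw [abs_le]
      constructor <;> nlinarith
    · rw [abs_le]
      constructor <;> nlinarith
  classical
  obtain ⟨h1, h2, h3⟩ := Nat.find_spec hex
  set j := Nat.find hex with hj
  set x₀ := s - j * ρ₀ with hx₀
  have h4 : ¬ R (x₀ + ρ₀) := by
    intro h5
    rcases Nat.eq_or_lt_of_le h1 with h6 | h6
    · apply hs
      have : x₀ + ρ₀ = s := by
        rw [hx₀, ← h6]
        push_cast
        ring
      rwa [this] at h5
    · have h7 := Nat.find_min hex (m := j - 1) (by omega)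
      apply h7
      have h8 : ((j - 1 : ℕ) : ℝ) = j - 1 := by
        rw [Nat.cast_sub h1]
        simp
      refine ⟨by omega, ?_, ?_⟩
      · rw [h8]
        have : s - ((j:ℝ) - 1) * ρ₀ = x₀ + ρ₀ := by rw [hx₀]; ring
        rwa [this]
      · rw [h8]
        have : s - ((j:ℝ) - 1 + 1) * ρ₀ = x₀ := by rw [hx₀]; ring
        rwa [this]
  have h5 : R (x₀ - ρ₀) := by
    have : x₀ - ρ₀ = s - (j + 1) * ρ₀ := by rw [hx₀]; ring
    rwa [this]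
  set n : ℤ := ⌈x₀ + 3 * ρ₀ - a⌉ with hn
  have h6 : x₀ + 3 * ρ₀ - a ≤ n := Int.le_ceil _
  set y := a + n - x₀ with hy
  have hy2 : 3 * ρ₀ ≤ y := by rw [hy]; linarith
  set M : ℕ := ⌊y / ρ₀⌋₊ with hM
  have h7 : (M:ℝ) ≤ y / ρ₀ := Nat.floor_le (div_nonneg (by linarith) hρ.le)
  have h8 : y / ρ₀ < M + 1 := Nat.lt_floor_add_one _
  have h9 : 2 ≤ M := by
    rw [hM]
    apply Nat.le_floor
    rw [le_div_iff₀ hρ]
    push_cast
    linarith
  rw [le_div_iff₀ hρ] at h7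
  rw [div_lt_iff₀ hρ] at h8
  refine ⟨x₀, M, h9, h5, h2, h4, hwin' n _ ?_, hwin' n _ ?_⟩
  · rw [abs_le]
    constructor <;> nlinarith
  · rw [abs_le]
    constructor <;> nlinarith

/-- if the kick is regular then the next point is regular -/
private lemma pk_next (hE : ConE k F c h G) (hT : PkTop F c H ρ₀) {x₀ r : ℝ} (hr : 0 < r)
    {X₀ X₁ g : ℂ × ℂ → ℂ} (h0 : Mer X₀ (ball ((x₀:ℂ) + H * I) r ×ˢ ball (ρ₀ : ℂ) r))
    (h1 : Mer X₁ (ball ((x₀:ℂ) + H * I) r ×ˢ ball (ρ₀ : ℂ) r))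
    (hg : Mer g (ball ((x₀:ℂ) + H * I) r ×ˢ ball (ρ₀ : ℂ) r))
    (e0 : ∀ η : ℝ, 0 < η → η < r →
      EqM X₀ (fun q => G (q.1 - q.2, q.2)) ((x₀:ℂ) + H * I - η * I, (ρ₀:ℂ)))
    (e1 : ∀ η : ℝ, 0 < η → η < r → EqM X₁ G ((x₀:ℂ) + H * I - η * I, (ρ₀:ℂ)))
    (eg : ∀ η : ℝ, 0 < η → η < r → EqM g (KF G) ((x₀:ℂ) + H * I - η * I, (ρ₀:ℂ))) :
    ∃ ε > 0, PkR F G c H ρ₀ ε (x₀ + ρ₀) := by
  have hHpos : 0 < H := hE.pos.trans hT.hcH
  set Y : ℂ × ℂ → ℂ := fun q => X₁ q + (g q - (X₀ q - X₁ q)⁻¹)⁻¹ with hY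
  have hYm : Mer Y (ball ((x₀:ℂ) + H * I) r ×ˢ ball (ρ₀ : ℂ) r) := fun p hp =>
    (h1 p hp).add ((hg p hp).sub ((h0 p hp).sub (h1 p hp)).inv).inv
  have hd : Differentiable ℂ (fun z : ℂ => -z) := differentiable_id.neg
  set η₁ := min (r / 4) (H / 2) with hη₁
  have hη₁0 : 0 < η₁ := lt_min (by positivity) (by positivity)
  have hη₁r : η₁ ≤ r / 4 := min_le_left _ _
  have hη₁H : η₁ ≤ H / 2 := min_le_right _ _
  have hYe : EqM Y (fun q => G (q.1 + q.2, q.2)) ((x₀:ℂ) + H * I - η₁ * I, (ρ₀:ℂ)) := by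
    have a0 := e0 η₁ hη₁0 (by linarith)
    have a1 := e1 η₁ hη₁0 (by linarith)
    have ag := eg η₁ hη₁0 (by linarith)
    have b1 := (EqM.map₂ (fun a b => a - b) a0 a1).map (fun z => z⁻¹)
    have b2 := (EqM.map₂ (fun a b => a - b) ag b1).map (fun z => z⁻¹)
    have b3 := EqM.map₂ (fun a b => a + b) a1 b2
    refine EqM.trans b3 (EqM.of_eventuallyEq (Eventually.of_forall fun q => ?_))
    show G q + (KF G q - (G (q.1 - q.2, q.2) - G q)⁻¹)⁻¹ = G (q.1 + q.2, q.2)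
    unfold KF
    rw [add_sub_cancel_right, inv_inv]
    ring
  refine pk_strong hE hT (x := x₀ + ρ₀) (ε := r / 2) (η₁ := η₁) (g := fun q => Y (q.1 + -q.2, q.2))
    (by positivity) hη₁0 (by linarith) (by linarith) ?_ ?_
  · rintro p ⟨hp1, hp2⟩
    refine MerAt.shift (h := fun z => -z) hd (hYm _ ⟨?_, ball_subset_ball (by linarith) hp2⟩)
    show p.1 + -p.2 ∈ ball ((x₀:ℂ) + H * I) r
    rw [mem_ball, dist_eq_norm] at hp1 hp2 ⊢
    have e : p.1 + -p.2 - ((x₀:ℂ) + H * I) =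
        (p.1 - (((x₀ + ρ₀ : ℝ) : ℂ) + H * I)) - (p.2 - ρ₀) := by
      push_cast
      ring
    rw [e]
    refine (norm_sub_le _ _).trans_lt ?_
    linarith
  · have h2 : EqM Y (fun q => G (q.1 + q.2, q.2))
        ((((x₀ + ρ₀ : ℝ) : ℂ) + H * I - η₁ * I) + -(ρ₀:ℂ), (ρ₀:ℂ)) := by
      have e : ((((x₀ + ρ₀ : ℝ) : ℂ) + H * I - η₁ * I) + -(ρ₀:ℂ)) = (x₀:ℂ) + H * I - η₁ * I := by
        push_cast
        ring
      rw [e]
      exact hYe
    have h3 := EqM.shift (h := fun z => -z) hd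
      (p := (((x₀ + ρ₀ : ℝ) : ℂ) + H * I - η₁ * I, (ρ₀:ℂ))) h2
    refine h3.trans (EqM.of_eventuallyEq (Eventually.of_forall fun q => ?_))
    show G (q.1 + -q.2 + q.2, q.2) = G q
    rw [neg_add_cancel_right]

/-- **Choice of a segment, real parameter.** The end of the proof of `exists_pick` (NB1/Pick.lean), for a
given real `ρ₀` whose height `H` is larger than `c`: copy the private lemmas `PkTop`, `PkR`, `pk_*` and
the second half of `exists_pick` (from `pk_steps` on), `hwin` gives `PkR` at the points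
`|x - a| ≤ η` by `pk_strong`. (In the original `ρ₀` comes from `exists_rho` and the window from
`pk_window`.) -/
theorem exists_pick_real {k : ℂ → ℂ} {F G : ℂ × ℂ → ℂ} {c h H ρ₀ a η : ℝ} (hE : ConE k F c h G)
    (hcH : c < H) (hρ : 0 < ρ₀) (hmem : (ρ₀ : ℂ) ∈ ball (0:ℂ) (c / 4))
    (hext : ∀ y < H, ExtM F c (c / 4) y ρ₀) (hno : ¬ ∃ y > H, ExtM F c (c / 4) y ρ₀)
    (hη : ρ₀ ≤ η)
    (hwin : ∀ x : ℝ, |x - a| ≤ η → ∃ (ε η₁ : ℝ) (g : ℂ × ℂ → ℂ), 0 < ε ∧ 0 < η₁ ∧ η₁ < ε ∧ η₁ < H ∧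
      Mer g (ball ((x:ℂ) + H * I) ε ×ˢ ball (ρ₀ : ℂ) ε) ∧
      EqM g G ((x:ℂ) + H * I - η₁ * I, (ρ₀:ℂ))) :
    ∃ (M : ℕ) (d r : ℝ) (tp : ℂ) (X : ℕ → ℂ × ℂ → ℂ), Pick F G c M d ρ₀ r tp X := by
  have hc := hE.pos
  have hρ0 := hρ
  have hT : PkTop F c H ρ₀ := ⟨hcH, hρ, hmem, hext, hno⟩
  have hρc : ρ₀ < c / 4 := by
    rw [mem_ball_zero_iff, norm_real, Real.norm_of_nonneg hρ.le] at hmem
    exact hmem
  have hHpos : 0 < H := hc.trans hT.hcH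
  obtain ⟨x₀, M, hM, hRm, hR0, hRp, hRM, hRM1⟩ := pk_steps (R := fun x => ∃ ε > 0,
    PkR F G c H ρ₀ ε x) (a := a) (η := η) hρ0 hη
    (by
      rintro x ⟨ε, hε, h1⟩ n
      exact ⟨ε, hε, h1.add_int hE n⟩)
    (fun x hx => by
      obtain ⟨ε, η₁, g, h1, h2, h3, h4, h5, h6⟩ := hwin x hx
      exact pk_strong hE hT h1 h2 h3 h4 h5 h6)
    (by
      obtain ⟨x, hx⟩ := pk_not_all hE hT
      exact ⟨x, by
        rintro ⟨ε, hε, h1⟩
        exact hx ε hε h1⟩)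
  -- a common radius
  obtain ⟨εa, hεa, ha⟩ := hRm
  obtain ⟨εb, hεb, hb'⟩ := hR0
  obtain ⟨εc, hεc, hc'⟩ := hRM
  obtain ⟨εd, hεd, hd'⟩ := hRM1
  set ε := min (min εa εb) (min εc εd) with hε
  have hε0 : 0 < ε := lt_min (lt_min hεa hεb) (lt_min hεc hεd)
  have hR : ∀ i : ℕ, (i = 0 ∨ i = 1 ∨ i = M + 1 ∨ i = M + 2) →
      PkR F G c H ρ₀ ε (x₀ + ((i:ℝ) - 1) * ρ₀) := by
    rintro i (rfl | rfl | rfl | rfl)
    · have e : x₀ + (((0:ℕ):ℝ) - 1) * ρ₀ = x₀ - ρ₀ := by push_cast; ring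
      rw [e]
      exact ha.mono ((min_le_left _ _).trans (min_le_left _ _))
    · have e : x₀ + (((1:ℕ):ℝ) - 1) * ρ₀ = x₀ := by push_cast; ring
      rw [e]
      exact hb'.mono ((min_le_left _ _).trans (min_le_right _ _))
    · have e : x₀ + (((M + 1 : ℕ):ℝ) - 1) * ρ₀ = x₀ + M * ρ₀ := by push_cast; ring
      rw [e]
      exact hc'.mono ((min_le_right _ _).trans (min_le_left _ _))
    · have e : x₀ + (((M + 2 : ℕ):ℝ) - 1) * ρ₀ = x₀ + (M + 1) * ρ₀ := by push_cast; ring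
      rw [e]
      exact hd'.mono ((min_le_right _ _).trans (min_le_right _ _))
  have hch : ∀ i : ℕ, ∃ g : ℂ × ℂ → ℂ, (i = 0 ∨ i = 1 ∨ i = M + 1 ∨ i = M + 2) →
      Mer g (ball (((x₀ + ((i:ℝ) - 1) * ρ₀ : ℝ):ℂ) + H * I) ε ×ˢ ball (ρ₀ : ℂ) ε) ∧
      ∀ p ∈ (ball (((x₀ + ((i:ℝ) - 1) * ρ₀ : ℝ):ℂ) + H * I) ε ×ˢ ball (ρ₀ : ℂ) ε) ∩
        DF F c (c / 4), EqM g G p := by
    intro i
    by_cases hi : i = 0 ∨ i = 1 ∨ i = M + 1 ∨ i = M + 2
    · obtain ⟨g, hg⟩ := hR i hi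
      exact ⟨g, fun _ => hg⟩
    · exact ⟨fun _ => 0, fun h => absurd h hi⟩
  choose gg hgg using hch
  have hMpos : (0:ℝ) < M + 3 := by positivity
  set d : ℝ := c / (4 * (M + 2)) with hd
  have hM2 : (0:ℝ) < M + 2 := by positivity
  have hd0 : 0 < d := by positivity
  set r := min (ε / (M + 3)) (min (d / 2) (min (H / 2) (c / 4 - ρ₀))) with hr
  have hr0 : 0 < r := lt_min (by positivity) (lt_min (by positivity) (lt_min (by positivity)
    (by linarith)))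
  have hr1 : r ≤ ε / (M + 3) := min_le_left _ _
  have hr2 : r ≤ d / 2 := (min_le_right _ _).trans (min_le_left _ _)
  have hr3 : r ≤ H / 2 := (min_le_right _ _).trans ((min_le_right _ _).trans (min_le_left _ _))
  have hr4 : r ≤ c / 4 - ρ₀ := (min_le_right _ _).trans ((min_le_right _ _).trans (min_le_right _ _))
  have hrε : (M + 3) * r ≤ ε := by
    rw [le_div_iff₀ hMpos] at hr1
    linarith
  have hrε' : r ≤ ε := by
    have : (0:ℝ) ≤ M := by positivity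
    nlinarith
  set tp : ℂ := (x₀:ℂ) + H * I with htp
  have htpim : tp.im = H := by simp [htp]
  have hni : ∀ i : ℕ, (i = 0 ∨ i = 1 ∨ i = M + 1 ∨ i = M + 2) → ‖(i:ℂ) - 1‖ ≤ M + 1 := by
    have hM0 : (0:ℝ) ≤ M := by positivity
    rintro i (rfl | rfl | rfl | rfl)
    · simp
    · simp
      linarith
    · have : ((M + 1 : ℕ) : ℂ) - 1 = ((M:ℝ):ℂ) := by push_cast; ring
      rw [this, norm_real, Real.norm_of_nonneg hM0]
      linarith
    · have : ((M + 2 : ℕ) : ℂ) - 1 = ((M + 1 : ℝ):ℂ) := by push_cast; ring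
      rw [this, norm_real, Real.norm_of_nonneg (by linarith)]
  have hmv : ∀ i : ℕ, (i = 0 ∨ i = 1 ∨ i = M + 1 ∨ i = M + 2) → ∀ p : ℂ × ℂ,
      p ∈ ball tp r ×ˢ ball (ρ₀ : ℂ) r → (p.1 + ((i:ℂ) - 1) * p.2, p.2) ∈
        ball (((x₀ + ((i:ℝ) - 1) * ρ₀ : ℝ):ℂ) + H * I) ε ×ˢ ball (ρ₀ : ℂ) ε := by
    rintro i hi p ⟨hp1, hp2⟩
    refine ⟨?_, ball_subset_ball hrε' hp2⟩
    show p.1 + ((i:ℂ) - 1) * p.2 ∈ ball (((x₀ + ((i:ℝ) - 1) * ρ₀ : ℝ):ℂ) + H * I) ε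
    rw [mem_ball, dist_eq_norm] at hp1 hp2 ⊢
    have e : p.1 + ((i:ℂ) - 1) * p.2 - (((x₀ + ((i:ℝ) - 1) * ρ₀ : ℝ):ℂ) + H * I) =
        (p.1 - tp) + ((i:ℂ) - 1) * (p.2 - ρ₀) := by
      rw [htp]
      push_cast
      ring
    rw [e]
    refine (norm_add_le _ _).trans_lt ?_
    rw [norm_mul]
    have h1 : ‖(i:ℂ) - 1‖ * ‖p.2 - ρ₀‖ ≤ (M + 1) * r :=
      mul_le_mul (hni i hi) hp2.le (norm_nonneg _) (by positivity)
    linarith
  set X : ℕ → ℂ × ℂ → ℂ := fun i q => gg i (q.1 + ((i:ℂ) - 1) * q.2, q.2) with hX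
  have hdi : ∀ i : ℕ, Differentiable ℂ (fun z : ℂ => ((i:ℂ) - 1) * z) := fun i => by fun_prop
  have hXmer : ∀ i, (i = 0 ∨ i = 1 ∨ i = M + 1 ∨ i = M + 2) →
      Mer (X i) (ball tp r ×ˢ ball (ρ₀ : ℂ) r) := fun i hi p hp =>
    MerAt.shift (h := fun z => ((i:ℂ) - 1) * z) (hdi i) ((hgg i hi).1 _ (hmv i hi p hp))
  have hXeq : ∀ i, (i = 0 ∨ i = 1 ∨ i = M + 1 ∨ i = M + 2) →
      ∀ p ∈ (ball tp r ×ˢ ball (ρ₀ : ℂ) r) ∩ DP F c M d,
        EqM (X i) (fun q => G (q.1 + ((i : ℂ) - 1) * q.2, q.2)) p := by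
    rintro i hi p ⟨hp1, hp2⟩
    have h1 := hp2.2 ((i:ℤ) - 1) (by omega) (by
      rcases hi with h | h | h | h <;> rw [h] <;> push_cast <;> omega)
    have h2 : (((i:ℤ) - 1 : ℤ) : ℂ) = (i:ℂ) - 1 := by push_cast; ring
    rw [h2] at h1
    exact EqM.shift (h := fun z => ((i:ℂ) - 1) * z) (hdi i) ((hgg i hi).2 _ ⟨hmv i hi p hp1, h1⟩)
  have hlow : ∀ η : ℝ, 0 < η → η < r → (tp - η * I, (ρ₀ : ℂ)) ∈ DP F c M d := by
    intro η hη1 hη2
    refine ⟨?_, fun j _ _ => ?_⟩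
    · show |(ρ₀:ℂ).im| < d
      rw [ofReal_im, abs_zero]
      exact hd0
    · apply pk_df hT
      have : (tp - η * I + (j:ℂ) * (ρ₀:ℂ)).im = H - η := by
        simp [htpim]
      rw [this, abs_lt]
      constructor <;> linarith
  refine ⟨M, d, r, tp, X, hM, hd0, ?_, hr0, by linarith, by rw [htpim]; linarith, hρ0, ?_,
    hXmer, hXeq, hlow, ?_⟩
  · rw [hd]
    have : ((M:ℝ) + 2) * (c / (4 * (M + 2))) = c / 4 := by
      field_simp
    rw [this]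
    linarith
  · apply ball_subset_ball'
    rw [dist_zero_right, norm_real, Real.norm_of_nonneg hρ0.le]
    linarith
  · rintro ⟨δ, hδ, g, hg, hgK⟩
    apply hRp
    have hrδ : 0 < min r δ := lt_min hr0 hδ
    have hb1 : ball tp (min r δ) ×ˢ ball (ρ₀:ℂ) (min r δ) ⊆ ball tp r ×ˢ ball (ρ₀:ℂ) r :=
      prod_mono (ball_subset_ball (min_le_left _ _)) (ball_subset_ball (min_le_left _ _))
    have hb2 : ball tp (min r δ) ×ˢ ball (ρ₀:ℂ) (min r δ) ⊆ ball tp δ ×ˢ ball (ρ₀:ℂ) δ :=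
      prod_mono (ball_subset_ball (min_le_right _ _)) (ball_subset_ball (min_le_right _ _))
    have hin : ∀ η : ℝ, 0 < η → η < min r δ →
        (tp - η * I, (ρ₀:ℂ)) ∈ ball tp (min r δ) ×ˢ ball (ρ₀:ℂ) (min r δ) := by
      intro η hη1 hη2
      refine ⟨?_, mem_ball_self hrδ⟩
      show tp - η * I ∈ ball tp (min r δ)
      rw [mem_ball, dist_eq_norm]
      have : tp - η * I - tp = -(η * I) := by ring
      rw [this, norm_neg, norm_mul, norm_I, mul_one, norm_real, Real.norm_of_nonneg hη1.le]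
      exact hη2
    refine pk_next hE hT hrδ ((hXmer 0 (Or.inl rfl)).mono hb1)
      ((hXmer 1 (Or.inr (Or.inl rfl))).mono hb1) (hg.mono hb2) ?_ ?_ ?_
    · intro η hη1 hη2
      have h1 := hXeq 0 (Or.inl rfl) _ ⟨hb1 (hin η hη1 hη2),
        hlow η hη1 (hη2.trans_le (min_le_left _ _))⟩
      refine h1.trans (EqM.of_eventuallyEq (Eventually.of_forall fun q => ?_))
      show G (q.1 + (((0:ℕ):ℂ) - 1) * q.2, q.2) = G (q.1 - q.2, q.2)
      congr 2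
      push_cast
      ring
    · intro η hη1 hη2
      have h1 := hXeq 1 (Or.inr (Or.inl rfl)) _ ⟨hb1 (hin η hη1 hη2),
        hlow η hη1 (hη2.trans_le (min_le_left _ _))⟩
      refine h1.trans (EqM.of_eventuallyEq (Eventually.of_forall fun q => ?_))
      show G (q.1 + (((1:ℕ):ℂ) - 1) * q.2, q.2) = G q
      have : q.1 + (((1:ℕ):ℂ) - 1) * q.2 = q.1 := by
        push_cast
        ring
      rw [this]
    · intro η hη1 hη2
      exact hgK _ ⟨hb2 (hin η hη1 hη2), hlow η hη1 (hη2.trans_le (min_le_left _ _))⟩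

end Pool.Agent.MP_ae5b4e_an_NB5
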