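import Pool.Agent.Lib.MP_ae5b4e_an_NB5.RectT
import Pool.Agent.Lib.SCV.Osgood

/-!
# MP_ae5b4e_an, project NB_5(A): interpolation between the imaginary parameters
-/

noncomputable section

namespace Pool.Agent.MP_ae5b4e_an_NB5

open Complex Set Filter Topology Metric
open Pool.Agent.MP_ae5b4e_an_NBT (St)
open Pool.Agent.MP_ae5b4e_an_NB2 (Sys)
open scoped ComplexConjugate

/-- All derivatives in the first variable are jointly analytic. -/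
private theorem iter_an (U : Set (ℂ × ℂ)) (hU : IsOpen U) (n : ℕ) :
    ∀ F : ℂ × ℂ → ℂ, AnalyticOnNhd ℂ F U →
      AnalyticOnNhd ℂ (fun p : ℂ × ℂ => iteratedDeriv n (fun χ => F (χ, p.2)) p.1) U := by
  induction n with
  | zero =>
    intro F hF
    simpa only [iteratedDeriv_zero] using hF
  | succ n ih =>
    intro F hF
    have h1 : AnalyticOnNhd ℂ (fun p : ℂ × ℂ => deriv (fun χ => F (χ, p.2)) p.1) U := by
      have h2 : AnalyticOnNhd ℂ (fun p : ℂ × ℂ => fderiv ℂ F p ((1:ℂ), (0:ℂ))) U := by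
        intro p hp
        have h3 := (hF p hp).fderiv
        have h4 : AnalyticAt ℂ (fun L : (ℂ × ℂ) →L[ℂ] ℂ => L ((1:ℂ), (0:ℂ))) (fderiv ℂ F p) :=
          (ContinuousLinearMap.apply ℂ ℂ ((1:ℂ), (0:ℂ))).analyticAt _
        exact AnalyticAt.fun_comp h4 h3
      refine h2.congr hU ?_
      intro p hp
      have h3 : HasFDerivAt F (fderiv ℂ F p) (p.1, p.2) := (hF p hp).differentiableAt.hasFDerivAt
      have h4 : HasDerivAt (fun χ : ℂ => (χ, p.2)) ((1:ℂ), (0:ℂ)) p.1 :=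
        (hasDerivAt_id p.1).prodMk (hasDerivAt_const p.1 p.2)
      have h5 := h3.comp_hasDerivAt p.1 h4
      exact h5.deriv.symm
    have h2 := ih _ h1
    simp only [iteratedDeriv_succ']
    exact h2

/-- The parameters. -/
private theorem param {r₀ r₁ r₂ K θ' : ℝ} (h0 : 0 < r₀) (h02 : r₀ < r₂) (h21 : r₂ < r₁)
    (hK : 1 ≤ K) (hθ' : 0 < θ') :
    ∃ ρ ℓ θ δ : ℝ, r₂ < ρ ∧ ρ < r₁ ∧ 1 ≤ ℓ ∧ 0 < θ ∧ θ ≤ 1 ∧ 0 < δ ∧ δ * (1 - r₂ / ρ)⁻¹ ≤ θ' ∧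
      ∀ w : ℂ, ‖w‖ < 1 / 2 → ∀ n : ℕ, θ / r₁ ^ n * (2 * K / r₀ ^ n / (θ / r₁ ^ n)) ^
        (Real.cosh (w.re / 2) * Real.cos (w.im / 2) / (Real.cosh (ℓ / 2) * Real.cos (Real.pi / 4)))
        ≤ δ / ρ ^ n := by
  have hr2 : 0 < r₂ := h0.trans h02
  have hr1 : 0 < r₁ := hr2.trans h21
  obtain ⟨ρ, hρ2, hρ1⟩ := exists_between h21
  have hρ : 0 < ρ := hr2.trans hρ2
  have hl1 : 0 < Real.log (r₁ / ρ) := Real.log_pos (by rw [lt_div_iff₀ hρ]; linarith)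
  have h01 : 1 < r₁ / r₀ := by rw [lt_div_iff₀ h0]; linarith
  have hl2 : 0 < Real.log (r₁ / r₀) := Real.log_pos h01
  set ε : ℝ := min (1 / 2) (Real.log (r₁ / ρ) / Real.log (r₁ / r₀)) with hε
  have hε0 : 0 < ε := lt_min (by norm_num) (div_pos hl1 hl2)
  have hε1 : ε ≤ 1 / 2 := min_le_left _ _
  have hε2 : (r₁ / r₀) ^ ε ≤ r₁ / ρ := by
    have h1 : ε * Real.log (r₁ / r₀) ≤ Real.log (r₁ / ρ) := by
      have h2 : ε ≤ Real.log (r₁ / ρ) / Real.log (r₁ / r₀) := min_le_right _ _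
      rwa [le_div_iff₀ hl2] at h2
    rw [Real.rpow_def_of_pos (by positivity)]
    calc Real.exp (Real.log (r₁ / r₀) * ε) ≤ Real.exp (Real.log (r₁ / ρ)) :=
          Real.exp_le_exp.2 (by linarith [mul_comm (Real.log (r₁ / r₀)) ε])
      _ = r₁ / ρ := Real.exp_log (by positivity)
  set δ : ℝ := θ' * (1 - r₂ / ρ) with hδ
  have hq : r₂ / ρ < 1 := (div_lt_one hρ).2 hρ2
  have hδ0 : 0 < δ := mul_pos hθ' (by linarith)
  have hK0 : 0 < 2 * K := by linarith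
  set θ : ℝ := min 1 (δ ^ 2 / (2 * K)) with hθ
  have hθ0 : 0 < θ := lt_min one_pos (by positivity)
  have hθ1 : θ ≤ 1 := min_le_left _ _
  have hθ2 : 2 * K * θ ≤ δ ^ 2 := by
    have h2 : θ ≤ δ ^ 2 / (2 * K) := min_le_right _ _
    rw [le_div_iff₀ hK0] at h2
    linarith
  refine ⟨ρ, max 1 (4 / ε), θ, δ, hρ2, hρ1, le_max_left _ _, hθ0, hθ1, hδ0, ?_, ?_⟩
  · rw [hδ, mul_assoc, mul_inv_cancel₀ (by linarith : (1 : ℝ) - r₂ / ρ ≠ 0), mul_one]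
  intro w hw n
  set ℓ : ℝ := max 1 (4 / ε) with hℓ
  have hℓ1 : 4 / ε ≤ ℓ := le_max_right _ _
  have hcosh : 2 / ε ≤ Real.cosh (ℓ / 2) := by
    have h1 : ℓ / 2 ≤ Real.sinh (ℓ / 2) :=
      Real.self_le_sinh_iff.2 (by have : (1:ℝ) ≤ ℓ := le_max_left _ _; linarith)
    have h2 := (Real.sinh_lt_cosh (ℓ / 2)).le
    have h3 : 2 / ε = 4 / ε / 2 := by ring
    linarith
  set ω : ℝ := Real.cosh (w.re / 2) * Real.cos (w.im / 2) /
    (Real.cosh (ℓ / 2) * Real.cos (Real.pi / 4)) with hω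
  have hωε : ω ≤ ε := by
    have hre : |w.re| < 1 / 2 := (abs_re_le_norm w).trans_lt hw
    have h1 : Real.cosh (w.re / 2) ≤ 1.4 := by
      refine (Real.cosh_le_exp_half_sq _).trans ?_
      have h2 : (w.re / 2) ^ 2 / 2 ≤ 1 / 32 := by
        have h3 := abs_lt.1 hre
        nlinarith [h3.1, h3.2]
      have h3 : Real.exp (1 / 32) ≤ 1 / (1 - 1 / 32) := Real.exp_bound_div_one_sub_of_interval (by norm_num) (by norm_num)
      calc Real.exp ((w.re / 2) ^ 2 / 2) ≤ Real.exp (1 / 32) := Real.exp_le_exp.2 h2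
        _ ≤ 1 / (1 - 1 / 32) := h3
        _ ≤ 1.4 := by norm_num
    have h4 : Real.cosh (w.re / 2) * Real.cos (w.im / 2) ≤ 1.4 := by
      have h5 := Real.cos_le_one (w.im / 2)
      have h6 := (Real.cosh_pos (w.re / 2)).le
      nlinarith
    have h7 : 0.7 ≤ Real.cos (Real.pi / 4) := by
      rw [Real.cos_pi_div_four]
      have h8 : 1.4 ≤ Real.sqrt 2 := Real.le_sqrt_of_sq_le (by norm_num)
      linarith
    have h9 : 1.4 / ε ≤ Real.cosh (ℓ / 2) * Real.cos (Real.pi / 4) := by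
      calc 1.4 / ε = 2 / ε * 0.7 := by ring
        _ ≤ Real.cosh (ℓ / 2) * Real.cos (Real.pi / 4) :=
          mul_le_mul hcosh h7 (by norm_num) (Real.cosh_pos _).le
    rw [hω, div_le_iff₀ (lt_of_lt_of_le (by positivity) h9)]
    rw [div_le_iff₀ hε0] at h9
    linarith
  have hbase : 2 * K / r₀ ^ n / (θ / r₁ ^ n) = 2 * K / θ * (r₁ / r₀) ^ n := by
    rw [div_pow]
    field_simp
  have hb1 : 1 ≤ 2 * K / θ := by
    rw [le_div_iff₀ hθ0]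
    linarith
  have hb2 : 1 ≤ (r₁ / r₀) ^ n := one_le_pow₀ h01.le
  rw [hbase]
  have hb3 : 1 ≤ 2 * K / θ * (r₁ / r₀) ^ n := by nlinarith
  have h1 : (2 * K / θ * (r₁ / r₀) ^ n) ^ ω ≤ (2 * K / θ) ^ (1 / 2 : ℝ) * (r₁ / ρ) ^ n := by
    calc (2 * K / θ * (r₁ / r₀) ^ n) ^ ω ≤ (2 * K / θ * (r₁ / r₀) ^ n) ^ ε :=
          Real.rpow_le_rpow_of_exponent_le hb3 hωε
      _ = (2 * K / θ) ^ ε * ((r₁ / r₀) ^ n) ^ ε := Real.mul_rpow (by positivity) (by positivity)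
      _ = (2 * K / θ) ^ ε * ((r₁ / r₀) ^ ε) ^ n := by
          rw [← Real.rpow_natCast, ← Real.rpow_mul (by positivity), mul_comm (n : ℝ) ε,
            Real.rpow_mul (by positivity), Real.rpow_natCast]
      _ ≤ (2 * K / θ) ^ (1 / 2 : ℝ) * (r₁ / ρ) ^ n := by
          apply mul_le_mul
          · exact Real.rpow_le_rpow_of_exponent_le hb1 hε1
          · exact pow_le_pow_left₀ (by positivity) hε2 n
          · positivity
          · positivity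
  have h2 : θ * (2 * K / θ) ^ (1 / 2 : ℝ) ≤ δ := by
    rw [← Real.sqrt_eq_rpow]
    have h3 : θ * Real.sqrt (2 * K / θ) = Real.sqrt (2 * K * θ) := by
      have h4 : 2 * K * θ = θ ^ 2 * (2 * K / θ) := by field_simp
      rw [h4, Real.sqrt_mul (by positivity), Real.sqrt_sq hθ0.le]
    rw [h3]
    exact Real.sqrt_le_iff.2 ⟨hδ0.le, hθ2⟩
  calc θ / r₁ ^ n * (2 * K / θ * (r₁ / r₀) ^ n) ^ ω
      ≤ θ / r₁ ^ n * ((2 * K / θ) ^ (1 / 2 : ℝ) * (r₁ / ρ) ^ n) :=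
        mul_le_mul_of_nonneg_left h1 (by positivity)
    _ = θ * (2 * K / θ) ^ (1 / 2 : ℝ) / ρ ^ n := by
        rw [div_pow]
        field_simp
    _ ≤ δ / ρ ^ n := div_le_div_of_nonneg_right h2 (by positivity)

/-- **Interpolation.** `a_n (w) = (2 π i)⁻¹ ∮ E (χ, w) χ ^ (-n-1) dχ` over `|χ| = r₀`: analytic in `w`,
`‖a_n (w)‖ ≤ K r₀ ^ (-n)`, and `E (χ, w) = ∑ a_n (w) χ ^ n` for `‖χ‖ < r₀` (even `< 2 r₀`). `e_n`: the Taylor
coefficients of `Eh`, `‖e_n‖ ≤ K r₁ ^ (-n)`. For `|Im w| = π/2`, `|Re w| ≤ ℓ`: `‖a_n (w) - e_n‖ ≤ θ r₁ ^ (-n)`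
(Cauchy estimate for `e - Eh` on circles of radius `r' → r₁`). In the rectangle
`‖a_n - e_n‖ ≤ 2 K r₀ ^ (-n)`. `rect_two` with `M₁ = θ r₁ ^ (-n)`, `M₂ = 2 K r₀ ^ (-n)`: for `‖w‖ < 1/2` the
exponent is at most `ω₀ = 2 / cosh (ℓ/2)`, so `‖a_n (w) - e_n‖ ≤ θ ^ (1 - ω₀) (2 K) ^ ω₀ (r₁ ^ (1 - ω₀)
r₀ ^ ω₀) ^ (-n)`. Choose `ℓ` so large that `ω₀ ≤ 1/2` and `r₃ = r₁ ^ (1 - ω₀) r₀ ^ ω₀ > √(r₁ r₂)`, then
`θ ≤ 1` so small that `√θ 2 K / (1 - √(r₂ / r₁)) ≤ θ'`. Then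
`Et (χ, w) = Eh χ + ∑ (a_n (w) - e_n) χ ^ n` converges uniformly on `ball 0 r₂ × ball 0 (1/2)`; it is
analytic (locally uniform limit of analytic functions of two variables), equal to `E` for `‖χ‖ < r₀`
(`r₀ < r₂`), and `‖Et - Eh‖ ≤ θ'`. -/
theorem plt {r₀ r₁ r₂ K θ' : ℝ} (h0 : 0 < r₀) (h02 : r₀ < r₂) (h21 : r₂ < r₁) (h1 : r₁ < 1)
    (hK : 1 ≤ K) (hθ' : 0 < θ') :
    ∃ ℓ θ : ℝ, 1 ≤ ℓ ∧ 0 < θ ∧ ∀ (E : ℂ × ℂ → ℂ) (Eh : ℂ → ℂ),
      AnalyticOnNhd ℂ E (ball (0:ℂ) (2 * r₀) ×ˢ {w : ℂ | |w.re| < ℓ + 1 ∧ |w.im| < 2}) →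
      (∀ p ∈ ball (0:ℂ) (2 * r₀) ×ˢ {w : ℂ | |w.re| < ℓ + 1 ∧ |w.im| < 2}, ‖E p‖ ≤ K) →
      AnalyticOnNhd ℂ Eh (ball 0 r₁) → (∀ χ ∈ ball (0:ℂ) r₁, ‖Eh χ‖ ≤ K) →
      (∀ w : ℂ, |w.re| ≤ ℓ → |w.im| = Real.pi / 2 → ∃ e : ℂ → ℂ, AnalyticOnNhd ℂ e (ball 0 r₁) ∧
        (∀ χ ∈ ball (0:ℂ) r₀, e χ = E (χ, w)) ∧ ∀ χ ∈ ball (0:ℂ) r₁, ‖e χ - Eh χ‖ ≤ θ) →
      ∃ Et : ℂ × ℂ → ℂ, AnalyticOnNhd ℂ Et (ball (0:ℂ) r₂ ×ˢ ball (0:ℂ) (1 / 2)) ∧
        (∀ p ∈ ball (0:ℂ) r₀ ×ˢ ball (0:ℂ) (1 / 2), Et p = E p) ∧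
        ∀ p ∈ ball (0:ℂ) r₂ ×ˢ ball (0:ℂ) (1 / 2), ‖Et p - Eh p.1‖ ≤ θ' := by
  classical
  obtain ⟨ρ, ℓ, θ, δ, hρ2, hρ1, hℓ, hθ, hθ1, hδ, hδθ, hpar⟩ := param h0 h02 h21 hK hθ'
  refine ⟨ℓ, θ, hℓ, hθ, fun E Eh hE hEK hEh hEhK hside => ?_⟩
  have hr2 : 0 < r₂ := h0.trans h02
  have hr1 : 0 < r₁ := hr2.trans h21
  have hρ : 0 < ρ := hr2.trans hρ2
  set R : Set ℂ := {w : ℂ | |w.re| < ℓ + 1 ∧ |w.im| < 2} with hR
  have hRo : IsOpen R := by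
    have e1 : IsOpen {w : ℂ | |w.re| < ℓ + 1} :=
      isOpen_lt (continuous_abs.comp Complex.continuous_re) continuous_const
    have e2 : IsOpen {w : ℂ | |w.im| < 2} :=
      isOpen_lt (continuous_abs.comp Complex.continuous_im) continuous_const
    exact e1.inter e2
  set rm : ℝ := min (2 * r₀) r₁ with hrm
  have hrm0 : r₀ < rm := lt_min (by linarith) (h02.trans h21)
  set U : Set (ℂ × ℂ) := ball (0:ℂ) rm ×ˢ R with hUdef
  have hUo : IsOpen U := isOpen_ball.prod hRo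
  set D : ℂ × ℂ → ℂ := fun p => E p - Eh p.1 with hD
  have hsub1 : ball (0:ℂ) rm ⊆ ball (0:ℂ) (2 * r₀) := ball_subset_ball (min_le_left _ _)
  have hsub2 : ball (0:ℂ) rm ⊆ ball (0:ℂ) r₁ := ball_subset_ball (min_le_right _ _)
  have hDan : AnalyticOnNhd ℂ D U := by
    intro p hp
    have e1 : AnalyticAt ℂ E p := hE p ⟨hsub1 hp.1, hp.2⟩
    have e2 : AnalyticAt ℂ Eh p.1 := hEh p.1 (hsub2 hp.1)
    exact e1.sub (AnalyticAt.fun_comp e2 analyticAt_fst)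
  have hDK : ∀ p ∈ U, ‖D p‖ ≤ 2 * K := by
    intro p hp
    have e1 := hEK p ⟨hsub1 hp.1, hp.2⟩
    have e2 := hEhK p.1 (hsub2 hp.1)
    have e3 := norm_sub_le (E p) (Eh p.1)
    simp only [hD]
    linarith
  have hDsl : ∀ w ∈ R, DifferentiableOn ℂ (fun χ => D (χ, w)) (ball 0 rm) := by
    intro w hw χ hχ
    have e1 := (hDan (χ, w) ⟨hχ, hw⟩).differentiableAt
    exact (DifferentiableAt.comp χ (g := D) (f := fun χ : ℂ => (χ, w)) e1
      (by fun_prop)).differentiableWithinAt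
  set A : ℕ → ℂ → ℂ := fun n w => ((n.factorial : ℕ) : ℂ)⁻¹ * iteratedDeriv n (fun χ => D (χ, w)) 0
    with hA
  have hAan : ∀ n, AnalyticOnNhd ℂ (A n) R := by
    intro n w hw
    have e1 := iter_an U hUo n D hDan ((0:ℂ), w) ⟨mem_ball_self (h0.trans hrm0), hw⟩
    have e2 : AnalyticAt ℂ (fun w : ℂ => ((0:ℂ), w)) w := analyticAt_const.prod analyticAt_id
    have e3 := AnalyticAt.fun_comp (f := fun w : ℂ => ((0:ℂ), w)) (x := w) e1 e2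
    exact analyticAt_const.mul e3
  have hfac : ∀ n : ℕ, (0:ℝ) < (n.factorial : ℝ) := fun n => by positivity
  have hAnorm : ∀ n w, ‖A n w‖ = (n.factorial : ℝ)⁻¹ * ‖iteratedDeriv n (fun χ => D (χ, w)) 0‖ := by
    intro n w
    simp only [hA]
    rw [norm_mul, norm_inv, Complex.norm_natCast]
  have hA1 : ∀ n, ∀ w ∈ R, ‖A n w‖ ≤ 2 * K / r₀ ^ n := by
    intro n w hw
    have e1 : DiffContOnCl ℂ (fun χ => D (χ, w)) (ball 0 r₀) :=
      DifferentiableOn.diffContOnCl_ball (hDsl w hw) (closedBall_subset_ball hrm0)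
    have e2 := Complex.norm_iteratedDeriv_le_of_forall_mem_sphere_norm_le n h0 e1 (C := 2 * K)
      (fun z hz => hDK (z, w) ⟨closedBall_subset_ball hrm0 (sphere_subset_closedBall hz), hw⟩)
    rw [hAnorm]
    have e3 := mul_le_mul_of_nonneg_left e2 (inv_pos.2 (hfac n)).le
    refine e3.trans (le_of_eq ?_)
    have := (hfac n).ne'
    field_simp
  have hsideR : ∀ w : ℂ, |w.re| ≤ ℓ → |w.im| ≤ Real.pi / 2 → w ∈ R := by
    intro w e1 e2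
    have e3 := Real.pi_lt_d2
    exact ⟨by linarith, by linarith⟩
  have hA2 : ∀ n, ∀ w : ℂ, |w.re| ≤ ℓ → |w.im| = Real.pi / 2 → ‖A n w‖ ≤ θ / r₁ ^ n := by
    intro n w hw1 hw2
    obtain ⟨e, he, heE, heθ⟩ := hside w hw1 hw2
    have f1 : (fun χ => D (χ, w)) =ᶠ[𝓝 (0:ℂ)] fun χ => e χ - Eh χ := by
      filter_upwards [ball_mem_nhds (0:ℂ) h0] with χ hχ
      simp only [hD, heE χ hχ]
    have f2 : iteratedDeriv n (fun χ => D (χ, w)) 0 = iteratedDeriv n (fun χ => e χ - Eh χ) 0 :=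
      f1.iteratedDeriv_eq n
    have f3 : ∀ r' : ℝ, 0 < r' → r' < r₁ → ‖A n w‖ ≤ θ / r' ^ n := by
      intro r' g1 g2
      have g3 : DifferentiableOn ℂ (fun χ => e χ - Eh χ) (ball 0 r₁) := by
        intro χ hχ
        exact ((he χ hχ).differentiableAt.sub (hEh χ hχ).differentiableAt).differentiableWithinAt
      have g4 := Complex.norm_iteratedDeriv_le_of_forall_mem_sphere_norm_le n g1
        (DifferentiableOn.diffContOnCl_ball g3 (closedBall_subset_ball g2)) (C := θ)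
        (fun z hz => heθ z (closedBall_subset_ball g2 (sphere_subset_closedBall hz)))
      rw [hAnorm, f2]
      have g5 := mul_le_mul_of_nonneg_left g4 (inv_pos.2 (hfac n)).le
      refine g5.trans (le_of_eq ?_)
      have := (hfac n).ne'
      field_simp
    have f4 : Tendsto (fun r' : ℝ => θ / r' ^ n) (𝓝[<] r₁) (𝓝 (θ / r₁ ^ n)) := by
      have g1 : ContinuousAt (fun r' : ℝ => θ / r' ^ n) r₁ :=
        continuousAt_const.div (continuousAt_id.pow n) (pow_ne_zero _ hr1.ne')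
      exact g1.tendsto.mono_left nhdsWithin_le_nhds
    refine ge_of_tendsto f4 ?_
    filter_upwards [Ioo_mem_nhdsLT hr1] with r' hr'
    exact f3 r' hr'.1 hr'.2
  have hA3 : ∀ n, ∀ w ∈ ball (0:ℂ) (1 / 2), ‖A n w‖ ≤ δ / ρ ^ n := by
    intro n w hw
    have hw' : ‖w‖ < 1 / 2 := mem_ball_zero_iff.1 hw
    have hre : |w.re| ≤ ℓ := (abs_re_le_norm w).trans (by linarith)
    have him : |w.im| ≤ Real.pi / 2 := (abs_im_le_norm w).trans (by linarith [Real.pi_gt_three])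
    have g1 : ContinuousOn (A n) {w : ℂ | |w.re| ≤ ℓ ∧ |w.im| ≤ Real.pi / 2} :=
      (hAan n).continuousOn.mono (fun z hz => hsideR z hz.1 hz.2)
    have g2 : DifferentiableOn ℂ (A n) {w : ℂ | |w.re| < ℓ ∧ |w.im| < Real.pi / 2} :=
      (hAan n).differentiableOn.mono (fun z hz => hsideR z hz.1.le hz.2.le)
    have g3 : θ / r₁ ^ n ≤ 2 * K / r₀ ^ n := by
      apply div_le_div₀ (by linarith) (by linarith) (by positivity)
      exact pow_le_pow_left₀ h0.le (h02.trans h21).le n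
    have g4 := rect_two (A := A n) (ℓ := ℓ) (M₁ := θ / r₁ ^ n) (M₂ := 2 * K / r₀ ^ n)
      (by linarith) (by positivity) g3 g1 g2 (hA2 n)
      (fun z e1 e2 => hA1 n z (hsideR z e1 e2)) hre him
    exact g4.trans (hpar w hw' n)
  have hballR : ball (0:ℂ) (1 / 2) ⊆ R := by
    intro w hw
    have hw' : ‖w‖ < 1 / 2 := mem_ball_zero_iff.1 hw
    exact hsideR w ((abs_re_le_norm w).trans (by linarith))
      ((abs_im_le_norm w).trans (by linarith [Real.pi_gt_three]))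
  set V : Set (ℂ × ℂ) := ball (0:ℂ) r₂ ×ˢ ball (0:ℂ) (1 / 2) with hV
  have hVo : IsOpen V := isOpen_ball.prod isOpen_ball
  have hbound : ∀ n, ∀ p ∈ V, ‖A n p.2 * p.1 ^ n‖ ≤ δ * (r₂ / ρ) ^ n := by
    intro n p hp
    have e1 := hA3 n p.2 hp.2
    have e2 : ‖p.1‖ ≤ r₂ := (mem_ball_zero_iff.1 hp.1).le
    rw [norm_mul, norm_pow]
    calc ‖A n p.2‖ * ‖p.1‖ ^ n ≤ δ / ρ ^ n * r₂ ^ n :=
          mul_le_mul e1 (pow_le_pow_left₀ (norm_nonneg _) e2 n) (by positivity) (by positivity)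
      _ = δ * (r₂ / ρ) ^ n := by rw [div_pow]; ring
  have hq0 : 0 ≤ r₂ / ρ := by positivity
  have hq1 : r₂ / ρ < 1 := (div_lt_one hρ).2 hρ2
  have hsum : Summable (fun n : ℕ => δ * (r₂ / ρ) ^ n) :=
    (summable_geometric_of_lt_one hq0 hq1).mul_left δ
  set S : ℂ × ℂ → ℂ := fun p => ∑' n : ℕ, A n p.2 * p.1 ^ n with hS
  have hSan : AnalyticOnNhd ℂ S V := by
    have e1 := tendstoUniformlyOn_tsum_nat (f := fun (n : ℕ) (p : ℂ × ℂ) => A n p.2 * p.1 ^ n)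
      hsum (s := V) hbound
    refine Pool.Agent.SCV.analyticOnNhd_of_tendstoLocallyUniformlyOn (l := atTop) V hVo
      (fun N p => ∑ n ∈ Finset.range N, A n p.2 * p.1 ^ n) S ?_ e1.tendstoLocallyUniformlyOn
    intro N p hp
    refine Finset.analyticAt_fun_sum _ fun n _ => ?_
    have e2 : AnalyticAt ℂ (A n) p.2 := hAan n p.2 (hballR hp.2)
    exact (AnalyticAt.fun_comp e2 analyticAt_snd).mul (analyticAt_fst.pow n)
  refine ⟨fun p => Eh p.1 + S p, ?_, ?_, ?_⟩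
  · intro p hp
    have e1 : AnalyticAt ℂ Eh p.1 := hEh p.1 (ball_subset_ball h21.le hp.1)
    exact (AnalyticAt.fun_comp e1 analyticAt_fst).add (hSan p hp)
  · intro p hp
    have e1 := Complex.taylorSeries_eq_on_ball' (c := 0) (r := rm) (z := p.1)
      (f := fun χ => D (χ, p.2)) (ball_subset_ball hrm0.le hp.1) (hDsl p.2 (hballR hp.2))
    have e2 : S p = D (p.1, p.2) := by
      rw [← e1]
      simp only [hS, hA, sub_zero]
    change Eh p.1 + S p = E p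
    rw [e2]
    simp only [hD]
    ring
  · intro p hp
    have e1 : ‖S p‖ ≤ δ * (1 - r₂ / ρ)⁻¹ := by
      have e2 : HasSum (fun n : ℕ => δ * (r₂ / ρ) ^ n) (δ * (1 - r₂ / ρ)⁻¹) :=
        (hasSum_geometric_of_lt_one hq0 hq1).mul_left δ
      exact tsum_of_norm_bounded e2 (fun n => hbound n p hp)
    have e3 : Eh p.1 + S p - Eh p.1 = S p := by ring
    change ‖Eh p.1 + S p - Eh p.1‖ ≤ θ'
    rw [e3]
    exact e1.trans hδθ

end Pool.Agent.MP_ae5b4e_an_NB5
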