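import Pool.Agent.Lib.MP_ae5b4e_an_NB5.Defs

/-!
# MP_ae5b4e_an, project NB_5(A): two constants in a rectangle
-/

noncomputable section

namespace Pool.Agent.MP_ae5b4e_an_NB5

open Complex Set Filter Topology Metric
open Pool.Agent.MP_ae5b4e_an_NBT (St)
open Pool.Agent.MP_ae5b4e_an_NB2 (Sys)
open scoped ComplexConjugate

private theorem RectT_re (w : ℂ) :
    (Complex.cosh (w / 2)).re = Real.cosh (w.re / 2) * Real.cos (w.im / 2) := by
  have h1 : w / 2 = ((w.re / 2 : ℝ) : ℂ) + ((w.im / 2 : ℝ) : ℂ) * I := by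
    apply Complex.ext
    · simp
    · simp
  rw [h1, Complex.cosh_add, Complex.cosh_mul_I, Complex.sinh_mul_I, ← Complex.ofReal_cosh,
    ← Complex.ofReal_sinh, ← Complex.ofReal_cos, ← Complex.ofReal_sin]
  simp only [Complex.add_re, Complex.mul_re, Complex.mul_im, Complex.ofReal_re,
    Complex.ofReal_im, Complex.I_re, Complex.I_im]
  ring

/-- Maximum principle for `A w * exp (- Λ₀ cosh (w / 2))`, `Λ₀ = log (M₂ / M₁) / (cosh (ℓ/2) cos
(π/4)) ≥ 0`,
on the rectangle `|Re w| ≤ ℓ`, `|Im w| ≤ π / 2`: `Re cosh (w/2) = cosh (Re w / 2) cos (Im w / 2) ≥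
0`, and
`≥ cosh (ℓ/2) cos (π/4)` on the vertical sides. So it is at most `M₁` on the boundary. -/
theorem rect_two {A : ℂ → ℂ} {ℓ M₁ M₂ : ℝ} (hℓ : 0 < ℓ) (h1 : 0 < M₁) (h12 : M₁ ≤ M₂)
    (hc : ContinuousOn A {w : ℂ | |w.re| ≤ ℓ ∧ |w.im| ≤ Real.pi / 2})
    (hd : DifferentiableOn ℂ A {w : ℂ | |w.re| < ℓ ∧ |w.im| < Real.pi / 2})
    (hh : ∀ w : ℂ, |w.re| ≤ ℓ → |w.im| = Real.pi / 2 → ‖A w‖ ≤ M₁)
    (hv : ∀ w : ℂ, |w.re| ≤ ℓ → |w.im| ≤ Real.pi / 2 → ‖A w‖ ≤ M₂) {w : ℂ} (h1w : |w.re| ≤ ℓ)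
    (h2w : |w.im| ≤ Real.pi / 2) :
    ‖A w‖ ≤ M₁ * (M₂ / M₁) ^
      (Real.cosh (w.re / 2) * Real.cos (w.im / 2) /
        (Real.cosh (ℓ / 2) * Real.cos (Real.pi / 4))) := by
  have hpi := Real.pi_pos
  have h2 : 0 < M₂ := h1.trans_le h12
  set c₀ : ℝ := Real.cosh (ℓ / 2) * Real.cos (Real.pi / 4) with hc₀
  have hc4 : 0 < Real.cos (Real.pi / 4) := by
    apply Real.cos_pos_of_mem_Ioo
    constructor <;> linarith
  have hc₀pos : 0 < c₀ := mul_pos (Real.cosh_pos _) hc4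
  set Λ : ℝ := Real.log (M₂ / M₁) / c₀ with hΛ
  have hlog : 0 ≤ Real.log (M₂ / M₁) := Real.log_nonneg ((one_le_div h1).2 h12)
  have hΛ0 : 0 ≤ Λ := div_nonneg hlog hc₀pos.le
  set g : ℂ → ℂ := fun w => A w * Complex.exp (-(Λ * Complex.cosh (w / 2))) with hg
  have hgn : ∀ w, ‖g w‖ =
      ‖A w‖ * Real.exp (-(Λ * (Real.cosh (w.re / 2) * Real.cos (w.im / 2)))) := by
    intro w
    rw [hg]
    simp only
    rw [norm_mul, Complex.norm_exp]
    congr 2
    rw [Complex.neg_re, Complex.re_ofReal_mul, RectT_re]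
  have hcos : ∀ y : ℝ, |y| ≤ Real.pi / 2 → Real.cos (Real.pi / 4) ≤ Real.cos (y / 2) := by
    intro y hy
    rw [← Real.cos_abs (y / 2)]
    apply Real.cos_le_cos_of_nonneg_of_le_pi (abs_nonneg _) (by linarith)
    rw [abs_div, abs_two]
    linarith
  set U : Set ℂ := Ioo (-ℓ) ℓ ×ℂ Ioo (-(Real.pi / 2)) (Real.pi / 2) with hU
  have hclU : closure U = Icc (-ℓ) ℓ ×ℂ Icc (-(Real.pi / 2)) (Real.pi / 2) := by
    rw [hU, Complex.closure_reProdIm, closure_Ioo (by linarith), closure_Ioo (by linarith)]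
  have hUo : IsOpen U := isOpen_Ioo.reProdIm isOpen_Ioo
  have hmU : ∀ x, x ∈ U → |x.re| < ℓ ∧ |x.im| < Real.pi / 2 := by
    intro x hx
    rw [hU, Complex.mem_reProdIm] at hx
    exact ⟨abs_lt.2 hx.1, abs_lt.2 hx.2⟩
  have hmC : ∀ x, x ∈ closure U → |x.re| ≤ ℓ ∧ |x.im| ≤ Real.pi / 2 := by
    intro x hx
    rw [hclU, Complex.mem_reProdIm] at hx
    exact ⟨abs_le.2 hx.1, abs_le.2 hx.2⟩
  have hbdd : Bornology.IsBounded U :=
    (Metric.isBounded_Ioo _ _).reProdIm (Metric.isBounded_Ioo _ _)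
  have hexp : Differentiable ℂ fun w : ℂ => Complex.exp (-(Λ * Complex.cosh (w / 2))) := by
    fun_prop
  have hdc : DiffContOnCl ℂ g U := by
    refine ⟨?_, ?_⟩
    · exact (hd.mono hmU).mul hexp.differentiableOn
    · exact (hc.mono hmC).mul hexp.continuous.continuousOn
  have hfr : ∀ x ∈ frontier U, ‖g x‖ ≤ M₁ := by
    intro x hx
    rw [hUo.frontier_eq] at hx
    obtain ⟨hx1, hx2⟩ := hx
    obtain ⟨hx3, hx4⟩ := hmC x hx1
    have h5 := hcos x.im hx4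
    rw [hgn]
    by_cases hxi : |x.im| = Real.pi / 2
    · have h6 : Real.exp (-(Λ * (Real.cosh (x.re / 2) * Real.cos (x.im / 2)))) ≤ 1 := by
        rw [Real.exp_le_one_iff, neg_nonpos]
        exact mul_nonneg hΛ0 (mul_nonneg (Real.cosh_pos _).le (hc4.le.trans h5))
      calc ‖A x‖ * Real.exp (-(Λ * (Real.cosh (x.re / 2) * Real.cos (x.im / 2)))) ≤ M₁ * 1 :=
            mul_le_mul (hh x hx3 hxi) h6 (Real.exp_pos _).le h1.le
        _ = M₁ := mul_one _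
    · have hxr : |x.re| = ℓ := by
        by_contra hne
        apply hx2
        rw [hU, Complex.mem_reProdIm]
        exact ⟨abs_lt.1 (lt_of_le_of_ne hx3 hne), abs_lt.1 (lt_of_le_of_ne hx4 hxi)⟩
      have h6 : c₀ ≤ Real.cosh (x.re / 2) * Real.cos (x.im / 2) := by
        have h7 : Real.cosh (x.re / 2) = Real.cosh (ℓ / 2) := by
          rw [← Real.cosh_abs (x.re / 2), abs_div, abs_two, hxr]
        rw [h7, hc₀]
        exact mul_le_mul_of_nonneg_left h5 (Real.cosh_pos _).le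
      have h7 : Real.exp (-(Λ * (Real.cosh (x.re / 2) * Real.cos (x.im / 2)))) ≤ M₁ / M₂ := by
        have h8 : Real.log (M₂ / M₁) ≤ Λ * (Real.cosh (x.re / 2) * Real.cos (x.im / 2)) := by
          calc Real.log (M₂ / M₁) = Λ * c₀ := by
                rw [hΛ]
                field_simp
            _ ≤ _ := mul_le_mul_of_nonneg_left h6 hΛ0
        calc Real.exp (-(Λ * (Real.cosh (x.re / 2) * Real.cos (x.im / 2)))) ≤
              Real.exp (-Real.log (M₂ / M₁)) := Real.exp_le_exp.2 (neg_le_neg h8)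
          _ = M₁ / M₂ := by
              rw [Real.exp_neg, Real.exp_log (div_pos h2 h1), inv_div]
      calc ‖A x‖ * Real.exp (-(Λ * (Real.cosh (x.re / 2) * Real.cos (x.im / 2)))) ≤
            M₂ * (M₁ / M₂) := mul_le_mul (hv x hx3 hx4) h7 (Real.exp_pos _).le h2.le
        _ = M₁ := by field_simp
  have hwU : w ∈ closure U := by
    rw [hclU, Complex.mem_reProdIm]
    exact ⟨abs_le.1 h1w, abs_le.1 h2w⟩
  have hmain := Complex.norm_le_of_forall_mem_frontier_norm_le hbdd hdc hfr hwU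
  rw [hgn] at hmain
  have hrp : (M₂ / M₁) ^ (Real.cosh (w.re / 2) * Real.cos (w.im / 2) / c₀) =
      Real.exp (Λ * (Real.cosh (w.re / 2) * Real.cos (w.im / 2))) := by
    rw [Real.rpow_def_of_pos (div_pos h2 h1), hΛ]
    congr 1
    ring
  rw [hrp]
  rw [Real.exp_neg] at hmain
  rwa [← div_eq_mul_inv, div_le_iff₀ (Real.exp_pos _)] at hmain

end Pool.Agent.MP_ae5b4e_an_NB5
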