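import Pool.Agent.Lib.MP_ae5b4e_an_NB5.Step1

/-!
# MP_ae5b4e_an, project NB_5(A): the perturbative step under the majorant
-/

noncomputable section

namespace Pool.Agent.MP_ae5b4e_an_NB5

open Complex Set Filter Topology Metric
open Pool.Agent.MP_ae5b4e_an_NBT (St)
open Pool.Agent.MP_ae5b4e_an_NB2 (Sys)
open scoped ComplexConjugate

private theorem RokZ_diff {Y : Sys} (hY : Y.On univ) : Differentiable ℂ Y.Q := by
  have e1 : Differentiable ℂ Y.y1' := fun z => (hY.d1' z (mem_univ _)).differentiableAt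
  have e2 : Differentiable ℂ Y.y2' := fun z => (hY.d2' z (mem_univ _)).differentiableAt
  have h1 : Y.Q = fun w => -deriv Y.y1' w * Y.y2' w + deriv Y.y2' w * Y.y1' w := by
    funext w
    rw [(hY.d1' w (mem_univ _)).deriv, (hY.d2' w (mem_univ _)).deriv]
    have := hY.wr w (mem_univ _)
    linear_combination (-Y.Q w) * this
  rw [h1]
  have e3 : Differentiable ℂ (deriv Y.y1') := e1.deriv
  have e4 : Differentiable ℂ (deriv Y.y2') := e2.deriv
  exact (e3.neg.mul e2).add (e4.mul e1)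

private theorem RokZ_half {B : ℕ} (hB : 8 ≤ B) : (1:ℝ) / 2 ≤ (1 - 1 / (2 * B)) ^ B := by
  have hB' : (8:ℝ) ≤ B := by exact_mod_cast hB
  have h0 : (0:ℝ) < B := by linarith
  have h1 : (-2:ℝ) ≤ -(1 / (2 * B)) := by
    have : (1:ℝ) / (2 * B) ≤ 2 := by
      rw [div_le_iff₀ (by positivity)]
      nlinarith
    linarith
  have h2 := one_add_mul_le_pow h1 B
  have h3 : (1:ℝ) + B * -(1 / (2 * B)) = 1 / 2 := by
    field_simp
    ring
  rw [h3] at h2
  rwa [sub_eq_add_neg]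

private theorem RokZ_bd {Y : Sys} {B : ℕ} {H A y : ℝ} (hM : Maj Y B H A)
    (hyH : y < H) {w : ℂ} (hw : |w.im| ≤ y + (H - y) / (2 * B)) :
    ‖Y.Q w‖ ≤ 2 * A / (H - y) ^ B := by
  have hB' : (8:ℝ) ≤ B := by exact_mod_cast hM.B_ge
  have h0 : (0:ℝ) < B := by linarith
  have hd : 0 < H - y := by linarith
  have h1 : (H - y) * (1 - 1 / (2 * B)) ≤ H - |w.im| := by
    have : (H - y) * (1 - 1 / (2 * B)) = H - y - (H - y) / (2 * B) := by ring
    linarith
  have h2 : 0 < 1 - (1:ℝ) / (2 * B) := by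
    have : (1:ℝ) / (2 * B) < 1 := by
      rw [div_lt_one (by positivity)]
      linarith
    linarith
  have h3 : 0 < (H - y) * (1 - 1 / (2 * B)) := mul_pos hd h2
  have h4 := hM.bd w (by linarith)
  have h5 : (H - y) ^ B / 2 ≤ (H - |w.im|) ^ B := by
    calc (H - y) ^ B / 2 = (H - y) ^ B * (1 / 2) := by ring
      _ ≤ (H - y) ^ B * (1 - 1 / (2 * B)) ^ B :=
        mul_le_mul_of_nonneg_left (RokZ_half hM.B_ge) (by positivity)
      _ = ((H - y) * (1 - 1 / (2 * B))) ^ B := (mul_pow _ _ _).symm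
      _ ≤ _ := pow_le_pow_left₀ h3.le h1 B
  rw [le_div_iff₀ (by positivity)]
  have h6 := mul_le_mul_of_nonneg_left h5 (norm_nonneg (Y.Q w))
  linarith

/-- `ϱ = (H - y) / B ≥ 16 r`. Every point `l'` with `‖l' - l‖ ≤ 2 r + ϱ / 4` has
`|Im l'| ≤ y + ϱ / 2` (`|Im l| ≤ y + ϱ / 8`), so
`‖Q l'‖ ≤ A / (H - y - ϱ/2) ^ B ≤ 2 A / (H - y) ^ B` because `(1 - 1/(2B)) ^ (-B) ≤ 2`. So `M = 2 A /
(H - y) ^ B` on the ball of radius `2 r`, `M r² ≤ 1/32`. Cauchy estimate for `Q` (entire: see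
`Pool.Agent.MP_ae5b4e_an_BS.Q_diff` for the argument) on discs of radius `ϱ / 4`: `‖Q'‖ ≤ 8 A B /
(H - y) ^ (B + 1)` on the ball of radius `2 r`, so `‖Q (l + z) - Q (l - z)‖ ≤ ω ‖z‖` with
`ω = 16 A B / (H - y) ^ (B + 1)`, and `ω r³ ≤ 16 (r² A / (H - y) ^ B) (r B / (H - y)) ≤ 1/64`. Then
`rok_pert`. -/
theorem rok_zone {Y : Sys} {B : ℕ} {H A y r : ℝ} {l m : ℂ} (hM : Maj Y B H A) (hY : Y.On univ)
    (hr : 0 < r) (hy : 0 ≤ y) (hyH : y < H) (h16 : 16 * r ≤ (H - y) / B)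
    (hl : |l.im| ≤ y + (H - y) / (8 * B)) (hrA : 64 * (r ^ 2 * A) ≤ (H - y) ^ B)
    (hlm : ‖l - m‖ ≤ 5 / 4 * r) :
    ROK Y univ l m (r / 4) ∧ ‖Pn Y l m (l - m)‖ ≤ 48 * r ^ 4 * (A * B / (H - y) ^ (B + 1)) := by
  have hB' : (8:ℝ) ≤ B := by exact_mod_cast hM.B_ge
  have h0 : (0:ℝ) < B := by linarith
  have hA := hM.A_pos
  obtain ⟨d, hd⟩ : ∃ d, d = H - y := ⟨_, rfl⟩
  have hd0 : 0 < d := by rw [hd]; linarith
  rw [← hd] at h16 hl hrA
  have hρ : 0 < d / B := div_pos hd0 h0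
  have hnear : ∀ w : ℂ, ‖w - l‖ ≤ 2 * r + d / B / 4 → ‖Y.Q w‖ ≤ 2 * A / d ^ B := by
    intro w hw
    rw [hd]
    apply RokZ_bd hM hyH
    rw [← hd]
    have h1 : |w.im| ≤ |l.im| + ‖w - l‖ := by
      have h2 : w.im = l.im + (w - l).im := by simp
      have h3 := abs_im_le_norm (w - l)
      calc |w.im| = |l.im + (w - l).im| := by rw [← h2]
        _ ≤ |l.im| + |(w - l).im| := abs_add_le _ _
        _ ≤ _ := by linarith
    have h4 : d / (8 * B) = d / B / 8 := by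
      field_simp
    have h5 : d / (2 * B) = d / B / 2 := by
      field_simp
    rw [h4] at hl
    rw [h5]
    linarith
  have hdiff := RokZ_diff hY
  have hder : ∀ w ∈ ball l (2 * r), ‖deriv Y.Q w‖ ≤ 8 * A * B / d ^ (B + 1) := by
    intro w hw
    rw [mem_ball, dist_eq_norm] at hw
    have h1 : ‖deriv Y.Q w‖ ≤ (2 * A / d ^ B) / (d / B / 4) := by
      refine Complex.norm_deriv_le_of_forall_mem_sphere_norm_le (by positivity)
        hdiff.diffContOnCl fun z hz => hnear z ?_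
      rw [mem_sphere, dist_eq_norm] at hz
      calc ‖z - l‖ = ‖(z - w) + (w - l)‖ := by congr 1; ring
        _ ≤ ‖z - w‖ + ‖w - l‖ := norm_add_le _ _
        _ ≤ _ := by linarith
    refine h1.trans (le_of_eq ?_)
    rw [pow_succ]
    field_simp
    ring
  have hsub : ball l (2 * r) ⊆ (univ : Set ℂ) := subset_univ _
  have hMr : 2 * A / d ^ B * r ^ 2 ≤ 1 / 32 := by
    rw [div_mul_eq_mul_div, div_le_iff₀ (by positivity)]
    linarith
  have hodd : ∀ z : ℂ, ‖z‖ < 2 * r →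
      ‖Y.Q (l + z) - Y.Q (l - z)‖ ≤ 16 * A * B / d ^ (B + 1) * ‖z‖ := by
    intro z hz
    have h1 : l + z ∈ ball l (2 * r) := by
      rw [mem_ball, dist_eq_norm, add_sub_cancel_left]
      exact hz
    have h2 : l - z ∈ ball l (2 * r) := by
      rw [mem_ball, dist_eq_norm, sub_sub_cancel_left, norm_neg]
      exact hz
    have h3 := Convex.norm_image_sub_le_of_norm_deriv_le (𝕜 := ℂ)
      (fun w _ => hdiff w) hder (convex_ball l (2 * r)) h2 h1
    have h4 : l + z - (l - z) = 2 * z := by ring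
    rw [h4, norm_mul, Complex.norm_ofNat] at h3
    refine h3.trans (le_of_eq ?_)
    ring
  have hωr : 16 * A * B / d ^ (B + 1) * r ^ 3 ≤ 1 / 64 := by
    have h1 : 16 * A * B / d ^ (B + 1) * r ^ 3 = 16 * ((r ^ 2 * A) / d ^ B) * (r * B / d) := by
      rw [pow_succ d B]
      field_simp
    have h2 : (r ^ 2 * A) / d ^ B ≤ 1 / 64 := by
      rw [div_le_iff₀ (by positivity)]
      linarith
    have h3 : r * B / d ≤ 1 / 16 := by
      rw [le_div_iff₀ h0] at h16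
      rw [div_le_iff₀ hd0]
      linarith
    have h4 : 0 ≤ (r ^ 2 * A) / d ^ B := by positivity
    have h5 : 0 ≤ r * B / d := by positivity
    rw [h1]
    calc 16 * ((r ^ 2 * A) / d ^ B) * (r * B / d) ≤ 16 * (1 / 64) * (1 / 16) := by
          gcongr
      _ = 1 / 64 := by norm_num
  have h := rok_pert hY hr hsub (by positivity)
    (fun z hz => hnear z (by
      rw [mem_ball, dist_eq_norm] at hz
      linarith)) hMr (by positivity) hodd hωr hlm
  refine ⟨h.1, h.2.trans (le_of_eq ?_)⟩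
  rw [← hd]
  ring

end Pool.Agent.MP_ae5b4e_an_NB5
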