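import Pool.Agent.Lib.MP_ae5b4e_an_BS.Frame
import Pool.Agent.Lib.MP_ae5b4e_an_NB5.Defs

/-!
# MP_ae5b4e_an, project NB_5(A): symmetries of the potential
-/

noncomputable section

namespace Pool.Agent.MP_ae5b4e_an_NB5

open Complex Set Filter Topology Metric
open Pool.Agent.MP_ae5b4e_an_NBT
open Pool.Agent.MP_ae5b4e_an_NB2 (Sys)
open Pool.Agent.MP_ae5b4e_an_BS (AllH EntC)
open scoped ComplexConjugate

variable {k f : ℂ → ℂ} {F : ℂ × ℂ → ℂ} {c : ℝ} {Y : Sys}

private theorem SetQ_diff {Y : Sys} (hY : Y.On univ) : Differentiable ℂ Y.Q := by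
  have e1 : Differentiable ℂ Y.y1' := fun z => (hY.d1' z (mem_univ _)).differentiableAt
  have e2 : Differentiable ℂ Y.y2' := fun z => (hY.d2' z (mem_univ _)).differentiableAt
  have h1 : Y.Q = fun w => -deriv Y.y1' w * Y.y2' w + deriv Y.y2' w * Y.y1' w := by
    funext w
    rw [(hY.d1' w (mem_univ _)).deriv, (hY.d2' w (mem_univ _)).deriv]
    have := hY.wr w (mem_univ _)
    linear_combination (-Y.Q w) * this
  rw [h1]
  have e3 : Differentiable ℂ (deriv Y.y1') := e1.deriv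
  have e4 : Differentiable ℂ (deriv Y.y2') := e2.deriv
  exact (e3.neg.mul e2).add (e4.mul e1)

/-- the potential is determined by the square of a solution, up to a constant -/
private theorem SetQ_pot {U : Set ℂ} (hU : IsOpen U) {u u' P v v' Q : ℂ → ℂ} {ε : ℂ}
    (hu : ∀ z ∈ U, HasDerivAt u (u' z) z) (hu' : ∀ z ∈ U, HasDerivAt u' (-(P z * u z)) z)
    (hv : ∀ z ∈ U, HasDerivAt v (v' z) z) (hv' : ∀ z ∈ U, HasDerivAt v' (-(Q z * v z)) z)
    (hε : ε ≠ 0) (h : ∀ z ∈ U, u z * u z = ε * (v z * v z)) (h0 : ∀ z ∈ U, v z ≠ 0) :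
    ∀ z ∈ U, P z = Q z := by
  have h1 : ∀ z ∈ U, u z * u' z = ε * (v z * v' z) := by
    intro z hz
    have e1 : HasDerivAt (fun z => u z * u z) (u' z * u z + u z * u' z) z :=
      (hu z hz).fun_mul (hu z hz)
    have e2 : HasDerivAt (fun z => ε * (v z * v z)) (ε * (v' z * v z + v z * v' z)) z :=
      ((hv z hz).fun_mul (hv z hz)).const_mul ε
    have e3 : (fun z => u z * u z) =ᶠ[𝓝 z] fun z => ε * (v z * v z) := by
      filter_upwards [hU.mem_nhds hz] with w hw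
      exact h w hw
    have e4 := (e1.congr_of_eventuallyEq e3.symm).unique e2
    linear_combination e4 / 2
  intro z hz
  have e1 : HasDerivAt (fun z => u z * u' z) (u' z * u' z + u z * (-(P z * u z))) z :=
    (hu z hz).fun_mul (hu' z hz)
  have e2 : HasDerivAt (fun z => ε * (v z * v' z))
      (ε * (v' z * v' z + v z * (-(Q z * v z)))) z :=
    ((hv z hz).fun_mul (hv' z hz)).const_mul ε
  have e3 : (fun z => u z * u' z) =ᶠ[𝓝 z] fun z => ε * (v z * v' z) := by
    filter_upwards [hU.mem_nhds hz] with w hw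
    exact h1 w hw
  have e4 := (e1.congr_of_eventuallyEq e3.symm).unique e2
  have a1 := h z hz
  have a2 := h1 z hz
  have a0 := h0 z hz
  have e5 : ε * (v z * v z) * (u' z * u' z - ε * (v' z * v' z)) = 0 := by
    linear_combination (u z * u' z + ε * (v z * v' z)) * a2 - (u' z * u' z) * a1
  have e6 : u' z * u' z = ε * (v' z * v' z) := by
    have : ε * (v z * v z) ≠ 0 := mul_ne_zero hε (mul_ne_zero a0 a0)
    exact sub_eq_zero.1 ((mul_eq_zero.1 e5).resolve_left this)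
  have e7 : ε * (v z * v z) * (P z - Q z) = 0 := by
    linear_combination (-1 : ℂ) * e4 + e6 - P z * a1
  have : ε * (v z * v z) ≠ 0 := mul_ne_zero hε (mul_ne_zero a0 a0)
  exact sub_eq_zero.1 ((mul_eq_zero.1 e7).resolve_left this)

/-- entire functions which agree on the strip -/
private theorem SetQ_ident {g₁ g₂ : ℂ → ℂ} (h₁ : Differentiable ℂ g₁) (h₂ : Differentiable ℂ g₂)
    {c : ℝ} (hc : 0 < c) (h : ∀ z ∈ St (-c) c, g₁ z = g₂ z) (z : ℂ) : g₁ z = g₂ z := by
  have e1 : AnalyticOnNhd ℂ g₁ univ := fun z _ => h₁.analyticAt z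
  have e2 : AnalyticOnNhd ℂ g₂ univ := fun z _ => h₂.analyticAt z
  have e3 : g₁ =ᶠ[𝓝 (0:ℂ)] g₂ := by
    have : (0:ℂ) ∈ St (-c) c := by
      rw [mem_St]
      simpa using hc
    filter_upwards [(isOpen_St (-c) c).mem_nhds this] with w hw
    exact h w hw
  exact congrFun (e1.eq_of_eventuallyEq e2 e3) z

/-- `Crv.unique` (see the proof of `dichotomy`, `crv_of_con`) for `f` (height `c`, `hA.crv`) and
`F (·, 0)` (`hA.eq`): near every `t` with `|Im t| < c` one has `f s = F (s, 0)` for `s ≠ t`. If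
`y1 t = 0` then `y2 t ≠ 0` (`hE.on.wr`), so `f s = y2 s / y1 s` is unbounded near `t` (`y1` is not
identically zero near `t`: its derivative is not zero), while `F (·, 0)` is analytic at `t`. So
`y1 t ≠ 0`, and both sides are continuous at `t`. -/
theorem con_f (hA : AllH k F c f) (hE : EntC f Y) (t : ℂ) (ht : |t.im| < c) :
    Y.y1 t ≠ 0 ∧ F (t, 0) = Y.y2 t / Y.y1 t := by
  have hc : 0 < c := hA.con.pos
  have htS : t ∈ St (-c) c := abs_lt.1 ht
  have h1 : f =ᶠ[𝓝[≠] t] fun s => F (s, 0) :=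
    ((hA.crv c hc).unique (Pool.Agent.MP_ae5b4e_an_SVC.crv_of_con hA.con) hA.eq).2 t
      (by rw [min_self]; exact htS)
  have d1 := hE.on.d1 t (mem_univ _)
  have d2 := hE.on.d2 t (mem_univ _)
  have hwr := hE.on.wr t (mem_univ _)
  have a1 : AnalyticAt ℂ Y.y1 t :=
    Pool.Agent.MP_ae5b4e_an_NB2.Sys.an_y1 hE.on isOpen_univ t (mem_univ _)
  have h2 : ∀ᶠ s in 𝓝[≠] t, Y.y1 s ≠ 0 := by
    rcases a1.eventually_eq_zero_or_eventually_ne_zero with h | h
    · exfalso
      have e1 : Y.y1 t = 0 := h.self_of_nhds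
      have e2 : HasDerivAt Y.y1 0 t :=
        (hasDerivAt_const t (0:ℂ)).congr_of_eventuallyEq h
      have e3 : Y.y1' t = 0 := d1.unique e2
      rw [e1, e3, zero_mul, zero_mul, sub_zero] at hwr
      exact zero_ne_one hwr
    · exact h
  have h3 : (fun s => F (s, 0) * Y.y1 s) =ᶠ[𝓝[≠] t] Y.y2 := by
    filter_upwards [h1, h2] with s e1 e2
    rw [← e1, (hE.quot s).1 e2, div_mul_cancel₀ _ e2]
  have a2 : ContinuousAt (fun s => F (s, 0)) t := by
    have hmem : ((t, 0) : ℂ × ℂ) ∈ St (-c) c ×ˢ ball (0:ℂ) c := ⟨htS, mem_ball_self hc⟩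
    have := (hA.con.an _ hmem).continuousAt
    exact ContinuousAt.comp (g := F) (f := fun s : ℂ => (s, (0:ℂ))) this (by fun_prop)
  have h4 : F (t, 0) * Y.y1 t = Y.y2 t := by
    have e1 : Tendsto (fun s => F (s, 0) * Y.y1 s) (𝓝[≠] t) (𝓝 (F (t, 0) * Y.y1 t)) :=
      (a2.mul d1.continuousAt).tendsto.mono_left nhdsWithin_le_nhds
    have e2 : Tendsto Y.y2 (𝓝[≠] t) (𝓝 (Y.y2 t)) :=
      d2.continuousAt.tendsto.mono_left nhdsWithin_le_nhds
    exact tendsto_nhds_unique (e1.congr' h3) e2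
  have h5 : Y.y1 t ≠ 0 := by
    intro h
    rw [h, mul_zero] at h4
    rw [h, ← h4, zero_mul, mul_zero, sub_zero] at hwr
    exact zero_ne_one hwr
  exact ⟨h5, by rw [← h4, mul_div_cancel_right₀ _ h5]⟩

/-- the derivative of the quotient -/
private theorem SetQ_quot {Y : Sys} (hY : Y.On univ) {t : ℂ} (ht : Y.y1 t ≠ 0) :
    HasDerivAt (fun t => Y.y2 t / Y.y1 t) ((Y.y1 t * Y.y1 t)⁻¹) t := by
  have h1 := (hY.d2 t (mem_univ _)).div (hY.d1 t (mem_univ _)) ht
  have hwr := hY.wr t (mem_univ _)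
  convert! h1 using 1
  rw [eq_div_iff (pow_ne_zero 2 ht)]
  field_simp
  linear_combination (-1 : ℂ) * hwr

/-- On the strip `|Im t| < c` put `g = F (·, 0) = y2 / y1`: `g' = 1 / y1²`, so
`2 Q = (g''/g')' - (g''/g')² / 2`. `g` has period one (`hA.con.per`), so `Q (t + 1) = Q t` there;
identity theorem (`Q` is entire, `Pool.Agent.MP_ae5b4e_an_BS.Q_diff` in BS/Fin.lean; copy the
proof). -/
theorem q_per (hA : AllH k F c f) (hE : EntC f Y) (z : ℂ) : Y.Q (z + 1) = Y.Q z := by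
  have hc : 0 < c := hA.con.pos
  have hS1 : ∀ t ∈ St (-c) c, t + 1 ∈ St (-c) c := by
    intro t ht
    rw [mem_St] at ht ⊢
    simpa using ht
  have hcf : ∀ t ∈ St (-c) c, Y.y1 t ≠ 0 ∧ F (t, 0) = Y.y2 t / Y.y1 t := fun t ht =>
    con_f hA hE t (abs_lt.2 ht)
  have h1 : ∀ t ∈ St (-c) c, Y.y2 (t + 1) / Y.y1 (t + 1) = Y.y2 t / Y.y1 t := by
    intro t ht
    have h2 := hA.con.per (t, 0) ⟨ht, mem_ball_self hc⟩
    rw [← (hcf t ht).2, ← (hcf _ (hS1 t ht)).2]
    exact h2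
  have h2 : ∀ t ∈ St (-c) c, Y.y1 (t + 1) * Y.y1 (t + 1) = 1 * (Y.y1 t * Y.y1 t) := by
    intro t ht
    have e1 := (SetQ_quot hE.on (hcf _ (hS1 t ht)).1).comp_add_const t 1
    have e2 := SetQ_quot hE.on (hcf t ht).1
    have e3 : (fun t => Y.y2 (t + 1) / Y.y1 (t + 1)) =ᶠ[𝓝 t] fun t => Y.y2 t / Y.y1 t := by
      filter_upwards [(isOpen_St (-c) c).mem_nhds ht] with w hw
      exact h1 w hw
    have e4 := (e1.congr_of_eventuallyEq e3.symm).unique e2
    rw [one_mul]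
    exact inv_inj.1 e4
  refine SetQ_ident (g₁ := fun z => Y.Q (z + 1)) (g₂ := Y.Q)
    ((SetQ_diff hE.on).comp (differentiable_id.add_const 1)) (SetQ_diff hE.on) hc ?_ z
  exact SetQ_pot (isOpen_St (-c) c) (u := fun t => Y.y1 (t + 1)) (u' := fun t => Y.y1' (t + 1))
    (P := fun t => Y.Q (t + 1)) (v := Y.y1) (v' := Y.y1') (Q := Y.Q)
    (fun t _ => (hE.on.d1 (t + 1) (mem_univ _)).comp_add_const t 1)
    (fun t _ => (hE.on.d1' (t + 1) (mem_univ _)).comp_add_const t 1)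
    (fun t _ => hE.on.d1 t (mem_univ _)) (fun t _ => hE.on.d1' t (mem_univ _)) one_ne_zero h2
    fun t ht => (hcf t ht).1

/-- On the strip `|Im t| < c`: `z_i t = conj (y_i (conj t))` is a fundamental system for the
potential `conj (Q (conj t))`, and `F (conj t, 0) * conj (F (t, 0)) = 1` (`hA.con.refl`) gives
`y2 / y1 = z1 / z2`, so `1 / y1² = - 1 / z2²`, `z2² = - y1²`, `z2'' / z2 = y1'' / y1` (differentiate
`z2² = - y1²` twice, or `z2 = ± i y1` locally). Identity theorem. -/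
theorem q_re (hA : AllH k F c f) (hE : EntC f Y) (z : ℂ) : Y.Q (conj z) = conj (Y.Q z) := by
  have hc : 0 < c := hA.con.pos
  have hSc : ∀ t ∈ St (-c) c, conj t ∈ St (-c) c := by
    intro t ht
    rw [mem_St] at ht ⊢
    rw [conj_im]
    constructor <;> linarith [ht.1, ht.2]
  have hcf : ∀ t ∈ St (-c) c, Y.y1 t ≠ 0 ∧ F (t, 0) = Y.y2 t / Y.y1 t := fun t ht =>
    con_f hA hE t (abs_lt.2 ht)
  have hrefl : ∀ t ∈ St (-c) c, Y.y2 t * conj (Y.y2 (conj t)) =
      Y.y1 t * conj (Y.y1 (conj t)) := by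
    intro t ht
    have h2 := hA.con.refl (conj t, 0) ⟨hSc t ht, mem_ball_self hc⟩
    simp only [conj_conj, map_zero] at h2
    rw [(hcf t ht).2, (hcf _ (hSc t ht)).2, map_div₀] at h2
    have h3 := (hcf t ht).1
    have h4 : conj (Y.y1 (conj t)) ≠ 0 := by
      rw [Ne, map_eq_zero]
      exact (hcf _ (hSc t ht)).1
    rw [div_mul_div_comm, div_eq_one_iff_eq (mul_ne_zero h3 h4)] at h2
    exact h2
  have hcd : ∀ {y y' : ℂ → ℂ} (t : ℂ), HasDerivAt y (y' (conj t)) (conj t) →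
      HasDerivAt (fun t => conj (y (conj t))) (conj (y' (conj t))) t := by
    intro y y' t h
    have h1 := h.conj_conj
    rw [conj_conj] at h1
    exact h1
  have h0 : ∀ t ∈ St (-c) c, Y.y2 t ≠ 0 := by
    intro t ht h
    have h1 := hrefl t ht
    rw [h, zero_mul] at h1
    have h4 : conj (Y.y1 (conj t)) ≠ 0 := by
      rw [Ne, map_eq_zero]
      exact (hcf _ (hSc t ht)).1
    exact mul_ne_zero (hcf t ht).1 h4 h1.symm
  have h0' : ∀ t ∈ St (-c) c, conj (Y.y2 (conj t)) ≠ 0 := by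
    intro t ht
    rw [Ne, map_eq_zero]
    exact h0 _ (hSc t ht)
  have h1 : ∀ t ∈ St (-c) c, Y.y2 t / Y.y1 t = conj (Y.y1 (conj t)) / conj (Y.y2 (conj t)) := by
    intro t ht
    rw [div_eq_div_iff (hcf t ht).1 (h0' t ht), hrefl t ht]
    ring
  have h2 : ∀ t ∈ St (-c) c, conj (Y.y2 (conj t)) * conj (Y.y2 (conj t)) =
      (-1) * (Y.y1 t * Y.y1 t) := by
    intro t ht
    have d1 := hcd (y := Y.y1) (y' := Y.y1') t (hE.on.d1 _ (mem_univ _))
    have d2 := hcd (y := Y.y2) (y' := Y.y2') t (hE.on.d2 _ (mem_univ _))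
    have e1 := d1.fun_div d2 (h0' t ht)
    have e2 := SetQ_quot hE.on (hcf t ht).1
    have e3 : (fun t => Y.y2 t / Y.y1 t) =ᶠ[𝓝 t]
        fun t => conj (Y.y1 (conj t)) / conj (Y.y2 (conj t)) := by
      filter_upwards [(isOpen_St (-c) c).mem_nhds ht] with w hw
      exact h1 w hw
    have e4 := (e2.congr_of_eventuallyEq e3.symm).unique e1
    have hwr := congrArg conj (hE.on.wr (conj t) (mem_univ _))
    simp only [map_sub, map_mul, map_one] at hwr
    have a1 := (hcf t ht).1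
    have a2 := h0' t ht
    rw [eq_div_iff (pow_ne_zero 2 a2), inv_mul_eq_div, div_eq_iff (mul_ne_zero a1 a1)] at e4
    linear_combination e4 - (Y.y1 t * Y.y1 t) * hwr
  have hQ : Differentiable ℂ fun z => conj (Y.Q (conj z)) := by
    intro z
    have h3 := ((SetQ_diff hE.on) (conj z)).conj_conj
    rw [conj_conj] at h3
    exact h3
  have key := SetQ_ident (g₁ := fun z => conj (Y.Q (conj z))) (g₂ := Y.Q) hQ (SetQ_diff hE.on)
    hc ?_ z
  · rw [← key, conj_conj]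
  · refine SetQ_pot (isOpen_St (-c) c) (u := fun t => conj (Y.y2 (conj t)))
      (u' := fun t => conj (Y.y2' (conj t)))
      (P := fun t => conj (Y.Q (conj t))) (v := Y.y1) (v' := Y.y1') (Q := Y.Q)
      (fun t _ => hcd t (hE.on.d2 _ (mem_univ _))) (fun t _ => ?_)
      (fun t _ => hE.on.d1 t (mem_univ _)) (fun t _ => hE.on.d1' t (mem_univ _))
      (neg_ne_zero.2 one_ne_zero) h2 fun t ht => (hcf t ht).1
    have h3 := hcd (y := Y.y2') (y' := fun w => -(Y.Q w * Y.y2 w)) t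
      (hE.on.d2' _ (mem_univ _))
    simpa only [map_neg, map_mul] using h3

end Pool.Agent.MP_ae5b4e_an_NB5
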