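import Pool.Agent.Lib.MP_ae5b4e_an_NB5.SetQ
import Pool.Agent.Lib.MP_ae5b4e_an_NB1B.Lab0

/-!
# MP_ae5b4e_an, project NB_5(A): the label near the real line
-/

noncomputable section

namespace Pool.Agent.MP_ae5b4e_an_NB5

open Complex Set Filter Topology Metric
open Pool.Agent.MP_ae5b4e_an_NBT
open Pool.Agent.MP_ae5b4e_an_NB2 (Sys)
open Pool.Agent.MP_ae5b4e_an_BS (AllH EntC)
open scoped ComplexConjugate

variable {k f : ℂ → ℂ} {F : ℂ × ℂ → ℂ} {c : ℝ} {Y : Sys}

/-- the Wronskian step: the algebra of the node relation -/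
private lemma SetX_alg {Y : Sys} {l u v : ℂ} (hw : Y.y1 l * Y.y2' l - Y.y1' l * Y.y2 l = 1)
    (hl : Y.y1 l ≠ 0) (hu : Y.y1 u ≠ 0) (hv : Y.y1 v ≠ 0) (hsu : Y.s u l ≠ 0) (hsv : Y.s v l ≠ 0)
    (h : (Y.y2 u / Y.y1 u - Y.y2 l / Y.y1 l)⁻¹ + (Y.y2 v / Y.y1 v - Y.y2 l / Y.y1 l)⁻¹ =
      2 * Y.y1' l * Y.y1 l) : Y.c u l * Y.s v l + Y.c v l * Y.s u l = 0 := by
  have e1 : (Y.y2 u / Y.y1 u - Y.y2 l / Y.y1 l)⁻¹ = Y.y1 u * Y.y1 l / Y.s u l := by
    have : Y.y2 u / Y.y1 u - Y.y2 l / Y.y1 l = Y.s u l / (Y.y1 u * Y.y1 l) := by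
      unfold Sys.s
      field_simp
    rw [this, inv_div]
  have e2 : (Y.y2 v / Y.y1 v - Y.y2 l / Y.y1 l)⁻¹ = Y.y1 v * Y.y1 l / Y.s v l := by
    have : Y.y2 v / Y.y1 v - Y.y2 l / Y.y1 l = Y.s v l / (Y.y1 v * Y.y1 l) := by
      unfold Sys.s
      field_simp
    rw [this, inv_div]
  rw [e1, e2, div_add_div _ _ hsu hsv, div_eq_iff (mul_ne_zero hsu hsv)] at h
  have e3 : Y.y1 u = Y.y1 l * Y.c u l + Y.y1' l * Y.s u l := by
    unfold Sys.c Sys.s
    linear_combination (-Y.y1 u) * hw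
  have e4 : Y.y1 v = Y.y1 l * Y.c v l + Y.y1' l * Y.s v l := by
    unfold Sys.c Sys.s
    linear_combination (-Y.y1 v) * hw
  have e5 : Y.y1 l * Y.y1 l * (Y.c u l * Y.s v l + Y.c v l * Y.s u l) = 0 := by
    have e6 : (Y.y1 l * Y.c u l + Y.y1' l * Y.s u l) * Y.y1 l * Y.s v l +
        Y.s u l * ((Y.y1 l * Y.c v l + Y.y1' l * Y.s v l) * Y.y1 l) =
        2 * Y.y1' l * Y.y1 l * (Y.s u l * Y.s v l) := by
      rw [← e3, ← e4]
      exact h
    linear_combination e6
  exact (mul_eq_zero.1 e5).resolve_left (mul_ne_zero hl hl)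

/-- the potential of the field of involutions in terms of the fundamental system -/
private lemma SetX_k (hA : AllH k F c f) (hE : EntC f Y) (l : ℂ) (hl : |l.im| < c) :
    k (F (l, 0)) = 2 * Y.y1' l * Y.y1 l := by
  have hY := hE.on
  have hS : IsOpen {t : ℂ | |t.im| < c} := isOpen_lt (by fun_prop) continuous_const
  have hev : ∀ w : ℂ, |w.im| < c → ∀ᶠ x in 𝓝 w, |x.im| < c := fun w hw => hS.mem_nhds hw
  have hd : ∀ w : ℂ, |w.im| < c → HasDerivAt (fun s => F (s, 0)) ((Y.y1 w ^ 2)⁻¹) w := by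
    intro w hw
    have hw0 := (con_f hA hE w hw).1
    have h6 := (hY.d2 w trivial).div (hY.d1 w trivial) hw0
    have h7 : (Y.y2' w * Y.y1 w - Y.y2 w * Y.y1' w) / Y.y1 w ^ 2 = (Y.y1 w ^ 2)⁻¹ := by
      have := hY.wr w trivial
      rw [div_eq_mul_inv]
      have h8 : Y.y2' w * Y.y1 w - Y.y2 w * Y.y1' w = 1 := by linear_combination this
      rw [h8, one_mul]
    rw [h7] at h6
    refine h6.congr_of_eventuallyEq ?_
    filter_upwards [hev w hw] with x hx
    exact (con_f hA hE x hx).2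
  have hl0 := (con_f hA hE l hl).1
  have h6 : deriv (fun s => F (s, 0)) l = (Y.y1 l ^ 2)⁻¹ := (hd l hl).deriv
  have h7 : deriv (deriv (fun s => F (s, 0))) l =
      -(2 * Y.y1 l * Y.y1' l) / (Y.y1 l ^ 2) ^ 2 := by
    have h8 : HasDerivAt (fun w => (Y.y1 w ^ 2)⁻¹)
        (-(2 * Y.y1 l * Y.y1' l) / (Y.y1 l ^ 2) ^ 2) l := by
      have h9 := ((hY.d1 l trivial).pow 2).inv (pow_ne_zero 2 hl0)
      have h10 : -(((2:ℕ) : ℂ) * Y.y1 l ^ (2 - 1) * Y.y1' l) / (Y.y1 l ^ 2) ^ 2 =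
          -(2 * Y.y1 l * Y.y1' l) / (Y.y1 l ^ 2) ^ 2 := by norm_num
      rw [← h10]
      exact h9
    have h11 : deriv (fun s => F (s, 0)) =ᶠ[𝓝 l] fun w => (Y.y1 w ^ 2)⁻¹ := by
      filter_upwards [hev l hl] with w hw
      exact (hd w hw).deriv
    exact (h8.congr_of_eventuallyEq h11).deriv
  have ho := (hA.con.toDat.ode (t := l) (abs_lt.1 hl)).2
  rw [ho, h6, h7]
  field_simp

/-- an even analytic function which vanishes at `0` has a double zero -/
private lemma SetX_schwarz {φ : ℂ → ℂ} {r M : ℝ} (hr : 0 < r) (hM : 0 ≤ M)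
    (hφ : DifferentiableOn ℂ φ (ball 0 r)) (h0 : φ 0 = 0) (hev : ∀ z ∈ ball (0:ℂ) r, φ (-z) = φ z)
    (hb : ∀ z ∈ ball (0:ℂ) r, ‖φ z‖ ≤ M) {z : ℂ} (hz : z ∈ ball (0:ℂ) r) :
    ‖φ z‖ ≤ ((M + 1) / r + 1) / r * ‖z‖ ^ 2 := by
  have hmem : ball (0:ℂ) r ∈ 𝓝 (0:ℂ) := ball_mem_nhds 0 hr
  have h1 : ∀ z ∈ ball (0:ℂ) r, ‖dslope φ 0 z‖ ≤ (M + 1) / r := by
    intro z hz
    refine Complex.norm_dslope_le_div_of_mapsTo_ball hφ ?_ hz
    intro w hw
    rw [h0, mem_closedBall_zero_iff]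
    exact (hb w hw).trans (by linarith)
  have hd1 : DifferentiableOn ℂ (dslope φ 0) (ball 0 r) :=
    (Complex.differentiableOn_dslope hmem).2 hφ
  have h2 : dslope φ 0 0 = 0 := by
    rw [dslope_same]
    have e1 : HasDerivAt φ (deriv φ 0) 0 := (hφ.differentiableAt hmem).hasDerivAt
    have e2 : HasDerivAt (fun z => φ (-z)) (-(deriv φ 0)) 0 := by
      have e3 : HasDerivAt (fun z : ℂ => -z) (-1) 0 := hasDerivAt_neg 0
      have e4 : HasDerivAt φ (deriv φ 0) ((fun z : ℂ => -z) 0) := by simpa using e1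
      have e5 := e4.comp (0:ℂ) e3
      rw [mul_neg_one] at e5
      exact e5
    have e6 : HasDerivAt φ (-(deriv φ 0)) 0 := by
      refine e2.congr_of_eventuallyEq ?_
      filter_upwards [hmem] with z hz
      exact (hev z hz).symm
    have e7 := e1.unique e6
    have e8 : deriv φ 0 + deriv φ 0 = 0 := by
      nth_rewrite 1 [e7]
      ring
    have e9 : 2 * deriv φ 0 = 0 := by linear_combination e8
    exact (mul_eq_zero.1 e9).resolve_left two_ne_zero
  have h3 : ‖dslope (dslope φ 0) 0 z‖ ≤ ((M + 1) / r + 1) / r := by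
    refine Complex.norm_dslope_le_div_of_mapsTo_ball hd1 ?_ hz
    intro w hw
    rw [h2, mem_closedBall_zero_iff]
    exact (h1 w hw).trans (by linarith)
  have e1 : φ z = z * dslope φ 0 z := by
    have := sub_smul_dslope φ 0 z
    rw [h0, sub_zero, sub_zero, smul_eq_mul] at this
    exact this.symm
  have e2 : dslope φ 0 z = z * dslope (dslope φ 0) 0 z := by
    have := sub_smul_dslope (dslope φ 0) 0 z
    rw [h2, sub_zero, sub_zero, smul_eq_mul] at this
    exact this.symm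
  rw [e1, e2, ← mul_assoc, norm_mul, norm_mul]
  have e3 : 0 ≤ ‖z‖ * ‖z‖ := by positivity
  calc ‖z‖ * ‖z‖ * ‖dslope (dslope φ 0) 0 z‖ ≤ ‖z‖ * ‖z‖ * (((M + 1) / r + 1) / r) :=
      mul_le_mul_of_nonneg_left h3 e3
    _ = ((M + 1) / r + 1) / r * ‖z‖ ^ 2 := by ring

/-- a bound for `L - t` by compactness and periodicity -/
private lemma SetX_bd {L : ℂ × ℂ → ℂ} {ε : ℝ} (hε : 0 < ε)
    (han : AnalyticOnNhd ℂ L (St (-ε) ε ×ˢ ball 0 ε))
    (hper : ∀ p ∈ St (-ε) ε ×ˢ ball (0:ℂ) ε, L (p.1 + 1, p.2) = L p + 1) :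
    ∃ M, 0 ≤ M ∧ ∀ t η : ℂ, |t.im| ≤ ε / 2 → ‖η‖ ≤ ε / 2 → ‖L (t, η) - t‖ ≤ M := by
  have hK : IsCompact ((Set.Icc (0:ℝ) 1 ×ℂ Set.Icc (-(ε / 2)) (ε / 2)) ×ˢ
      closedBall (0:ℂ) (ε / 2)) :=
    (isCompact_Icc.reProdIm isCompact_Icc).prod (isCompact_closedBall _ _)
  have hsub : (Set.Icc (0:ℝ) 1 ×ℂ Set.Icc (-(ε / 2)) (ε / 2)) ×ˢ
      closedBall (0:ℂ) (ε / 2) ⊆ St (-ε) ε ×ˢ ball (0:ℂ) ε := by
    rintro ⟨t, η⟩ ⟨h1, h2⟩
    have h3 := h1.2
    refine ⟨⟨?_, ?_⟩, closedBall_subset_ball (by linarith) h2⟩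
    · have : -(ε / 2) ≤ t.im := h3.1
      change -ε < t.im
      linarith
    · have : t.im ≤ ε / 2 := h3.2
      change t.im < ε
      linarith
  have hc : ContinuousOn (fun p : ℂ × ℂ => L p - p.1)
      ((Set.Icc (0:ℝ) 1 ×ℂ Set.Icc (-(ε / 2)) (ε / 2)) ×ˢ closedBall (0:ℂ) (ε / 2)) := by
    intro p hp
    exact ((han p (hsub hp)).continuousAt.sub continuousAt_fst).continuousWithinAt
  obtain ⟨M, hM⟩ := hK.exists_bound_of_continuousOn hc
  refine ⟨max M 0, le_max_right _ _, fun t η ht hη => ?_⟩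
  have hper' : Function.Periodic (fun x : ℝ => L ((x : ℂ) + t.im * I, η) - (x + t.im * I)) 1 := by
    intro x
    have h1 : (((x : ℂ) + t.im * I, η) : ℂ × ℂ) ∈ St (-ε) ε ×ˢ ball (0:ℂ) ε := by
      have h2 : ((x : ℂ) + t.im * I).im = t.im := by simp
      have h3 := abs_le.1 ht
      refine ⟨⟨?_, ?_⟩, ?_⟩
      · change -ε < ((x : ℂ) + t.im * I).im
        rw [h2]
        linarith
      · change ((x : ℂ) + t.im * I).im < ε
        rw [h2]
        linarith
      · rw [mem_ball_zero_iff]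
        linarith
    have h4 := hper _ h1
    change L (((x + 1 : ℝ) : ℂ) + t.im * I, η) - (((x + 1 : ℝ) : ℂ) + t.im * I) =
      L ((x : ℂ) + t.im * I, η) - (x + t.im * I)
    have h5 : ((x + 1 : ℝ) : ℂ) + t.im * I = (x : ℂ) + t.im * I + 1 := by
      push_cast
      ring
    rw [h5, h4]
    ring
  obtain ⟨x, hx, hxe⟩ := hper'.exists_mem_Ico₀ one_pos t.re
  have h1 : L (t, η) - t = L ((x : ℂ) + t.im * I, η) - (x + t.im * I) := by
    have h2 : L ((t.re : ℂ) + t.im * I, η) - (t.re + t.im * I) =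
      L ((x : ℂ) + t.im * I, η) - (x + t.im * I) := hxe
    rwa [re_add_im] at h2
  rw [h1]
  refine (hM (((x : ℂ) + t.im * I, η) : ℂ × ℂ) ⟨?_, ?_⟩).trans (le_max_left _ _)
  · rw [Complex.mem_reProdIm]
    refine ⟨?_, ?_⟩
    · have : ((x : ℂ) + t.im * I).re = x := by simp
      change ((x : ℂ) + t.im * I).re ∈ _
      rw [this]
      exact ⟨hx.1, hx.2.le⟩
    · have : ((x : ℂ) + t.im * I).im = t.im := by simp
      change ((x : ℂ) + t.im * I).im ∈ _
      rw [this]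
      exact abs_le.1 ht
  · rw [mem_closedBall_zero_iff]
    exact hη

/-- **The label near the real line.** `exists_labR hA.con` (NB1B/Lab0.lean) gives `ε ≤ c / 4` and `L` on
`St (-ε) ε × ball 0 ε`. Take `b ≤ ε / 2`, `b ≤ 1`. `Y.y1 (L p) ≠ 0` and `F p = F (L p, 0) =
y2 / y1 (L p)` by `con_f` (`LabR.maps`, `LabR.eq`). `qper`, `qre`: SetQ. `qnc`: `hE.nc`.
`bd`: `g η = L (t, η) - t` is analytic, even, `g 0 = 0`, bounded by a constant `M` for `|Im t| ≤ ε/2`,
`‖η‖ ≤ ε/2` (periodicity and compactness), so `‖g η‖ ≤ M (‖η‖ / (ε/2))²` (`g η / η²` has a removable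
singularity; or the Schwarz lemma for `g` as a function of `η²`).
`node`: for `η ≠ 0` the functional equation `hA.con.fe` (see `Dat`) reads
`(F (t + η, η) - F (t, η))⁻¹ + (F (t - η, η) - F (t, η))⁻¹ = k (F (t, η))`, and `k (f l) =
- f'' l / f' l ^ 2` (limit `η → 0` of the equation at `t = l`; this is also known from the Dat
library). With `f = y2 / y1`, `f u - f l = s (u, l) / (y1 u * y1 l)`, `y1 u = y1 l * c (u, l) +
y1' l * s (u, l)`: `(f u - f l)⁻¹ = y1 l ^ 2 * c (u, l) / s (u, l) + y1 l * y1' l`, and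
`- f''/f'^2 = 2 y1 y1'`. So the sum of the two quotients `c / s` vanishes. `η = 0`: `s (l, l) = 0`.
The same argument is in NB2/ExLab.lean (`exists_lab`). -/
theorem exists_ent (hA : AllH k F c f) (hE : EntC f Y) :
    ∃ (b C : ℝ) (L : ℂ × ℂ → ℂ), Ent Y b C L ∧ b ≤ c / 4 ∧
      ∀ p ∈ Bs b, Y.y1 (L p) ≠ 0 ∧ F p = Y.y2 (L p) / Y.y1 (L p) := by
  obtain ⟨ε, L, h⟩ := Pool.Agent.MP_ae5b4e_an_NB1B.exists_labR hA.con
  have hε := h.ε_pos
  have hc := hA.con.pos
  have hεc := h.ε_le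
  obtain ⟨M, hM0, hM⟩ := SetX_bd hε h.an h.per
  obtain ⟨b, hb⟩ : ∃ b, b = min (ε / 2) 1 := ⟨_, rfl⟩
  have hb0 : 0 < b := by rw [hb]; exact lt_min (by linarith) one_pos
  have hbε : b ≤ ε / 2 := by rw [hb]; exact min_le_left _ _
  have hb1 : b ≤ 1 := by rw [hb]; exact min_le_right _ _
  have hmem : ∀ p ∈ Bs b, p ∈ St (-ε) ε ×ˢ ball (0:ℂ) ε := by
    rintro p ⟨⟨h1, h2⟩, h3⟩
    refine ⟨⟨?_, ?_⟩, ball_subset_ball (by linarith) h3⟩
    · linarith
    · linarith
  have hmemc : ∀ p ∈ Bs b, p ∈ St (-c) c ×ˢ ball (0:ℂ) c := by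
    rintro p ⟨⟨h1, h2⟩, h3⟩
    refine ⟨⟨?_, ?_⟩, ball_subset_ball (by linarith) h3⟩
    · linarith
    · linarith
  have him : ∀ p ∈ Bs b, |(L p).im| < c := fun p hp => abs_lt.2 (h.maps p (hmem p hp))
  have hF : ∀ p ∈ Bs b, Y.y1 (L p) ≠ 0 ∧ F p = Y.y2 (L p) / Y.y1 (L p) := by
    intro p hp
    obtain ⟨h1, h2⟩ := con_f hA hE (L p) (him p hp)
    refine ⟨h1, ?_⟩
    rw [← h2, h.eq p (hmem p hp)]
  obtain ⟨C, hC⟩ : ∃ C, C = max 1 (((M + 1) / (ε / 2) + 1) / (ε / 2)) := ⟨_, rfl⟩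
  have hC1 : 1 ≤ C := by rw [hC]; exact le_max_left _ _
  have hC2 : ((M + 1) / (ε / 2) + 1) / (ε / 2) ≤ C := by rw [hC]; exact le_max_right _ _
  refine ⟨b, C, L, ?_, by linarith, hF⟩
  exact
    { b_pos := hb0
      b_le := hb1
      C_one := hC1
      on := hE.on
      qper := q_per hA hE
      qre := q_re hA hE
      qnc := hE.nc
      an := fun p hp => h.an p (hmem p hp)
      zero := fun t ht => h.zero t ⟨by linarith [ht.1], by linarith [ht.2]⟩
      even := fun p hp => h.even p (hmem p hp)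
      per := fun p hp => h.per p (hmem p hp)
      node := by
        intro t η h0 h1 h2
        by_cases hη : η = 0
        · subst hη
          have e0 : L (t, 0) = t := h.zero t (hmem _ h0).1
          rw [add_zero, sub_zero, e0]
          unfold Sys.node
          rw [Sys.s_self]
          ring
        · have hSt1 : t + η ∈ St (-c) c := (hmemc _ h1).1
          have hSt2 : t - η ∈ St (-c) c := (hmemc _ h2).1
          have hfe := hA.con.fe (t, η) (hmemc _ h0) hη hSt1 hSt2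
          have hs1 : F (t + η, η) ≠ F (t, η) := hA.con.sep (t, η) (hmemc _ h0) hη hSt1
          have hs2 : F (t, η) ≠ F (t - η, η) := by
            have e1 := hA.con.sep (t - η, η) (hmemc _ h2) hη (by
              change t - η + η ∈ _
              rw [sub_add_cancel]
              exact (hmemc _ h0).1)
            have e2 : ((t - η, η) : ℂ × ℂ).1 + ((t - η, η) : ℂ × ℂ).2 = t := sub_add_cancel t η
            rw [e2] at e1
            exact e1
          obtain ⟨l1, l2⟩ := hF _ h0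
          obtain ⟨u1, u2⟩ := hF _ h1
          obtain ⟨v1, v2⟩ := hF _ h2
          have hk : k (F (t, η)) = 2 * Y.y1' (L (t, η)) * Y.y1 (L (t, η)) := by
            rw [← SetX_k hA hE (L (t, η)) (him _ h0), h.eq _ (hmem _ h0)]
          have hfe' : (F (t + η, η) - F (t, η))⁻¹ + (F (t - η, η) - F (t, η))⁻¹ =
              k (F (t, η)) := hfe
          rw [hk] at hfe'
          rw [l2, u2] at hs1
          rw [l2, v2] at hs2
          rw [l2, u2, v2] at hfe'
          have hsu : Y.s (L (t + η, η)) (L (t, η)) ≠ 0 := by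
            intro h3
            apply hs1
            rw [div_eq_div_iff u1 l1]
            unfold Sys.s at h3
            linear_combination h3
          have hsv : Y.s (L (t - η, η)) (L (t, η)) ≠ 0 := by
            intro h3
            apply hs2
            rw [div_eq_div_iff l1 v1]
            unfold Sys.s at h3
            linear_combination -h3
          exact SetX_alg (hE.on.wr _ trivial) l1 u1 v1 hsu hsv hfe'
      bd := by
        rintro ⟨t, η⟩ hp
        have hε2 : 0 < ε / 2 := by linarith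
        have htim : |t.im| ≤ ε / 2 := by
          have h1 : -b < t.im := hp.1.1
          have h2 : t.im < b := hp.1.2
          exact abs_le.2 ⟨by linarith, by linarith⟩
        have htS : t ∈ St (-ε) ε := (hmem _ hp).1
        have hball : ball (0:ℂ) (ε / 2) ⊆ ball (0:ℂ) ε := ball_subset_ball (by linarith)
        have hd : DifferentiableOn ℂ (fun η : ℂ => L (t, η) - t) (ball 0 (ε / 2)) := by
          intro z hz
          have e1 : AnalyticAt ℂ (fun η : ℂ => ((t, η) : ℂ × ℂ)) z :=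
            analyticAt_const.prod analyticAt_id
          have e2 : AnalyticAt ℂ (fun η : ℂ => L (t, η)) z :=
            AnalyticAt.fun_comp (g := L) (f := fun η : ℂ => ((t, η) : ℂ × ℂ))
              (h.an (t, z) ⟨htS, hball hz⟩) e1
          exact (e2.sub analyticAt_const).differentiableAt.differentiableWithinAt
        have e0 : (fun η : ℂ => L (t, η) - t) 0 = 0 := by
          change L (t, 0) - t = 0
          rw [h.zero t htS, sub_self]
        have he : ∀ z ∈ ball (0:ℂ) (ε / 2),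
            (fun η : ℂ => L (t, η) - t) (-z) = (fun η : ℂ => L (t, η) - t) z := by
          intro z hz
          change L (t, -z) - t = L (t, z) - t
          have e1 : L (t, -z) = L (t, z) := h.even (t, z) ⟨htS, hball hz⟩
          rw [e1]
        have hbd : ∀ z ∈ ball (0:ℂ) (ε / 2), ‖(fun η : ℂ => L (t, η) - t) z‖ ≤ M := by
          intro z hz
          exact hM t z htim (mem_ball_zero_iff.1 hz).le
        have hη : η ∈ ball (0:ℂ) (ε / 2) := ball_subset_ball hbε hp.2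
        have hfin := SetX_schwarz hε2 hM0 hd e0 he hbd hη
        change ‖L (t, η) - t‖ ≤ C * ‖η‖ ^ 2
        exact hfin.trans (mul_le_mul_of_nonneg_right hC2 (by positivity)) }

end Pool.Agent.MP_ae5b4e_an_NB5
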