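import Pool.Agent.Lib.MP_ae5b4e_an_NB5.SpD

/-!
# MP_ae5b4e_an, project NB_5(A): the special functions exist
-/

noncomputable section

namespace Pool.Agent.MP_ae5b4e_an_NB5

open Complex Set Filter Topology Metric
open Pool.Agent.MP_ae5b4e_an_NBT (St)
open Pool.Agent.MP_ae5b4e_an_NB2 (Sys)
open scoped ComplexConjugate

/-- `Sn 0 = 1`, `ϑ Sn ϑ = sin ϑ`, `Sn ϑ ≠ 0` for `‖ϑ‖ < π` (`sin ϑ = 0` iff `ϑ ∈ π ℤ`), `Sn` is entire. -/
theorem Sn_facts : Sn 0 = 1 ∧ (∀ ϑ : ℂ, ϑ * Sn ϑ = Complex.sin ϑ) ∧ Differentiable ℂ Sn ∧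
    ∀ ϑ ∈ ball (0:ℂ) Real.pi, Sn ϑ ≠ 0 := by
  have h0 : Sn 0 = 1 := by
    unfold Sn
    rw [dslope_same, Complex.deriv_sin, Complex.cos_zero]
  have h1 : ∀ ϑ : ℂ, ϑ * Sn ϑ = Complex.sin ϑ := by
    intro ϑ
    have := sub_smul_dslope Complex.sin 0 ϑ
    rw [sub_zero, Complex.sin_zero, sub_zero, smul_eq_mul] at this
    exact this
  refine ⟨h0, h1, ?_, ?_⟩
  · have h2 : DifferentiableOn ℂ (dslope Complex.sin 0) univ :=
      (Complex.differentiableOn_dslope univ_mem).2 Complex.differentiable_sin.differentiableOn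
    rw [differentiableOn_univ] at h2
    exact h2
  · intro ϑ hϑ h2
    have h3 : Complex.sin ϑ = 0 := by rw [← h1, h2, mul_zero]
    obtain ⟨n, hn⟩ := Complex.sin_eq_zero_iff.1 h3
    rw [mem_ball_zero_iff, hn, norm_mul, Complex.norm_real, Real.norm_of_nonneg Real.pi_pos.le,
      Complex.norm_intCast] at hϑ
    have h4 : |(n:ℝ)| < 1 := by
      by_contra hcon
      push Not at hcon
      nlinarith [Real.pi_pos]
    have h5 : n = 0 := by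
      have h6 : |n| < 1 := by exact_mod_cast h4
      exact Int.abs_lt_one_iff.1 h6
    rw [h5, Int.cast_zero, zero_mul] at hn
    rw [hn, h0] at h2
    exact one_ne_zero h2

private theorem spA_dSn (ϑ : ℂ) : Sn ϑ + ϑ * deriv Sn ϑ = Complex.cos ϑ := by
  obtain ⟨-, h1, h2, -⟩ := Sn_facts
  have h3 : HasDerivAt (fun ϑ : ℂ => ϑ * Sn ϑ) (1 * Sn ϑ + ϑ * deriv Sn ϑ) ϑ :=
    (hasDerivAt_id ϑ).mul (h2 ϑ).hasDerivAt
  have h4 : (fun ϑ : ℂ => ϑ * Sn ϑ) = Complex.sin := funext h1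
  rw [h4, one_mul] at h3
  exact h3.unique (Complex.hasDerivAt_sin ϑ)

/-- A function with nonnegative derivative on a real segment. -/
private theorem spA_real {F : ℂ → ℂ} {x : ℝ} (hx : 0 ≤ x)
    (hd : ∀ t : ℝ, 0 ≤ t → t ≤ x → DifferentiableAt ℂ F t)
    (hr : ∀ t : ℝ, 0 < t → t < x → ∃ r : ℝ, deriv F t = r ∧ 0 ≤ r) :
    ∃ l : ℝ, F x = F 0 + l ∧ 0 ≤ l := by
  have hF : ∀ t : ℝ, 0 ≤ t → t ≤ x → HasDerivAt (fun t : ℝ => F t) (deriv F t) t :=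
    fun t h0 h1 => (hd t h0 h1).hasDerivAt.comp_ofReal
  have hre : ∀ t : ℝ, 0 ≤ t → t ≤ x → HasDerivAt (fun t : ℝ => (F t).re) (deriv F t).re t := by
    intro t h0 h1
    have h := HasFDerivAt.comp_hasDerivAt t (Complex.reCLM.hasFDerivAt (x := F t)) (hF t h0 h1)
    exact h
  have him : ∀ t : ℝ, 0 ≤ t → t ≤ x → HasDerivAt (fun t : ℝ => (F t).im) (deriv F t).im t := by
    intro t h0 h1
    have h := HasFDerivAt.comp_hasDerivAt t (Complex.imCLM.hasFDerivAt (x := F t)) (hF t h0 h1)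
    exact h
  have h0m : (0:ℝ) ∈ Icc 0 x := ⟨le_rfl, hx⟩
  have hxm : x ∈ Icc (0:ℝ) x := ⟨hx, le_rfl⟩
  have h1 : (F (0:ℝ)).re ≤ (F x).re := by
    refine monotoneOn_of_deriv_nonneg (convex_Icc 0 x) (f := fun t : ℝ => (F t).re)
      (fun t ht => (hre t ht.1 ht.2).continuousAt.continuousWithinAt) ?_ ?_ h0m hxm hx
    · rw [interior_Icc]
      exact fun t ht => (hre t ht.1.le ht.2.le).differentiableAt.differentiableWithinAt
    · rw [interior_Icc]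
      intro t ht
      obtain ⟨r, hr1, hr2⟩ := hr t ht.1 ht.2
      rw [(hre t ht.1.le ht.2.le).deriv, hr1, ofReal_re]
      exact hr2
  have h2 : (F (0:ℝ)).im ≤ (F x).im := by
    refine monotoneOn_of_deriv_nonneg (convex_Icc 0 x) (f := fun t : ℝ => (F t).im)
      (fun t ht => (him t ht.1 ht.2).continuousAt.continuousWithinAt) ?_ ?_ h0m hxm hx
    · rw [interior_Icc]
      exact fun t ht => (him t ht.1.le ht.2.le).differentiableAt.differentiableWithinAt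
    · rw [interior_Icc]
      intro t ht
      obtain ⟨r, hr1, hr2⟩ := hr t ht.1 ht.2
      rw [(him t ht.1.le ht.2.le).deriv, hr1, ofReal_im]
  have h3 : (F x).im ≤ (F (0:ℝ)).im := by
    refine antitoneOn_of_deriv_nonpos (convex_Icc 0 x) (f := fun t : ℝ => (F t).im)
      (fun t ht => (him t ht.1 ht.2).continuousAt.continuousWithinAt) ?_ ?_ h0m hxm hx
    · rw [interior_Icc]
      exact fun t ht => (him t ht.1.le ht.2.le).differentiableAt.differentiableWithinAt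
    · rw [interior_Icc]
      intro t ht
      obtain ⟨r, hr1, hr2⟩ := hr t ht.1 ht.2
      rw [(him t ht.1.le ht.2.le).deriv, hr1, ofReal_im]
  rw [ofReal_zero] at h1 h2 h3
  refine ⟨(F x).re - (F 0).re, ?_, by linarith⟩
  apply Complex.ext
  · rw [add_re, ofReal_re]
    ring
  · rw [add_im, ofReal_im, add_zero]
    exact le_antisymm h3 h2

private theorem spA_sn {t : ℝ} (h0 : 0 < t) (h1 : t < Real.pi) :
    ∃ y : ℝ, Sn t = y ∧ 0 < y ∧ y ≤ 1 ∧ t * y = Real.sin t := by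
  have h2 := Real.sin_pos_of_pos_of_lt_pi h0 h1
  have h3 := Real.sin_le h0.le
  refine ⟨Real.sin t / t, ?_, by positivity, ?_, by field_simp⟩
  · have h4 := Sn_facts.2.1 t
    have h5 : (t:ℂ) ≠ 0 := ofReal_ne_zero.2 h0.ne'
    rw [ofReal_div, ofReal_sin, eq_div_iff h5, mul_comm]
    exact h4
  · rw [div_le_one h0]
    exact h3

/-- Take `P ϑ = Sn ϑ * exp (1 - cos ϑ / Sn ϑ)`. For `ϑ ≠ 0`: `P' / P = cot ϑ - 1/ϑ - (cot ϑ - ϑ / sin² ϑ)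
= ϑ / sin² ϑ - 1 / ϑ = (1 / ϑ) (1 / Sn² - 1)`. `Lm`: a primitive on the ball
(`DifferentiableOn.isExactOn_ball`) of `2 * dslope P 0 ϑ / Sn ϑ ^ 2`, normalised by `Lm 0 = 0`
(`ϑ * dslope P 0 ϑ = P ϑ - 1`). Real `x ∈ [0, π)`: `P x = (sin x / x) exp (1 - x cot x)` is real, its
derivative is `P (1 - Sn²) / (x Sn²) ≥ 0` (`0 < Sn x ≤ 1`), so `P x ≥ P 0 = 1`; `Lm x = ∫₀ˣ 2 (P - 1) /
(t Sn²) ≥ 0` is real (symmetry `conj (Lm (conj ϑ)) = Lm ϑ`, or the real integral). `big`: as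
`x → π⁻`, `Sn x ≥ (2 / π) (π - x) / π`... and `- x cot x ≥ c / (π - x)`, so `P x → ∞`
(`s e ^ (c / s) → ∞` as `s → 0⁺`). -/
theorem exists_sp : ∃ P Lm : ℂ → ℂ, Sp P Lm := by
  obtain ⟨hS0, hS1, hS2, hS3⟩ := Sn_facts
  have hpi := Real.pi_pos
  have h0b : (0:ℂ) ∈ ball (0:ℂ) Real.pi := mem_ball_self hpi
  obtain ⟨P, hP⟩ : ∃ P : ℂ → ℂ, P = fun ϑ => Sn ϑ * exp (1 - Complex.cos ϑ / Sn ϑ) := ⟨_, rfl⟩
  have hP0 : P 0 = 1 := by
    rw [hP]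
    simp [hS0]
  -- the derivative
  have hPd : ∀ ϑ ∈ ball (0:ℂ) Real.pi, HasDerivAt P (exp (1 - Complex.cos ϑ / Sn ϑ) *
      (deriv Sn ϑ + Complex.sin ϑ + Complex.cos ϑ * deriv Sn ϑ / Sn ϑ)) ϑ := by
    intro ϑ hϑ
    have h1 := hS3 ϑ hϑ
    have h2 : HasDerivAt Sn (deriv Sn ϑ) ϑ := (hS2 ϑ).hasDerivAt
    have h3 := (((Complex.hasDerivAt_cos ϑ).div h2 h1).const_sub 1).cexp
    have h4 := h2.mul h3
    rw [hP]
    refine h4.congr_deriv ?_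
    simp only [Pi.div_apply]
    field_simp
    ring
  have hdP : ∀ ϑ ∈ ball (0:ℂ) Real.pi, ϑ * Sn ϑ ^ 2 * deriv P ϑ = P ϑ * (1 - Sn ϑ ^ 2) := by
    intro ϑ hϑ
    have h1 := hS3 ϑ hϑ
    rw [(hPd ϑ hϑ).deriv, hP]
    have h2 := spA_dSn ϑ
    have h3 := hS1 ϑ
    have h4 := Complex.sin_sq_add_cos_sq ϑ
    have h5 : ϑ * deriv Sn ϑ = Complex.cos ϑ - Sn ϑ := by rw [← h2]; ring
    have h6 : ϑ * Sn ϑ ^ 2 * (exp (1 - Complex.cos ϑ / Sn ϑ) *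
        (deriv Sn ϑ + Complex.sin ϑ + Complex.cos ϑ * deriv Sn ϑ / Sn ϑ)) =
        exp (1 - Complex.cos ϑ / Sn ϑ) * Sn ϑ * (Sn ϑ * (ϑ * deriv Sn ϑ) +
          (ϑ * Sn ϑ) * Complex.sin ϑ + Complex.cos ϑ * (ϑ * deriv Sn ϑ)) := by
      field_simp
    rw [h6, h5, h3]
    have h7 : Sn ϑ * (Complex.cos ϑ - Sn ϑ) + Complex.sin ϑ * Complex.sin ϑ +
        Complex.cos ϑ * (Complex.cos ϑ - Sn ϑ) = 1 - Sn ϑ ^ 2 := by
      rw [← h4]
      ring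
    rw [h7]
    ring
  have hPdiff : DifferentiableOn ℂ P (ball 0 Real.pi) := fun ϑ hϑ =>
    (hPd ϑ hϑ).differentiableAt.differentiableWithinAt
  -- the function `Lm`
  have hgd : DifferentiableOn ℂ (fun ϑ => 2 * dslope P 0 ϑ / Sn ϑ ^ 2) (ball 0 Real.pi) := by
    have h1 : DifferentiableOn ℂ (dslope P 0) (ball 0 Real.pi) :=
      (Complex.differentiableOn_dslope (isOpen_ball.mem_nhds h0b)).2 hPdiff
    exact (h1.const_mul 2).div (hS2.differentiableOn.pow 2) (fun ϑ hϑ => pow_ne_zero 2 (hS3 ϑ hϑ))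
  obtain ⟨L₁, hL₁⟩ := hgd.isExactOn_ball
  obtain ⟨Lm, hLm⟩ : ∃ Lm : ℂ → ℂ, Lm = fun ϑ => L₁ ϑ - L₁ 0 := ⟨_, rfl⟩
  have hLd : ∀ ϑ ∈ ball (0:ℂ) Real.pi, HasDerivAt Lm (2 * dslope P 0 ϑ / Sn ϑ ^ 2) ϑ := by
    intro ϑ hϑ
    rw [hLm]
    exact (hL₁ ϑ hϑ).sub_const _
  have hL0 : Lm 0 = 0 := by
    rw [hLm]
    simp
  have hdL : ∀ ϑ ∈ ball (0:ℂ) Real.pi, ϑ * Sn ϑ ^ 2 * deriv Lm ϑ = 2 * (P ϑ - 1) := by
    intro ϑ hϑ
    have h1 := hS3 ϑ hϑ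
    rw [(hLd ϑ hϑ).deriv]
    have h2 := sub_smul_dslope P 0 ϑ
    rw [sub_zero, hP0, smul_eq_mul] at h2
    rw [← h2]
    field_simp
  have hLdiff : DifferentiableOn ℂ Lm (ball 0 Real.pi) := fun ϑ hϑ =>
    (hLd ϑ hϑ).differentiableAt.differentiableWithinAt
  have hmem : ∀ t : ℝ, 0 ≤ t → t < Real.pi → (t:ℂ) ∈ ball (0:ℂ) Real.pi := by
    intro t h0 h1
    rw [mem_ball_zero_iff, norm_real, Real.norm_of_nonneg h0]
    exact h1
  have hPr : ∀ t y : ℝ, Sn t = y → P t = ((y * Real.exp (1 - Real.cos t / y) : ℝ) : ℂ) := by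
    intro t y hy
    rw [hP]
    simp only [hy]
    push_cast
    rfl
  have hP1 : ∀ x : ℝ, 0 ≤ x → x < Real.pi → ∃ l : ℝ, P x = P 0 + l ∧ 0 ≤ l := by
    intro x hx0 hx1
    refine spA_real hx0 (fun t h0 h1 =>
      (hPd t (hmem t h0 (h1.trans_lt hx1))).differentiableAt) (fun t h0 h1 => ?_)
    obtain ⟨y, hy1, hy2, hy3, -⟩ := spA_sn h0 (h1.trans hx1)
    have h2 := hdP t (hmem t h0.le (h1.trans hx1))
    rw [hPr t y hy1, hy1] at h2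
    have h3 : (t:ℂ) ≠ 0 := ofReal_ne_zero.2 h0.ne'
    have h4 : (y:ℂ) ≠ 0 := ofReal_ne_zero.2 hy2.ne'
    refine ⟨y * Real.exp (1 - Real.cos t / y) * (1 - y ^ 2) / (t * y ^ 2), ?_, ?_⟩
    · rw [ofReal_div, eq_div_iff (by
        push_cast
        exact mul_ne_zero h3 (pow_ne_zero 2 h4))]
      push_cast
      push_cast at h2
      rw [mul_comm (deriv P t)]
      exact h2
    · have h5 : y ^ 2 ≤ 1 := by nlinarith
      have h6 : 0 ≤ 1 - y ^ 2 := by linarith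
      positivity
  refine ⟨P, Lm, hPdiff.analyticOnNhd isOpen_ball, hLdiff.analyticOnNhd isOpen_ball, hP0, hL0,
    hdP, hdL, ?_, ?_⟩
  · intro x hx0 hx1
    obtain ⟨l, hl1, hl2⟩ := hP1 x hx0 hx1
    have hL1 : ∃ l : ℝ, Lm x = Lm 0 + l ∧ 0 ≤ l := by
      refine spA_real hx0 (fun t h0 h1 =>
        (hLd t (hmem t h0 (h1.trans_lt hx1))).differentiableAt) (fun t h0 h1 => ?_)
      obtain ⟨y, hy1, hy2, hy3, -⟩ := spA_sn h0 (h1.trans hx1)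
      obtain ⟨m, hm1, hm2⟩ := hP1 t h0.le (h1.trans hx1)
      have h2 := hdL t (hmem t h0.le (h1.trans hx1))
      rw [hm1, hy1, hP0, add_sub_cancel_left] at h2
      have h3 : (t:ℂ) ≠ 0 := ofReal_ne_zero.2 h0.ne'
      have h4 : (y:ℂ) ≠ 0 := ofReal_ne_zero.2 hy2.ne'
      refine ⟨2 * m / (t * y ^ 2), ?_, by positivity⟩
      rw [ofReal_div, eq_div_iff (by
        push_cast
        exact mul_ne_zero h3 (pow_ne_zero 2 h4))]
      push_cast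
      rw [mul_comm (deriv Lm t)]
      exact h2
    obtain ⟨l', hl3, hl4⟩ := hL1
    refine ⟨1 + l, l', ?_, by linarith, ?_, hl4⟩
    · rw [hl1, hP0]
      push_cast
      rfl
    · rw [hl3, hL0, zero_add]
  · intro M
    obtain ⟨s, hs⟩ : ∃ s : ℝ, s = 1 / (4 * (|M| + 1)) := ⟨_, rfl⟩
    have hM := abs_nonneg M
    have hs0 : 0 < s := by
      rw [hs]
      positivity
    have hs1 : s ≤ 1 := by
      rw [hs, div_le_one (by positivity)]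
      linarith
    have hpi3 := Real.pi_gt_three
    have h1 : 0 < Real.pi - s := by linarith
    have h2 : Real.pi - s < Real.pi := by linarith
    obtain ⟨y, hy1, hy2, hy3, hy4⟩ := spA_sn h1 h2
    refine ⟨Real.pi - s, h1, h2, _, hPr _ y hy1, ?_⟩
    rw [Real.sin_pi_sub] at hy4
    rw [Real.cos_pi_sub]
    have h3 : Real.sin s ≤ s := Real.sin_le hs0.le
    have h4 : y ≤ s / 2 := by
      rw [le_div_iff₀ (by norm_num)]
      nlinarith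
    have h5 : (1:ℝ) / 2 ≤ Real.cos s := by
      have := Real.one_sub_sq_div_two_le_cos (x := s)
      nlinarith
    have h6 : 1 / (2 * y) ≤ 1 - -Real.cos s / y := by
      have h7 : 1 / (2 * y) ≤ Real.cos s / y := by
        rw [div_le_div_iff₀ (by positivity) hy2]
        nlinarith
      have h8 : -Real.cos s / y = -(Real.cos s / y) := neg_div _ _
      rw [h8]
      linarith
    have h7 : (1 / (2 * y)) ^ 2 / 2 ≤ Real.exp (1 / (2 * y)) := by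
      have h8 : (0:ℝ) ≤ 1 / (2 * y) := by positivity
      have := Real.quadratic_le_exp_of_nonneg h8
      linarith
    have h8 : y * ((1 / (2 * y)) ^ 2 / 2) ≤ y * Real.exp (1 - -Real.cos s / y) :=
      mul_le_mul_of_nonneg_left (h7.trans (Real.exp_le_exp.2 h6)) hy2.le
    refine le_trans ?_ h8
    have h9 : y * ((1 / (2 * y)) ^ 2 / 2) = 1 / (8 * y) := by
      field_simp
      ring
    rw [h9]
    have h10 : 1 / (4 * s) ≤ 1 / (8 * y) := by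
      apply one_div_le_one_div_of_le (by positivity)
      linarith
    refine le_trans ?_ h10
    have h11 : 1 / (4 * s) = |M| + 1 := by
      rw [hs]
      field_simp
    rw [h11]
    linarith [le_abs_self M]

/-- at `ϑ = 0` directly (`Hf = ϑ * (P exp (Lm/2))`), for `ϑ ≠ 0` from `dP`, `dL`:
`e^{Lm/2} (P + ϑ P' + ϑ P Lm' / 2)`, multiply by `Sn²` -/
theorem Sp.hasDerivAt_Hf {P Lm : ℂ → ℂ} (hS : Sp P Lm) {ϑ : ℂ} (hϑ : ϑ ∈ ball (0:ℂ) Real.pi) :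
    HasDerivAt (Hf P Lm) (P ϑ ^ 2 * exp (Lm ϑ / 2) / Sn ϑ ^ 2) ϑ := by
  have h1 : HasDerivAt P (deriv P ϑ) ϑ := (hS.anP ϑ hϑ).differentiableAt.hasDerivAt
  have h2 : HasDerivAt Lm (deriv Lm ϑ) ϑ := (hS.anL ϑ hϑ).differentiableAt.hasDerivAt
  have h3 : HasDerivAt (fun ϑ : ℂ => ϑ * P ϑ * exp (Lm ϑ / 2))
      ((1 * P ϑ + ϑ * deriv P ϑ) * exp (Lm ϑ / 2) +
        ϑ * P ϑ * (exp (Lm ϑ / 2) * (deriv Lm ϑ / 2))) ϑ :=
    ((hasDerivAt_id ϑ).mul h1).mul (h2.div_const 2).cexp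
  have h4 : Sn ϑ ^ 2 ≠ 0 := pow_ne_zero 2 (Sn_facts.2.2.2 ϑ hϑ)
  refine h3.congr_deriv ?_
  rw [eq_div_iff h4]
  have h5 := hS.dP ϑ hϑ
  have h6 := hS.dL ϑ hϑ
  have h7 : ((1 * P ϑ + ϑ * deriv P ϑ) * exp (Lm ϑ / 2) +
        ϑ * P ϑ * (exp (Lm ϑ / 2) * (deriv Lm ϑ / 2))) * Sn ϑ ^ 2 =
      exp (Lm ϑ / 2) * (P ϑ * Sn ϑ ^ 2 + ϑ * Sn ϑ ^ 2 * deriv P ϑ +
        P ϑ * (ϑ * Sn ϑ ^ 2 * deriv Lm ϑ) / 2) := by ring
  rw [h7, h5, h6]
  ring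

end Pool.Agent.MP_ae5b4e_an_NB5
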