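import Pool.Agent.Lib.MP_ae5b4e_an_NB5.Wsb
import Pool.Agent.Lib.MP_ae5b4e_an_NB5.SpD

/-!
# MP_ae5b4e_an, project NB_5(A): the label in the window, imaginary parameters: the zone and the start
-/

noncomputable section

namespace Pool.Agent.MP_ae5b4e_an_NB5

open Complex Set Filter Topology Metric
open Pool.Agent.MP_ae5b4e_an_NBT (St)
open Pool.Agent.MP_ae5b4e_an_NB2 (Sys)
open scoped ComplexConjugate

private theorem startw_lip {P Lm : ℂ → ℂ} (hS : Sp P Lm) : ∃ C ρ₁ : ℝ, 0 ≤ C ∧ 0 < ρ₁ ∧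
    ∀ ϑ : ℂ, ‖ϑ‖ < ρ₁ → ‖P ϑ - 1‖ ≤ C * ‖ϑ‖ ∧ ‖Lm ϑ‖ ≤ C * ‖ϑ‖ := by
  have h0 : (0:ℂ) ∈ ball (0:ℂ) Real.pi := mem_ball_self Real.pi_pos
  have h1 := (hS.anP 0 h0).differentiableAt.isBigO_sub
  have h2 := (hS.anL 0 h0).differentiableAt.isBigO_sub
  obtain ⟨c1, h1⟩ := h1.bound
  obtain ⟨c2, h2⟩ := h2.bound
  have h3 := h1.and h2
  rw [Metric.eventually_nhds_iff] at h3
  obtain ⟨ρ₁, hρ₁, h3⟩ := h3
  refine ⟨|c1| + |c2|, ρ₁, by positivity, hρ₁, fun ϑ hϑ => ?_⟩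
  have hd : dist ϑ 0 < ρ₁ := by rwa [dist_zero_right]
  obtain ⟨h4, h5⟩ := h3 hd
  rw [hS.P0, sub_zero] at h4
  rw [hS.L0, sub_zero, sub_zero] at h5
  have hn := norm_nonneg ϑ
  constructor
  · refine h4.trans (mul_le_mul_of_nonneg_right ?_ hn)
    have := le_abs_self c1
    have := abs_nonneg c2
    linarith
  · refine h5.trans (mul_le_mul_of_nonneg_right ?_ hn)
    have := le_abs_self c2
    have := abs_nonneg c1
    linarith

private theorem startw_norm (z : ℂ) : ‖exp (-(I * z / 2))‖ = Real.exp (z.im / 2) := by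
  rw [norm_exp]
  congr 1
  simp
  ring

private theorem startw_im {z u : ℂ} {s : ℝ} (h : ‖z - u‖ ≤ s) : z.im ≤ u.im + s := by
  have h1 := (Complex.abs_im_le_norm (z - u)).trans h
  rw [sub_im] at h1
  have h2 := le_abs_self (z.im - u.im)
  linarith

private theorem startw_gI {g : ℝ} (hg : 0 < g) : ‖(g:ℂ) * I‖ = g := by
  rw [norm_mul, norm_I, mul_one, norm_real, Real.norm_eq_abs, abs_of_pos hg]

/-- the choice of `Y` -/
private theorem startw_Y (Y₀ D A R κ₂ S₁ τ₁ ρ₁ θ₁ : ℝ) (hκ₂ : 0 < κ₂) (hρ₁ : 0 < ρ₁)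
    (hθ : 0 < θ₁) : ∃ Y : ℝ, Y₀ + 1 ≤ Y ∧ 1 ≤ Y ∧
      D * Real.exp (-(Y / 2)) * (A + R * Y) ≤ θ₁ / 2 ∧ R ^ 2 * Real.exp (-Y + 1) < κ₂ ∧
      S₁ * Real.exp (-(Y / 2)) ≤ 1 / 2 ∧ τ₁ * Real.exp (-(Y / 2)) < ρ₁ := by
  have ht : Tendsto (fun Y : ℝ => Y / 2) atTop atTop := tendsto_id.atTop_div_const two_pos
  have hx : Tendsto (fun Y : ℝ => Real.exp (-(Y / 2))) atTop (𝓝 0) :=
    Real.tendsto_exp_neg_atTop_nhds_zero.comp ht
  have hx1 : Tendsto (fun Y : ℝ => (Y / 2) ^ 1 * Real.exp (-(Y / 2))) atTop (𝓝 0) :=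
    (Real.tendsto_pow_mul_exp_neg_atTop_nhds_zero 1).comp ht
  have h3 : Tendsto (fun Y : ℝ => D * Real.exp (-(Y / 2)) * (A + R * Y)) atTop (𝓝 0) := by
    have h4 := (hx.const_mul (D * A)).add (hx1.const_mul (2 * D * R))
    rw [mul_zero, mul_zero, add_zero] at h4
    refine h4.congr fun Y => ?_
    ring
  have h4 : Tendsto (fun Y : ℝ => R ^ 2 * Real.exp (-Y + 1)) atTop (𝓝 0) := by
    have h5 := (hx.pow 2).const_mul (R ^ 2 * Real.exp 1)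
    rw [zero_pow two_ne_zero, mul_zero] at h5
    refine h5.congr fun Y => ?_
    rw [← Real.exp_nat_mul, mul_assoc, ← Real.exp_add]
    congr 2
    push_cast
    ring
  have h5 := hx.const_mul S₁
  have h6 := hx.const_mul τ₁
  rw [mul_zero] at h5 h6
  have e1 := h3.eventually (ge_mem_nhds (half_pos hθ))
  have e2 := h4.eventually (gt_mem_nhds hκ₂)
  have e3 := h5.eventually (ge_mem_nhds (half_pos one_pos))
  have e4 := h6.eventually (gt_mem_nhds hρ₁)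
  obtain ⟨Y, h1, h2, h3, h4, h5, h6⟩ := ((eventually_ge_atTop (Y₀ + 1)).and
    ((eventually_ge_atTop 1).and (e1.and (e2.and (e3.and e4))))).exists
  exact ⟨Y, h1, h2, h3, h4, h5, h6⟩

/-- **Zone and start.** `γ = g I`, `w = ε γ`, `a = (z (u, γ) - z (u - w, γ)) / ε`, `ϑ = exp (- I z / 2) a`.
Zone: `κ₂ = min (κ exp (-2)) ((r exp (- K / 2) / (2 (1 + 2 K)))²)`. For `‖u‖ ≤ k - 2`,
`g² exp (Im u) < κ₂` all `(u', γ)` with `‖u' - u‖ ≤ 1` lie in `Wz k κ` (`k₀ > R`), so `WL.steps` with `s = K`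
applies: `‖a‖ ≤ (1 + 2 K) g`, `‖ϑ‖ ≤ exp ((Im u + K) / 2) (1 + 2 K) g ≤ r / 2`.
Start: let `ρ = √κ exp ((Y - 1) / 2)`, `k₀ ≥ ρ`, `Y` so large that `ρ > R`. If `Im u ≤ - Y` then for
`‖u' - u‖ ≤ 1` `WL.schwarz` gives `‖z (u', γ) - u'‖ ≤ K R / ρ =: s`, so by `WL.steps` `‖a - γ‖ ≤ 2 s R`,
`‖ϑ‖ ≤ exp ((- Y + s) / 2) (1 + 2 s) R`, and (`P`, `Lm` are Lipschitz near `0`, `P 0 = 1`, `Lm 0 = 0`)
`‖P ϑ a - γ‖`, `‖z + I Lm ϑ - u‖` are at most `σ (Y)`, which tends to zero exponentially as `Y → ∞`, while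
the factor `1 + R (Y + 2 + |v₁| + 2 log R)` grows linearly. -/
theorem start_w {P Lm : ℂ → ℂ} (hS : Sp P Lm) {ϑ₁ r δ₁ m v₁ : ℝ} {th : ℂ → ℂ}
    (hT : Th P Lm ϑ₁ r δ₁ m v₁ th) (hϑ : 0 < ϑ₁) {κ K R θ₁ : ℝ} (Y₀ : ℝ) (hκ : 0 < κ) (hκ1 : κ ≤ 1)
    (hK : 1 ≤ K) (hR : 1 ≤ R) (hθ : 0 < θ₁) :
    ∃ Y κ₂ σ k₀ ε₀ : ℝ, Y₀ + 1 ≤ Y ∧ 1 ≤ Y ∧ 0 < κ₂ ∧ κ₂ ≤ κ ∧ 0 < ε₀ ∧ 0 ≤ σ ∧
      σ * (1 + R * (Y + 2 + |v₁| + 2 * Real.log R)) ≤ θ₁ / 2 ∧
      R ^ 2 * Real.exp (-Y + 1) < κ₂ ∧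
      ∀ (Z : Sys) (q : ℂ → ℂ) (ε k δ : ℝ) (z : ℂ × ℂ → ℂ), WL Z q ε k δ κ K z → k₀ ≤ k → ε ≤ ε₀ →
        ∀ g : ℝ, 1 / R ≤ g → g ≤ R → ∀ u : ℂ, ‖u‖ ≤ k - 2 → g ^ 2 * Real.exp u.im < κ₂ →
          (u, g * I) ∈ Wz k κ ∧ (u - ε * (g * I), g * I) ∈ Wz k κ ∧ ‖z (u, g * I) - u‖ ≤ K ∧
          ‖(z (u, g * I) - z (u - ε * (g * I), g * I)) / ε‖ ≤ (1 + 2 * K) * R ∧
          exp (-(I * z (u, g * I) / 2)) * ((z (u, g * I) - z (u - ε * (g * I), g * I)) / ε) ∈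
            Rc ϑ₁ (r / 2) ∧
          ‖z (u + ε * (g * I), g * I) - 2 * z (u, g * I) + z (u - ε * (g * I), g * I)‖ ≤
            8 * K * (ε * R) ^ 2 ∧
          Pn Z (z (u, g * I)) (z (u - ε * (g * I), g * I))
            (z (u + ε * (g * I), g * I) - z (u, g * I)) = 0 ∧
          (u.im ≤ -Y →
            ‖P (exp (-(I * z (u, g * I) / 2)) *
                ((z (u, g * I) - z (u - ε * (g * I), g * I)) / ε)) *
              ((z (u, g * I) - z (u - ε * (g * I), g * I)) / ε) - g * I‖ ≤ σ ∧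
            ‖z (u, g * I) + I * Lm (exp (-(I * z (u, g * I) / 2)) *
                ((z (u, g * I) - z (u - ε * (g * I), g * I)) / ε)) - u‖ ≤ σ) := by
  have hr := hT.r_pos
  obtain ⟨C, ρ₁, hC, hρ₁, hLip⟩ := startw_lip hS
  obtain ⟨b, hb⟩ : ∃ b : ℝ, b = Real.exp (1 / 2) := ⟨_, rfl⟩
  have hb0 : 0 < b := by rw [hb]; exact Real.exp_pos _
  have hsκ : 0 < Real.sqrt κ := Real.sqrt_pos.2 hκ
  obtain ⟨S₁, hS₁⟩ : ∃ S₁ : ℝ, S₁ = K * R * b / Real.sqrt κ := ⟨_, rfl⟩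
  have hS₁0 : 0 < S₁ := by rw [hS₁]; positivity
  obtain ⟨D, hD⟩ : ∃ D : ℝ, D = (9 * C * R ^ 2 * b + 2 * R * S₁) + (S₁ + 3 * C * R * b) :=
    ⟨_, rfl⟩
  have hD0 : 0 ≤ D := by rw [hD]; positivity
  obtain ⟨c₂, hc₂⟩ : ∃ c₂ : ℝ, c₂ = r * Real.exp (-(K / 2)) / (2 * (1 + 2 * K)) := ⟨_, rfl⟩
  have hc₂0 : 0 < c₂ := by rw [hc₂]; positivity
  obtain ⟨κ₂, hκ₂⟩ : ∃ κ₂ : ℝ, κ₂ = min (κ * Real.exp (-2)) (c₂ ^ 2) := ⟨_, rfl⟩
  have hκ₂0 : 0 < κ₂ := by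
    rw [hκ₂]
    exact lt_min (by positivity) (by positivity)
  have hκ₂1 : κ₂ ≤ κ * Real.exp (-2) := by rw [hκ₂]; exact min_le_left _ _
  have hκ₂2 : κ₂ ≤ c₂ ^ 2 := by rw [hκ₂]; exact min_le_right _ _
  have hκ₂κ : κ₂ ≤ κ := by
    refine hκ₂1.trans ?_
    have h1 : Real.exp (-2) ≤ 1 := Real.exp_le_one_iff.2 (by norm_num)
    calc κ * Real.exp (-2) ≤ κ * 1 := mul_le_mul_of_nonneg_left h1 hκ.le
      _ = κ := mul_one κ
  obtain ⟨Y, hY1, hY2, hY3, hY4, hY5, hY6⟩ := startw_Y Y₀ D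
    (1 + R * (2 + |v₁| + 2 * Real.log R)) R κ₂ S₁ (3 * R * b) ρ₁ θ₁ hκ₂0 hρ₁ hθ
  obtain ⟨X, hX⟩ : ∃ X : ℝ, X = Real.exp (-(Y / 2)) := ⟨_, rfl⟩
  have hX0 : 0 < X := by rw [hX]; exact Real.exp_pos _
  rw [← hX] at hY3 hY5 hY6
  obtain ⟨ρ, hρ⟩ : ∃ ρ : ℝ, ρ = Real.sqrt κ / (b * X) := ⟨_, rfl⟩
  have hρ0 : 0 < ρ := by rw [hρ]; positivity
  have hR0 : 0 < R := by linarith
  have hsρ : K * R / ρ = S₁ * X := by
    rw [hρ, hS₁]
    field_simp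
  have hRρ : R < ρ := by
    have h1 : K * R / ρ ≤ 1 / 2 := by rw [hsρ]; exact hY5
    rw [div_le_iff₀ hρ0] at h1
    nlinarith
  have hρ2 : ρ ^ 2 * Real.exp (-Y + 1) = κ := by
    have e1 : Real.exp (-Y + 1) = (b * X) ^ 2 := by
      rw [hb, hX, ← Real.exp_add, ← Real.exp_nat_mul]
      congr 1
      push_cast
      ring
    rw [e1, hρ, div_pow, Real.sq_sqrt hκ.le]
    field_simp
  refine ⟨Y, κ₂, D * X, max (R + 1) ρ, 1 / (4 * R), hY1, hY2, hκ₂0, hκ₂κ, by positivity,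
    by positivity, ?_, hY4, ?_⟩
  · have e1 : 1 + R * (Y + 2 + |v₁| + 2 * Real.log R) =
        1 + R * (2 + |v₁| + 2 * Real.log R) + R * Y := by ring
    rw [e1]
    exact hY3
  intro Z q ε k δ z h hk hε g hg1 hg2 u hu hgu
  have hg0 : 0 < g := lt_of_lt_of_le (by positivity) hg1
  have hgI := startw_gI hg0
  have hε0 : 0 < ε := h.ε_pos
  have hkR : R + 1 ≤ k := (le_max_left _ _).trans hk
  have hkρ : ρ ≤ k := (le_max_right _ _).trans hk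
  have hεR : ε * R ≤ 1 / 4 := by
    rw [le_div_iff₀ (by positivity)] at hε
    linarith
  have hεg : ε * ‖(g:ℂ) * I‖ ≤ 1 / 4 := by
    rw [hgI]
    exact (mul_le_mul_of_nonneg_left hg2 hε0.le).trans hεR
  have hWz : ∀ u' : ℂ, ‖u' - u‖ ≤ 1 → (u', (g:ℂ) * I) ∈ Wz k κ := by
    intro u' hu'
    refine ⟨?_, ?_, ?_⟩
    · change ‖u'‖ < k
      have h1 : ‖u'‖ ≤ ‖u' - u‖ + ‖u‖ := by
        have := norm_add_le (u' - u) u
        rwa [sub_add_cancel] at this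
      linarith
    · change ‖(g:ℂ) * I‖ < k
      rw [hgI]
      linarith
    · change ‖(g:ℂ) * I‖ ^ 2 * Real.exp u'.im < κ
      rw [hgI]
      have h1 := startw_im hu'
      have h2 : Real.exp u'.im ≤ Real.exp u.im * Real.exp 1 := by
        rw [← Real.exp_add]
        exact Real.exp_le_exp.2 h1
      have h3 : Real.exp (-2) * Real.exp 1 ≤ 1 := by
        rw [← Real.exp_add]
        exact Real.exp_le_one_iff.2 (by norm_num)
      calc g ^ 2 * Real.exp u'.im ≤ g ^ 2 * (Real.exp u.im * Real.exp 1) := by gcongr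
        _ = (g ^ 2 * Real.exp u.im) * Real.exp 1 := by ring
        _ < κ₂ * Real.exp 1 := mul_lt_mul_of_pos_right hgu (Real.exp_pos _)
        _ ≤ κ * Real.exp (-2) * Real.exp 1 :=
            mul_le_mul_of_nonneg_right hκ₂1 (Real.exp_pos _).le
        _ = κ * (Real.exp (-2) * Real.exp 1) := by ring
        _ ≤ κ * 1 := mul_le_mul_of_nonneg_left h3 hκ.le
        _ = κ := mul_one κ
  have hK0 : (0:ℝ) ≤ K := by linarith
  obtain ⟨s1, s2, s3⟩ := h.steps (u₀ := u) (γ := (g:ℂ) * I) hK0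
    (fun u' hu' => ⟨hWz u' hu', h.bd _ (hWz u' hu')⟩) hεg
  have hu0 : (u, (g:ℂ) * I) ∈ Wz k κ := hWz u (by rw [sub_self, norm_zero]; exact zero_le_one)
  have hu1 : (u - ε * ((g:ℂ) * I), (g:ℂ) * I) ∈ Wz k κ := by
    refine hWz _ ?_
    have e1 : u - ε * ((g:ℂ) * I) - u = -(ε * ((g:ℂ) * I)) := by ring
    rw [e1, norm_neg, norm_mul, norm_real, Real.norm_eq_abs, abs_of_pos hε0]
    linarith
  have hzu : ‖z (u, (g:ℂ) * I) - u‖ ≤ K := h.bd _ hu0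
  obtain ⟨a, ha⟩ : ∃ a : ℂ, a = (z (u, (g:ℂ) * I) - z (u - ε * ((g:ℂ) * I), (g:ℂ) * I)) / ε :=
    ⟨_, rfl⟩
  rw [← ha] at s1 ⊢
  rw [hgI] at s1 s2
  have hna : ∀ s : ℝ, ‖a - g * I‖ ≤ s → ‖a‖ ≤ g + s := by
    intro s hs
    have h1 := norm_add_le (a - g * I) (g * I)
    rw [sub_add_cancel, hgI] at h1
    linarith
  have ha1 : ‖a‖ ≤ (1 + 2 * K) * g := by
    have h1 := hna _ s1
    linarith
  have hgX : g * Real.exp (u.im / 2) < c₂ := by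
    refine lt_of_pow_lt_pow_left₀ 2 hc₂0.le ?_
    refine lt_of_lt_of_le ?_ hκ₂2
    have e1 : (g * Real.exp (u.im / 2)) ^ 2 = g ^ 2 * Real.exp u.im := by
      rw [mul_pow, ← Real.exp_nat_mul]
      congr 2
      push_cast
      ring
    rw [e1]
    exact hgu
  refine ⟨hu0, hu1, hzu, ?_, ?_, ?_, s3, ?_⟩
  · refine ha1.trans ?_
    gcongr
  · have hϑn : ‖exp (-(I * z (u, (g:ℂ) * I) / 2)) * a‖ ≤ r / 2 := by
      rw [norm_mul, startw_norm]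
      have h1 := startw_im hzu
      calc Real.exp ((z (u, (g:ℂ) * I)).im / 2) * ‖a‖
          ≤ Real.exp ((u.im + K) / 2) * ((1 + 2 * K) * g) := by gcongr
        _ = Real.exp (K / 2) * (1 + 2 * K) * (g * Real.exp (u.im / 2)) := by
            rw [add_div, Real.exp_add]
            ring
        _ ≤ Real.exp (K / 2) * (1 + 2 * K) * c₂ :=
            mul_le_mul_of_nonneg_left hgX.le (by positivity)
        _ = (Real.exp (K / 2) * Real.exp (-(K / 2))) * (r / 2) := by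
            rw [hc₂]
            field_simp
        _ = r / 2 := by rw [← Real.exp_add, add_neg_cancel, Real.exp_zero, one_mul]
    have h1 := (Complex.abs_re_le_norm _).trans hϑn
    have h2 := (Complex.abs_im_le_norm _).trans hϑn
    rw [abs_le] at h1
    exact ⟨h1.1, by linarith [h1.2], h2⟩
  · refine s2.trans ?_
    gcongr
  · intro huY
    have hsch : ∀ u' : ℂ, ‖u' - u‖ ≤ 1 →
        (u', (g:ℂ) * I) ∈ Wz k κ ∧ ‖z (u', (g:ℂ) * I) - u'‖ ≤ S₁ * X := by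
      intro u' hu'
      refine ⟨hWz u' hu', ?_⟩
      have h1 := startw_im hu'
      have h2 := h.schwarz (u := u') (γ := (g:ℂ) * I) (ρ := ρ) (hWz u' hu').1 hρ0 hkρ (by
        rw [← hρ2]
        gcongr
        linarith) (by
        rw [hgI]
        linarith)
      rw [hgI] at h2
      refine h2.trans ?_
      rw [← hsρ]
      gcongr
    have hs0 : 0 ≤ S₁ * X := by positivity
    obtain ⟨t1, -, -⟩ := h.steps (u₀ := u) (γ := (g:ℂ) * I) hs0 hsch hεg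
    rw [← ha, hgI] at t1
    have t2 : ‖a - g * I‖ ≤ 2 * (S₁ * X) * R := t1.trans (by gcongr)
    have t3 : ‖a‖ ≤ 3 * R := by
      have h1 := hna _ t2
      nlinarith
    have t4 : ‖z (u, (g:ℂ) * I) - u‖ ≤ S₁ * X :=
      (hsch u (by rw [sub_self, norm_zero]; exact zero_le_one)).2
    have t5 : ‖exp (-(I * z (u, (g:ℂ) * I) / 2)) * a‖ ≤ 3 * R * b * X := by
      rw [norm_mul, startw_norm]
      have h1 := startw_im t4
      have h2 : Real.exp ((z (u, (g:ℂ) * I)).im / 2) ≤ b * X := by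
        rw [hb, hX, ← Real.exp_add]
        refine Real.exp_le_exp.2 ?_
        linarith
      calc Real.exp ((z (u, (g:ℂ) * I)).im / 2) * ‖a‖ ≤ (b * X) * (3 * R) := by gcongr
        _ = 3 * R * b * X := by ring
    obtain ⟨l1, l2⟩ := hLip _ (lt_of_le_of_lt t5 hY6)
    constructor
    · have e1 : P (exp (-(I * z (u, (g:ℂ) * I) / 2)) * a) * a - g * I =
          (P (exp (-(I * z (u, (g:ℂ) * I) / 2)) * a) - 1) * a + (a - g * I) := by ring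
      rw [e1]
      refine (norm_add_le _ _).trans ?_
      rw [norm_mul]
      have h1 : ‖P (exp (-(I * z (u, (g:ℂ) * I) / 2)) * a) - 1‖ * ‖a‖ ≤
          C * (3 * R * b * X) * (3 * R) := by
        refine mul_le_mul (l1.trans ?_) t3 (norm_nonneg _) (by positivity)
        gcongr
      have h2 : D * X = (C * (3 * R * b * X) * (3 * R) + 2 * (S₁ * X) * R) +
          (S₁ + 3 * C * R * b) * X := by
        rw [hD]
        ring
      have h3 : 0 ≤ (S₁ + 3 * C * R * b) * X := by positivity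
      linarith
    · have e1 : z (u, (g:ℂ) * I) + I * Lm (exp (-(I * z (u, (g:ℂ) * I) / 2)) * a) - u =
          (z (u, (g:ℂ) * I) - u) + I * Lm (exp (-(I * z (u, (g:ℂ) * I) / 2)) * a) := by ring
      rw [e1]
      refine (norm_add_le _ _).trans ?_
      rw [norm_mul, norm_I, one_mul]
      have h1 : ‖Lm (exp (-(I * z (u, (g:ℂ) * I) / 2)) * a)‖ ≤ C * (3 * R * b * X) := by
        refine l2.trans ?_
        gcongr
      have h2 : D * X = (S₁ * X + C * (3 * R * b * X)) +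
          (9 * C * R ^ 2 * b + 2 * R * S₁) * X := by
        rw [hD]
        ring
      have h3 : 0 ≤ (9 * C * R ^ 2 * b + 2 * R * S₁) * X := by positivity
      linarith

end Pool.Agent.MP_ae5b4e_an_NB5
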