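import Pool.Agent.Lib.MP_ae5b4e_an_NB5.Odd

/-!
# MP_ae5b4e_an, project NB_5(A): the perturbative step
-/

noncomputable section

namespace Pool.Agent.MP_ae5b4e_an_NB5

open Complex Set Filter Topology Metric
open Pool.Agent.MP_ae5b4e_an_NBT (St)
open Pool.Agent.MP_ae5b4e_an_NB2 (Sys)
open scoped ComplexConjugate

/-- `Pn Y l m (l - m)` is the left side of `odd_est` with `x = l - m` (`m = l - x`), so it is at most
`ω (5/4)^4 r^4 ≤ 3 ω r^4 < r / 8`. For `x` in the closed ball of radius `r / 4` about `l - m` one has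
`‖x‖ ≤ 3/2 r`, and `est_sc` (`M (3/2 r)² ≤ 1/4`) gives
`‖Pn' - 1‖ ≤ ‖cd‖ ‖s (m, l)‖ + ‖c (m, l) sd - 1‖ ≤ 1/2`. -/
theorem rok_pert {Y : Sys} {Ω : Set ℂ} {l m : ℂ} {r M ω : ℝ} (hY : Y.On Ω) (hr : 0 < r)
    (hsub : ball l (2 * r) ⊆ Ω) (hM : 0 ≤ M) (hQ : ∀ z ∈ ball l (2 * r), ‖Y.Q z‖ ≤ M)
    (hMr : M * r ^ 2 ≤ 1 / 32) (hω : 0 ≤ ω)
    (hodd : ∀ z : ℂ, ‖z‖ < 2 * r → ‖Y.Q (l + z) - Y.Q (l - z)‖ ≤ ω * ‖z‖)
    (hωr : ω * r ^ 3 ≤ 1 / 64) (hlm : ‖l - m‖ ≤ 5 / 4 * r) :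
    ROK Y Ω l m (r / 4) ∧ ‖Pn Y l m (l - m)‖ ≤ 3 * ω * r ^ 4 := by
  have hYb : Y.On (ball l (2 * r)) := ⟨fun z hz => hY.d1 z (hsub hz),
    fun z hz => hY.d1' z (hsub hz), fun z hz => hY.d2 z (hsub hz),
    fun z hz => hY.d2' z (hsub hz), fun z hz => hY.wr z (hsub hz)⟩
  have hn0 : 0 ≤ ‖l - m‖ := norm_nonneg _
  have hsq : ∀ x : ℂ, ‖x‖ ≤ 3 / 2 * r → M * ‖x‖ ^ 2 ≤ 9 / 128 := by
    intro x hx
    have h1 : ‖x‖ ^ 2 ≤ (3 / 2 * r) ^ 2 := pow_le_pow_left₀ (norm_nonneg _) hx 2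
    calc M * ‖x‖ ^ 2 ≤ M * (3 / 2 * r) ^ 2 := mul_le_mul_of_nonneg_left h1 hM
      _ = 9 / 4 * (M * r ^ 2) := by ring
      _ ≤ 9 / 4 * (1 / 32) := by linarith
      _ = 9 / 128 := by norm_num
  have hl : l ∈ Ω := hsub (mem_ball_self (by linarith))
  have hmb : m ∈ ball l (2 * r) := by
    rw [mem_ball, dist_eq_norm, norm_sub_rev]
    linarith
  have hnm : ‖m - l‖ ≤ 5 / 4 * r := by
    rw [norm_sub_rev]
    exact hlm
  have hsmall : ‖Pn Y l m (l - m)‖ ≤ 3 * ω * r ^ 4 := by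
    have h1 := odd_est (l := l) (x := l - m) hYb hM hQ hω hodd (by linarith)
      ((hsq _ (by linarith)).trans (by norm_num))
    rw [sub_sub_cancel] at h1
    refine h1.trans ?_
    have h2 : ‖l - m‖ ^ 4 ≤ (5 / 4 * r) ^ 4 := pow_le_pow_left₀ hn0 hlm 4
    have hr4 : 0 < r ^ 4 := pow_pos hr 4
    calc ω * ‖l - m‖ ^ 4 ≤ ω * (5 / 4 * r) ^ 4 := mul_le_mul_of_nonneg_left h2 hω
      _ = (625 / 256) * (ω * r ^ 4) := by ring
      _ ≤ 3 * (ω * r ^ 4) := by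
        have : 0 ≤ ω * r ^ 4 := mul_nonneg hω hr4.le
        linarith
      _ = 3 * ω * r ^ 4 := by ring
  refine ⟨⟨by linarith, hl, hsub hmb, ?_, ?_, ?_⟩, hsmall⟩
  · intro x hx
    refine hsub ?_
    rw [mem_closedBall, dist_eq_norm] at hx
    rw [mem_ball, dist_eq_norm, add_sub_cancel_left]
    have : ‖x‖ ≤ ‖x - (l - m)‖ + ‖l - m‖ := by
      have := norm_add_le (x - (l - m)) (l - m)
      rwa [sub_add_cancel] at this
    linarith
  · intro x hx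
    rw [mem_closedBall, dist_eq_norm] at hx
    have hx2 : ‖x‖ ≤ 3 / 2 * r := by
      have := norm_add_le (x - (l - m)) (l - m)
      rw [sub_add_cancel] at this
      linarith
    have hnx : 0 ≤ ‖x‖ := norm_nonneg _
    obtain ⟨a1, a2, -, -⟩ := est_sc (l := l) (x := m - l) hYb hM hQ (by linarith)
      ((hsq _ (by linarith)).trans (by norm_num))
    obtain ⟨-, -, b3, b4⟩ := est_sc (l := l) (x := x) hYb hM hQ (by linarith)
      ((hsq _ hx2).trans (by norm_num))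
    rw [add_sub_cancel] at a1 a2
    have hA := hsq (m - l) (by linarith)
    have hB := hsq x hx2
    have hml0 : 0 ≤ ‖m - l‖ := norm_nonneg _
    have c1 : ‖Y.c m l - 1‖ ≤ 9 / 128 := a1.trans hA
    have c2 : ‖Y.sd (l + x) l - 1‖ ≤ 9 / 128 := b3.trans hB
    have c3 : ‖Y.s m l‖ ≤ (1 + 9 / 128) * ‖m - l‖ := by
      have h1 : ‖Y.s m l‖ ≤ ‖Y.s m l - (m - l)‖ + ‖m - l‖ := by
        have := norm_add_le (Y.s m l - (m - l)) (m - l)
        rwa [sub_add_cancel] at this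
      have h2 : M * ‖m - l‖ ^ 3 = M * ‖m - l‖ ^ 2 * ‖m - l‖ := by ring
      have h3 : M * ‖m - l‖ ^ 2 * ‖m - l‖ ≤ 9 / 128 * ‖m - l‖ :=
        mul_le_mul_of_nonneg_right hA hml0
      linarith
    have c4 : ‖Y.cd (l + x) l * Y.s m l‖ ≤ 1 / 4 := by
      rw [norm_mul]
      calc ‖Y.cd (l + x) l‖ * ‖Y.s m l‖ ≤ (2 * M * ‖x‖) * ((1 + 9 / 128) * ‖m - l‖) :=
            mul_le_mul b4 c3 (norm_nonneg _) (by positivity)
        _ ≤ (2 * M * (3 / 2 * r)) * ((1 + 9 / 128) * (5 / 4 * r)) := by gcongr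
        _ = (2 * (3 / 2) * (1 + 9 / 128) * (5 / 4)) * (M * r ^ 2) := by ring
        _ ≤ (2 * (3 / 2) * (1 + 9 / 128) * (5 / 4)) * (1 / 32) := by
            exact mul_le_mul_of_nonneg_left hMr (by norm_num)
        _ ≤ 1 / 4 := by norm_num
    have c5 : ‖Y.c m l * Y.sd (l + x) l - 1‖ ≤ 1 / 4 := by
      have e : Y.c m l * Y.sd (l + x) l - 1 = (Y.c m l - 1) * (Y.sd (l + x) l - 1) +
        (Y.c m l - 1) + (Y.sd (l + x) l - 1) := by ring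
      rw [e]
      refine (norm_add_le _ _).trans ?_
      have h1 := norm_add_le ((Y.c m l - 1) * (Y.sd (l + x) l - 1)) (Y.c m l - 1)
      have h2 : ‖(Y.c m l - 1) * (Y.sd (l + x) l - 1)‖ ≤ 9 / 128 * (9 / 128) := by
        rw [norm_mul]
        exact mul_le_mul c1 c2 (norm_nonneg _) (by norm_num)
      linarith
    have e : Pn' Y l m x - 1 = Y.cd (l + x) l * Y.s m l +
      (Y.c m l * Y.sd (l + x) l - 1) := by
      unfold Pn'
      ring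
    rw [e]
    refine (norm_add_le _ _).trans ?_
    linarith
  · refine hsmall.trans_lt ?_
    have h1 : 3 * ω * r ^ 4 = 3 * (ω * r ^ 3) * r := by ring
    rw [h1]
    nlinarith

end Pool.Agent.MP_ae5b4e_an_NB5
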