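import Pool.Agent.Lib.MP_ae5b4e_an_NB5.Defs

/-!
# MP_ae5b4e_an, project NB_5(A): sums along a vertical chain
-/

noncomputable section

namespace Pool.Agent.MP_ae5b4e_an_NB5

open Complex Set Filter Topology Metric
open Pool.Agent.MP_ae5b4e_an_NBT (St)
open Pool.Agent.MP_ae5b4e_an_NB2 (Sys)
open scoped ComplexConjugate

private theorem step_aux (B : ℕ) {A D r : ℝ} (hA : 0 < A) (hr : 0 < r) (hD : r < D) :
    A / D ^ B + r * (A * B / D ^ (B + 1)) ≤ A / (D - r) ^ B := by
  have hD0 : 0 < D := hr.trans hD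
  have hu0 : 0 < r / D := div_pos hr hD0
  have hu1 : r / D < 1 := (div_lt_one hD0).2 hD
  have e1 : A / D ^ B + r * (A * B / D ^ (B + 1)) = A / D ^ B * (1 + B * (r / D)) := by
    rw [pow_succ]
    field_simp
  have e2 : D - r = D * (1 - r / D) := by field_simp
  rw [e1, e2, mul_pow, ← div_div]
  have hp : 0 < (1 - r / D) ^ B := pow_pos (by linarith) B
  rw [le_div_iff₀ hp, mul_assoc]
  have hb : (1 + B * (r / D)) ≤ (1 + r / D) ^ B :=
    one_add_mul_le_pow (by linarith) B
  have h1 : (1 + B * (r / D)) * (1 - r / D) ^ B ≤ 1 := by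
    calc (1 + B * (r / D)) * (1 - r / D) ^ B ≤ (1 + r / D) ^ B * (1 - r / D) ^ B := by
          exact mul_le_mul_of_nonneg_right hb hp.le
      _ = ((1 + r / D) * (1 - r / D)) ^ B := (mul_pow _ _ _).symm
      _ ≤ 1 := pow_le_one₀ (mul_nonneg (by linarith) (by linarith)) (by nlinarith)
  have h2 : 0 < A / D ^ B := div_pos hA (pow_pos hD0 B)
  calc A / D ^ B * ((1 + B * (r / D)) * (1 - r / D) ^ B) ≤ A / D ^ B * 1 :=
        mul_le_mul_of_nonneg_left h1 h2.le
    _ = A / D ^ B := mul_one _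

private theorem sum_aux (B : ℕ) {n : ℕ} {H A r y : ℝ} (hA : 0 < A) (hr : 0 < r)
    (hn : y + n * r < H) :
    ∑ i ∈ Finset.range n, r * (A * B / (H - (y + i * r)) ^ (B + 1)) ≤
      A / (H - (y + n * r)) ^ B := by
  induction n with
  | zero =>
    simp only [Finset.range_zero, Finset.sum_empty]
    refine (div_pos hA (pow_pos ?_ B)).le
    linarith
  | succ n ih =>
    have hn' : y + (n + 1) * r < H := by
      rw [Nat.cast_succ] at hn
      exact hn
    have h1 := ih (by nlinarith)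
    rw [Finset.sum_range_succ]
    have h2 := step_aux B (D := H - (y + n * r)) hA hr (by linarith)
    have e : H - (y + ((n + 1 : ℕ) : ℝ) * r) = H - (y + n * r) - r := by
      push_cast
      ring
    rw [e]
    linarith

/-- `r g (y_i) ≤ G (y_{i+1}) - G (y_i)` for the increasing function `g = G'`, `G y = A / (H - y) ^ B`;
telescoping (induction on `n`; convexity inequality `G (y + r) ≥ G y + r G' y`). -/
theorem sum_one {B n : ℕ} {H A r y : ℝ} (hB : 2 ≤ B) (hA : 0 < A) (hr : 0 < r)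
    (hn : y + n * r < H) :
    ∑ i ∈ Finset.range n, r * (A * B / (H - (y + i * r)) ^ (B + 1)) ≤
      A / (H - (y + n * r)) ^ B := by
  exact sum_aux B hA hr hn

/-- the same with `G y = A / ((B - 1) (H - y) ^ (B - 1))`; the last term `i = n` separately, and
`1 / (B - 1) ≤ 2 / B` -/
theorem sum_two {B n : ℕ} {H A r y : ℝ} (hB : 2 ≤ B) (hA : 0 < A) (hr : 0 < r)
    (hn : y + n * r < H) :
    ∑ i ∈ Finset.range (n + 1), r * (A / (H - (y + i * r)) ^ B) ≤
      (2 * (H - (y + n * r)) / B + r) * (A / (H - (y + n * r)) ^ B) := by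
  obtain ⟨b, rfl⟩ : ∃ b, B = b + 1 := ⟨B - 1, by omega⟩
  have hb : 1 ≤ b := by omega
  have hb' : (1:ℝ) ≤ b := by exact_mod_cast hb
  have hD : 0 < H - (y + n * r) := by linarith
  have h1 := sum_aux b (n := n) (H := H) (A := A / b) (r := r) (y := y)
    (div_pos hA (by linarith)) hr hn
  have e1 : ∀ i ∈ Finset.range n, r * (A / b * b / (H - (y + i * r)) ^ (b + 1)) =
      r * (A / (H - (y + i * r)) ^ (b + 1)) := by
    intro i _
    rw [div_mul_cancel₀ A (by linarith : (b:ℝ) ≠ 0)]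
  rw [Finset.sum_congr rfl e1] at h1
  rw [Finset.sum_range_succ]
  have e2 : A / b / (H - (y + n * r)) ^ b =
      (H - (y + n * r)) / b * (A / (H - (y + n * r)) ^ (b + 1)) := by
    rw [pow_succ]
    field_simp
  rw [e2] at h1
  have h3 : 0 < A / (H - (y + n * r)) ^ (b + 1) := div_pos hA (pow_pos hD _)
  have h4 : (H - (y + n * r)) / b ≤ 2 * (H - (y + n * r)) / ((b + 1 : ℕ) : ℝ) := by
    push_cast
    rw [div_le_div_iff₀ (by linarith) (by linarith)]
    nlinarith
  calc _ ≤ (H - (y + n * r)) / b * (A / (H - (y + n * r)) ^ (b + 1)) +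
        r * (A / (H - (y + n * r)) ^ (b + 1)) := by linarith
    _ ≤ 2 * (H - (y + n * r)) / ((b + 1 : ℕ) : ℝ) * (A / (H - (y + n * r)) ^ (b + 1)) +
        r * (A / (H - (y + n * r)) ^ (b + 1)) := by
        have := mul_le_mul_of_nonneg_right h4 h3.le
        linarith
    _ = _ := by ring

end Pool.Agent.MP_ae5b4e_an_NB5
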