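import Pool.Agent.Lib.MP_ae5b4e_an_NB5.SpD

/-!
# MP_ae5b4e_an, project NB_5(A): the almost conserved quantities
-/

noncomputable section

namespace Pool.Agent.MP_ae5b4e_an_NB5

open Complex Set Filter Topology Metric
open Pool.Agent.MP_ae5b4e_an_NBT (St)
open Pool.Agent.MP_ae5b4e_an_NB2 (Sys)
open scoped ComplexConjugate

private theorem tel_contSn : Continuous Sn := by
  rw [continuous_iff_continuousAt]
  intro b
  change ContinuousAt (dslope Complex.sin 0) b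
  by_cases h : b = 0
  · subst h
    exact continuousAt_dslope_same.2 Complex.differentiableAt_sin
  · exact (continuousAt_dslope_of_ne h).2 Complex.continuous_sin.continuousAt

/-- first order expansion, locally uniformly -/
private theorem tel_loc {G T b : ℂ × ℂ → ℂ} {p : ℂ × ℂ} (hG : AnalyticAt ℂ G p)
    (hb : ContinuousAt b p) (hT : ContinuousAt T p)
    (hd : HasDerivAt (fun t : ℂ => G (p.1 + t * p.2, p.2 + t * b p)) (T p) 0) {η : ℝ}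
    (hη : 0 < η) :
    ∀ᶠ x : (ℝ × ℂ) × (ℂ × ℂ) in 𝓝 (((0:ℝ), (0:ℂ)), p), 0 < x.1.1 →
      ‖G (x.2.1 + x.1.1 * (x.2.2 + x.1.1 * (b x.2 + x.1.2)), x.2.2 + x.1.1 * (b x.2 + x.1.2)) -
        G x.2 - x.1.1 * T x.2‖ ≤ x.1.1 * η := by
  have hs := hG.hasStrictFDerivAt
  obtain ⟨G', hG'⟩ : ∃ G' : ℂ × ℂ →L[ℂ] ℂ, G' = fderiv ℂ G p := ⟨_, rfl⟩
  rw [← hG'] at hs
  have hTp : G' (p.2, b p) = T p := by
    have h1 : HasDerivAt (fun t : ℂ => ((p.1 + t * p.2, p.2 + t * b p) : ℂ × ℂ)) (p.2, b p) 0 := by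
      have h2 : HasDerivAt (fun t : ℂ => p.1 + t * p.2) p.2 0 := by
        simpa using ((hasDerivAt_id (0:ℂ)).mul_const p.2).const_add p.1
      have h3 : HasDerivAt (fun t : ℂ => p.2 + t * b p) (b p) 0 := by
        simpa using ((hasDerivAt_id (0:ℂ)).mul_const (b p)).const_add p.2
      exact h2.prodMk h3
    have h2 : HasFDerivAt G G' ((fun t : ℂ => ((p.1 + t * p.2, p.2 + t * b p) : ℂ × ℂ)) 0) := by
      have e : ((fun t : ℂ => ((p.1 + t * p.2, p.2 + t * b p) : ℂ × ℂ)) 0) = p := by simp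
      rw [e]
      exact hs.hasFDerivAt
    exact (h2.comp_hasDerivAt (0:ℂ) h1).unique hd
  have hb2 : ContinuousAt (fun x : (ℝ × ℂ) × (ℂ × ℂ) => b x.2) (((0:ℝ), (0:ℂ)), p) :=
    ContinuousAt.comp (g := b) (f := Prod.snd) hb continuousAt_snd
  have hT2 : ContinuousAt (fun x : (ℝ × ℂ) × (ℂ × ℂ) => T x.2) (((0:ℝ), (0:ℂ)), p) :=
    ContinuousAt.comp (g := T) (f := Prod.snd) hT continuousAt_snd
  have hε : ContinuousAt (fun x : (ℝ × ℂ) × (ℂ × ℂ) => (x.1.1 : ℂ)) (((0:ℝ), (0:ℂ)), p) := by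
    fun_prop
  have hδ : ContinuousAt (fun x : (ℝ × ℂ) × (ℂ × ℂ) => x.1.2) (((0:ℝ), (0:ℂ)), p) := by
    fun_prop
  have hz : ContinuousAt (fun x : (ℝ × ℂ) × (ℂ × ℂ) => x.2.1) (((0:ℝ), (0:ℂ)), p) := by
    fun_prop
  have ha : ContinuousAt (fun x : (ℝ × ℂ) × (ℂ × ℂ) => x.2.2) (((0:ℝ), (0:ℂ)), p) := by
    fun_prop
  have hV2 : ContinuousAt (fun x : (ℝ × ℂ) × (ℂ × ℂ) => b x.2 + x.1.2) (((0:ℝ), (0:ℂ)), p) :=
    hb2.add hδ
  have hV1 : ContinuousAt (fun x : (ℝ × ℂ) × (ℂ × ℂ) => x.2.2 + x.1.1 * (b x.2 + x.1.2))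
      (((0:ℝ), (0:ℂ)), p) := ha.add (hε.mul hV2)
  have hV : ContinuousAt (fun x : (ℝ × ℂ) × (ℂ × ℂ) =>
      ((x.2.2 + x.1.1 * (b x.2 + x.1.2), b x.2 + x.1.2) : ℂ × ℂ)) (((0:ℝ), (0:ℂ)), p) :=
    hV1.prodMk hV2
  have hy : ContinuousAt (fun x : (ℝ × ℂ) × (ℂ × ℂ) =>
      ((x.2.1 + x.1.1 * (x.2.2 + x.1.1 * (b x.2 + x.1.2)),
        x.2.2 + x.1.1 * (b x.2 + x.1.2)) : ℂ × ℂ)) (((0:ℝ), (0:ℂ)), p) :=
    (hz.add (hε.mul hV1)).prodMk hV1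
  obtain ⟨M, hM⟩ : ∃ M : ℝ, M = ‖((p.2, b p) : ℂ × ℂ)‖ + 1 := ⟨_, rfl⟩
  have hM0 : 0 < M := by rw [hM]; positivity
  have e1 : ∀ᶠ x : (ℝ × ℂ) × (ℂ × ℂ) in 𝓝 (((0:ℝ), (0:ℂ)), p),
      ‖((x.2.2 + x.1.1 * (b x.2 + x.1.2), b x.2 + x.1.2) : ℂ × ℂ)‖ < M := by
    refine hV.norm.tendsto.eventually (gt_mem_nhds ?_)
    simp only [ofReal_zero, zero_mul, add_zero]
    rw [hM]
    exact lt_add_one _
  have e2 : ∀ᶠ x : (ℝ × ℂ) × (ℂ × ℂ) in 𝓝 (((0:ℝ), (0:ℂ)), p),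
      ‖G' (x.2.2 + x.1.1 * (b x.2 + x.1.2), b x.2 + x.1.2) - T x.2‖ < η / 2 := by
    have h1 : ContinuousAt (fun x : (ℝ × ℂ) × (ℂ × ℂ) =>
        ‖G' (x.2.2 + x.1.1 * (b x.2 + x.1.2), b x.2 + x.1.2) - T x.2‖)
        (((0:ℝ), (0:ℂ)), p) :=
      ((G'.continuous.continuousAt.comp hV).sub hT2).norm
    refine h1.tendsto.eventually (gt_mem_nhds ?_)
    simp only [ofReal_zero, zero_mul, add_zero]
    rw [hTp, sub_self, norm_zero]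
    positivity
  have ht : Tendsto (fun x : (ℝ × ℂ) × (ℂ × ℂ) =>
      ((((x.2.1 + x.1.1 * (x.2.2 + x.1.1 * (b x.2 + x.1.2)),
        x.2.2 + x.1.1 * (b x.2 + x.1.2)) : ℂ × ℂ), x.2) : (ℂ × ℂ) × (ℂ × ℂ)))
      (𝓝 (((0:ℝ), (0:ℂ)), p)) (𝓝 (p, p)) := by
    have h1 := (hy.prodMk (continuousAt_snd (p := ((((0:ℝ), (0:ℂ)), p) :
      (ℝ × ℂ) × (ℂ × ℂ))))).tendsto
    simpa only [ofReal_zero, zero_mul, add_zero] using h1
  have e3 := (hs.isLittleO.comp_tendsto ht).def (c := η / (2 * M)) (by positivity)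
  filter_upwards [e1, e2, e3] with x h1 h2 h3 h0
  simp only [Function.comp_apply] at h3
  have hsub : ((x.2.1 + x.1.1 * (x.2.2 + x.1.1 * (b x.2 + x.1.2)),
      x.2.2 + x.1.1 * (b x.2 + x.1.2)) : ℂ × ℂ) - x.2 =
      (x.1.1 : ℂ) • ((x.2.2 + x.1.1 * (b x.2 + x.1.2), b x.2 + x.1.2) : ℂ × ℂ) := by
    refine Prod.ext ?_ ?_
    · simp
    · simp
  rw [hsub, map_smul, norm_smul, norm_real, Real.norm_eq_abs, abs_of_pos h0, smul_eq_mul] at h3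
  have e4 : G (x.2.1 + x.1.1 * (x.2.2 + x.1.1 * (b x.2 + x.1.2)),
      x.2.2 + x.1.1 * (b x.2 + x.1.2)) - G x.2 - x.1.1 * T x.2 =
      (G (x.2.1 + x.1.1 * (x.2.2 + x.1.1 * (b x.2 + x.1.2)),
        x.2.2 + x.1.1 * (b x.2 + x.1.2)) - G x.2 -
        x.1.1 * G' (x.2.2 + x.1.1 * (b x.2 + x.1.2), b x.2 + x.1.2)) +
      x.1.1 * (G' (x.2.2 + x.1.1 * (b x.2 + x.1.2), b x.2 + x.1.2) - T x.2) := by ring
  rw [e4]
  refine (norm_add_le _ _).trans ?_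
  have h4 : ‖(x.1.1 : ℂ) * (G' (x.2.2 + x.1.1 * (b x.2 + x.1.2), b x.2 + x.1.2) - T x.2)‖ ≤
      x.1.1 * (η / 2) := by
    rw [norm_mul, norm_real, Real.norm_eq_abs, abs_of_pos h0]
    exact mul_le_mul_of_nonneg_left h2.le h0.le
  have h5 : η / (2 * M) * (x.1.1 *
      ‖((x.2.2 + x.1.1 * (b x.2 + x.1.2), b x.2 + x.1.2) : ℂ × ℂ)‖) ≤ x.1.1 * (η / 2) := by
    calc η / (2 * M) * (x.1.1 * ‖((x.2.2 + x.1.1 * (b x.2 + x.1.2), b x.2 + x.1.2) : ℂ × ℂ)‖)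
        ≤ η / (2 * M) * (x.1.1 * M) := by gcongr
      _ = x.1.1 * (η / 2) := by field_simp
  calc _ ≤ η / (2 * M) * (x.1.1 *
      ‖((x.2.2 + x.1.1 * (b x.2 + x.1.2), b x.2 + x.1.2) : ℂ × ℂ)‖) + x.1.1 * (η / 2) :=
        add_le_add h3 h4
    _ ≤ x.1.1 * (η / 2) + x.1.1 * (η / 2) := by linarith
    _ = x.1.1 * η := by ring

private theorem tel_closedRc (ϑ₁ r : ℝ) : IsClosed (Rc ϑ₁ r) := by
  have h1 : IsClosed {ϑ : ℂ | -r ≤ ϑ.re} := isClosed_le continuous_const continuous_re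
  have h2 : IsClosed {ϑ : ℂ | ϑ.re ≤ ϑ₁ + r} := isClosed_le continuous_re continuous_const
  have h3 : IsClosed {ϑ : ℂ | |ϑ.im| ≤ r} := isClosed_le continuous_im.abs continuous_const
  exact h1.inter (h2.inter h3)

private theorem tel_near {ϑ₁ r : ℝ} {x y : ℂ} (hx : x ∈ Rc ϑ₁ (3 * r / 4))
    (h : ‖y - x‖ ≤ r / 4) : y ∈ Rc ϑ₁ r := by
  have h1 := (Complex.abs_re_le_norm (y - x)).trans h
  have h2 := (Complex.abs_im_le_norm (y - x)).trans h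
  rw [sub_re, abs_le] at h1
  rw [sub_im, abs_le] at h2
  obtain ⟨h3, h4, h5⟩ := hx
  rw [abs_le] at h5
  refine ⟨by linarith, by linarith, ?_⟩
  rw [abs_le]
  constructor <;> linarith

/-- `z' = z + ε a'`, `a' = a + ε bz z a + O (ε η)`, `ϑ = exp (- I z / 2) a`, `ϑ' = exp (- I z' / 2) a'`.
First order expansion (all functions are analytic on a neighbourhood of the compact sets
`‖z‖ ≤ R + 1`, `‖a‖ ≤ R + 1`, `Rc ϑ₁ r`, so the second order terms are `O (ε²)` with a constant which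
depends on `R`, `ϑ₁`, `r`, `P`, `Lm` only):
`ϑ' - ϑ = ε (- (I/2) a ϑ + exp (- I z/2) bz) + ... = - (I/2) ε a ϑ Sn² + O (ε² + ε η)`
(`exp (- I z / 2) bz = (I/2) a ϑ (1 - Sn²)`), so `ϑ' ∈ Rc ϑ₁ r` for small `ε`;
`P (ϑ') a' - P (ϑ) a = P' (ϑ' - ϑ) a + P (a' - a) + ... = ε (- (I/2) a² ϑ Sn² P' + (I/2) a² P (1 - Sn²)) +
... = O (ε² + ε η)` by `dP`; `z' - z + I (Lm ϑ' - Lm ϑ) = ε a + I Lm' (- (I/2) ε a ϑ Sn²) + ... =
ε (a + (1/2) a ϑ Sn² Lm') + ... = ε a P + ...` by `dL`. -/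
theorem tel {P Lm : ℂ → ℂ} (hS : Sp P Lm) {ϑ₁ r : ℝ} (hr : 0 < r) (hsub : Rc ϑ₁ r ⊆ ball 0 Real.pi)
    {R η' : ℝ} (hR : 1 ≤ R) (hη' : 0 < η') :
    ∃ ε₀ η : ℝ, 0 < ε₀ ∧ 0 < η ∧ ∀ ε : ℝ, 0 < ε → ε ≤ ε₀ → ∀ z a a' : ℂ, ‖z‖ ≤ R → ‖a‖ ≤ R →
      exp (-(I * z / 2)) * a ∈ Rc ϑ₁ (3 * r / 4) → ‖a' - a - ε * bz z a‖ ≤ ε * η →
      exp (-(I * (z + ε * a') / 2)) * a' ∈ Rc ϑ₁ r ∧
      ‖P (exp (-(I * (z + ε * a') / 2)) * a') * a' - P (exp (-(I * z / 2)) * a) * a‖ ≤ ε * η' ∧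
      ‖(z + ε * a' + I * Lm (exp (-(I * (z + ε * a') / 2)) * a')) -
        (z + I * Lm (exp (-(I * z / 2)) * a)) - ε * (P (exp (-(I * z / 2)) * a) * a)‖ ≤ ε * η' := by
  have hK : IsCompact {p : ℂ × ℂ | ‖p.1‖ ≤ R ∧ ‖p.2‖ ≤ R ∧
      exp (-(I * p.1 / 2)) * p.2 ∈ Rc ϑ₁ (3 * r / 4)} := by
    refine ((isCompact_closedBall (0:ℂ) R).prod (isCompact_closedBall (0:ℂ) R)).of_isClosed_subset
      ?_ ?_
    · have h1 : IsClosed {p : ℂ × ℂ | ‖p.1‖ ≤ R} :=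
        isClosed_le continuous_fst.norm continuous_const
      have h2 : IsClosed {p : ℂ × ℂ | ‖p.2‖ ≤ R} :=
        isClosed_le continuous_snd.norm continuous_const
      have h3 : IsClosed {p : ℂ × ℂ | exp (-(I * p.1 / 2)) * p.2 ∈ Rc ϑ₁ (3 * r / 4)} :=
        (tel_closedRc ϑ₁ (3 * r / 4)).preimage (by fun_prop)
      exact h1.inter (h2.inter h3)
    · rintro ⟨z, a⟩ ⟨h1, h2, _⟩
      exact ⟨mem_closedBall_zero_iff.2 h1, mem_closedBall_zero_iff.2 h2⟩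
  have hmain : ∀ᶠ x : ℝ × ℂ in 𝓝 ((0:ℝ), (0:ℂ)), ∀ p ∈ {p : ℂ × ℂ | ‖p.1‖ ≤ R ∧ ‖p.2‖ ≤ R ∧
      exp (-(I * p.1 / 2)) * p.2 ∈ Rc ϑ₁ (3 * r / 4)}, 0 < x.1 →
      ‖exp (-(I * (p.1 + x.1 * (p.2 + x.1 * (bz p.1 p.2 + x.2))) / 2)) *
        (p.2 + x.1 * (bz p.1 p.2 + x.2)) - exp (-(I * p.1 / 2)) * p.2‖ ≤ r / 4 ∧
      ‖P (exp (-(I * (p.1 + x.1 * (p.2 + x.1 * (bz p.1 p.2 + x.2))) / 2)) *
        (p.2 + x.1 * (bz p.1 p.2 + x.2))) * (p.2 + x.1 * (bz p.1 p.2 + x.2)) -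
        P (exp (-(I * p.1 / 2)) * p.2) * p.2‖ ≤ x.1 * η' ∧
      ‖(p.1 + x.1 * (p.2 + x.1 * (bz p.1 p.2 + x.2)) +
        I * Lm (exp (-(I * (p.1 + x.1 * (p.2 + x.1 * (bz p.1 p.2 + x.2))) / 2)) *
          (p.2 + x.1 * (bz p.1 p.2 + x.2)))) -
        (p.1 + I * Lm (exp (-(I * p.1 / 2)) * p.2)) -
        x.1 * (P (exp (-(I * p.1 / 2)) * p.2) * p.2)‖ ≤ x.1 * η' := by
    refine hK.eventually_forall_of_forall_eventually ?_
    rintro ⟨z₀, a₀⟩ ⟨hz₀, ha₀, hΘ₀⟩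
    have hmem : exp (-(I * z₀ / 2)) * a₀ ∈ ball (0:ℂ) Real.pi :=
      hsub (tel_near hΘ₀ (by rw [sub_self, norm_zero]; linarith))
    have hΘan : AnalyticAt ℂ (fun p : ℂ × ℂ => exp (-(I * p.1 / 2)) * p.2) (z₀, a₀) := by
      have h1 : AnalyticAt ℂ (fun p : ℂ × ℂ => p.1) (z₀, a₀) := analyticAt_fst
      have h2 : AnalyticAt ℂ (fun p : ℂ × ℂ => p.2) (z₀, a₀) := analyticAt_snd
      have h3 : AnalyticAt ℂ (fun p : ℂ × ℂ => -(I * p.1 / 2)) (z₀, a₀) :=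
        ((analyticAt_const.fun_mul h1).fun_div analyticAt_const two_ne_zero).fun_neg
      have h4 : AnalyticAt ℂ (fun p : ℂ × ℂ => exp (-(I * p.1 / 2))) (z₀, a₀) := h3.cexp
      exact h4.fun_mul h2
    have hPan : AnalyticAt ℂ (fun p : ℂ × ℂ => P (exp (-(I * p.1 / 2)) * p.2)) (z₀, a₀) :=
      AnalyticAt.fun_comp (g := P) (f := fun p : ℂ × ℂ => exp (-(I * p.1 / 2)) * p.2)
        (x := (z₀, a₀)) (hS.anP _ hmem) hΘan
    have hLan : AnalyticAt ℂ (fun p : ℂ × ℂ => Lm (exp (-(I * p.1 / 2)) * p.2)) (z₀, a₀) :=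
      AnalyticAt.fun_comp (g := Lm) (f := fun p : ℂ × ℂ => exp (-(I * p.1 / 2)) * p.2)
        (x := (z₀, a₀)) (hS.anL _ hmem) hΘan
    have hbc : ContinuousAt (fun p : ℂ × ℂ => bz p.1 p.2) (z₀, a₀) := by
      have h1 : Continuous (fun p : ℂ × ℂ => bz p.1 p.2) := by
        unfold bz
        have h2 := tel_contSn
        fun_prop
      exact h1.continuousAt
    have hΘd : HasDerivAt (fun t : ℂ => exp (-(I * (z₀ + t * a₀) / 2)) * (a₀ + t * bz z₀ a₀))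
        (exp (-(I * z₀ / 2)) * (-(I * a₀ / 2)) * a₀ + exp (-(I * z₀ / 2)) * bz z₀ a₀) 0 := by
      have h1 : HasDerivAt (fun t : ℂ => z₀ + t * a₀) a₀ 0 := by
        simpa using ((hasDerivAt_id (0:ℂ)).mul_const a₀).const_add z₀
      have h2 : HasDerivAt (fun t : ℂ => a₀ + t * bz z₀ a₀) (bz z₀ a₀) 0 := by
        simpa using ((hasDerivAt_id (0:ℂ)).mul_const (bz z₀ a₀)).const_add a₀
      have h3 := (((h1.const_mul I).div_const 2).fun_neg.cexp).fun_mul h2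
      simpa using h3
    have hdP := hS.dP _ hmem
    have hdL := hS.dL _ hmem
    have hPd : HasDerivAt P (deriv P (exp (-(I * z₀ / 2)) * a₀)) (exp (-(I * z₀ / 2)) * a₀) :=
      (hS.anP _ hmem).differentiableAt.hasDerivAt
    have hLd : HasDerivAt Lm (deriv Lm (exp (-(I * z₀ / 2)) * a₀)) (exp (-(I * z₀ / 2)) * a₀) :=
      (hS.anL _ hmem).differentiableAt.hasDerivAt
    have hbz : bz z₀ a₀ = I / 2 * a₀ ^ 2 * (1 - Sn (exp (-(I * z₀ / 2)) * a₀) ^ 2) := rfl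
    -- the three statements
    have A1 : ∀ᶠ x : (ℝ × ℂ) × (ℂ × ℂ) in 𝓝 (((0:ℝ), (0:ℂ)), (z₀, a₀)),
        ‖exp (-(I * (x.2.1 + x.1.1 * (x.2.2 + x.1.1 * (bz x.2.1 x.2.2 + x.1.2))) / 2)) *
        (x.2.2 + x.1.1 * (bz x.2.1 x.2.2 + x.1.2)) - exp (-(I * x.2.1 / 2)) * x.2.2‖ < r / 4 := by
      have hb2 : ContinuousAt (fun x : (ℝ × ℂ) × (ℂ × ℂ) => bz x.2.1 x.2.2)
          (((0:ℝ), (0:ℂ)), (z₀, a₀)) :=
        ContinuousAt.comp (g := fun p : ℂ × ℂ => bz p.1 p.2) (f := Prod.snd) hbc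
          continuousAt_snd
      have h1 : ContinuousAt (fun x : (ℝ × ℂ) × (ℂ × ℂ) =>
          ‖exp (-(I * (x.2.1 + x.1.1 * (x.2.2 + x.1.1 * (bz x.2.1 x.2.2 + x.1.2))) / 2)) *
          (x.2.2 + x.1.1 * (bz x.2.1 x.2.2 + x.1.2)) - exp (-(I * x.2.1 / 2)) * x.2.2‖)
          (((0:ℝ), (0:ℂ)), (z₀, a₀)) := by
        fun_prop
      refine h1.tendsto.eventually (gt_mem_nhds ?_)
      simp only [ofReal_zero, zero_mul, add_zero, sub_self, norm_zero]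
      positivity
    have A2 := tel_loc (G := fun p : ℂ × ℂ => P (exp (-(I * p.1 / 2)) * p.2) * p.2)
      (T := fun _ => 0) (b := fun p : ℂ × ℂ => bz p.1 p.2) (p := (z₀, a₀))
      (hPan.fun_mul analyticAt_snd) hbc continuousAt_const (by
        have h2 : HasDerivAt (fun t : ℂ => a₀ + t * bz z₀ a₀) (bz z₀ a₀) 0 := by
          simpa using ((hasDerivAt_id (0:ℂ)).mul_const (bz z₀ a₀)).const_add a₀
        have h3 := (HasDerivAt.comp_of_eq (0:ℂ) hPd hΘd (by simp)).fun_mul h2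
        refine HasDerivAt.congr_deriv h3 ?_
        simp only [Function.comp_apply, zero_mul, add_zero]
        rw [hbz]
        linear_combination (-(I / 2) * a₀ ^ 2) * hdP) hη'
    have A3 := tel_loc (G := fun p : ℂ × ℂ => p.1 + I * Lm (exp (-(I * p.1 / 2)) * p.2))
      (T := fun p : ℂ × ℂ => P (exp (-(I * p.1 / 2)) * p.2) * p.2)
      (b := fun p : ℂ × ℂ => bz p.1 p.2) (p := (z₀, a₀))
      (analyticAt_fst.fun_add (analyticAt_const.fun_mul hLan)) hbc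
      (hPan.fun_mul analyticAt_snd).continuousAt (by
        have h1 : HasDerivAt (fun t : ℂ => z₀ + t * a₀) a₀ 0 := by
          simpa using ((hasDerivAt_id (0:ℂ)).mul_const a₀).const_add z₀
        have h3 := h1.fun_add ((HasDerivAt.comp_of_eq (0:ℂ) hLd hΘd (by simp)).const_mul I)
        refine HasDerivAt.congr_deriv h3 ?_
        rw [hbz]
        linear_combination (a₀ / 2) * hdL + (-(1 / 2 : ℂ) * deriv Lm (exp (-(I * z₀ / 2)) * a₀) *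
          exp (-(I * z₀ / 2)) * a₀ ^ 2 * Sn (exp (-(I * z₀ / 2)) * a₀) ^ 2) * I_sq) hη'
    filter_upwards [A1, A2, A3] with x h1 h2 h3 h0
    refine ⟨h1.le, ?_, h3 h0⟩
    have h4 := h2 h0
    simpa only [mul_zero, sub_zero] using h4
  rw [Metric.eventually_nhds_iff] at hmain
  obtain ⟨ρ, hρ, hmain⟩ := hmain
  refine ⟨ρ / 2, ρ / 2, by positivity, by positivity, ?_⟩
  intro ε hε hε₀ z a a' hz ha hΘ ha'
  have hεc : (ε : ℂ) ≠ 0 := by exact_mod_cast hε.ne'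
  obtain ⟨δ, hδ⟩ : ∃ δ : ℂ, δ = (a' - a) / ε - bz z a := ⟨_, rfl⟩
  have ea : a' = a + ε * (bz z a + δ) := by
    rw [hδ]
    field_simp
    ring
  have hδn : ‖δ‖ ≤ ρ / 2 := by
    have h1 : δ = (a' - a - ε * bz z a) / ε := by
      rw [hδ]
      field_simp
    rw [h1, norm_div, norm_real, Real.norm_eq_abs, abs_of_pos hε, div_le_iff₀ hε]
    linarith
  have hdist : dist ((ε, δ) : ℝ × ℂ) ((0:ℝ), (0:ℂ)) < ρ := by
    rw [Prod.dist_eq]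
    refine max_lt ?_ ?_
    · rw [Real.dist_eq, sub_zero, abs_of_pos hε]
      linarith
    · rw [dist_zero_right]
      linarith
  obtain ⟨h1, h2, h3⟩ := hmain hdist (z, a) ⟨hz, ha, hΘ⟩ hε
  simp only at h1 h2 h3
  rw [← ea] at h1 h2 h3
  exact ⟨tel_near hΘ h1, h2, h3⟩

end Pool.Agent.MP_ae5b4e_an_NB5
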