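import Pool.Agent.Lib.MP_ae5b4e_an_NB5.StartW
import Pool.Agent.Lib.MP_ae5b4e_an_NB5.ChainW
import Pool.Agent.Lib.MP_ae5b4e_an_NB5.StC
import Pool.Agent.Lib.MP_ae5b4e_an_NB5.ExtN

/-!
# MP_ae5b4e_an, project NB_5(A): vertical extension in the window
-/

noncomputable section

namespace Pool.Agent.MP_ae5b4e_an_NB5

open Complex Set Filter Topology Metric
open Pool.Agent.MP_ae5b4e_an_NBT (St)
open Pool.Agent.MP_ae5b4e_an_NB2 (Sys)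
open scoped ComplexConjugate

/-- the thin strip for the parameter `γ = g I` -/
def Vs (δ₁ v₁ Y₀ g : ℝ) : Set ℂ :=
  {u | |u.re - Real.pi| < δ₁ ∧ -Y₀ < u.im ∧ u.im + 2 * Real.log g < v₁}

private theorem vw_re (ε g : ℝ) : ((ε:ℂ) * ((g:ℂ) * I)).re = 0 := by simp

private theorem vw_im (ε g : ℝ) : ((ε:ℂ) * ((g:ℂ) * I)).im = ε * g := by simp

private theorem vw_down {δ₁ v₁ Y₀ g : ℝ} {u v : ℂ} (hu : u ∈ Vs δ₁ v₁ Y₀ g) (h1 : v.re = u.re)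
    (h2 : v.im ≤ u.im) (h3 : -Y₀ < v.im) : v ∈ Vs δ₁ v₁ Y₀ g := by
  obtain ⟨a, b, c⟩ := hu
  exact ⟨by rw [h1]; exact a, h3, by linarith⟩

private theorem vw_log {R g : ℝ} (hR : 1 ≤ R) (hg : 1 / R ≤ g) (hg' : g ≤ R) :
    |Real.log g| ≤ Real.log R := by
  have hR0 : 0 < R := by linarith
  have hg0 : 0 < g := lt_of_lt_of_le (by positivity) hg
  rw [abs_le]
  constructor
  · have := Real.log_le_log (by positivity) hg
    rw [one_div, Real.log_inv] at this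
    exact this
  · exact Real.log_le_log hg0 hg'

private theorem vw_norm {δ₁ v₁ Y R g : ℝ} (hδ : δ₁ ≤ 1) (hY : 1 ≤ Y) (hR : 1 ≤ R)
    (hg : 1 / R ≤ g) (hg' : g ≤ R) {u : ℂ} (hu : u ∈ Vs δ₁ v₁ (Y + 1) g) :
    ‖u‖ ≤ Y + Real.pi + 3 + |v₁| + 2 * Real.log R := by
  obtain ⟨a, b, c⟩ := hu
  have h1 := vw_log hR hg hg'
  rw [abs_le] at h1
  rw [abs_lt] at a
  have h2 := Complex.norm_le_abs_re_add_abs_im u
  have h3 : |u.re| ≤ Real.pi + 1 := by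
    rw [abs_le]
    constructor <;> linarith [Real.pi_pos]
  have h4 : |u.im| ≤ Y + 1 + |v₁| + 2 * Real.log R := by
    rw [abs_le]
    constructor <;> linarith [le_abs_self v₁, abs_nonneg v₁, Real.log_nonneg hR]
  linarith

/-- the induction claim -/
private def VwC (Z : Sys) (z : ℂ × ℂ → ℂ) (ε g δ₁ v₁ Y κ₂ ρ s : ℝ) (Λ : ℂ → ℂ) : Prop :=
  (∀ u ∈ Vs δ₁ v₁ (Y + 1) g, g ^ 2 * Real.exp u.im < κ₂ → Λ u = z (u, g * I)) ∧
  ∀ u ∈ Vs δ₁ v₁ (Y + 1) g, -Y ≤ u.im → u.im / (ε * g) < s →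
    Pn Z (Λ (u - ε * (g * I))) (Λ (u - 2 * (ε * (g * I)))) (Λ u - Λ (u - ε * (g * I))) = 0 ∧
    ‖Λ u - 2 * Λ (u - ε * (g * I)) + Λ (u - 2 * (ε * (g * I)))‖ ≤ ρ * ε

private theorem vw_ii {P Lm : ℂ → ℂ} {ϑ₁ r δ₁ v₁ : ℝ} {th : ℂ → ℂ} {Z : Sys} {z : ℂ × ℂ → ℂ}
    {ε g R Y κ₂ σ θ ρ R₁ η k L Y₁ s : ℝ} {Λ : ℂ → ℂ}
    (hε : 0 < ε) (hεR : ε * R ≤ 1 / 8) (hR : 1 ≤ R) (hg : 1 / R ≤ g) (hg' : g ≤ R)
    (hr : 0 < r) (hδ : δ₁ ≤ 1) (hY : 1 ≤ Y) (hκY : R ^ 2 * Real.exp (-Y + 1) < κ₂)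
    (hL : L = R * (Y + 2 + |v₁| + 2 * Real.log R))
    (hY₁ : Y₁ = Y + Real.pi + 3 + |v₁| + 2 * Real.log R) (hk : Y₁ + 4 ≤ k)
    (hst : ∀ u : ℂ, ‖u‖ ≤ k - 2 → g ^ 2 * Real.exp u.im < κ₂ →
      exp (-(I * z (u, g * I) / 2)) * ((z (u, g * I) - z (u - ε * (g * I), g * I)) / ε) ∈
        Rc ϑ₁ (r / 2) ∧
      (u.im ≤ -Y →
        ‖P (exp (-(I * z (u, g * I) / 2)) *
            ((z (u, g * I) - z (u - ε * (g * I), g * I)) / ε)) *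
          ((z (u, g * I) - z (u - ε * (g * I), g * I)) / ε) - g * I‖ ≤ σ ∧
        ‖z (u, g * I) + I * Lm (exp (-(I * z (u, g * I) / 2)) *
            ((z (u, g * I) - z (u - ε * (g * I), g * I)) / ε)) - u‖ ≤ σ))
    (hch : ∀ (u₀ : ℂ) (n : ℕ) (x : ℕ → ℂ), n * ε ≤ L →
      (∀ j ≤ n, ‖u₀ + j * (ε * (g * I))‖ ≤ Y₁ ∧
        u₀ + j * (ε * (g * I)) - Real.pi + 2 * Real.log g * I ∈ Ts δ₁ v₁) →
      tv ε x 0 ∈ Rc ϑ₁ r → ‖P (tv ε x 0) * av ε x 0 - g * I‖ ≤ σ →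
      ‖x 1 + I * Lm (tv ε x 0) - u₀‖ ≤ σ →
      (∀ j < n, ‖x (j + 1)‖ ≤ R₁ → ‖av ε x j‖ ≤ R₁ →
        ‖av ε x (j + 1) - av ε x j - ε * bz (x (j + 1)) (av ε x j)‖ ≤ ε * η) →
      ∀ j ≤ n, ‖x (j + 1)‖ ≤ R₁ ∧ ‖av ε x j‖ ≤ R₁ ∧ tv ε x j ∈ Rc ϑ₁ (3 * r / 4) ∧
        ‖x (j + 1) - (u₀ + j * (ε * (g * I)) -
          I * Lm (th (u₀ + j * (ε * (g * I)) - Real.pi + 2 * Real.log g * I)))‖ ≤ θ)
    (hsb : ∀ z α : ℂ, ‖z‖ ≤ R₁ → ‖α‖ ≤ R₁ → ∀ α' : ℂ, ‖α' - α‖ ≤ ρ →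
      Pn Z z (z - ε * α) (ε * α') = 0 → ‖α' - α - ε * bz z α‖ ≤ ε * η)
    (hΛ : VwC Z z ε g δ₁ v₁ Y κ₂ ρ s Λ) :
    ∀ u ∈ Vs δ₁ v₁ (Y + 1) g, -Y ≤ u.im → u.im / (ε * g) < s →
      ‖Λ u‖ ≤ R₁ ∧ ‖(Λ u - Λ (u - ε * (g * I))) / ε‖ ≤ R₁ ∧
      ‖Λ u - (u - I * Lm (th (u - Real.pi + 2 * Real.log g * I)))‖ ≤ θ := by
  intro u hu huY hus
  have hR0 : 0 < R := by linarith
  have hg0 : 0 < g := lt_of_lt_of_le (by positivity) hg
  have hεg : 0 < ε * g := mul_pos hε hg0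
  have hεg8 : ε * g ≤ 1 / 8 := (mul_le_mul_of_nonneg_left hg' hε.le).trans hεR
  have hεC : (ε:ℂ) ≠ 0 := Complex.ofReal_ne_zero.2 hε.ne'
  have hgR : 1 ≤ g * R := by
    rw [div_le_iff₀ hR0] at hg
    exact hg
  obtain ⟨w, hw⟩ : ∃ w : ℂ, w = (ε:ℂ) * ((g:ℂ) * I) := ⟨_, rfl⟩
  have hwre : w.re = 0 := by rw [hw, vw_re]
  have hwim : w.im = ε * g := by rw [hw, vw_im]
  obtain ⟨J, hJ⟩ : ∃ J : ℕ, J = ⌈(u.im + Y) / (ε * g)⌉₊ := ⟨_, rfl⟩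
  have hJ1 : u.im + Y ≤ J * (ε * g) := by
    rw [← div_le_iff₀ hεg, hJ]
    exact Nat.le_ceil _
  have hJ2 : J * (ε * g) < u.im + Y + ε * g := by
    have h1 : (J:ℝ) < (u.im + Y) / (ε * g) + 1 := by
      rw [hJ]
      exact Nat.ceil_lt_add_one (div_nonneg (by linarith) hεg.le)
    have h2 := mul_lt_mul_of_pos_right h1 hεg
    rw [add_mul, div_mul_cancel₀ _ hεg.ne', one_mul] at h2
    exact h2
  obtain ⟨u₀, hu₀⟩ : ∃ u₀ : ℂ, u₀ = u - J * w := ⟨_, rfl⟩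
  have hre₀ : u₀.re = u.re := by rw [hu₀]; simp [hwre, hwim]
  have him₀ : u₀.im = u.im - J * (ε * g) := by rw [hu₀]; simp [hwre, hwim]
  obtain ⟨x, hx⟩ : ∃ x : ℕ → ℂ, x = fun j : ℕ => Λ (u₀ + ((j:ℂ) - 1) * w) := ⟨_, rfl⟩
  have hx1 : ∀ j : ℕ, x (j + 1) = Λ (u₀ + j * w) := by
    intro j
    rw [hx]
    simp only
    congr 1
    push_cast
    ring
  have hx0 : ∀ j : ℕ, x j = Λ (u₀ + j * w - w) := by
    intro j
    rw [hx]
    simp only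
    congr 1
    ring
  have hpre : ∀ j : ℕ, (u₀ + j * w).re = u.re := by
    intro j
    simp [hwre, hwim, hre₀]
  have hpim : ∀ j : ℕ, (u₀ + j * w).im = u.im - J * (ε * g) + j * (ε * g) := by
    intro j
    simp [hwre, hwim, him₀]
  have hD : ∀ j : ℕ, j ≤ J → u₀ + j * w ∈ Vs δ₁ v₁ (Y + 1) g := by
    intro j hj
    have h1 : (j:ℝ) * (ε * g) ≤ J * (ε * g) :=
      mul_le_mul_of_nonneg_right (Nat.cast_le.2 hj) hεg.le
    have h2 : 0 ≤ (j:ℝ) * (ε * g) := mul_nonneg (Nat.cast_nonneg _) hεg.le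
    refine vw_down hu (hpre j) ?_ ?_
    · rw [hpim]; linarith
    · rw [hpim]; linarith
  have h0z : u₀ + ((0:ℕ):ℂ) * w = u₀ := by
    rw [Nat.cast_zero, zero_mul, add_zero]
  have hD0 : u₀ ∈ Vs δ₁ v₁ (Y + 1) g := by
    have := hD 0 (Nat.zero_le _)
    rwa [h0z] at this
  have hD1 : u₀ - w ∈ Vs δ₁ v₁ (Y + 1) g := by
    refine vw_down hD0 (by simp [hwre]) ?_ ?_
    · rw [sub_im, hwim]; linarith
    · rw [sub_im, hwim, him₀]; linarith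
  have hlow : ∀ v : ℂ, v.im ≤ -Y → g ^ 2 * Real.exp v.im < κ₂ := by
    intro v hv
    refine lt_of_le_of_lt ?_ hκY
    have h1 : g ^ 2 ≤ R ^ 2 := pow_le_pow_left₀ hg0.le hg' 2
    have h2 : Real.exp v.im ≤ Real.exp (-Y + 1) := Real.exp_le_exp.2 (by linarith)
    exact mul_le_mul h1 h2 (Real.exp_pos _).le (by positivity)
  have hY0 : u₀.im ≤ -Y := by rw [him₀]; linarith
  have e0 : Λ u₀ = z (u₀, g * I) := hΛ.1 _ hD0 (hlow _ hY0)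
  have e1 : Λ (u₀ - w) = z (u₀ - ε * (g * I), g * I) := by
    rw [← hw]
    refine hΛ.1 _ hD1 (hlow _ ?_)
    rw [sub_im, hwim]
    linarith
  have hn0 : ‖u₀‖ ≤ k - 2 := by
    have := vw_norm hδ hY hR hg hg' hD0
    linarith
  obtain ⟨hs1, hs2⟩ := hst u₀ hn0 (hlow _ hY0)
  obtain ⟨hs3, hs4⟩ := hs2 hY0
  have hav0 : av ε x 0 = (z (u₀, g * I) - z (u₀ - ε * (g * I), g * I)) / ε := by
    rw [av, hx1, hx0, h0z, e0, e1]
  have htv0 : tv ε x 0 = exp (-(I * z (u₀, g * I) / 2)) *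
      ((z (u₀, g * I) - z (u₀ - ε * (g * I), g * I)) / ε) := by
    rw [tv, hav0, hx1, h0z, e0]
  have key := hch u₀ J x ?_ ?_ ?_ ?_ ?_ ?_ J le_rfl
  · rw [← hw] at key ⊢
    have e2 : u₀ + J * w = u := by rw [hu₀]; ring
    rw [av, hx1, hx0 J, e2] at key
    exact ⟨key.1, key.2.1, key.2.2.2⟩
  · -- number of steps
    have h1 : (J:ℝ) * ε * g < u.im + Y + 1 / 8 := by
      calc (J:ℝ) * ε * g = J * (ε * g) := by ring
        _ < _ := hJ2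
        _ ≤ _ := by linarith
    have h2 : u.im < |v₁| + 2 * Real.log R := by
      have := hu.2.2
      have h3 := vw_log hR hg hg'
      rw [abs_le] at h3
      linarith [le_abs_self v₁, h3.1]
    have h4 : (J:ℝ) * ε ≤ (J:ℝ) * ε * (g * R) :=
      le_mul_of_one_le_right (mul_nonneg (Nat.cast_nonneg _) hε.le) hgR
    rw [hL]
    calc (J:ℝ) * ε ≤ (J:ℝ) * ε * (g * R) := h4
      _ = R * ((J:ℝ) * ε * g) := by ring
      _ ≤ R * (Y + 2 + |v₁| + 2 * Real.log R) :=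
        mul_le_mul_of_nonneg_left (by linarith) hR0.le
  · intro j hj
    rw [← hw]
    have h1 := hD j hj
    refine ⟨?_, ?_⟩
    · rw [hY₁]
      exact vw_norm hδ hY hR hg hg' h1
    · obtain ⟨a, _, c⟩ := h1
      refine ⟨?_, ?_⟩
      · have : (u₀ + j * w - Real.pi + 2 * Real.log g * I).re = (u₀ + j * w).re - Real.pi := by
          simp
        rw [this]
        exact a
      · have : (u₀ + j * w - Real.pi + 2 * Real.log g * I).im =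
            (u₀ + j * w).im + 2 * Real.log g := by
          simp
        rw [this]
        exact c
  · rw [htv0]
    obtain ⟨a, b, c⟩ := hs1
    exact ⟨by linarith, by linarith, by linarith⟩
  · rw [htv0, hav0]
    exact hs3
  · rw [htv0, hx1, h0z, e0]
    exact hs4
  · intro j hj h1 h2
    have h3 : (j:ℝ) * (ε * g) + ε * g ≤ J * (ε * g) := by
      have : ((j:ℝ) + 1) ≤ J := by exact_mod_cast hj
      have := mul_le_mul_of_nonneg_right this hεg.le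
      linarith
    have h4 : 0 ≤ (j:ℝ) * (ε * g) := mul_nonneg (Nat.cast_nonneg _) hεg.le
    have h5 := hD (j + 1) hj
    have h6 := hpim (j + 1)
    push_cast at h6
    have h7 := hΛ.2 (u₀ + ((j + 1 : ℕ) : ℂ) * w) h5 (by push_cast; rw [h6]; linarith) (by
      refine lt_of_le_of_lt ?_ hus
      apply div_le_div_of_nonneg_right _ hεg.le
      push_cast
      rw [h6]
      linarith)
    rw [← hw] at h7
    have e3 : u₀ + ((j + 1 : ℕ) : ℂ) * w - w = u₀ + j * w := by push_cast; ring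
    have e4 : u₀ + ((j + 1 : ℕ) : ℂ) * w - 2 * w = u₀ + j * w - w := by push_cast; ring
    rw [e3, e4, ← hx1, ← hx0, ← hx1] at h7
    have e5 : x (j + 1) - ε * av ε x j = x j := by
      rw [av]
      field_simp
      ring
    have e6 : (ε:ℂ) * av ε x (j + 1) = x (j + 1 + 1) - x (j + 1) := by
      rw [av]
      field_simp
    refine hsb (x (j + 1)) (av ε x j) h1 h2 (av ε x (j + 1)) ?_ ?_
    · have e7 : av ε x (j + 1) - av ε x j = (x (j + 1 + 1) - 2 * x (j + 1) + x j) / ε := by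
        rw [av, av]
        field_simp
        ring
      rw [e7, norm_div, Complex.norm_real, Real.norm_of_nonneg hε.le, div_le_iff₀ hε]
      exact h7.2
    · rw [e5, e6]
      exact h7.1

private theorem vw_lt {ε g κ₂ y : ℝ} (hg : 0 < g) (hεg : 0 < ε * g) (hκ : 0 < κ₂) :
    y / (ε * g) < (Real.log κ₂ - 2 * Real.log g) / (ε * g) ↔ g ^ 2 * Real.exp y < κ₂ := by
  rw [div_lt_div_iff_of_pos_right hεg]
  have h1 : g ^ 2 * Real.exp y = Real.exp (2 * Real.log g + y) := by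
    rw [Real.exp_add, two_mul, Real.exp_add, Real.exp_log hg, pow_two]
  rw [h1, ← Real.lt_log_iff_exp_lt hκ]
  constructor <;> intro h <;> linarith

/-- the start of the induction -/
private theorem vw_zero {δ₁ v₁ : ℝ} {Z : Sys} {z : ℂ × ℂ → ℂ} {ε g R Y κ₂ ρ k K κ : ℝ}
    (hε : 0 < ε) (hεR : ε * R ≤ 1 / 8) (hR : 1 ≤ R) (hg : 1 / R ≤ g) (hg' : g ≤ R)
    (hδ : δ₁ ≤ 1) (hY : 1 ≤ Y) (hκ₂ : 0 < κ₂)
    (hk : Y + Real.pi + 3 + |v₁| + 2 * Real.log R + 4 ≤ k)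
    (hρ : 8 * K * (ε * R) ^ 2 ≤ ρ * ε)
    (hst : ∀ u : ℂ, ‖u‖ ≤ k - 2 → g ^ 2 * Real.exp u.im < κ₂ →
      (u, g * I) ∈ Wz k κ ∧
      ‖z (u + ε * (g * I), g * I) - 2 * z (u, g * I) + z (u - ε * (g * I), g * I)‖ ≤
        8 * K * (ε * R) ^ 2 ∧
      Pn Z (z (u, g * I)) (z (u - ε * (g * I), g * I))
        (z (u + ε * (g * I), g * I) - z (u, g * I)) = 0)
    (han : AnalyticOnNhd ℂ z (Wz k κ)) :
    AnalyticOnNhd ℂ (fun u => z (u, g * I)) (Vs δ₁ v₁ (Y + 1) g ∩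
      {u | u.im / (ε * g) < (Real.log κ₂ - 2 * Real.log g) / (ε * g)}) ∧
    VwC Z z ε g δ₁ v₁ Y κ₂ ρ ((Real.log κ₂ - 2 * Real.log g) / (ε * g))
      (fun u => z (u, g * I)) := by
  have hR0 : 0 < R := by linarith
  have hg0 : 0 < g := lt_of_lt_of_le (by positivity) hg
  have hεg : 0 < ε * g := mul_pos hε hg0
  have hεg8 : ε * g ≤ 1 / 8 := (mul_le_mul_of_nonneg_left hg' hε.le).trans hεR
  refine ⟨?_, fun u _ _ => rfl, ?_⟩
  · rintro u ⟨hu1, hu2⟩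
    have hu2' : u.im / (ε * g) < (Real.log κ₂ - 2 * Real.log g) / (ε * g) := hu2
    rw [vw_lt hg0 hεg hκ₂] at hu2'
    have h1 := vw_norm hδ hY hR hg hg' hu1
    have h2 := (hst u (by linarith) hu2').1
    have h3 : AnalyticAt ℂ (fun u : ℂ => (u, (g:ℂ) * I)) u :=
      AnalyticAt.prod analyticAt_id analyticAt_const
    exact AnalyticAt.fun_comp (g := z) (f := fun u : ℂ => (u, (g:ℂ) * I)) (x := u) (han _ h2) h3
  · intro u hu1 hu2 hu3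
    rw [vw_lt hg0 hεg hκ₂] at hu3
    have hv : u - ε * (g * I) ∈ Vs δ₁ v₁ (Y + 1) g := by
      refine vw_down hu1 (by rw [sub_re, vw_re, sub_zero]) ?_ ?_
      · rw [sub_im, vw_im]; linarith
      · rw [sub_im, vw_im]; linarith
    have h1 := vw_norm hδ hY hR hg hg' hv
    have h2 : g ^ 2 * Real.exp (u - ε * (g * I)).im < κ₂ := by
      refine lt_of_le_of_lt ?_ hu3
      refine mul_le_mul_of_nonneg_left (Real.exp_le_exp.2 ?_) (by positivity)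
      rw [sub_im, vw_im]; linarith
    obtain ⟨_, h3, h4⟩ := hst _ (by linarith) h2
    have e1 : u - (ε:ℂ) * (g * I) + ε * (g * I) = u := by ring
    have e2 : u - (ε:ℂ) * (g * I) - ε * (g * I) = u - 2 * (ε * (g * I)) := by ring
    rw [e1, e2] at h3 h4
    exact ⟨h4, h3.trans hρ⟩

/-- the step of the induction -/
private theorem vw_succ {δ₁ v₁ : ℝ} {Z : Sys} {z : ℂ × ℂ → ℂ} {ε g R Y κ₂ ρ k R₁ s : ℝ}
    {Λ : ℂ → ℂ} (hε : 0 < ε) (hεR : ε * R ≤ 1 / 8) (hR : 1 ≤ R) (hg : 1 / R ≤ g) (hg' : g ≤ R)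
    (hκ₂ : 0 < κ₂) (hκY : R ^ 2 * Real.exp (-Y + 1) < κ₂)
    (hs : (Real.log κ₂ - 2 * Real.log g) / (ε * g) ≤ s) (hon : Z.On (ball 0 (2 * k)))
    (hsb : ∀ z α : ℂ, ‖z‖ ≤ R₁ → ‖α‖ ≤ R₁ → ROK Z (ball 0 (2 * k)) z (z - ε * α) (ρ * ε))
    (hΛan : AnalyticOnNhd ℂ Λ (Vs δ₁ v₁ (Y + 1) g ∩ {u | u.im / (ε * g) < s}))
    (hΛ : VwC Z z ε g δ₁ v₁ Y κ₂ ρ s Λ)
    (hii : ∀ u ∈ Vs δ₁ v₁ (Y + 1) g, -Y ≤ u.im → u.im / (ε * g) < s →
      ‖Λ u‖ ≤ R₁ ∧ ‖(Λ u - Λ (u - ε * (g * I))) / ε‖ ≤ R₁) :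
    ∃ Λ' : ℂ → ℂ, AnalyticOnNhd ℂ Λ' (Vs δ₁ v₁ (Y + 1) g ∩ {u | u.im / (ε * g) < s + 1}) ∧
      VwC Z z ε g δ₁ v₁ Y κ₂ ρ (s + 1) Λ' := by
  have hR0 : 0 < R := by linarith
  have hg0 : 0 < g := lt_of_lt_of_le (by positivity) hg
  have hεg : 0 < ε * g := mul_pos hε hg0
  have hεg8 : ε * g ≤ 1 / 8 := (mul_le_mul_of_nonneg_left hg' hε.le).trans hεR
  have hεC : (ε:ℂ) ≠ 0 := Complex.ofReal_ne_zero.2 hε.ne'
  obtain ⟨w, hw⟩ : ∃ w : ℂ, w = (ε:ℂ) * ((g:ℂ) * I) := ⟨_, rfl⟩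
  have hwre : w.re = 0 := by rw [hw, vw_re]
  have hwim : w.im = ε * g := by rw [hw, vw_im]
  have hw2re : ∀ u : ℂ, (u - 2 * w).re = u.re := by
    intro u
    simp [hwre]
  have hw2im : ∀ u : ℂ, (u - 2 * w).im = u.im - 2 * (ε * g) := by
    intro u
    simp [hwre, hwim]
  have hw1re : ∀ u : ℂ, (u - w).re = u.re := by
    intro u
    simp [hwre]
  have hw1im : ∀ u : ℂ, (u - w).im = u.im - ε * g := by
    intro u
    simp [hwim]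
  have hκg : g ^ 2 * Real.exp (-Y + ε * g) < κ₂ := by
    refine lt_of_le_of_lt ?_ hκY
    have h1 : g ^ 2 ≤ R ^ 2 := pow_le_pow_left₀ hg0.le hg' 2
    have h2 : Real.exp (-Y + ε * g) ≤ Real.exp (-Y + 1) := Real.exp_le_exp.2 (by linarith)
    exact mul_le_mul h1 h2 (Real.exp_pos _).le (by positivity)
  have hs₁ : (-Y + ε * g) / (ε * g) < s := ((vw_lt hg0 hεg hκ₂).2 hκg).trans_le hs
  have hDo : IsOpen (Vs δ₁ v₁ (Y + 1) g) := by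
    have h1 : IsOpen {u : ℂ | |u.re - Real.pi| < δ₁} :=
      isOpen_lt (continuous_abs.comp (Complex.continuous_re.sub continuous_const)) continuous_const
    have h2 : IsOpen {u : ℂ | -(Y + 1) < u.im} := isOpen_lt continuous_const Complex.continuous_im
    have h3 : IsOpen {u : ℂ | u.im + 2 * Real.log g < v₁} :=
      isOpen_lt (Complex.continuous_im.add continuous_const) continuous_const
    exact h1.inter (h2.inter h3)
  have hφ : Continuous (fun u : ℂ => u.im / (ε * g)) := Complex.continuous_im.div_const _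
  have hφw : ∀ u : ℂ, (fun u : ℂ => u.im / (ε * g)) (u + w) =
      (fun u : ℂ => u.im / (ε * g)) u + 1 := by
    intro u
    simp only [add_im, hwim]
    field_simp
  have hlev : ∀ u : ℂ, (-Y + ε * g) / (ε * g) ≤ u.im / (ε * g) ↔ -Y + ε * g ≤ u.im := by
    intro u
    exact div_le_div_iff_of_pos_right hεg
  have hsh1 : ∀ u : ℂ, (u - w).im / (ε * g) = u.im / (ε * g) - 1 := by
    intro u
    rw [hw1im]
    field_simp
  have hsh2 : ∀ u : ℂ, (u - 2 * w).im / (ε * g) = u.im / (ε * g) - 2 := by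
    intro u
    rw [hw2im]
    field_simp
  have hback : ∀ u ∈ Vs δ₁ v₁ (Y + 1) g, -Y + ε * g ≤ u.im →
      u - w ∈ Vs δ₁ v₁ (Y + 1) g ∧ u - 2 * w ∈ Vs δ₁ v₁ (Y + 1) g := by
    intro u hu h1
    refine ⟨vw_down hu (hw1re u) ?_ ?_, vw_down hu (hw2re u) ?_ ?_⟩
    · rw [hw1im]; linarith
    · rw [hw1im]; linarith
    · rw [hw2im]; linarith
    · rw [hw2im]; linarith
  have hrok : ∀ u ∈ Vs δ₁ v₁ (Y + 1) g, -Y + ε * g ≤ u.im → u.im / (ε * g) < s + 1 →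
      ROK Z (ball 0 (2 * k)) (Λ (u - w)) (Λ (u - 2 * w)) (ρ * ε) := by
    intro u hu h1 h2
    obtain ⟨h3, h4⟩ := hii (u - w) (hback u hu h1).1 (by rw [hw1im]; linarith)
      (by rw [hsh1]; linarith)
    rw [← hw] at h4
    have h5 := hsb _ _ h3 h4
    have e1 : u - w - w = u - 2 * w := by ring
    have e2 : Λ (u - w) - ε * ((Λ (u - w) - Λ (u - w - w)) / ε) = Λ (u - 2 * w) := by
      rw [e1]
      field_simp
      ring
    rw [e2] at h5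
    exact h5
  obtain ⟨Λ', h1, h2, h3⟩ := ext_node (Y := Z) (Ω := ball 0 (2 * k)) isOpen_ball hon hDo hφ hφw
    hs₁ (fun u hu h => hback u hu ((hlev u).1 h)) hΛan
    (fun u hu h h' => hrok u hu ((hlev u).1 h) h')
    (fun u hu h h' => by
      have h4 := (hlev u).1 h
      have h5 := hΛ.2 u hu (by linarith) h'
      rw [← hw] at h5
      exact h5)
  refine ⟨Λ', h1, ?_, ?_⟩
  · intro u hu hu2
    rw [h2 u hu (lt_of_lt_of_le ((vw_lt hg0 hεg hκ₂).2 hu2) hs)]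
    exact hΛ.1 u hu hu2
  · intro u hu hu1 hu2
    rw [← hw]
    by_cases hc : -Y + ε * g ≤ u.im
    · obtain ⟨h4, h5⟩ := h3 u hu ((hlev u).2 hc) hu2
      refine ⟨h4, h5.trans ?_⟩
      obtain ⟨b1, b2⟩ := hback u hu hc
      have e1 : Λ' (u - w) = Λ (u - w) := h2 _ b1 (by
        show (u - w).im / (ε * g) < s
        rw [hsh1]; linarith)
      have e2 : Λ' (u - 2 * w) = Λ (u - 2 * w) := h2 _ b2 (by
        show (u - 2 * w).im / (ε * g) < s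
        rw [hsh2]; linarith)
      rw [e1, e2]
      have := (hrok u hu hc hu2).small
      linarith
    · push Not at hc
      have hs0 : u.im / (ε * g) < s := lt_trans (div_lt_div_of_pos_right hc hεg) hs₁
      have b1 : u - w ∈ Vs δ₁ v₁ (Y + 1) g := vw_down hu (hw1re u) (by rw [hw1im]; linarith)
        (by rw [hw1im]; linarith)
      have b2 : u - 2 * w ∈ Vs δ₁ v₁ (Y + 1) g := vw_down hu (hw2re u) (by rw [hw2im]; linarith)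
        (by rw [hw2im]; linarith)
      have e0 : Λ' u = Λ u := h2 _ hu hs0
      have e1 : Λ' (u - w) = Λ (u - w) := h2 _ b1 (by
        show (u - w).im / (ε * g) < s
        rw [hsh1]; linarith)
      have e2 : Λ' (u - 2 * w) = Λ (u - 2 * w) := h2 _ b2 (by
        show (u - 2 * w).im / (ε * g) < s
        rw [hsh2]; linarith)
      rw [e0, e1, e2]
      have h5 := hΛ.2 u hu hu1 hs0
      rw [← hw] at h5
      exact h5

private theorem vw_open (δ₁ v₁ Y₀ g : ℝ) : IsOpen (Vs δ₁ v₁ Y₀ g) := by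
  have h1 : IsOpen {u : ℂ | |u.re - Real.pi| < δ₁} :=
    isOpen_lt (continuous_abs.comp (Complex.continuous_re.sub continuous_const)) continuous_const
  have h2 : IsOpen {u : ℂ | -Y₀ < u.im} := isOpen_lt continuous_const Complex.continuous_im
  have h3 : IsOpen {u : ℂ | u.im + 2 * Real.log g < v₁} :=
    isOpen_lt (Complex.continuous_im.add continuous_const) continuous_const
  exact h1.inter (h2.inter h3)

private theorem vw_ident {δ₁ v₁ Y g κ κ₂ : ℝ} (hg : 0 < g) (hκ : 0 < κ) (hκκ : κ₂ ≤ κ)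
    {f F : ℂ → ℂ}
    (hf : ∀ u ∈ Vs δ₁ v₁ (Y + 1) g, g ^ 2 * Real.exp u.im < κ → AnalyticAt ℂ f u)
    (hF : ∀ u ∈ Vs δ₁ v₁ (Y + 1) g, g ^ 2 * Real.exp u.im < κ → AnalyticAt ℂ F u)
    (he : ∀ u ∈ Vs δ₁ v₁ (Y + 1) g, g ^ 2 * Real.exp u.im < κ₂ → f u = F u)
    (hb : g ^ 2 * Real.exp (-(Y + 1 / 2)) < κ₂) {u : ℂ} (hu : u ∈ Vs δ₁ v₁ (Y + 1) g)
    (hu1 : g ^ 2 * Real.exp u.im < κ) (hu2 : -(Y + 1 / 2) ≤ u.im) : f u = F u := by
  have hexp : ∀ y : ℝ, g ^ 2 * Real.exp y < κ ↔ y < Real.log κ - 2 * Real.log g := by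
    intro y
    have h1 : g ^ 2 * Real.exp y = Real.exp (2 * Real.log g + y) := by
      rw [Real.exp_add, two_mul, Real.exp_add, Real.exp_log hg, pow_two]
    rw [h1, ← Real.lt_log_iff_exp_lt hκ]
    constructor <;> intro h <;> linarith
  obtain ⟨D, hD⟩ : ∃ D : Set ℂ, D =
      ({v : ℂ | Real.pi - δ₁ < v.re} ∩ {v : ℂ | v.re < Real.pi + δ₁}) ∩
      (({v : ℂ | -(Y + 1) < v.im} ∩ {v : ℂ | v.im < v₁ - 2 * Real.log g}) ∩
        {v : ℂ | v.im < Real.log κ - 2 * Real.log g}) := ⟨_, rfl⟩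
  have hDc : IsPreconnected D := by
    rw [hD]
    exact (((convex_halfSpace_re_gt _).inter (convex_halfSpace_re_lt _)).inter
      (((convex_halfSpace_im_gt _).inter (convex_halfSpace_im_lt _)).inter
        (convex_halfSpace_im_lt _))).isPreconnected
  have hDm : ∀ v : ℂ, v ∈ D ↔ v ∈ Vs δ₁ v₁ (Y + 1) g ∧ g ^ 2 * Real.exp v.im < κ := by
    intro v
    rw [hexp, hD]
    constructor
    · rintro ⟨⟨h1, h2⟩, ⟨h3, h4⟩, h5⟩
      have h1' : Real.pi - δ₁ < v.re := h1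
      have h2' : v.re < Real.pi + δ₁ := h2
      have h4' : v.im < v₁ - 2 * Real.log g := h4
      refine ⟨⟨?_, h3, ?_⟩, h5⟩
      · rw [abs_lt]
        constructor <;> linarith
      · linarith
    · rintro ⟨⟨h1, h2, h3⟩, h4⟩
      rw [abs_lt] at h1
      refine ⟨⟨?_, ?_⟩, ⟨h2, ?_⟩, h4⟩
      · show Real.pi - δ₁ < v.re
        linarith
      · show v.re < Real.pi + δ₁
        linarith
      · show v.im < v₁ - 2 * Real.log g
        linarith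
  obtain ⟨z₀, hz₀⟩ : ∃ z₀ : ℂ, z₀ = ⟨u.re, -(Y + 1 / 2)⟩ := ⟨_, rfl⟩
  have hz1 : z₀ ∈ Vs δ₁ v₁ (Y + 1) g := by
    refine vw_down hu (by rw [hz₀]) (by rw [hz₀]; exact hu2) ?_
    rw [hz₀]
    show -(Y + 1) < -(Y + 1 / 2)
    linarith
  have hz2 : g ^ 2 * Real.exp z₀.im < κ₂ := by
    rw [hz₀]
    exact hb
  have hev : f =ᶠ[𝓝 z₀] F := by
    have h1 : IsOpen {v : ℂ | g ^ 2 * Real.exp v.im < κ₂} :=
      isOpen_lt (continuous_const.mul (Real.continuous_exp.comp Complex.continuous_im))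
        continuous_const
    filter_upwards [(vw_open δ₁ v₁ (Y + 1) g).mem_nhds hz1, h1.mem_nhds hz2] with v hv1 hv2
    exact he v hv1 hv2
  have hfD : AnalyticOnNhd ℂ f D := fun v hv => hf v ((hDm v).1 hv).1 ((hDm v).1 hv).2
  have hFD : AnalyticOnNhd ℂ F D := fun v hv => hF v ((hDm v).1 hv).1 ((hDm v).1 hv).2
  exact hfD.eqOn_of_preconnected_of_eventuallyEq hFD hDc
    ((hDm z₀).2 ⟨hz1, lt_of_lt_of_le hz2 hκκ⟩) hev ((hDm u).2 ⟨hu, hu1⟩)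

/-- **Vertical extension.** Constants: `θ₁` of `chain_w` (`R`, `θ`); `Y`, `κ₂`, `σ`, `k₀`, `ε₀` of
`start_w`; `L = R (Y + 2 + |v₁| + 2 log R)`, `Y₁ = Y + π + 3 + |v₁| + 2 log R`; `R₁`, `ε₀'`, `η` of
`chain_w` (`Y₁`, `L`, `σ`); `δ₀'`, `ρ₀` of `step_b` (`R₁`, `η`); `k₀'` at least `k₀`, `Y₁ + 4`,
`R₁ + 4 + R`; `δ₀ = min` of `ε₀`, `ε₀'`, `δ₀'`, `1 / (8 R)`, `ρ₀ / (8 K R²)`.
Fix `g`, `w = ε g I`, `D = Vs δ₁ v₁ (Y + 1) g` (convex, `‖u‖ ≤ Y₁` on `D`), and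
`S n = {u ∈ D | Im u + 2 log g < log κ₂ + n ε g}`. Claim by induction on `n`: there is `Λ` analytic
on `S n`, equal to `z (·, g I)` on `S 0`, such that for `u ∈ S n`, `- Y ≤ Im u`:
(i) `Pn Z (Λ (u - w)) (Λ (u - 2 w)) (Λ u - Λ (u - w)) = 0`,
`‖Λ u - 2 Λ (u - w) + Λ (u - 2 w)‖ ≤ ρ₀ ε`.
`n = 0`: `start_w` at `u - w`. Consequence of (i) and `step_b`, `chain_w`: for `u ∈ S n`,
`- Y ≤ Im u`, let `J` be the number of steps with `- Y - ε g < Im (u - J w) ≤ - Y`,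
`u₀ = u - J w`, `x j = Λ (u₀ + (j - 1) w)`; the start values are those of `start_w` at `u₀`, and
for each `j < J` the new velocity is a root near the old one (`‖a_{j+1} - a_j‖ ≤ ρ₀` by (i)), so
`step_b` gives the hypothesis of `chain_w`. Hence
(ii) `‖Λ u‖ ≤ R₁`, `‖(Λ u - Λ (u - w)) / ε‖ ≤ R₁`, `‖Λ u - (u - I Lm (th τ))‖ ≤ θ`.
Step: `ext_node` with `Ω = ball 0 (2 k)`, `φ u = Im u / (ε g)`, `s₁ = (- Y + ε g) / (ε g)` (then
`- Y ≤ Im (u - w)`; for `- Y ≤ Im u` below this level (i) is known from `n = 0`),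
`s = (log κ₂ - 2 log g) / (ε g) + n`, radius `ρ₀ ε`; `hrok`: `step_b` at the state `(Λ (u - w),
(Λ (u - w) - Λ (u - 2 w)) / ε)` by (ii); the new second difference is at most
`2 ‖Pn (l - m)‖ ≤ ρ₀ ε` (`ROK.small`). After finitely many steps `S n = D`. On the convex set
`D ∩ {g² exp (Im u) < κ}` the functions `Λ` and `z (·, g I)` are analytic and agree on `S 0`. -/
theorem vert_win {P Lm : ℂ → ℂ} (hS : Sp P Lm) {ϑ₁ r δ₁ m v₁ : ℝ} {th : ℂ → ℂ}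
    (hT : Th P Lm ϑ₁ r δ₁ m v₁ th) (hϑ : 0 < ϑ₁) {κ K R Y₀ θ : ℝ} (hκ : 0 < κ) (hκ1 : κ ≤ 1)
    (hK : 1 ≤ K) (hR : 1 ≤ R) (hY : 0 ≤ Y₀) (hθ : 0 < θ) :
    ∃ k₀ δ₀ : ℝ, 0 < δ₀ ∧ ∀ (Z : Sys) (q : ℂ → ℂ) (ε k δ : ℝ) (z : ℂ × ℂ → ℂ),
      WL Z q ε k δ κ K z → k₀ ≤ k → δ ≤ δ₀ → ∀ g : ℝ, 1 / R ≤ g → g ≤ R →
        ∃ Λ : ℂ → ℂ, AnalyticOnNhd ℂ Λ (Vs δ₁ v₁ Y₀ g) ∧
          (∀ u ∈ Vs δ₁ v₁ Y₀ g, g ^ 2 * Real.exp u.im < κ → Λ u = z (u, g * I)) ∧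
          ∀ u ∈ Vs δ₁ v₁ Y₀ g,
            ‖Λ u - (u - I * Lm (th (u - Real.pi + 2 * Real.log g * I)))‖ ≤ θ := by
  obtain ⟨θ₁, hθ₁, hθ₁1, hch⟩ := chain_w hS hT hR hθ
  obtain ⟨Y, κ₂, σ, k₀, ε₀, hYY, hY1, hκ₂, hκ₂κ, hε₀, hσ, hσL, hκY, hst⟩ :=
    start_w hS hT hϑ Y₀ hκ hκ1 hK hR hθ₁
  have hR0 : 0 < R := lt_of_lt_of_le one_pos hR
  have hlR : 0 ≤ Real.log R := Real.log_nonneg hR
  have hpi := Real.pi_pos
  have hv₁ := abs_nonneg v₁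
  obtain ⟨Y₁, hY₁⟩ : ∃ Y₁ : ℝ, Y₁ = Y + Real.pi + 3 + |v₁| + 2 * Real.log R := ⟨_, rfl⟩
  obtain ⟨L, hL⟩ : ∃ L : ℝ, L = R * (Y + 2 + |v₁| + 2 * Real.log R) := ⟨_, rfl⟩
  have hL0 : 0 ≤ L := by
    rw [hL]
    exact mul_nonneg hR0.le (by linarith)
  obtain ⟨R₁, ε₀', η, hR₁, hε₀', hη, hch⟩ := hch Y₁ L σ (by rw [hY₁]; linarith) hL0 hσ
    (by rw [hL]; exact hσL)
  obtain ⟨δ₀', ρ₀, hδ₀', hρ₀, hρ₀1, hsb⟩ := step_b hR₁ hη
  have hKR : 0 < 8 * K * R ^ 2 := by positivity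
  refine ⟨max k₀ (max (Y₁ + 4) (R₁ + 4 + R)),
    min ε₀ (min ε₀' (min δ₀' (min (1 / (8 * R)) (ρ₀ / (8 * K * R ^ 2))))), ?_, ?_⟩
  · refine lt_min hε₀ (lt_min hε₀' (lt_min hδ₀' (lt_min (by positivity) (div_pos hρ₀ hKR))))
  intro Z q ε k δ z hW hk hδ g hg hg'
  have hε := hW.ε_pos
  have hεδ := hW.ε_le
  have hk1 : k₀ ≤ k := (le_max_left _ _).trans hk
  have hk2 : Y₁ + 4 ≤ k := ((le_max_left _ _).trans (le_max_right _ _)).trans hk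
  have hk3 : R₁ + 4 + R ≤ k := ((le_max_right _ _).trans (le_max_right _ _)).trans hk
  have hd1 : δ ≤ ε₀ := hδ.trans (min_le_left _ _)
  have hda := hδ.trans (min_le_right _ _)
  have hd2 : δ ≤ ε₀' := hda.trans (min_le_left _ _)
  have hdb := hda.trans (min_le_right _ _)
  have hd3 : δ ≤ δ₀' := hdb.trans (min_le_left _ _)
  have hdc := hdb.trans (min_le_right _ _)
  have hd4 : δ ≤ 1 / (8 * R) := hdc.trans (min_le_left _ _)
  have hd5 : δ ≤ ρ₀ / (8 * K * R ^ 2) := hdc.trans (min_le_right _ _)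
  have hεR : ε * R ≤ 1 / 8 := by
    have h1 : ε ≤ 1 / (8 * R) := hεδ.trans hd4
    rw [le_div_iff₀ (by positivity)] at h1
    linarith
  have hρε : 8 * K * (ε * R) ^ 2 ≤ ρ₀ * ε := by
    have h1 : ε ≤ ρ₀ / (8 * K * R ^ 2) := hεδ.trans hd5
    rw [le_div_iff₀ hKR] at h1
    calc 8 * K * (ε * R) ^ 2 = (ε * (8 * K * R ^ 2)) * ε := by ring
      _ ≤ ρ₀ * ε := mul_le_mul_of_nonneg_right h1 hε.le
  have hg0 : 0 < g := lt_of_lt_of_le (by positivity) hg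
  have hεg : 0 < ε * g := mul_pos hε hg0
  have hst1 := hst Z q ε k δ z hW hk1 (hεδ.trans hd1) g hg hg'
  have hch1 := fun u₀ n x => hch ε g u₀ n x hε (hεδ.trans hd2) hg hg'
  have hsb1 := hsb Z q ε k δ hW.toWS (by linarith) hd3
  obtain ⟨s₀, hs₀⟩ : ∃ s₀ : ℝ, s₀ = (Real.log κ₂ - 2 * Real.log g) / (ε * g) := ⟨_, rfl⟩
  have hII : ∀ (s : ℝ) (Λ : ℂ → ℂ), VwC Z z ε g δ₁ v₁ Y κ₂ ρ₀ s Λ →
      ∀ u ∈ Vs δ₁ v₁ (Y + 1) g, -Y ≤ u.im → u.im / (ε * g) < s →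
      ‖Λ u‖ ≤ R₁ ∧ ‖(Λ u - Λ (u - ε * (g * I))) / ε‖ ≤ R₁ ∧
      ‖Λ u - (u - I * Lm (th (u - Real.pi + 2 * Real.log g * I)))‖ ≤ θ := by
    intro s Λ hΛ
    exact vw_ii hε hεR hR hg hg' hT.r_pos hT.δ_le hY1 hκY hL hY₁ hk2
      (fun u h1 h2 => ⟨(hst1 u h1 h2).2.2.2.2.1, (hst1 u h1 h2).2.2.2.2.2.2.2⟩) hch1
      (fun z' α h1 h2 => (hsb1 z' α h1 h2).2) hΛ
  have hind : ∀ n : ℕ, ∃ Λ : ℂ → ℂ, AnalyticOnNhd ℂ Λ (Vs δ₁ v₁ (Y + 1) g ∩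
      {u | u.im / (ε * g) < s₀ + n}) ∧ VwC Z z ε g δ₁ v₁ Y κ₂ ρ₀ (s₀ + n) Λ := by
    intro n
    induction n with
    | zero =>
      rw [Nat.cast_zero, add_zero, hs₀]
      exact ⟨_, vw_zero hε hεR hR hg hg' hT.δ_le hY1 hκ₂ (by rw [← hY₁]; exact hk2) hρε
        (fun u h1 h2 => ⟨(hst1 u h1 h2).1, (hst1 u h1 h2).2.2.2.2.2.1,
          (hst1 u h1 h2).2.2.2.2.2.2.1⟩) hW.an⟩
    | succ n ih =>
      obtain ⟨Λ, h1, h2⟩ := ih
      have h3 := hII _ _ h2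
      have e : s₀ + ((n + 1 : ℕ) : ℝ) = s₀ + n + 1 := by push_cast; ring
      rw [e]
      refine vw_succ hε hεR hR hg hg' hκ₂ hκY ?_ hW.on (fun z' α h1 h2 => (hsb1 z' α h1 h2).1)
        h1 h2 (fun u hu hu1 hu2 => ⟨(h3 u hu hu1 hu2).1, (h3 u hu hu1 hu2).2.1⟩)
      rw [← hs₀]
      linarith [(Nat.cast_nonneg n : (0:ℝ) ≤ n)]
  obtain ⟨N, hN⟩ : ∃ N : ℕ, (|v₁| + 2 * Real.log R) / (ε * g) - s₀ < N := exists_nat_gt _
  obtain ⟨Λ, h1, h2⟩ := hind N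
  have hall : ∀ u ∈ Vs δ₁ v₁ (Y + 1) g, u.im / (ε * g) < s₀ + N := by
    intro u hu
    have h3 : u.im ≤ |v₁| + 2 * Real.log R := by
      have h4 := hu.2.2
      have h5 := vw_log hR hg hg'
      rw [abs_le] at h5
      linarith [le_abs_self v₁]
    have h6 := div_le_div_of_nonneg_right h3 hεg.le
    linarith
  have hsub : ∀ u ∈ Vs δ₁ v₁ Y₀ g, u ∈ Vs δ₁ v₁ (Y + 1) g := fun u hu =>
    ⟨hu.1, by linarith [hu.2.1], hu.2.2⟩
  have hanL : ∀ u ∈ Vs δ₁ v₁ (Y + 1) g, AnalyticAt ℂ Λ u := fun u hu => h1 u ⟨hu, hall u hu⟩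
  refine ⟨Λ, fun u hu => hanL u (hsub u hu), ?_, ?_⟩
  · intro u hu hu2
    refine vw_ident hg0 hκ hκ₂κ (f := Λ) (F := fun u => z (u, g * I)) (fun v hv _ => hanL v hv) ?_
      (fun v hv hv2 => h2.1 v hv hv2) ?_ (hsub u hu) hu2 (by linarith [hu.2.1])
    · intro v hv hv2
      have h3 := vw_norm hT.δ_le hY1 hR hg hg' hv
      have h4 : (v, (g:ℂ) * I) ∈ Wz k κ := by
        refine ⟨?_, ?_, ?_⟩
        · show ‖v‖ < k
          linarith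
        · show ‖(g:ℂ) * I‖ < k
          rw [norm_mul, Complex.norm_I, mul_one, Complex.norm_real, Real.norm_of_nonneg hg0.le]
          linarith
        · show ‖(g:ℂ) * I‖ ^ 2 * Real.exp v.im < κ
          rw [norm_mul, Complex.norm_I, mul_one, Complex.norm_real, Real.norm_of_nonneg hg0.le]
          exact hv2
      have h5 : AnalyticAt ℂ (fun u : ℂ => (u, (g:ℂ) * I)) v :=
        AnalyticAt.prod analyticAt_id analyticAt_const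
      exact AnalyticAt.fun_comp (g := z) (f := fun u : ℂ => (u, (g:ℂ) * I)) (x := v)
        (hW.an _ h4) h5
    · refine lt_of_le_of_lt ?_ hκY
      have h3 : g ^ 2 ≤ R ^ 2 := pow_le_pow_left₀ hg0.le hg' 2
      have h4 : Real.exp (-(Y + 1 / 2)) ≤ Real.exp (-Y + 1) := Real.exp_le_exp.2 (by linarith)
      exact mul_le_mul h3 h4 (Real.exp_pos _).le (by positivity)
  · intro u hu
    exact (hII _ _ h2 u (hsub u hu) (by linarith [hu.2.1]) (hall u (hsub u hu))).2.2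

end Pool.Agent.MP_ae5b4e_an_NB5
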