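import Pool.Agent.Lib.MP_ae5b4e_an_NB5.Plt
import Pool.Agent.Lib.MP_ae5b4e_an_NB5.VertW
import Pool.Agent.Lib.MP_ae5b4e_an_NB5.Cmap
import Pool.Agent.Lib.MP_ae5b4e_an_NB5.Wlx

/-!
# MP_ae5b4e_an, project NB_5(A): interpolation in the window
-/

noncomputable section

namespace Pool.Agent.MP_ae5b4e_an_NB5

open Complex Set Filter Topology Metric
open Pool.Agent.MP_ae5b4e_an_NBT (St)
open Pool.Agent.MP_ae5b4e_an_NB2 (Sys)
open scoped ComplexConjugate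

private theorem top1_bd {P Lm : ℂ → ℂ} (hS : Sp P Lm) {ϑ₁ r δ₁ m v₁ : ℝ} {th : ℂ → ℂ}
    (hT : Th P Lm ϑ₁ r δ₁ m v₁ th) : ∃ C : ℝ, ∀ ϑ ∈ Rc ϑ₁ r, ‖Lm ϑ‖ ≤ C := by
  have h1 : IsClosed (Rc ϑ₁ r) := by
    have e : Rc ϑ₁ r = {ϑ : ℂ | -r ≤ ϑ.re} ∩ ({ϑ : ℂ | ϑ.re ≤ ϑ₁ + r} ∩ {ϑ : ℂ | |ϑ.im| ≤ r}) := by
      ext ϑ
      rfl
    rw [e]
    refine (isClosed_le continuous_const continuous_re).inter
      ((isClosed_le continuous_re continuous_const).inter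
        (isClosed_le continuous_im.abs continuous_const))
  have h2 : IsCompact (Rc ϑ₁ r) :=
    Metric.isCompact_of_isClosed_isBounded h1 (isBounded_ball.subset hT.sub)
  have h3 : ContinuousOn Lm (Rc ϑ₁ r) := hS.anL.continuousOn.mono hT.sub
  obtain ⟨C, hC⟩ := h2.exists_bound_of_continuousOn h3
  exact ⟨C, hC⟩

private theorem top1_rc {ϑ₁ r : ℝ} (hr : 0 < r) : Rc ϑ₁ (r / 2) ⊆ Rc ϑ₁ r := by
  rintro ϑ ⟨h1, h2, h3⟩
  exact ⟨by linarith, by linarith, by linarith⟩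

private theorem top1_r0 {tc δ₁ v₀ v₁ δ₂ r₀ r₁ r₂ : ℝ} {T X : ℂ → ℂ}
    (hC : Cm tc δ₁ v₀ v₁ δ₂ r₀ r₁ r₂ T X) (hδ : 0 < δ₁) : 2 * r₀ ≤ 1 := by
  by_contra hcon
  push Not at hcon
  have h1 : |(((tc + 5 : ℝ) : ℂ) * I).re| < δ₁ := by simpa using hδ
  obtain ⟨h2, h3⟩ := hC.TX _ h1
  have h4 := (hC.low (X (((tc + 5 : ℝ) : ℂ) * I)) (by
    rw [mem_ball_zero_iff]
    linarith)).2
  rw [h3] at h4
  simp only [mul_im, ofReal_re, I_im, mul_one, ofReal_im, I_re, mul_zero, add_zero] at h4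
  linarith

/-- **Interpolation in the window.** `C_L` bounds `Lm` on `Rc ϑ₁ r`, `K' = max K C_L`; `plt` with `r₀, r₁, r₂`,
`K'`, `θ'` gives `ℓ`, `θ`; `vert_win` with `R = exp ℓ`, `Y₀ = |2 tc - v₁| + 2 ℓ + 1`, `θ` gives `k₀`, `δ₀`. Let
`k ≥ k₀ + 2 π`, `k ≥ exp (ℓ + 1) + |tc| + 2 ℓ + 20`, `k ≥ K + 2 π + 1`.
`E (χ, w) = z (u, exp w) - u`, `u = T χ - 2 I w`: for `‖χ‖ < 2 r₀`, `|Re w| < ℓ + 1`, `|Im w| < 2` one has
`‖u‖ < k`, `‖exp w‖ < k`, `‖exp w‖² exp (Im u) = exp (Im (T χ)) < exp (tc + 1) < κ` (`Cm.low`), so `E` is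
analytic and bounded by `K`. `Eh χ = - I Lm (th (T χ))`, `T χ ∈ Ts δ₁ v₁` for `‖χ‖ < r₁`.
Side `w = s + I π / 2`: `exp w = g I`, `g = exp s`, `u = T χ - 2 I s + π ∈ Vs δ₁ v₁ Y₀ g`;
`e χ = Λ u - u` with `Λ` of `vert_win`; `u - π + 2 log g I = T χ`.
Side `w = s - I π / 2`: `exp w = - g I`, `u = T χ - 2 I s - π`. `WL.shift` with `σ = -1` (from `k` to `k - 2 π`)
gives the window label `z' (u', γ) = z (u' - 2 π, γ) + 2 π`; `vert_win` for `z'` gives `Λ'`, and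
`e χ = Λ' u' - u'`, `u' = u + 2 π = T χ - 2 I s + π`. In the zone `z' (u', g I) - u' = z (u, g I) - u =
z (u, - g I) - u` (`WL.even`). -/
theorem interp {P Lm : ℂ → ℂ} (hS : Sp P Lm) {ϑ₁ r δ₁ m v₁ : ℝ} {th : ℂ → ℂ}
    (hT : Th P Lm ϑ₁ r δ₁ m v₁ th) (hϑ : 0 < ϑ₁) {κ K : ℝ} (hκ : 0 < κ) (hκ1 : κ ≤ 1)
    (hK : 1 ≤ K) {tc v₀ δ₂ r₀ r₁ r₂ : ℝ} {T X : ℂ → ℂ} (hC : Cm tc δ₁ v₀ v₁ δ₂ r₀ r₁ r₂ T X)
    (htc : tc + 2 ≤ Real.log κ) {θ' : ℝ} (hθ' : 0 < θ') :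
    ∃ k₀ δ₀ : ℝ, 0 < δ₀ ∧ ∀ (Z : Sys) (q : ℂ → ℂ) (ε k δ : ℝ) (z : ℂ × ℂ → ℂ),
      WL Z q ε k δ κ K z → k₀ ≤ k → δ ≤ δ₀ →
        ∃ Et : ℂ × ℂ → ℂ, AnalyticOnNhd ℂ Et (ball (0:ℂ) r₂ ×ˢ ball (0:ℂ) (1 / 2)) ∧
          (∀ p ∈ ball (0:ℂ) r₀ ×ˢ ball (0:ℂ) (1 / 2),
            Et p = z (T p.1 - 2 * I * p.2, exp p.2) - (T p.1 - 2 * I * p.2)) ∧
          ∀ p ∈ ball (0:ℂ) r₂ ×ˢ ball (0:ℂ) (1 / 2), ‖Et p + I * Lm (th (T p.1))‖ ≤ θ' := by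
  have hδ0 := hT.δ_pos
  have hδ1 := hT.δ_le
  have hpi := Real.pi_pos
  have hpi4 := Real.pi_le_four
  obtain ⟨CL, hCL⟩ := top1_bd hS hT
  have h2r := top1_r0 hC hδ0
  obtain ⟨K', hK'⟩ : ∃ K' : ℝ, K' = max K CL := ⟨_, rfl⟩
  have hKK' : K ≤ K' := by
    rw [hK']
    exact le_max_left _ _
  have hCK' : CL ≤ K' := by
    rw [hK']
    exact le_max_right _ _
  obtain ⟨ℓ, θ, hℓ, hθ, hplt⟩ := plt hC.r0 hC.r02 hC.r21 hC.r1 (hK.trans hKK') hθ'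
  obtain ⟨k₁, δ₀, hδ₀, hvw⟩ := vert_win hS hT hϑ hκ hκ1 hK (R := Real.exp ℓ)
    (Y₀ := |2 * tc - v₁| + 2 * ℓ + 1) (θ := θ) (Real.one_le_exp (by linarith)) (by positivity) hθ
  have hea : 0 < Real.exp (ℓ + 1) := Real.exp_pos _
  refine ⟨|k₁| + 2 * Real.pi + Real.exp (ℓ + 1) + |tc| + 2 * ℓ + 20 + K, δ₀, hδ₀, ?_⟩
  intro Z q ε k δ z hW hk hδ
  have hk1 : k₁ ≤ |k₁| := le_abs_self _
  have hk1' := abs_nonneg k₁
  have htc0 := abs_nonneg tc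
  have hexpκ : Real.exp (tc + 1) < κ := by
    have h1 : Real.exp (tc + 2) ≤ κ := by
      rw [← Real.exp_log hκ]
      exact Real.exp_le_exp.2 htc
    exact lt_of_lt_of_le (Real.exp_lt_exp.2 (by linarith)) h1
  -- membership in the zone
  have hnorm : ∀ χ ∈ ball (0:ℂ) (2 * r₀), ‖T χ‖ ≤ |tc| + 2 := by
    intro χ hχ
    have h1 := (hC.XT χ (ball_subset_ball h2r hχ)).1
    have h2 := hC.low χ hχ
    have h3 := norm_le_abs_re_add_abs_im (T χ)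
    have h4 : |(T χ).im| ≤ |tc| + 1 := by
      have h5 := le_abs_self tc
      have h6 := neg_abs_le tc
      rw [abs_le]
      constructor <;> linarith
    linarith
  have hzone : ∀ p ∈ ball (0:ℂ) (2 * r₀) ×ˢ {w : ℂ | |w.re| < ℓ + 1 ∧ |w.im| < 2},
      (T p.1 - 2 * I * p.2, exp p.2) ∈ Wz k κ := by
    rintro ⟨χ, w⟩ ⟨h1, h2, h3⟩
    simp only at h1 h2 h3
    have h4 := hnorm χ h1
    have h5 := norm_le_abs_re_add_abs_im w
    have h6 : ‖T χ - 2 * I * w‖ ≤ ‖T χ‖ + 2 * ‖w‖ := by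
      refine (norm_sub_le _ _).trans ?_
      rw [norm_mul, norm_mul, norm_I, mul_one, RCLike.norm_ofNat]
    refine ⟨?_, ?_, ?_⟩
    · show ‖T χ - 2 * I * w‖ < k
      linarith
    · show ‖exp w‖ < k
      rw [norm_exp]
      have h7 : Real.exp w.re < Real.exp (ℓ + 1) :=
        Real.exp_lt_exp.2 ((le_abs_self _).trans_lt h2)
      linarith
    · show ‖exp w‖ ^ 2 * Real.exp (T χ - 2 * I * w).im < κ
      have h7 : (T χ - 2 * I * w).im = (T χ).im - 2 * w.re := by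
        simp
      rw [norm_exp, h7, ← Real.exp_nat_mul, ← Real.exp_add]
      have h8 : ((2:ℕ):ℝ) * w.re + ((T χ).im - 2 * w.re) = (T χ).im := by
        push_cast
        ring
      rw [h8]
      exact lt_trans (Real.exp_lt_exp.2 (hC.low χ h1).2) hexpκ
  have hts : ∀ χ ∈ ball (0:ℂ) r₁, T χ ∈ Ts δ₁ v₁ := fun χ hχ =>
    ⟨(hC.XT χ (ball_subset_ball hC.r1.le hχ)).1, (hC.im χ hχ).2⟩
  have hanT : ∀ χ ∈ ball (0:ℂ) r₁, AnalyticAt ℂ T χ := fun χ hχ =>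
    hC.anT χ (ball_subset_ball hC.r1.le hχ)
  have hr0r1 : r₀ < r₁ := hC.r02.trans hC.r21
  -- the sides
  have hside : ∀ (s : ℝ), |s| ≤ ℓ → ∀ (Z' : Sys) (q' : ℂ → ℂ) (k' : ℝ) (z' : ℂ × ℂ → ℂ),
      WL Z' q' ε k' δ κ K z' → k₁ ≤ k' → ∃ e : ℂ → ℂ, AnalyticOnNhd ℂ e (ball 0 r₁) ∧
        (∀ χ ∈ ball (0:ℂ) r₀, e χ = z' (T χ - 2 * I * s + Real.pi, Real.exp s * I) -
          (T χ - 2 * I * s + Real.pi)) ∧
        ∀ χ ∈ ball (0:ℂ) r₁, ‖e χ - -(I * Lm (th (T χ)))‖ ≤ θ := by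
    intro s hs Z' q' k' z' hW' hk'
    have hs' := abs_le.1 hs
    obtain ⟨Λ, hΛ1, hΛ2, hΛ3⟩ := hvw Z' q' ε k' δ z' hW' hk' hδ (Real.exp s) (by
      rw [one_div, ← Real.exp_neg]
      exact Real.exp_le_exp.2 hs'.1) (Real.exp_le_exp.2 hs'.2)
    rw [Real.log_exp] at hΛ3
    have him : ∀ χ, (T χ - 2 * I * (s:ℂ) + (Real.pi:ℂ)).im = (T χ).im - 2 * s := by
      intro χ
      simp
    have hre : ∀ χ, (T χ - 2 * I * (s:ℂ) + (Real.pi:ℂ)).re = (T χ).re + Real.pi := by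
      intro χ
      simp
    have hV : ∀ χ ∈ ball (0:ℂ) r₁, T χ - 2 * I * (s:ℂ) + (Real.pi:ℂ) ∈
        Vs δ₁ v₁ (|2 * tc - v₁| + 2 * ℓ + 1) (Real.exp s) := by
      intro χ hχ
      have h1 := hts χ hχ
      have h2 := hC.im χ hχ
      refine ⟨?_, ?_, ?_⟩
      · show |(T χ - 2 * I * (s:ℂ) + (Real.pi:ℂ)).re - Real.pi| < δ₁
        rw [hre, add_sub_cancel_right]
        exact h1.1
      · show -(|2 * tc - v₁| + 2 * ℓ + 1) < (T χ - 2 * I * (s:ℂ) + (Real.pi:ℂ)).im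
        rw [him]
        have h3 := neg_abs_le (2 * tc - v₁)
        linarith
      · show (T χ - 2 * I * (s:ℂ) + (Real.pi:ℂ)).im + 2 * Real.log (Real.exp s) < v₁
        rw [him, Real.log_exp]
        linarith
    refine ⟨fun χ => Λ (T χ - 2 * I * s + Real.pi) - (T χ - 2 * I * s + Real.pi), ?_, ?_, ?_⟩
    · intro χ hχ
      have h1 : AnalyticAt ℂ (fun χ => T χ - 2 * I * (s:ℂ) + (Real.pi:ℂ)) χ :=
        ((hanT χ hχ).sub analyticAt_const).add analyticAt_const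
      have h2 : AnalyticAt ℂ (fun χ => Λ (T χ - 2 * I * (s:ℂ) + (Real.pi:ℂ))) χ :=
        AnalyticAt.comp (g := Λ) (f := fun χ => T χ - 2 * I * (s:ℂ) + (Real.pi:ℂ))
          (hΛ1 _ (hV χ hχ)) h1
      exact h2.sub h1
    · intro χ hχ
      have h1 := hC.low χ (ball_subset_ball (by linarith [hC.r0]) hχ)
      show Λ (T χ - 2 * I * (s:ℂ) + (Real.pi:ℂ)) - (T χ - 2 * I * (s:ℂ) + (Real.pi:ℂ)) = _
      rw [hΛ2 _ (hV χ (ball_subset_ball hr0r1.le hχ)) ?_]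
      rw [him, ← Real.exp_nat_mul, ← Real.exp_add]
      have h8 : ((2:ℕ):ℝ) * s + ((T χ).im - 2 * s) = (T χ).im := by
        push_cast
        ring
      rw [h8]
      exact lt_trans (Real.exp_lt_exp.2 h1.2) hexpκ
    · intro χ hχ
      have h1 := hΛ3 _ (hV χ hχ)
      have h2 : T χ - 2 * I * (s:ℂ) + (Real.pi:ℂ) - Real.pi + 2 * (s:ℂ) * I = T χ := by ring
      rw [h2] at h1
      have h3 : Λ (T χ - 2 * I * (s:ℂ) + (Real.pi:ℂ)) - (T χ - 2 * I * (s:ℂ) + (Real.pi:ℂ)) -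
          -(I * Lm (th (T χ))) = Λ (T χ - 2 * I * (s:ℂ) + (Real.pi:ℂ)) -
            (T χ - 2 * I * (s:ℂ) + (Real.pi:ℂ) - I * Lm (th (T χ))) := by ring
      show ‖Λ (T χ - 2 * I * (s:ℂ) + (Real.pi:ℂ)) - (T χ - 2 * I * (s:ℂ) + (Real.pi:ℂ)) -
          -(I * Lm (th (T χ)))‖ ≤ θ
      rw [h3]
      exact h1
  suffices hsuff : ∃ Et : ℂ × ℂ → ℂ,
      AnalyticOnNhd ℂ Et (ball (0:ℂ) r₂ ×ˢ ball (0:ℂ) (1 / 2)) ∧
      (∀ p ∈ ball (0:ℂ) r₀ ×ˢ ball (0:ℂ) (1 / 2), Et p =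
        (fun p : ℂ × ℂ => z (T p.1 - 2 * I * p.2, exp p.2) - (T p.1 - 2 * I * p.2)) p) ∧
      ∀ p ∈ ball (0:ℂ) r₂ ×ˢ ball (0:ℂ) (1 / 2),
        ‖Et p - (fun χ : ℂ => -(I * Lm (th (T χ)))) p.1‖ ≤ θ' by
    obtain ⟨Et, hEt1, hEt2, hEt3⟩ := hsuff
    refine ⟨Et, hEt1, hEt2, ?_⟩
    intro p hp
    have h1 := hEt3 p hp
    simpa only [sub_neg_eq_add] using h1
  refine hplt (fun p => z (T p.1 - 2 * I * p.2, exp p.2) - (T p.1 - 2 * I * p.2))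
    (fun χ => -(I * Lm (th (T χ)))) ?_ ?_ ?_ ?_ ?_
  · -- analytic
    intro p hp
    have h1 : AnalyticAt ℂ T p.1 := hC.anT _ (ball_subset_ball h2r hp.1)
    have h2 : AnalyticAt ℂ (fun p : ℂ × ℂ => T p.1) p :=
      AnalyticAt.comp (g := T) (f := fun p : ℂ × ℂ => p.1) h1 analyticAt_fst
    have h3 : AnalyticAt ℂ (fun p : ℂ × ℂ => T p.1 - 2 * I * p.2) p :=
      h2.sub (analyticAt_const.mul analyticAt_snd)
    have h4 : AnalyticAt ℂ (fun p : ℂ × ℂ => exp p.2) p :=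
      AnalyticAt.comp (g := exp) (f := fun p : ℂ × ℂ => p.2) analyticAt_cexp analyticAt_snd
    have h5 : AnalyticAt ℂ (fun p : ℂ × ℂ => z (T p.1 - 2 * I * p.2, exp p.2)) p :=
      AnalyticAt.comp (g := z) (f := fun p : ℂ × ℂ => (T p.1 - 2 * I * p.2, exp p.2))
        (hW.an _ (hzone p hp)) (h3.prod h4)
    exact h5.sub h3
  · intro p hp
    exact (hW.bd _ (hzone p hp)).trans hKK'
  · intro χ hχ
    have h1 : AnalyticAt ℂ (fun χ => th (T χ)) χ :=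
      AnalyticAt.comp (g := th) (f := T) (hT.an _ (hts χ hχ)) (hanT χ hχ)
    have h2 : AnalyticAt ℂ (fun χ => Lm (th (T χ))) χ :=
      AnalyticAt.comp (g := Lm) (f := fun χ => th (T χ))
        (hS.anL _ (hT.sub (top1_rc hT.r_pos (hT.mem _ (hts χ hχ))))) h1
    exact (analyticAt_const.mul h2).neg
  · intro χ hχ
    have h1 := hCL _ (top1_rc hT.r_pos (hT.mem _ (hts χ hχ)))
    show ‖-(I * Lm (th (T χ)))‖ ≤ K'
    rw [norm_neg, norm_mul, norm_I, one_mul]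
    linarith
  · intro w hw1 hw2
    have hws : |w.re| < ℓ + 1 := by linarith
    have hww : |w.im| < 2 := by
      rw [hw2]
      linarith [Real.pi_lt_d2]
    have hww' : w = (w.re : ℂ) + (w.im : ℂ) * I := (re_add_im w).symm
    rcases (abs_eq (by positivity : (0:ℝ) ≤ Real.pi / 2)).1 hw2 with h0 | h0
    · obtain ⟨e, he1, he2, he3⟩ := hside w.re hw1 Z q k z hW (by linarith)
      refine ⟨e, he1, ?_, he3⟩
      intro χ hχ
      rw [he2 χ hχ]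
      have e1 : exp w = (Real.exp w.re : ℂ) * I := by
        conv_lhs => rw [hww', exp_add, h0]
        have h5 : ((Real.pi / 2 : ℝ) : ℂ) * I = Real.pi / 2 * I := by push_cast; ring
        rw [h5, exp_pi_div_two_mul_I, ofReal_exp]
      have e2 : T χ - 2 * I * w = T χ - 2 * I * (w.re : ℂ) + (Real.pi : ℂ) := by
        conv_lhs => rw [hww', h0]
        have h5 : ((Real.pi / 2 : ℝ) : ℂ) = Real.pi / 2 := by push_cast; ring
        rw [h5]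
        linear_combination (-(Real.pi:ℂ)) * I_mul_I
      show _ = z (T χ - 2 * I * w, exp w) - (T χ - 2 * I * w)
      rw [e1, e2]
    · have hW2 : WL Z q ε (k - 2 * Real.pi + 2 * Real.pi) δ κ K z := by
        rwa [sub_add_cancel]
      have hW3 := WL.shift (σ := -1) (Or.inr rfl) hW2 (by linarith) (by linarith)
      obtain ⟨e, he1, he2, he3⟩ := hside w.re hw1 _ _ (k - 2 * Real.pi) _ hW3 (by linarith)
      refine ⟨e, he1, ?_, he3⟩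
      intro χ hχ
      rw [he2 χ hχ]
      have e1 : exp w = -((Real.exp w.re : ℂ) * I) := by
        conv_lhs => rw [hww', exp_add, h0]
        have h5 : ((-(Real.pi / 2) : ℝ) : ℂ) * I = -(Real.pi / 2 * I) := by push_cast; ring
        rw [h5, exp_neg, exp_pi_div_two_mul_I, ofReal_exp, inv_I, mul_neg]
      have e2 : T χ - 2 * I * w = T χ - 2 * I * (w.re : ℂ) - (Real.pi : ℂ) := by
        conv_lhs => rw [hww', h0]
        have h5 : ((-(Real.pi / 2) : ℝ) : ℂ) = -(Real.pi / 2) := by push_cast; ring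
        rw [h5]
        linear_combination ((Real.pi:ℂ)) * I_mul_I
      have hmem := hzone (χ, w) ⟨ball_subset_ball (by linarith [hC.r0]) hχ, hws, hww⟩
      simp only at hmem
      have h6 : (T χ - 2 * I * w, (Real.exp w.re : ℂ) * I) ∈ Wz k κ := by
        refine ⟨hmem.1, ?_, ?_⟩
        · have := hmem.2.1
          rw [e1] at this
          simpa using this
        · have := hmem.2.2
          rw [e1] at this
          simpa using this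
      have h7 := hW.even _ h6
      simp only at h7
      show _ = z (T χ - 2 * I * w, exp w) - (T χ - 2 * I * w)
      rw [e1, h7, e2]
      push_cast
      have h8 : T χ - 2 * I * (w.re : ℂ) + (Real.pi : ℂ) + 2 * (Real.pi : ℂ) * -1 =
          T χ - 2 * I * (w.re : ℂ) - (Real.pi : ℂ) := by ring
      rw [h8]
      ring

end Pool.Agent.MP_ae5b4e_an_NB5
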