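import Pool.Agent.Lib.MP_ae5b4e_an_NB5.Four

/-!
# MP_ae5b4e_an, project NB_5(A): growth of the potential
-/

noncomputable section

namespace Pool.Agent.MP_ae5b4e_an_NB5

open Complex Set Filter Topology Metric
open Pool.Agent.MP_ae5b4e_an_NBT (St)
open Pool.Agent.MP_ae5b4e_an_NB2 (Sys)
open scoped ComplexConjugate

private theorem WinA_max {Q : ℂ → ℂ} (hd : Differentiable ℂ Q) (hper : ∀ z, Q (z + 1) = Q z)
    (y : ℝ) : ∃ z₀ : ℂ, 0 ≤ y → (|z₀.im| ≤ y ∧ ∀ w : ℂ, |w.im| ≤ y → ‖Q w‖ ≤ ‖Q z₀‖) := by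
  by_cases hy : 0 ≤ y
  swap
  · exact ⟨0, fun h => absurd h hy⟩
  have hK : IsCompact (Icc (0:ℝ) 1 ×ℂ Icc (-y) y) := isCompact_Icc.reProdIm isCompact_Icc
  have hne : (Icc (0:ℝ) 1 ×ℂ Icc (-y) y).Nonempty := by
    refine ⟨0, ?_⟩
    rw [mem_reProdIm]
    exact ⟨⟨by simp, by simp⟩, ⟨by simpa using hy, by simpa using hy⟩⟩
  obtain ⟨z₀, hz, hmax⟩ := hK.exists_isMaxOn hne hd.continuous.norm.continuousOn
  rw [mem_reProdIm] at hz
  refine ⟨z₀, fun _ => ⟨abs_le.2 ⟨hz.2.1, hz.2.2⟩, fun w hw => ?_⟩⟩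
  have hp : Function.Periodic Q 1 := hper
  have h1 : Q (w + ((-⌊w.re⌋ : ℤ) : ℂ) * 1) = Q w := hp.int_mul _ w
  rw [← h1]
  refine hmax ?_
  rw [mem_reProdIm]
  have h2 := abs_le.1 hw
  refine ⟨⟨?_, ?_⟩, ⟨?_, ?_⟩⟩
  · have := Int.floor_le w.re
    simp
    linarith
  · have := Int.lt_floor_add_one w.re
    simp
    linarith
  · simpa using h2.1
  · simpa using h2.2

private theorem WinA_coef {Q : ℂ → ℂ} (hd : Differentiable ℂ Q) (hper : ∀ z, Q (z + 1) = Q z)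
    (hnc : ¬ ∃ q : ℂ, ∀ z, Q z = q) : ∃ m : ℤ, m ≠ 0 ∧ cf Q m ≠ 0 := by
  by_contra hcon
  push Not at hcon
  apply hnc
  refine ⟨cf Q 0, fun z => ?_⟩
  have han : AnalyticOnNhd ℂ Q (St (-(|z.im| + 1)) (|z.im| + 1)) :=
    fun x _ => hd.analyticAt x
  have hpos : 0 < |z.im| + 1 := by positivity
  have hz : z ∈ St (-(|z.im| + 1)) (|z.im| + 1) :=
    ⟨by linarith [neg_abs_le z.im], by linarith [le_abs_self z.im]⟩
  have h1 := four_sum hpos han (fun t _ => hper t) hz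
  have h2 : HasSum (fun m : ℤ => cf Q m * exp (2 * Real.pi * I * m * z))
      (cf Q 0 * exp (2 * Real.pi * I * (0 : ℤ) * z)) := by
    apply hasSum_single
    intro m hm
    rw [hcon m hm, zero_mul]
  have h3 := h1.unique h2
  rw [h3]
  simp

private theorem WinA_low {Q : ℂ → ℂ} (hd : Differentiable ℂ Q) (hper : ∀ z, Q (z + 1) = Q z)
    (hnc : ¬ ∃ q : ℂ, ∀ z, Q z = q) : ∃ e₀ : ℝ, 0 < e₀ ∧ ∀ y M : ℝ, 0 ≤ y →
      (∀ w : ℂ, |w.im| ≤ y → ‖Q w‖ ≤ M) → e₀ * Real.exp (2 * Real.pi * y) ≤ M := by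
  obtain ⟨m, hm, hc⟩ := WinA_coef hd hper hnc
  refine ⟨‖cf Q m‖, norm_pos_iff.2 hc, fun y M hy hM => ?_⟩
  have han : AnalyticOnNhd ℂ Q (St (-(y + 1)) (y + 1)) := fun x _ => hd.analyticAt x
  have hM0 : 0 ≤ M := (norm_nonneg _).trans (hM 0 (by simpa using hy))
  have key : ‖cf Q m‖ ≤ M * Real.exp (-(2 * Real.pi * y)) := by
    rcases lt_or_gt_of_ne hm with h | h
    · have h1 := cf_bound han (fun t _ => hper t) (by linarith) (by linarith) (y := y)
        (by linarith) (by linarith) (M := M) (fun t ht => hM t (by rw [ht, abs_of_nonneg hy])) m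
      refine h1.trans (mul_le_mul_of_nonneg_left (Real.exp_le_exp.2 ?_) hM0)
      have h2 : (m : ℝ) ≤ -1 := by exact_mod_cast (by omega : m ≤ -1)
      have h3 : 0 ≤ 2 * Real.pi * y := by positivity
      nlinarith
    · have h1 := cf_bound han (fun t _ => hper t) (by linarith) (by linarith) (y := -y)
        (by linarith) (by linarith) (M := M)
        (fun t ht => hM t (by rw [ht, abs_neg, abs_of_nonneg hy])) m
      refine h1.trans (mul_le_mul_of_nonneg_left (Real.exp_le_exp.2 ?_) hM0)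
      have h2 : (1 : ℝ) ≤ m := by exact_mod_cast (by omega : 1 ≤ m)
      have h3 : 0 ≤ 2 * Real.pi * y := by positivity
      nlinarith
  calc ‖cf Q m‖ * Real.exp (2 * Real.pi * y)
      ≤ (M * Real.exp (-(2 * Real.pi * y))) * Real.exp (2 * Real.pi * y) :=
        mul_le_mul_of_nonneg_right key (Real.exp_pos _).le
    _ = M := by rw [mul_assoc, ← Real.exp_add, neg_add_cancel, Real.exp_zero, mul_one]

private theorem WinA_pow (a b : ℝ) : ∃ n : ℕ, a + b * (n : ℝ) ^ 2 < 2 ^ n := by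
  have h1 : Tendsto (fun n : ℕ => (n : ℝ) ^ 2 / (2 : ℝ) ^ n) atTop (𝓝 0) :=
    tendsto_pow_const_div_const_pow_of_one_lt 2 (by norm_num)
  have h2 : Tendsto (fun n : ℕ => (1 : ℝ) / (2 : ℝ) ^ n) atTop (𝓝 0) := by
    have := tendsto_pow_const_div_const_pow_of_one_lt (r := (2 : ℝ)) 0 (by norm_num)
    simpa using this
  have h3 : Tendsto (fun n : ℕ => a * ((1 : ℝ) / (2 : ℝ) ^ n) + b * ((n : ℝ) ^ 2 / (2 : ℝ) ^ n))
      atTop (𝓝 (a * 0 + b * 0)) := (h2.const_mul a).add (h1.const_mul b)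
  have h4 : ∀ᶠ n : ℕ in atTop,
      a * ((1 : ℝ) / (2 : ℝ) ^ n) + b * ((n : ℝ) ^ 2 / (2 : ℝ) ^ n) < 1 := by
    refine h3.eventually_lt_const ?_
    norm_num
  obtain ⟨n, hn⟩ := h4.exists
  refine ⟨n, ?_⟩
  have hpos : (0 : ℝ) < 2 ^ n := by positivity
  have h5 : a * ((1 : ℝ) / (2 : ℝ) ^ n) + b * ((n : ℝ) ^ 2 / (2 : ℝ) ^ n) =
      (a + b * (n : ℝ) ^ 2) / 2 ^ n := by ring
  rw [h5, div_lt_one hpos] at hn
  exact hn

/-- Let `m y = max ‖Q‖` over `|Im| ≤ y` (attained, period one). `Q` is not constant, so some Fourier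
coefficient `cf Q m₀`, `m₀ ≠ 0`, is not zero (otherwise `four_sum` with the strip `St (-1) 1` gives
`Q t = cf Q 0` there, identity theorem), and `cf_bound` (for the strip `St (-a) a`, `a > y`) with the
heights `∓ y` gives `m y ≥ e₀ exp (2 π y)`, `e₀ > 0`.
Suppose the assertion is false. Then for all `H ≥ H₀ = max B 1`: `m (H - 1) < C' H ^ B (1 + m (H/2))`
(`C' ≥ 1` without restriction). Put `x₀ = H₀ + 1`, `x (n + 1) = 2 x n - 1` (so `x n = 2 ^ n (x₀ - 1) +
1`), `G x = log (1 + m x)`; with `H = x (n+1) + 1` one has `H / 2 = x n`, so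
`G (x (n + 1)) ≤ G (x n) + log (2 C') + B log (x (n + 1) + 1) ≤ G (x n) + a (n + 1)` with a constant
`a`; so `G (x n) ≤ G x₀ + a n²`, but `G (x n) ≥ log e₀ + 2 π x n` grows like `2 ^ n`. -/
theorem growth {Q : ℂ → ℂ} (hd : Differentiable ℂ Q) (hper : ∀ z, Q (z + 1) = Q z)
    (hnc : ¬ ∃ q : ℂ, ∀ z, Q z = q) (B : ℕ) (C' : ℝ) :
    ∃ H : ℝ, (B:ℝ) ≤ H ∧ 1 ≤ H ∧ ∃ z₀ : ℂ, |z₀.im| ≤ H - 1 ∧
      ∀ w : ℂ, |w.im| ≤ H / 2 → C' * H ^ B * (1 + ‖Q w‖) ≤ ‖Q z₀‖ := by
  by_contra hcon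
  push Not at hcon
  choose zm hzm using WinA_max hd hper
  obtain ⟨e₀, he0, hlow⟩ := WinA_low hd hper hnc
  set g : ℝ → ℝ := fun y => 1 + ‖Q (zm y)‖ with hg
  have hg1 : ∀ y, 1 ≤ g y := fun y => by
    have := norm_nonneg (Q (zm y))
    simp only [hg]
    linarith
  set D : ℝ := max C' 1 with hD
  have hD1 : 1 ≤ D := le_max_right _ _
  have hstep : ∀ H : ℝ, (B:ℝ) ≤ H → 1 ≤ H → g (H - 1) ≤ 2 * D * H ^ B * g (H / 2) := by
    intro H h1 h2
    obtain ⟨h3, -⟩ := hzm (H - 1) (by linarith)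
    obtain ⟨w, hw, hlt⟩ := hcon H h1 h2 (zm (H - 1)) h3
    obtain ⟨-, h4⟩ := hzm (H / 2) (by linarith)
    have h5 := h4 w hw
    have hHB : 1 ≤ H ^ B := one_le_pow₀ h2
    have h6 : C' * H ^ B * (1 + ‖Q w‖) ≤ D * H ^ B * g (H / 2) := by
      have e1 : C' * H ^ B ≤ D * H ^ B :=
        mul_le_mul_of_nonneg_right (le_max_left _ _) (by linarith)
      have e2 : 1 + ‖Q w‖ ≤ g (H / 2) := by
        simp only [hg]
        linarith
      have e3 : 0 ≤ 1 + ‖Q w‖ := by positivity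
      have e4 : 0 ≤ D * H ^ B := by positivity
      calc C' * H ^ B * (1 + ‖Q w‖) ≤ D * H ^ B * (1 + ‖Q w‖) :=
            mul_le_mul_of_nonneg_right e1 e3
        _ ≤ D * H ^ B * g (H / 2) := mul_le_mul_of_nonneg_left e2 e4
    have h7 : 1 ≤ D * H ^ B * g (H / 2) :=
      one_le_mul_of_one_le_of_one_le (one_le_mul_of_one_le_of_one_le hD1 hHB) (hg1 _)
    have h8 : g (H - 1) = 1 + ‖Q (zm (H - 1))‖ := rfl
    rw [h8]
    nlinarith
  -- the sequence
  set s : ℝ := max (B : ℝ) 1 with hs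
  have hs1 : 1 ≤ s := le_max_right _ _
  have hsB : (B : ℝ) ≤ s := le_max_left _ _
  set x : ℕ → ℝ := fun n => 2 ^ n * s + 1 with hx
  set a : ℝ := Real.log (2 * D) + B * (Real.log 2 + Real.log (s + 1)) with ha
  have hl2 : 0 ≤ Real.log 2 := Real.log_nonneg (by norm_num)
  have hls : 0 ≤ Real.log (s + 1) := Real.log_nonneg (by linarith)
  have hlD : 0 ≤ Real.log (2 * D) := Real.log_nonneg (by linarith)
  have ha0 : 0 ≤ a := by positivity
  have hG : ∀ n : ℕ, Real.log (g (x (n + 1))) ≤ Real.log (g (x n)) + a * (n + 1) := by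
    intro n
    have hpow : (1 : ℝ) ≤ 2 ^ n := one_le_pow₀ (by norm_num)
    have hxn : 1 ≤ x n := by
      simp only [hx]
      nlinarith
    have hxs : s ≤ x n := by
      simp only [hx]
      nlinarith
    have h1 := hstep (2 * x n) (by linarith) (by linarith)
    have h2 : 2 * x n - 1 = x (n + 1) := by
      simp only [hx]
      ring
    have h3 : 2 * x n / 2 = x n := by ring
    rw [h2, h3] at h1
    have h4 := Real.log_le_log (by linarith [hg1 (x (n + 1))]) h1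
    have hgp : 0 < g (x n) := by linarith [hg1 (x n)]
    have hxp : 0 < 2 * x n := by linarith
    rw [Real.log_mul (by positivity) hgp.ne', Real.log_mul (by positivity) (by positivity),
      Real.log_pow] at h4
    have h5 : Real.log (2 * x n) ≤ (n + 1) * (Real.log 2 + Real.log (s + 1)) := by
      have h6 : 2 * x n ≤ 2 ^ (n + 1) * (s + 1) := by
        simp only [hx, pow_succ]
        nlinarith
      have h7 := Real.log_le_log hxp h6
      have h7' : Real.log (2 ^ (n + 1) * (s + 1)) =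
          ((n + 1 : ℕ) : ℝ) * Real.log 2 + Real.log (s + 1) := by
        rw [Real.log_mul (by positivity) (by linarith), Real.log_pow]
      rw [h7'] at h7
      push_cast at h7
      have h8 : (0 : ℝ) ≤ n := Nat.cast_nonneg n
      nlinarith
    have h9 : (B : ℝ) * Real.log (2 * x n) ≤
        B * ((n + 1) * (Real.log 2 + Real.log (s + 1))) :=
      mul_le_mul_of_nonneg_left h5 (Nat.cast_nonneg B)
    have h10 : Real.log (2 * D) ≤ Real.log (2 * D) * (n + 1) := by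
      have h8 : (0 : ℝ) ≤ n := Nat.cast_nonneg n
      nlinarith
    rw [ha]
    nlinarith
  have hG2 : ∀ n : ℕ, Real.log (g (x n)) ≤ Real.log (g (x 0)) + a * (n : ℝ) ^ 2 := by
    intro n
    induction n with
    | zero => simp
    | succ n ih =>
      have h1 := hG n
      have h8 : (0 : ℝ) ≤ n := Nat.cast_nonneg n
      push_cast
      nlinarith
  obtain ⟨n, hn⟩ := WinA_pow (Real.log (g (x 0)) - Real.log e₀) a
  have hpow : (1 : ℝ) ≤ 2 ^ n := one_le_pow₀ (by norm_num)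
  have hxn : (2 : ℝ) ^ n ≤ x n := by
    simp only [hx]
    nlinarith
  have hx0 : 0 ≤ x n := by linarith
  have h1 := hlow (x n) (g (x n)) hx0 (fun w hw => by
    have := (hzm (x n) hx0).2 w hw
    simp only [hg]
    linarith)
  have h2 := Real.log_le_log (by positivity) h1
  rw [Real.log_mul he0.ne' (Real.exp_pos _).ne', Real.log_exp] at h2
  have h3 := hG2 n
  have h4 : (2 : ℝ) ^ n ≤ 2 * Real.pi * x n := by
    have := Real.pi_gt_three
    nlinarith
  linarith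

end Pool.Agent.MP_ae5b4e_an_NB5
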