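import Pool.Agent.Lib.MP_ae5b4e_an_NB5.Defs

/-!
# MP_ae5b4e_an, project NB_5(A): estimates for a window label
-/

noncomputable section

namespace Pool.Agent.MP_ae5b4e_an_NB5

open Complex Set Filter Topology Metric
open Pool.Agent.MP_ae5b4e_an_NBT (St)
open Pool.Agent.MP_ae5b4e_an_NB2 (Sys)
open scoped ComplexConjugate

variable {Z : Sys} {q : ℂ → ℂ} {ε k δ κ K : ℝ} {z : ℂ × ℂ → ℂ}

/-- Schwarz lemma for `γ' ↦ z (u, γ') - u` on `ball 0 ρ` (bounded by `K`, zero at `0`); the points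
`(u, γ')` lie in `Wz k κ`. -/
theorem WL.schwarz (h : WL Z q ε k δ κ K z) {u γ : ℂ} {ρ : ℝ} (hu : ‖u‖ < k) (hρ : 0 < ρ)
    (hρk : ρ ≤ k) (hρκ : ρ ^ 2 * Real.exp u.im ≤ κ) (hγ : ‖γ‖ < ρ) :
    ‖z (u, γ) - u‖ ≤ K * ‖γ‖ / ρ := by
  have hmem : ∀ w ∈ ball (0:ℂ) ρ, (u, w) ∈ Wz k κ := by
    intro w hw
    rw [mem_ball_zero_iff] at hw
    refine ⟨hu, hw.trans_le hρk, ?_⟩
    have h1 : ‖w‖ ^ 2 < ρ ^ 2 := pow_lt_pow_left₀ hw (norm_nonneg _) two_ne_zero
    exact lt_of_lt_of_le (mul_lt_mul_of_pos_right h1 (Real.exp_pos _)) hρκ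
  have hd : DifferentiableOn ℂ (fun w => z (u, w) - u) (ball 0 ρ) := fun w hw =>
    (((h.an (u, w) (hmem w hw)).differentiableAt.comp w
      ((differentiableAt_const u).prodMk differentiableAt_id)).sub_const u).differentiableWithinAt
  have h0 : z (u, 0) - u = 0 := by
    rw [h.zero u hu, sub_self]
  have hm : MapsTo (fun w => z (u, w) - u) (ball 0 ρ) (closedBall (z (u, 0) - u) K) := by
    intro w hw
    rw [h0, mem_closedBall_zero_iff]
    exact h.bd _ (hmem w hw)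
  have h1 := dist_le_div_mul_dist_of_mapsTo_ball hd hm (z := γ) (by
    rw [mem_ball_zero_iff]
    exact hγ)
  simp only [h0, dist_zero_right] at h1
  calc ‖z (u, γ) - u‖ ≤ K / ρ * ‖γ‖ := h1
    _ = K * ‖γ‖ / ρ := by ring

/-- `G u = z (u, γ) - u` is analytic and bounded by `s` on `closedBall u₀ 1`; Cauchy estimates on
discs
of radius `1/2` about the points of `closedBall u₀ (1/2)`: `‖G'‖ ≤ 2 s`, `‖G''‖ ≤ 8 s`. The last
statement
is `WL.node` (`l + x = z (u₀ + ε γ, γ)`). -/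
theorem WL.steps (h : WL Z q ε k δ κ K z) {u₀ γ : ℂ} {s : ℝ} (hs : 0 ≤ s)
    (hn : ∀ u : ℂ, ‖u - u₀‖ ≤ 1 → (u, γ) ∈ Wz k κ ∧ ‖z (u, γ) - u‖ ≤ s) (hw : ε * ‖γ‖ ≤ 1 / 4) :
    ‖(z (u₀, γ) - z (u₀ - ε * γ, γ)) / ε - γ‖ ≤ 2 * s * ‖γ‖ ∧
    ‖z (u₀ + ε * γ, γ) - 2 * z (u₀, γ) + z (u₀ - ε * γ, γ)‖ ≤ 8 * s * (ε * ‖γ‖) ^ 2 ∧
    Pn Z (z (u₀, γ)) (z (u₀ - ε * γ, γ)) (z (u₀ + ε * γ, γ) - z (u₀, γ)) = 0 := by
  have hε := h.ε_pos
  have hnw : ‖(ε:ℂ) * γ‖ = ε * ‖γ‖ := by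
    rw [norm_mul, Complex.norm_real, Real.norm_eq_abs, abs_of_pos hε]
  have hwm : (ε:ℂ) * γ ∈ ball (0:ℂ) 1 := by
    rw [mem_ball_zero_iff, hnw]
    linarith
  have hp : ∀ w ∈ ball (0:ℂ) 1, ‖u₀ + w - u₀‖ ≤ 1 := by
    intro w hw
    rw [mem_ball_zero_iff] at hw
    rw [add_sub_cancel_left]
    exact hw.le
  have hq : ∀ w ∈ ball (0:ℂ) 1, ‖u₀ - w - u₀‖ ≤ 1 := by
    intro w hw
    rw [mem_ball_zero_iff] at hw
    have e : u₀ - w - u₀ = -w := by ring
    rw [e, norm_neg]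
    exact hw.le
  have h00 : ‖u₀ - u₀‖ ≤ 1 := by simp
  set G : ℂ → ℂ := fun u => z (u, γ) - u with hG
  have hGd : ∀ u : ℂ, ‖u - u₀‖ ≤ 1 → DifferentiableAt ℂ G u := fun u hu =>
    ((h.an (u, γ) (hn u hu).1).differentiableAt.comp u
      (differentiableAt_id.prodMk (differentiableAt_const γ))).sub differentiableAt_id
  have hGb : ∀ u : ℂ, ‖u - u₀‖ ≤ 1 → ‖G u‖ ≤ s := fun u hu => (hn u hu).2
  refine ⟨?_, ?_, ?_⟩
  · have hd : DifferentiableOn ℂ (fun w => G u₀ - G (u₀ - w)) (ball 0 1) := by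
      intro w hw
      refine DifferentiableAt.differentiableWithinAt ?_
      exact ((hGd (u₀ - w) (hq w hw)).comp w (differentiableAt_id.const_sub u₀)).const_sub _
    have hm : MapsTo (fun w => G u₀ - G (u₀ - w)) (ball 0 1)
        (closedBall (G u₀ - G (u₀ - 0)) (2 * s)) := by
      intro w hw
      rw [sub_zero, sub_self, mem_closedBall_zero_iff]
      calc ‖G u₀ - G (u₀ - w)‖ ≤ ‖G u₀‖ + ‖G (u₀ - w)‖ := norm_sub_le _ _
        _ ≤ s + s := add_le_add (hGb _ h00) (hGb _ (hq w hw))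
        _ = 2 * s := by ring
    have h1 := dist_le_div_mul_dist_of_mapsTo_ball hd hm hwm
    simp only [sub_zero, sub_self, dist_zero_right, div_one] at h1
    rw [hnw] at h1
    have e : (z (u₀, γ) - z (u₀ - ε * γ, γ)) / ε - γ = (G u₀ - G (u₀ - ε * γ)) / ε := by
      have hε' : (ε:ℂ) ≠ 0 := by exact_mod_cast hε.ne'
      simp only [hG]
      field_simp
      ring
    rw [e, norm_div, Complex.norm_real, Real.norm_eq_abs, abs_of_pos hε, div_le_iff₀ hε]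
    calc ‖G u₀ - G (u₀ - ε * γ)‖ ≤ 2 * s * (ε * ‖γ‖) := h1
      _ = 2 * s * ‖γ‖ * ε := by ring
  · have hd : DifferentiableOn ℂ (fun w => G (u₀ + w) - 2 * G u₀ + G (u₀ - w)) (ball 0 1) := by
      intro w hw
      refine DifferentiableAt.differentiableWithinAt ?_
      exact (((hGd (u₀ + w) (hp w hw)).comp w (differentiableAt_id.const_add u₀)).sub_const _).add
        ((hGd (u₀ - w) (hq w hw)).comp w (differentiableAt_id.const_sub u₀))
    have e0 : G (u₀ + 0) - 2 * G u₀ + G (u₀ - 0) = 0 := by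
      rw [add_zero, sub_zero]
      ring
    have hm : MapsTo (fun w => G (u₀ + w) - 2 * G u₀ + G (u₀ - w)) (ball 0 1)
        (closedBall (G (u₀ + 0) - 2 * G u₀ + G (u₀ - 0)) (4 * s)) := by
      intro w hw
      rw [e0, mem_closedBall_zero_iff]
      have h1 : ‖(2:ℂ) * G u₀‖ ≤ 2 * s := by
        rw [norm_mul, Complex.norm_ofNat]
        linarith [hGb u₀ h00]
      calc ‖G (u₀ + w) - 2 * G u₀ + G (u₀ - w)‖ ≤ ‖G (u₀ + w) - 2 * G u₀‖ + ‖G (u₀ - w)‖ :=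
            norm_add_le _ _
        _ ≤ (‖G (u₀ + w)‖ + ‖2 * G u₀‖) + ‖G (u₀ - w)‖ := by
            gcongr
            exact norm_sub_le _ _
        _ ≤ (s + 2 * s) + s := by
            gcongr
            · exact hGb _ (hp w hw)
            · exact hGb _ (hq w hw)
        _ = 4 * s := by ring
    have ho : (fun w => (G (u₀ + w) - 2 * G u₀ + G (u₀ - w)) -
        (G (u₀ + 0) - 2 * G u₀ + G (u₀ - 0))) =o[𝓝 0] fun w : ℂ => ‖w - 0‖ ^ 1 := by
      have h0 : HasDerivAt G (deriv G u₀) u₀ := (hGd u₀ h00).hasDerivAt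
      have h1 : HasDerivAt (fun w => G (u₀ + w)) (deriv G u₀) 0 := by
        have h2 : HasDerivAt G (deriv G u₀) (u₀ + 0) := by rwa [add_zero]
        have h3 := h2.comp (0:ℂ) ((hasDerivAt_id (0:ℂ)).const_add u₀)
        rw [mul_one] at h3
        exact h3
      have h4 : HasDerivAt (fun w => G (u₀ - w)) (-deriv G u₀) 0 := by
        have h2 : HasDerivAt G (deriv G u₀) (u₀ - 0) := by rwa [sub_zero]
        have h3 := h2.comp (0:ℂ) ((hasDerivAt_id (0:ℂ)).const_sub u₀)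
        rw [mul_neg, mul_one] at h3
        exact h3
      have h5 : HasDerivAt (fun w => G (u₀ + w) - 2 * G u₀ + G (u₀ - w)) 0 0 := by
        have h6 := (h1.sub_const (2 * G u₀)).add h4
        rw [add_neg_cancel] at h6
        exact h6
      have h7 := h5.isLittleO
      simp only [smul_zero, sub_zero, pow_one] at h7 ⊢
      exact h7.norm_right
    have h1 := dist_le_mul_div_pow_of_mapsTo_ball_of_isLittleO (n := 1) hd hm ho hwm
    simp only [e0, dist_zero_right, div_one] at h1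
    rw [hnw] at h1
    have e : z (u₀ + ε * γ, γ) - 2 * z (u₀, γ) + z (u₀ - ε * γ, γ) =
        G (u₀ + ε * γ) - 2 * G u₀ + G (u₀ - ε * γ) := by
      simp only [hG]
      ring
    rw [e]
    refine h1.trans ?_
    have h2 : 0 ≤ s * (ε * ‖γ‖) ^ 2 := by positivity
    norm_num at *
    nlinarith
  · have h1 := h.node u₀ γ (hn u₀ h00).1 (hn _ (hp _ hwm)).1 (hn _ (hq _ hwm)).1
    unfold Pn
    rw [add_sub_cancel]
    exact h1

end Pool.Agent.MP_ae5b4e_an_NB5
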